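import Pool.Agent.LibHB64.Defs

set_option autoImplicit false

/-!
Definitions of the block AN of MP_8accfa_co (duality, anisotropy, Lefschetz; everything happens in `K ^ Fac`).
`a j v` are the coefficients of the forms `θ_j`, `c F` the point of the facet `F` (`Pts`), `k` a field over which the
derivations are linear.
-/

namespace Pool.Agent.LibHB64

open MvPolynomial Module

variable {V : Type*} [Fintype V] [DecidableEq V] {K : Type*} [Field K] {d : ℕ}

/-- the determinant of the forms on the facet `F` (in characteristic two it does not depend on the order of `F`) -/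
noncomputable def dA (a : Fin d → V → K) (F : Finset V) : K :=
  if h : F.card = d then (Matrix.of fun j k : Fin d => a j ((Finset.equivFinOfCardEq h).symm k)).det else 0

/-- the weight of the facet `F` -/
noncomputable def eps (a : Fin d → V → K) (c : Finset V → V → K) (F : Finset V) : K :=
  (dA a F * ∏ v ∈ F, c F v)⁻¹

/-- the degree functional on `K ^ Fac` -/
noncomputable def dg (D : Finset (Finset V)) (a : Fin d → V → K) (c : Finset V → V → K)
    (y : {F // F ∈ Fac d D} → K) : K := ∑ F, eps a c F.1 * y F

/-- the value of the monomial with the exponents `M` at the point `y` -/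
def pw (y : V → K) (M : V → ℕ) : K := ∏ v, y v ^ M v

/-- how often `v` occurs among `I 0, ..., I (d - 1)` -/
def cnt (I : Fin d → V) (v : V) : ℕ := (Finset.univ.filter fun j => I j = v).card

/-- `E 0 (I 0)` after `E 1 (I 1)` after ... after `E (d - 1) (I (d - 1))` -/
def DI {k : Type*} [Field k] [Algebra k K] (E : Fin d → V → Derivation k K K) (I : Fin d → V) (y : K) : K :=
  (List.finRange d).foldr (fun j z => E j (I j) z) y

/-- the derivations `∂/∂a_(j,i)` -/
def IsE {k : Type*} [Field k] [Algebra k K] (E : Fin d → V → Derivation k K K) (a : Fin d → V → K) : Prop :=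
  ∀ j i l w, E j i (a l w) = if j = l ∧ i = w then 1 else 0

/-- the derivations `∂/∂λ_v` -/
def IsL {k : Type*} [Field k] [Algebra k K] (E : V → Derivation k K K) (a : Fin d → V → K) (l : V → K) : Prop :=
  (∀ v w, E v (l w) = if v = w then 1 else 0) ∧ ∀ v j w, E v (a j w) = 0

/-- the linear polynomials `X_v = b_v + ∑ k, b_(v,k) u_k`, `b_v = b_(v,p)` -/
noncomputable def gX (b : V → Fin d → K) (p : Fin d) (v : V) : MvPolynomial (Fin d) K :=
  C (b v p) + ∑ k, C (b v k) * X k

end Pool.Agent.LibHB64
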