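import Mathlib

set_option autoImplicit false

/-!
Row AN1 (MEDIUM, ONLY MATHLIB). A derivation on a determinant and on the inverse matrix.
* `der_det_zero`: `Matrix.det_apply`, a derivation kills every product of killed entries (and signs).
* `der_det`: `A.det = ∑ l, A j l * A.adjugate l j` (`Matrix.det_eq_sum_mul_adjugate_row`), `A.adjugate l j = (A.updateRow j (Pi.single l 1)).det`
  (`Matrix.adjugate_apply`); all entries of this matrix are killed by `E` (the entries of the row `j` are `0` and `1`), so only the term `E (A j i) * A.adjugate i j` is left.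
* `der_inv`: `E (x⁻¹) = - x⁻¹ * x⁻¹ * E x` (`Derivation.leibniz_inv` or from `x * x⁻¹ = 1`), `A⁻¹ = A.det⁻¹ • A.adjugate` (`Matrix.inv_def`). For the entries: differentiate `A * A⁻¹ = 1` entrywise
  (`E` of a sum of products), in matrix form `A * E(A⁻¹) = - E(A) * A⁻¹`, multiply by `A⁻¹`; `E(A)` is the matrix unit `(j, i)`.
-/

namespace Pool.Agent.LibHB64

open MvPolynomial Module

variable {V : Type*} [Fintype V] [DecidableEq V] {K : Type*} [Field K] {d : ℕ} {D B : Finset (Finset V)}

private theorem AN1_prod {k : Type*} [Field k] [Algebra k K] (E : Derivation k K K) {ι : Type*} (s : Finset ι)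
    (f : ι → K) (h : ∀ i ∈ s, E (f i) = 0) : E (∏ i ∈ s, f i) = 0 := by
  classical
  induction s using Finset.induction_on with
  | empty => simp
  | insert a s ha ih =>
    rw [Finset.prod_insert ha, Derivation.leibniz, ih fun i hi => h i (Finset.mem_insert_of_mem hi),
      h a (Finset.mem_insert_self a s)]
    simp

private theorem AN1_adj {k : Type*} [Field k] [Algebra k K] {n : ℕ} (E : Derivation k K K)
    (A : Matrix (Fin n) (Fin n) K) (hd : ∀ M : Matrix (Fin n) (Fin n) K, (∀ l w, E (M l w) = 0) → E M.det = 0)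
    (l j : Fin n) (h : ∀ r w, r ≠ j → E (A r w) = 0) : E (A.adjugate l j) = 0 := by
  rw [Matrix.adjugate_apply]
  apply hd
  intro r w
  rw [Matrix.updateRow_apply]
  by_cases hr : r = j
  · rw [if_pos hr, Pi.single_apply]
    split_ifs
    · exact E.map_one_eq_zero
    · exact E.map_zero
  · rw [if_neg hr]
    exact h r w hr

theorem der_det_zero {k : Type*} [Field k] [Algebra k K] {n : ℕ} (E : Derivation k K K) (A : Matrix (Fin n) (Fin n) K)
    (h : ∀ l w, E (A l w) = 0) : E A.det = 0 := by
  rw [Matrix.det_apply, map_sum]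
  refine Finset.sum_eq_zero fun σ _ => ?_
  have h1 : E (∏ i, A (σ i) i) = 0 := AN1_prod E _ _ fun i _ => h _ _
  rcases Int.units_eq_one_or (Equiv.Perm.sign σ) with hs | hs
  · rw [hs, one_smul, h1]
  · rw [hs, Units.neg_smul, one_smul, map_neg, h1, neg_zero]

theorem der_det {k : Type*} [Field k] [Algebra k K] {n : ℕ} (E : Derivation k K K) (A : Matrix (Fin n) (Fin n) K) (j i : Fin n)
    (h : ∀ l w, E (A l w) = if j = l ∧ i = w then 1 else 0) : E A.det = A.adjugate i j := by
  rw [Matrix.det_eq_sum_mul_adjugate_row A j, map_sum]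
  have h1 : ∀ l, E (A j l * A.adjugate l j) = if i = l then A.adjugate i j else 0 := by
    intro l
    rw [Derivation.leibniz, AN1_adj E A (der_det_zero E) l j fun r w hr => by
      rw [h r w, if_neg]
      rintro ⟨hjr, -⟩
      exact hr hjr.symm, h j l]
    by_cases hil : i = l
    · subst hil
      simp
    · rw [if_neg (fun hh => hil hh.2), if_neg hil]
      simp
  rw [Finset.sum_congr rfl fun l _ => h1 l, Finset.sum_ite_eq]
  simp

theorem der_inv {k : Type*} [Field k] [Algebra k K] {n : ℕ} (E : Derivation k K K) (A : Matrix (Fin n) (Fin n) K) (j i : Fin n)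
    (h : ∀ l w, E (A l w) = if j = l ∧ i = w then 1 else 0) (hA : A.det ≠ 0) :
    E (A.det⁻¹) = -(A.det⁻¹ * A⁻¹ i j) ∧ ∀ v l, E (A⁻¹ v l) = -(A⁻¹ v j * A⁻¹ i l) := by
  have hinv : A⁻¹ i j = A.det⁻¹ * A.adjugate i j := by
    rw [Matrix.inv_def, Ring.inverse_eq_inv', Matrix.smul_apply, smul_eq_mul]
  constructor
  · rw [Derivation.leibniz_inv, der_det E A j i h, hinv, smul_eq_mul]
    ring
  · have hu : IsUnit A.det := isUnit_iff_ne_zero.2 hA
    have hA1 : A * A⁻¹ = 1 := Matrix.mul_nonsing_inv A hu
    have hA2 : A⁻¹ * A = 1 := Matrix.nonsing_inv_mul A hu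
    set B : Matrix (Fin n) (Fin n) K := A⁻¹.map E with hB
    set EA : Matrix (Fin n) (Fin n) K := A.map E with hEA
    have h1 : A * B + EA * A⁻¹ = 0 := by
      ext v l
      have h2 : E ((A * A⁻¹) v l) = 0 := by
        rw [hA1, Matrix.one_apply]
        split_ifs
        · exact E.map_one_eq_zero
        · exact E.map_zero
      rw [Matrix.mul_apply, map_sum] at h2
      rw [Matrix.add_apply, Matrix.mul_apply, Matrix.mul_apply, ← Finset.sum_add_distrib,
        Matrix.zero_apply, ← h2]
      refine Finset.sum_congr rfl fun w _ => ?_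
      rw [Derivation.leibniz, hB, hEA, Matrix.map_apply, Matrix.map_apply, smul_eq_mul, smul_eq_mul]
      ring
    have h3 : B = -(A⁻¹ * EA * A⁻¹) := by
      have h4 : A * B = -(EA * A⁻¹) := eq_neg_of_add_eq_zero_left h1
      calc B = A⁻¹ * (A * B) := by rw [← Matrix.mul_assoc, hA2, Matrix.one_mul]
        _ = -(A⁻¹ * EA * A⁻¹) := by rw [h4, Matrix.mul_neg, Matrix.mul_assoc]
    intro v l
    have h5 : E (A⁻¹ v l) = B v l := rfl
    rw [h5, h3, Matrix.neg_apply, Matrix.mul_apply]
    congr 1
    have h6 : ∀ w, (A⁻¹ * EA) v w = if i = w then A⁻¹ v j else 0 := by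
      intro w
      rw [Matrix.mul_apply]
      have h7 : ∀ x, A⁻¹ v x * EA x w = if j = x then (if i = w then A⁻¹ v j else 0) else 0 := by
        intro x
        rw [hEA, Matrix.map_apply, h x w]
        by_cases hx : j = x
        · subst hx
          by_cases hw : i = w
          · simp [hw]
          · simp [hw]
        · simp [hx]
      rw [Finset.sum_congr rfl fun x _ => h7 x, Finset.sum_ite_eq]
      simp
    rw [Finset.sum_congr rfl fun w _ => by rw [h6 w]]
    simp only [ite_mul, zero_mul, Finset.sum_ite_eq, Finset.mem_univ, if_true]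

theorem der_inv_zero {k : Type*} [Field k] [Algebra k K] {n : ℕ} (E : Derivation k K K) (A : Matrix (Fin n) (Fin n) K)
    (h : ∀ l w, E (A l w) = 0) (hA : A.det ≠ 0) : E (A.det⁻¹) = 0 ∧ ∀ v l, E (A⁻¹ v l) = 0 := by
  have h1 : E A.det = 0 := der_det_zero E A h
  have h2 : E (A.det⁻¹) = 0 := by
    rw [Derivation.leibniz_inv, h1, smul_zero]
  refine ⟨h2, fun v l => ?_⟩
  have hinv : A⁻¹ v l = A.det⁻¹ * A.adjugate v l := by
    rw [Matrix.inv_def, Ring.inverse_eq_inv', Matrix.smul_apply, smul_eq_mul]
  rw [hinv, Derivation.leibniz, h2, AN1_adj E A (der_det_zero E) v l fun r w _ => h r w]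
  simp

end Pool.Agent.LibHB64
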