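import Pool.Agent.LibHB64.AN0

set_option autoImplicit false

/-!
Row AN10 (MEDIUM, ONLY Defs). Values of polynomials at the points. A monomial whose support is not in `D` has the value zero at every `c F`, `F ∈ Fac d D` (`Pts.supp`; if the support is contained in `F ∈ D` it is in `D`).
* `ev_mulD`: so `ev (proj K D q) = ev q` (linear in `q`, check on monomials: `Basis.constr_basis`), and `ev` is multiplicative.
* `pw_mem`: `M.support ∈ D`: an element of `mon`; otherwise the vector is zero.
* `UW_mul`: bilinear; for monomials `x^m` (support in `D \ B`) and `x^n` (support in `D`): the support of `x^(m+n)` is the union; if it is not in `D` the value is zero, if it is in `D` it is not in `B` (`B` is closed under subsets: `HBallB.sph`).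
* `UW_succ`: the value of the last form `th a p` is `1` at every `c F` (`Pts.eq`), so `ev (x^m) = ∑ v, a p v • ev (x^m x_v)`, each summand is in `UW (i+1)` (for `X = D` by `pw_mem`, for `X = D \ B` by `UW_mul` with `j = 1`).
* `ev_Th`: generators `mulD D (th a j) q`, `q ∈ mon K X i`: value `0` if `(j : ℕ) + 1 ≠ d`, the value of `q` otherwise. * `UW_der`: `E` kills `pw (c F) m`; span.
-/

namespace Pool.Agent.LibHB64

open MvPolynomial Module

variable {V : Type*} [Fintype V] [DecidableEq V] {K : Type*} [Field K] {d : ℕ} {D B : Finset (Finset V)}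

theorem ev_apply (c : Finset V → V → K) (q : MvPolynomial V K) (F : {F // F ∈ Fac d D}) :
    ev d D c q F = aeval (c F.1) q := by
  rfl

theorem ev_monomial (c : Finset V → V → K) (m : V →₀ ℕ) (F : {F // F ∈ Fac d D}) :
    ev d D c (monomial m 1) F = pw (c F.1) m := by
  rw [ev_apply, aeval_monomial, map_one, one_mul]
  exact Finsupp.prod_fintype _ _ (fun v => pow_zero _)

private lemma AN10_zero (hD : IsCx D) {a : Fin d → V → K} {c : Finset V → V → K} (hc : Pts d D a c)
    (m : V →₀ ℕ) (hm : m.support ∉ D) (F : Finset V) (hF : F ∈ Fac d D) : pw (c F) m = 0 := by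
  have h1 : ¬ m.support ⊆ F := fun h => hm (hD.2 F (Finset.mem_filter.1 hF).1 _ h)
  obtain ⟨v, hv, hvF⟩ := Finset.not_subset.1 h1
  unfold pw
  apply Finset.prod_eq_zero (Finset.mem_univ v)
  rw [hc.supp F hF v hvF]
  exact zero_pow (Finsupp.mem_support_iff.1 hv)

private lemma AN10_proj (hD : IsCx D) {a : Fin d → V → K} {c : Finset V → V → K} (hc : Pts d D a c)
    (F : {F // F ∈ Fac d D}) (r : MvPolynomial V K) :
    aeval (c F.1) (proj K D r) = (aeval (c F.1) r : K) := by
  have h : (aeval (c F.1) : MvPolynomial V K →ₐ[K] K).toLinearMap ∘ₗ proj K D =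
      (aeval (c F.1) : MvPolynomial V K →ₐ[K] K).toLinearMap := by
    apply (basisMonomials V K).ext
    intro m
    show aeval (c F.1) (proj K D (basisMonomials V K m)) = (aeval (c F.1) (basisMonomials V K m) : K)
    unfold proj
    rw [Basis.constr_basis, coe_basisMonomials]
    split_ifs with hm
    · rfl
    · rw [map_zero]
      have h1 := AN10_zero hD hc m hm F.1 F.2
      have h2 := ev_monomial (d := d) (D := D) c m F
      rw [ev_apply, h1] at h2
      exact h2.symm
  exact LinearMap.congr_fun h r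

theorem ev_mulD (hD : IsCx D) {a : Fin d → V → K} {c : Finset V → V → K} (hc : Pts d D a c) (p q : MvPolynomial V K)
    (F : {F // F ∈ Fac d D}) : ev d D c (mulD D p q) F = aeval (c F.1) p * ev d D c q F := by
  rw [ev_apply, ev_apply]
  have h1 : mulD D p q = proj K D (p * q) := rfl
  rw [h1, AN10_proj hD hc F, map_mul]

theorem pw_mem (hD : IsCx D) {a : Fin d → V → K} {c : Finset V → V → K} (hc : Pts d D a c) (m : V →₀ ℕ) :
    (fun F : {F // F ∈ Fac d D} => pw (c F.1) m) ∈ UW d D D c m.degree := by
  by_cases hm : m.support ∈ D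
  · refine ⟨monomial m 1, Submodule.subset_span ⟨m, hm, rfl, rfl⟩, ?_⟩
    funext F
    exact ev_monomial c m F
  · have h0 : (fun F : {F // F ∈ Fac d D} => pw (c F.1) m) = 0 := by
      funext F
      exact AN10_zero hD hc m hm F.1 F.2
    rw [h0]
    exact Submodule.zero_mem _

theorem UW_le (c : Finset V → V → K) (i : ℕ) : UW d D (D \ B) c i ≤ UW d D D c i := by
  unfold UW
  apply Submodule.map_mono
  unfold mon
  apply Submodule.span_mono
  rintro p ⟨m, hm, h1, h2⟩
  exact ⟨m, (Finset.mem_sdiff.1 hm).1, h1, h2⟩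

private lemma AN10_mul (hD : IsCx D) {a : Fin d → V → K} {c : Finset V → V → K} (hc : Pts d D a c)
    (X : Finset (Finset V)) (hX : ∀ s ∈ X, ∀ t ∈ D, s ⊆ t → t ∈ X) {i j : ℕ}
    {y z : {F // F ∈ Fac d D} → K} (hy : y ∈ UW d D X c i) (hz : z ∈ UW d D D c j) :
    y * z ∈ UW d D X c (i + j) := by
  obtain ⟨p, hp, rfl⟩ := hy
  obtain ⟨q, hq, rfl⟩ := hz
  have hmul : ∀ p q : MvPolynomial V K, ev d D c p * ev d D c q = ev d D c (p * q) := by
    intro p q
    funext F
    rw [Pi.mul_apply, ev_apply, ev_apply, ev_apply, map_mul]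
  rw [hmul]
  have key : ∀ m n : V →₀ ℕ, m.support ∈ X → m.degree = i → n.degree = j →
      ev d D c (monomial m 1 * monomial n 1) ∈ UW d D X c (i + j) := by
    intro m n hm hmi hnj
    rw [monomial_mul, one_mul]
    by_cases hmn : (m + n).support ∈ D
    · refine ⟨monomial (m + n) 1, Submodule.subset_span ⟨m + n, ?_, ?_, rfl⟩, rfl⟩
      · apply hX _ hm _ hmn
        intro v hv
        rw [Finsupp.mem_support_iff] at hv ⊢
        rw [Finsupp.add_apply]
        omega
      · rw [map_add, hmi, hnj]
    · have h0 : ev d D c (monomial (m + n) 1) = 0 := by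
        funext F
        rw [ev_monomial]
        exact AN10_zero hD hc _ hmn F.1 F.2
      rw [h0]
      exact Submodule.zero_mem _
  have hp' : p ∈ Submodule.span K
      {p | ∃ a : V →₀ ℕ, a.support ∈ X ∧ a.degree = i ∧ p = monomial a 1} := hp
  have hq' : q ∈ Submodule.span K
      {p | ∃ a : V →₀ ℕ, a.support ∈ D ∧ a.degree = j ∧ p = monomial a 1} := hq
  clear hp hq
  induction hp' using Submodule.span_induction with
  | mem p hp =>
    obtain ⟨m, hm1, hm2, rfl⟩ := hp
    induction hq' using Submodule.span_induction with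
    | mem q hq =>
      obtain ⟨n, hn1, hn2, rfl⟩ := hq
      exact key m n hm1 hm2 hn2
    | zero =>
      rw [mul_zero, map_zero]
      exact Submodule.zero_mem _
    | add q1 q2 _ _ h1 h2 =>
      rw [mul_add, map_add]
      exact Submodule.add_mem _ h1 h2
    | smul r q1 _ h1 =>
      rw [mul_smul_comm, map_smul]
      exact Submodule.smul_mem _ r h1
  | zero =>
    rw [zero_mul, map_zero]
    exact Submodule.zero_mem _
  | add p1 p2 _ _ h1 h2 =>
    rw [add_mul, map_add]
    exact Submodule.add_mem _ h1 h2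
  | smul r p1 _ h1 =>
    rw [smul_mul_assoc, map_smul]
    exact Submodule.smul_mem _ r h1

private lemma AN10_up (h : HBallB d D B) : ∀ s ∈ D \ B, ∀ t ∈ D, s ⊆ t → t ∈ D \ B := by
  intro s hs t ht hst
  rw [Finset.mem_sdiff] at hs ⊢
  exact ⟨ht, fun hB => hs.2 (h.sph.1.2 t hB s hst)⟩

theorem UW_mul (h : HBallB d D B) {a : Fin d → V → K} {c : Finset V → V → K} (hc : Pts d D a c) {i j : ℕ}
    {y z : {F // F ∈ Fac d D} → K} (hy : y ∈ UW d D (D \ B) c i) (hz : z ∈ UW d D D c j) :
    y * z ∈ UW d D (D \ B) c (i + j) := by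
  exact AN10_mul h.cx hc (D \ B) (AN10_up h) hy hz

private lemma AN10_succ (hD : IsCx D) (hd : 1 ≤ d) {a : Fin d → V → K} {c : Finset V → V → K}
    (hc : Pts d D a c) (X : Finset (Finset V)) (hX : ∀ s ∈ X, ∀ t ∈ D, s ⊆ t → t ∈ X) (i : ℕ) :
    UW d D X c i ≤ UW d D X c (i + 1) := by
  intro y hy
  have he : ∀ v : V, (fun F : {F // F ∈ Fac d D} => c F.1 v) ∈ UW d D D c 1 := by
    intro v
    have h1 := pw_mem hD hc (Finsupp.single v 1)
    have h2 : (Finsupp.single v 1 : V →₀ ℕ).degree = 1 := by simp
    rw [h2] at h1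
    have h3 : (fun F : {F // F ∈ Fac d D} => pw (c F.1) (Finsupp.single v 1)) =
        fun F : {F // F ∈ Fac d D} => c F.1 v := by
      funext F
      unfold pw
      rw [Finset.prod_eq_single v]
      · simp
      · intro w _ hw
        rw [Finsupp.single_apply, if_neg (Ne.symm hw), pow_zero]
      · intro hv
        exact absurd (Finset.mem_univ v) hv
    rw [h3] at h1
    exact h1
  have hy2 : y = ∑ v, a ⟨d - 1, by omega⟩ v • (y * fun F : {F // F ∈ Fac d D} => c F.1 v) := by
    funext F
    rw [Finset.sum_apply]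
    have h1 := hc.eq F.1 F.2 ⟨d - 1, by omega⟩
    rw [if_pos (by show d - 1 + 1 = d; omega)] at h1
    calc y F = y F * ∑ v, a ⟨d - 1, by omega⟩ v * c F.1 v := by rw [h1, mul_one]
      _ = ∑ v, (a ⟨d - 1, by omega⟩ v • (y * fun F : {F // F ∈ Fac d D} => c F.1 v)) F := by
          rw [Finset.mul_sum]
          refine Finset.sum_congr rfl fun v _ => ?_
          rw [Pi.smul_apply, Pi.mul_apply, smul_eq_mul]
          ring
  rw [hy2]
  apply Submodule.sum_mem
  intro v _
  exact Submodule.smul_mem _ _ (AN10_mul hD hc X hX hy (he v))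

theorem UW_succ (h : HBallB d D B) {a : Fin d → V → K} {c : Finset V → V → K} (hc : Pts d D a c) (i : ℕ) :
    UW d D D c i ≤ UW d D D c (i + 1) ∧ UW d D (D \ B) c i ≤ UW d D (D \ B) c (i + 1) := by
  exact ⟨AN10_succ h.cx h.pos hc D (fun s _ t ht _ => ht) i,
    AN10_succ h.cx h.pos hc (D \ B) (AN10_up h) i⟩

theorem ev_Th (h : HBallB d D B) {a : Fin d → V → K} {c : Finset V → V → K} (hc : Pts d D a c) (X : Finset (Finset V))
    (i : ℕ) {q : MvPolynomial V K} (hq : q ∈ Th D X a (i + 1)) : ev d D c q ∈ UW d D X c i := by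
  have hle : Th D X a (i + 1) ≤ (UW d D X c i).comap (ev d D c) := by
    show (⨆ j : Fin d, (mon K X i).map (mulD D (th a j))) ≤ _
    apply iSup_le
    intro j
    rw [Submodule.map_le_iff_le_comap]
    intro q hq
    show ev d D c (mulD D (th a j) q) ∈ UW d D X c i
    have hev : ∀ F : {F // F ∈ Fac d D}, ev d D c (mulD D (th a j) q) F =
        (if (j : ℕ) + 1 = d then 1 else 0) * ev d D c q F := by
      intro F
      rw [ev_mulD h.cx hc]
      congr 1
      have h1 : (aeval (c F.1) (th a j) : K) = ∑ v, a j v * c F.1 v := by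
        unfold th
        rw [map_sum]
        refine Finset.sum_congr rfl fun v _ => ?_
        rw [map_mul, aeval_C, aeval_X]
        rfl
      rw [h1]
      exact hc.eq F.1 F.2 j
    by_cases hj : (j : ℕ) + 1 = d
    · have h2 : ev d D c (mulD D (th a j) q) = ev d D c q := by
        funext F
        rw [hev F, if_pos hj, one_mul]
      rw [h2]
      exact ⟨q, hq, rfl⟩
    · have h2 : ev d D c (mulD D (th a j) q) = 0 := by
        funext F
        rw [hev F, if_neg hj, zero_mul]
        rfl
      rw [h2]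
      exact Submodule.zero_mem _
  exact hle hq

theorem UW_der {k : Type*} [Field k] [Algebra k K] (E : Derivation k K K) {c : Finset V → V → K}
    (hE : ∀ F ∈ Fac d D, ∀ v, E (c F v) = 0) (X : Finset (Finset V)) {i : ℕ} {y : {F // F ∈ Fac d D} → K}
    (hy : y ∈ UW d D X c i) : (fun F => E (y F)) ∈ UW d D X c i := by
  obtain ⟨q, hq, rfl⟩ := hy
  have hq' : q ∈ Submodule.span K
      {p | ∃ a : V →₀ ℕ, a.support ∈ X ∧ a.degree = i ∧ p = monomial a 1} := hq
  clear hq
  induction hq' using Submodule.span_induction with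
  | mem q hq =>
    obtain ⟨m, hm1, hm2, rfl⟩ := hq
    have h0 : (fun F : {F // F ∈ Fac d D} => E (ev d D c (monomial m 1) F)) = 0 := by
      funext F
      rw [ev_monomial]
      unfold pw
      show E (∏ v, c F.1 v ^ m v) = 0
      apply Finset.prod_induction (fun v => c F.1 v ^ m v) (fun x => E x = 0)
      · intro x y hx hy
        rw [E.leibniz, hx, hy, smul_zero, smul_zero, add_zero]
      · exact E.map_one_eq_zero
      · intro v _
        rw [E.leibniz_pow, hE F.1 F.2 v, smul_zero, smul_zero]
    rw [h0]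
    exact Submodule.zero_mem _
  | zero =>
    have h0 : (fun F : {F // F ∈ Fac d D} => E (ev d D c 0 F)) = 0 := by
      funext F
      rw [map_zero, Pi.zero_apply, map_zero]
    rw [h0]
    exact Submodule.zero_mem _
  | add q1 q2 _ _ h1 h2 =>
    have h0 : (fun F : {F // F ∈ Fac d D} => E (ev d D c (q1 + q2) F)) =
        (fun F => E (ev d D c q1 F)) + fun F => E (ev d D c q2 F) := by
      funext F
      rw [map_add, Pi.add_apply, map_add]
      rfl
    rw [h0]
    exact Submodule.add_mem _ h1 h2
  | smul r q1 hq1 h1 =>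
    have h0 : (fun F : {F // F ∈ Fac d D} => E (ev d D c (r • q1) F)) =
        r • (fun F => E (ev d D c q1 F)) + (E r) • ev d D c q1 := by
      funext F
      rw [map_smul, Pi.smul_apply, smul_eq_mul, E.leibniz, Pi.add_apply, Pi.smul_apply,
        Pi.smul_apply, smul_eq_mul, smul_eq_mul, smul_eq_mul]
      ring
    rw [h0]
    exact Submodule.add_mem _ (Submodule.smul_mem _ r h1)
      (Submodule.smul_mem _ (E r) ⟨q1, hq1, rfl⟩)

end Pool.Agent.LibHB64
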