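import Pool.Agent.LibHB64.Defs

set_option autoImplicit false

/-!
Row AN11 (SHORT/MEDIUM, ONLY Defs). `hnum_zero`: definition, `fnum D 0 = 1` (the only face of size `0` is `∅`). `sum_hnum`: exchange the sums, `∑_(j ≤ d) ∑_(i ≤ j) (-1)^(j-i) C(d-i, j-i) f_i = ∑_i f_i ∑_(l ≤ d-i) (-1)^l C(d-i, l)` (`l = j - i`), the inner sum is zero
unless `i = d` (`Int.alternating_sum_range_choose`), so the sum is `f_d = (Fac d D).card`.
-/

namespace Pool.Agent.LibHB64

open MvPolynomial Module

variable {V : Type*} [Fintype V] [DecidableEq V] {K : Type*} [Field K] {d : ℕ} {D B : Finset (Finset V)}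

theorem hnum_zero (hD : IsCx D) : hnum d D 0 = 1 := by
  unfold hnum
  rw [Finset.sum_range_one]
  have h1 : D.filter (fun s => s.card = 0) = {∅} := by
    ext s
    rw [Finset.mem_filter, Finset.mem_singleton, Finset.card_eq_zero]
    constructor
    · exact fun h => h.2
    · intro h
      rw [h]
      exact ⟨hD.1, rfl⟩
  have h2 : fnum D 0 = 1 := by
    rw [fnum, h1, Finset.card_singleton]
  rw [h2]
  simp

theorem sum_hnum (d : ℕ) (D : Finset (Finset V)) : ∑ j ∈ Finset.range (d + 1), hnum d D j = ((Fac d D).card : ℤ) := by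
  unfold hnum
  rw [Finset.sum_comm' (s := Finset.range (d + 1)) (t := fun j => Finset.range (j + 1))
    (t' := Finset.range (d + 1)) (s' := fun i => Finset.Ico i (d + 1)) (by
      intro j i
      simp only [Finset.mem_range, Finset.mem_Ico]
      omega)]
  have h1 : ∀ i ∈ Finset.range (d + 1), ∑ j ∈ Finset.Ico i (d + 1),
      (-1) ^ (j - i) * ((d - i).choose (j - i) : ℤ) * (fnum D i : ℤ) = if i = d then (fnum D d : ℤ) else 0 := by
    intro i hi
    rw [Finset.mem_range] at hi
    rw [Finset.sum_Ico_eq_sum_range, ← Finset.sum_mul]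
    have h2 : ∑ l ∈ Finset.range (d + 1 - i), (-1) ^ (i + l - i) * ((d - i).choose (i + l - i) : ℤ) =
        ∑ l ∈ Finset.range (d - i + 1), ((-1) ^ l * ((d - i).choose l) : ℤ) := by
      rw [show d + 1 - i = d - i + 1 by omega]
      apply Finset.sum_congr rfl
      intro l _
      rw [Nat.add_sub_cancel_left]
    rw [h2, Int.alternating_sum_range_choose]
    by_cases h3 : i = d
    · subst h3
      simp
    · rw [if_neg h3, if_neg (by omega), zero_mul]
  rw [Finset.sum_congr rfl h1, Finset.sum_ite_eq' (Finset.range (d + 1)) d, if_pos (Finset.mem_range.2 (Nat.lt_succ_self d))]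
  rfl

end Pool.Agent.LibHB64
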