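import Mathlib

set_option autoImplicit false

/-!
[HB64 DC] SHORT. ONLY MATHLIB. A derivation `E` of the field `K` over `k` acts on the coefficients of polynomials: `E' p = ∑ b ∈ p.support, monomial b (E (coeff b p))` (a `k`-linear map: `Finsupp.mapRange.linearMap` or
`Finsupp.lsum`), Leibniz rule: check on monomials (`coeff_mul` as a sum over the antidiagonal: `E (∑ p_a q_b) = ∑ (E p_a q_b + p_a E q_b)`), `Derivation.mk'`.
-/

namespace Pool.Agent.LibHB64

open MvPolynomial

private noncomputable def DC_fun {V : Type*} {K : Type*} [Field K] {k : Type*} [Field k]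
    [Algebra k K] (E : Derivation k K K) (p : MvPolynomial V K) : MvPolynomial V K :=
  ∑ b ∈ p.support, monomial b (E (coeff b p))

private theorem DC_coeff {V : Type*} {K : Type*} [Field K] {k : Type*} [Field k]
    [Algebra k K] (E : Derivation k K K) (p : MvPolynomial V K) (b : V →₀ ℕ) :
    coeff b (DC_fun E p) = E (coeff b p) := by
  classical
  unfold DC_fun
  rw [MvPolynomial.coeff_sum]
  simp only [MvPolynomial.coeff_monomial]
  rw [Finset.sum_ite_eq']
  split_ifs with h
  · rfl
  · rw [MvPolynomial.notMem_support_iff.mp h, map_zero]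

theorem dc_exists {V : Type*} {K : Type*} [Field K] {k : Type*} [Field k] [Algebra k K] (E : Derivation k K K) :
    ∃ E' : Derivation k (MvPolynomial V K) (MvPolynomial V K), ∀ p b, coeff b (E' p) = E (coeff b p) := by
  classical
  let L : MvPolynomial V K →ₗ[k] MvPolynomial V K :=
    { toFun := DC_fun E
      map_add' := fun p q => by
        ext b
        rw [DC_coeff, coeff_add, coeff_add, DC_coeff, DC_coeff, map_add]
      map_smul' := fun c p => by
        ext b
        rw [DC_coeff, RingHom.id_apply, coeff_smul, coeff_smul, DC_coeff, Derivation.map_smul] }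
  refine ⟨Derivation.mk' L ?_, fun p b => DC_coeff E p b⟩
  intro p q
  show DC_fun E (p * q) = p • DC_fun E q + q • DC_fun E p
  ext b
  rw [DC_coeff, coeff_mul, map_sum, coeff_add, smul_eq_mul, smul_eq_mul, mul_comm q, coeff_mul,
    coeff_mul, ← Finset.sum_add_distrib]
  refine Finset.sum_congr rfl fun x _ => ?_
  rw [Derivation.leibniz, DC_coeff, DC_coeff, smul_eq_mul, smul_eq_mul, mul_comm (coeff x.2 q)]

end Pool.Agent.LibHB64
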