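import Mathlib

set_option autoImplicit false

/-!
[HB64 DER] MEDIUM. ONLY MATHLIB. Partial derivatives of the field of rational functions.
Plan: `MvPolynomial.pderiv i : Derivation k (MvPolynomial s k) (MvPolynomial s k)`. Extend a derivation of a domain `R` over `k` to its fraction field: either Mathlib has it (search `Derivation`, `IsLocalization`, `FractionRing`,
`KaehlerDifferential.map`, `Algebra.FormallyEtale` of a localization, `Differential`), or: the ring homomorphism `R → K[ε]` (`TrivSqZeroExt K K` or `DualNumber K`), `r ↦ (r, D r)`, sends nonzero elements to units, so it lifts to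
`FractionRing R → K[ε]` (`IsLocalization.lift`, an algebra homomorphism over `k`), whose second component is the derivation.
-/

namespace Pool.Agent.LibHB64

open MvPolynomial

theorem der_exists (k : Type*) [Field k] (s : Type*) [DecidableEq s] :
    ∃ E : s → Derivation k (FractionRing (MvPolynomial s k)) (FractionRing (MvPolynomial s k)),
      ∀ i j, E i (algebraMap (MvPolynomial s k) (FractionRing (MvPolynomial s k)) (X j)) =
        if i = j then 1 else 0 := by
  have hfe : Algebra.FormallyEtale (MvPolynomial s k) (FractionRing (MvPolynomial s k)) :=
    Algebra.FormallyEtale.of_isLocalization (nonZeroDivisors (MvPolynomial s k))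
  let eq := KaehlerDifferential.tensorKaehlerEquivOfFormallyEtale k (MvPolynomial s k)
    (FractionRing (MvPolynomial s k))
  let l : s → (Ω[MvPolynomial s k⁄k] →ₗ[MvPolynomial s k] FractionRing (MvPolynomial s k)) := fun i =>
    (Algebra.linearMap (MvPolynomial s k) (FractionRing (MvPolynomial s k))).comp
      (pderiv i : Derivation k (MvPolynomial s k) (MvPolynomial s k)).liftKaehlerDifferential
  refine ⟨fun i => ((LinearMap.liftBaseChange (FractionRing (MvPolynomial s k)) (l i)).comp
    eq.symm.toLinearMap).compDer (KaehlerDifferential.D k (FractionRing (MvPolynomial s k))), ?_⟩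
  intro i j
  have h1 := KaehlerDifferential.tensorKaehlerEquivOfFormallyEtale_symm_D_algebraMap k (MvPolynomial s k)
    (FractionRing (MvPolynomial s k)) (X j)
  have h2 : ((LinearMap.liftBaseChange (FractionRing (MvPolynomial s k)) (l i)).comp
      eq.symm.toLinearMap).compDer (KaehlerDifferential.D k (FractionRing (MvPolynomial s k)))
        (algebraMap (MvPolynomial s k) (FractionRing (MvPolynomial s k)) (X j)) =
      LinearMap.liftBaseChange (FractionRing (MvPolynomial s k)) (l i)
        (eq.symm (KaehlerDifferential.D k (FractionRing (MvPolynomial s k))
          (algebraMap (MvPolynomial s k) (FractionRing (MvPolynomial s k)) (X j)))) := rfl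
  rw [h2, h1, LinearMap.liftBaseChange_tmul, one_smul]
  show algebraMap (MvPolynomial s k) (FractionRing (MvPolynomial s k))
    ((pderiv i : Derivation k (MvPolynomial s k) (MvPolynomial s k)).liftKaehlerDifferential
      (KaehlerDifferential.D k (MvPolynomial s k) (X j))) = _
  rw [Derivation.liftKaehlerDifferential_comp_D, pderiv_X]
  by_cases hij : i = j
  · subst hij; simp
  · rw [if_neg hij, Pi.single_eq_of_ne (fun h => hij h.symm), map_zero]

end Pool.Agent.LibHB64
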