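import Pool.Agent.LibHB64.Defs

set_option autoImplicit false

/-!
[HB64 GEN] MEDIUM. ONLY Defs. The generic linear forms satisfy `Gen` and have points `Pts`.
Plan: for an injection `f : Fin n → V` (an enumeration of a face `s`, `n = |s| ≤ d`) the matrix `(a_(j, f i))_(j < n, i < n)` over `KK k d V` has nonzero determinant: it is the image of the generic matrix `Matrix.mvPolynomialX`
(`Matrix.det_mvPolynomialX_ne_zero`) under the injective map (rename variables injectively, then the injective `algebraMap` to the fraction field). So the kernel of the matrix is zero (`Matrix.eq_zero_of_mulVec_eq_zero`; `y` vanishes outside `s`,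
so `∑ v, a j v * y v = ∑ i, a j (f i) * y (f i)`). Points: for `F ∈ Fac d D` solve `A_F x = e_(d-1)` (`A_F` is invertible), extend by zero. `|s| ≤ d` since `s ⊆ F`, `F ∈ Fac d D`.
-/

namespace Pool.Agent.LibHB64

open MvPolynomial

variable {V : Type*} [Fintype V] [DecidableEq V] {d : ℕ} {D : Finset (Finset V)}

private theorem det_ne (k : Type*) [Field k] (d : ℕ) (V : Type*) (n : ℕ) (hn : n ≤ d) (f : Fin n → V)
    (hf : Function.Injective f) :
    (Matrix.of fun i j : Fin n => ga k d V (Fin.castLE hn i) (f j)).det ≠ 0 := by
  let g : Fin n × Fin n → (Fin d × V) ⊕ V := fun p => Sum.inl (Fin.castLE hn p.1, f p.2)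
  have hg : Function.Injective g := by
    rintro ⟨a, b⟩ ⟨a', b'⟩ h
    simp only [g, Sum.inl.injEq, Prod.mk.injEq] at h
    exact Prod.ext (Fin.castLE_injective hn h.1) (hf h.2)
  let φ : MvPolynomial (Fin n × Fin n) k →+* KK k d V :=
    (algebraMap (MvPolynomial ((Fin d × V) ⊕ V) k) (KK k d V)).comp (rename g).toRingHom
  have hφ : Function.Injective φ :=
    (IsFractionRing.injective (MvPolynomial ((Fin d × V) ⊕ V) k) (KK k d V)).comp (rename_injective g hg)
  have h1 : (Matrix.of fun i j : Fin n => ga k d V (Fin.castLE hn i) (f j)) =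
      φ.mapMatrix (Matrix.mvPolynomialX (Fin n) (Fin n) k) := by
    ext i j
    show ga k d V (Fin.castLE hn i) (f j) = φ (X (i, j))
    show _ = algebraMap (MvPolynomial ((Fin d × V) ⊕ V) k) (KK k d V) (rename g (X (i, j)))
    rw [rename_X]
    rfl
  rw [h1, ← RingHom.map_det]
  exact (map_ne_zero_iff φ hφ).mpr (Matrix.det_mvPolynomialX_ne_zero (Fin n) k)

theorem gen_exists (k : Type*) [Field k] (hD : IsCx D) (hd : ∀ s ∈ D, ∃ F ∈ Fac d D, s ⊆ F) :
    Gen D (ga k d V) ∧ ∃ c : Finset V → V → KK k d V, Pts d D (ga k d V) c := by
  constructor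
  · intro s hs y hy h0
    obtain ⟨F, hF, hsF⟩ := hd s hs
    have hn : s.card ≤ d := by
      have := (Finset.mem_filter.mp hF).2
      rw [← this]; exact Finset.card_le_card hsF
    let e := s.equivFin.symm
    let f : Fin s.card → V := fun i => (e i).1
    have hf : Function.Injective f := Subtype.val_injective.comp e.injective
    have hdet := det_ne k d V s.card hn f hf
    have hmv : (Matrix.of fun i j : Fin s.card => ga k d V (Fin.castLE hn i) (f j)).mulVec (fun j => y (f j)) = 0 := by
      funext i
      have h1 := h0 (Fin.castLE hn i) (by simp)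
      have h2 : ∑ v, ga k d V (Fin.castLE hn i) v * y v = ∑ v ∈ s, ga k d V (Fin.castLE hn i) v * y v := by
        symm
        apply Finset.sum_subset (Finset.subset_univ s)
        intro v _ hv
        rw [hy v hv, mul_zero]
      rw [h2, ← Finset.sum_coe_sort s, ← Equiv.sum_comp e] at h1
      exact h1
    have hz := Matrix.eq_zero_of_mulVec_eq_zero hdet hmv
    funext v
    by_cases hv : v ∈ s
    · have := congrFun hz (e.symm ⟨v, hv⟩)
      simpa [f] using this
    · exact hy v hv
  · have key : ∀ F : Finset V, ∃ c : V → KK k d V, F ∈ Fac d D → (∀ v, v ∉ F → c v = 0) ∧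
        ∀ j : Fin d, ∑ v, ga k d V j v * c v = if (j : ℕ) + 1 = d then 1 else 0 := by
      intro F
      by_cases hF : F ∈ Fac d D
      · have hc : F.card = d := (Finset.mem_filter.mp hF).2
        let e : Fin d ≃ F := (Fintype.equivFinOfCardEq (by rw [Fintype.card_coe, hc])).symm
        let f : Fin d → V := fun i => (e i).1
        have hf : Function.Injective f := Subtype.val_injective.comp e.injective
        have hdet := det_ne k d V d le_rfl f hf
        set M := (Matrix.of fun i j : Fin d => ga k d V (Fin.castLE le_rfl i) (f j)) with hM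
        let b : Fin d → KK k d V := fun j => if (j : ℕ) + 1 = d then 1 else 0
        let x : Fin d → KK k d V := M⁻¹.mulVec b
        have hx : M.mulVec x = b := by
          show M.mulVec (M⁻¹.mulVec b) = b
          rw [Matrix.mulVec_mulVec, Matrix.mul_nonsing_inv M (isUnit_iff_ne_zero.mpr hdet), Matrix.one_mulVec]
        refine ⟨fun v => if h : v ∈ F then x (e.symm ⟨v, h⟩) else 0, fun _ => ⟨?_, ?_⟩⟩
        · intro v hv
          simp only [dif_neg hv]
        · intro j
          have h2 : ∑ v, ga k d V j v * (if h : v ∈ F then x (e.symm ⟨v, h⟩) else 0) =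
              ∑ v ∈ F, ga k d V j v * (if h : v ∈ F then x (e.symm ⟨v, h⟩) else 0) := by
            symm
            apply Finset.sum_subset (Finset.subset_univ F)
            intro v _ hv
            rw [dif_neg hv, mul_zero]
          rw [h2, ← Finset.sum_coe_sort F, ← Equiv.sum_comp e]
          have h3 : ∀ i : Fin d, ga k d V j ((e i : F) : V) * (if h : ((e i : F) : V) ∈ F then x (e.symm ⟨((e i : F) : V), h⟩) else 0)
              = M j i * x i := by
            intro i
            rw [dif_pos (e i).2]
            have : e.symm ⟨((e i : F) : V), (e i).2⟩ = i := by simp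
            rw [this]
            rfl
          rw [Finset.sum_congr rfl (fun i _ => h3 i)]
          have := congrFun hx j
          exact this
      · exact ⟨0, fun h => absurd h hF⟩
    choose c hc using key
    exact ⟨c, ⟨fun F hF => (hc F hF).1, fun F hF => (hc F hF).2⟩⟩

end Pool.Agent.LibHB64
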