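import Pool.Agent.LibHB64.CMMain
import Pool.Agent.LibHB64.DER
import Pool.Agent.LibHB64.DC
import Pool.Agent.LibHB64.GEN

/-!
The statements cited in the block AN: `CM_dim`, `CM_pts`, `pure` (block CM), `der_exists`, `dc_exists`, `gen_exists`.
-/
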