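import Pool.Agent.LibHB64.AN10
import Pool.Agent.LibHB64.Iface

set_option autoImplicit false

/-!
Row AN12 (MEDIUM). Dimensions. Induction on `i`. Step: the linear map `mon K X (i+1) → UW (i+1) / (UW i ∩ ...)`, or simply: `f : mon K X (i+1) →ₗ (K^Fac) ⧸ UW d D X c i`, `f = mkQ ∘ ev`. Kernel: `q` with `ev q ∈ UW i`, by `CM_pts` and `ev_Th` exactly `Th D X a (i+1)`
(which is contained in `mon K X (i+1)`: lemma `Th_le_mon` below). Range: the image of `UW (i+1)`, of dimension `finrank UW (i+1) - finrank UW i` (`UW_succ`; `finrank_map_mkQ`-type: `Submodule.finrank_quotient_add_finrank`, or rank-nullity for `mkQ` restricted to `UW (i+1)`).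
`LinearMap.finrank_range_add_finrank_ker` and `CM_dim`. Start `i = 0`: `ev` is injective on `mon K X 0` (`CM_pts`, second part), `Th .. 0 = ⊥`, `CM_dim`.
`Th_le_mon`: for `q ∈ mon K X i` a monomial with support `s ∈ X`: the monomials of `mulD D (th a j) q` have support `s ∪ {v}` in `D`; `X = D`: fine; `X = D \ B`: not in `B` because `s ∉ B`. (All spaces are finite dimensional: `mon` is spanned by finitely many monomials;
`UW` lies in `K^Fac`; provide `Module.Finite` for `mon K X i`: `mon_fin`.)
-/

namespace Pool.Agent.LibHB64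

open MvPolynomial Module

variable {V : Type*} [Fintype V] [DecidableEq V] {K : Type*} [Field K] {d : ℕ} {D B : Finset (Finset V)}

theorem mon_fin (X : Finset (Finset V)) (i : ℕ) : Module.Finite K (mon K X i) := by
  classical
  have hfin : {p : MvPolynomial V K | ∃ a : V →₀ ℕ, a.support ∈ X ∧ a.degree = i ∧ p = monomial a 1}.Finite := by
    refine Set.Finite.subset ((Finset.finsuppAntidiag (Finset.univ : Finset V) i).finite_toSet.image
      fun a => (monomial a (1 : K) : MvPolynomial V K)) ?_
    rintro p ⟨a, _, had, rfl⟩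
    refine ⟨a, ?_, rfl⟩
    rw [Finset.mem_coe, Finset.mem_finsuppAntidiag]
    refine ⟨?_, Finset.subset_univ _⟩
    rw [← had, Finsupp.degree_eq_sum]
  exact Module.Finite.span_of_finite K hfin

private theorem AN12_proj (X : Finset (Finset V)) (m : V →₀ ℕ) :
    proj K X (monomial m 1) = if m.support ∈ X then monomial m 1 else 0 := by
  have h := (basisMonomials V K).constr_basis K
    (fun a : V →₀ ℕ => if a.support ∈ X then (monomial a 1 : MvPolynomial V K) else 0) m
  rw [coe_basisMonomials] at h
  exact h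

theorem Th_le_mon (h : HBallB d D B) (a : Fin d → V → K) (X : Finset (Finset V)) (hX : X = D ∨ X = D \ B) (i : ℕ) :
    Th D X a i ≤ mon K X i := by
  classical
  rcases i with _ | i
  · exact bot_le
  refine iSup_le fun j => ?_
  rw [Submodule.map_le_iff_le_comap]
  refine Submodule.span_le.2 ?_
  rintro p ⟨m, hm, hmd, rfl⟩
  show mulD D (th a j) (monomial m 1) ∈ mon K X (i + 1)
  have h1 : mulD D (th a j) (monomial m 1) = ∑ v, a j v • proj K D (monomial (Finsupp.single v 1 + m) (1 : K)) := by
    rw [mulD, LinearMap.comp_apply, LinearMap.mulLeft_apply, th, Finset.sum_mul, map_sum]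
    refine Finset.sum_congr rfl fun v _ => ?_
    rw [mul_assoc, C_mul', map_smul]
    congr 2
    rw [MvPolynomial.X, monomial_mul, one_mul]
  rw [h1]
  refine Submodule.sum_mem _ fun v _ => Submodule.smul_mem _ _ ?_
  rw [AN12_proj]
  split_ifs with hs
  · refine Submodule.subset_span ⟨_, ?_, ?_, rfl⟩
    · rcases hX with rfl | rfl
      · exact hs
      · rw [Finset.mem_sdiff] at hm ⊢
        refine ⟨hs, fun hB => hm.2 (h.sph.1.2 _ hB _ ?_)⟩
        exact Finsupp.support_mono le_add_self
    · rw [map_add, Finsupp.degree_single, hmd, add_comm]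
  · exact Submodule.zero_mem _

private theorem AN12_step (h : HBallB d D B) [CharP K 2] {a : Fin d → V → K} (hg : Gen D a) {c : Finset V → V → K}
    (hc : Pts d D a c) (X : Finset (Finset V)) (hX : X = D ∨ X = D \ B) (i : ℕ)
    (hle : UW d D X c i ≤ UW d D X c (i + 1)) :
    finrank K (mon K X (i + 1)) + finrank K (UW d D X c i) =
      finrank K (Th D X a (i + 1)) + finrank K (UW d D X c (i + 1)) := by
  haveI := mon_fin (K := K) X (i + 1)
  have h1 := LinearMap.finrank_range_add_finrank_ker
    (((UW d D X c i).mkQ ∘ₗ ev d D c) ∘ₗ (mon K X (i + 1)).subtype)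
  have h2 := LinearMap.finrank_range_add_finrank_ker ((UW d D X c i).mkQ ∘ₗ (UW d D X c (i + 1)).subtype)
  have hr : LinearMap.range (((UW d D X c i).mkQ ∘ₗ ev d D c) ∘ₗ (mon K X (i + 1)).subtype) =
      LinearMap.range ((UW d D X c i).mkQ ∘ₗ (UW d D X c (i + 1)).subtype) := by
    rw [LinearMap.range_comp, Submodule.range_subtype, LinearMap.range_comp, Submodule.range_subtype,
      Submodule.map_comp, UW, UW]
  have hk1 : LinearMap.ker (((UW d D X c i).mkQ ∘ₗ ev d D c) ∘ₗ (mon K X (i + 1)).subtype) =
      Submodule.comap (mon K X (i + 1)).subtype (Th D X a (i + 1)) := by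
    ext w
    rw [LinearMap.mem_ker, Submodule.mem_comap, LinearMap.comp_apply, LinearMap.comp_apply, Submodule.mkQ_apply,
      Submodule.Quotient.mk_eq_zero]
    constructor
    · intro hw
      exact (CM_pts h hg hc X hX).1 i _ w.2 hw
    · intro hw
      exact ev_Th h hc X i hw
  have hk2 : LinearMap.ker ((UW d D X c i).mkQ ∘ₗ (UW d D X c (i + 1)).subtype) =
      Submodule.comap (UW d D X c (i + 1)).subtype (UW d D X c i) := by
    rw [LinearMap.ker_comp, Submodule.ker_mkQ]
  rw [hk1, (Submodule.comapSubtypeEquivOfLe (Th_le_mon h a X hX (i + 1))).finrank_eq] at h1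
  rw [hk2, (Submodule.comapSubtypeEquivOfLe hle).finrank_eq] at h2
  rw [hr] at h1
  omega

private theorem AN12_zero (h : HBallB d D B) [CharP K 2] {a : Fin d → V → K} (hg : Gen D a) {c : Finset V → V → K}
    (hc : Pts d D a c) (X : Finset (Finset V)) (hX : X = D ∨ X = D \ B) :
    finrank K (UW d D X c 0) = finrank K (mon K X 0) := by
  have h1 : Function.Injective (ev d D c ∘ₗ (mon K X 0).subtype) := by
    rw [injective_iff_map_eq_zero]
    intro w hw
    exact Subtype.ext ((CM_pts h hg hc X hX).2 w w.2 hw)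
  have h2 := LinearMap.finrank_range_of_inj h1
  rw [LinearMap.range_comp, Submodule.range_subtype] at h2
  exact h2

theorem finrank_UW (h : HBallB d D B) [CharP K 2] {a : Fin d → V → K} (hg : Gen D a) {c : Finset V → V → K}
    (hc : Pts d D a c) (i : ℕ) (hi : i ≤ d) :
    (finrank K (UW d D D c i) : ℤ) = ∑ j ∈ Finset.range (i + 1), hnum d D j ∧
      (finrank K (UW d D (D \ B) c i) : ℤ) = ∑ j ∈ Finset.range (i + 1), hnum d D (d - j) := by
  induction i with
  | zero =>
    have h1 := CM_dim h hg 0 hi
    have hT : ∀ X : Finset (Finset V), finrank K (Th D X a 0) = 0 := fun X => finrank_bot K _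
    rw [hT, hT] at h1
    rw [AN12_zero h hg hc D (Or.inl rfl), AN12_zero h hg hc (D \ B) (Or.inr rfl), h1.1, h1.2]
    simp
  | succ i ih =>
    obtain ⟨ih1, ih2⟩ := ih (by omega)
    have h1 := CM_dim h hg (i + 1) hi
    have hs := UW_succ h hc i
    have e1 := AN12_step h hg hc D (Or.inl rfl) i hs.1
    have e2 := AN12_step h hg hc (D \ B) (Or.inr rfl) i hs.2
    constructor
    · have := h1.1
      rw [Finset.sum_range_succ, ← ih1]
      omega
    · have := h1.2
      rw [Finset.sum_range_succ, ← ih2]
      omega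

end Pool.Agent.LibHB64
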