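import Pool.Agent.LibHB64.AN0

set_option autoImplicit false

/-!
Row AN2 (MEDIUM, ONLY AN0). The determinants of the facets in characteristic two.
* `dA_eq`: the two matrices differ by a permutation of the columns (`Matrix.det_permute'` or `Matrix.det_submatrix...`: factor `sign = ± 1 = 1` in characteristic two).
* `dA_ridge`: `ρ := F.erase v = G.erase w`, `ρ.card = d - 1`. Choose `e : Fin d ≃ F` with `e p = v` for the last index `p` and `e' : Fin d ≃ G` with `e' p = w` and `e' q = e q` for `q ≠ p`
  (from an equivalence of `ρ` with the indices `≠ p`, or `Equiv` built by hand). With `A = (a j (e q))`, `x q = c F (e q)`: `A.mulVec x = Pi.single p 1` (`Pts.eq`, the sum over `V` is the sum over `F` by `Pts.supp`),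
  so by Cramer (`Matrix.cramer`, `A.mulVec (A.cramer y) = A.det • y`, or directly `A.det * x p = (A.updateCol p (Pi.single p 1)).det`: `Matrix.det_updateCol_...`, `Matrix.cramer_apply`)
  `A.det * c F v = (A.updateCol p (Pi.single p 1)).det`, which only depends on the columns `q ≠ p`, the same for `G`. (If a determinant is zero the identity `A.cramer (A.mulVec x) = A.det • x` still holds: `Matrix.cramer` is
  `adjugate.mulVec`.)
-/

namespace Pool.Agent.LibHB64

open MvPolynomial Module

variable {V : Type*} [Fintype V] [DecidableEq V] {K : Type*} [Field K] {d : ℕ} {D B : Finset (Finset V)}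

private theorem AN2_sign [CharP K 2] (σ : Equiv.Perm (Fin d)) : (((Equiv.Perm.sign σ : ℤˣ) : ℤ) : K) = 1 := by
  rcases Int.units_eq_one_or (Equiv.Perm.sign σ) with h | h
  · rw [h]; simp
  · rw [h]; push_cast; exact CharTwo.neg_eq 1

theorem dA_eq [CharP K 2] (a : Fin d → V → K) (F : Finset V) (e : Fin d ≃ {v // v ∈ F}) :
    dA a F = (Matrix.of fun j k : Fin d => a j (e k)).det := by
  have h : F.card = d := by
    have := Fintype.card_congr e
    simpa using this.symm
  rw [dA, dif_pos h]
  set e0 := (Finset.equivFinOfCardEq h).symm with he0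
  let σ : Equiv.Perm (Fin d) := e.trans e0.symm
  have h1 : (Matrix.of fun j k : Fin d => a j (e k)) =
      (Matrix.of fun j k : Fin d => a j (e0 k)).submatrix id σ := by
    ext j k
    simp [σ]
  rw [h1, Matrix.det_permute', AN2_sign, one_mul]

private theorem AN2_cramer (A : Matrix (Fin d) (Fin d) K) (x : Fin d → K) (p : Fin d) :
    A.det * x p = (A.updateCol p (A.mulVec x)).det := by
  rw [← Matrix.cramer_apply, Matrix.cramer_eq_adjugate_mulVec, Matrix.mulVec_mulVec, Matrix.adjugate_mul,
    Matrix.smul_mulVec, Matrix.one_mulVec]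
  simp

private theorem AN2_key [CharP K 2] {a : Fin d → V → K} {c : Finset V → V → K} (hc : Pts d D a c) {F : Finset V}
    (hF : F ∈ Fac d D) (p : Fin d) (e : Fin d ≃ {v // v ∈ F}) :
    dA a F * c F (e p) = ((Matrix.of fun j k : Fin d => a j (e k)).updateCol p
      (fun j : Fin d => if (j : ℕ) + 1 = d then 1 else 0)).det := by
  rw [dA_eq a F e]
  have h1 := AN2_cramer (Matrix.of fun j k : Fin d => a j (e k)) (fun q => c F (e q)) p
  have h2 : (Matrix.of fun j k : Fin d => a j (e k)).mulVec (fun q => c F (e q)) =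
      fun j : Fin d => if (j : ℕ) + 1 = d then 1 else 0 := by
    funext j
    have h3 := hc.eq F hF j
    have h4 : ∑ v, a j v * c F v = ∑ v ∈ F, a j v * c F v := by
      symm
      apply Finset.sum_subset (Finset.subset_univ F)
      intro v _ hv
      rw [hc.supp F hF v hv, mul_zero]
    rw [h4, ← Finset.sum_coe_sort F, ← Equiv.sum_comp e] at h3
    exact h3
  rw [h2] at h1
  exact h1

theorem dA_ridge [CharP K 2] {a : Fin d → V → K} {c : Finset V → V → K} (hc : Pts d D a c) (hd : 1 ≤ d) {F G : Finset V}
    (hF : F ∈ Fac d D) (hG : G ∈ Fac d D) {v w : V} (hv : v ∈ F) (hw : w ∈ G) (hr : F.erase v = G.erase w) :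
    c F v * dA a F = c G w * dA a G := by
  have hcF : F.card = d := (Finset.mem_filter.mp hF).2
  have hcG : G.card = d := (Finset.mem_filter.mp hG).2
  let p : Fin d := ⟨d - 1, by omega⟩
  let e1 : Fin d ≃ {x // x ∈ F} := (Finset.equivFinOfCardEq hcF).symm
  let e : Fin d ≃ {x // x ∈ F} := (Equiv.swap p (e1.symm ⟨v, hv⟩)).trans e1
  have hep : e p = ⟨v, hv⟩ := by simp [e]
  have hne : ∀ q, q ≠ p → ((e q : {x // x ∈ F}) : V) ∈ G.erase w := by
    intro q hq
    rw [← hr, Finset.mem_erase]
    refine ⟨fun h => hq ?_, (e q).2⟩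
    apply e.injective
    rw [hep]
    exact Subtype.ext h
  let g : Fin d → {x // x ∈ G} := fun q => if h : q = p then ⟨w, hw⟩ else ⟨e q, Finset.mem_of_mem_erase (hne q h)⟩
  have hg : Function.Injective g := by
    intro q q' h
    by_cases h1 : q = p <;> by_cases h2 : q' = p
    · rw [h1, h2]
    · exfalso
      simp only [g, dif_pos h1, dif_neg h2, Subtype.mk.injEq] at h
      exact (Finset.mem_erase.mp (hne q' h2)).1 h.symm
    · exfalso
      simp only [g, dif_pos h2, dif_neg h1, Subtype.mk.injEq] at h
      exact (Finset.mem_erase.mp (hne q h1)).1 h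
    · simp only [g, dif_neg h1, dif_neg h2, Subtype.mk.injEq] at h
      exact e.injective (Subtype.ext h)
  have hgb : Function.Bijective g := (Fintype.bijective_iff_injective_and_card g).mpr ⟨hg, by simp [hcG]⟩
  let e' : Fin d ≃ {x // x ∈ G} := Equiv.ofBijective g hgb
  have he'p : e' p = ⟨w, hw⟩ := by simp [e', g]
  have he'q : ∀ q, q ≠ p → ((e' q : {x // x ∈ G}) : V) = e q := by
    intro q hq
    simp [e', g, hq]
  have k1 := AN2_key hc hF p e
  have k2 := AN2_key hc hG p e'
  rw [hep] at k1
  rw [he'p] at k2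
  have h3 : (Matrix.of fun j k : Fin d => a j (e k)).updateCol p (fun j : Fin d => if (j : ℕ) + 1 = d then (1 : K) else 0) =
      (Matrix.of fun j k : Fin d => a j (e' k)).updateCol p (fun j : Fin d => if (j : ℕ) + 1 = d then (1 : K) else 0) := by
    ext j k
    by_cases hk : k = p
    · subst hk; rw [Matrix.updateCol_self, Matrix.updateCol_self]
    · rw [Matrix.updateCol_ne hk, Matrix.updateCol_ne hk]
      simp only [Matrix.of_apply]
      rw [he'q k hk]
  rw [h3] at k1
  rw [mul_comm (c F v), mul_comm (c G w)]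
  exact k1.trans k2.symm

end Pool.Agent.LibHB64
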