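import Mathlib

set_option autoImplicit false

/-!
Row AN3 (MEDIUM, ONLY MATHLIB). The coefficient of `u_1 ... u_d` in the product of `d` linear polynomials is the permanent, in characteristic two the determinant.
Plan: write the factor number `v` as `∑ o : Option (Fin d), T v o` with `T v none = C (x v)`, `T v (some k) = C (A v k) * X k`, `Finset.prod_univ_sum` (or `Finset.prod_sum`): the product is the sum over `f : Fin d → Option (Fin d)` of
`∏ v, T v (f v)`, a monomial with the exponent `∑ v, (single of f v)`. Its coefficient at `∑ j, single j 1` is nonzero only if every `f v` is `some (σ v)` (count the degree) with `σ` bijective, then it is `∏ v, A v (σ v)`. So the left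
side is `∑ σ : Equiv.Perm (Fin d), ∏ v, A v (σ v)`; `Matrix.det_apply` for the transpose (`Matrix.det_transpose`), signs are `1`. Any other proof is fine (for instance induction on `d` by expansion, or both sides are multilinear in the rows).
-/

namespace Pool.Agent.LibHB64

open MvPolynomial Module

variable {V : Type*} [Fintype V] [DecidableEq V] {K : Type*} [Field K] {d : ℕ} {D B : Finset (Finset V)}

theorem coeff_perm [CharP K 2] (A : Matrix (Fin d) (Fin d) K) (x : Fin d → K) :
    coeff (∑ j, Finsupp.single j 1) (∏ v, (C (x v) + ∑ k, C (A v k) * X k) : MvPolynomial (Fin d) K) = A.det := by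
  classical
  let T : Fin d → Option (Fin d) → MvPolynomial (Fin d) K := fun v o =>
    match o with
    | none => C (x v)
    | some k => C (A v k) * X k
  let e : Option (Fin d) → (Fin d →₀ ℕ) := fun o =>
    match o with
    | none => 0
    | some k => Finsupp.single k 1
  let c : Fin d → Option (Fin d) → K := fun v o =>
    match o with
    | none => x v
    | some k => A v k
  have hT : ∀ v o, T v o = monomial (e o) (c v o) := by
    intro v o
    rcases o with _ | k
    · rfl
    · change C (A v k) * X k = monomial (Finsupp.single k 1) (A v k)
      rw [MvPolynomial.C_mul_X_eq_monomial]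
  have hsum : ∀ v, (C (x v) + ∑ k, C (A v k) * X k : MvPolynomial (Fin d) K) =
      ∑ o : Option (Fin d), T v o := by
    intro v
    rw [Fintype.sum_option]
  have hprod : (∏ v, (C (x v) + ∑ k, C (A v k) * X k) : MvPolynomial (Fin d) K) =
      ∑ f : Fin d → Option (Fin d), monomial (∑ v, e (f v)) (∏ v, c v (f v)) := by
    rw [Finset.prod_congr rfl fun v _ => hsum v, Finset.prod_univ_sum, Fintype.piFinset_univ]
    refine Finset.sum_congr rfl fun f _ => ?_
    rw [Finset.prod_congr rfl fun v _ => hT v (f v)]
    exact (MvPolynomial.monomial_sum_prod Finset.univ _ _).symm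
  rw [hprod, MvPolynomial.coeff_sum]
  simp only [MvPolynomial.coeff_monomial]
  rw [← Finset.sum_filter]
  -- the relevant functions are the permutations
  have hin : Function.Injective (fun (σ : Equiv.Perm (Fin d)) (v : Fin d) => some (σ v)) := by
    intro σ τ h
    ext v
    have := congrFun h v
    simp only [Option.some.injEq] at this
    rw [this]
  have himg : (Finset.univ.filter fun f : Fin d → Option (Fin d) =>
      ∑ v, e (f v) = ∑ j, Finsupp.single j 1) =
      Finset.univ.image (fun (σ : Equiv.Perm (Fin d)) (v : Fin d) => some (σ v)) := by
    ext f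
    simp only [Finset.mem_filter, Finset.mem_univ, true_and, Finset.mem_image]
    constructor
    · intro h
      have hk : ∀ k, ∃ v, f v = some k := by
        intro k
        by_contra hno
        push Not at hno
        have h1 := DFunLike.congr_fun h k
        rw [Finsupp.finsetSum_apply, Finsupp.finsetSum_apply] at h1
        have h2 : ∑ v, (e (f v)) k = 0 := by
          refine Finset.sum_eq_zero fun v _ => ?_
          rcases hf : f v with _ | k'
          · rfl
          · change (Finsupp.single k' 1 : Fin d →₀ ℕ) k = 0
            rw [Finsupp.single_apply, if_neg]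
            rintro rfl
            exact hno v hf
        have h3 : ∑ j : Fin d, (Finsupp.single j 1 : Fin d →₀ ℕ) k = 1 := by
          simp [Finsupp.single_apply]
        omega
      choose w hw using hk
      have hwi : Function.Injective w := by
        intro a b hab
        have h1 := hw a
        have h2 := hw b
        rw [hab, h2] at h1
        exact (Option.some.inj h1).symm
      have hwb : Function.Bijective w := Finite.injective_iff_bijective.1 hwi
      refine ⟨(Equiv.ofBijective w hwb).symm, ?_⟩
      funext v
      obtain ⟨k, rfl⟩ := hwb.2 v
      rw [hw k]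
      congr 1
      exact (Equiv.ofBijective w hwb).symm_apply_apply k
    · rintro ⟨σ, rfl⟩
      change ∑ v, (Finsupp.single (σ v) 1 : Fin d →₀ ℕ) = ∑ j, Finsupp.single j 1
      exact Equiv.sum_comp σ fun j => (Finsupp.single j 1 : Fin d →₀ ℕ)
  rw [himg, Finset.sum_image fun σ _ τ _ h => hin h, ← Matrix.det_transpose, Matrix.det_apply]
  refine Finset.sum_congr rfl fun σ _ => ?_
  have h1 : (∏ v, c v (some (σ v))) = ∏ i, A.transpose (σ i) i := rfl
  rw [h1]
  rcases Int.units_eq_one_or (Equiv.Perm.sign σ) with hs | hs
  · rw [hs, one_smul]
  · rw [hs, Units.neg_smul, one_smul, CharTwo.neg_eq]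

end Pool.Agent.LibHB64
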