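import Pool.Agent.LibHB64.AN1
import Pool.Agent.LibHB64.AN2
import Pool.Agent.LibHB64.AN3

set_option autoImplicit false

/-!
Row AN6 (MEDIUM). The matrix of a facet. `e : Fin d ≃ F` (`F.card = d`), `A = (a j (e q))`.
* `dA_ne`: `dA_eq`; if `A.det = 0` there is `y ≠ 0` with `A.mulVec y = 0` (`Matrix.exists_mulVec_eq_zero_iff`), extend by zero, contradiction to `Gen` for `s = F` (`F ∈ D`).
* `c_ne`: if `c F v = 0`, `v ∈ F`, then `c F` is supported on `F.erase v` (in `D`, card `d - 1`) and killed by the forms `j < d - 1`, so `c F = 0` by `Gen`, but the last form has the value `1` (`Pts.eq`).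
* `facet_matrix`: `b v l = A⁻¹ (e⁻¹ v) l` for `v ∈ F`, `0` otherwise. `b v p = c F v`: `A.mulVec (fun q => c F (e q)) = Pi.single p 1`. The derivatives: `der_inv` for `i ∈ F` (the derivation `E j i` on the entries of `A`), `der_inv_zero` for `i ∉ F`
  (then `b i l = 0`); signs are `1` in characteristic two. The coefficient: `∏ v ∈ F, gX b p v = ∏ q : Fin d, gX b p (e q)`, `coeff_perm`, `(A⁻¹).det = A.det⁻¹` (`Matrix.det_nonsing_inv`).
-/

namespace Pool.Agent.LibHB64

open MvPolynomial Module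

variable {V : Type*} [Fintype V] [DecidableEq V] {K : Type*} [Field K] {d : ℕ} {D B : Finset (Finset V)}

private theorem AN6_sum {F : Finset V} (e : Fin d ≃ {v // v ∈ F}) (f : V → K) (hf : ∀ v, v ∉ F → f v = 0) :
    ∑ v, f v = ∑ q, f (e q) := by
  rw [Equiv.sum_comp e (fun v : {v // v ∈ F} => f v), Finset.sum_coe_sort F f]
  exact (Finset.sum_subset (Finset.subset_univ F) fun v _ hv => hf v hv).symm

private theorem AN6_inv [CharP K 2] {a : Fin d → V → K} (hg : Gen D a) {F : Finset V} (hF : F ∈ Fac d D)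
    (e : Fin d ≃ {v // v ∈ F}) : (Matrix.of fun j k : Fin d => a j (e k)).det ≠ 0 := by
  intro h0
  obtain ⟨y, hy, hy0⟩ := Matrix.exists_mulVec_eq_zero_iff.2 h0
  have hF' := Finset.mem_filter.1 hF
  set y' : V → K := fun v => if h : v ∈ F then y (e.symm ⟨v, h⟩) else 0 with hy'
  have he : ∀ q, y' (e q) = y q := by
    intro q
    simp only [hy']
    rw [dif_pos (e q).2]
    simp
  have h1 : y' = 0 := by
    apply hg F hF'.1 y' (fun v hv => by simp only [hy']; rw [dif_neg hv])
    intro j _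
    rw [AN6_sum e (fun v => a j v * y' v) (fun v hv => by simp only [hy']; rw [dif_neg hv, mul_zero])]
    have := congrFun hy0 j
    simp only [Matrix.mulVec, dotProduct, Matrix.of_apply, Pi.zero_apply] at this
    simpa only [he] using this
  apply hy
  funext q
  rw [← he q, h1]
  rfl

theorem dA_ne [CharP K 2] {a : Fin d → V → K} (hg : Gen D a) {F : Finset V} (hF : F ∈ Fac d D) : dA a F ≠ 0 := by
  have hF' := Finset.mem_filter.1 hF
  have e := (Finset.equivFinOfCardEq hF'.2).symm
  rw [dA_eq a F e]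
  exact AN6_inv hg hF e

theorem c_ne (hD : IsCx D) {a : Fin d → V → K} {c : Finset V → V → K} (hg : Gen D a) (hc : Pts d D a c) (hd : 1 ≤ d)
    {F : Finset V} (hF : F ∈ Fac d D) {v : V} (hv : v ∈ F) : c F v ≠ 0 := by
  intro h0
  have hF' := Finset.mem_filter.1 hF
  have hcard : (F.erase v).card = d - 1 := by rw [Finset.card_erase_of_mem hv, hF'.2]
  have h1 : c F = 0 := by
    apply hg (F.erase v) (hD.2 F hF'.1 _ (Finset.erase_subset _ _)) (c F)
    · intro w hw
      by_cases hwv : w = v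
      · rw [hwv]; exact h0
      · exact hc.supp F hF w fun h => hw (Finset.mem_erase.2 ⟨hwv, h⟩)
    · intro j hj
      rw [hc.eq F hF j, if_neg]
      rw [hcard] at hj
      omega
  have h2 := hc.eq F hF ⟨d - 1, by omega⟩
  rw [if_pos (by simp; omega), h1] at h2
  simp at h2

theorem facet_matrix [CharP K 2] {a : Fin d → V → K} {c : Finset V → V → K} (hg : Gen D a) (hc : Pts d D a c)
    {k : Type*} [Field k] [Algebra k K] {E : Fin d → V → Derivation k K K} (hE : IsE E a) {p : Fin d} (hp : (p : ℕ) + 1 = d)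
    {F : Finset V} (hF : F ∈ Fac d D) :
    ∃ b : V → Fin d → K, (∀ v, v ∉ F → ∀ l, b v l = 0) ∧ (∀ v, b v p = c F v) ∧
      (∀ j i v l, E j i (b v l) = b v j * b i l) ∧ (∀ j i, E j i ((dA a F)⁻¹) = (dA a F)⁻¹ * b i j) ∧
      coeff (∑ j, Finsupp.single j 1) (∏ v ∈ F, gX b p v) = (dA a F)⁻¹ := by
  have hF' := Finset.mem_filter.1 hF
  have e : Fin d ≃ {v // v ∈ F} := (Finset.equivFinOfCardEq hF'.2).symm
  have hdet := AN6_inv hg hF e
  rw [dA_eq a F e]
  set A : Matrix (Fin d) (Fin d) K := Matrix.of fun j k : Fin d => a j (e k) with hA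
  have hu : IsUnit A.det := isUnit_iff_ne_zero.2 hdet
  set b : V → Fin d → K := fun v l => if h : v ∈ F then A⁻¹ (e.symm ⟨v, h⟩) l else 0 with hb
  have hbn : ∀ v, v ∉ F → ∀ l, b v l = 0 := fun v hv l => by simp only [hb]; rw [dif_neg hv]
  have hbe : ∀ q l, b (e q) l = A⁻¹ q l := by
    intro q l
    simp only [hb]
    rw [dif_pos (e q).2]
    simp
  have hex : ∀ v, v ∈ F → ∃ q, v = e q := fun v hv => ⟨e.symm ⟨v, hv⟩, by simp⟩
  have hneg : ∀ x : K, -x = x := fun x => CharTwo.neg_eq x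
  have hEi : ∀ j i', ∀ l w, E j (e i') (A l w) = if j = l ∧ i' = w then 1 else 0 := by
    intro j i' l w
    rw [hA, Matrix.of_apply, hE]
    have : ((e i' : V) = e w) ↔ i' = w := by
      rw [Subtype.coe_inj, e.apply_eq_iff_eq]
    simp only [this]
  have hEn : ∀ j i, i ∉ F → ∀ l w, E j i (A l w) = 0 := by
    intro j i hi l w
    rw [hA, Matrix.of_apply, hE, if_neg]
    rintro ⟨_, h2⟩
    exact hi (h2 ▸ (e w).2)
  refine ⟨b, hbn, ?_, ?_, ?_, ?_⟩
  · intro v
    by_cases hv : v ∈ F
    · obtain ⟨q, rfl⟩ := hex v hv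
      rw [hbe]
      have h1 : A.mulVec (fun q => c F (e q)) = Pi.single p 1 := by
        funext j
        simp only [Matrix.mulVec, dotProduct, hA, Matrix.of_apply]
        rw [← AN6_sum e (fun v => a j v * c F v) (fun v hv => by rw [hc.supp F hF v hv, mul_zero]), hc.eq F hF j]
        rw [Pi.single_apply]
        have : ((j : ℕ) + 1 = d) ↔ j = p := by
          rw [Fin.ext_iff]; omega
        simp only [this]
      have h2 : (fun q => c F (e q)) = A⁻¹.mulVec (Pi.single p 1) := by
        rw [← h1, Matrix.mulVec_mulVec, Matrix.nonsing_inv_mul A hu, Matrix.one_mulVec]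
      have h3 := congrFun h2 q
      simp only [Matrix.mulVec_single_one, Matrix.col_apply] at h3
      exact h3.symm
    · rw [hbn v hv, hc.supp F hF v hv]
  · intro j i v l
    by_cases hv : v ∈ F
    · obtain ⟨q, rfl⟩ := hex v hv
      rw [hbe, hbe]
      by_cases hi : i ∈ F
      · obtain ⟨i', rfl⟩ := hex i hi
        rw [hbe, (der_inv (E j (e i')) A j i' (hEi j i') hdet).2 q l, hneg]
      · rw [hbn i hi, mul_zero, (der_inv_zero (E j i) A (hEn j i hi) hdet).2 q l]
    · rw [hbn v hv, hbn v hv, map_zero, zero_mul]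
  · intro j i
    by_cases hi : i ∈ F
    · obtain ⟨i', rfl⟩ := hex i hi
      rw [hbe, (der_inv (E j (e i')) A j i' (hEi j i') hdet).1, hneg]
    · rw [hbn i hi, mul_zero, (der_inv_zero (E j i) A (hEn j i hi) hdet).1]
  · have h1 : ∏ v ∈ F, gX b p v = ∏ q : Fin d, (C (A⁻¹ q p) + ∑ k, C (A⁻¹ q k) * X k : MvPolynomial (Fin d) K) := by
      rw [← Finset.prod_coe_sort F (fun v => gX b p v), ← Equiv.prod_comp e (fun v : {v // v ∈ F} => gX b p v)]
      refine Finset.prod_congr rfl fun q _ => ?_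
      simp only [gX, hbe]
    rw [h1, coeff_perm A⁻¹ (fun q => A⁻¹ q p), Matrix.det_nonsing_inv, Ring.inverse_eq_inv']

end Pool.Agent.LibHB64
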