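import Pool.Agent.LibHB64.AN0

set_option autoImplicit false

/-!
Row AN9 (MEDIUM, ONLY Defs). Ridges and strong connectivity of a homology ball.
* `ridge_two`: `ρ = F.erase v ∈ D`, card `d - 1`, `ρ ∉ B`: `HBallB.int` gives `TopOne (lk D ρ) 1`. The chains of size `1` of `lk D ρ` are the functions on the vertices `w` with `w ∉ ρ`, `insert w ρ ∈ D` (all other values zero), the boundary is the sum
  (at `∅`). There is exactly one nonzero set of vertices of even size, so there are exactly two vertices: `v` and `w`; `G = insert w ρ`.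
* `strong`: for a set `T` of facets which is closed in this sense let `c_T = ∑ F ∈ T` (the indicator function of `T`). Its boundary at `t`: zero unless `t` is contained in a facet of `T` and has card `d - 1`; zero if `t ∉ B` (by `ridge_two` the two facets at `t` are both
  in `T` or both not). So `bdry c_T` is a `(d-1)`-chain of `B` and a cycle (`bdry ∘ bdry = 0`, a lemma to prove: the terms `insert v (insert w t)` cancel in pairs in characteristic two). `B` has exactly one nonzero cycle of size `d - 1` (`HBallB.sph`, `lk B ∅ = B`), and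
  `bdry c_T = 0` only for `T = ∅` (`HBallB.bd ∅`: `TopZero (lk D ∅) d`, `∅ ∈ B`). The set `T' = Fac d D \ S` is closed too (the relation is symmetric); if both `S`, `T'` are nonempty then `bdry (c_S + c_T') = z + z = 0`, so `c_S + c_T' = 0`, contradiction.
-/

namespace Pool.Agent.LibHB64

open MvPolynomial Module

variable {V : Type*} [Fintype V] [DecidableEq V] {K : Type*} [Field K] {d : ℕ} {D B : Finset (Finset V)}

private theorem AN9_bb (c : Finset V → ZMod 2) (t : Finset V) : bdry (fun s => bdry c s) t = 0 := by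
  unfold bdry
  rw [Finset.sum_sigma']
  apply Finset.sum_involution (fun p _ => (⟨p.2, p.1⟩ : Σ _ : V, V))
  · rintro ⟨v, w⟩ _
    simp only
    rw [Finset.insert_comm]
    exact CharTwo.add_self_eq_zero _
  · rintro ⟨v, w⟩ hp _ heq
    simp only [Finset.mem_sigma, Finset.mem_compl, Finset.mem_insert, not_or] at hp
    simp only [Sigma.mk.injEq, heq_eq_eq] at heq
    exact hp.2.1 heq.1
  · rintro ⟨v, w⟩ hp
    simp only [Finset.mem_sigma, Finset.mem_compl, Finset.mem_insert, not_or] at hp ⊢
    exact ⟨hp.2.2, fun h => hp.2.1 h.symm, hp.1⟩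
  · rintro ⟨v, w⟩ _
    rfl

omit [Fintype V] in
private theorem AN9_lk_empty (D : Finset (Finset V)) : lk D ∅ = D := by
  ext t
  simp [lk]

omit [Fintype V] in
private theorem AN9_card_erase {F : Finset V} {v : V} (hF : F ∈ Fac d D) (hv : v ∈ F) :
    (F.erase v).card + 1 = d := by
  have h1 := Finset.card_erase_add_one hv
  have h2 := (Finset.mem_filter.1 hF).2
  omega

theorem ridge_two (h : HBallB d D B) {F : Finset V} (hF : F ∈ Fac d D) {v : V} (hv : v ∈ F) (hr : F.erase v ∉ B) :
    ∃ G ∈ Fac d D, ∃ w ∈ G, w ∉ F ∧ G.erase w = F.erase v ∧ ∀ H ∈ Fac d D, F.erase v ⊆ H → H = F ∨ H = G := by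
  have hFD : F ∈ D := (Finset.mem_filter.1 hF).1
  have hFc : F.card = d := (Finset.mem_filter.1 hF).2
  set ρ := F.erase v with hρ
  have hρD : ρ ∈ D := h.cx.2 F hFD ρ (Finset.erase_subset _ _)
  have hρc : ρ.card + 1 = d := AN9_card_erase hF hv
  have hvρ : v ∉ ρ := Finset.notMem_erase v F
  have hins : insert v ρ = F := Finset.insert_erase hv
  have htop := h.int ρ hρD hr
  have h1 : d - ρ.card = 1 := by omega
  rw [h1] at htop
  obtain ⟨z, hz, hzc, ⟨s0, hs0⟩, huniq⟩ := htop
  -- the vertices of the link
  have hmem : ∀ x : V, ({x} : Finset V) ∈ lk D ρ ↔ x ∉ ρ ∧ insert x ρ ∈ D := by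
    intro x
    simp only [lk, Finset.mem_filter, Finset.disjoint_singleton_right]
    have he : ρ ∪ {x} = insert x ρ := by
      rw [Finset.union_comm, Finset.insert_eq]
    rw [he]
    constructor
    · rintro ⟨_, h2, h3⟩
      exact ⟨h2, h3⟩
    · rintro ⟨h2, h3⟩
      exact ⟨h.cx.2 _ h3 _ (Finset.singleton_subset_iff.2 (Finset.mem_insert_self x ρ)), h2, h3⟩
  obtain ⟨hs1, hs2⟩ := hz s0 hs0
  obtain ⟨w1, rfl⟩ := Finset.card_eq_one.1 hs2
  have hw1 := (hmem w1).1 hs1
  -- a second vertex
  obtain ⟨w2, hw21, hw2z⟩ : ∃ x, x ≠ w1 ∧ z {x} ≠ 0 := by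
    by_contra hno
    push Not at hno
    have h2 := hzc ∅
    unfold bdry at h2
    rw [Finset.sum_eq_single w1] at h2
    · apply hs0
      simpa using h2
    · intro b _ hb
      have := hno b hb
      simpa using this
    · intro hn
      simp at hn
  obtain ⟨hw2l, _⟩ := hz _ hw2z
  have hw2 := (hmem w2).1 hw2l
  -- there are only two
  have honly : ∀ a : V, a ∉ ρ → insert a ρ ∈ D → a = w1 ∨ a = w2 := by
    intro a ha haD
    by_contra hcon
    push Not at hcon
    obtain ⟨ha1, ha2⟩ := hcon
    set c : Finset V → ZMod 2 := fun s => (if s = {w1} then 1 else 0) + (if s = {a} then 1 else 0)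
      with hc
    have hsing : ∀ x y : V, ({x} : Finset V) = {y} ↔ x = y := fun x y => Finset.singleton_inj
    have hch : IsChain (lk D ρ) 1 c := by
      intro s hs
      by_cases h2 : s = {w1}
      · rw [h2]; exact ⟨hs1, Finset.card_singleton _⟩
      · by_cases h3 : s = {a}
        · rw [h3]; exact ⟨(hmem a).2 ⟨ha, haD⟩, Finset.card_singleton _⟩
        · exfalso; apply hs; simp [hc, h2, h3]
    have hcb : ∀ t, bdry c t = 0 := by
      intro t
      by_cases ht : t = ∅
      · subst ht
        unfold bdry
        simp only [hc]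
        rw [Finset.sum_add_distrib]
        have h2 : ∀ y : V, ∑ x ∈ (∅ : Finset V)ᶜ, (if insert x (∅ : Finset V) = {y} then (1 : ZMod 2) else 0) = 1 := by
          intro y
          rw [Finset.sum_eq_single y]
          · simp
          · intro b _ hb
            simp [hb]
          · intro hn; simp at hn
        rw [h2, h2]
        exact CharTwo.add_self_eq_zero _
      · unfold bdry
        apply Finset.sum_eq_zero
        intro x hx
        rw [Finset.mem_compl] at hx
        have hcard : 2 ≤ (insert x t).card := by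
          rw [Finset.card_insert_of_notMem hx]
          have := Finset.card_pos.2 (Finset.nonempty_iff_ne_empty.2 ht)
          omega
        have h3 : ∀ y : V, insert x t ≠ {y} := by
          intro y hy
          rw [hy, Finset.card_singleton] at hcard
          omega
        simp [hc, h3]
    rcases huniq c hch hcb with h2 | h2
    · have h3 := h2 {w1}
      simp only [hc, hsing] at h3
      rw [if_pos trivial, if_neg (fun h4 => ha1 h4.symm)] at h3
      simp at h3
    · have h3 := h2 {w2}
      simp only [hc, hsing] at h3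
      rw [if_neg hw21, if_neg (fun h4 => ha2 h4.symm), add_zero] at h3
      exact hw2z h3.symm
  -- the other vertex
  have hv' := honly v hvρ (by rw [hins]; exact hFD)
  obtain ⟨w, hwv, hwρ, hwD, hw⟩ : ∃ w, w ≠ v ∧ w ∉ ρ ∧ insert w ρ ∈ D ∧
      ∀ a : V, a ∉ ρ → insert a ρ ∈ D → a = v ∨ a = w := by
    rcases hv' with h2 | h2
    · exact ⟨w2, by rw [h2]; exact hw21, hw2.1, hw2.2, by rw [h2]; exact honly⟩
    · exact ⟨w1, by rw [h2]; exact hw21.symm, hw1.1, hw1.2, by
        intro a ha haD
        rw [h2]
        exact (honly a ha haD).symm⟩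
  have hwF : w ∉ F := by
    rw [← hins, Finset.mem_insert, not_or]
    exact ⟨hwv, hwρ⟩
  refine ⟨insert w ρ, ?_, w, Finset.mem_insert_self _ _, hwF, Finset.erase_insert hwρ, ?_⟩
  · rw [Fac, Finset.mem_filter]
    refine ⟨hwD, ?_⟩
    rw [Finset.card_insert_of_notMem hwρ]
    exact hρc
  · intro H hH hsub
    rw [Fac, Finset.mem_filter] at hH
    have hdiff : (H \ ρ).card = 1 := by
      have := Finset.card_sdiff_add_card_eq_card hsub
      omega
    obtain ⟨a, ha⟩ := Finset.card_eq_one.1 hdiff
    have haH : a ∈ H \ ρ := by rw [ha]; exact Finset.mem_singleton_self a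
    rw [Finset.mem_sdiff] at haH
    have hHeq : H = insert a ρ := by
      ext x
      rw [Finset.mem_insert]
      constructor
      · intro hx
        by_cases hxρ : x ∈ ρ
        · exact Or.inr hxρ
        · left
          have : x ∈ H \ ρ := Finset.mem_sdiff.2 ⟨hx, hxρ⟩
          rw [ha] at this
          exact Finset.mem_singleton.1 this
      · rintro (hx | hx)
        · rw [hx]; exact haH.1
        · exact hsub hx
    rcases hw a haH.2 (by rw [← hHeq]; exact hH.1) with h2 | h2
    · left; rw [hHeq, h2, hins]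
    · right; rw [hHeq, h2]

/-- the indicator function of a set of facets -/
private def AN9_ind (T : Finset (Finset V)) (s : Finset V) : ZMod 2 := if s ∈ T then 1 else 0

/-- closed under adjacency through interior ridges -/
private def AN9_cl (d : ℕ) (D B T : Finset (Finset V)) : Prop :=
  ∀ F ∈ T, ∀ G ∈ Fac d D, ∀ v ∈ F, ∀ w ∈ G, F.erase v = G.erase w → F.erase v ∉ B → G ∈ T

omit [Fintype V] in
private theorem AN9_chain {T : Finset (Finset V)} (hT : T ⊆ Fac d D) : IsChain D d (AN9_ind T) := by
  intro s hs
  unfold AN9_ind at hs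
  have : s ∈ T := by
    by_contra h1
    rw [if_neg h1] at hs
    exact hs rfl
  have h2 := hT this
  rw [Fac, Finset.mem_filter] at h2
  exact h2

private theorem AN9_bchain (h : HBallB d D B) {T : Finset (Finset V)} (hT : T ⊆ Fac d D)
    (hcl : AN9_cl d D B T) : IsChain B (d - 1) (fun t => bdry (AN9_ind T) t) := by
  intro t ht
  -- a facet of `T` at `t`
  obtain ⟨v, hv, hvT⟩ : ∃ v, v ∉ t ∧ insert v t ∈ T := by
    by_contra hno
    push Not at hno
    apply ht
    unfold bdry
    apply Finset.sum_eq_zero
    intro v hv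
    rw [Finset.mem_compl] at hv
    unfold AN9_ind
    rw [if_neg (hno v hv)]
  have hF := hT hvT
  have her : (insert v t).erase v = t := Finset.erase_insert hv
  have hcard := AN9_card_erase hF (Finset.mem_insert_self v t)
  rw [her] at hcard
  refine ⟨?_, by omega⟩
  by_contra htB
  obtain ⟨G, hG, w, hwG, hwF, hGw, honly⟩ := ridge_two h hF (Finset.mem_insert_self v t)
    (by rw [her]; exact htB)
  rw [her] at hGw honly
  have hGT : G ∈ T := by
    apply hcl _ hvT G hG v (Finset.mem_insert_self v t) w hwG
    · rw [her, hGw]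
    · rw [her]; exact htB
  have hGins : insert w t = G := by rw [← hGw]; exact Finset.insert_erase hwG
  have hwt : w ∉ t := fun h2 => hwF (Finset.mem_insert_of_mem h2)
  have hwv : v ≠ w := fun h2 => hwF (by rw [h2]; exact Finset.mem_insert_self _ _)
  apply ht
  change ∑ x ∈ tᶜ, AN9_ind T (insert x t) = 0
  have hsub : ({v, w} : Finset V) ⊆ tᶜ := by
    intro x hx
    rw [Finset.mem_insert, Finset.mem_singleton] at hx
    rw [Finset.mem_compl]
    rcases hx with rfl | rfl
    · exact hv
    · exact hwt
  rw [← Finset.sum_subset hsub]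
  · rw [Finset.sum_pair hwv, hGins]
    unfold AN9_ind
    rw [if_pos hvT, if_pos hGT]
    exact CharTwo.add_self_eq_zero _
  · intro x hx hnx
    rw [Finset.mem_compl] at hx
    unfold AN9_ind
    rw [if_neg]
    intro hxT
    apply hnx
    have h3 : ∀ y : V, insert x t = insert y t → x = y := by
      intro y hy
      have h4 : x ∈ insert y t := by rw [← hy]; exact Finset.mem_insert_self _ _
      rcases Finset.mem_insert.1 h4 with h5 | h5
      · exact h5
      · exact absurd h5 hx
    rw [Finset.mem_insert, Finset.mem_singleton]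
    rcases honly _ (hT hxT) (Finset.subset_insert x t) with h2 | h2
    · exact Or.inl (h3 v h2)
    · exact Or.inr (h3 w (by rw [h2, hGins]))

private theorem AN9_zero (h : HBallB d D B) (c : Finset V → ZMod 2) (hc : IsChain D d c)
    (hb : ∀ t, bdry c t = 0) : ∀ s, c s = 0 := by
  have hB : ∅ ∈ B := h.sph.1.1
  have h1 := h.bd ∅ hB
  rw [AN9_lk_empty, Finset.card_empty, Nat.sub_zero] at h1
  exact h1 c hc hb

theorem strong (h : HBallB d D B) (S : Finset (Finset V)) (hS : S ⊆ Fac d D) (hne : S.Nonempty)
    (hcl : ∀ F ∈ S, ∀ G ∈ Fac d D, ∀ v ∈ F, ∀ w ∈ G, F.erase v = G.erase w → F.erase v ∉ B → G ∈ S) : S = Fac d D := by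
  have hB : ∅ ∈ B := h.sph.1.1
  obtain ⟨_, htop⟩ := h.sph.2.2 ∅ hB
  rw [AN9_lk_empty, Finset.card_empty, Nat.sub_zero] at htop
  obtain ⟨z, _, _, _, huniq⟩ := htop
  set T' := Fac d D \ S with hT'
  have hT's : T' ⊆ Fac d D := Finset.sdiff_subset
  have hclT' : AN9_cl d D B T' := by
    intro F hF G hG v hv w hw he hnB
    rw [hT', Finset.mem_sdiff] at hF ⊢
    refine ⟨hG, fun hGS => hF.2 ?_⟩
    exact hcl G hGS F hF.1 w hw v hv he.symm (by rw [← he]; exact hnB)
  -- a nonempty closed set has the boundary `z`
  have hval : ∀ T : Finset (Finset V), T ⊆ Fac d D → AN9_cl d D B T → T.Nonempty →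
      ∀ t, bdry (AN9_ind T) t = z t := by
    intro T hT hc hn
    rcases huniq (fun t => bdry (AN9_ind T) t) (AN9_bchain h hT hc) (fun t => AN9_bb _ t) with h1 | h1
    · exfalso
      obtain ⟨F, hF⟩ := hn
      have h2 := AN9_zero h (AN9_ind T) (AN9_chain hT) h1 F
      unfold AN9_ind at h2
      rw [if_pos hF] at h2
      exact one_ne_zero h2
    · exact h1
  by_contra hneq
  have hT'n : T'.Nonempty := by
    rw [Finset.nonempty_iff_ne_empty]
    intro h0
    apply hneq
    apply Finset.Subset.antisymm hS
    rw [hT', Finset.sdiff_eq_empty_iff_subset] at h0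
    exact h0
  have h1 := hval S hS hcl hne
  have h2 := hval T' hT's hclT' hT'n
  have h3 : ∀ t, bdry (fun s => AN9_ind S s + AN9_ind T' s) t = 0 := by
    intro t
    have h4 : bdry (fun s => AN9_ind S s + AN9_ind T' s) t = bdry (AN9_ind S) t + bdry (AN9_ind T') t := by
      unfold bdry
      rw [Finset.sum_add_distrib]
    rw [h4, h1, h2]
    exact CharTwo.add_self_eq_zero _
  have hch : IsChain D d (fun s => AN9_ind S s + AN9_ind T' s) := by
    intro s hs
    by_cases h5 : AN9_ind S s = 0
    · apply AN9_chain hT's s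
      intro h6
      apply hs
      simp only
      rw [h5, h6, add_zero]
    · exact AN9_chain hS s h5
  obtain ⟨F, hF⟩ := hne
  have h5 := AN9_zero h _ hch h3 F
  have h6 : F ∉ T' := by
    rw [hT', Finset.mem_sdiff]
    exact fun h7 => h7.2 hF
  simp only [AN9_ind] at h5
  rw [if_pos hF, if_neg h6, add_zero] at h5
  exact one_ne_zero h5

end Pool.Agent.LibHB64
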