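import Pool.Agent.LibHB64.AN2
import Pool.Agent.LibHB64.AN6
import Pool.Agent.LibHB64.AN9
import Pool.Agent.LibHB64.AN11
import Pool.Agent.LibHB64.AN12

set_option autoImplicit false

/-!
Row AN13 (MEDIUM). `W_(d-1)` is the kernel of the degree functional. `eps_ne`: `dA_ne`, `c_ne`. `dg_zero`: `finrank_UW` with `i = d - 1`, `sum_hnum`, `hnum_zero`: `finrank W_(d-1) = |Fac| - 1 < finrank (K^Fac)`, so there is a nonzero linear functional on `K^Fac` which vanishes on
`W_(d-1)` (`Submodule.exists_le_ker_of_lt_top`), `y ↦ ∑ F, f F * y F` with `f ≠ 0` (`f F` the value at `Pi.single F 1`). Let `F`, `G` be facets, `F.erase v = G.erase w = ρ ∉ B`, `F ≠ G`. The monomial `∏_(x ∈ ρ) x` has support `ρ ∈ D \ B` and degree `d - 1`, its value at `H` is `∏_(x ∈ ρ) c H x`,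
zero unless `ρ ⊆ H`, i.e. `H = F` or `H = G` (`ridge_two`): `f F ∏_ρ c F x + f G ∏_ρ c G x = 0`, so equal (characteristic two), and with `dA_ridge` the numbers `f F * dA a F * ∏_(x ∈ F) c F x` are equal for `F` and `G` (multiply by `c F v * dA a F = c G w * dA a G`). So
`S = {F | f F * (eps a c F)⁻¹ = δ}` is closed in the sense of `strong` for every `δ`; take `δ` the value at some `F₀` with `f F₀ ≠ 0`: `f F = δ * eps a c F` for all `F`, `δ ≠ 0`.
-/

namespace Pool.Agent.LibHB64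

open MvPolynomial Module

variable {V : Type*} [Fintype V] [DecidableEq V] {K : Type*} [Field K] {d : ℕ} {D B : Finset (Finset V)}

theorem eps_ne [CharP K 2] (hD : IsCx D) {a : Fin d → V → K} {c : Finset V → V → K} (hg : Gen D a) (hc : Pts d D a c)
    (hd : 1 ≤ d) {F : Finset V} (hF : F ∈ Fac d D) : eps a c F ≠ 0 := by
  rw [eps]
  exact inv_ne_zero (mul_ne_zero (dA_ne hg hF) (Finset.prod_ne_zero_iff.2 fun v hv => c_ne hD hg hc hd hF hv))

private theorem AN13_lt (h : HBallB d D B) [CharP K 2] {a : Fin d → V → K} (hg : Gen D a) {c : Finset V → V → K}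
    (hc : Pts d D a c) : UW d D (D \ B) c (d - 1) < ⊤ := by
  have hd := h.pos
  rw [lt_top_iff_ne_top]
  intro htop
  have h1 := (finrank_UW h hg hc (d - 1) (by omega)).2
  rw [htop, finrank_top, Module.finrank_fintype_fun_eq_card, Fintype.card_coe] at h1
  have h2 := sum_hnum d D
  rw [Finset.sum_range_succ', hnum_zero h.cx] at h2
  have h3 : ∑ j ∈ Finset.range (d - 1 + 1), hnum d D (d - j) = ∑ j ∈ Finset.range d, hnum d D (j + 1) := by
    rw [Nat.sub_add_cancel hd, ← Finset.sum_range_reflect (fun j => hnum d D (j + 1)) d]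
    refine Finset.sum_congr rfl fun j hj => ?_
    have hj' := Finset.mem_range.1 hj
    congr 1
    omega
  rw [h3] at h1
  linarith

private theorem AN13_sum (f : ({F // F ∈ Fac d D} → K) →ₗ[K] K) (y : {F // F ∈ Fac d D} → K) :
    f y = ∑ F, y F * f (Pi.single F 1) := by
  classical
  conv_lhs => rw [← Finset.univ_sum_single y]
  rw [map_sum]
  refine Finset.sum_congr rfl fun F _ => ?_
  rw [← smul_eq_mul, ← map_smul, ← Pi.single_smul, smul_eq_mul, mul_one]

private theorem AN13_rel (h : HBallB d D B) [CharP K 2] {a : Fin d → V → K} {c : Finset V → V → K}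
    (hc : Pts d D a c) (f : ({F // F ∈ Fac d D} → K) →ₗ[K] K) (hf : ∀ y ∈ UW d D (D \ B) c (d - 1), f y = 0)
    {F G : Finset V} (hF : F ∈ Fac d D) (hG : G ∈ Fac d D) {v w : V} (hv : v ∈ F) (hw : w ∈ G)
    (hr : F.erase v = G.erase w) (hB : F.erase v ∉ B) :
    f (Pi.single ⟨F, hF⟩ 1) * (dA a F * ∏ x ∈ F, c F x) = f (Pi.single ⟨G, hG⟩ 1) * (dA a G * ∏ x ∈ G, c G x) := by
  classical
  by_cases hne : G = F
  · subst hne
    rfl
  have hFD : F ∈ D ∧ F.card = d := by
    rw [Fac, Finset.mem_filter] at hF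
    exact hF
  obtain ⟨G', hG', w', hw', hw'F, hr', hall⟩ := ridge_two h hF hv hB
  have hGG : G = G' := by
    rcases hall G hG (by rw [hr]; exact Finset.erase_subset _ _) with h1 | h1
    · exact absurd h1 hne
    · exact h1
  rw [← hGG] at hall
  have hρD : F.erase v ∈ D := h.cx.2 F hFD.1 _ (Finset.erase_subset _ _)
  have hm : monomial (∑ x ∈ F.erase v, Finsupp.single x 1) (1 : K) ∈ mon K (D \ B) (d - 1) := by
    refine Submodule.subset_span ⟨_, ?_, ?_, rfl⟩
    · have h1 : (∑ x ∈ F.erase v, Finsupp.single x 1 : V →₀ ℕ).support = F.erase v := by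
        ext x
        rw [Finsupp.mem_support_iff, Finsupp.finsetSum_apply]
        simp only [Finsupp.single_apply, Finset.sum_ite_eq']
        by_cases hx : x ∈ F.erase v
        · rw [if_pos hx]
          exact ⟨fun _ => hx, fun _ => one_ne_zero⟩
        · rw [if_neg hx]
          exact ⟨fun hh => absurd rfl hh, fun hh => absurd hh hx⟩
      rw [h1, Finset.mem_sdiff]
      exact ⟨hρD, hB⟩
    · rw [map_sum]
      simp only [Finsupp.degree_single]
      rw [Finset.sum_const, smul_eq_mul, mul_one, Finset.card_erase_of_mem hv, hFD.2]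
  have h0 := hf _ (Submodule.mem_map_of_mem (f := ev d D c) hm)
  rw [AN13_sum] at h0
  have hval : ∀ H : {F // F ∈ Fac d D}, ev d D c (monomial (∑ x ∈ F.erase v, Finsupp.single x 1) (1 : K)) H =
      ∏ x ∈ F.erase v, c H.1 x := by
    intro H
    rw [ev_monomial, pw]
    simp only [Finsupp.finsetSum_apply, Finsupp.single_apply, Finset.sum_ite_eq']
    rw [← Finset.prod_subset (Finset.subset_univ (F.erase v))]
    · refine Finset.prod_congr rfl fun x hx => ?_
      rw [if_pos hx, pow_one]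
    · intro x _ hx
      rw [if_neg hx, pow_zero]
  have hz : ∀ H : {F // F ∈ Fac d D}, H ≠ ⟨F, hF⟩ → H ≠ ⟨G, hG⟩ → ∏ x ∈ F.erase v, c H.1 x = 0 := by
    intro H h1 h2
    by_contra hcon
    have h3 : F.erase v ⊆ H.1 := by
      intro x hx
      by_contra hxH
      exact hcon (Finset.prod_eq_zero hx (hc.supp H.1 H.2 x hxH))
    rcases hall H.1 H.2 h3 with h4 | h4
    · exact h1 (Subtype.ext h4)
    · exact h2 (Subtype.ext h4)
  have hne' : (⟨F, hF⟩ : {F // F ∈ Fac d D}) ≠ ⟨G, hG⟩ := fun hh => hne (Subtype.ext_iff.1 hh).symm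
  rw [← Finset.sum_subset (Finset.subset_univ {⟨F, hF⟩, ⟨G, hG⟩})
    (fun H _ hH => by
      rw [Finset.mem_insert, Finset.mem_singleton, not_or] at hH
      rw [hval, hz H hH.1 hH.2, zero_mul]), Finset.sum_pair hne', hval, hval] at h0
  have h1 := CharTwo.add_eq_zero.1 h0
  have h2 := dA_ridge hc h.pos hF hG hv hw hr
  rw [← Finset.mul_prod_erase F _ hv, ← Finset.mul_prod_erase G _ hw]
  rw [hr] at h1 ⊢
  calc f (Pi.single ⟨F, hF⟩ 1) * (dA a F * (c F v * ∏ x ∈ G.erase w, c F x))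
      = ((∏ x ∈ G.erase w, c F x) * f (Pi.single ⟨F, hF⟩ 1)) * (c F v * dA a F) := by ring
    _ = ((∏ x ∈ G.erase w, c G x) * f (Pi.single ⟨G, hG⟩ 1)) * (c G w * dA a G) := by rw [h1, h2]
    _ = f (Pi.single ⟨G, hG⟩ 1) * (dA a G * (c G w * ∏ x ∈ G.erase w, c G x)) := by ring

theorem dg_zero (h : HBallB d D B) [CharP K 2] {a : Fin d → V → K} (hg : Gen D a) {c : Finset V → V → K}
    (hc : Pts d D a c) {y : {F // F ∈ Fac d D} → K} (hy : y ∈ UW d D (D \ B) c (d - 1)) : dg D a c y = 0 := by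
  classical
  obtain ⟨f, hf0, hf⟩ := Submodule.exists_le_ker_of_lt_top _ (AN13_lt h hg hc)
  have hf' : ∀ y ∈ UW d D (D \ B) c (d - 1), f y = 0 := fun y hy => LinearMap.mem_ker.1 (hf hy)
  obtain ⟨F₀, hF₀⟩ : ∃ F : {F // F ∈ Fac d D}, f (Pi.single F 1) ≠ 0 := by
    by_contra hcon
    push Not at hcon
    refine hf0 (LinearMap.ext fun z => ?_)
    rw [AN13_sum, LinearMap.zero_apply]
    refine Finset.sum_eq_zero fun F _ => ?_
    rw [hcon F, mul_zero]
  have he : ∀ F : {F // F ∈ Fac d D}, dA a F.1 * ∏ x ∈ F.1, c F.1 x ≠ 0 := fun F =>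
    mul_ne_zero (dA_ne hg F.2) (Finset.prod_ne_zero_iff.2 fun v hv => c_ne h.cx hg hc h.pos F.2 hv)
  set δ : K := f (Pi.single F₀ 1) * (dA a F₀.1 * ∏ x ∈ F₀.1, c F₀.1 x) with hδ
  have hδ0 : δ ≠ 0 := mul_ne_zero hF₀ (he F₀)
  have hS : (Fac d D).filter (fun H => ∃ hH : H ∈ Fac d D,
      f (Pi.single ⟨H, hH⟩ 1) * (dA a H * ∏ x ∈ H, c H x) = δ) = Fac d D := by
    refine strong h _ (Finset.filter_subset _ _) ⟨F₀.1, ?_⟩ ?_
    · rw [Finset.mem_filter]
      exact ⟨F₀.2, F₀.2, rfl⟩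
    · intro F hF G hG v hv w hw hr hB
      rw [Finset.mem_filter] at hF ⊢
      obtain ⟨hF1, hF2, hF3⟩ := hF
      exact ⟨hG, hG, (AN13_rel h hc f hf' hF1 hG hv hw hr hB).symm.trans hF3⟩
  have hall : ∀ F : {F // F ∈ Fac d D}, f (Pi.single F 1) = δ * eps a c F.1 := by
    intro F
    have h1 : F.1 ∈ (Fac d D).filter (fun H => ∃ hH : H ∈ Fac d D,
        f (Pi.single ⟨H, hH⟩ 1) * (dA a H * ∏ x ∈ H, c H x) = δ) := by
      rw [hS]
      exact F.2
    rw [Finset.mem_filter] at h1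
    obtain ⟨_, hH, h2⟩ := h1
    rw [← h2, eps, mul_assoc, mul_inv_cancel₀ (he F), mul_one]
  have h1 := hf' y hy
  rw [AN13_sum] at h1
  have h2 : δ * dg D a c y = 0 := by
    rw [← h1, dg, Finset.mul_sum]
    refine Finset.sum_congr rfl fun F _ => ?_
    rw [hall F]
    ring
  exact (mul_eq_zero.1 h2).resolve_left hδ0

end Pool.Agent.LibHB64
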