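import Pool.Agent.LibHB64.AN13

set_option autoImplicit false

/-!
Row AN14. Duality: the annihilator of `UW d D D c (d - i)` under the form `dg (y * u)` is `UW d D (D \ B) c (i - 1)`.
-/

namespace Pool.Agent.LibHB64

open MvPolynomial Module

variable {V : Type*} [Fintype V] [DecidableEq V] {K : Type*} [Field K] {d : ℕ} {D B : Finset (Finset V)}

private theorem AN14_orth {α : Type*} [Fintype α] [DecidableEq α] {K : Type*} [Field K] (e : α → K)
    (he : ∀ x, e x ≠ 0) (U W : Submodule K (α → K)) (hWU : ∀ w ∈ W, ∀ u ∈ U, ∑ x, e x * (w x * u x) = 0)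
    (hdim : finrank K W + finrank K U = Fintype.card α) (y : α → K) (hy : ∀ u ∈ U, ∑ x, e x * (y x * u x) = 0) :
    y ∈ W := by
  classical
  let Φ : (α → K) →ₗ[K] Dual K (α → K) := LinearMap.mk₂ K (fun y u => ∑ x, e x * (y x * u x))
    (by intro a b c; rw [← Finset.sum_add_distrib]; refine Finset.sum_congr rfl fun x _ => ?_
        simp only [Pi.add_apply]; ring)
    (by intro r a b; rw [smul_eq_mul, Finset.mul_sum]; refine Finset.sum_congr rfl fun x _ => ?_
        simp only [Pi.smul_apply, smul_eq_mul]; ring)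
    (by intro a b c; rw [← Finset.sum_add_distrib]; refine Finset.sum_congr rfl fun x _ => ?_
        simp only [Pi.add_apply]; ring)
    (by intro r a b; rw [smul_eq_mul, Finset.mul_sum]; refine Finset.sum_congr rfl fun x _ => ?_
        simp only [Pi.smul_apply, smul_eq_mul]; ring)
  have hΦ : ∀ y u, Φ y u = ∑ x, e x * (y x * u x) := fun y u => rfl
  have hinj : Function.Injective Φ := by
    rw [← LinearMap.ker_eq_bot, LinearMap.ker_eq_bot']
    intro z hz
    funext x
    have h1 : Φ z (Pi.single x 1) = 0 := by rw [hz]; rfl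
    rw [hΦ, Finset.sum_eq_single x] at h1
    · rw [Pi.single_eq_same, mul_one] at h1
      exact (mul_eq_zero.1 h1).resolve_left (he x)
    · intro b _ hb
      rw [Pi.single_eq_of_ne hb, mul_zero, mul_zero]
    · intro hx; exact absurd (Finset.mem_univ x) hx
  have hle : W.map Φ ≤ U.dualAnnihilator := by
    rintro _ ⟨w, hw, rfl⟩
    rw [Submodule.mem_dualAnnihilator]
    intro u hu
    rw [hΦ]
    exact hWU w hw u hu
  have h2 := Subspace.finrank_add_finrank_dualAnnihilator_eq U
  have h3 : finrank K (α → K) = Fintype.card α := finrank_fintype_fun_eq_card K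
  have h4 : finrank K (W.map Φ) = finrank K W := (Submodule.equivMapOfInjective Φ hinj W).finrank_eq.symm
  have heq : W.map Φ = U.dualAnnihilator := by
    apply Submodule.eq_of_le_of_finrank_eq hle
    omega
  have hmem : Φ y ∈ U.dualAnnihilator := by
    rw [Submodule.mem_dualAnnihilator]
    intro u hu
    rw [hΦ]
    exact hy u hu
  rw [← heq] at hmem
  obtain ⟨w, hw, hwy⟩ := hmem
  rw [← hinj hwy]
  exact hw

theorem duality (h : HBallB d D B) [CharP K 2] {a : Fin d → V → K} (hg : Gen D a) {c : Finset V → V → K}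
    (hc : Pts d D a c) {i : ℕ} (hi : 1 ≤ i) (hid : i ≤ d) {y : {F // F ∈ Fac d D} → K}
    (hy : ∀ u ∈ UW d D D c (d - i), dg D a c (y * u) = 0) : y ∈ UW d D (D \ B) c (i - 1) := by
  classical
  refine AN14_orth (fun F : {F // F ∈ Fac d D} => eps a c F.1) (fun F => eps_ne h.cx hg hc h.pos F.2)
    (UW d D D c (d - i)) (UW d D (D \ B) c (i - 1)) ?_ ?_ y ?_
  · intro w hw u hu
    have h1 := UW_mul h hc hw hu
    have h2 : i - 1 + (d - i) = d - 1 := by omega
    rw [h2] at h1
    exact dg_zero h hg hc h1
  · have h1 := (finrank_UW h hg hc (i - 1) (by omega)).2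
    have h2 := (finrank_UW h hg hc (d - i) (by omega)).1
    have h3 := sum_hnum d D
    have h4 : Fintype.card {F // F ∈ Fac d D} = (Fac d D).card := Fintype.card_coe _
    rw [h4]
    have h5 : ∑ j ∈ Finset.range (d + 1), hnum d D j = ∑ j ∈ Finset.range (d - i + 1), hnum d D j
        + ∑ j ∈ Finset.range (i - 1 + 1), hnum d D (d - j) := by
      rw [← Finset.sum_range_add_sum_Ico _ (show d - i + 1 ≤ d + 1 by omega)]
      congr 1
      refine Finset.sum_bij' (fun j _ => d - j) (fun j _ => d - j) ?_ ?_ ?_ ?_ ?_
      · intro j hj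
        rw [Finset.mem_Ico] at hj
        rw [Finset.mem_range]; omega
      · intro j hj
        rw [Finset.mem_range] at hj
        rw [Finset.mem_Ico]; omega
      · intro j hj
        rw [Finset.mem_Ico] at hj
        omega
      · intro j hj
        rw [Finset.mem_range] at hj
        omega
      · intro j hj
        rw [Finset.mem_Ico] at hj
        have : d - (d - j) = j := by omega
        rw [this]
    have h6 : ((finrank K (UW d D (D \ B) c (i - 1)) + finrank K (UW d D D c (d - i)) : ℕ) : ℤ)
        = ((Fac d D).card : ℤ) := by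
      push_cast
      rw [h1, h2, ← h3, h5]
      ring
    exact_mod_cast h6
  · intro u hu
    exact hy u hu

end Pool.Agent.LibHB64
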