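import Pool.Agent.LibHB64.AN8
import Pool.Agent.LibHB64.AN14

set_option autoImplicit false

/-!
Row AN15. Anisotropy.
-/

namespace Pool.Agent.LibHB64

open MvPolynomial Module

variable {V : Type*} [Fintype V] [DecidableEq V] {K : Type*} [Field K] {d : ℕ} {D B : Finset (Finset V)}

private theorem AN15_cnt_zero (I : Fin 0 → V) (v : V) : cnt I v = 0 := by
  unfold cnt
  simp

private theorem AN15_cnt_cons {n : ℕ} (v₀ : V) (I : Fin n → V) (v : V) :
    cnt (Fin.cons v₀ I : Fin (n + 1) → V) v = (if v₀ = v then 1 else 0) + cnt I v := by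
  unfold cnt
  rw [Finset.card_filter, Finset.card_filter, Fin.sum_univ_succ]
  simp

theorem split (N : V → ℕ) (hN : d ≤ ∑ v, N v) : ∃ (I : Fin d → V) (J : V → ℕ), (∀ v, J v + cnt I v = N v) ∧
    ∑ v, J v = ∑ v, N v - d := by
  induction d with
  | zero =>
    refine ⟨fun j => j.elim0, N, ?_, by simp⟩
    intro v
    rw [AN15_cnt_zero, add_zero]
  | succ n ih =>
    obtain ⟨I, J, h1, h2⟩ := ih (by omega)
    have h3 : 0 < ∑ v, J v := by omega
    obtain ⟨v₀, hv₀⟩ : ∃ v, J v ≠ 0 := by
      by_contra hcon
      push Not at hcon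
      rw [Finset.sum_eq_zero (fun v _ => hcon v)] at h3
      exact absurd h3 (lt_irrefl 0)
    refine ⟨Fin.cons v₀ I, fun v => J v - if v₀ = v then 1 else 0, ?_, ?_⟩
    · intro v
      rw [AN15_cnt_cons, ← h1 v]
      by_cases hv : v₀ = v
      · subst hv
        simp only [if_true]
        omega
      · simp only [hv, if_false]
        omega
    · have h4 : ∑ v, (J v - if v₀ = v then 1 else 0) + ∑ v, (if v₀ = v then 1 else 0) = ∑ v, J v := by
        rw [← Finset.sum_add_distrib]
        refine Finset.sum_congr rfl fun v _ => ?_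
        by_cases hv : v₀ = v
        · subst hv
          simp only [if_true]
          omega
        · simp only [hv, if_false]
          omega
      have h5 : ∑ v : V, (if v₀ = v then 1 else 0) = 1 := by simp
      rw [h5] at h4
      show ∑ v, (J v - if v₀ = v then 1 else 0) = _
      omega

private theorem AN15_DI_zero {k : Type*} [Field k] [Algebra k K] (E : Fin d → V → Derivation k K K) (I : Fin d → V) :
    DI E I (0 : K) = 0 := by
  unfold DI
  induction List.finRange d with
  | nil => rfl
  | cons j l ih => rw [List.foldr_cons, ih, map_zero]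

private theorem AN15_dg_add (a : Fin d → V → K) (c : Finset V → V → K) (y z u : {F // F ∈ Fac d D} → K) :
    dg D a c (u * (y + z)) = dg D a c (u * y) + dg D a c (u * z) := by
  unfold dg
  rw [← Finset.sum_add_distrib]
  refine Finset.sum_congr rfl fun F _ => ?_
  simp only [Pi.mul_apply, Pi.add_apply]
  ring

private theorem AN15_dg_smul (a : Fin d → V → K) (c : Finset V → V → K) (r : K) (y u : {F // F ∈ Fac d D} → K) :
    dg D a c (u * (r • y)) = r * dg D a c (u * y) := by
  unfold dg
  rw [Finset.mul_sum]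
  refine Finset.sum_congr rfl fun F _ => ?_
  simp only [Pi.mul_apply, Pi.smul_apply, smul_eq_mul]
  ring

private theorem AN15_dg_zero (a : Fin d → V → K) (c : Finset V → V → K) (u : {F // F ∈ Fac d D} → K) :
    dg D a c (u * 0) = 0 := by
  unfold dg
  refine Finset.sum_eq_zero fun F _ => ?_
  simp

theorem aniso (h : HBallB d D B) [CharP K 2] {a : Fin d → V → K} (hg : Gen D a) {c : Finset V → V → K}
    (hc : Pts d D a c) {k : Type*} [Field k] [Algebra k K] {E : Fin d → V → Derivation k K K} (hE : IsE E a)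
    {i : ℕ} (hi : 1 ≤ i) (hid : 2 * i ≤ d) {y : {F // F ∈ Fac d D} → K} (hy : y ∈ UW d D (D \ B) c i)
    (hy2 : y * y ∈ UW d D (D \ B) c (2 * i - 1)) : y ∈ UW d D (D \ B) c (i - 1) := by
  classical
  refine duality h hg hc hi (by omega) ?_
  -- enough for the monomials
  have key : ∀ L : V →₀ ℕ, L.degree = d - i → dg D a c (y * ev d D c (monomial L 1)) = 0 := by
    intro L hL
    obtain ⟨w, hw, rfl⟩ := hy
    have hsum : ∑ v, (2 * L v) = 2 * (d - i) := by
      rw [← Finset.mul_sum, ← hL, Finsupp.degree_eq_sum]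
    obtain ⟨I, J, hJ, hJs⟩ := split (d := d) (fun v => 2 * L v) (by rw [hsum]; omega)
    have hJs' : ∑ v, J v = d - 2 * i := by
      rw [hJs]
      show ∑ v, (2 * L v) - d = d - 2 * i
      rw [hsum]; omega
    have h1 := DI_dg h.cx hg hc h.pos hE w J (fun v => L v) I hJ
    have h2 : dg D a c (fun F => (aeval (c F.1) w) ^ 2 * pw (c F.1) J) = 0 := by
      have h3 := pw_mem h.cx hc (Finsupp.equivFunOnFinite.symm J)
      have h4 : (Finsupp.equivFunOnFinite.symm J).degree = d - 2 * i := by
        rw [Finsupp.degree_eq_sum, ← hJs']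
        rfl
      rw [h4] at h3
      have h5 := UW_mul h hc hy2 h3
      have h6 : 2 * i - 1 + (d - 2 * i) = d - 1 := by omega
      rw [h6] at h5
      have h7 := dg_zero h hg hc h5
      rw [← h7]
      congr 1
      funext F
      simp only [Pi.mul_apply]
      rw [ev_apply, sq]
      rfl
    rw [h2, AN15_DI_zero] at h1
    have h8 := (pow_eq_zero_iff (two_ne_zero)).1 h1.symm
    rw [← h8]
    congr 1
    funext F
    simp only [Pi.mul_apply]
    rw [ev_apply, ev_monomial]
  intro u hu
  obtain ⟨q, hq, rfl⟩ := hu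
  refine Submodule.span_induction (p := fun q _ => dg D a c (y * ev d D c q) = 0) ?_ ?_ ?_ ?_ hq
  · rintro q ⟨L, _, hLd, rfl⟩
    exact key L hLd
  · rw [map_zero]
    exact AN15_dg_zero a c y
  · intro p q _ _ hp hq
    rw [map_add, AN15_dg_add, hp, hq, add_zero]
  · intro r q _ hq
    rw [map_smul, AN15_dg_smul, hq, mul_zero]

end Pool.Agent.LibHB64
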