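import Pool.Agent.LibHB64.AN15

set_option autoImplicit false

/-!
Row AN16 (MEDIUM). Lefschetz property. `U_i = UW d D D c i`, `W_i = UW d D (D \ B) c i`, `ω = (fun F => ∑ v, l v * c F v)`.
* `der_c`: a derivation which kills all `a j v` kills all `c F v`: differentiate `∑ v, a j v * c F v = const`: `E ∘ c F` is supported on `F` and killed by all forms, so zero by `Gen` (`F ∈ D`, `F.card = d`).
* `LE2`: `y ∈ W_i ∩ U_(i-1)`: `y * y ∈ W_(i + (i-1))` (`UW_mul`), `aniso`.
* `LE1`: `El v` kills `c`, so `UW_der` applies to `W_i`. `y' := ω * y ∈ W_i`; `El v (ω * y) = x_v y + ω * El v y` (`x_v F = c F v`), so `y'' := x_v y + ω * El v y ∈ W_i`. With `z = x_v y ∈ W_(i+1)`: `z * z = z * (y'' - ω * El v y) = z * y'' - (x_v * El v y) * y' ∈ W_(2i+1)` (`UW_mul`, `UW_le`, `x_v ∈ U_1` by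
  `pw_mem` with `single v 1`). `aniso` for `i + 1` gives `z ∈ W_i`, for all `v`. Then `duality`: for a monomial `x^L`, `L.degree = d - i ≥ 1`, `x^L = x_v x^L'`, `dg (y * x^L) = dg (z * x^L') = 0` (`UW_mul`: `i + (d - i - 1) = d - 1`, `dg_zero`). So `y ∈ W_(i-1)`.
* `LE3`: `ω^(m-i) y ∈ W_m ∩ U_(m-1)` (`UW_mul` repeatedly, `ω ∈ U_1`), so in `W_(m-1)` by `LE2`; then descend with `LE1`: `ω^k y ∈ W_(i+k-1)` for `k = m - i, ..., 0` (`ω * (ω^(k-1) y) ∈ W_(i+k-1)`, `ω^(k-1) y ∈ W_(i+k-1)`, `2 (i+k) ≤ 2 m ≤ d`).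
-/

namespace Pool.Agent.LibHB64

open MvPolynomial Module

variable {V : Type*} [Fintype V] [DecidableEq V] {K : Type*} [Field K] {d : ℕ} {D B : Finset (Finset V)}

private theorem AN16_dg_add (D : Finset (Finset V)) (a : Fin d → V → K) (c : Finset V → V → K)
    (y z : {F // F ∈ Fac d D} → K) : dg D a c (y + z) = dg D a c y + dg D a c z := by
  simp only [dg, Pi.add_apply, mul_add, Finset.sum_add_distrib]

private theorem AN16_dg_smul (D : Finset (Finset V)) (a : Fin d → V → K) (c : Finset V → V → K) (r : K)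
    (y : {F // F ∈ Fac d D} → K) : dg D a c (r • y) = r * dg D a c y := by
  simp only [dg, Pi.smul_apply, smul_eq_mul, Finset.mul_sum]
  exact Finset.sum_congr rfl fun F _ => by ring

private theorem AN16_dg_zero (D : Finset (Finset V)) (a : Fin d → V → K) (c : Finset V → V → K) :
    dg D a c (0 : {F // F ∈ Fac d D} → K) = 0 := by
  simp [dg]

private theorem AN16_x (hD : IsCx D) {a : Fin d → V → K} {c : Finset V → V → K} (hc : Pts d D a c) (v : V) :
    (fun F : {F // F ∈ Fac d D} => c F.1 v) ∈ UW d D D c 1 := by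
  have h := pw_mem hD hc (Finsupp.single v 1)
  rw [Finsupp.degree_single] at h
  have h2 : (fun F : {F // F ∈ Fac d D} => pw (c F.1) (Finsupp.single v 1)) = fun F => c F.1 v := by
    funext F
    rw [pw, Finset.prod_eq_single v]
    · rw [Finsupp.single_eq_same, pow_one]
    · intro w _ hw
      rw [Finsupp.single_eq_of_ne hw, pow_zero]
    · intro hv
      exact absurd (Finset.mem_univ v) hv
  rwa [h2] at h

theorem der_c {a : Fin d → V → K} {c : Finset V → V → K} (hg : Gen D a) (hc : Pts d D a c) {k : Type*} [Field k]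
    [Algebra k K] (E : Derivation k K K) (hE : ∀ j v, E (a j v) = 0) : ∀ F ∈ Fac d D, ∀ v, E (c F v) = 0 := by
  intro F hF
  have hFD : F ∈ D ∧ F.card = d := by
    rw [Fac, Finset.mem_filter] at hF
    exact hF
  have h := hg F hFD.1 (fun v => E (c F v)) (fun v hv => by
    show E (c F v) = 0
    rw [hc.supp F hF v hv, map_zero]) ?_
  · intro v
    exact congrFun h v
  · intro j _
    have h1 := congrArg E (hc.eq F hF j)
    rw [map_sum] at h1
    have h2 : E (if (j : ℕ) + 1 = d then (1 : K) else 0) = 0 := by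
      split_ifs
      · exact E.map_one_eq_zero
      · exact map_zero E
    rw [h2] at h1
    rw [← h1]
    refine Finset.sum_congr rfl fun v _ => ?_
    rw [Derivation.leibniz, hE, smul_zero, add_zero, smul_eq_mul]

theorem LE2 (h : HBallB d D B) [CharP K 2] {a : Fin d → V → K} (hg : Gen D a) {c : Finset V → V → K}
    (hc : Pts d D a c) {k : Type*} [Field k] [Algebra k K] {E : Fin d → V → Derivation k K K} (hE : IsE E a)
    {i : ℕ} (hi : 1 ≤ i) (hid : 2 * i ≤ d) {y : {F // F ∈ Fac d D} → K} (hy : y ∈ UW d D (D \ B) c i)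
    (hy2 : y ∈ UW d D D c (i - 1)) : y ∈ UW d D (D \ B) c (i - 1) := by
  have h1 : y * y ∈ UW d D (D \ B) c (i + (i - 1)) := UW_mul h hc hy hy2
  have h2 : i + (i - 1) = 2 * i - 1 := by omega
  rw [h2] at h1
  exact aniso h hg hc hE hi hid hy h1

theorem LE1 (h : HBallB d D B) [CharP K 2] {a : Fin d → V → K} (hg : Gen D a) {c : Finset V → V → K}
    (hc : Pts d D a c) {k : Type*} [Field k] [Algebra k K] {E : Fin d → V → Derivation k K K} (hE : IsE E a)
    {l : V → K} {El : V → Derivation k K K} (hl : IsL El a l) {i : ℕ} (hi : 1 ≤ i) (hid : 2 * (i + 1) ≤ d)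
    {y : {F // F ∈ Fac d D} → K} (hy : y ∈ UW d D (D \ B) c i)
    (hy2 : (fun F => (∑ v, l v * c F.1 v) * y F) ∈ UW d D (D \ B) c i) : y ∈ UW d D (D \ B) c (i - 1) := by
  have hz : ∀ v, (fun F => y F * c F.1 v) ∈ UW d D (D \ B) c i := by
    intro v
    have hEl : ∀ F ∈ Fac d D, ∀ w, El v (c F w) = 0 := der_c hg hc (El v) (fun j w => hl.2 v j w)
    have hx := AN16_x h.cx hc v
    have h1 := UW_der (El v) hEl (D \ B) hy2
    have h2 := UW_der (El v) hEl (D \ B) hy
    have hz1 : y * (fun F => c F.1 v) ∈ UW d D (D \ B) c (i + 1) := UW_mul h hc hy hx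
    have hE1 : (fun F => El v (y F)) * (fun F => c F.1 v) ∈ UW d D (D \ B) c (i + 1) := UW_mul h hc h2 hx
    have h3 : ∀ F : {F // F ∈ Fac d D}, El v ((∑ w, l w * c F.1 w) * y F) =
        (∑ w, l w * c F.1 w) * El v (y F) + y F * c F.1 v := by
      intro F
      have h4 : El v (∑ w, l w * c F.1 w) = c F.1 v := by
        rw [map_sum, Finset.sum_eq_single v]
        · rw [Derivation.leibniz, hEl F.1 F.2, smul_zero, zero_add, hl.1, if_pos rfl, smul_eq_mul, mul_one]
        · intro w _ hw
          rw [Derivation.leibniz, hEl F.1 F.2, smul_zero, zero_add, hl.1, if_neg (Ne.symm hw), smul_zero]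
        · intro hv
          exact absurd (Finset.mem_univ v) hv
      rw [Derivation.leibniz, h4, smul_eq_mul, smul_eq_mul]
    have hA : (y * (fun F => c F.1 v)) * (fun F => El v ((∑ w, l w * c F.1 w) * y F)) ∈
        UW d D (D \ B) c (i + 1 + i) := UW_mul h hc hz1 (UW_le c i h1)
    have hB : ((fun F => El v (y F)) * (fun F => c F.1 v)) * (fun F => (∑ w, l w * c F.1 w) * y F) ∈
        UW d D (D \ B) c (i + 1 + i) := UW_mul h hc hE1 (UW_le c i hy2)
    have hC : (y * (fun F => c F.1 v)) * (y * (fun F => c F.1 v)) =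
        (y * (fun F => c F.1 v)) * (fun F => El v ((∑ w, l w * c F.1 w) * y F)) -
          ((fun F => El v (y F)) * (fun F => c F.1 v)) * (fun F => (∑ w, l w * c F.1 w) * y F) := by
      funext F
      simp only [Pi.mul_apply, Pi.sub_apply, h3]
      ring
    have hsq : (y * (fun F => c F.1 v)) * (y * (fun F => c F.1 v)) ∈ UW d D (D \ B) c (2 * (i + 1) - 1) := by
      rw [hC]
      have h5 : 2 * (i + 1) - 1 = i + 1 + i := by omega
      rw [h5]
      exact Submodule.sub_mem _ hA hB
    exact aniso h hg hc hE (i := i + 1) (by omega) hid hz1 hsq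
  refine duality h hg hc hi (by omega) ?_
  rintro u ⟨q, hq, rfl⟩
  have hq' : q ∈ Submodule.span K {p | ∃ a : V →₀ ℕ, a.support ∈ D ∧ a.degree = d - i ∧ p = monomial a (1 : K)} := hq
  induction hq' using Submodule.span_induction with
  | mem p hp =>
    obtain ⟨m, hm, hmd, rfl⟩ := hp
    have hne : m ≠ 0 := by
      rintro rfl
      rw [map_zero] at hmd
      omega
    obtain ⟨v, hv⟩ : ∃ v, m v ≠ 0 := by
      by_contra hcon
      push Not at hcon
      exact hne (Finsupp.ext hcon)
    obtain ⟨m', rfl⟩ : ∃ m', m = Finsupp.single v 1 + m' := by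
      refine ⟨m - Finsupp.single v 1, ?_⟩
      rw [add_tsub_cancel_of_le]
      rw [Finsupp.single_le_iff]
      omega
    rw [map_add, Finsupp.degree_single] at hmd
    have h6 : y * ev d D c (monomial (Finsupp.single v 1 + m') (1 : K)) =
        (fun F => y F * c F.1 v) * fun F => pw (c F.1) m' := by
      funext F
      rw [Pi.mul_apply, Pi.mul_apply, ev_apply, ← one_mul (1 : K), ← monomial_mul, map_mul, mul_assoc]
      congr 1
      congr 1
      · rw [← X, aeval_X]
      · rw [← ev_apply c (monomial m' (1 : K)) F, ev_monomial]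
    have h7 := UW_mul h hc (hz v) (pw_mem h.cx hc m')
    rw [h6]
    refine dg_zero h hg hc ?_
    have h8 : d - 1 = i + m'.degree := by omega
    rw [h8]
    exact h7
  | zero => rw [map_zero, mul_zero, AN16_dg_zero]
  | add p r hp hr h1 h2 => rw [map_add, mul_add, AN16_dg_add, h1 hp, h2 hr, add_zero]
  | smul r p hp h1 => rw [map_smul, mul_smul_comm, AN16_dg_smul, h1 hp, mul_zero]

theorem LE3 (h : HBallB d D B) [CharP K 2] {a : Fin d → V → K} (hg : Gen D a) {c : Finset V → V → K}
    (hc : Pts d D a c) {k : Type*} [Field k] [Algebra k K] {E : Fin d → V → Derivation k K K} (hE : IsE E a)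
    {l : V → K} {El : V → Derivation k K K} (hl : IsL El a l) {i m : ℕ} (hi : 1 ≤ i) (him : i ≤ m) (hm : 2 * m ≤ d)
    {y : {F // F ∈ Fac d D} → K} (hy : y ∈ UW d D (D \ B) c i)
    (hy2 : (fun F => (∑ v, l v * c F.1 v) ^ (m - i) * y F) ∈ UW d D D c (m - 1)) : y ∈ UW d D (D \ B) c (i - 1) := by
  have hω : (fun F : {F // F ∈ Fac d D} => ∑ v, l v * c F.1 v) ∈ UW d D D c 1 := by
    have h1 : (fun F : {F // F ∈ Fac d D} => ∑ v, l v * c F.1 v) =
        ∑ v, l v • (fun F : {F // F ∈ Fac d D} => c F.1 v) := by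
      funext F
      rw [Finset.sum_apply]
      rfl
    rw [h1]
    exact Submodule.sum_mem _ fun v _ => Submodule.smul_mem _ _ (AN16_x h.cx hc v)
  have hW : ∀ k, (fun F : {F // F ∈ Fac d D} => (∑ v, l v * c F.1 v) ^ k * y F) ∈ UW d D (D \ B) c (i + k) := by
    intro k
    induction k with
    | zero =>
      have h1 : (fun F : {F // F ∈ Fac d D} => (∑ v, l v * c F.1 v) ^ 0 * y F) = y := by
        funext F
        rw [pow_zero, one_mul]
      rw [h1]
      exact hy
    | succ k ih =>
      have h1 := UW_mul h hc ih hω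
      have h2 : (fun F : {F // F ∈ Fac d D} => (∑ v, l v * c F.1 v) ^ (k + 1) * y F) =
          (fun F : {F // F ∈ Fac d D} => (∑ v, l v * c F.1 v) ^ k * y F) * fun F => ∑ v, l v * c F.1 v := by
        funext F
        rw [Pi.mul_apply]
        ring
      rw [h2]
      exact h1
  have key : ∀ n, n ≤ m - i → (fun F : {F // F ∈ Fac d D} => (∑ v, l v * c F.1 v) ^ (m - i - n) * y F) ∈
      UW d D (D \ B) c (i + (m - i - n) - 1) := by
    intro n
    induction n with
    | zero =>
      intro _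
      have h1 := hW (m - i)
      have h2 : i + (m - i) = m := by omega
      rw [h2] at h1
      rw [Nat.sub_zero, h2]
      exact LE2 h hg hc hE (by omega) hm h1 hy2
    | succ n ih =>
      intro hn
      have h1 := ih (by omega)
      obtain ⟨k, hk⟩ : ∃ k, m - i - (n + 1) = k := ⟨_, rfl⟩
      have hk1 : m - i - n = k + 1 := by omega
      rw [hk1] at h1
      rw [hk]
      have h2 : i + (k + 1) - 1 = i + k := by omega
      rw [h2] at h1
      refine LE1 h hg hc hE hl (i := i + k) (by omega) (by omega) (hW k) ?_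
      have h3 : (fun F : {F // F ∈ Fac d D} => (∑ v, l v * c F.1 v) * ((∑ v, l v * c F.1 v) ^ k * y F)) =
          fun F => (∑ v, l v * c F.1 v) ^ (k + 1) * y F := by
        funext F
        ring
      rw [h3]
      exact h1
  have h1 := key (m - i) le_rfl
  rw [Nat.sub_self, add_zero] at h1
  have h2 : (fun F : {F // F ∈ Fac d D} => (∑ v, l v * c F.1 v) ^ 0 * y F) = y := by
    funext F
    rw [pow_zero, one_mul]
  rwa [h2] at h1

end Pool.Agent.LibHB64
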