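import Pool.Agent.LibHB64.AN16

set_option autoImplicit false

/-!
Row AN17: assembly of `AN_main`.
-/

namespace Pool.Agent.LibHB64

open MvPolynomial Module

variable {V : Type*} [Fintype V] [DecidableEq V] {K : Type*} [Field K] {d : ℕ} {D B : Finset (Finset V)}

private theorem AN17_om (c l : V → K) (k : ℕ) : aeval c (om l ^ k : MvPolynomial V K) = (∑ v, l v * c v) ^ k := by
  rw [map_pow, om, map_sum]
  congr 1
  refine Finset.sum_congr rfl fun v _ => ?_
  rw [map_mul, aeval_C, aeval_X]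
  rfl

private theorem AN17_mon_zero (h : HBallB d D B) : mon K (D \ B) 0 = ⊥ := by
  rw [mon, Submodule.span_eq_bot]
  rintro p ⟨a, ha, hd, rfl⟩
  have h0 : a = 0 := by
    rwa [Finsupp.degree_eq_zero_iff] at hd
  subst h0
  rw [Finsupp.support_zero, Finset.mem_sdiff] at ha
  exact absurd h.sph.1.1 ha.2

theorem AN_main_pf (h : HBallB d D B) (i : ℕ) (hi : i ≤ d / 2) (w : MvPolynomial V (KK (ZMod 2) d V))
    (hw : w ∈ mon (KK (ZMod 2) d V) (D \ B) i)
    (h0 : mulD D (om (gl (ZMod 2) d V) ^ (d / 2 - i)) w ∈ Th D D (ga (ZMod 2) d V) (d / 2)) :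
    w ∈ Th D (D \ B) (ga (ZMod 2) d V) i := by
  classical
  haveI : CharP (KK (ZMod 2) d V) 2 := by
    haveI : CharP (MvPolynomial ((Fin d × V) ⊕ V) (ZMod 2)) 2 := inferInstance
    exact charP_of_injective_algebraMap (IsFractionRing.injective (MvPolynomial ((Fin d × V) ⊕ V) (ZMod 2)) _) 2
  obtain ⟨hg, c, hc⟩ := gen_exists (d := d) (ZMod 2) h.cx (pure h)
  rcases i with _ | i
  · rw [AN17_mon_zero h] at hw
    exact hw
  obtain ⟨E0, hE0⟩ := der_exists (ZMod 2) ((Fin d × V) ⊕ V)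
  have hE : IsE (fun j i => E0 (Sum.inl (j, i))) (ga (ZMod 2) d V) := by
    intro j i l w
    simp only [ga, hE0, Sum.inl.injEq, Prod.mk.injEq]
  have hl : IsL (fun v => E0 (Sum.inr v)) (ga (ZMod 2) d V) (gl (ZMod 2) d V) := by
    refine ⟨fun v w => ?_, fun v j w => ?_⟩
    · simp only [gl, hE0, Sum.inr.injEq]
    · simp only [ga, hE0, reduceCtorEq, if_false]
  have hy : ev d D c w ∈ UW d D (D \ B) c (i + 1) := Submodule.mem_map_of_mem hw
  have hm : 1 ≤ d / 2 := le_trans (by omega) hi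
  obtain ⟨m, hm'⟩ : ∃ m, d / 2 = m + 1 := ⟨d / 2 - 1, by omega⟩
  have h1 : ev d D c (mulD D (om (gl (ZMod 2) d V) ^ (d / 2 - (i + 1))) w) ∈ UW d D D c (d / 2 - 1) := by
    have h2 := h0
    rw [hm'] at h2 ⊢
    exact ev_Th h hc D m h2
  have h3 : (fun F : {F // F ∈ Fac d D} => (∑ v, gl (ZMod 2) d V v * c F.1 v) ^ (d / 2 - (i + 1)) * ev d D c w F) ∈
      UW d D D c (d / 2 - 1) := by
    have h4 : ev d D c (mulD D (om (gl (ZMod 2) d V) ^ (d / 2 - (i + 1))) w) =
        fun F : {F // F ∈ Fac d D} => (∑ v, gl (ZMod 2) d V v * c F.1 v) ^ (d / 2 - (i + 1)) * ev d D c w F := by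
      funext F
      rw [ev_mulD h.cx hc, AN17_om]
    rwa [h4] at h1
  have h5 := LE3 h hg hc hE hl (i := i + 1) (m := d / 2) (by omega) hi (by omega) hy h3
  exact (CM_pts h hg hc (D \ B) (Or.inr rfl)).1 i w hw h5

end Pool.Agent.LibHB64
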