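import Pool.Agent.LibHB64.AN0
import Pool.Agent.LibHB64.Iface

set_option autoImplicit false

/-!
Row AN4 (MEDIUM, ONLY AN0 + `dc_exists` of Iface.lean). The key identity. For every `j, i` let `E'` be the derivation of `MvPolynomial (Fin d) K` which acts by `E j i` on the coefficients (`dc_exists (V := Fin d)`).
`E' (gX b p v) = C (b v j) * gX b p i` and `pderiv j (gX b p v) = C (b v j)`, so `E' (gX b p v) = gX b p i * pderiv j (gX b p v)` and the same for every product `G` of `gX`'s (both `E'` and `gX b p i • pderiv j` are derivations),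
hence `E' (C Δ * G) = C Δ * pderiv j (gX b p i * G)`. Comparing the coefficients at an exponent `m` with `m j = 0`: `E j i (Δ * coeff m G) = Δ * coeff (m + single j 1) (gX b p i * G)` (coefficient of `pderiv j Q` at `m` is
`(m j + 1) * coeff (m + single j 1) Q`). Induction over the tail of `List.finRange d` (a list `l` without repetition): the fold over `l` applied to `Δ * pw (fun v => b v p) M` is
`Δ * coeff (∑ j in l, single j 1) ((∏ j in l, gX b p (I j)) * ∏ v, gX b p v ^ M v)`; start: `coeff 0` is the product of the constants `b v p`.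
-/

namespace Pool.Agent.LibHB64

open MvPolynomial Module

variable {V : Type*} [Fintype V] [DecidableEq V] {K : Type*} [Field K] {d : ℕ} {D B : Finset (Finset V)}

/-- the products of the polynomials `gX` -/
private noncomputable def AN4_S (b : V → Fin d → K) (p : Fin d) : Submonoid (MvPolynomial (Fin d) K) :=
  Submonoid.closure (Set.range fun v => gX b p v)

omit [Fintype V] [DecidableEq V] in
private theorem AN4_pderiv (b : V → Fin d → K) (p j : Fin d) (v : V) : pderiv j (gX b p v) = C (b v j) := by
  unfold gX
  rw [map_add, pderiv_C, zero_add, map_sum, Finset.sum_eq_single j]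
  · rw [pderiv_C_mul, pderiv_X_self, mul_one]
  · intro k _ hk
    rw [pderiv_C_mul, pderiv_X_of_ne hk, mul_zero]
  · intro h
    exact absurd (Finset.mem_univ _) h

omit [Fintype V] [DecidableEq V] in
private theorem AN4_step {k : Type*} [Field k] [Algebra k K] (E : Fin d → V → Derivation k K K) (b : V → Fin d → K) (p : Fin d)
    (Δ : K) (hb : ∀ j i v l, E j i (b v l) = b v j * b i l) (hΔ : ∀ j i, E j i Δ = Δ * b i j) (j : Fin d) (i : V)
    {G : MvPolynomial (Fin d) K} (hG : G ∈ AN4_S b p) (m : Fin d →₀ ℕ) (hm : m j = 0) :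
    E j i (Δ * coeff m G) = Δ * coeff (m + Finsupp.single j 1) (gX b p i * G) := by
  obtain ⟨E', hE'⟩ := dc_exists (V := Fin d) (E j i)
  have hC : ∀ c : K, E' (C c) = C (E j i c) := by
    intro c
    ext n
    rw [hE', coeff_C, coeff_C]
    split_ifs
    · rfl
    · exact map_zero _
  have hX : ∀ l : Fin d, E' (X l : MvPolynomial (Fin d) K) = 0 := by
    intro l
    ext n
    rw [hE', coeff_X, coeff_zero]
    split_ifs
    · exact (E j i).map_one_eq_zero
    · exact map_zero _
  have hg : ∀ v, E' (gX b p v) = gX b p i * pderiv j (gX b p v) := by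
    intro v
    rw [AN4_pderiv]
    unfold gX
    rw [map_add, map_sum, hC, hb]
    simp only [Derivation.leibniz, hX, hC, hb, smul_eq_mul]
    rw [add_mul, Finset.sum_mul, C_mul]
    congr 1
    · ring
    · refine Finset.sum_congr rfl fun l _ => ?_
      rw [C_mul]
      ring
  have hG' : E' G = gX b p i * pderiv j G := by
    induction hG using Submonoid.closure_induction with
    | mem x hx =>
      obtain ⟨v, rfl⟩ := hx
      exact hg v
    | one => rw [E'.map_one_eq_zero, pderiv_one, mul_zero]
    | mul x y _ _ hx hy =>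
      rw [Derivation.leibniz, hx, hy, pderiv_mul, smul_eq_mul, smul_eq_mul]
      ring
  have h1 : E' (C Δ * G) = C Δ * pderiv j (gX b p i * G) := by
    rw [Derivation.leibniz, hG', hC, hΔ, pderiv_mul, AN4_pderiv, smul_eq_mul, smul_eq_mul, C_mul]
    ring
  have h2 := congrArg (coeff m) h1
  rw [hE', coeff_C_mul, coeff_C_mul, coeff_pderiv, hm] at h2
  rw [h2]
  push_cast
  ring

omit [Fintype V] [DecidableEq V] in
private theorem AN4_list {k : Type*} [Field k] [Algebra k K] (E : Fin d → V → Derivation k K K) (b : V → Fin d → K) (p : Fin d)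
    (Δ : K) (hb : ∀ j i v l, E j i (b v l) = b v j * b i l) (hΔ : ∀ j i, E j i Δ = Δ * b i j) (I : Fin d → V)
    {G : MvPolynomial (Fin d) K} (hG : G ∈ AN4_S b p) (l : List (Fin d)) (hl : l.Nodup) :
    l.foldr (fun j z => E j (I j) z) (Δ * coeff 0 G) =
      Δ * coeff ((l.map fun j => Finsupp.single j 1).sum) ((l.map fun j => gX b p (I j)).prod * G) := by
  induction l with
  | nil => simp
  | cons j l ih =>
    rw [List.nodup_cons] at hl
    rw [List.foldr_cons, ih hl.2, List.map_cons, List.map_cons, List.sum_cons, List.prod_cons]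
    rw [AN4_step E b p Δ hb hΔ j (I j)]
    · rw [add_comm, mul_assoc]
    · refine Submonoid.mul_mem _ (Submonoid.list_prod_mem _ ?_) hG
      intro x hx
      rw [List.mem_map] at hx
      obtain ⟨q, _, rfl⟩ := hx
      exact Submonoid.subset_closure ⟨I q, rfl⟩
    · have h1 : ∀ l' : List (Fin d), j ∉ l' → (l'.map fun j => (Finsupp.single j 1 : Fin d →₀ ℕ)).sum j = 0 := by
        intro l'
        induction l' with
        | nil => simp
        | cons a l' ih' =>
          intro h
          rw [List.mem_cons, not_or] at h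
          rw [List.map_cons, List.sum_cons, Finsupp.add_apply, ih' h.2, Finsupp.single_apply,
            if_neg (Ne.symm h.1)]
      exact h1 l hl.1

theorem DI_coeff {k : Type*} [Field k] [Algebra k K] (E : Fin d → V → Derivation k K K) (b : V → Fin d → K) (p : Fin d) (Δ : K)
    (hb : ∀ j i v l, E j i (b v l) = b v j * b i l) (hΔ : ∀ j i, E j i Δ = Δ * b i j) (M : V → ℕ) (I : Fin d → V) :
    DI E I (Δ * pw (fun v => b v p) M) =
      Δ * coeff (∑ j, Finsupp.single j 1) ((∏ j, gX b p (I j)) * ∏ v, gX b p v ^ M v) := by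
  have hG : (∏ v, gX b p v ^ M v) ∈ AN4_S b p := by
    refine Submonoid.prod_mem _ fun v _ => Submonoid.pow_mem (AN4_S b p) ?_ _
    exact Submonoid.subset_closure ⟨v, rfl⟩
  have h0 : pw (fun v => b v p) M = coeff 0 (∏ v, gX b p v ^ M v) := by
    have h1 : ∀ v, constantCoeff (gX b p v) = b v p := by
      intro v
      unfold gX
      simp
    rw [← constantCoeff_eq, map_prod]
    simp only [map_pow, h1]
    rfl
  unfold DI
  rw [h0, AN4_list E b p Δ hb hΔ I hG _ (List.nodup_finRange d), Fin.sum_univ_def, Fin.prod_univ_def]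

end Pool.Agent.LibHB64
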