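import Pool.Agent.LibHB64.AN0

set_option autoImplicit false

/-!
Row AN5 (SHORT/MEDIUM, ONLY AN0). Coefficients at `u_1 ... u_d`.
* `coeff_sq`: the coefficient of `P` at `∑ j, single j 1` is the constant coefficient of `pderiv 0 (pderiv 1 (... P))` (or induction on a list of indices as follows: for a list `l` without repetition, `coeff (∑ j in l, single j 1) P` is
  `coeff 0` of the fold of the `pderiv j`), and `pderiv j (Q ^ 2 * P) = Q ^ 2 * pderiv j P` in characteristic two. Or directly: `Q ^ 2 = ∑ q_a ^ 2 u ^ (2 a)`, `coeff_mul`.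
* `coeff_few`: `totalDegree ≤ O.card < d` (`totalDegree_finset_prod`, `gX` has total degree `≤ 1`), `coeff_eq_zero_of_totalDegree_lt`.
-/

namespace Pool.Agent.LibHB64

open MvPolynomial Module

variable {V : Type*} [Fintype V] [DecidableEq V] {K : Type*} [Field K] {d : ℕ} {D B : Finset (Finset V)}

private theorem AN5_odd [CharP K 2] (Q : MvPolynomial (Fin d) K) (a : Fin d →₀ ℕ) (j : Fin d) (h : a j = 1) :
    coeff a (Q ^ 2) = 0 := by
  haveI : CharP (MvPolynomial (Fin d) K) 2 := inferInstance
  induction Q using MvPolynomial.induction_on' with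
  | monomial u c =>
    rw [monomial_pow, coeff_monomial, if_neg]
    intro h2
    have h3 := congrArg (fun e : Fin d →₀ ℕ => e j) h2
    simp only [Finsupp.smul_apply, smul_eq_mul] at h3
    omega
  | add p q hp hq => rw [CharTwo.add_sq, coeff_add, hp, hq, add_zero]

private theorem AN5_apply (i : Fin d) : (∑ j : Fin d, Finsupp.single j 1 : Fin d →₀ ℕ) i = 1 := by
  rw [Finsupp.finset_sum_apply, Finset.sum_eq_single i]
  · simp
  · intro b _ hb
    exact Finsupp.single_eq_of_ne (by simpa using hb.symm)
  · intro h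
    exact absurd (Finset.mem_univ i) h

theorem coeff_sq [CharP K 2] (Q P : MvPolynomial (Fin d) K) :
    coeff (∑ j, Finsupp.single j 1) (Q ^ 2 * P) = (coeff 0 Q) ^ 2 * coeff (∑ j, Finsupp.single j 1) P := by
  classical
  rw [coeff_mul, Finset.sum_eq_single ((0 : Fin d →₀ ℕ), (∑ j : Fin d, Finsupp.single j 1 : Fin d →₀ ℕ))]
  · have h := map_pow (constantCoeff : MvPolynomial (Fin d) K →+* K) Q 2
    simp only [constantCoeff_eq] at h
    simp only [h]
  · rintro ⟨a, b⟩ hab hne
    rw [Finset.HasAntidiagonal.mem_antidiagonal] at hab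
    simp only at hab ⊢
    have ha : ∃ j, a j ≠ 0 := by
      by_contra hcon
      push Not at hcon
      have h0 : a = 0 := Finsupp.ext hcon
      subst h0
      rw [zero_add] at hab
      subst hab
      exact hne rfl
    obtain ⟨j, hj⟩ := ha
    have h1 : a j + b j = 1 := by
      have h2 := congrArg (fun e : Fin d →₀ ℕ => e j) hab
      simp only [Finsupp.add_apply] at h2
      rw [h2, AN5_apply]
    rw [AN5_odd Q a j (by omega), zero_mul]
  · intro h
    exact absurd (Finset.HasAntidiagonal.mem_antidiagonal.2 (zero_add _)) h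

private theorem AN5_gX (b : V → Fin d → K) (p : Fin d) (v : V) : (gX b p v).totalDegree ≤ 1 := by
  unfold gX
  refine (totalDegree_add _ _).trans (max_le ?_ ?_)
  · simp
  · refine (totalDegree_finset_sum _ _).trans (Finset.sup_le fun k _ => ?_)
    refine (totalDegree_mul _ _).trans ?_
    rw [totalDegree_C, zero_add]
    exact (totalDegree_X k).le

theorem coeff_few (b : V → Fin d → K) (p : Fin d) (O : Finset V) (hO : O.card < d) :
    coeff (∑ j, Finsupp.single j 1) (∏ v ∈ O, gX b p v) = 0 := by
  classical
  apply coeff_eq_zero_of_totalDegree_lt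
  have h1 : (∏ v ∈ O, gX b p v).totalDegree ≤ O.card := by
    refine (totalDegree_finset_prod _ _).trans ?_
    refine (Finset.sum_le_sum fun v _ => AN5_gX b p v).trans ?_
    simp
  have h2 : ∑ i ∈ (∑ j : Fin d, Finsupp.single j 1 : Fin d →₀ ℕ).support,
      (∑ j : Fin d, Finsupp.single j 1 : Fin d →₀ ℕ) i = d := by
    have h3 : (∑ j : Fin d, Finsupp.single j 1 : Fin d →₀ ℕ).support = Finset.univ := by
      ext i
      rw [Finsupp.mem_support_iff, AN5_apply]
      simp
    rw [h3]
    simp only [AN5_apply]
    simp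
  omega

end Pool.Agent.LibHB64
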