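import Pool.Agent.LibHB64.AN4
import Pool.Agent.LibHB64.AN5
import Pool.Agent.LibHB64.AN6

set_option autoImplicit false

/-!
Row AN7 (MEDIUM). The identity of Papadakis - Petrotou / Karu - Xiao on one facet. `b` from `facet_matrix`, `Δ = (dA a F)⁻¹`, `P = ∏ v ∈ F, c F v ≠ 0` (`c_ne`), `1_F v = if v ∈ F then 1 else 0`.
`eps a c F * pw (c F) M = P⁻¹ ^ 2 * (Δ * pw (c F) (M + 1_F))`; derivations kill squares in characteristic two, so `DI` of it is `P⁻¹ ^ 2 * Δ * coeff (1..1) (X^N)`, `N = cnt I + M + 1_F`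
(`DI_coeff`; `∏ j, gX b p (I j) = ∏ v, gX b p v ^ cnt I v`: `Finset.prod_comp` or `Finset.prod_fiberwise`).
* All `M v + cnt I v` even, `S v` the halves: `X^N = (∏ v, gX b p v ^ S v) ^ 2 * ∏ v ∈ F, gX b p v`, `coeff_sq`, `facet_matrix`: the coefficient is `pw (c F) S ^ 2 * Δ`. So the result is `(P⁻¹ * Δ * pw (c F) S) ^ 2`.
* Otherwise let `O = {v | N v odd}`, `X^N = (∏ v, gX b p v ^ (N v / 2)) ^ 2 * ∏ v ∈ O, gX b p v`. There is `v` with `M v + cnt I v` odd. If `v ∉ F`: `v ∈ O` and `gX b p v = 0`. If `v ∈ F`: `v ∉ O`; if `O ⊆ F` then `O.card < F.card = d` (`coeff_few`),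
  otherwise a factor is zero.
-/

namespace Pool.Agent.LibHB64

open MvPolynomial Module

variable {V : Type*} [Fintype V] [DecidableEq V] {K : Type*} [Field K] {d : ℕ} {D B : Finset (Finset V)}

omit [Fintype V] [DecidableEq V] in
private theorem AN7_DI_sq [CharP K 2] {k : Type*} [Field k] [Algebra k K] (E : Fin d → V → Derivation k K K) (I : Fin d → V)
    (q y : K) : DI E I (q ^ 2 * y) = q ^ 2 * DI E I y := by
  unfold DI
  induction List.finRange d with
  | nil => rfl
  | cons j l ih =>
    rw [List.foldr_cons, List.foldr_cons, ih, Derivation.leibniz, Derivation.leibniz_pow]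
    have h2 : (2 : K) = 0 := CharTwo.two_eq_zero
    simp only [smul_eq_mul, nsmul_eq_mul]
    push_cast
    rw [h2]
    ring

private theorem AN7_prod_cnt (b : V → Fin d → K) (p : Fin d) (I : Fin d → V) :
    ∏ j, gX b p (I j) = ∏ v, gX b p v ^ cnt I v := by
  rw [← Finset.prod_fiberwise' (s := Finset.univ) (g := I) (f := fun v => gX b p v)]
  refine Finset.prod_congr rfl fun v _ => ?_
  rw [Finset.prod_const]
  rfl

omit [Fintype V] [DecidableEq V] in
private theorem AN7_gX_zero (b : V → Fin d → K) (p : Fin d) {v : V} (h : ∀ l, b v l = 0) : gX b p v = 0 := by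
  unfold gX
  simp [h]

omit [DecidableEq V] in
private theorem AN7_coeff_gX (b : V → Fin d → K) (p : Fin d) (S : V → ℕ) :
    coeff 0 (∏ v, gX b p v ^ S v) = pw (fun v => b v p) S := by
  rw [← constantCoeff_eq, map_prod]
  unfold pw gX
  refine Finset.prod_congr rfl fun v _ => ?_
  rw [map_pow]
  congr 1
  simp

theorem DI_facet [CharP K 2] (hD : IsCx D) {a : Fin d → V → K} {c : Finset V → V → K} (hg : Gen D a) (hc : Pts d D a c)
    (hd : 1 ≤ d) {k : Type*} [Field k] [Algebra k K] {E : Fin d → V → Derivation k K K} (hE : IsE E a) {F : Finset V}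
    (hF : F ∈ Fac d D) (M : V → ℕ) (I : Fin d → V) :
    DI E I (eps a c F * pw (c F) M) =
      if ∀ v, Even (M v + cnt I v) then (eps a c F * pw (c F) fun v => (M v + cnt I v) / 2) ^ 2 else 0 := by
  have hcard : F.card = d := (Finset.mem_filter.mp hF).2
  have hpd : d - 1 < d := by omega
  set p : Fin d := ⟨d - 1, hpd⟩ with hpdef
  have hp : (p : ℕ) + 1 = d := by
    simp only [hpdef]
    omega
  obtain ⟨b, hb0, hbp, hbE, hbΔ, hbc⟩ := facet_matrix hg hc hE hp hF
  have hPne : (∏ v ∈ F, c F v) ≠ 0 := Finset.prod_ne_zero_iff.mpr fun v hv => c_ne hD hg hc hd hF hv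
  have hΔne : dA a F ≠ 0 := dA_ne hg hF
  set P : K := ∏ v ∈ F, c F v with hP
  set Δ : K := (dA a F)⁻¹ with hΔ
  have heps : eps a c F = P⁻¹ * Δ := by
    rw [eps, mul_inv, mul_comm]
  have hcb : c F = fun v => b v p := by
    funext v
    exact (hbp v).symm
  have hpwF : P = pw (c F) (fun v => if v ∈ F then 1 else 0) := by
    rw [hP, pw]
    have h1 : ∏ v ∈ F, c F v = ∏ v, (if v ∈ F then c F v else 1) := by
      rw [Finset.prod_ite_mem, Finset.univ_inter]
    rw [h1]
    refine Finset.prod_congr rfl fun v _ => ?_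
    split_ifs
    · rw [pow_one]
    · rw [pow_zero]
  have hpwadd : ∀ A B : V → ℕ, pw (c F) A * pw (c F) B = pw (c F) (fun v => A v + B v) := by
    intro A B
    unfold pw
    rw [← Finset.prod_mul_distrib]
    refine Finset.prod_congr rfl fun v _ => ?_
    rw [pow_add]
  have hstart : eps a c F * pw (c F) M =
      P⁻¹ ^ 2 * (Δ * pw (fun v => b v p) (fun v => M v + if v ∈ F then 1 else 0)) := by
    rw [← hcb, ← hpwadd, ← hpwF, heps]
    field_simp
  rw [hstart, AN7_DI_sq, DI_coeff E b p Δ hbE hbΔ, AN7_prod_cnt, ← Finset.prod_mul_distrib]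
  have hN : (∏ v, gX b p v ^ cnt I v * gX b p v ^ (M v + if v ∈ F then 1 else 0)) =
      ∏ v, gX b p v ^ (M v + cnt I v + if v ∈ F then 1 else 0) := by
    refine Finset.prod_congr rfl fun v _ => ?_
    rw [← pow_add]
    congr 1
    ring
  rw [hN]
  by_cases hev : ∀ v, Even (M v + cnt I v)
  · rw [if_pos hev]
    have hsplit : (∏ v, gX b p v ^ (M v + cnt I v + if v ∈ F then 1 else 0)) =
        (∏ v, gX b p v ^ ((M v + cnt I v) / 2)) ^ 2 * ∏ v ∈ F, gX b p v := by
      have h1 : ∏ v ∈ F, gX b p v = ∏ v, (if v ∈ F then gX b p v else 1) := by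
        rw [Finset.prod_ite_mem, Finset.univ_inter]
      rw [h1, ← Finset.prod_pow, ← Finset.prod_mul_distrib]
      refine Finset.prod_congr rfl fun v _ => ?_
      rw [pow_add, ← pow_mul, Nat.div_mul_cancel (hev v).two_dvd]
      split_ifs with h
      · rw [pow_one]
      · rw [pow_zero]
    rw [hsplit, coeff_sq, AN7_coeff_gX, hbc, ← hcb, heps]
    ring
  · rw [if_neg hev]
    push Not at hev
    obtain ⟨v0, hv0⟩ := hev
    set O : Finset V := Finset.univ.filter fun v => ¬ Even (M v + cnt I v + if v ∈ F then 1 else 0) with hO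
    have hsplit : (∏ v, gX b p v ^ (M v + cnt I v + if v ∈ F then 1 else 0)) =
        (∏ v, gX b p v ^ ((M v + cnt I v + if v ∈ F then 1 else 0) / 2)) ^ 2 * ∏ v ∈ O, gX b p v := by
      rw [hO, Finset.prod_filter, ← Finset.prod_pow, ← Finset.prod_mul_distrib]
      refine Finset.prod_congr rfl fun v _ => ?_
      generalize (M v + cnt I v + if v ∈ F then 1 else 0) = n
      by_cases h : Even n
      · rw [if_neg (not_not.mpr h), mul_one, ← pow_mul, Nat.div_mul_cancel h.two_dvd]
      · rw [if_pos h, ← pow_mul, ← pow_succ]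
        congr 1
        have := Nat.not_even_iff_odd.mp h
        obtain ⟨m, hm⟩ := this
        omega
    have hzero : coeff (∑ j, Finsupp.single j 1) (∏ v ∈ O, gX b p v) = 0 := by
      by_cases hOF : O ⊆ F
      · apply coeff_few
        rw [← hcard]
        have hv0F : v0 ∈ F := by
          by_contra hn
          apply hn
          apply hOF
          rw [hO, Finset.mem_filter]
          refine ⟨Finset.mem_univ _, ?_⟩
          rw [if_neg hn, add_zero]
          exact hv0
        have hv0O : v0 ∉ O := by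
          rw [hO, Finset.mem_filter, if_pos hv0F]
          rintro ⟨-, h⟩
          apply h
          exact (Nat.not_even_iff_odd.mp hv0).add_one
        exact Finset.card_lt_card ((Finset.ssubset_iff_of_subset hOF).mpr ⟨v0, hv0F, hv0O⟩)
      · obtain ⟨w, hwO, hwF⟩ := Finset.not_subset.mp hOF
        rw [Finset.prod_eq_zero hwO (AN7_gX_zero b p (hb0 w hwF)), coeff_zero]
    rw [hsplit, coeff_sq, hzero]
    ring

end Pool.Agent.LibHB64
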