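import Pool.Agent.LibHB64.AN7

set_option autoImplicit false

/-!
Row AN8 (MEDIUM). The sum over the facets. `DI E I` is additive and `DI E I (q ^ 2 * y) = q ^ 2 * DI E I y` in characteristic two (induction over the list). Write `w = ∑ m ∈ w.support, monomial m (coeff m w)`:
`(aeval (c F) w) ^ 2 = ∑ m, (coeff m w) ^ 2 * pw (c F) (2 m)` (`sum_pow_char` or `add_pow_char`, `CharTwo.sum_sq`), so the left side is `∑ F, ∑ m, (coeff m w) ^ 2 * DI E I (eps a c F * pw (c F) (2 m + J))`
`= ∑ F, ∑ m, (coeff m w) ^ 2 * (eps a c F * pw (c F) (m + L)) ^ 2` (`DI_facet`, `2 m + J + cnt I = 2 (m + L)`), the square of the right side.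
-/

namespace Pool.Agent.LibHB64

open MvPolynomial Module

variable {V : Type*} [Fintype V] [DecidableEq V] {K : Type*} [Field K] {d : ℕ} {D B : Finset (Finset V)}

omit [Fintype V] [DecidableEq V] in
private theorem AN8_DI_sq [CharP K 2] {k : Type*} [Field k] [Algebra k K] (E : Fin d → V → Derivation k K K) (I : Fin d → V)
    (q y : K) : DI E I (q ^ 2 * y) = q ^ 2 * DI E I y := by
  unfold DI
  induction List.finRange d with
  | nil => rfl
  | cons j l ih =>
    rw [List.foldr_cons, List.foldr_cons, ih, Derivation.leibniz, Derivation.leibniz_pow]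
    have h2 : (2 : K) = 0 := CharTwo.two_eq_zero
    simp only [smul_eq_mul, nsmul_eq_mul]
    push_cast
    rw [h2]
    ring

omit [Fintype V] [DecidableEq V] in
private theorem AN8_DI_zero {k : Type*} [Field k] [Algebra k K] (E : Fin d → V → Derivation k K K) (I : Fin d → V) :
    DI E I 0 = 0 := by
  unfold DI
  induction List.finRange d with
  | nil => rfl
  | cons j l ih => rw [List.foldr_cons, ih, map_zero]

omit [Fintype V] [DecidableEq V] in
private theorem AN8_DI_add {k : Type*} [Field k] [Algebra k K] (E : Fin d → V → Derivation k K K) (I : Fin d → V)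
    (x y : K) : DI E I (x + y) = DI E I x + DI E I y := by
  unfold DI
  induction List.finRange d with
  | nil => rfl
  | cons j l ih => rw [List.foldr_cons, List.foldr_cons, List.foldr_cons, ih, map_add]

omit [Fintype V] [DecidableEq V] in
private theorem AN8_DI_sum {k : Type*} [Field k] [Algebra k K] (E : Fin d → V → Derivation k K K) (I : Fin d → V)
    {ι : Type*} (s : Finset ι) (f : ι → K) : DI E I (∑ i ∈ s, f i) = ∑ i ∈ s, DI E I (f i) := by
  classical
  induction s using Finset.induction_on with
  | empty => rw [Finset.sum_empty, Finset.sum_empty, AN8_DI_zero]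
  | insert i s hi ih => rw [Finset.sum_insert hi, Finset.sum_insert hi, AN8_DI_add, ih]

omit [DecidableEq V] in
private theorem AN8_aeval (y : V → K) (w : MvPolynomial V K) :
    aeval y w = ∑ m ∈ w.support, coeff m w * pw y (fun v => m v) := by
  rw [aeval_def, eval₂_eq']
  rfl

omit [DecidableEq V] in
private theorem AN8_pw_add (y : V → K) (A B : V → ℕ) : pw y A * pw y B = pw y (fun v => A v + B v) := by
  unfold pw
  rw [← Finset.prod_mul_distrib]
  refine Finset.prod_congr rfl fun v _ => ?_
  rw [pow_add]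

theorem DI_dg [CharP K 2] (hD : IsCx D) {a : Fin d → V → K} {c : Finset V → V → K} (hg : Gen D a) (hc : Pts d D a c)
    (hd : 1 ≤ d) {k : Type*} [Field k] [Algebra k K] {E : Fin d → V → Derivation k K K} (hE : IsE E a)
    (w : MvPolynomial V K) (J L : V → ℕ) (I : Fin d → V) (hL : ∀ v, J v + cnt I v = 2 * L v) :
    DI E I (dg D a c fun F => (aeval (c F.1) w) ^ 2 * pw (c F.1) J) =
      (dg D a c fun F => aeval (c F.1) w * pw (c F.1) L) ^ 2 := by
  have hleft : ∀ F : {F // F ∈ Fac d D}, eps a c F.1 * ((aeval (c F.1) w) ^ 2 * pw (c F.1) J) =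
      ∑ m ∈ w.support, (coeff m w) ^ 2 * (eps a c F.1 * pw (c F.1) (fun v => (m v + m v) + J v)) := by
    intro F
    rw [AN8_aeval, CharTwo.sum_sq, Finset.sum_mul, Finset.mul_sum]
    refine Finset.sum_congr rfl fun m _ => ?_
    rw [← AN8_pw_add (c F.1) (fun v => m v + m v) J, ← AN8_pw_add (c F.1) (fun v => m v) (fun v => m v)]
    ring
  have hterm : ∀ F : {F // F ∈ Fac d D}, ∀ m : V →₀ ℕ,
      DI E I (eps a c F.1 * pw (c F.1) (fun v => (m v + m v) + J v)) =
        (eps a c F.1 * pw (c F.1) (fun v => m v + L v)) ^ 2 := by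
    intro F m
    rw [DI_facet hD hg hc hd hE F.2]
    have hh : ∀ v, m v + m v + J v + cnt I v = 2 * (m v + L v) := by
      intro v
      have := hL v
      omega
    rw [if_pos (fun v => by
      rw [hh v]
      exact even_two_mul _)]
    congr 2
    congr 1
    funext v
    rw [hh v]
    omega
  unfold dg
  rw [Finset.sum_congr rfl fun F _ => hleft F, AN8_DI_sum, CharTwo.sum_sq]
  refine Finset.sum_congr rfl fun F _ => ?_
  beta_reduce
  rw [AN8_DI_sum, AN8_aeval, Finset.sum_mul, Finset.mul_sum, CharTwo.sum_sq]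
  refine Finset.sum_congr rfl fun m _ => ?_
  rw [AN8_DI_sq, hterm F m, ← AN8_pw_add (c F.1) (fun v => m v) L]
  ring

end Pool.Agent.LibHB64
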