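import Pool.Agent.LibHB64.ARDefs

set_option autoImplicit false

/-!
[HB64 AR0] SHORT. ONLY ARDefs. Finiteness and dimensions of the spaces of homogeneous polynomials in finitely many variables.
`HH_fin`: `homogeneousSubmodule V K i` is contained in the span of the finitely many monomials of degree `i` (or `Submodule.finiteDimensional_of_le` of
`restrictTotalDegree`, which is finite). `HH_zero`: degree 0 is the constants. `mu_inj`: `MvPolynomial V K` is a domain, `om l ≠ 0` if some `l v ≠ 0`. `om_ne`: if `E v (om l) = X v` then `om l ≠ 0`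
(`X v ≠ 0`; needs `V` nonempty: if `V` is empty then `HH K V m` for `m > 0` is `⊥`; here `v` is given).
`HH_option`: the homogeneous polynomials of degree `i` in `Option V` are the direct sum of the `z^a HH (i-a)`: `finrank` of `HH K (Option V) i` is the sum. Hint: both sides count monomials
(`finrank` of `HH K V i` = number of `a : V →₀ ℕ` of degree `i`: basis), `(Option V →₀ ℕ) ≃ ℕ × (V →₀ ℕ)` (`Finsupp.optionEquiv` or by hand);
or use TS-style: the maps `zz a` are injective with independent images and span.
-/

namespace Pool.Agent.LibHB64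

open MvPolynomial Module

variable {V : Type*} [Fintype V] {K : Type*} [Field K]

theorem HH_fin (i : ℕ) : FiniteDimensional K (HH K V i) :=
  Module.Finite.iff_fg.mpr (homogeneousSubmodule_fg _ _ i)

theorem HH_zero_mem {p : MvPolynomial V K} (hp : p ∈ HH K V 0) : ∃ c : K, p = C c := by
  rw [mem_homogeneousSubmodule] at hp
  have h := hp.totalDegree_le
  exact ⟨_, totalDegree_eq_zero_iff_eq_C.mp (Nat.le_zero.mp h)⟩

theorem HH_mul {p q : MvPolynomial V K} {i j : ℕ} (hp : p ∈ HH K V i) (hq : q ∈ HH K V j) :
    p * q ∈ HH K V (i + j) := by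
  rw [mem_homogeneousSubmodule] at hp hq ⊢
  exact hp.mul hq

theorem om_mem (l : V → K) : om l ∈ HH K V 1 := by
  unfold om
  refine Submodule.sum_mem _ (fun v _ => ?_)
  rw [mem_homogeneousSubmodule]
  have h := (isHomogeneous_C V (l v)).mul (isHomogeneous_X K v)
  simpa using h

theorem om_pow_mem (l : V → K) (k : ℕ) : om l ^ k ∈ HH K V k := by
  have h := om_mem l
  rw [mem_homogeneousSubmodule] at h ⊢
  have h2 := h.pow k
  simpa using h2

private theorem fr (W : Type*) [Fintype W] (i : ℕ) :
    finrank K (HH K W i) = Nat.card {d : W →₀ ℕ | d.degree = i} := by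
  have e : HH K W i ≃ₗ[K] ({d : W →₀ ℕ | d.degree = i} →₀ K) :=
    (LinearEquiv.ofEq _ _ (homogeneousSubmodule_eq_finsupp_supported (R := K) (σ := W) i)).trans
      (AddMonoidAlgebra.supportedEquivFinsupp _)
  exact Module.finrank_eq_nat_card_basis (Module.Basis.ofRepr e)

private theorem deg_opt (d : Option V →₀ ℕ) : d.degree = d none + d.some.degree := by
  rw [Finsupp.degree_eq_sum, Finsupp.degree_eq_sum, Fintype.sum_option]
  rfl

private theorem fin_deg (i : ℕ) : Finite {d : V →₀ ℕ | d.degree = i} :=
  (Set.Finite.subset (Finsupp.finite_of_degree_le i) (fun d (hd : d.degree = i) => hd.le))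

theorem HH_option (i : ℕ) :
    finrank K (HH K (Option V) i) = ∑ a ∈ Finset.range (i + 1), finrank K (HH K V (i - a)) := by
  rw [fr, Finset.sum_range (fun a => finrank K (HH K V (i - a)))]
  let f : (Σ a : Fin (i + 1), {d : V →₀ ℕ | d.degree = i - (a : ℕ)}) →
      {d : Option V →₀ ℕ | d.degree = i} := fun x => ⟨x.2.1.optionElim (x.1 : ℕ), by
          show (x.2.1.optionElim (x.1 : ℕ)).degree = i
          rw [deg_opt, Finsupp.some_optionElim, Finsupp.optionElim_apply_none]
          have h : x.2.1.degree = i - (x.1 : ℕ) := x.2.2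
          have h2 := x.1.isLt
          omega⟩
  have hinj : Function.Injective f := by
    rintro ⟨⟨a, ha⟩, ⟨d, hd⟩⟩ ⟨⟨a', ha'⟩, ⟨d', hd'⟩⟩ h
    have h0 : d.optionElim a = d'.optionElim a' := congrArg Subtype.val h
    have h1 : a = a' := by
      have := DFunLike.congr_fun h0 none
      rwa [Finsupp.optionElim_apply_none, Finsupp.optionElim_apply_none] at this
    subst h1
    have h2 : d = d' := by
      have := congrArg Finsupp.some h0
      rwa [Finsupp.some_optionElim, Finsupp.some_optionElim] at this
    subst h2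
    rfl
  have hsurj : Function.Surjective f := by
    rintro ⟨d, hd⟩
    have hd' : d.degree = i := hd
    rw [deg_opt] at hd'
    refine ⟨⟨⟨d none, by omega⟩, ⟨d.some, ?_⟩⟩, ?_⟩
    · show d.some.degree = i - d none
      omega
    · apply Subtype.ext
      exact Finsupp.optionElim_some d
  have e := Equiv.ofBijective f ⟨hinj, hsurj⟩
  rw [← Nat.card_congr e]
  haveI : ∀ a : Fin (i + 1), Finite {d : V →₀ ℕ | d.degree = i - (a : ℕ)} := fun a => fin_deg _
  rw [Nat.card_sigma]
  refine Finset.sum_congr rfl (fun a _ => ?_)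
  rw [fr]

end Pool.Agent.LibHB64
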