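import Pool.Agent.LibHB64.AR0

set_option autoImplicit false

/-!
[HB64 AR1] MEDIUM. ONLY ARDefs, AR0. First consequences of `ARD` (characteristic zero: `K` is a `ℚ`-algebra).
`om_ne_zero`: if `om l = 0` then `X v = E v 0 = 0` for every `v`; if `V` is empty then for `m > 0` `HH K V m = ⊥ = N m` contradicts `ne`, and for `m = 0` nothing is needed; so state: `0 < m → om l ≠ 0`.
`LL_zero`: `L_0 = ⊥`: if `C c ∈ L_0`, `c ≠ 0`, then `om^m ∈ N m`; applying `E v_1, ..., E v_m` gives (induction: `E v (om^k * q) = k om^(k-1) x_v q` for `q` a product of variables)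
`m! x_(v_1)...x_(v_m) ∈ N m`, so all monomials of degree `m` are in `N m` and `N m = HH m`, contradiction to `ne`. (Lemma: for all `j ≤ m` and all products `q` of `j` variables, `om^(m-j) * q ∈ N m`, by induction on `j`.)
`LL_m`: `L_m = N m`. `LL_om`: by definition, `om^(m-i-1) * (om * p) = om^(m-i) * p`. `LL_X`: `q = (m-i)⁻¹ • E w p`: `om^(m-i) p ∈ N m`, apply `E w`: `(m-i) om^(m-i-1) x_w p + om^(m-i) E w p ∈ N m`.
`N_le_LL`, `inf_LL`: `G i ⊓ L_i = N i` by `inj` and `NX` (`om^k N_i ≤ N_(i+k)`).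
-/

namespace Pool.Agent.LibHB64

open MvPolynomial Module

variable {V : Type*} [Fintype V] {K : Type*} [Field K] [Algebra ℚ K]
  {N G : ℕ → Submodule K (MvPolynomial V K)} {l : V → K}
  {E : V → Derivation ℚ (MvPolynomial V K) (MvPolynomial V K)} {m : ℕ}

private theorem AR1_sum_monomials (p : MvPolynomial V K) {i : ℕ} {S : Submodule K (MvPolynomial V K)}
    (hp : p ∈ HH K V i) (hS : ∀ a : V →₀ ℕ, a.degree = i → (monomial a (1 : K)) ∈ S) : p ∈ S := by
  rw [p.as_sum]
  apply Submodule.sum_mem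
  intro a ha
  have hdeg : a.degree = i := by
    have h1 := (mem_homogeneousSubmodule i p).1 hp (mem_support_iff.1 ha)
    rw [Finsupp.weight_apply] at h1
    simpa [Finsupp.degree, Finsupp.sum] using h1
  have e : monomial a (coeff a p) = coeff a p • monomial a (1 : K) := by
    rw [smul_monomial, smul_eq_mul, mul_one]
  rw [e]
  exact S.smul_mem _ (hS a hdeg)

private theorem AR1_cast_ne (k : ℕ) (hk : k ≠ 0) : (k : K) ≠ 0 := by
  have h : (algebraMap ℚ K) (k : ℚ) ≠ 0 := by
    rw [map_ne_zero]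
    exact_mod_cast hk
  rwa [map_natCast] at h

private theorem AR1_om_mul {S : Submodule K (MvPolynomial V K)} {p : MvPolynomial V K}
    (h : ∀ v, X v * p ∈ S) : om l * p ∈ S := by
  rw [om, Finset.sum_mul]
  apply Submodule.sum_mem
  intro v _
  have e : C (l v) * X v * p = l v • (X v * p) := by
    rw [mul_assoc, C_mul']
  rw [e]
  exact S.smul_mem _ (h v)

theorem ARD.om_ne_zero (h : ARD N G l E m) (hm : 0 < m) : om l ≠ 0 := by
  intro h0
  rcases isEmpty_or_nonempty V with hV | ⟨⟨v⟩⟩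
  · apply h.ne
    apply le_antisymm ((h.le m).trans (h.hom m))
    intro p hp
    apply AR1_sum_monomials p hp
    intro a ha
    exfalso
    have : a = 0 := Subsingleton.elim _ _
    rw [this, map_zero] at ha
    omega
  · have := h.Eo v
    rw [h0, map_zero] at this
    exact X_ne_zero v this.symm

theorem ARD.omN (h : ARD N G l E m) (k i : ℕ) {p : MvPolynomial V K} (hp : p ∈ N i) :
    om l ^ k * p ∈ N (k + i) := by
  induction k with
  | zero => simpa using hp
  | succ k ih =>
    rw [pow_succ', mul_assoc, show k + 1 + i = (k + i) + 1 by omega]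
    exact AR1_om_mul (fun v => h.NX _ v _ ih)

theorem ARD.omG (h : ARD N G l E m) {i : ℕ} {p : MvPolynomial V K} (hp : p ∈ G i) : om l * p ∈ G (i + 1) :=
  AR1_om_mul (fun v => h.GX _ v _ hp)

private theorem AR1_E_mono (h : ARD N G l E m) (v : V) (b : V →₀ ℕ) :
    E v (monomial b (1 : K)) = 0 := by
  induction b using Finsupp.induction_linear with
  | zero =>
    have : (monomial (0 : V →₀ ℕ) (1 : K)) = 1 := rfl
    rw [this, Derivation.map_one_eq_zero]
  | add f g hf hg =>
    have e : monomial (f + g) (1 : K) = monomial f 1 * monomial g 1 := by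
      rw [monomial_mul, one_mul]
    rw [e, Derivation.leibniz, hf, hg, smul_zero, smul_zero, add_zero]
  | single w n =>
    have e : monomial (Finsupp.single w n) (1 : K) = X w ^ n := by
      rw [X_pow_eq_monomial]
    rw [e, Derivation.leibniz_pow, h.EX, smul_zero, smul_zero]

private theorem AR1_E_om (h : ARD N G l E m) (v : V) (k : ℕ) (p : MvPolynomial V K) :
    E v (om l ^ (k + 1) * p) =
      ((k + 1 : ℕ) : K) • (om l ^ k * (X v * p)) + om l ^ (k + 1) * E v p := by
  rw [Derivation.leibniz, Derivation.leibniz_pow, h.Eo, Nat.add_sub_cancel, smul_eq_mul, smul_eq_mul,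
    smul_eq_mul, ← Nat.cast_smul_eq_nsmul K, add_comm]
  congr 1
  rw [smul_eq_C_mul, smul_eq_C_mul]
  ring

private theorem AR1_key (h : ARD N G l E m) (h1 : om l ^ m ∈ N m) (j : ℕ) :
    j ≤ m → ∀ a : V →₀ ℕ, a.degree = j → om l ^ (m - j) * monomial a (1 : K) ∈ N m := by
  induction j with
  | zero =>
    intro _ a ha
    have : a = 0 := by
      rwa [Finsupp.degree_eq_zero_iff] at ha
    rw [this, Nat.sub_zero]
    have e : (monomial (0 : V →₀ ℕ) (1 : K)) = 1 := rfl
    rw [e, mul_one]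
    exact h1
  | succ j ih =>
    intro hj a ha
    have hex : ∃ v, a v ≠ 0 := by
      by_contra hne
      push Not at hne
      have : a = 0 := Finsupp.ext hne
      rw [this, map_zero] at ha
      omega
    obtain ⟨v, hv⟩ := hex
    have ha' : a = Finsupp.single v 1 + (a - Finsupp.single v 1) := by
      rw [add_tsub_cancel_of_le]
      rw [Finsupp.single_le_iff]
      exact Nat.one_le_iff_ne_zero.2 hv
    have hd' : (a - Finsupp.single v 1).degree = j := by
      have h2 := congrArg Finsupp.degree ha'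
      rw [map_add, Finsupp.degree_single, ha] at h2
      omega
    have h3 := ih (by omega) _ hd'
    have h4 := h.EN m v _ h3
    rw [show m - j = (m - (j + 1)) + 1 by omega, AR1_E_om h, AR1_E_mono h, mul_zero, add_zero] at h4
    have h5 := (N m).smul_mem (((m - (j + 1) + 1 : ℕ) : K)⁻¹) h4
    rw [smul_smul, inv_mul_cancel₀ (AR1_cast_ne _ (Nat.succ_ne_zero _)), one_smul] at h5
    have e : X v * monomial (a - Finsupp.single v 1) (1 : K) = monomial a (1 : K) := by
      rw [X, monomial_mul, one_mul, ← ha']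
    rwa [e] at h5

theorem ARD.LL_zero (h : ARD N G l E m) : ARL N l m 0 = ⊥ := by
  rw [eq_bot_iff]
  intro p hp
  obtain ⟨hp1, hp2⟩ := Submodule.mem_inf.1 hp
  obtain ⟨c, rfl⟩ := HH_zero_mem hp1
  rw [Submodule.mem_bot]
  by_contra hc
  have hc' : c ≠ 0 := fun e => hc (by rw [e, C_0])
  have h1 : om l ^ m * C c ∈ N m := hp2
  have h2 : om l ^ m ∈ N m := by
    have h3 := (N m).smul_mem c⁻¹ h1
    have e : c⁻¹ • (om l ^ m * C c) = om l ^ m := by
      rw [smul_eq_C_mul, mul_left_comm, ← C_mul, inv_mul_cancel₀ hc', C_1, mul_one]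
    rwa [e] at h3
  apply h.ne
  apply le_antisymm ((h.le m).trans (h.hom m))
  intro q hq
  apply AR1_sum_monomials q hq
  intro a ha
  have := AR1_key h h2 m le_rfl a ha
  rwa [Nat.sub_self, pow_zero, one_mul] at this

theorem ARD.LL_m (h : ARD N G l E m) : ARL N l m m = N m := by
  apply le_antisymm
  · intro p hp
    have := (Submodule.mem_inf.1 hp).2
    rw [Submodule.mem_comap, Nat.sub_self, pow_zero] at this
    simpa using this
  · intro p hp
    refine Submodule.mem_inf.2 ⟨(h.le m).trans (h.hom m) hp, ?_⟩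
    rw [Submodule.mem_comap, Nat.sub_self, pow_zero]
    simpa using hp

private theorem AR1_mem_LL {i : ℕ} {p : MvPolynomial V K} :
    p ∈ ARL N l m i ↔ p ∈ HH K V i ∧ om l ^ (m - i) * p ∈ N m := Iff.rfl

theorem LL_om (N : ℕ → Submodule K (MvPolynomial V K)) (l : V → K) {i : ℕ} (hi : i < m) {p : MvPolynomial V K}
    (hp : p ∈ HH K V i) : om l * p ∈ ARL N l m (i + 1) ↔ p ∈ ARL N l m i := by
  rw [AR1_mem_LL, AR1_mem_LL]
  have e : om l ^ (m - (i + 1)) * (om l * p) = om l ^ (m - i) * p := by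
    rw [← mul_assoc, ← pow_succ, show m - (i + 1) + 1 = m - i by omega]
  rw [e]
  have h1 : om l * p ∈ HH K V (i + 1) := by
    rw [add_comm]
    exact HH_mul (om_mem l) hp
  exact ⟨fun h => ⟨hp, h.2⟩, fun h => ⟨h1, h.2⟩⟩

theorem ARD.LL_X (h : ARD N G l E m) {i : ℕ} (hi : i < m) (w : V) {p : MvPolynomial V K} (hp : p ∈ ARL N l m i) :
    ∃ q ∈ HH K V i, X w * p + om l * q ∈ ARL N l m (i + 1) := by
  rw [AR1_mem_LL] at hp
  obtain ⟨hp1, hp2⟩ := hp
  set c : K := ((m - (i + 1) + 1 : ℕ) : K) with hc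
  have hc0 : c ≠ 0 := AR1_cast_ne _ (Nat.succ_ne_zero _)
  refine ⟨c⁻¹ • E w p, Submodule.smul_mem _ _ (h.EH i w p hp1), ?_⟩
  rw [AR1_mem_LL]
  constructor
  · apply Submodule.add_mem
    · rw [add_comm]
      refine HH_mul ?_ hp1
      exact (mem_homogeneousSubmodule 1 _).2 (isHomogeneous_X K w)
    · rw [add_comm]
      exact HH_mul (om_mem l) (Submodule.smul_mem _ _ (h.EH i w p hp1))
  · have h4 := h.EN m w _ hp2
    rw [show m - i = (m - (i + 1)) + 1 by omega, AR1_E_om h] at h4
    have h5 := (N m).smul_mem c⁻¹ h4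
    rw [smul_add, smul_smul, inv_mul_cancel₀ hc0, one_smul] at h5
    have e : om l ^ (m - (i + 1)) * (X w * p + om l * c⁻¹ • E w p) =
        om l ^ (m - (i + 1)) * (X w * p) + c⁻¹ • (om l ^ (m - (i + 1) + 1) * E w p) := by
      rw [mul_add, pow_succ, smul_eq_C_mul, smul_eq_C_mul]
      ring
    rw [e]
    exact h5

theorem ARD.inf_LL (h : ARD N G l E m) {i : ℕ} (hi : i ≤ m) : G i ⊓ ARL N l m i = N i := by
  apply le_antisymm
  · intro p hp
    obtain ⟨h1, h2⟩ := Submodule.mem_inf.1 hp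
    exact h.inj i hi p h1 (AR1_mem_LL.1 h2).2
  · intro p hp
    refine Submodule.mem_inf.2 ⟨h.le i hp, AR1_mem_LL.2 ⟨h.hom i (h.le i hp), ?_⟩⟩
    have := h.omN (m - i) i hp
    rwa [Nat.sub_add_cancel hi] at this

end Pool.Agent.LibHB64
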