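import Pool.Agent.LibHB64.AR1

set_option autoImplicit false

/-!
[HB64 AR2] MEDIUM. The family `W_i = L_i + ω P_(i-1)`.
`WL_le`, `WL_X`: closed under `X v` for `i < m`: `L_i` by `LL_X` (`X w p = (X w p + ω q) - ω q`), `ω P_(i-1)` since `X v * (ω p) = ω * (X v p)`.
`WL_dim`: for `i < m`, `finrank W_(i+1) + finrank L_i = finrank L_(i+1) + finrank P_i`: `Submodule.finrank_sup_add_finrank_inf_eq`, multiplication by `ω ≠ 0` is injective, and
`L_(i+1) ⊓ ω P_i = ω L_i` (`LL_om`). `cc_succ`: so `c_(i+1) = c_i + (finrank P_(i+1) - finrank W_(i+1))` (all subtractions are honest: `L_i ≤ P_i`, finite dimensional).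
-/

namespace Pool.Agent.LibHB64

open MvPolynomial Module

variable {V : Type*} [Fintype V] {K : Type*} [Field K] [Algebra ℚ K]
  {N G : ℕ → Submodule K (MvPolynomial V K)} {l : V → K}
  {E : V → Derivation ℚ (MvPolynomial V K) (MvPolynomial V K)} {m : ℕ}

omit [Fintype V] [Algebra ℚ K] in
private theorem AR2_X (v : V) : (X v : MvPolynomial V K) ∈ HH K V 1 :=
  (mem_homogeneousSubmodule 1 _).2 (isHomogeneous_X K v)

omit [Algebra ℚ K] in
private theorem AR2_LL_le (N : ℕ → Submodule K (MvPolynomial V K)) (l : V → K) (m i : ℕ) :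
    ARL N l m i ≤ HH K V i := inf_le_left

theorem WL_le (N : ℕ → Submodule K (MvPolynomial V K)) (l : V → K) (m i : ℕ) : WL N l m i ≤ HH K V i := by
  cases i with
  | zero => exact AR2_LL_le N l m 0
  | succ i =>
    refine sup_le (AR2_LL_le N l m (i + 1)) ?_
    rw [Submodule.map_le_iff_le_comap]
    intro p hp
    have h := HH_mul (om_mem l) hp
    rw [Nat.add_comm] at h
    exact h

private theorem AR2_X_LL (h : ARD N G l E m) {i : ℕ} (hi : i < m) (v : V) {p : MvPolynomial V K}
    (hp : p ∈ ARL N l m i) : X v * p ∈ WL N l m (i + 1) := by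
  obtain ⟨q, hq, hqL⟩ := h.LL_X hi v hp
  have h1 : X v * p = (X v * p + om l * q) + om l * (-q) := by ring
  rw [h1]
  exact Submodule.add_mem_sup hqL ⟨-q, (HH K V i).neg_mem hq, rfl⟩

theorem ARD.WL_X (h : ARD N G l E m) {i : ℕ} (hi : i < m) (v : V) {p : MvPolynomial V K} (hp : p ∈ WL N l m i) :
    X v * p ∈ WL N l m (i + 1) := by
  cases i with
  | zero => exact AR2_X_LL h hi v hp
  | succ i =>
    obtain ⟨a, ha, b, hb, rfl⟩ := Submodule.mem_sup.1 hp
    rw [mul_add]
    refine Submodule.add_mem _ (AR2_X_LL h hi v ha) ?_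
    obtain ⟨r, hr, rfl⟩ := hb
    have h2 : X v * (mu (om l)) r = mu (om l) (X v * r) := by
      change X v * (om l * r) = om l * (X v * r)
      ring
    rw [h2]
    refine Submodule.mem_sup_right ⟨X v * r, ?_, rfl⟩
    have h3 := HH_mul (AR2_X (K := K) v) hr
    rw [Nat.add_comm] at h3
    exact h3

theorem ARD.WL_dim (h : ARD N G l E m) {i : ℕ} (hi : i < m) :
    finrank K (WL N l m (i + 1)) + finrank K (ARL N l m i) =
      finrank K (ARL N l m (i + 1)) + finrank K (HH K V i) := by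
  have hom0 : om l ≠ 0 := h.om_ne_zero (by omega)
  have hinj : Function.Injective (mu (om l)) := fun a b hab => mul_left_cancel₀ hom0 hab
  have hF : ∀ i, FiniteDimensional K (HH K V i) := fun i => HH_fin i
  have hL : FiniteDimensional K (ARL N l m (i + 1)) :=
    Submodule.finiteDimensional_of_le (AR2_LL_le N l m (i + 1))
  have hM : FiniteDimensional K ((HH K V i).map (mu (om l))) := inferInstance
  have h1 := Submodule.finrank_sup_add_finrank_inf_eq (ARL N l m (i + 1)) ((HH K V i).map (mu (om l)))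
  have h2 : ARL N l m (i + 1) ⊓ (HH K V i).map (mu (om l)) = (ARL N l m i).map (mu (om l)) := by
    ext p
    constructor
    · rintro ⟨hp1, r, hr, rfl⟩
      exact ⟨r, (LL_om N l hi hr).1 hp1, rfl⟩
    · rintro ⟨r, hr, rfl⟩
      have hr' : r ∈ HH K V i := AR2_LL_le N l m i hr
      exact ⟨(LL_om N l hi hr').2 hr, r, hr', rfl⟩
  rw [h2, ← (Submodule.equivMapOfInjective _ hinj (ARL N l m i)).finrank_eq,
    ← (Submodule.equivMapOfInjective _ hinj (HH K V i)).finrank_eq] at h1
  exact h1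

theorem ARD.cc_succ (h : ARD N G l E m) {i : ℕ} (hi : i < m) :
    cc N l m (i + 1) = cc N l m i + (finrank K (HH K V (i + 1)) - finrank K (WL N l m (i + 1))) := by
  have hF : ∀ i, FiniteDimensional K (HH K V i) := fun i => HH_fin i
  have h1 := h.WL_dim hi
  have h2 : finrank K (ARL N l m i) ≤ finrank K (HH K V i) :=
    Submodule.finrank_mono (AR2_LL_le N l m i)
  have h3 : finrank K (ARL N l m (i + 1)) ≤ finrank K (HH K V (i + 1)) :=
    Submodule.finrank_mono (AR2_LL_le N l m (i + 1))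
  have h4 : finrank K (WL N l m (i + 1)) ≤ finrank K (HH K V (i + 1)) :=
    Submodule.finrank_mono (WL_le N l m (i + 1))
  unfold cc
  omega

theorem ARD.cc_zero (h : ARD N G l E m) : cc N l m 0 = 1 := by
  unfold cc
  rw [h.LL_zero, finrank_bot, Nat.sub_zero]
  have h1 : (1 : MvPolynomial V K) ∈ HH K V 0 := (mem_homogeneousSubmodule 0 _).2 (isHomogeneous_one V K)
  refine finrank_eq_one (⟨1, h1⟩ : HH K V 0) (fun h0 => one_ne_zero (congrArg Subtype.val h0)) ?_
  rintro ⟨p, hp⟩
  obtain ⟨c, rfl⟩ := HH_zero_mem hp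
  refine ⟨c, Subtype.ext ?_⟩
  change c • (1 : MvPolynomial V K) = C c
  rw [smul_eq_C_mul, mul_one]

end Pool.Agent.LibHB64
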