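import Pool.Agent.LibHB64.AR1

set_option autoImplicit false

/-!
[HB64 AR3] MEDIUM. Dimension count for the filtration by `ω ^ a P`: `U = G i ⊔ L_i` (`≤ P_i`), `f a = finrank (RR i a ⊔ U)`. `f 0 = finrank P_i`, `f (i+1) = finrank U` (`RR i (i+1) = ⊥`),
and `f a = f (a+1) + (finrank P_(i-a) - finrank TA i a)` for `a ≤ i`: the map `P_(i-a) → (RR i a ⊔ U) / (RR i (a+1) ⊔ U)`, `y ↦ ω^a y`, is surjective with kernel `TA i a`
(`RR i (a+1) ≤ RR i a`). Sum over `a`.
-/

namespace Pool.Agent.LibHB64

open MvPolynomial Module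

variable {V : Type*} [Fintype V] {K : Type*} [Field K] [Algebra ℚ K]
  {N G : ℕ → Submodule K (MvPolynomial V K)} {l : V → K} {m : ℕ}

theorem RR_succ_le (l : V → K) (i a : ℕ) : RR l i (a + 1) ≤ RR l i a := by
  unfold RR
  by_cases h : a + 1 ≤ i
  · rw [if_pos h, if_pos (by omega)]
    rintro _ ⟨r, hr, rfl⟩
    refine ⟨om l * r, ?_, ?_⟩
    · have h1 := HH_mul (om_mem l) hr
      have h2 : 1 + (i - (a + 1)) = i - a := by omega
      rw [h2] at h1
      exact h1
    · change om l ^ a * (om l * r) = om l ^ (a + 1) * r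
      ring
  · rw [if_neg h]
    exact bot_le

/-- one step of the filtration -/
private theorem AR3_step (hG : ∀ i, G i ≤ HH K V i) {i a : ℕ} (ha : a ≤ i) :
    finrank K ↥(RR l i a ⊔ (G i ⊔ ARL N l m i)) = finrank K ↥(RR l i (a + 1) ⊔ (G i ⊔ ARL N l m i)) +
      (finrank K (HH K V (i - a)) - finrank K (TA N G l m i a)) := by
  have hF : ∀ i, FiniteDimensional K (HH K V i) := fun i => HH_fin i
  have hU : G i ⊔ ARL N l m i ≤ HH K V i := sup_le (hG i) inf_le_left
  have hR0 : RR l i a ≤ HH K V i := by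
    unfold RR
    rw [if_pos ha]
    rintro _ ⟨r, hr, rfl⟩
    have h1 := HH_mul (om_pow_mem l a) hr
    have h2 : a + (i - a) = i := by omega
    rw [h2] at h1
    exact h1
  set S := RR l i (a + 1) ⊔ (G i ⊔ ARL N l m i) with hS
  set T := RR l i a ⊔ (G i ⊔ ARL N l m i) with hT
  have hST : S ≤ T := sup_le_sup_right (RR_succ_le l i a) _
  have hTf : FiniteDimensional K T := Submodule.finiteDimensional_of_le (sup_le hR0 hU)
  have hSf : FiniteDimensional K S := Submodule.finiteDimensional_of_le hST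
  -- the two maps
  let f1 : HH K V (i - a) →ₗ[K] (MvPolynomial V K ⧸ S) := (S.mkQ ∘ₗ mu (om l ^ a)) ∘ₗ (HH K V (i - a)).subtype
  let f2 : T →ₗ[K] (MvPolynomial V K ⧸ S) := S.mkQ ∘ₗ T.subtype
  have h1 := LinearMap.finrank_range_add_finrank_ker f1
  have h2 := LinearMap.finrank_range_add_finrank_ker f2
  have hr : LinearMap.range f1 = LinearMap.range f2 := by
    have e1 : LinearMap.range f1 = (RR l i a).map S.mkQ := by
      unfold RR
      rw [if_pos ha, ← Submodule.map_comp]
      change LinearMap.range ((S.mkQ ∘ₗ mu (om l ^ a)) ∘ₗ (HH K V (i - a)).subtype) = _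
      rw [LinearMap.range_comp, Submodule.range_subtype]
    have e2 : LinearMap.range f2 = (RR l i a).map S.mkQ := by
      change LinearMap.range (S.mkQ ∘ₗ T.subtype) = _
      rw [LinearMap.range_comp, Submodule.range_subtype, hT, Submodule.map_sup]
      refine sup_eq_left.2 ?_
      have e3 : (G i ⊔ ARL N l m i).map S.mkQ = ⊥ := by
        rw [← LinearMap.le_ker_iff_map, Submodule.ker_mkQ]
        exact le_sup_right
      rw [e3]
      exact bot_le
    rw [e1, e2]
  have k1 : finrank K (LinearMap.ker f1) = finrank K (TA N G l m i a) := by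
    have e1 : LinearMap.ker f1 = (TA N G l m i a).comap (HH K V (i - a)).subtype := by
      ext y
      constructor
      · intro hy
        have h3 : om l ^ a * (y : MvPolynomial V K) ∈ S := by
          have h4 : S.mkQ (om l ^ a * (y : MvPolynomial V K)) = 0 := hy
          rwa [Submodule.mkQ_apply, Submodule.Quotient.mk_eq_zero] at h4
        exact ⟨y.2, h3⟩
      · rintro ⟨_, hy⟩
        have h3 : om l ^ a * (y : MvPolynomial V K) ∈ S := hy
        change S.mkQ (om l ^ a * (y : MvPolynomial V K)) = 0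
        rwa [Submodule.mkQ_apply, Submodule.Quotient.mk_eq_zero]
    rw [e1]
    exact (Submodule.comapSubtypeEquivOfLe (show TA N G l m i a ≤ HH K V (i - a) from inf_le_left)).finrank_eq
  have k2 : finrank K (LinearMap.ker f2) = finrank K S := by
    have e1 : LinearMap.ker f2 = S.comap T.subtype := by
      change LinearMap.ker (S.mkQ ∘ₗ T.subtype) = _
      rw [LinearMap.ker_comp, Submodule.ker_mkQ]
    rw [e1]
    exact (Submodule.comapSubtypeEquivOfLe hST).finrank_eq
  rw [hr, k1] at h1
  rw [k2] at h2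
  omega

theorem TA_sum (hG : ∀ i, G i ≤ HH K V i) (i : ℕ) :
    ∑ a ∈ Finset.range (i + 1), (finrank K (HH K V (i - a)) - finrank K (TA N G l m i a)) =
      finrank K (HH K V i) - finrank K ↥(G i ⊔ ARL N l m i) := by
  have key : ∀ b, b ≤ i + 1 → finrank K ↥(RR l i 0 ⊔ (G i ⊔ ARL N l m i)) =
      finrank K ↥(RR l i b ⊔ (G i ⊔ ARL N l m i)) +
        ∑ a ∈ Finset.range b, (finrank K (HH K V (i - a)) - finrank K (TA N G l m i a)) := by
    intro b
    induction b with
    | zero => intro _; simp
    | succ b ih =>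
      intro hb
      rw [ih (by omega), Finset.sum_range_succ, AR3_step (N := N) (l := l) (m := m) hG (show b ≤ i by omega)]
      ring
  have h1 := key (i + 1) le_rfl
  have hU : G i ⊔ ARL N l m i ≤ HH K V i := sup_le (hG i) inf_le_left
  have h2 : RR l i 0 ⊔ (G i ⊔ ARL N l m i) = HH K V i := by
    have e1 : RR l i 0 = HH K V i := by
      unfold RR
      rw [if_pos (Nat.zero_le i), pow_zero, Nat.sub_zero]
      ext p
      constructor
      · rintro ⟨r, hr, rfl⟩
        have : (mu (1 : MvPolynomial V K)) r = r := one_mul r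
        rw [this]
        exact hr
      · intro hp
        exact ⟨p, hp, one_mul p⟩
    rw [e1]
    exact sup_eq_left.2 hU
  have h3 : RR l i (i + 1) ⊔ (G i ⊔ ARL N l m i) = G i ⊔ ARL N l m i := by
    have e1 : RR l i (i + 1) = ⊥ := by
      unfold RR
      rw [if_neg (by omega)]
    rw [e1, bot_sup_eq]
  rw [h2, h3] at h1
  omega

end Pool.Agent.LibHB64
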