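import Pool.Agent.LibHB64.AR1

set_option autoImplicit false

/-!
[HB64 AR4] MEDIUM. The spaces `TA i a` (`y` with `ω^a y ∈ RR i (a+1) + G_i + L_i`) are closed.
`TA_z`: `ω * RR i (a+1) ≤ RR (i+1) (a+2)`, `ω G_i ≤ G_(i+1)` (`omG`), `ω L_i ≤ L_(i+1)` (`LL_om`).
`TA_X` (the derivation trick): let `ω^a y = ω^(a+1) y' + j + l'` (`y' ∈ P_(i-a-1)` if `a < i`, `y' = 0` if `a = i`; `j ∈ G i`, `l' ∈ L_i`), `Y = y - ω y'`, `k = m - i ≥ 1`. Then `ω^(k+a) Y = ω^k j + ω^k l'` with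
`ω^k l' ∈ N m`. Apply `E w` (`E w ω = x_w`): `ω^(k-1) [ (k+a) ω^a x_w Y + ω^(a+1) E w Y - k x_w j - ω E w j ] ∈ N m`, so the bracket is in `L_(i+1)`; `k x_w j + ω E w j ∈ G (i+1)`. Divide by `k + a` (characteristic zero):
`ω^a x_w Y + (k+a)⁻¹ ω^(a+1) E w Y ∈ G_(i+1) + L_(i+1)`, and `ω^a x_w Y = ω^a x_w y - ω^(a+1) x_w y'`. All terms `ω^(a+1) * (element of P_(i-a))` are in `RR (i+1) (a+1)`.
-/

namespace Pool.Agent.LibHB64

open MvPolynomial Module

variable {V : Type*} [Fintype V] {K : Type*} [Field K] [Algebra ℚ K]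
  {N G : ℕ → Submodule K (MvPolynomial V K)} {l : V → K}
  {E : V → Derivation ℚ (MvPolynomial V K) (MvPolynomial V K)} {m : ℕ}

omit [Algebra ℚ K] in
private theorem AR4_RR_ex {i a : ℕ} {r : MvPolynomial V K} (hr : r ∈ RR l i (a + 1)) :
    ∃ y' : MvPolynomial V K, r = om l ^ (a + 1) * y' ∧
      (∀ w : V, X w * y' ∈ HH K V (i - a)) ∧ om l * y' ∈ HH K V (i - a) := by
  unfold RR at hr
  split_ifs at hr with hai
  · obtain ⟨y', hy', rfl⟩ := Submodule.mem_map.1 hr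
    refine ⟨y', rfl, fun w => ?_, ?_⟩
    · have h1 := HH_mul (isHomogeneous_X K w) hy'
      rwa [show 1 + (i - (a + 1)) = i - a by omega] at h1
    · have h1 := HH_mul (om_mem l) hy'
      rwa [show 1 + (i - (a + 1)) = i - a by omega] at h1
  · rw [Submodule.mem_bot] at hr
    refine ⟨0, by rw [hr, mul_zero], fun w => ?_, ?_⟩
    · rw [mul_zero]
      exact Submodule.zero_mem _
    · rw [mul_zero]
      exact Submodule.zero_mem _

omit [Algebra ℚ K] in
private theorem AR4_RR_mem {i a : ℕ} (ha : a ≤ i) {q : MvPolynomial V K}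
    (hq : q ∈ HH K V (i - a)) : om l ^ a * q ∈ RR l i a := by
  unfold RR
  rw [if_pos ha]
  exact Submodule.mem_map.2 ⟨q, hq, rfl⟩

omit [Algebra ℚ K] in
private theorem AR4_RR_om {i a : ℕ} {r : MvPolynomial V K} (hr : r ∈ RR l i (a + 1)) :
    om l * r ∈ RR l (i + 1) (a + 2) := by
  unfold RR at hr ⊢
  split_ifs at hr with hai
  · obtain ⟨y', hy', rfl⟩ := Submodule.mem_map.1 hr
    rw [if_pos (by omega)]
    refine Submodule.mem_map.2 ⟨y', ?_, ?_⟩
    · rwa [show i + 1 - (a + 2) = i - (a + 1) by omega]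
    · simp only [LinearMap.mulLeft_apply]
      ring
  · rw [Submodule.mem_bot] at hr
    rw [hr, mul_zero]
    exact Submodule.zero_mem _

theorem ARD.TA_z (h : ARD N G l E m) {i a : ℕ} (hi : i < m) (ha : a ≤ i) {y : MvPolynomial V K}
    (hy : y ∈ TA N G l m i a) : y ∈ TA N G l m (i + 1) (a + 1) := by
  obtain ⟨hy1, hy2⟩ := Submodule.mem_inf.1 hy
  rw [Submodule.mem_comap] at hy2
  obtain ⟨r, hr, s, hs, hrs⟩ := Submodule.mem_sup.1 hy2
  obtain ⟨j, hj, p, hp, hjp⟩ := Submodule.mem_sup.1 hs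
  refine Submodule.mem_inf.2 ⟨?_, ?_⟩
  · rwa [show i + 1 - (a + 1) = i - a by omega]
  · rw [Submodule.mem_comap]
    refine Submodule.mem_sup.2 ⟨om l * r, AR4_RR_om hr, om l * s, ?_, ?_⟩
    · refine Submodule.mem_sup.2 ⟨om l * j, h.omG hj, om l * p, ?_, ?_⟩
      · exact (LL_om N l hi (Submodule.mem_inf.1 hp).1).2 hp
      · rw [← mul_add, hjp]
    · rw [← mul_add, hrs]
      simp only [LinearMap.mulLeft_apply]
      ring

theorem ARD.TA_X (h : ARD N G l E m) {i a : ℕ} (hi : i < m) (ha : a ≤ i) (w : V) {y : MvPolynomial V K}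
    (hy : y ∈ TA N G l m i a) : X w * y ∈ TA N G l m (i + 1) a := by
  have hchar : CharZero K := algebraRat.charZero K
  obtain ⟨hy1, hy2⟩ := Submodule.mem_inf.1 hy
  rw [Submodule.mem_comap] at hy2
  obtain ⟨r, hr, s, hs, hrs⟩ := Submodule.mem_sup.1 hy2
  obtain ⟨j, hj, p, hp, hjp⟩ := Submodule.mem_sup.1 hs
  obtain ⟨hp1, hp2⟩ := Submodule.mem_inf.1 hp
  rw [Submodule.mem_comap] at hp2
  simp only [LinearMap.mulLeft_apply] at hp2 hrs
  obtain ⟨y', rfl, hy'X, hy'o⟩ := AR4_RR_ex hr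
  obtain ⟨k, hk⟩ : ∃ k, m - i = k + 1 := ⟨m - i - 1, by omega⟩
  rw [hk] at hp2
  set Y : MvPolynomial V K := y - om l * y' with hY
  have hYH : Y ∈ HH K V (i - a) := Submodule.sub_mem _ hy1 hy'o
  -- the element of `N m`
  have h1 : om l ^ (k + 1 + a) * Y - om l ^ (k + 1) * j ∈ N m := by
    have e1 : om l ^ (k + 1 + a) * Y - om l ^ (k + 1) * j = om l ^ (k + 1) * p := by
      have e2 : p = om l ^ a * y - om l ^ (a + 1) * y' - j := by
        rw [← hrs, ← hjp]
        ring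
      rw [e2, hY]
      ring
    rw [e1]
    exact hp2
  have h2 := h.EN m w _ h1
  have e3 : E w (om l ^ (k + 1 + a) * Y - om l ^ (k + 1) * j) = om l ^ k *
      (((k + 1 + a : ℕ) : MvPolynomial V K) * (om l ^ a * (X w * Y)) + om l ^ (a + 1) * E w Y -
        ((k + 1 : ℕ) : MvPolynomial V K) * (X w * j) - om l * E w j) := by
    rw [map_sub, Derivation.leibniz, Derivation.leibniz, Derivation.leibniz_pow,
      Derivation.leibniz_pow, h.Eo w]
    simp only [smul_eq_mul, nsmul_eq_mul]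
    rw [show k + 1 + a - 1 = k + a by omega, show k + 1 - 1 = k by omega]
    ring
  rw [e3] at h2
  set B : MvPolynomial V K := ((k + 1 + a : ℕ) : MvPolynomial V K) * (om l ^ a * (X w * Y)) +
      om l ^ (a + 1) * E w Y - ((k + 1 : ℕ) : MvPolynomial V K) * (X w * j) - om l * E w j with hB
  have hjH : j ∈ HH K V i := h.hom i hj
  have hnat : ∀ (n : ℕ) (q : MvPolynomial V K), (n : MvPolynomial V K) * q = (n : K) • q := by
    intro n q
    rw [MvPolynomial.smul_eq_C_mul, map_natCast]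
  have hXY : om l ^ a * (X w * Y) ∈ HH K V (i + 1) := by
    have h3 := HH_mul (om_pow_mem l a) (HH_mul (isHomogeneous_X K w) hYH)
    rwa [show a + (1 + (i - a)) = i + 1 by omega] at h3
  have hEY : om l ^ (a + 1) * E w Y ∈ HH K V (i + 1) := by
    have h3 := HH_mul (om_pow_mem l (a + 1)) (h.EH _ w _ hYH)
    rwa [show a + 1 + (i - a) = i + 1 by omega] at h3
  have hXj : X w * j ∈ HH K V (i + 1) := by
    have h3 := HH_mul (isHomogeneous_X K w) hjH
    rwa [show 1 + i = i + 1 by omega] at h3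
  have hEj : om l * E w j ∈ HH K V (i + 1) := by
    have h3 := HH_mul (om_mem l) (h.EH _ w _ hjH)
    rwa [show 1 + i = i + 1 by omega] at h3
  have hBH : B ∈ HH K V (i + 1) := by
    rw [hB, hnat, hnat]
    exact Submodule.sub_mem _ (Submodule.sub_mem _ (Submodule.add_mem _
      (Submodule.smul_mem _ _ hXY) hEY) (Submodule.smul_mem _ _ hXj)) hEj
  have hBL : B ∈ ARL N l m (i + 1) := by
    refine Submodule.mem_inf.2 ⟨hBH, ?_⟩
    rw [Submodule.mem_comap, show m - (i + 1) = k by omega]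
    exact h2
  have hc : ((k + 1 + a : ℕ) : K) ≠ 0 := by
    rw [Nat.cast_ne_zero]
    omega
  -- the conclusion
  refine Submodule.mem_inf.2 ⟨?_, ?_⟩
  · have h3 := HH_mul (isHomogeneous_X K w) hy1
    rwa [show 1 + (i - a) = i + 1 - a by omega] at h3
  · rw [Submodule.mem_comap]
    simp only [LinearMap.mulLeft_apply]
    have hR1 : om l ^ (a + 1) * (X w * y' - (((k + 1 + a : ℕ) : K)⁻¹) • E w Y) ∈
        RR l (i + 1) (a + 1) := by
      refine AR4_RR_mem (by omega) ?_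
      rw [show i + 1 - (a + 1) = i - a by omega]
      exact Submodule.sub_mem _ (hy'X w) (Submodule.smul_mem _ _ (h.EH _ w _ hYH))
    have hG1 : (((k + 1 + a : ℕ) : K)⁻¹) • (((k + 1 : ℕ) : K) • (X w * j) + om l * E w j) ∈
        G (i + 1) :=
      Submodule.smul_mem _ _ (Submodule.add_mem _ (Submodule.smul_mem _ _ (h.GX i w j hj))
        (h.omG (h.EG i w j hj)))
    have hL1 : (((k + 1 + a : ℕ) : K)⁻¹) • B ∈ ARL N l m (i + 1) := Submodule.smul_mem _ _ hBL
    refine Submodule.mem_sup.2 ⟨_, hR1, _, Submodule.mem_sup.2 ⟨_, hG1, _, hL1, rfl⟩, ?_⟩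
    have e4 : (((k + 1 + a : ℕ) : K)⁻¹) • B = om l ^ a * (X w * Y) +
        (((k + 1 + a : ℕ) : K)⁻¹) • (om l ^ (a + 1) * E w Y) -
        (((k + 1 + a : ℕ) : K)⁻¹) • (((k + 1 : ℕ) : K) • (X w * j) + om l * E w j) := by
      rw [hB, hnat, hnat, smul_sub, smul_sub, smul_add, smul_smul, inv_mul_cancel₀ hc, one_smul,
        smul_add]
      ring
    rw [e4, hY, mul_sub (om l ^ (a + 1)), mul_smul_comm]
    ring

theorem ARD.TA_zero (h : ARD N G l E m) : TA N G l m 0 0 = ⊥ := by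
  rw [eq_bot_iff]
  intro y hy
  obtain ⟨-, hy2⟩ := Submodule.mem_inf.1 hy
  rw [Submodule.mem_comap, h.G0, h.LL_zero] at hy2
  unfold RR at hy2
  rw [if_neg (by omega), sup_bot_eq, sup_bot_eq] at hy2
  simpa using hy2

end Pool.Agent.LibHB64
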