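import Pool.Agent.LibHB64.AR0

set_option autoImplicit false

/-!
[HB64 AR5] MEDIUM. ONLY ARDefs, AR0. Sums `sum_a z^a A_a` in the polynomials with one more variable `z = X none`, for subspaces `A a ≤ P_(i-a)`, `a ≤ i`.
`zz_inj`: `rename some` is injective, multiplication by `z^a` is injective. `zz_hom`: degrees. `sum_dim`: the images `z^a A_a` are independent (look at the coefficients at `Finsupp` with `none`-exponent `a`; all elements of
`(A a).map (zz a)` have `coeff u = 0` unless `u none = a`), so the dimension of the supremum is the sum. `X_some_zz`: `X (some v) * zz a p = zz a (X v * p)`, `X none * zz a p = zz (a+1) p`.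
-/

namespace Pool.Agent.LibHB64

open MvPolynomial Module

variable {V : Type*} [Fintype V] {K : Type*} [Field K]

private theorem AR5_apply (a : ℕ) (p : MvPolynomial V K) :
    zz K V a p = X none ^ a * rename some p := rfl

private theorem AR5_equiv (p : MvPolynomial V K) :
    optionEquivLeft K V (rename some p) = Polynomial.C p := by
  induction p using MvPolynomial.induction_on with
  | C c => rw [rename_C, optionEquivLeft_C]
  | add p q hp hq => rw [map_add, map_add, hp, hq, Polynomial.C_add]
  | mul_X p v hp => rw [map_mul, map_mul, hp, rename_X, optionEquivLeft_X_some, Polynomial.C_mul]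

theorem zz_inj (a : ℕ) : Function.Injective (zz K V a) := by
  intro p q h
  rw [AR5_apply, AR5_apply] at h
  have h1 : (X none ^ a : MvPolynomial (Option V) K) ≠ 0 := pow_ne_zero a (X_ne_zero none)
  exact rename_injective some (Option.some_injective V) (mul_left_cancel₀ h1 h)

theorem zz_hom {a j : ℕ} {p : MvPolynomial V K} (hp : p ∈ HH K V j) : zz K V a p ∈ HH K (Option V) (a + j) := by
  rw [AR5_apply, mem_homogeneousSubmodule]
  rw [mem_homogeneousSubmodule] at hp
  exact (isHomogeneous_X_pow (R := K) none a).mul hp.rename_isHomogeneous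

theorem X_some_zz (a : ℕ) (v : V) (p : MvPolynomial V K) : X (some v) * zz K V a p = zz K V a (X v * p) := by
  rw [AR5_apply, AR5_apply, map_mul, rename_X]
  ring

theorem X_none_zz (a : ℕ) (p : MvPolynomial V K) : X none * zz K V a p = zz K V (a + 1) p := by
  rw [AR5_apply, AR5_apply]
  ring

theorem sum_dim (i : ℕ) (A : Fin (i + 1) → Submodule K (MvPolynomial V K)) (hA : ∀ a, A a ≤ HH K V (i - a)) :
    finrank K ↥(⨆ a : Fin (i + 1), (A a).map (zz K V a)) = ∑ a : Fin (i + 1), finrank K (A a) := by
  classical
  have hfin : ∀ a, FiniteDimensional K (A a) := fun a => by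
    have := HH_fin (V := V) (K := K) (i - a)
    exact Submodule.finiteDimensional_of_le (hA a)
  let Φ : (∀ a, A a) →ₗ[K] MvPolynomial (Option V) K :=
    ∑ a : Fin (i + 1), (zz K V a) ∘ₗ (A a).subtype ∘ₗ LinearMap.proj a
  have hΦ : ∀ x : ∀ a, A a, Φ x = ∑ a : Fin (i + 1), zz K V a (x a : MvPolynomial V K) := by
    intro x
    simp [Φ]
  have hrange : LinearMap.range Φ = ⨆ a : Fin (i + 1), (A a).map (zz K V a) := by
    apply le_antisymm
    · rintro _ ⟨x, rfl⟩
      rw [hΦ]
      refine Submodule.sum_mem _ fun a _ => ?_
      exact (le_iSup (fun a : Fin (i + 1) => (A a).map (zz K V a)) a)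
        (Submodule.mem_map_of_mem (x a).2)
    · refine iSup_le fun a => ?_
      rintro _ ⟨y, hy, rfl⟩
      refine ⟨Pi.single a ⟨y, hy⟩, ?_⟩
      rw [hΦ, Finset.sum_eq_single a]
      · rw [Pi.single_eq_same]
      · intro b _ hb
        rw [Pi.single_eq_of_ne hb]
        simp
      · intro h
        exact absurd (Finset.mem_univ a) h
  have hinj : Function.Injective Φ := by
    rw [injective_iff_map_eq_zero]
    intro x hx
    rw [hΦ] at hx
    have h1 := congrArg (optionEquivLeft K V) hx
    rw [map_sum, map_zero] at h1
    funext b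
    apply Subtype.ext
    have h2 := congrArg (fun q => Polynomial.coeff q (b : ℕ)) h1
    simp only [AR5_apply, map_mul, map_pow, optionEquivLeft_X_none, AR5_equiv,
      Polynomial.finsetSum_coeff, Polynomial.coeff_mul_C, Polynomial.coeff_X_pow,
      Polynomial.coeff_zero, ite_mul, one_mul, zero_mul] at h2
    rw [Finset.sum_eq_single b] at h2
    · simpa using h2
    · intro c _ hc
      rw [if_neg]
      intro h
      exact hc (Fin.ext h.symm)
    · intro h
      exact absurd (Finset.mem_univ b) h
  rw [← hrange, LinearMap.finrank_range_of_inj hinj, Module.finrank_pi_fintype]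

end Pool.Agent.LibHB64
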