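import Pool.Agent.LibHB64.ARDefs

set_option autoImplicit false

/-!
[HB64 MAF] MEDIUM. ONLY ARDefs. Macaulay's basis theorem: a family of subspaces `N i` of homogeneous polynomials closed under multiplication by the variables (in degrees `≤ m`) has the codimensions of an order ideal of monomials.
Take a linear order on `V` (transport to `Fin n`, `n = card V`; `IsM` asks for `Fin n`), a monomial order on `V →₀ ℕ` compatible with addition (`MonomialOrder.degLex` or `lex`; or the lexicographic order by hand), and let `M` be the set of the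
monomials `u` of degree `i ≤ m` which are not leading monomials of a nonzero element of `N i`. If `u + e_v ∈ M`, degree `i + 1 ≤ m`, then `u ∈ M` (if `u = lm p`, `p ∈ N i`, then `u + e_v = lm (X v * p)`), so `M` is closed under divisors.
The number of leading monomials of elements of a subspace `N i` is its dimension (finite dimensional; linear algebra: elements with different leading monomials are independent, and a basis can be reduced to different leading monomials); so
`|M_i| = number of monomials of degree i - finrank (N i)`. `1 ∈ M` as `N 0 = ⊥`. (helper88 has a variant; this is the form used in AR6.)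
-/

namespace Pool.Agent.LibHB64

open MvPolynomial Module

private theorem MAF_deg {V : Type*} [Fintype V] {K : Type*} [Field K] {i : ℕ} {p : MvPolynomial V K}
    (hp : p ∈ HH K V i) {a : V →₀ ℕ} (ha : a ∈ p.support) : a.degree = i := by
  have h1 := (mem_homogeneousSubmodule i p).1 hp (mem_support_iff.1 ha)
  rw [Finsupp.weight_apply] at h1
  simpa [Finsupp.degree, Finsupp.sum] using h1

/-- leading exponents of the nonzero elements -/
private def MAF_L {V : Type*} {K : Type*} [Field K] (mo : MonomialOrder V)
    (W : Submodule K (MvPolynomial V K)) : Set (V →₀ ℕ) :=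
  {u | ∃ p ∈ W, p ≠ 0 ∧ mo.degree p = u}

private theorem MAF_L_sub {V : Type*} [Fintype V] {K : Type*} [Field K] (mo : MonomialOrder V)
    {i : ℕ} {W : Submodule K (MvPolynomial V K)} (hW : W ≤ HH K V i) :
    MAF_L mo W ⊆ {a | a.degree = i} := by
  rintro u ⟨p, hp, hp0, rfl⟩
  exact MAF_deg (hW hp) (mo.degree_mem_support hp0)

private theorem MAF_count {V : Type*} [Fintype V] {K : Type*} [Field K] (mo : MonomialOrder V)
    {i : ℕ} {W : Submodule K (MvPolynomial V K)} (hW : W ≤ HH K V i) :
    (MAF_L mo W).ncard = finrank K W := by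
  classical
  have hfin : (MAF_L mo W).Finite := (Finsupp.finite_of_degree_eq i).subset (MAF_L_sub mo hW)
  have hHH : FiniteDimensional K (HH K V i) :=
    Module.Finite.iff_fg.2 (homogeneousSubmodule_fg V K i)
  have hWf : FiniteDimensional K W := Submodule.finiteDimensional_of_le hW
  have := hfin.fintype
  rw [Set.ncard_eq_toFinset_card' , Set.toFinset_card]
  apply le_antisymm
  · -- independence
    choose p hp hp0 hpu using fun u : MAF_L mo W => u.2
    have hli : LinearIndependent K (fun u : MAF_L mo W => (⟨p u, hp u⟩ : W)) := by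
      rw [Fintype.linearIndependent_iff]
      intro g hg
      by_contra hne
      push Not at hne
      obtain ⟨u1, hu1⟩ := hne
      obtain ⟨u0, hu0, hmax⟩ := Finset.exists_max_image
        (Finset.univ.filter (fun u : MAF_L mo W => g u ≠ 0)) (fun u => mo.toSyn u.1)
        ⟨u1, Finset.mem_filter.2 ⟨Finset.mem_univ _, hu1⟩⟩
      have hg' : ∑ u, g u • p u = 0 := by
        have := congrArg (Submodule.subtype W) hg
        simpa using this
      have hc := congrArg (coeff u0.1) hg'
      rw [coeff_sum, coeff_zero, Finset.sum_eq_single u0] at hc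
      · rw [coeff_smul, smul_eq_mul] at hc
        rcases mul_eq_zero.1 hc with h | h
        · exact (Finset.mem_filter.1 hu0).2 h
        · have h2 := (mo.coeff_degree_ne_zero_iff (f := p u0)).2 (hp0 u0)
          rw [hpu u0] at h2
          exact h2 h
      · intro u _ hu
        rw [coeff_smul, smul_eq_mul]
        by_cases hgu : g u = 0
        · rw [hgu, zero_mul]
        · have h1 := hmax u (Finset.mem_filter.2 ⟨Finset.mem_univ _, hgu⟩)
          have h2 : mo.toSyn u.1 < mo.toSyn u0.1 := by
            refine lt_of_le_of_ne h1 (fun e => hu ?_)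
            exact Subtype.ext (mo.toSyn.injective e)
          rw [mo.coeff_eq_zero_of_lt (by rw [hpu u]; exact h2), mul_zero]
      · intro h; exact absurd (Finset.mem_univ _) h
    exact hli.fintype_card_le_finrank
  · -- injectivity of the coefficients
    let φ : W →ₗ[K] (MAF_L mo W → K) :=
      LinearMap.pi (fun u => (lcoeff K u.1).comp W.subtype)
    have hφ : Function.Injective φ := by
      rw [← LinearMap.ker_eq_bot, LinearMap.ker_eq_bot']
      intro q hq
      by_contra hq0
      have hq0' : (q : MvPolynomial V K) ≠ 0 := fun e => hq0 (Subtype.ext e)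
      have h1 := congrFun hq ⟨mo.degree (q : MvPolynomial V K), ⟨q, q.2, hq0', rfl⟩⟩
      exact (mo.coeff_degree_ne_zero_iff (f := (q : MvPolynomial V K))).2 hq0' h1
    have := LinearMap.finrank_le_finrank_of_injective hφ
    rwa [finrank_fintype_fun_eq_card] at this

private theorem MAF_L_HH {V : Type*} [Fintype V] {K : Type*} [Field K] (mo : MonomialOrder V)
    (i : ℕ) : MAF_L mo (HH K V i) = {a | a.degree = i} := by
  classical
  apply Set.Subset.antisymm (MAF_L_sub mo le_rfl)
  intro a ha
  refine ⟨monomial a (1 : K), ?_, ?_, ?_⟩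
  · exact (mem_homogeneousSubmodule i _).2 (isHomogeneous_monomial _ ha)
  · rw [Ne, monomial_eq_zero]; exact one_ne_zero
  · rw [mo.degree_monomial, if_neg one_ne_zero]

private theorem MAF_mono {V : Type*} {K : Type*} [Field K]
    {N : ℕ → Submodule K (MvPolynomial V K)} {m : ℕ}
    (h2 : ∀ i, i < m → ∀ v, ∀ p ∈ N i, X v * p ∈ N (i + 1)) (j : ℕ) :
    ∀ (c : V →₀ ℕ) (i : ℕ), c.degree = j → i + j ≤ m → ∀ p ∈ N i, monomial c (1 : K) * p ∈ N (i + j) := by
  induction j with
  | zero =>
    intro c i hc _ p hp
    have : c = 0 := by rwa [Finsupp.degree_eq_zero_iff] at hc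
    rw [this]
    have e : (monomial (0 : V →₀ ℕ) (1 : K)) = 1 := rfl
    rw [e, one_mul]
    exact hp
  | succ j ih =>
    intro c i hc hi p hp
    have hex : ∃ v, c v ≠ 0 := by
      by_contra hne
      push Not at hne
      have : c = 0 := Finsupp.ext hne
      rw [this, map_zero] at hc
      omega
    obtain ⟨v, hv⟩ := hex
    have hc' : c = Finsupp.single v 1 + (c - Finsupp.single v 1) := by
      rw [add_tsub_cancel_of_le]
      rw [Finsupp.single_le_iff]
      exact Nat.one_le_iff_ne_zero.2 hv
    have hd' : (c - Finsupp.single v 1).degree = j := by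
      have h2 := congrArg Finsupp.degree hc'
      rw [map_add, Finsupp.degree_single, hc] at h2
      omega
    have h3 := ih _ i hd' (by omega) p hp
    have h4 := h2 (i + j) (by omega) v _ h3
    have e : X v * (monomial (c - Finsupp.single v 1) (1 : K) * p) = monomial c (1 : K) * p := by
      rw [← mul_assoc, X, monomial_mul, one_mul, ← hc']
    rw [e] at h4
    exact h4

theorem MAC_fam {V : Type*} [Fintype V] {K : Type*} [Field K] {N : ℕ → Submodule K (MvPolynomial V K)} {m : ℕ}
    (h1 : ∀ i, i ≤ m → N i ≤ HH K V i) (h2 : ∀ i, i < m → ∀ v, ∀ p ∈ N i, X v * p ∈ N (i + 1)) (h0 : N 0 = ⊥) :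
    IsM m fun i => finrank K (HH K V i) - finrank K (N i) := by
  classical
  let e : V ≃ Fin (Fintype.card V) := Fintype.equivFin V
  let _ : LinearOrder V := LinearOrder.lift' e e.injective
  let mo : MonomialOrder V := MonomialOrder.lex
  let M : Set (V →₀ ℕ) := {u | u.degree ≤ m ∧ u ∉ MAF_L mo (N u.degree)}
  have hM0 : (0 : V →₀ ℕ) ∈ M := by
    refine ⟨by rw [map_zero]; exact Nat.zero_le _, ?_⟩
    rintro ⟨p, hp, hp0, -⟩
    rw [map_zero, h0, Submodule.mem_bot] at hp
    exact hp0 hp
  have hMl : ∀ a ∈ M, ∀ b, b ≤ a → b ∈ M := by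
    rintro a ⟨ha1, ha2⟩ b hba
    have hab : a = (a - b) + b := (tsub_add_cancel_of_le hba).symm
    have hdeg : a.degree = b.degree + (a - b).degree := by
      rw [add_comm, ← map_add, ← hab]
    refine ⟨by omega, ?_⟩
    rintro ⟨p, hp, hp0, hpb⟩
    apply ha2
    rw [hdeg]
    refine ⟨monomial (a - b) (1 : K) * p, MAF_mono h2 _ _ _ rfl (by omega) p hp, ?_, ?_⟩
    · refine mul_ne_zero ?_ hp0
      rw [Ne, monomial_eq_zero]; exact one_ne_zero
    · rw [mo.degree_mul (by rw [Ne, monomial_eq_zero]; exact one_ne_zero) hp0, mo.degree_monomial,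
        if_neg one_ne_zero, hpb, ← hab]
  have hMc : ∀ i, i ≤ m → {a ∈ M | a.degree = i}.ncard =
      finrank K (HH K V i) - finrank K (N i) := by
    intro i hi
    have hs : {a ∈ M | a.degree = i} = {a | a.degree = i} \ MAF_L mo (N i) := by
      ext a
      constructor
      · rintro ⟨⟨_, h4⟩, h5⟩
        refine ⟨h5, ?_⟩
        rw [← h5]; exact h4
      · rintro ⟨h4, h5⟩
        have h4' : a.degree = i := h4
        refine ⟨⟨by rw [h4']; exact hi, ?_⟩, h4⟩
        rw [h4']; exact h5
    have hfin : ({a : V →₀ ℕ | a.degree = i}).Finite := Finsupp.finite_of_degree_eq i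
    rw [hs, Set.ncard_sdiff (MAF_L_sub mo (h1 i hi)) (hfin.subset (MAF_L_sub mo (h1 i hi))),
      MAF_count mo (h1 i hi), ← MAF_L_HH (K := K) mo i, MAF_count mo le_rfl]
  -- transport
  let T : (V →₀ ℕ) ≃+ (Fin (Fintype.card V) →₀ ℕ) := Finsupp.domCongr e
  have hT : ∀ a j, T a j = a (e.symm j) := fun a j => rfl
  have hTd : ∀ a, (T a).degree = a.degree := by
    intro a
    rw [Finsupp.degree_eq_sum, Finsupp.degree_eq_sum]
    simp only [hT]
    exact Equiv.sum_comp e.symm (fun v => a v)
  have hTs : ∀ b v, T.symm b v = b (e v) := by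
    intro b v
    have h5 := hT (T.symm b) (e v)
    rw [T.apply_symm_apply, e.symm_apply_apply] at h5
    exact h5.symm
  refine ⟨Fintype.card V, {b | T.symm b ∈ M}, ?_, ?_, ?_⟩
  · change T.symm 0 ∈ M
    rw [map_zero]
    exact hM0
  · intro a ha b hba
    refine hMl _ ha _ ?_
    intro v
    rw [hTs, hTs]
    exact hba (e v)
  · intro i hi
    refine Eq.trans ?_ (hMc i hi)
    have hs : {b ∈ {b | T.symm b ∈ M} | b.degree = i} = T '' {a ∈ M | a.degree = i} := by
      ext b
      constructor
      · rintro ⟨h5, h6⟩
        refine ⟨T.symm b, ⟨h5, ?_⟩, T.apply_symm_apply b⟩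
        rw [← hTd, T.apply_symm_apply]; exact h6
      · rintro ⟨a, ⟨h5, h6⟩, rfl⟩
        refine ⟨?_, by rw [hTd]; exact h6⟩
        change T.symm (T a) ∈ M
        rw [T.symm_apply_apply]; exact h5
    rw [hs, Set.ncard_image_of_injective _ T.injective]

end Pool.Agent.LibHB64
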