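import Pool.Agent.LibHB64.AR2
import Pool.Agent.LibHB64.AR3
import Pool.Agent.LibHB64.AR4
import Pool.Agent.LibHB64.AR5
import Pool.Agent.LibHB64.MAF

set_option autoImplicit false

/-!
[HB64 AR6] MEDIUM. The two M-sequences. `gamma_M`: `MAC_fam` for the family `WL` (`WL_le`, `WL_X`, `WL 0 = ARL 0 = ⊥`), `cc_succ`, `cc_zero`. `t_M`: `MAC_fam` in the variables `Option V` for the family `TS`:
`TS i ≤ HH` (`zz_hom`), closed under `X none` (`X_none_zz`, `TA_z`) and `X (some v)` (`X_some_zz`, `TA_X`), `TS 0 = ⊥` (`TA_zero`); dimension: `sum_dim`, `HH_option`, `TA_sum`: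
`finrank HH(Option V) i - finrank (TS i) = sum_a (finrank P_(i-a) - finrank TA i a) = finrank P_i - finrank (G i ⊔ L_i)`, and `finrank (G i ⊔ L_i) = finrank G_i + finrank L_i - finrank N_i` (`inf_LL`), so it equals `c_i - (finrank G_i - finrank N_i)`.
`g_le`: `finrank G_i - finrank N_i ≤ c_i ≤ finrank P_i - finrank N_i` (`N_i ≤ L_i`; `G_i / N_i` embeds in `P_i / L_i`). `g_mono`: multiplication by `ω` embeds `G_i / N_i` into `G_(i+1) / N_(i+1)` for `i < m` (`inj`).
-/

namespace Pool.Agent.LibHB64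

open MvPolynomial Module

variable {V : Type*} [Fintype V] {K : Type*} [Field K] [Algebra ℚ K]
  {N G : ℕ → Submodule K (MvPolynomial V K)} {l : V → K}
  {E : V → Derivation ℚ (MvPolynomial V K) (MvPolynomial V K)} {m : ℕ}

private theorem AR6_congr {m : ℕ} {s s' : ℕ → ℕ} (h : IsM m s) (hs : ∀ i, i ≤ m → s i = s' i) :
    IsM m s' := by
  obtain ⟨n, M, h0, h1, h2⟩ := h
  exact ⟨n, M, h0, h1, fun i hi => (h2 i hi).trans (hs i hi)⟩

private theorem AR6_LL_le (N : ℕ → Submodule K (MvPolynomial V K)) (l : V → K) (m i : ℕ) :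
    ARL N l m i ≤ HH K V i := inf_le_left

private theorem AR6_fin {i : ℕ} {A : Submodule K (MvPolynomial V K)} (hA : A ≤ HH K V i) :
    FiniteDimensional K A := by
  have := HH_fin (V := V) (K := K) i
  exact Submodule.finiteDimensional_of_le hA

private theorem AR6_rank {i : ℕ} {A B : Submodule K (MvPolynomial V K)} (hAB : A ≤ B)
    (hB : B ≤ HH K V i) : finrank K A ≤ finrank K B := by
  have := AR6_fin hB
  exact Submodule.finrank_mono hAB

private theorem AR6_sup (h : ARD N G l E m) {i : ℕ} (hi : i ≤ m) :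
    finrank K ↥(G i ⊔ ARL N l m i) + finrank K (N i) = finrank K (G i) + finrank K (ARL N l m i) := by
  have h1 := AR6_fin (h.hom i)
  have h2 := AR6_fin (AR6_LL_le N l m i)
  have h3 := Submodule.finrank_sup_add_finrank_inf_eq (G i) (ARL N l m i)
  rwa [h.inf_LL hi] at h3

theorem ARD.gamma_M (h : ARD N G l E m) :
    IsM m (fun i => cc N l m i - if i = 0 then 0 else cc N l m (i - 1)) := by
  refine AR6_congr (MAC_fam (N := WL N l m) (fun i _ => WL_le N l m i)
    (fun i hi v p hp => h.WL_X hi v hp) h.LL_zero) ?_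
  intro i hi
  rcases i with _ | i
  · rfl
  · have h1 := h.cc_succ (i := i) (by omega)
    rw [if_neg (Nat.succ_ne_zero i), Nat.add_sub_cancel, h1, Nat.add_sub_cancel_left]

private theorem AR6_TS_le (i : ℕ) : TS N G l m i ≤ HH K (Option V) i := by
  unfold TS
  refine iSup_le fun a => ?_
  rw [Submodule.map_le_iff_le_comap]
  intro y hy
  have h1 : y ∈ HH K V (i - (a : ℕ)) := hy.1
  have h2 := zz_hom (a := (a : ℕ)) h1
  have h3 : (a : ℕ) + (i - (a : ℕ)) = i := by
    have := a.2
    omega
  rw [h3] at h2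
  exact h2

private theorem AR6_mem_TS {i a : ℕ} (ha : a ≤ i) {y : MvPolynomial V K} (hy : y ∈ TA N G l m i a) :
    zz K V a y ∈ TS N G l m i := by
  unfold TS
  exact Submodule.mem_iSup_of_mem (⟨a, by omega⟩ : Fin (i + 1)) (Submodule.mem_map_of_mem hy)

private theorem AR6_TS_X (h : ARD N G l E m) {i : ℕ} (hi : i < m) (v : Option V)
    {p : MvPolynomial (Option V) K} (hp : p ∈ TS N G l m i) : X v * p ∈ TS N G l m (i + 1) := by
  have key : TS N G l m i ≤ (TS N G l m (i + 1)).comap
      (LinearMap.mulLeft K (X v : MvPolynomial (Option V) K)) := by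
    conv_lhs => unfold TS
    refine iSup_le fun a => ?_
    rw [Submodule.map_le_iff_le_comap]
    intro y hy
    have ha : (a : ℕ) ≤ i := by
      have := a.2
      omega
    show X v * zz K V (a : ℕ) y ∈ TS N G l m (i + 1)
    cases v with
    | none =>
      rw [X_none_zz]
      exact AR6_mem_TS (by omega) (h.TA_z hi ha hy)
    | some w =>
      rw [X_some_zz]
      exact AR6_mem_TS (by omega) (h.TA_X hi ha w hy)
  exact key hp

private theorem AR6_TS_zero (h : ARD N G l E m) : TS N G l m 0 = ⊥ := by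
  rw [eq_bot_iff]
  unfold TS
  refine iSup_le fun a => ?_
  have ha : (a : ℕ) = 0 := by
    have := a.2
    omega
  rw [ha, h.TA_zero, Submodule.map_bot]

theorem ARD.t_M (h : ARD N G l E m) :
    IsM m (fun i => cc N l m i - (finrank K (G i) - finrank K (N i))) := by
  refine AR6_congr (MAC_fam (N := TS N G l m) (fun i _ => AR6_TS_le i)
    (fun i hi v p hp => AR6_TS_X h hi v hp) (AR6_TS_zero h)) ?_
  intro i hi
  have h1 : finrank K (TS N G l m i) = ∑ a ∈ Finset.range (i + 1), finrank K (TA N G l m i a) := by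
    rw [← Fin.sum_univ_eq_sum_range (fun a => finrank K (TA N G l m i a))]
    exact sum_dim i (fun a => TA N G l m i a) (fun a => inf_le_left)
  have h2 : ∑ a ∈ Finset.range (i + 1), (finrank K (HH K V (i - a)) - finrank K (TA N G l m i a)) =
      ∑ a ∈ Finset.range (i + 1), finrank K (HH K V (i - a)) -
        ∑ a ∈ Finset.range (i + 1), finrank K (TA N G l m i a) := by
    refine Finset.sum_tsub_distrib _ fun a _ => ?_
    exact AR6_rank (A := TA N G l m i a) inf_le_left le_rfl
  have h3 := TA_sum (N := N) (l := l) (m := m) h.hom i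
  have h4 := AR6_sup h hi
  have h5 := AR6_rank (h.le i) (h.hom i)
  rw [HH_option, h1, ← h2, h3]
  unfold cc
  omega

theorem ARD.cc_mono (h : ARD N G l E m) {i : ℕ} (hi : i < m) : cc N l m i ≤ cc N l m (i + 1) := by
  rw [h.cc_succ hi]
  exact Nat.le_add_right _ _

theorem ARD.cc_last (h : ARD N G l E m) : cc N l m m = finrank K (HH K V m) - finrank K (N m) := by
  unfold cc
  rw [h.LL_m]

theorem ARD.g_le (h : ARD N G l E m) {i : ℕ} (hi : i ≤ m) :
    finrank K (G i) - finrank K (N i) ≤ cc N l m i ∧ cc N l m i ≤ finrank K (HH K V i) - finrank K (N i) := by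
  have h1 := AR6_sup h hi
  have h2 : finrank K ↥(G i ⊔ ARL N l m i) ≤ finrank K (HH K V i) :=
    AR6_rank (sup_le (h.hom i) (AR6_LL_le N l m i)) le_rfl
  have h3 := AR6_rank (h.le i) (h.hom i)
  have h4 : finrank K (N i) ≤ finrank K (ARL N l m i) := by
    refine AR6_rank ?_ (AR6_LL_le N l m i)
    rw [← h.inf_LL hi]
    exact inf_le_right
  unfold cc
  constructor <;> omega

theorem ARD.g_mono (h : ARD N G l E m) {i : ℕ} (hi : i < m) :
    finrank K (G i) - finrank K (N i) ≤ finrank K (G (i + 1)) - finrank K (N (i + 1)) := by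
  have hm : 0 < m := by omega
  have hom := h.om_ne_zero hm
  have hinj : Function.Injective (mu (om l) : MvPolynomial V K →ₗ[K] MvPolynomial V K) := by
    intro x y hxy
    exact mul_left_cancel₀ hom hxy
  have hG : (G i).map (mu (om l)) ≤ G (i + 1) := by
    rw [Submodule.map_le_iff_le_comap]
    intro p hp
    exact h.omG hp
  have f1 := AR6_fin (h.hom (i + 1))
  have f2 := AR6_fin (hG.trans (h.hom (i + 1)))
  have f3 := AR6_fin ((h.le (i + 1)).trans (h.hom (i + 1)))
  have e1 := Submodule.finrank_sup_add_finrank_inf_eq ((G i).map (mu (om l))) (N (i + 1))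
  have e2 : (G i).map (mu (om l)) ⊓ N (i + 1) = (N i).map (mu (om l)) := by
    apply le_antisymm
    · rintro x ⟨⟨g, hg, rfl⟩, hx⟩
      refine ⟨g, ?_, rfl⟩
      have hx' : om l * g ∈ N (i + 1) := hx
      refine h.inj i hi.le g hg ?_
      have h2 := h.omN (m - (i + 1)) (i + 1) hx'
      have e3 : m - (i + 1) + (i + 1) = m := by omega
      have e4 : m - i = m - (i + 1) + 1 := by omega
      rw [e3] at h2
      rw [e4, pow_succ, mul_assoc]
      exact h2
    · rintro x ⟨g, hg, rfl⟩
      refine ⟨⟨g, h.le i hg, rfl⟩, ?_⟩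
      have h2 := h.omN 1 i hg
      rw [pow_one, add_comm] at h2
      exact h2
  have e5 : finrank K (G i) = finrank K ((G i).map (mu (om l))) :=
    (Submodule.equivMapOfInjective (mu (om l)) hinj (G i)).finrank_eq
  have e6 : finrank K (N i) = finrank K ((N i).map (mu (om l))) :=
    (Submodule.equivMapOfInjective (mu (om l)) hinj (N i)).finrank_eq
  have e7 : finrank K ↥((G i).map (mu (om l)) ⊔ N (i + 1)) ≤ finrank K (G (i + 1)) :=
    AR6_rank (sup_le hG (h.le (i + 1))) (h.hom (i + 1))
  rw [e2, ← e5, ← e6] at e1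
  omega

end Pool.Agent.LibHB64
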