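import Pool.Agent.LibHB64.Defs

set_option autoImplicit false

/-!
Definitions for the arithmetic block (AR) of MP_8accfa_co: families of subspaces of homogeneous polynomials over a
field of characteristic zero with derivations.
-/

namespace Pool.Agent.LibHB64

open MvPolynomial Module

variable {V : Type*} [Fintype V] {K : Type*} [Field K] [Algebra ℚ K]

/-- the homogeneous polynomials of degree `i` -/
noncomputable abbrev HH (K : Type*) [Field K] (V : Type*) (i : ℕ) : Submodule K (MvPolynomial V K) :=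
  homogeneousSubmodule V K i

/-- `N ≤ G` are families of subspaces of homogeneous polynomials closed under the variables and under the derivations
`E v` (which kill the variables and satisfy `E v ω = x_v`, `ω = om l`); `ω ^ (m - i)` is injective on `G i` modulo `N` -/
structure ARD (N G : ℕ → Submodule K (MvPolynomial V K)) (l : V → K)
    (E : V → Derivation ℚ (MvPolynomial V K) (MvPolynomial V K)) (m : ℕ) : Prop where
  le : ∀ i, N i ≤ G i
  hom : ∀ i, G i ≤ HH K V i
  NX : ∀ i v p, p ∈ N i → X v * p ∈ N (i + 1)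
  GX : ∀ i v p, p ∈ G i → X v * p ∈ G (i + 1)
  EN : ∀ i v p, p ∈ N i → E v p ∈ N i
  EG : ∀ i v p, p ∈ G i → E v p ∈ G i
  EH : ∀ i v p, p ∈ HH K V i → E v p ∈ HH K V i
  EX : ∀ v w, E v (X w) = 0
  Eo : ∀ v, E v (om l) = X v
  inj : ∀ i, i ≤ m → ∀ g ∈ G i, om l ^ (m - i) * g ∈ N m → g ∈ N i
  G0 : G 0 = ⊥
  ne : N m ≠ HH K V m

variable (N G : ℕ → Submodule K (MvPolynomial V K)) (l : V → K) (m : ℕ)

/-- multiplication by a polynomial -/
noncomputable abbrev mu (p : MvPolynomial V K) : MvPolynomial V K →ₗ[K] MvPolynomial V K := LinearMap.mulLeft K p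

/-- `L_i`: the kernel of `ω ^ (m - i)` modulo `N m` -/
noncomputable def ARL (i : ℕ) : Submodule K (MvPolynomial V K) := HH K V i ⊓ (N m).comap (mu (om l ^ (m - i)))

/-- `W_i = L_i + ω P_(i-1)` -/
noncomputable def WL : ℕ → Submodule K (MvPolynomial V K)
  | 0 => ARL N l m 0
  | i + 1 => ARL N l m (i + 1) ⊔ (HH K V i).map (mu (om l))

/-- `ω ^ a P_(i-a)`, zero for `i < a` -/
noncomputable def RR (i a : ℕ) : Submodule K (MvPolynomial V K) :=
  if a ≤ i then (HH K V (i - a)).map (mu (om l ^ a)) else ⊥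

/-- `y` with `ω ^ a y ∈ ω ^ (a+1) P + G_i + L_i` -/
noncomputable def TA (i a : ℕ) : Submodule K (MvPolynomial V K) :=
  HH K V (i - a) ⊓ (RR l i (a + 1) ⊔ (G i ⊔ ARL N l m i)).comap (mu (om l ^ a))

/-- `p ↦ z ^ a p` into the polynomials with one more variable `z = X none` -/
noncomputable def zz (K : Type*) [Field K] (V : Type*) (a : ℕ) :
    MvPolynomial V K →ₗ[K] MvPolynomial (Option V) K :=
  LinearMap.mulLeft K (X none ^ a : MvPolynomial (Option V) K) ∘ₗ (rename some : MvPolynomial V K →ₐ[K] _).toLinearMap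

/-- `T_i = sum of z ^ a T_i^(a)` -/
noncomputable def TS (i : ℕ) : Submodule K (MvPolynomial (Option V) K) :=
  ⨆ a : Fin (i + 1), (TA N G l m i a).map (zz K V a)

/-- the numbers `c_i` -/
noncomputable def cc (i : ℕ) : ℕ := finrank K (HH K V i) - finrank K (ARL N l m i)

end Pool.Agent.LibHB64
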