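import Pool.Agent.LibHB64.CMDefs

set_option autoImplicit false

/-!
Row CMA1 (MEDIUM). Elementary facts about `mon`, `proj`, `res`, `mulD`. Only Mathlib + CMDefs.

`mem_mon`: `→` by `Submodule.span_induction`; `←` by `p = ∑ α ∈ p.support, monomial α (coeff α p)`, `monomial α c = c • monomial α 1`.
`coeff_proj`: linear in `p`, `basisMonomials`, `Basis.constr_basis`, check on monomials. `coeff_res`: `res` of a monomial `x^α` is `∏ v, (if v ∈ t then X v else 0)^(α v)`, equal to
`x^α` if `α.support ⊆ t` and `0` otherwise. `mulD_mulD`: compare coefficients or show `proj D (p * proj D f) = proj D (p * f)`: the monomials of `f - proj D f` have support outside `D`,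
and so do all their multiples (`D` closed under subsets). Finite dimension: span of a finite set (finitely many exponents of degree `i`), or a submodule of `MvPolynomial.homogeneousSubmodule`
/ `restrictTotalDegree`.
-/

namespace Pool.Agent.LibHB64

open MvPolynomial

variable {V : Type*} [Fintype V] [DecidableEq V] {K : Type*} [Field K] {d : ℕ} {D B : Finset (Finset V)}

theorem mem_mon (X : Finset (Finset V)) (i : ℕ) (p : MvPolynomial V K) :
    p ∈ mon K X i ↔ ∀ α, coeff α p ≠ 0 → α.support ∈ X ∧ α.degree = i := by
  constructor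
  · intro hp
    induction hp using Submodule.span_induction with
    | mem x hx =>
      obtain ⟨a, ha, hi, rfl⟩ := hx
      intro α hα
      rw [coeff_monomial] at hα
      by_cases h : a = α
      · rw [← h]
        exact ⟨ha, hi⟩
      · rw [if_neg h] at hα
        exact absurd rfl hα
    | zero =>
      intro α hα
      rw [coeff_zero] at hα
      exact absurd rfl hα
    | add x y _ _ hx hy =>
      intro α hα
      rw [coeff_add] at hα
      by_cases h : coeff α x = 0
      · rw [h, zero_add] at hα
        exact hy α hα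
      · exact hx α h
    | smul c x _ hx =>
      intro α hα
      rw [coeff_smul, smul_eq_mul] at hα
      exact hx α (right_ne_zero_of_mul hα)
  · intro h
    rw [← support_sum_monomial_coeff p]
    refine Submodule.sum_mem _ fun α hα => ?_
    obtain ⟨h1, h2⟩ := h α (mem_support_iff.1 hα)
    have h3 : monomial α (coeff α p) = coeff α p • (monomial α (1 : K)) := by
      rw [smul_monomial, smul_eq_mul, mul_one]
    rw [h3]
    exact Submodule.smul_mem _ _ (Submodule.subset_span ⟨α, h1, h2, rfl⟩)

theorem mon_mono {X Y : Finset (Finset V)} (h : X ⊆ Y) (i : ℕ) : mon K X i ≤ mon K Y i := by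
  unfold mon
  apply Submodule.span_mono
  rintro p ⟨a, ha, hi, rfl⟩
  exact ⟨a, h ha, hi, rfl⟩

theorem coeff_proj (X : Finset (Finset V)) (p : MvPolynomial V K) (α : V →₀ ℕ) :
    coeff α (proj K X p) = if α.support ∈ X then coeff α p else 0 := by
  induction p using MvPolynomial.induction_on' with
  | monomial u a =>
    have h1 : proj K X (monomial u (1 : K)) = if u.support ∈ X then monomial u 1 else 0 := by
      unfold proj
      have h2 := Module.Basis.constr_basis (basisMonomials V K) K
        (fun a : V →₀ ℕ => if a.support ∈ X then (monomial a (1 : K)) else 0) u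
      rw [coe_basisMonomials] at h2
      exact h2
    have h3 : monomial u a = a • (monomial u (1 : K)) := by
      rw [smul_monomial, smul_eq_mul, mul_one]
    rw [h3, map_smul, h1, coeff_smul, coeff_smul, coeff_monomial]
    by_cases h4 : u = α
    · subst h4
      by_cases h5 : u.support ∈ X
      · rw [if_pos h5, if_pos h5, coeff_monomial]
      · rw [if_neg h5, if_neg h5, coeff_zero, smul_zero]
    · rw [if_neg h4, smul_zero, ite_self]
      by_cases h5 : u.support ∈ X
      · rw [if_pos h5, coeff_monomial, if_neg h4, smul_zero]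
      · rw [if_neg h5, coeff_zero, smul_zero]
  | add p q hp hq =>
    rw [map_add, coeff_add, coeff_add, hp, hq]
    split_ifs
    · rfl
    · rw [add_zero]

theorem coeff_res (t : Finset V) (p : MvPolynomial V K) (α : V →₀ ℕ) :
    coeff α (res K t p) = if α.support ⊆ t then coeff α p else 0 := by
  induction p using MvPolynomial.induction_on' with
  | monomial u a =>
    have h1 : res K t (monomial u a) = if u.support ⊆ t then monomial u a else 0 := by
      unfold res
      rw [aeval_monomial]
      by_cases h : u.support ⊆ t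
      · rw [if_pos h, monomial_eq]
        congr 1
        unfold Finsupp.prod
        refine Finset.prod_congr rfl fun v hv => ?_
        show (if v ∈ t then (X v : MvPolynomial V K) else 0) ^ u v = X v ^ u v
        rw [if_pos (h hv)]
      · rw [if_neg h]
        rw [Finset.not_subset] at h
        obtain ⟨v, hv, hvt⟩ := h
        have h2 : (u.prod fun i k => (if i ∈ t then (X i : MvPolynomial V K) else 0) ^ k) = 0 := by
          unfold Finsupp.prod
          refine Finset.prod_eq_zero hv ?_
          show (if v ∈ t then (X v : MvPolynomial V K) else 0) ^ u v = 0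
          rw [if_neg hvt]
          exact zero_pow (Finsupp.mem_support_iff.1 hv)
        rw [h2, mul_zero]
    rw [h1]
    by_cases h4 : u = α
    · subst h4
      split_ifs
      · rfl
      · rw [coeff_zero]
    · have h6 : coeff α (monomial u a) = 0 := by
        rw [coeff_monomial, if_neg h4]
      rw [h6, ite_self]
      split_ifs
      · exact h6
      · rw [coeff_zero]
  | add p q hp hq =>
    rw [map_add, coeff_add, coeff_add, hp, hq]
    split_ifs
    · rfl
    · rw [add_zero]

theorem res_res {s t : Finset V} (h : s ⊆ t) (p : MvPolynomial V K) : res K s (res K t p) = res K s p := by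
  ext α
  rw [coeff_res, coeff_res, coeff_res]
  by_cases h1 : α.support ⊆ s
  · rw [if_pos h1, if_pos h1, if_pos (h1.trans h)]
  · rw [if_neg h1, if_neg h1]

/-- polynomials supported on `t` are fixed by `res` -/
theorem res_self {t : Finset V} {i : ℕ} {p : MvPolynomial V K} (hp : p ∈ mon K t.powerset i) : res K t p = p := by
  rw [mem_mon] at hp
  ext α
  rw [coeff_res]
  by_cases h1 : coeff α p = 0
  · rw [h1, ite_self]
  · rw [if_pos (Finset.mem_powerset.1 (hp α h1).1)]

theorem res_mon (X : Finset (Finset V)) (t : Finset V) {i : ℕ} {p : MvPolynomial V K} (hp : p ∈ mon K X i) :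
    res K t p ∈ mon K t.powerset i := by
  rw [mem_mon] at hp ⊢
  intro α hα
  rw [coeff_res] at hα
  by_cases h1 : α.support ⊆ t
  · rw [if_pos h1] at hα
    exact ⟨Finset.mem_powerset.2 h1, (hp α hα).2⟩
  · rw [if_neg h1] at hα
    exact absurd rfl hα

private theorem CMA1_supp {α β γ : V →₀ ℕ} (h : β + γ = α) : β.support ⊆ α.support ∧ γ.support ⊆ α.support := by
  subst h
  constructor
  · intro v hv
    rw [Finsupp.mem_support_iff] at hv ⊢
    rw [Finsupp.add_apply]
    omega
  · intro v hv
    rw [Finsupp.mem_support_iff] at hv ⊢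
    rw [Finsupp.add_apply]
    omega

private theorem CMA1_proj (hD : IsCx D) (p g : MvPolynomial V K) :
    proj K D (p * proj K D g) = proj K D (p * g) := by
  ext α
  rw [coeff_proj, coeff_proj]
  by_cases h : α.support ∈ D
  · rw [if_pos h, if_pos h, coeff_mul, coeff_mul]
    refine Finset.sum_congr rfl fun x hx => ?_
    rw [Finset.HasAntidiagonal.mem_antidiagonal] at hx
    rw [coeff_proj, if_pos (hD.2 _ h _ (CMA1_supp hx).2)]
  · rw [if_neg h, if_neg h]

theorem mulD_mulD (hD : IsCx D) (p q f : MvPolynomial V K) : mulD D p (mulD D q f) = mulD D (p * q) f := by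
  show proj K D (p * proj K D (q * f)) = proj K D (p * q * f)
  rw [CMA1_proj hD, mul_assoc]

private theorem CMA1_th (a : Fin d → V → K) (j : Fin d) (β : V →₀ ℕ) (h : coeff β (th a j) ≠ 0) : β.degree = 1 := by
  unfold th at h
  rw [coeff_sum] at h
  obtain ⟨v, _, hv⟩ := Finset.exists_ne_zero_of_sum_ne_zero h
  rw [coeff_C_mul, coeff_X] at hv
  by_cases h1 : Finsupp.single v 1 = β
  · rw [← h1, Finsupp.degree_single]
  · rw [if_neg h1, mul_zero] at hv
    exact absurd rfl hv

private theorem CMA1_mul (p f : MvPolynomial V K) (α : V →₀ ℕ) (h : coeff α (p * f) ≠ 0) :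
    ∃ β γ, β + γ = α ∧ coeff β p ≠ 0 ∧ coeff γ f ≠ 0 := by
  rw [coeff_mul] at h
  obtain ⟨x, hx, hv⟩ := Finset.exists_ne_zero_of_sum_ne_zero h
  rw [Finset.HasAntidiagonal.mem_antidiagonal] at hx
  exact ⟨x.1, x.2, hx, left_ne_zero_of_mul hv, right_ne_zero_of_mul hv⟩

theorem mulD_mon (hD : IsCx D) {M : Finset (Finset V)} (hM : ∀ s ∈ M, ∀ t ∈ D, s ⊆ t → t ∈ M)
    (a : Fin d → V → K) : Stab (fun j => mulD D (th a j)) (mon K M) := by
  intro j i
  rw [Submodule.map_le_iff_le_comap]
  intro f hf
  rw [mem_mon] at hf
  rw [Submodule.mem_comap, mem_mon]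
  intro α hα
  have hα' : coeff α (proj K D (th a j * f)) ≠ 0 := hα
  rw [coeff_proj] at hα'
  by_cases h : α.support ∈ D
  · rw [if_pos h] at hα'
    obtain ⟨β, γ, h1, h2, h3⟩ := CMA1_mul _ _ _ hα'
    obtain ⟨h4, h5⟩ := hf γ h3
    refine ⟨hM _ h4 _ h (CMA1_supp h1).2, ?_⟩
    rw [← h1, map_add, CMA1_th a j β h2, h5, add_comm]
  · rw [if_neg h] at hα'
    exact absurd rfl hα'

theorem Tf_mon (a : Fin d → V → K) (t : Finset V) : Stab (Tf a t) (mon K t.powerset) := by
  intro j i
  rw [Submodule.map_le_iff_le_comap]
  intro f hf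
  rw [mem_mon] at hf
  rw [Submodule.mem_comap, mem_mon]
  intro α hα
  have hα' : coeff α (res K t (th a j) * f) ≠ 0 := hα
  obtain ⟨β, γ, h1, h2, h3⟩ := CMA1_mul _ _ _ hα'
  obtain ⟨h4, h5⟩ := hf γ h3
  rw [coeff_res] at h2
  by_cases h : β.support ⊆ t
  · rw [if_pos h] at h2
    refine ⟨?_, ?_⟩
    · rw [Finset.mem_powerset] at h4 ⊢
      rw [← h1]
      exact Finsupp.support_add.trans (Finset.union_subset h h4)
    · rw [← h1, map_add, CMA1_th a j β h2, h5, add_comm]
  · rw [if_neg h] at h2
    exact absurd rfl h2

theorem mon_finite (X : Finset (Finset V)) (i : ℕ) : FiniteDimensional K (mon K X i) := by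
  unfold mon
  apply FiniteDimensional.span_of_finite
  refine Set.Finite.subset ((Finset.finite_toSet (Finset.finsuppAntidiag (Finset.univ : Finset V) i)).image
    fun a => monomial a (1 : K)) ?_
  rintro p ⟨a, _, hi, rfl⟩
  refine ⟨a, ?_, rfl⟩
  rw [Finset.mem_coe, Finset.mem_finsuppAntidiag]
  refine ⟨?_, Finset.subset_univ _⟩
  rw [← hi, Finsupp.degree_eq_sum]

/-- evaluation at a point supported on `t` sees only the restriction to `t` -/
theorem aeval_res {t : Finset V} {c : V → K} (hc : ∀ v, v ∉ t → c v = 0) (p : MvPolynomial V K) :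
    aeval c (res K t p) = (aeval c p : K) := by
  have h : (aeval c : MvPolynomial V K →ₐ[K] K).comp (res K t) = (aeval c : MvPolynomial V K →ₐ[K] K) := by
    apply MvPolynomial.algHom_ext
    intro v
    rw [AlgHom.comp_apply]
    unfold res
    rw [aeval_X, aeval_X]
    by_cases hv : v ∈ t
    · rw [if_pos hv, aeval_X]
    · rw [if_neg hv, map_zero, hc v hv]
  exact DFunLike.congr_fun h p

theorem aeval_proj (hD : IsCx D) {t : Finset V} (ht : t ∈ D) {c : V → K} (hc : ∀ v, v ∉ t → c v = 0)
    (p : MvPolynomial V K) : aeval c (proj K D p) = (aeval c p : K) := by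
  rw [← aeval_res hc (proj K D p), ← aeval_res hc p]
  congr 1
  ext α
  rw [coeff_res, coeff_res, coeff_proj]
  by_cases h : α.support ⊆ t
  · rw [if_pos h, if_pos h, if_pos (hD.2 t ht _ h)]
  · rw [if_neg h, if_neg h]

end Pool.Agent.LibHB64
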