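import Pool.Agent.LibHB64.CMA1

set_option autoImplicit false

/-!
Row CMA8 (MEDIUM). The differential. Uses CMA1.

`dd_TT`: at `t ∈ X`: `res t (res (insert v t) θ * f (insert v t)) = res t θ * res t (f (insert v t))` (`res` is a ring homomorphism, `res_res`). `TT_comm`: `mul_left_comm`.
`dd_CC`: `f ∈ CC K X (n + 1) i`. Support and degree of `dd f`: `res_mon`, `insert v t` has size `n + 1`. `dd (dd f) = 0`: at `t ∈ X`:
`∑ v ∉ t, res t (if insert v t ∈ X then ∑ w ∉ insert v t, res (insert v t) (f (insert w (insert v t))) else 0)`; if `insert v t ∉ X` then `f (insert w (insert v t)) = 0` by `Cvx` (`t ∈ X`, and `insert w (insert v t) ∈ X` if the value is nonzero),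
so the condition can be dropped; the terms for `(v, w)` and `(w, v)` are equal and cancel (`CharTwo.add_self_eq_zero`, `Finset.sum_involution` over pairs `v ≠ w` outside `t`).
-/

namespace Pool.Agent.LibHB64

open MvPolynomial

variable {V : Type*} [Fintype V] [DecidableEq V] {K : Type*} [Field K] {d : ℕ} {D B : Finset (Finset V)}

theorem dd_TT (a : Fin d → V → K) (X : Finset (Finset V)) (j : Fin d) (f : Finset V → MvPolynomial V K) :
    dd K X (TT a j f) = TT a j (dd K X f) := by
  funext t
  rw [dd_apply, TT_apply, dd_apply]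
  by_cases ht : t ∈ X
  · rw [if_pos ht, if_pos ht, Finset.mul_sum]
    refine Finset.sum_congr rfl (fun v _ => ?_)
    rw [TT_apply, map_mul, res_res (Finset.subset_insert v t)]
  · rw [if_neg ht, if_neg ht, mul_zero]

theorem TT_comm (a : Fin d → V → K) (j l : Fin d) (f : Finset V → MvPolynomial V K) :
    TT a j (TT a l f) = TT a l (TT a j f) := by
  funext t
  rw [TT_apply, TT_apply, TT_apply, TT_apply, mul_left_comm]

private theorem CMA8_sym {R ι : Type*} [Ring R] [CharP R 2] [DecidableEq ι] (s : Finset ι)
    (F : ι → ι → R) (hs : ∀ v w, F v w = F w v) (h0 : ∀ v, F v v = 0) :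
    ∑ v ∈ s, ∑ w ∈ s, F v w = 0 := by
  rw [← Finset.sum_product' s s F]
  refine Finset.sum_involution (fun a _ => (a.2, a.1)) ?_ ?_ ?_ ?_
  · intro a _
    show F a.1 a.2 + F a.2 a.1 = 0
    rw [hs a.2 a.1]
    exact CharTwo.add_self_eq_zero _
  · intro a _ ha h
    have h1 : a.2 = a.1 := congrArg Prod.fst h
    rw [h1] at ha
    exact ha (h0 a.1)
  · intro a ha
    rw [Finset.mem_product] at ha ⊢
    exact ⟨ha.2, ha.1⟩
  · intro a _
    rfl

theorem dd_CC [CharP K 2] {X : Finset (Finset V)} (hX : Cvx X) {n i : ℕ} {f : Finset V → MvPolynomial V K}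
    (hf : f ∈ CC K X (n + 1) i) : dd K X f ∈ ZZ K X n i := by
  rw [mem_CC] at hf
  unfold ZZ
  rw [Submodule.mem_inf]
  constructor
  · rw [mem_CC]
    intro t
    rw [dd_apply]
    by_cases ht : t ∈ X
    · rw [if_pos ht]
      constructor
      · intro hne
        obtain ⟨v, hv, hv0⟩ := Finset.exists_ne_zero_of_sum_ne_zero hne
        have h1 : f (insert v t) ≠ 0 := by
          intro h
          rw [h, map_zero] at hv0
          exact hv0 rfl
        have h2 := ((hf (insert v t)).1 h1).2
        rw [Finset.card_insert_of_notMem (Finset.mem_compl.mp hv)] at h2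
        exact ⟨ht, by omega⟩
      · refine Submodule.sum_mem _ (fun v _ => ?_)
        exact res_mon _ t (hf (insert v t)).2
    · rw [if_neg ht]
      exact ⟨fun h => absurd rfl h, Submodule.zero_mem _⟩
  · rw [LinearMap.mem_ker]
    funext t
    rw [dd_apply, Pi.zero_apply]
    by_cases ht : t ∈ X
    · rw [if_pos ht]
      have key : ∀ v ∈ tᶜ, res K t (dd K X f (insert v t)) =
          ∑ w ∈ tᶜ, if v = w then 0 else res K t (f (insert w (insert v t))) := by
        intro v hv
        have h1 : ∑ w ∈ tᶜ, (if v = w then 0 else res K t (f (insert w (insert v t)))) =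
            ∑ w ∈ (insert v t)ᶜ, res K t (f (insert w (insert v t))) := by
          have h2 : (insert v t)ᶜ = tᶜ.erase v := by
            ext w
            simp only [Finset.mem_compl, Finset.mem_insert, Finset.mem_erase, not_or, ne_eq]
          rw [h2, ← Finset.add_sum_erase tᶜ _ hv, if_pos rfl, zero_add]
          refine Finset.sum_congr rfl (fun w hw => ?_)
          rw [if_neg (Finset.ne_of_mem_erase hw).symm]
        rw [h1, dd_apply]
        by_cases hvt : insert v t ∈ X
        · rw [if_pos hvt, map_sum]
          refine Finset.sum_congr rfl (fun w _ => ?_)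
          rw [res_res (Finset.subset_insert v t)]
        · rw [if_neg hvt, map_zero]
          symm
          refine Finset.sum_eq_zero (fun w _ => ?_)
          have h3 : f (insert w (insert v t)) = 0 := by
            by_contra h4
            have h5 := ((hf _).1 h4).1
            exact hvt (hX t ht _ h5 _ (Finset.subset_insert v t) (Finset.subset_insert w _))
          rw [h3, map_zero]
      rw [Finset.sum_congr rfl key]
      apply CMA8_sym
      · intro v w
        by_cases hvw : v = w
        · rw [if_pos hvw, if_pos hvw.symm]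
        · rw [if_neg hvw, if_neg (fun h => hvw h.symm), Finset.insert_comm]
      · intro v
        rw [if_pos rfl]
    · rw [if_neg ht]

end Pool.Agent.LibHB64
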