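import Pool.Agent.LibHB64.CMA1

set_option autoImplicit false

/-!
Row CMA9 (MEDIUM). Exactness of the complex of modules, monomial by monomial. Uses CMA1.

For an exponent `α` let `c_α t = coeff α (f t)`, `s = α.support`. `f ∈ CC K X n i` gives `RCh X s n c_α` (if `coeff α (f t) ≠ 0` then `s ⊆ t`, `t ∈ X`, `t.card = n`), and `dd f = 0` gives `RCyc X s c_α`: for `t ∈ X`, `s ⊆ t`:
`0 = coeff α (dd f t) = ∑ v ∈ tᶜ, coeff α (f (insert v t))` (`coeff_res`). If `c_α ≠ 0` then `s ⊆ t ∈ X ⊆ D`, so `s ∈ D` (`hD.2`) and `hac` gives `b_α`, a chain of size `n + 1`; for the other `α` take `b_α = 0`.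
`g t = ∑ α ∈ A, monomial α (b_α t)`, `A` = union of the supports of all the `f t` (finite; all of degree `i`). Check coefficients: `coeff α (g t) = b_α t` for `α ∈ A`, `0` otherwise;
`coeff α (dd g t) = (if α.support ⊆ t then ∑ v ∈ tᶜ, b_α (insert v t) else 0) = c_α t` for `t ∈ X` (if `¬ s ⊆ t`, both sides are `0`), and both are `0` for `t ∉ X`.
-/

namespace Pool.Agent.LibHB64

open MvPolynomial

variable {V : Type*} [Fintype V] [DecidableEq V] {K : Type*} [Field K] {d : ℕ} {D B : Finset (Finset V)}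

theorem exact_CC (hD : IsCx D) {X : Finset (Finset V)} (hX : X ⊆ D) {n : ℕ} (hac : ∀ s ∈ D, RAcyc K X s n) {i : ℕ}
    {f : Finset V → MvPolynomial V K} (hf : f ∈ ZZ K X n i) : ∃ g ∈ CC K X (n + 1) i, dd K X g = f := by
  classical
  obtain ⟨hC, hk⟩ := hf
  rw [SetLike.mem_coe, LinearMap.mem_ker] at hk
  have hC' := (mem_CC X n i f).1 hC
  have h1 : ∀ (α : V →₀ ℕ) (t : Finset V), coeff α (f t) ≠ 0 → t ∈ X ∧ α.support ⊆ t ∧ t.card = n ∧ α.degree = i := by
    intro α t h
    have hne : f t ≠ 0 := by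
      intro h0
      simp [h0] at h
    have h2 := (mem_mon _ _ _).1 (hC' t).2 α h
    exact ⟨((hC' t).1 hne).1, Finset.mem_powerset.1 h2.1, ((hC' t).1 hne).2, h2.2⟩
  have h2 : ∀ α : V →₀ ℕ, ∀ t ∈ X, α.support ⊆ t → ∑ v ∈ tᶜ, coeff α (f (insert v t)) = 0 := by
    intro α t ht hs
    have h3 := congrFun hk t
    rw [dd_apply, if_pos ht] at h3
    have h4 := congrArg (coeff α) h3
    simpa [coeff_sum, coeff_res, hs] using h4
  have h3 : ∀ α : V →₀ ℕ, ∃ b : Finset V → K, RCh X α.support (n + 1) b ∧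
      ((∃ t, coeff α (f t) ≠ 0) ∨ ∀ t, b t = 0) ∧
      ∀ t ∈ X, α.support ⊆ t → ∑ v ∈ tᶜ, b (insert v t) = coeff α (f t) := by
    intro α
    by_cases h : ∃ t, coeff α (f t) ≠ 0
    · obtain ⟨t, ht⟩ := h
      have hs : α.support ∈ D := hD.2 _ (hX (h1 α t ht).1) _ (h1 α t ht).2.1
      obtain ⟨b, hb1, hb2⟩ := hac _ hs (fun t => coeff α (f t))
        (fun t ht => ⟨(h1 α t ht).1, (h1 α t ht).2.1, (h1 α t ht).2.2.1⟩) (fun t ht hs => h2 α t ht hs)
      exact ⟨b, hb1, Or.inl ⟨t, ht⟩, hb2⟩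
    · push Not at h
      exact ⟨fun _ => 0, fun t ht => absurd rfl ht, Or.inr fun _ => rfl, fun t _ _ => by simp [h t]⟩
  choose b hb1 hb2 hb3 using h3
  have hA : ∀ α : V →₀ ℕ, α ∈ (Finset.univ.biUnion fun t => (f t).support) ↔ ∃ t, coeff α (f t) ≠ 0 := by
    intro α
    simp
  have hco : ∀ (t : Finset V) (α : V →₀ ℕ),
      coeff α (∑ β ∈ (Finset.univ.biUnion fun t => (f t).support), monomial β (b β t)) = b α t := by
    intro t α
    rw [coeff_sum]
    simp only [coeff_monomial]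
    rw [Finset.sum_ite_eq']
    split_ifs with h
    · rfl
    · rw [hA] at h
      rcases hb2 α with h' | h'
      · exact absurd h' h
      · exact (h' t).symm
  refine ⟨fun t => ∑ β ∈ (Finset.univ.biUnion fun t => (f t).support), monomial β (b β t), ?_, ?_⟩
  · rw [mem_CC]
    intro t
    constructor
    · intro hne
      obtain ⟨α, hα⟩ := ne_zero_iff.1 hne
      rw [hco] at hα
      exact ⟨(hb1 α t hα).1, (hb1 α t hα).2.2⟩
    · rw [mem_mon]
      intro α hα
      rw [hco] at hα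
      refine ⟨Finset.mem_powerset.2 (hb1 α t hα).2.1, ?_⟩
      rcases hb2 α with ⟨t', ht'⟩ | h0
      · exact (h1 α t' ht').2.2.2
      · exact absurd (h0 t) hα
  · funext t
    rw [dd_apply]
    by_cases ht : t ∈ X
    · rw [if_pos ht]
      ext α
      rw [coeff_sum]
      simp only [coeff_res, hco]
      by_cases hs : α.support ⊆ t
      · simp only [hs, if_true]
        exact hb3 α t ht hs
      · simp only [hs, if_false, Finset.sum_const_zero]
        by_contra hne
        exact hs (h1 α t (Ne.symm hne)).2.1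
    · rw [if_neg ht]
      by_contra hne
      exact ht ((hC' t).1 (Ne.symm hne)).1

end Pool.Agent.LibHB64
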