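import Pool.Agent.LibHB64.CMA7
import Pool.Agent.LibHB64.CMA8
import Pool.Agent.LibHB64.CMA9

set_option autoImplicit false

/-!
Row CMA10 (SHORT). `θ_1, ..., θ_n` is regular on the cycles of size `n`. Uses CMA2, CMA7, CMA8, CMA9.

Induction on `n`: `n = 0` nothing to prove. `n + 1 ≤ d`: `greg_ker` with `C = CC K X (n + 1)`, `δ = dd K X`, `Y = ZZ K X n` (`(C i).map δ = Y i`: `dd_CC` and `exact_CC`), `GReg (TT a) (n + 1) C` is `greg_CC`.
`inj_ZZ`: `inj_ker` with `C = CC K X d`, `Y = ZZ K X (d - 1)`, `k = d - 1`.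
-/

namespace Pool.Agent.LibHB64

open MvPolynomial

variable {V : Type*} [Fintype V] [DecidableEq V] {K : Type*} [Field K] {d : ℕ} {D B : Finset (Finset V)}

theorem greg_ZZ [CharP K 2] (hD : IsCx D) {a : Fin d → V → K} (hg : Gen D a) {X : Finset (Finset V)} (hX : X ⊆ D)
    (hX' : Cvx X) (hac : ∀ n, n < d → ∀ s ∈ D, RAcyc K X s n) (n : ℕ) (hn : n ≤ d) : GReg (TT a) n (ZZ K X n) := by
  induction n with
  | zero =>
    intro j hj
    exact absurd hj (Nat.not_lt_zero _)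
  | succ n ih =>
    have hY : ∀ i, (CC K X (n + 1) i).map (dd K X) = ZZ K X n i := by
      intro i
      apply le_antisymm
      · rw [Submodule.map_le_iff_le_comap]
        intro f hf
        exact dd_CC hX' hf
      · intro f hf
        obtain ⟨g, hg1, hg2⟩ := exact_CC hD hX (hac n (by omega)) hf
        exact ⟨g, hg1, hg2⟩
    exact greg_ker (TT_comm a) (dd K X) (fun j f => dd_TT a X j f) (stab_CC a X (n + 1)) hY
      (ih (by omega)) (greg_CC hg hX hn)

theorem inj_ZZ [CharP K 2] (hD : IsCx D) {a : Fin d → V → K} (hg : Gen D a) {X : Finset (Finset V)} (hX : X ⊆ D)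
    (hX' : Cvx X) (hac : ∀ n, n < d → ∀ s ∈ D, RAcyc K X s n) (hd : 1 ≤ d) (i : ℕ)
    (f : Finset V → MvPolynomial V K) (hf : f ∈ ZZ K X d i) (hS : f ∈ SS (TT a) (d - 1) (CC K X d) i) :
    f ∈ SS (TT a) (d - 1) (ZZ K X d) i := by
  have hY : ∀ i, (CC K X d i).map (dd K X) = ZZ K X (d - 1) i := by
    intro i
    obtain ⟨e, rfl⟩ : ∃ e, d = e + 1 := ⟨d - 1, by omega⟩
    rw [Nat.add_sub_cancel]
    apply le_antisymm
    · rw [Submodule.map_le_iff_le_comap]
      intro f hf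
      exact dd_CC hX' hf
    · intro f hf
      obtain ⟨g, hg1, hg2⟩ := exact_CC hD hX (hac e (by omega)) hf
      exact ⟨g, hg1, hg2⟩
  exact inj_ker (TT_comm a) (dd K X) (fun j f => dd_TT a X j f) (stab_CC a X d) hY
    (greg_ZZ hD hg hX hX' hac (d - 1) (by omega)) i f hf.1 hf.2 hS

end Pool.Agent.LibHB64
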