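import Pool.Agent.LibHB64.CMH4

set_option autoImplicit false

/-!
Row CMH5 (MEDIUM). The relative cycle is constant; interior ridges are in an even number of facets. Uses CMH2, CMH4.

`rconst_int`: strong induction on `d - s.card` (`z` a cycle of size `d` of `D \ B` above `s`, `F`, `G` facets containing `s`).
* `s.card = d`: `F = s = G`.
* `s.card + 1 = d`: suppose `F ≠ G`. If `s ∈ B`: the indicator functions of `F` and of `G` are both nonzero cycles of `D \ B` (the cycle condition is
  only for `t ∈ D \ B`, `s ⊆ t`; `t.card = d - 1` forces `t = s`), contradiction to `rone_int`. If `s ∉ B`: indicator of `{F, G}` is a nonzero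
  cycle; so `z = 0` or `z =` this indicator, in both cases `z F = z G`.
* `s.card + 2 ≤ d`: for `v ∉ s` with `insert v s ∈ D` the restriction `z_v t = if v ∈ t then z t else 0` is a cycle above `insert v s`
  (for `v ∈ t` the sum is the same). By induction `z` is constant on the facets containing `insert v s`; let `χ v` be this constant
  (`pure`: there is such a facet). If `insert v (insert w s) ∈ D` (`v ≠ w` not in `s`) then `χ v = χ w` (`pure`: a facet containing both). Take
  `v ∈ F \ s`, `w ∈ G \ s`; if `v ≠ w`, the chain `c` = indicator of `insert v s` plus indicator of `insert w s` of size `s.card + 1 < d` is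
  a cycle of `D` above `s` (at `t = s` the sum is `1 + 1 = 0`); `racyc_D`: `c = ∂ b`. Then
  `χ v + χ w = ∑_u χ u * c (insert u s) = ∑_{u ≠ x, not in s} χ u * b (insert x (insert u s)) = 0` (`Finset.sum_involution`, swap `u` and `x`: nonzero
  `b` means a face so `χ u = χ x`, and the two terms cancel in `ZMod 2`).
`even_ridge`: `rone_int` with `s = t` gives a nonzero cycle `z`, by `rconst_int` it is the constant `1` on the facets containing `t`; the cycle
condition at `t` is `(number of facets) = 0` in `ZMod 2`.
-/

namespace Pool.Agent.LibHB64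

variable {V : Type*} [Fintype V] [DecidableEq V] {d : ℕ} {D B : Finset (Finset V)}

/-- the indicator function of `F` -/
private def CMH5_ind (F : Finset V) (t : Finset V) : ZMod 2 := if t = F then 1 else 0

omit [Fintype V] in
private theorem CMH5_ind_self (F : Finset V) : CMH5_ind F F = 1 := if_pos rfl

omit [Fintype V] in
private theorem CMH5_ind_ne {F t : Finset V} (h : t ≠ F) : CMH5_ind F t = 0 := if_neg h

private theorem CMH5_sum_card {F t : Finset V} (h : t.card + 1 ≠ F.card) :
    ∑ v ∈ tᶜ, CMH5_ind F (insert v t) = 0 := by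
  refine Finset.sum_eq_zero fun v hv => CMH5_ind_ne fun he => h ?_
  rw [Finset.mem_compl] at hv
  rw [← he, Finset.card_insert_of_notMem hv]

private theorem CMH5_sum_one {w : V} {t : Finset V} (hw : w ∉ t) :
    ∑ v ∈ tᶜ, CMH5_ind (insert w t) (insert v t) = 1 := by
  rw [Finset.sum_eq_single w]
  · exact CMH5_ind_self _
  · intro v hv hvw
    rw [Finset.mem_compl] at hv
    refine CMH5_ind_ne fun he => hvw ?_
    have h1 : v ∈ insert w t := he ▸ Finset.mem_insert_self v t
    rcases Finset.mem_insert.mp h1 with h2 | h2
    · exact h2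
    · exact absurd h2 hv
  · intro h
    exact absurd (Finset.mem_compl.mpr hw) h

omit [Fintype V] in
private theorem CMH5_exists {s F : Finset V} (hsF : s ⊆ F) (hc : s.card < F.card) : ∃ v, v ∉ s ∧ v ∈ F := by
  obtain ⟨v, hv, hv'⟩ := Finset.exists_of_ssubset (Finset.ssubset_iff_subset_ne.mpr ⟨hsF, fun h => by
    rw [h] at hc; exact lt_irrefl _ hc⟩)
  exact ⟨v, hv', hv⟩

omit [Fintype V] in
private theorem CMH5_eq_insert {s F : Finset V} (hsF : s ⊆ F) (hc : s.card + 1 = F.card) :
    ∃ v, v ∉ s ∧ F = insert v s := by
  obtain ⟨v, hv, hvF⟩ := CMH5_exists hsF (by omega)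
  refine ⟨v, hv, ?_⟩
  symm
  apply Finset.eq_of_subset_of_card_le
  · intro x hx
    rcases Finset.mem_insert.mp hx with h | h
    · rw [h]; exact hvF
    · exact hsF h
  · rw [Finset.card_insert_of_notMem hv]
    omega

private theorem CMH5_two (a b : ZMod 2) (h : a + b = 0) : a = b := by
  have := eq_neg_of_add_eq_zero_left h
  rw [this, CharTwo.neg_eq]

theorem rconst_int (h : HBallB d D B) {s : Finset V} (hs : s ∈ D) : RConst (ZMod 2) (D \ B) s d := by
  induction hk : d - s.card using Nat.strong_induction_on generalizing s with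
  | _ k ih =>
  intro z hz hcyc F hF G hG hsF hsG hFc hGc
  by_cases hFG : F = G
  · rw [hFG]
  have hslt : s.card < d := by
    by_contra hcon
    apply hFG
    have h1 : s = F := Finset.eq_of_subset_of_card_le hsF (by omega)
    have h2 : s = G := Finset.eq_of_subset_of_card_le hsG (by omega)
    rw [← h1, ← h2]
  have hcx := h.cx.2
  by_cases h1 : s.card + 1 = d
  · obtain ⟨v0, hv0, hFv⟩ := CMH5_eq_insert hsF (by omega)
    obtain ⟨w0, hw0, hGw⟩ := CMH5_eq_insert hsG (by omega)
    obtain ⟨z0, hz0, hcyc0, ⟨t0, ht0⟩, huniq⟩ := rone_int h hs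
    have hcase : ∀ t : Finset V, s ⊆ t → t.card + 1 = d → t = s := by
      intro t hst ht
      exact (Finset.eq_of_subset_of_card_le hst (by omega)).symm
    by_cases hsB : s ∈ B
    · exfalso
      have key : ∀ F' ∈ D \ B, s ⊆ F' → F'.card = d → ∀ t, CMH5_ind F' t = z0 t := by
        intro F' hF' hsF' hF'c
        have hch : RCh (D \ B) s d (CMH5_ind F') := by
          intro t ht
          have : t = F' := by
            by_contra hne
            exact ht (CMH5_ind_ne hne)
          rw [this]
          exact ⟨hF', hsF', hF'c⟩
        have hcy : RCyc (D \ B) s (CMH5_ind F') := by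
          intro t ht hst
          apply CMH5_sum_card
          intro hc
          have := hcase t hst (by omega)
          rw [this] at ht
          exact (Finset.mem_sdiff.mp ht).2 hsB
        rcases huniq _ hch hcy with h2 | h2
        · have := h2 F'
          rw [CMH5_ind_self] at this
          exact absurd this one_ne_zero
        · exact h2
      have h3 := key F hF hsF hFc F
      have h4 := key G hG hsG hGc F
      rw [CMH5_ind_self] at h3
      rw [CMH5_ind_ne hFG, ← h3] at h4
      exact one_ne_zero h4.symm
    · have hch : RCh (D \ B) s d (fun t => CMH5_ind F t + CMH5_ind G t) := by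
        intro t ht
        by_cases h2 : t = F
        · rw [h2]; exact ⟨hF, hsF, hFc⟩
        · by_cases h3 : t = G
          · rw [h3]; exact ⟨hG, hsG, hGc⟩
          · exfalso
            apply ht
            show CMH5_ind F t + CMH5_ind G t = 0
            rw [CMH5_ind_ne h2, CMH5_ind_ne h3, add_zero]
      have hcy : RCyc (D \ B) s (fun t => CMH5_ind F t + CMH5_ind G t) := by
        intro t ht hst
        show ∑ v ∈ tᶜ, (CMH5_ind F (insert v t) + CMH5_ind G (insert v t)) = 0
        rw [Finset.sum_add_distrib]
        by_cases hc : t.card + 1 = d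
        · have hts := hcase t hst hc
          subst hts
          rw [hFv, hGw, CMH5_sum_one hv0, CMH5_sum_one hw0]
          exact CharTwo.add_self_eq_zero 1
        · rw [CMH5_sum_card (by omega), CMH5_sum_card (by omega), add_zero]
      have h2 : ∀ t, CMH5_ind F t + CMH5_ind G t = z0 t := by
        rcases huniq _ hch hcy with h2 | h2
        · have h3 : CMH5_ind F F + CMH5_ind G F = 0 := h2 F
          rw [CMH5_ind_self, CMH5_ind_ne hFG, add_zero] at h3
          exact absurd h3 one_ne_zero
        · exact h2
      rcases huniq z hz hcyc with h3 | h3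
      · rw [h3 F, h3 G]
      · rw [h3 F, h3 G, ← h2 F, ← h2 G, CMH5_ind_self, CMH5_ind_self, CMH5_ind_ne hFG,
          CMH5_ind_ne (Ne.symm hFG)]
        rfl
  · have h2 : s.card + 1 < d := by omega
    -- the constants
    have hP : ∀ v, v ∉ s → ∀ F' ∈ D, ∀ G' ∈ D, insert v s ⊆ F' → insert v s ⊆ G' → F'.card = d →
        G'.card = d → z F' = z G' := by
      intro v hv F' hF' G' hG' hsF' hsG' hF'c hG'c
      have hvD : insert v s ∈ D := hcx F' hF' _ hsF'
      have hcard : (insert v s).card = s.card + 1 := Finset.card_insert_of_notMem hv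
      have hF'i : F' ∈ D \ B := fac_int h (by
        unfold Fac; rw [Finset.mem_filter]; exact ⟨hF', hF'c⟩)
      have hG'i : G' ∈ D \ B := fac_int h (by
        unfold Fac; rw [Finset.mem_filter]; exact ⟨hG', hG'c⟩)
      have hch : RCh (D \ B) (insert v s) d (fun t => if v ∈ t then z t else 0) := by
        intro t ht
        have hvt : v ∈ t := by
          by_contra hne
          exact ht (if_neg hne)
        have hzt : z t ≠ 0 := by
          intro h0
          apply ht
          show (if v ∈ t then z t else 0) = 0
          rw [if_pos hvt, h0]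
        obtain ⟨h3, h4, h5⟩ := hz t hzt
        exact ⟨h3, Finset.insert_subset hvt h4, h5⟩
      have hcy : RCyc (D \ B) (insert v s) (fun t => if v ∈ t then z t else 0) := by
        intro t ht hst
        have h3 := hcyc t ht ((Finset.subset_insert v s).trans hst)
        rw [← h3]
        refine Finset.sum_congr rfl fun u _ => ?_
        exact if_pos (Finset.mem_insert_of_mem (hst (Finset.mem_insert_self v s)))
      have h3 := ih (d - (insert v s).card) (by rw [hcard]; omega) hvD rfl _ hch hcy F' hF'i G' hG'i
        hsF' hsG' hF'c hG'c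
      have h4 : v ∈ F' := hsF' (Finset.mem_insert_self v s)
      have h5 : v ∈ G' := hsG' (Finset.mem_insert_self v s)
      simpa [h4, h5] using h3
    let χ : V → ZMod 2 := fun v => if hv : insert v s ∈ D then z (Classical.choose (pure h _ hv)) else 0
    have hχ : ∀ v, v ∉ s → ∀ F' ∈ D, insert v s ⊆ F' → F'.card = d → z F' = χ v := by
      intro v hv F' hF' hsF' hF'c
      have hvD : insert v s ∈ D := hcx F' hF' _ hsF'
      have h3 : χ v = z (Classical.choose (pure h _ hvD)) := dif_pos hvD
      obtain ⟨h4, h5⟩ := Classical.choose_spec (pure h _ hvD)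
      rw [h3]
      unfold Fac at h4
      rw [Finset.mem_filter] at h4
      exact hP v hv F' hF' _ h4.1 hsF' h5 hF'c h4.2
    have hχχ : ∀ v w, v ∉ s → w ∉ s → insert v (insert w s) ∈ D → χ v = χ w := by
      intro v w hv hw hD
      obtain ⟨F', hF', hsF'⟩ := pure h _ hD
      unfold Fac at hF'
      rw [Finset.mem_filter] at hF'
      rw [← hχ v hv F' hF'.1 ?_ hF'.2, ← hχ w hw F' hF'.1 ?_ hF'.2]
      · exact (Finset.subset_insert v _).trans hsF'
      · refine Finset.Subset.trans ?_ hsF'
        exact Finset.insert_subset_insert v (Finset.subset_insert w s)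
    obtain ⟨v, hv, hvF⟩ := CMH5_exists hsF (by omega)
    obtain ⟨w, hw, hwG⟩ := CMH5_exists hsG (by omega)
    have hFD : F ∈ D := (Finset.mem_sdiff.mp hF).1
    have hGD : G ∈ D := (Finset.mem_sdiff.mp hG).1
    have hzF := hχ v hv F hFD (Finset.insert_subset hvF hsF) hFc
    have hzG := hχ w hw G hGD (Finset.insert_subset hwG hsG) hGc
    rw [hzF, hzG]
    by_cases hvw : v = w
    · rw [hvw]
    have hvD : insert v s ∈ D := hcx F hFD _ (Finset.insert_subset hvF hsF)
    have hwD : insert w s ∈ D := hcx G hGD _ (Finset.insert_subset hwG hsG)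
    have hcv : (insert v s).card = s.card + 1 := Finset.card_insert_of_notMem hv
    have hcw : (insert w s).card = s.card + 1 := Finset.card_insert_of_notMem hw
    have hch : RCh D s (s.card + 1) (fun t => CMH5_ind (insert v s) t + CMH5_ind (insert w s) t) := by
      intro t ht
      by_cases h3 : t = insert v s
      · rw [h3]; exact ⟨hvD, Finset.subset_insert v s, hcv⟩
      · by_cases h4 : t = insert w s
        · rw [h4]; exact ⟨hwD, Finset.subset_insert w s, hcw⟩
        · exfalso
          apply ht
          show CMH5_ind (insert v s) t + CMH5_ind (insert w s) t = 0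
          rw [CMH5_ind_ne h3, CMH5_ind_ne h4, add_zero]
    have hcy : RCyc D s (fun t => CMH5_ind (insert v s) t + CMH5_ind (insert w s) t) := by
      intro t ht hst
      show ∑ x ∈ tᶜ, (CMH5_ind (insert v s) (insert x t) + CMH5_ind (insert w s) (insert x t)) = 0
      rw [Finset.sum_add_distrib]
      by_cases hts : t = s
      · subst hts
        rw [CMH5_sum_one hv, CMH5_sum_one hw]
        exact CharTwo.add_self_eq_zero 1
      · have hlt : s.card < t.card := Finset.card_lt_card (Finset.ssubset_iff_subset_ne.mpr ⟨hst, Ne.symm hts⟩)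
        rw [CMH5_sum_card (by omega), CMH5_sum_card (by omega), add_zero]
    obtain ⟨b, hb, hbc⟩ := racyc_D h hs h2 _ hch hcy
    apply CMH5_two
    have hc : ∀ u ∈ sᶜ, CMH5_ind (insert v s) (insert u s) + CMH5_ind (insert w s) (insert u s) =
        ∑ x ∈ (insert u s)ᶜ, b (insert x (insert u s)) := by
      intro u hu
      by_cases huD : insert u s ∈ D
      · exact (hbc _ huD (Finset.subset_insert u s)).symm
      · rw [CMH5_ind_ne, CMH5_ind_ne, add_zero]
        · symm
          refine Finset.sum_eq_zero fun x _ => ?_
          by_contra hne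
          exact huD (hcx _ (hb _ hne).1 _ (Finset.subset_insert x _))
        · intro he
          exact huD (he ▸ hwD)
        · intro he
          exact huD (he ▸ hvD)
    have hsum1 : χ v + χ w = ∑ u ∈ sᶜ, χ u * (CMH5_ind (insert v s) (insert u s) +
        CMH5_ind (insert w s) (insert u s)) := by
      have hone : ∀ v', v' ∉ s → ∑ u ∈ sᶜ, χ u * CMH5_ind (insert v' s) (insert u s) = χ v' := by
        intro v' hv'
        rw [Finset.sum_eq_single v']
        · rw [CMH5_ind_self, mul_one]
        · intro u hu huv
          rw [Finset.mem_compl] at hu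
          rw [CMH5_ind_ne, mul_zero]
          intro he
          have h6 : u ∈ insert v' s := he ▸ Finset.mem_insert_self u s
          rcases Finset.mem_insert.mp h6 with h7 | h7
          · exact huv h7
          · exact hu h7
        · intro h6
          exact absurd (Finset.mem_compl.mpr hv') h6
      simp only [mul_add, Finset.sum_add_distrib]
      rw [hone v hv, hone w hw]
    rw [hsum1, Finset.sum_congr rfl fun u hu => by rw [hc u hu, Finset.mul_sum]]
    rw [Finset.sum_sigma']
    refine Finset.sum_involution (fun p _ => ⟨p.2, p.1⟩) ?_ ?_ ?_ ?_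
    · rintro ⟨u, x⟩ hp
      rw [Finset.mem_sigma] at hp
      simp only [Finset.mem_compl, Finset.mem_insert, not_or] at hp
      show χ u * b (insert x (insert u s)) + χ x * b (insert u (insert x s)) = 0
      have hcomm : insert u (insert x s) = insert x (insert u s) := Finset.insert_comm u x s
      rw [hcomm]
      by_cases hb0 : b (insert x (insert u s)) = 0
      · rw [hb0]; simp
      · have hD := (hb _ hb0).1
        rw [hχχ x u hp.2.2 hp.1 hD]
        exact CharTwo.add_self_eq_zero _
    · rintro ⟨u, x⟩ hp _ he
      rw [Finset.mem_sigma] at hp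
      simp only [Finset.mem_compl, Finset.mem_insert, not_or] at hp
      have : x = u := congrArg Sigma.fst he
      exact hp.2.1 this
    · rintro ⟨u, x⟩ hp
      rw [Finset.mem_sigma] at hp ⊢
      simp only [Finset.mem_compl, Finset.mem_insert, not_or] at hp ⊢
      exact ⟨hp.2.2, fun he => hp.2.1 he.symm, hp.1⟩
    · rintro ⟨u, x⟩ _
      rfl

theorem even_ridge (h : HBallB d D B) {t : Finset V} (ht : t ∈ D \ B) (hc : t.card + 1 = d) :
    Even (tᶜ.filter fun v => insert v t ∈ D).card := by
  have htD : t ∈ D := (Finset.mem_sdiff.mp ht).1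
  obtain ⟨z, hz, hcyc, ⟨t0, ht0⟩, -⟩ := rone_int h htD
  obtain ⟨h1, h2, h3⟩ := hz t0 ht0
  have hone : z t0 = 1 := by
    have : ∀ a : ZMod 2, a ≠ 0 → a = 1 := by decide
    exact this _ ht0
  have hval : ∀ v ∈ tᶜ, z (insert v t) = if insert v t ∈ D then 1 else 0 := by
    intro v hv
    rw [Finset.mem_compl] at hv
    have hcard : (insert v t).card = d := by rw [Finset.card_insert_of_notMem hv]; exact hc
    by_cases hvD : insert v t ∈ D
    · rw [if_pos hvD, ← hone]
      exact rconst_int h htD z hz hcyc _ (fac_int h (by
        unfold Fac; rw [Finset.mem_filter]; exact ⟨hvD, hcard⟩)) t0 h1 (Finset.subset_insert v t) h2 hcard h3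
    · rw [if_neg hvD]
      by_contra hne
      exact hvD (Finset.mem_sdiff.mp (hz _ hne).1).1
  have hsum := hcyc t ht (Finset.Subset.refl t)
  rw [Finset.sum_congr rfl hval, Finset.sum_boole] at hsum
  exact (ZMod.natCast_eq_zero_iff_even).mp hsum

end Pool.Agent.LibHB64
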