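import Pool.Agent.LibHB64.CMDefs

set_option autoImplicit false

/-!
Row CMH6 (MEDIUM). From coefficients `ZMod 2` to a field `K` of characteristic 2. Only Mathlib + CMDefs.

`letI := ZMod.algebra K 2`; `β := Module.Free.chooseBasis (ZMod 2) K` (or `Module.Basis.ofVectorSpace`). For `c : Finset V → K` and an index `j` let
`c_j t = β.repr (c t) j : ZMod 2`: the coordinates of a chain / cycle are chains / cycles (`β.repr` is additive), and `c_j = 0` for all `j` outside
the finite set `J = ⋃_t (β.repr (c t)).support`. `RAcyc`: for `j ∈ J` choose `b_j`; put `b t = ∑ j ∈ J, b_j t • β j`; then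
`∑ v, b (insert v t) = ∑ j ∈ J, c_j t • β j = c t`. `RZero`, `RConst`: two elements of `K` with equal coordinates are equal.
-/

namespace Pool.Agent.LibHB64

variable {V : Type*} [Fintype V] [DecidableEq V] {K : Type*} [Field K]

section CMH6

variable [Module (ZMod 2) K] {ι : Type*} (β : Module.Basis ι (ZMod 2) K)

omit [Fintype V] [DecidableEq V] in
private theorem CMH6_ch {X : Finset (Finset V)} {s : Finset V} {n : ℕ} {c : Finset V → K}
    (hc : RCh X s n c) (j : ι) : RCh X s n (fun t => β.repr (c t) j) := by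
  intro t ht
  apply hc
  intro h0
  apply ht
  show β.repr (c t) j = 0
  rw [h0, map_zero]
  rfl

private theorem CMH6_cyc {X : Finset (Finset V)} {s : Finset V} {c : Finset V → K}
    (hc : RCyc X s c) (j : ι) : RCyc X s (fun t => β.repr (c t) j) := by
  intro t ht hst
  have h1 := hc t ht hst
  have h2 : ∑ v ∈ tᶜ, β.repr (c (insert v t)) j = β.repr (∑ v ∈ tᶜ, c (insert v t)) j := by
    rw [map_sum, Finsupp.finsetSum_apply]
  rw [h2, h1, map_zero]
  rfl

private theorem CMH6_ext {x y : K} (h : ∀ j, β.repr x j = β.repr y j) : x = y := by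
  apply β.repr.injective
  ext j
  rw [h j]

end CMH6

theorem racyc_K [CharP K 2] {X : Finset (Finset V)} {s : Finset V} {n : ℕ} (h : RAcyc (ZMod 2) X s n) :
    RAcyc K X s n := by
  classical
  let _ : Algebra (ZMod 2) K := ZMod.algebra K 2
  let β := Module.Basis.ofVectorSpace (ZMod 2) K
  intro c hc hcyc
  have hj : ∀ j, ∃ b : Finset V → ZMod 2, RCh X s (n + 1) b ∧
      ∀ t ∈ X, s ⊆ t → ∑ v ∈ tᶜ, b (insert v t) = β.repr (c t) j :=
    fun j => h _ (CMH6_ch β hc j) (CMH6_cyc β hcyc j)
  choose b hb1 hb2 using hj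
  let J : Finset _ := Finset.univ.biUnion fun t : Finset V => (β.repr (c t)).support
  refine ⟨fun t => ∑ j ∈ J, b j t • β j, ?_, ?_⟩
  · intro t ht
    obtain ⟨j, -, hj⟩ := Finset.exists_ne_zero_of_sum_ne_zero ht
    apply hb1 j t
    intro h0
    apply hj
    rw [h0, zero_smul]
  · intro t ht hst
    rw [Finset.sum_comm]
    have h1 : ∀ j ∈ J, ∑ v ∈ tᶜ, b j (insert v t) • β j = β.repr (c t) j • β j := by
      intro j _
      rw [← Finset.sum_smul, hb2 j t ht hst]
    rw [Finset.sum_congr rfl h1]
    conv_rhs => rw [← β.linearCombination_repr (c t)]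
    rw [Finsupp.linearCombination_apply, Finsupp.sum]
    symm
    apply Finset.sum_subset
    · intro j hj
      exact Finset.mem_biUnion.mpr ⟨t, Finset.mem_univ _, hj⟩
    · intro j _ hj
      rw [Finsupp.notMem_support_iff.mp hj, zero_smul]

theorem rzero_K [CharP K 2] {X : Finset (Finset V)} {s : Finset V} {n : ℕ} (h : RZero (ZMod 2) X s n) :
    RZero K X s n := by
  classical
  let _ : Algebra (ZMod 2) K := ZMod.algebra K 2
  let β := Module.Basis.ofVectorSpace (ZMod 2) K
  intro c hc hcyc t
  apply CMH6_ext β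
  intro j
  have := h _ (CMH6_ch β hc j) (CMH6_cyc β hcyc j) t
  rw [map_zero]
  exact this

theorem rconst_K [CharP K 2] {X : Finset (Finset V)} {s : Finset V} {n : ℕ} (h : RConst (ZMod 2) X s n) :
    RConst K X s n := by
  classical
  let _ : Algebra (ZMod 2) K := ZMod.algebra K 2
  let β := Module.Basis.ofVectorSpace (ZMod 2) K
  intro c hc hcyc F hF G hG hsF hsG hFn hGn
  apply CMH6_ext β
  intro j
  exact h _ (CMH6_ch β hc j) (CMH6_cyc β hcyc j) F hF G hG hsF hsG hFn hGn

end Pool.Agent.LibHB64
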