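import Pool.Agent.LibHB64.CMH3
import Pool.Agent.LibHB64.CMH5
import Pool.Agent.LibHB64.CMH6

set_option autoImplicit false

/-!
Row CMH8 (SHORT). The facts over `K`. Uses CMH2, CMH3, CMH5, CMH6.

`rconst_K_D`: for `s ∉ B` the faces of `D` above `s` are interior (`up_int`), chains and cycles of `D` and `D \ B` above `s` are the same.
-/

namespace Pool.Agent.LibHB64

variable {V : Type*} [Fintype V] [DecidableEq V] {K : Type*} [Field K] [CharP K 2] {d : ℕ} {D B : Finset (Finset V)}

theorem racyc_K_D (h : HBallB d D B) {s : Finset V} (hs : s ∈ D) {n : ℕ} (hn : n < d) : RAcyc K D s n := by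
  exact racyc_K (racyc_D h hs hn)

theorem racyc_K_int (h : HBallB d D B) {s : Finset V} (hs : s ∈ D) {n : ℕ} (hn : n < d) : RAcyc K (D \ B) s n := by
  exact racyc_K (racyc_int h hs hn)

theorem rzero_K_D (h : HBallB d D B) {s : Finset V} (hs : s ∈ B) : RZero K D s d := by
  exact rzero_K (rzero_D h hs)

theorem rconst_K_int (h : HBallB d D B) {s : Finset V} (hs : s ∈ D) : RConst K (D \ B) s d := by
  exact rconst_K (rconst_int h hs)

theorem rconst_K_D (h : HBallB d D B) {s : Finset V} (hs : s ∈ D) (hs' : s ∉ B) : RConst K D s d := by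
  have hsI : s ∈ D \ B := Finset.mem_sdiff.2 ⟨hs, hs'⟩
  intro c hc hcyc F hF G hG hsF hsG hFc hGc
  refine rconst_K_int h hs c ?_ ?_ F (up_int h hsI hF hsF) G (up_int h hsI hG hsG) hsF hsG hFc hGc
  · intro t ht
    obtain ⟨h1, h2, h3⟩ := hc t ht
    exact ⟨up_int h hsI h1 h2, h2, h3⟩
  · intro t ht hst
    exact hcyc t (Finset.mem_sdiff.1 ht).1 hst

end Pool.Agent.LibHB64
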