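import Pool.Agent.LibHB64.CMA1
import Pool.Agent.LibHB64.CMH8

set_option autoImplicit false

/-!
Row CMA11 (MEDIUM/STRONG). The cycles of top size are the face ring (`X` = interior faces, `M = D`) or the interior ideal (`X = D`, `M` = interior faces). Uses CMA1, CMH2, CMH5, CMH8.

`iot_inj`: if `coeff α p ≠ 0` then `α.support ∈ D` is in a facet `F` (`pure`), and `coeff α (res F p) = coeff α p`.
`iot_mulD`: at a facet `t`: `res t (proj D (θ p)) = res t (θ p)`: coefficients (`coeff_res`, `coeff_proj`; `α.support ⊆ t` implies `α.support ∈ D`).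
`iot_ZZ`, `≤`: `p ∈ mon K M i`. `iot p ∈ CC K X d i`: facets are in `X` (`fac_int`), `res_mon`. `dd X (iot p) t = 0` for `t ∈ X`: if `t.card + 1 ≠ d` all the terms vanish; if `t.card + 1 = d` the sum is
`(number of v ∉ t with insert v t ∈ D) • res t p` (`res_res`): for `t ∈ D \ B` this number is even (`even_ridge`) and `K` has characteristic 2; for `t ∈ B` (only possible in the case `X = D`, `M = D \ B`) `res t p = 0`, since a monomial of `p`
with support `⊆ t` would have support in `B` (`h.sph.1.2`).
`≥`: `f ∈ ZZ K X d i`. For `α` let `c_α t = coeff α (f t)`: as in row CMA9 it is a chain of size `d` and a cycle above `s = α.support`. If it is nonzero then `s ∈ D`, and `s ∈ M`: otherwise `X = D`, `s ∈ B` and `rzero_K_D` gives `c_α = 0`.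
By `rconst_K_int` (`X = D \ B`) or `rconst_K_D` (`X = D`, `s ∉ B`) it is constant on the facets containing `s`: let `l_α` be the value at one such facet (`pure`), `p = ∑ α ∈ A, monomial α (l_α)`, `A` = union of the supports of the `f t`. Then
`iot p = f` by coefficients.
-/

namespace Pool.Agent.LibHB64

open MvPolynomial

variable {V : Type*} [Fintype V] [DecidableEq V] {K : Type*} [Field K] {d : ℕ} {D B : Finset (Finset V)}

theorem iot_inj (h : HBallB d D B) {i : ℕ} {p : MvPolynomial V K} (hp : p ∈ mon K D i) (h0 : iot K d D p = 0) :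
    p = 0 := by
  ext α
  rw [coeff_zero]
  by_contra hne
  obtain ⟨hα, _⟩ := (mem_mon D i p).1 hp α hne
  obtain ⟨F, hF, hsF⟩ := pure h α.support hα
  have h1 : iot K d D p F = 0 := by rw [h0]; rfl
  rw [iot_apply, if_pos hF] at h1
  have h2 := coeff_res F p α
  rw [h1, coeff_zero, if_pos hsF] at h2
  exact hne h2.symm

theorem iot_mulD (hD : IsCx D) (a : Fin d → V → K) (j : Fin d) (p : MvPolynomial V K) :
    iot K d D (mulD D (th a j) p) = TT a j (iot K d D p) := by
  funext t
  rw [TT_apply, iot_apply, iot_apply]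
  by_cases ht : t ∈ Fac d D
  · rw [if_pos ht, if_pos ht, ← map_mul]
    have htD : t ∈ D := (Finset.mem_filter.1 ht).1
    have e : mulD D (th a j) p = proj K D (th a j * p) := rfl
    rw [e]
    ext α
    rw [coeff_res, coeff_res, coeff_proj]
    by_cases hs : α.support ⊆ t
    · rw [if_pos hs, if_pos hs, if_pos (hD.2 t htD _ hs)]
    · rw [if_neg hs, if_neg hs]
  · rw [if_neg ht, if_neg ht, mul_zero]

private theorem CMA11_ch {X : Finset (Finset V)} {i : ℕ} {f : Finset V → MvPolynomial V K} (hf : f ∈ CC K X d i)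
    (α : V →₀ ℕ) : RCh X α.support d fun t => coeff α (f t) := by
  intro t ht
  have h1 : f t ≠ 0 := fun h => ht (by show coeff α (f t) = 0; rw [h, coeff_zero])
  have h2 := ((mem_CC X d i f).1 hf t)
  exact ⟨(h2.1 h1).1, Finset.mem_powerset.1 ((mem_mon _ _ _).1 h2.2 α ht).1, (h2.1 h1).2⟩

private theorem CMA11_cyc {X : Finset (Finset V)} {f : Finset V → MvPolynomial V K} (hf : dd K X f = 0)
    (α : V →₀ ℕ) : RCyc X α.support fun t => coeff α (f t) := by
  intro t ht hst
  have h1 : dd K X f t = 0 := by rw [hf]; rfl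
  rw [dd_apply, if_pos ht] at h1
  have h2 := congrArg (coeff α) h1
  rw [coeff_sum, coeff_zero] at h2
  rw [← h2]
  refine Finset.sum_congr rfl fun v _ => ?_
  rw [coeff_res, if_pos hst]

private theorem CMA11_sum (p : MvPolynomial V K) (t : Finset V) :
    ∑ v ∈ tᶜ, res K t (iot K d D p (insert v t)) =
      ((tᶜ.filter fun v => insert v t ∈ Fac d D).card : MvPolynomial V K) * res K t p := by
  rw [Finset.card_filter, Nat.cast_sum, Finset.sum_mul]
  refine Finset.sum_congr rfl fun v _ => ?_
  rw [iot_apply]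
  by_cases hv : insert v t ∈ Fac d D
  · rw [if_pos hv, if_pos hv, Nat.cast_one, one_mul, res_res (Finset.subset_insert v t)]
  · rw [if_neg hv, if_neg hv, Nat.cast_zero, zero_mul, map_zero]

private theorem CMA11_le [CharP K 2] (h : HBallB d D B) {X M : Finset (Finset V)}
    (hXM : (X = D ∧ M = D \ B) ∨ (X = D \ B ∧ M = D)) (i : ℕ) {p : MvPolynomial V K} (hp : p ∈ mon K M i) :
    iot K d D p ∈ ZZ K X d i := by
  refine ⟨?_, ?_⟩
  · refine (mem_CC X d i _).2 fun t => ?_
    rw [iot_apply]
    by_cases ht : t ∈ Fac d D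
    · rw [if_pos ht]
      refine ⟨fun _ => ⟨?_, (Finset.mem_filter.1 ht).2⟩, res_mon M t hp⟩
      rcases hXM with ⟨rfl, _⟩ | ⟨rfl, _⟩
      · exact (Finset.mem_filter.1 ht).1
      · exact fac_int h ht
    · rw [if_neg ht]
      exact ⟨fun h0 => absurd rfl h0, Submodule.zero_mem _⟩
  · refine LinearMap.mem_ker.2 ?_
    funext t
    rw [dd_apply]
    by_cases ht : t ∈ X
    · rw [if_pos ht, CMA11_sum]
      show _ = (0 : MvPolynomial V K)
      by_cases hc : t.card + 1 = d
      · have e : (tᶜ.filter fun v => insert v t ∈ Fac d D) = tᶜ.filter fun v => insert v t ∈ D := by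
          refine Finset.filter_congr fun v hv => ?_
          have hv' : v ∉ t := Finset.mem_compl.1 hv
          unfold Fac
          rw [Finset.mem_filter, Finset.card_insert_of_notMem hv']
          exact ⟨fun x => x.1, fun x => ⟨x, hc⟩⟩
        rw [e]
        have hev : t ∈ D \ B → (((tᶜ.filter fun v => insert v t ∈ D).card : ℕ) : MvPolynomial V K) = 0 := by
          intro htB
          obtain ⟨m, hm⟩ := even_ridge h htB hc
          have h2 : (2 : MvPolynomial V K) = 0 := by
            have h3 : ((2 : ℕ) : K) = 0 := CharP.cast_eq_zero K 2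
            have h4 : ((2 : ℕ) : MvPolynomial V K) = C ((2 : ℕ) : K) :=
              (map_natCast (C : K →+* MvPolynomial V K) 2).symm
            have h5 : ((2 : ℕ) : MvPolynomial V K) = 0 := by rw [h4, h3, C_0]
            exact_mod_cast h5
          rw [hm]
          push_cast
          rw [← two_mul, h2, zero_mul]
        rcases hXM with ⟨hX, hM⟩ | ⟨hX, hM⟩
        · by_cases htB : t ∈ B
          · have h0 : res K t p = 0 := by
              ext α
              rw [coeff_res, coeff_zero]
              by_cases hs : α.support ⊆ t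
              · rw [if_pos hs]
                by_contra hne
                have h5 := ((mem_mon M i p).1 hp α hne).1
                rw [hM] at h5
                exact (Finset.mem_sdiff.1 h5).2 (h.sph.1.2 t htB _ hs)
              · rw [if_neg hs]
            rw [h0, mul_zero]
          · rw [hev (Finset.mem_sdiff.2 ⟨hX ▸ ht, htB⟩), zero_mul]
        · rw [hev (hX ▸ ht), zero_mul]
      · have e : (tᶜ.filter fun v => insert v t ∈ Fac d D) = ∅ := by
          refine Finset.filter_eq_empty_iff.2 fun v hv hF => ?_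
          have hv' : v ∉ t := Finset.mem_compl.1 hv
          have h1 := (Finset.mem_filter.1 hF).2
          rw [Finset.card_insert_of_notMem hv'] at h1
          exact hc h1
        rw [e, Finset.card_empty, Nat.cast_zero, zero_mul]
    · rw [if_neg ht]
      rfl

private theorem CMA11_ge [CharP K 2] (h : HBallB d D B) {X M : Finset (Finset V)}
    (hXM : (X = D ∧ M = D \ B) ∨ (X = D \ B ∧ M = D)) (i : ℕ) {f : Finset V → MvPolynomial V K}
    (hf : f ∈ ZZ K X d i) : ∃ p ∈ mon K M i, iot K d D p = f := by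
  classical
  have hfC : f ∈ CC K X d i := hf.1
  have hfk : dd K X f = 0 := LinearMap.mem_ker.1 hf.2
  have hXD : X ⊆ D := by
    rcases hXM with ⟨hX, _⟩ | ⟨hX, _⟩
    · rw [hX]
    · rw [hX]; exact Finset.sdiff_subset
  have hfacX : ∀ F ∈ Fac d D, F ∈ X := by
    intro F hF
    rcases hXM with ⟨hX, _⟩ | ⟨hX, _⟩
    · rw [hX]; exact (Finset.mem_filter.1 hF).1
    · rw [hX]; exact fac_int h hF
  -- constancy
  have hconst : ∀ α : V →₀ ℕ, ∀ F ∈ Fac d D, ∀ G ∈ Fac d D, α.support ⊆ F → α.support ⊆ G →
      coeff α (f F) = coeff α (f G) := by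
    intro α F hF G hG hsF hsG
    have hsD : α.support ∈ D := h.cx.2 F (Finset.mem_filter.1 hF).1 _ hsF
    have hch := CMA11_ch hfC α
    have hcy := CMA11_cyc hfk α
    have hFd := (Finset.mem_filter.1 hF).2
    have hGd := (Finset.mem_filter.1 hG).2
    rcases hXM with ⟨hX, _⟩ | ⟨hX, _⟩
    · by_cases hsB : α.support ∈ B
      · subst hX
        have hz := rzero_K_D (K := K) h hsB _ hch hcy
        exact (hz F).trans (hz G).symm
      · subst hX
        exact rconst_K_D (K := K) h hsD hsB _ hch hcy F (hfacX F hF) G (hfacX G hG) hsF hsG hFd hGd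
    · subst hX
      exact rconst_K_int (K := K) h hsD _ hch hcy F (hfacX F hF) G (hfacX G hG) hsF hsG hFd hGd
  have hchoice : ∀ s : Finset V, ∃ F : Finset V, s ∈ D → F ∈ Fac d D ∧ s ⊆ F := by
    intro s
    by_cases hs : s ∈ D
    · obtain ⟨F, hF, hsF⟩ := pure h s hs
      exact ⟨F, fun _ => ⟨hF, hsF⟩⟩
    · exact ⟨∅, fun hs' => absurd hs' hs⟩
  choose Fc hFc using hchoice
  set A : Finset (V →₀ ℕ) := Finset.univ.biUnion fun t => (f t).support with hA
  set l : (V →₀ ℕ) → K := fun α => if α.support ∈ D then coeff α (f (Fc α.support)) else 0 with hl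
  set p : MvPolynomial V K := ∑ α ∈ A, monomial α (l α) with hp
  have hcp : ∀ α, coeff α p = if α ∈ A then l α else 0 := by
    intro α
    rw [hp, coeff_sum]
    simp only [coeff_monomial]
    rw [Finset.sum_ite_eq' A α l]
  have hA' : ∀ α, α ∉ A → ∀ t, coeff α (f t) = 0 := by
    intro α hα t
    by_contra hne
    exact hα (Finset.mem_biUnion.2 ⟨t, Finset.mem_univ t, mem_support_iff.2 hne⟩)
  refine ⟨p, ?_, ?_⟩
  · refine (mem_mon M i p).2 fun α hα => ?_
    rw [hcp] at hα
    have hαA : α ∈ A := by
      by_contra hn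
      exact hα (if_neg hn)
    rw [if_pos hαA] at hα
    have hsD : α.support ∈ D := by
      by_contra hn
      exact hα (if_neg hn)
    have hl1 : l α = coeff α (f (Fc α.support)) := if_pos hsD
    rw [hl1] at hα
    refine ⟨?_, ((mem_mon _ _ _).1 ((mem_CC X d i f).1 hfC (Fc α.support)).2 α hα).2⟩
    rcases hXM with ⟨hX, hM⟩ | ⟨hX, hM⟩
    · rw [hM, Finset.mem_sdiff]
      refine ⟨hsD, fun hsB => ?_⟩
      subst hX
      exact hα (rzero_K_D (K := K) h hsB _ (CMA11_ch hfC α) (CMA11_cyc hfk α) (Fc α.support))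
    · rw [hM]
      exact hsD
  · funext t
    rw [iot_apply]
    by_cases ht : t ∈ Fac d D
    · rw [if_pos ht]
      ext α
      rw [coeff_res]
      by_cases hs : α.support ⊆ t
      · rw [if_pos hs, hcp]
        have hsD : α.support ∈ D := h.cx.2 t (Finset.mem_filter.1 ht).1 _ hs
        by_cases hαA : α ∈ A
        · rw [if_pos hαA]
          have hl1 : l α = coeff α (f (Fc α.support)) := if_pos hsD
          rw [hl1]
          obtain ⟨h1, h2⟩ := hFc α.support hsD
          exact hconst α _ h1 t ht h2 hs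
        · rw [if_neg hαA, hA' α hαA t]
      · rw [if_neg hs]
        by_contra hne
        have h1 := ((mem_mon _ _ _).1 ((mem_CC X d i f).1 hfC t).2 α (fun h0 => hne h0.symm)).1
        exact hs (Finset.mem_powerset.1 h1)
    · rw [if_neg ht]
      by_contra hne
      have h1 := ((mem_CC X d i f).1 hfC t).1 (fun h0 => hne h0.symm)
      exact ht (Finset.mem_filter.2 ⟨hXD h1.1, h1.2⟩)

theorem iot_ZZ [CharP K 2] (h : HBallB d D B) {X M : Finset (Finset V)}
    (hXM : (X = D ∧ M = D \ B) ∨ (X = D \ B ∧ M = D)) (i : ℕ) : (mon K M i).map (iot K d D) = ZZ K X d i := by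
  refine le_antisymm ?_ ?_
  · rintro _ ⟨p, hp, rfl⟩
    exact CMA11_le h hXM i hp
  · intro f hf
    obtain ⟨p, hp, hpf⟩ := CMA11_ge h hXM i hf
    exact ⟨p, hp, hpf⟩

end Pool.Agent.LibHB64
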