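import Pool.Agent.LibHB64.CMA2

set_option autoImplicit false

/-!
Row CMA12 (MEDIUM). Hilbert series of the quotient by a regular sequence. Uses CMA2 (or nothing).

Let `q k i = finrank (Z i) - finrank (SS T k Z i)` (integers). `k = 0`: `SS T 0 Z i = ⊥`. Step (`k < d`): `q (k + 1) 0 = q k 0` (`SS .. 0 = ⊥`), and `q (k + 1) (i + 1) = q k (i + 1) - q k i`:
`SS T (k + 1) Z (i + 1) = SS T k Z (i + 1) ⊔ (Z i).map (T k)` (`SS_succ`); the map `Z i → E ⧸ SS T k Z (i + 1)`, `f ↦ [T k f]` has the kernel `SS T k Z i` (`⊆`: `hreg`; `⊇`: `T k (T j g) = T j (T k g)`, `Stab`), so the dimension of the supremum is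
`finrank (SS T k Z (i + 1)) + finrank (Z i) - finrank (SS T k Z i)` (rank-nullity; everything is inside the finite-dimensional `Z (i + 1)`, `SS_le`). Then compare coefficients of `(1 - X)^(k + 1) H = (1 - X) ((1 - X)^k H)`
(`PowerSeries.coeff_succ_X_mul`, `PowerSeries.coeff_zero_X_mul`).
-/

namespace Pool.Agent.LibHB64

variable {K E : Type*} [Field K] [AddCommGroup E] [Module K E] {d : ℕ}

private theorem CMA12_rank (t : E →ₗ[K] E) (W : Submodule K E) [FiniteDimensional K W] :
    Module.finrank K (W.map t) + Module.finrank K (W ⊓ LinearMap.ker t : Submodule K E) = Module.finrank K W := by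
  have h := LinearMap.finrank_range_add_finrank_ker (t.domRestrict W)
  rw [LinearMap.range_domRestrict, LinearMap.ker_domRestrict] at h
  have h2 : (Submodule.comap W.subtype (LinearMap.ker t)).map W.subtype = W ⊓ LinearMap.ker t :=
    Submodule.map_comap_subtype _ _
  rw [← h2]
  rw [LinearEquiv.finrank_eq (Submodule.equivSubtypeMap W (Submodule.comap W.subtype (LinearMap.ker t))).symm]
  exact h

private theorem CMA12_zero (T : Fin d → E →ₗ[K] E) (Z : ℕ → Submodule K E) (i : ℕ) : SS T 0 Z i = ⊥ := by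
  cases i with
  | zero => rfl
  | succ i => simp [SS]

private theorem CMA12_map {T : Fin d → E →ₗ[K] E} (hT : ∀ j l f, T j (T l f) = T l (T j f)) {Z : ℕ → Submodule K E}
    (hZ : Stab T Z) (k i : ℕ) (l : Fin d) : (SS T k Z i).map (T l) ≤ SS T k Z (i + 1) := by
  cases i with
  | zero => simp [SS]
  | succ i =>
    simp only [SS]
    rw [Submodule.map_iSup]
    refine iSup_le fun j => ?_
    rw [Submodule.map_iSup]
    refine iSup_le fun hj => ?_
    refine le_trans ?_ (le_iSup_of_le j (le_iSup_of_le hj le_rfl))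
    rintro _ ⟨_, ⟨g, hg, rfl⟩, rfl⟩
    refine ⟨T l g, hZ l i ⟨g, hg, rfl⟩, ?_⟩
    exact hT j l g

private theorem CMA12_step {T : Fin d → E →ₗ[K] E} (hT : ∀ j l f, T j (T l f) = T l (T j f)) {Z : ℕ → Submodule K E}
    (hZ : Stab T Z) (hfin : ∀ i, FiniteDimensional K (Z i)) (hreg : GReg T d Z) (k : ℕ) (hk : k < d) (i : ℕ) :
    (Module.finrank K (SS T (k + 1) Z (i + 1)) : ℤ) =
      Module.finrank K (SS T k Z (i + 1)) + Module.finrank K (Z i) - Module.finrank K (SS T k Z i) := by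
  have hS : ∀ k i, FiniteDimensional K (SS T k Z i) := fun k i =>
    have := hfin i
    Submodule.finiteDimensional_of_le (SS_le hZ k i)
  have := hS k (i + 1)
  have := hS k i
  have := hfin i
  have : FiniteDimensional K ((Z i).map (T ⟨k, hk⟩)) := inferInstance
  have h1 := Submodule.finrank_sup_add_finrank_inf_eq (SS T k Z (i + 1)) ((Z i).map (T ⟨k, hk⟩))
  rw [← SS_succ T Z k hk i] at h1
  have h2 : SS T k Z (i + 1) ⊓ (Z i).map (T ⟨k, hk⟩) = (SS T k Z i).map (T ⟨k, hk⟩) := by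
    apply le_antisymm
    · rintro y ⟨hy, ⟨f, hf, rfl⟩⟩
      exact ⟨f, hreg ⟨k, hk⟩ hk i f hf hy, rfl⟩
    · exact le_inf (CMA12_map hT hZ k i ⟨k, hk⟩) (Submodule.map_mono (SS_le hZ k i))
  rw [h2] at h1
  have h3 := CMA12_rank (T ⟨k, hk⟩) (Z i)
  have h4 := CMA12_rank (T ⟨k, hk⟩) (SS T k Z i)
  have h5 : Z i ⊓ LinearMap.ker (T ⟨k, hk⟩) = SS T k Z i ⊓ LinearMap.ker (T ⟨k, hk⟩) := by
    apply le_antisymm
    · rintro f ⟨hf, hf0⟩
      refine ⟨hreg ⟨k, hk⟩ hk i f hf ?_, hf0⟩
      rw [LinearMap.mem_ker.1 hf0]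
      exact Submodule.zero_mem _
    · exact inf_le_inf_right _ (SS_le hZ k i)
  rw [h5] at h3
  omega

theorem series_SS {T : Fin d → E →ₗ[K] E} (hT : ∀ j l f, T j (T l f) = T l (T j f)) {Z : ℕ → Submodule K E}
    (hZ : Stab T Z) (hfin : ∀ i, FiniteDimensional K (Z i)) (hreg : GReg T d Z) (k : ℕ) (hk : k ≤ d) :
    PowerSeries.mk (fun i => (Module.finrank K (Z i) : ℤ) - (Module.finrank K (SS T k Z i) : ℤ)) =
      (1 - PowerSeries.X) ^ k * PowerSeries.mk (fun i => (Module.finrank K (Z i) : ℤ)) := by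
  induction k with
  | zero =>
    ext i
    rw [PowerSeries.coeff_mk, pow_zero, one_mul, PowerSeries.coeff_mk, CMA12_zero]
    simp
  | succ k ih =>
    have ih' := ih (by omega)
    rw [pow_succ', mul_assoc, ← ih', sub_mul, one_mul]
    ext i
    cases i with
    | zero =>
      have e1 : SS T (k + 1) Z 0 = SS T k Z 0 := rfl
      rw [map_sub, PowerSeries.coeff_zero_X_mul, PowerSeries.coeff_mk, PowerSeries.coeff_mk, e1, sub_zero]
    | succ i =>
      rw [map_sub, PowerSeries.coeff_succ_X_mul, PowerSeries.coeff_mk, PowerSeries.coeff_mk,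
        PowerSeries.coeff_mk, CMA12_step hT hZ hfin hreg k (by omega) i]
      ring

end Pool.Agent.LibHB64
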