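import Pool.Agent.LibHB64.CMA1

set_option autoImplicit false

/-!
Row CMA13 (MEDIUM). The Hilbert series of `mon` and the `h`-vector. Uses CMA1 (or nothing).

`mon_series`: `mon K X i` has the basis of the monomials `x^α`, `α.support ∈ X`, `α.degree = i` (linearly independent: `basisMonomials`), so its dimension is `∑ s ∈ X, #{α : α.support = s, α.degree = i}`
(a finite set, e.g. a filter of `Finset.finsuppAntidiag s i`), and `coeff i ((X * mk 1)^s.card) = coeff i (∏ v ∈ s, (X * mk 1)) = ∑ α ∈ finsuppAntidiag s i, ∏ v ∈ s, (if α v = 0 then 0 else 1)`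
(`PowerSeries.coeff_prod`, `PowerSeries.coeff_mk`).
`hnum_series`: `(1 - X) * mk 1 = 1` (`PowerSeries.mk_one_mul_one_sub_eq_one`), so for `l = s.card ≤ d`: `(1 - X)^d * (X * mk 1)^l = X^l * (1 - X)^(d - l)`, whose coefficient at `i` is `(-1)^(i - l) * (d - l).choose (i - l)` for `l ≤ i`, `0` otherwise
(`PowerSeries.coeff_X_pow_mul'`, binomial theorem, e.g. from `Polynomial.coeff_one_sub_X_pow`-type lemmas or `(1 + X)^m` with `coeff_one_add_X_pow`); sort the faces by size.
-/

namespace Pool.Agent.LibHB64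

open MvPolynomial

variable {V : Type*} [Fintype V] [DecidableEq V] {K : Type*} [Field K] {d : ℕ} {D B : Finset (Finset V)}

private theorem CMA13_coeff (k : ℕ) :
    PowerSeries.coeff k (PowerSeries.X * PowerSeries.mk (1 : ℕ → ℤ)) = if k = 0 then 0 else 1 := by
  cases k with
  | zero => simp
  | succ k => simp [PowerSeries.coeff_succ_X_mul]

private theorem CMA13_fin {V : Type*} [Fintype V] [DecidableEq V] (s : Finset V) (i : ℕ) :
    PowerSeries.coeff i ((PowerSeries.X * PowerSeries.mk (1 : ℕ → ℤ)) ^ s.card) =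
      (((Finset.finsuppAntidiag s i).filter fun a => a.support = s).card : ℤ) := by
  classical
  rw [← Finset.prod_const, PowerSeries.coeff_prod, Finset.card_filter, Nat.cast_sum]
  refine Finset.sum_congr rfl fun a ha => ?_
  have hs : a.support ⊆ s := (Finset.mem_finsuppAntidiag.1 ha).2
  by_cases h : a.support = s
  · rw [if_pos h]
    rw [Finset.prod_eq_one]
    · simp
    · intro v hv
      rw [CMA13_coeff, if_neg]
      rw [← h] at hv
      exact Finsupp.mem_support_iff.1 hv
  · rw [if_neg h]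
    have : ∃ v ∈ s, a v = 0 := by
      by_contra hc
      push Not at hc
      exact h (Finset.Subset.antisymm hs fun v hv => Finsupp.mem_support_iff.2 (hc v hv))
    obtain ⟨v, hv, hv0⟩ := this
    rw [Finset.prod_eq_zero hv]
    · simp
    · rw [CMA13_coeff, if_pos hv0]

private theorem CMA13_finrank (X : Finset (Finset V)) (i : ℕ) :
    Module.finrank K (mon K X i) =
      ∑ s ∈ X, ((Finset.finsuppAntidiag s i).filter fun a => a.support = s).card := by
  classical
  set A : Finset (V →₀ ℕ) := X.biUnion fun s => (Finset.finsuppAntidiag s i).filter fun a => a.support = s with hA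
  have hmem : ∀ a : V →₀ ℕ, a ∈ A ↔ a.support ∈ X ∧ a.degree = i := by
    intro a
    rw [hA, Finset.mem_biUnion]
    constructor
    · rintro ⟨s, hs, h⟩
      rw [Finset.mem_filter, Finset.mem_finsuppAntidiag] at h
      obtain ⟨⟨h1, h2⟩, h3⟩ := h
      subst h3
      exact ⟨hs, h1⟩
    · rintro ⟨h1, h2⟩
      refine ⟨a.support, h1, ?_⟩
      rw [Finset.mem_filter, Finset.mem_finsuppAntidiag]
      exact ⟨⟨h2, Finset.Subset.refl _⟩, rfl⟩
  have h1 : mon K X i = Submodule.span K (Set.range fun a : A => (monomial a.1 (1 : K))) := by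
    rw [mon]
    congr 1
    ext p
    simp only [Set.mem_setOf_eq, Set.mem_range]
    constructor
    · rintro ⟨a, h1, h2, rfl⟩
      exact ⟨⟨a, (hmem a).2 ⟨h1, h2⟩⟩, rfl⟩
    · rintro ⟨⟨a, ha⟩, rfl⟩
      exact ⟨a, ((hmem a).1 ha).1, ((hmem a).1 ha).2, rfl⟩
  have hli : LinearIndependent K (fun a : A => (monomial a.1 (1 : K))) := by
    have := (basisMonomials V K).linearIndependent.comp (fun a : A => a.1) Subtype.val_injective
    simpa [Function.comp_def] using this
  rw [h1, finrank_span_eq_card hli, Fintype.card_coe, hA, Finset.card_biUnion]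
  intro s _ t _ hst
  rw [Function.onFun, Finset.disjoint_left]
  intro a ha hb
  rw [Finset.mem_filter] at ha hb
  exact hst (ha.2.symm.trans hb.2)

theorem mon_series (X : Finset (Finset V)) :
    PowerSeries.mk (fun i => (Module.finrank K (mon K X i) : ℤ)) =
      ∑ s ∈ X, (PowerSeries.X * PowerSeries.mk (1 : ℕ → ℤ)) ^ s.card := by
  ext i
  rw [PowerSeries.coeff_mk, map_sum, CMA13_finrank, Nat.cast_sum]
  exact Finset.sum_congr rfl fun s _ => (CMA13_fin s i).symm

private theorem CMA13_pow (m k : ℕ) :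
    PowerSeries.coeff k ((1 - PowerSeries.X : PowerSeries ℤ) ^ m) = (-1) ^ k * (m.choose k : ℤ) := by
  have h : ((1 - PowerSeries.X : PowerSeries ℤ) ^ m) = (((1 - Polynomial.X : Polynomial ℤ) ^ m : Polynomial ℤ) : PowerSeries ℤ) := by
    simp
  rw [h, Polynomial.coeff_coe]
  have h2 : (1 - Polynomial.X : Polynomial ℤ) ^ m =
      ((1 + Polynomial.X : Polynomial ℤ) ^ m).comp (Polynomial.C (-1) * Polynomial.X) := by
    simp [sub_eq_add_neg]
  rw [h2, Polynomial.comp_C_mul_X_coeff, Polynomial.coeff_one_add_X_pow, mul_comm]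

theorem hnum_series {V : Type*} [Fintype V] [DecidableEq V] {d : ℕ} {X : Finset (Finset V)}
    (hX : ∀ s ∈ X, s.card ≤ d) (i : ℕ) :
    PowerSeries.coeff i ((1 - PowerSeries.X) ^ d * ∑ s ∈ X, (PowerSeries.X * PowerSeries.mk (1 : ℕ → ℤ)) ^ s.card) =
      hnum d X i := by
  classical
  rw [Finset.mul_sum, map_sum]
  have key : ∀ s ∈ X, PowerSeries.coeff i ((1 - PowerSeries.X) ^ d *
      (PowerSeries.X * PowerSeries.mk (1 : ℕ → ℤ)) ^ s.card) =
      ∑ l ∈ Finset.range (i + 1), if s.card = l then (-1) ^ (i - l) * ((d - l).choose (i - l) : ℤ) else 0 := by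
    intro s hs
    have hd := hX s hs
    have h1 : (1 - PowerSeries.X) ^ d * (PowerSeries.X * PowerSeries.mk (1 : ℕ → ℤ)) ^ s.card =
        PowerSeries.X ^ s.card * (1 - PowerSeries.X) ^ (d - s.card) := by
      obtain ⟨e, rfl⟩ := Nat.exists_eq_add_of_le hd
      have h2 : (PowerSeries.mk (1 : ℕ → ℤ)) * (1 - PowerSeries.X) = 1 := PowerSeries.mk_one_mul_one_sub_eq_one ℤ
      rw [Nat.add_sub_cancel_left, mul_pow, pow_add]
      calc (1 - PowerSeries.X) ^ s.card * (1 - PowerSeries.X) ^ e *
            (PowerSeries.X ^ s.card * PowerSeries.mk (1 : ℕ → ℤ) ^ s.card)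
          = PowerSeries.X ^ s.card * (1 - PowerSeries.X) ^ e *
            (PowerSeries.mk (1 : ℕ → ℤ) * (1 - PowerSeries.X)) ^ s.card := by
            rw [mul_pow]; ring
        _ = _ := by rw [h2, one_pow, mul_one]
    rw [h1, PowerSeries.coeff_X_pow_mul', Finset.sum_ite_eq, CMA13_pow]
    by_cases h : s.card ≤ i
    · rw [if_pos h, if_pos (Finset.mem_range.2 (Nat.lt_succ_of_le h))]
    · rw [if_neg h, if_neg (fun hc => h (Nat.le_of_lt_succ (Finset.mem_range.1 hc)))]
  rw [Finset.sum_congr rfl key, Finset.sum_comm, hnum]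
  refine Finset.sum_congr rfl fun l _ => ?_
  rw [← Finset.sum_filter, Finset.sum_const, fnum, nsmul_eq_mul, mul_comm]

end Pool.Agent.LibHB64
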