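import Pool.Agent.LibHB64.CMH7

set_option autoImplicit false

/-!
Row CMA14 (MEDIUM). Dehn-Sommerville: the `h`-vector of the interior faces is the reversed `h`-vector. Uses CMH7 (`euler_int`).

With polynomials over `ℤ` (or `PowerSeries`): `hnum d X i` is the coefficient of `x^i` in `∑_{t ∈ X} x^|t| (1 - x)^(d - |t|)` if all sizes are `≤ d` (`i ≤ d`); `hnum d D (d - i)` is the coefficient of `x^i` in `∑_{s ∈ D} (x - 1)^(d - |s|)`
(`(d - k).choose (d - i - k) = (d - k).choose i`). Identity: `∑_{s ∈ D} (x - 1)^(d - |s|) = ∑_{s ∈ D} ∑_{t ∈ D \ B, s ⊆ t} (-1)^(d - |t|) (x - 1)^(d - |s|)` (`euler_int`)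
`= ∑_{t ∈ D \ B} (-1)^(d - |t|) (x - 1)^(d - |t|) ∑_{s ⊆ t} (x - 1)^(|t| - |s|)` (`t ∈ D \ B`, `s ⊆ t` implies `s ∈ D`) `= ∑_t (1 - x)^(d - |t|) x^|t|` (`Finset.sum_pow_mul_eq_add_pow`: `∑_{s ⊆ t} 1^|s| y^(|t| - |s|) = (1 + y)^|t|`).
-/

namespace Pool.Agent.LibHB64

variable {V : Type*} [Fintype V] [DecidableEq V] {d : ℕ} {D B : Finset (Finset V)}

private theorem CMA14_hnum (X : Finset (Finset V)) (j : ℕ) :
    hnum d X j = ∑ t ∈ X, if t.card ≤ j then
      (-1 : ℤ) ^ (j - t.card) * ((d - t.card).choose (j - t.card) : ℤ) else 0 := by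
  unfold hnum fnum
  have h1 : ∀ i, (((X.filter fun s => s.card = i).card : ℕ) : ℤ) =
      ∑ t ∈ X, if t.card = i then (1 : ℤ) else 0 := by
    intro i
    rw [Finset.card_filter]
    push_cast
    rfl
  simp_rw [h1, Finset.mul_sum]
  rw [Finset.sum_comm]
  refine Finset.sum_congr rfl fun t _ => ?_
  simp_rw [mul_ite, mul_one, mul_zero]
  rw [Finset.sum_ite_eq]
  by_cases h : t.card ≤ j
  · rw [if_pos h, if_pos (Finset.mem_range.2 (by omega))]
  · rw [if_neg h, if_neg (by rw [Finset.mem_range]; omega)]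

open Polynomial in
private theorem CMA14_coeff (n k : ℕ) :
    (((X : ℤ[X]) - 1) ^ n).coeff k = (-1) ^ (n - k) * (n.choose k : ℤ) := by
  have := Polynomial.coeff_X_add_C_pow (-1 : ℤ) n k
  rwa [Polynomial.C_neg, Polynomial.C_1, ← sub_eq_add_neg] at this

open Polynomial in
private theorem CMA14_left {X0 : Finset (Finset V)} (h : ∀ t ∈ X0, t.card ≤ d) {j : ℕ} (hj : j ≤ d) :
    (∑ t ∈ X0, (-1 : ℤ[X]) ^ (d - t.card) * ((X - 1) ^ (d - t.card) * X ^ t.card)).coeff j =
      hnum d X0 j := by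
  rw [CMA14_hnum, Polynomial.finsetSum_coeff]
  refine Finset.sum_congr rfl fun t ht => ?_
  have h1 : (-1 : ℤ[X]) ^ (d - t.card) = C ((-1 : ℤ) ^ (d - t.card)) := by
    rw [C_pow, C_neg, C_1]
  rw [h1, Polynomial.coeff_C_mul, mul_comm ((X - 1 : ℤ[X]) ^ (d - t.card)), Polynomial.coeff_X_pow_mul']
  by_cases h2 : t.card ≤ j
  · rw [if_pos h2, if_pos h2, CMA14_coeff, ← mul_assoc]
    congr 1
    rw [← pow_add]
    have h3 := h t ht
    have h4 : d - t.card + (d - t.card - (j - t.card)) = 2 * (d - j) + (j - t.card) := by omega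
    rw [h4, pow_add, pow_mul]
    norm_num
  · rw [if_neg h2, if_neg h2, mul_zero]

open Polynomial in
private theorem CMA14_right {X0 : Finset (Finset V)} (h : ∀ t ∈ X0, t.card ≤ d) {j : ℕ} (hj : j ≤ d) :
    (∑ t ∈ X0, ((X : ℤ[X]) - 1) ^ (d - t.card)).coeff j = hnum d X0 (d - j) := by
  rw [CMA14_hnum, Polynomial.finsetSum_coeff]
  refine Finset.sum_congr rfl fun t ht => ?_
  rw [CMA14_coeff]
  have h3 := h t ht
  by_cases h2 : t.card ≤ d - j
  · rw [if_pos h2]
    have h4 : d - t.card - j = d - j - t.card := by omega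
    rw [h4]
    congr 2
    have h5 : d - t.card = (d - j - t.card) + j := by omega
    rw [h5]
    exact (Nat.choose_symm_add).symm
  · rw [if_neg h2, Nat.choose_eq_zero_of_lt (by omega)]
    simp

theorem hnum_symm (h : HBallB d D B) {i : ℕ} (hi : i ≤ d) : hnum d (D \ B) i = hnum d D (d - i) := by
  classical
  have hD : ∀ t ∈ D, t.card ≤ d := h.card
  have hDB : ∀ t ∈ D \ B, t.card ≤ d := fun t ht => hD t (Finset.mem_sdiff.1 ht).1
  rw [← CMA14_left hDB hi, ← CMA14_right hD hi]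
  congr 1
  open Polynomial in
  have e1 : ∀ s ∈ D, ((X : ℤ[X]) - 1) ^ (d - s.card) =
      ∑ t ∈ D \ B, if s ⊆ t then (-1 : ℤ[X]) ^ (d - t.card) * (X - 1) ^ (d - s.card) else 0 := by
    intro s hs
    have h1 := euler_int h hs
    have h2 : ∑ t ∈ (D \ B).filter (fun t => s ⊆ t), (-1 : ℤ[X]) ^ (d - t.card) = 1 := by
      have h3 := congrArg (Int.castRingHom ℤ[X]) h1
      rw [map_sum, map_one] at h3
      refine Eq.trans (Finset.sum_congr rfl fun t _ => ?_) h3
      simp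
    rw [← Finset.sum_filter, ← Finset.sum_mul, h2, one_mul]
  rw [Finset.sum_congr rfl e1, Finset.sum_comm]
  refine Finset.sum_congr rfl fun t ht => ?_
  have htD : t ∈ D := (Finset.mem_sdiff.1 ht).1
  have htc := hD t htD
  rw [← Finset.sum_filter, ← Finset.mul_sum]
  congr 1
  have e2 : D.filter (fun s => s ⊆ t) = t.powerset := by
    ext s
    rw [Finset.mem_filter, Finset.mem_powerset]
    exact ⟨fun hs => hs.2, fun hs => ⟨h.cx.2 t htD s hs, hs⟩⟩
  rw [e2]
  have e3 : ∀ s ∈ t.powerset, ((Polynomial.X : Polynomial ℤ) - 1) ^ (d - s.card) =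
      (Polynomial.X - 1) ^ (d - t.card) * (1 ^ s.card * (Polynomial.X - 1) ^ (t.card - s.card)) := by
    intro s hs
    have h1 := Finset.card_le_card (Finset.mem_powerset.1 hs)
    rw [one_pow, one_mul, ← pow_add]
    congr 1
    omega
  rw [Finset.sum_congr rfl e3, ← Finset.mul_sum, Finset.sum_pow_mul_eq_add_pow]
  congr 2
  ring

end Pool.Agent.LibHB64
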