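import Pool.Agent.LibHB64.CMDefs

set_option autoImplicit false

/-!
Row CMA2 (MEDIUM). Regular sequences and short exact sequences, graded and by hand. Only Mathlib + CMDefs (only the section `Abstract`).

`SS_le`: `SS T k Z i ≤ Z i` for `Stab T Z`. `SS_mono`: in `k` and in `Z`.
`inj_ker`, by induction on `k` (write `X i = C i ⊓ ker δ`): `k = 0`: `SS T 0 C i = ⊥` (also for `i + 1`: empty supremum). `k + 1`, `i = 0`: `⊥`. `k + 1`, degree `i + 1`:
`f = ∑_{j < k} T j (c j) + T k c` with `c j, c ∈ C i` (if `k < d`; if `d ≤ k` nothing is new). Apply `δ`: `T k (δ c) = - ∑ T j (δ (c j)) ∈ SS T k Y (i + 1)` so `δ c ∈ SS T k Y i` by `hreg`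
(`GReg T (k + 1) Y`); if `i = 0`, `δ c = 0`; if `i = i' + 1`, `δ c = ∑_{j < k} T j (δ (e j))`, `e j ∈ C i'` (`hY`), so `g = c - ∑ T j (e j) ∈ X i`. Then
`f - T k g ∈ C (i + 1)`, killed by `δ`, and in `SS T k C (i + 1)` (`T k (T j e) = T j (T k e)`), so in `SS T k X (i + 1)` by induction, and `T k g ∈ SS T (k + 1) X (i + 1)`.
A convenient first lemma: `SS T (k + 1) Z (i + 1) = SS T k Z (i + 1) ⊔ (Z i).map (T ⟨k, _⟩)` for `k < d` and `SS T k Y i = (SS T k C i).map δ`.
`greg_ker`: `f ∈ X i`, `T j f ∈ SS T j X (i + 1) ≤ SS T j C (i + 1)`, so `f ∈ SS T j C i` (`hC'`), and `inj_ker` for `k := j` (`GReg T j Y` because `j ≤ k`).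
-/

namespace Pool.Agent.LibHB64

variable {K E : Type*} [Field K] [AddCommGroup E] [Module K E] {d : ℕ}

theorem SS_le {T : Fin d → E →ₗ[K] E} {Z : ℕ → Submodule K E} (hZ : Stab T Z) (k i : ℕ) : SS T k Z i ≤ Z i := by
  cases i with
  | zero => exact bot_le
  | succ i => exact iSup₂_le fun j _ => hZ j i

theorem SS_mono {T : Fin d → E →ₗ[K] E} {Z Z' : ℕ → Submodule K E} (hZ : ∀ i, Z i ≤ Z' i) {k k' : ℕ} (hk : k ≤ k')
    (i : ℕ) : SS T k Z i ≤ SS T k' Z' i := by
  cases i with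
  | zero => exact bot_le
  | succ i =>
    refine iSup₂_le fun j hj => ?_
    exact (Submodule.map_mono (hZ i)).trans
      (le_iSup₂ (f := fun (j : Fin d) (_ : (j : ℕ) < k') => (Z' i).map (T j)) j (hj.trans_le hk))

theorem GReg.mono {T : Fin d → E →ₗ[K] E} {Z : ℕ → Submodule K E} {k k' : ℕ} (h : GReg T k' Z) (hk : k ≤ k') :
    GReg T k Z := fun j hj => h j (hj.trans_le hk)

theorem SS_succ (T : Fin d → E →ₗ[K] E) (Z : ℕ → Submodule K E) (k : ℕ) (hk : k < d) (i : ℕ) :
    SS T (k + 1) Z (i + 1) = SS T k Z (i + 1) ⊔ (Z i).map (T ⟨k, hk⟩) := by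
  refine le_antisymm ?_ (sup_le (SS_mono (fun _ => le_rfl) (Nat.le_succ k) (i + 1)) ?_)
  · refine iSup₂_le fun j hj => ?_
    rcases Nat.lt_succ_iff_lt_or_eq.1 hj with h | h
    · exact le_sup_of_le_left
        (le_iSup₂ (f := fun (j : Fin d) (_ : (j : ℕ) < k) => (Z i).map (T j)) j h)
    · have h1 : j = ⟨k, hk⟩ := Fin.ext h
      rw [h1]
      exact le_sup_right
  · exact le_iSup₂ (f := fun (j : Fin d) (_ : (j : ℕ) < k + 1) => (Z i).map (T j)) ⟨k, hk⟩
      (Nat.lt_succ_self k)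

private theorem CMA2_big (T : Fin d → E →ₗ[K] E) (Z : ℕ → Submodule K E) (k : ℕ) (hk : ¬ k < d)
    (i : ℕ) : SS T (k + 1) Z i ≤ SS T k Z i := by
  cases i with
  | zero => exact bot_le
  | succ i =>
    refine iSup₂_le fun j _ => ?_
    exact le_iSup₂ (f := fun (j : Fin d) (_ : (j : ℕ) < k) => (Z i).map (T j)) j
      (lt_of_lt_of_le j.2 (not_lt.1 hk))

private theorem CMA2_map {T : Fin d → E →ₗ[K] E} (δ : E →ₗ[K] E)
    (hδ : ∀ j f, δ (T j f) = T j (δ f)) {C Y : ℕ → Submodule K E} (hY : ∀ i, (C i).map δ = Y i)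
    (k i : ℕ) : (SS T k C i).map δ = SS T k Y i := by
  cases i with
  | zero => exact Submodule.map_bot _
  | succ i =>
    have h1 : ∀ j : Fin d, ((C i).map (T j)).map δ = (Y i).map (T j) := by
      intro j
      rw [← hY i, ← Submodule.map_comp, ← Submodule.map_comp]
      congr 1
      exact LinearMap.ext fun f => hδ j f
    simp only [SS, Submodule.map_iSup, h1]

private theorem CMA2_mul {T : Fin d → E →ₗ[K] E} (hT : ∀ j l f, T j (T l f) = T l (T j f))
    {C : ℕ → Submodule K E} (hC : Stab T C) (l : Fin d) (k i : ℕ) :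
    (SS T k C i).map (T l) ≤ SS T k C (i + 1) := by
  cases i with
  | zero =>
    have h1 : (SS T k C 0).map (T l) = ⊥ := Submodule.map_bot _
    rw [h1]
    exact bot_le
  | succ i =>
    have h0 : SS T k C (i + 1) = ⨆ (j : Fin d) (_ : (j : ℕ) < k), (C i).map (T j) := rfl
    rw [h0, Submodule.map_iSup]
    refine iSup_le fun j => ?_
    rw [Submodule.map_iSup]
    refine iSup_le fun hj => ?_
    have h1 : ((C i).map (T j)).map (T l) = ((C i).map (T l)).map (T j) := by
      rw [← Submodule.map_comp, ← Submodule.map_comp]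
      congr 1
      exact LinearMap.ext fun f => hT l j f
    rw [h1]
    exact (Submodule.map_mono (hC l i)).trans
      (le_iSup₂ (f := fun (j : Fin d) (_ : (j : ℕ) < k) => (C (i + 1)).map (T j)) j hj)

private theorem CMA2_zero (T : Fin d → E →ₗ[K] E) (Z : ℕ → Submodule K E) (i : ℕ) :
    SS T 0 Z i = ⊥ := by
  cases i with
  | zero => rfl
  | succ i =>
    rw [eq_bot_iff]
    exact iSup₂_le fun j hj => absurd hj (Nat.not_lt_zero _)

theorem inj_ker {T : Fin d → E →ₗ[K] E} (hT : ∀ j l f, T j (T l f) = T l (T j f)) (δ : E →ₗ[K] E)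
    (hδ : ∀ j f, δ (T j f) = T j (δ f)) {C Y : ℕ → Submodule K E} (hC : Stab T C) (hY : ∀ i, (C i).map δ = Y i)
    {k : ℕ} (hreg : GReg T k Y) (i : ℕ) (f : E) (hf : f ∈ C i) (h0 : δ f = 0) (hS : f ∈ SS T k C i) :
    f ∈ SS T k (fun i => C i ⊓ LinearMap.ker δ) i := by
  induction k generalizing i f with
  | zero =>
    rw [CMA2_zero, Submodule.mem_bot] at hS
    rw [hS]
    exact Submodule.zero_mem _
  | succ k ih =>
    have ih' := ih (hreg.mono (Nat.le_succ k))
    cases i with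
    | zero =>
      have h1 : f = 0 := hS
      rw [h1]
      exact Submodule.zero_mem _
    | succ i =>
      have hmono : SS T k (fun i => C i ⊓ LinearMap.ker δ) (i + 1) ≤
          SS T (k + 1) (fun i => C i ⊓ LinearMap.ker δ) (i + 1) :=
        SS_mono (fun _ => le_rfl) (Nat.le_succ k) _
      by_cases hk : k < d
      · rw [SS_succ T C k hk i] at hS
        obtain ⟨u, hu, v, ⟨c, hc, rfl⟩, huv⟩ := Submodule.mem_sup.1 hS
        have hc' : c ∈ C i := hc
        have h1 : δ u + T ⟨k, hk⟩ (δ c) = 0 := by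
          rw [← hδ, ← map_add, huv, h0]
        have h2 : δ u ∈ SS T k Y (i + 1) := by
          rw [← CMA2_map δ hδ hY]
          exact Submodule.mem_map_of_mem hu
        have h3 : T ⟨k, hk⟩ (δ c) ∈ SS T k Y (i + 1) := by
          have h4 : T ⟨k, hk⟩ (δ c) = -δ u := eq_neg_of_add_eq_zero_right h1
          rw [h4]
          exact Submodule.neg_mem _ h2
        have h5 : δ c ∈ Y i := by
          rw [← hY]
          exact Submodule.mem_map_of_mem hc'
        have h6 : δ c ∈ SS T k Y i := hreg ⟨k, hk⟩ (Nat.lt_succ_self k) i (δ c) h5 h3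
        rw [← CMA2_map δ hδ hY] at h6
        obtain ⟨e, he, hec⟩ := h6
        have he' : e ∈ SS T k C i := he
        have hgC : c - e ∈ C i := Submodule.sub_mem _ hc' (SS_le hC k i he')
        have hg0 : δ (c - e) = 0 := by rw [map_sub, hec, sub_self]
        have hTg : T ⟨k, hk⟩ (c - e) ∈ C (i + 1) :=
          hC ⟨k, hk⟩ i (Submodule.mem_map_of_mem hgC)
        have hrest : f - T ⟨k, hk⟩ (c - e) ∈ SS T k C (i + 1) := by
          have h7 : f - T ⟨k, hk⟩ (c - e) = u + T ⟨k, hk⟩ e := by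
            rw [← huv, map_sub]; abel
          rw [h7]
          exact Submodule.add_mem _ hu
            (CMA2_mul hT hC ⟨k, hk⟩ k i (Submodule.mem_map_of_mem he'))
        have h8 := ih' (i + 1) (f - T ⟨k, hk⟩ (c - e)) (Submodule.sub_mem _ hf hTg)
          (by rw [map_sub, h0, hδ, hg0, map_zero, sub_zero]) hrest
        have h9 : T ⟨k, hk⟩ (c - e) ∈
            SS T (k + 1) (fun i => C i ⊓ LinearMap.ker δ) (i + 1) := by
          rw [SS_succ T _ k hk i]
          exact Submodule.mem_sup_right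
            (Submodule.mem_map_of_mem (p := C i ⊓ LinearMap.ker δ) ⟨hgC, hg0⟩)
        have h10 := Submodule.add_mem _ (hmono h8) h9
        rwa [sub_add_cancel] at h10
      · exact hmono (ih' (i + 1) f hf h0 (CMA2_big T C k hk (i + 1) hS))

theorem greg_ker {T : Fin d → E →ₗ[K] E} (hT : ∀ j l f, T j (T l f) = T l (T j f)) (δ : E →ₗ[K] E)
    (hδ : ∀ j f, δ (T j f) = T j (δ f)) {C Y : ℕ → Submodule K E} (hC : Stab T C) (hY : ∀ i, (C i).map δ = Y i)
    {k : ℕ} (hreg : GReg T k Y) (hC' : GReg T (k + 1) C) : GReg T (k + 1) fun i => C i ⊓ LinearMap.ker δ := by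
  intro j hj i f hf hTf
  have hf' : f ∈ C i ⊓ LinearMap.ker δ := hf
  have h1 : T j f ∈ SS T j C (i + 1) := SS_mono (fun _ => inf_le_left) le_rfl (i + 1) hTf
  have h2 : f ∈ SS T j C i := hC' j hj i f hf'.1 h1
  exact inj_ker hT δ hδ hC hY (hreg.mono (Nat.lt_succ_iff.1 hj)) i f hf'.1 hf'.2 h2

end Pool.Agent.LibHB64
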