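import Pool.Agent.LibHB64.CMDefs

set_option autoImplicit false

/-!
Row CMA3 (MEDIUM). Variables form a regular sequence, graded. Only Mathlib + CMDefs.

`var_mem`: induction on `i` is not needed. `i = 0`: left side `g = 0`; right side: a monomial of degree `0` has `α = 0`, so `g = 0`. `i + 1`, `→`: `Submodule.iSup_induction` (or `iSup_le` into the submodule
given by the right side): `X l * g'` has only monomials with `α l ≠ 0` (`MvPolynomial.coeff_X_mul'`). `←`: `g = ∑ α ∈ g.support, monomial α (coeff α g)` and for `α l ≠ 0`: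
`monomial α c = X l * monomial (α - single l 1) c`. `var_greg`: `coeff (α + single j 1) (X j * f) = coeff α f` (`coeff_X_mul`); apply `var_mem` to `X j * f` at `α + single j 1`: some `l < j` with
`(α + single j 1) l ≠ 0`, `l ≠ j`, so `α l ≠ 0`. `var_top`: if `coeff α g ≠ 0` and `α l = 0` for all `l ≠ last` then `α = single last i`; the value of `g` at `(0, ..., 0, 1)` is
`coeff (single last i) g` (all other monomials vanish there).
-/

namespace Pool.Agent.LibHB64

open MvPolynomial

variable {K : Type*} [Field K]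

private def CMA3_P (K : Type*) [Field K] (n k : ℕ) : Submodule K (MvPolynomial (Fin n) K) where
  carrier := {g | ∀ α, coeff α g ≠ 0 → ∃ l : Fin n, (l : ℕ) < k ∧ α l ≠ 0}
  add_mem' := by
    intro a b ha hb α hα
    by_cases h : coeff α a = 0
    · refine hb α ?_
      rw [coeff_add, h, zero_add] at hα
      exact hα
    · exact ha α h
  zero_mem' := by
    intro α hα
    exact absurd (coeff_zero α) hα
  smul_mem' := by
    intro c x hx α hα
    refine hx α fun h => hα ?_
    rw [coeff_smul, h, smul_zero]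

private theorem CMA3_mem_P (n k : ℕ) (g : MvPolynomial (Fin n) K) : g ∈ CMA3_P K n k ↔
    ∀ α, coeff α g ≠ 0 → ∃ l : Fin n, (l : ℕ) < k ∧ α l ≠ 0 := Iff.rfl

private theorem CMA3_deg {n i : ℕ} {g : MvPolynomial (Fin n) K}
    (hg : g ∈ homogeneousSubmodule (Fin n) K i) {α : Fin n →₀ ℕ} (hα : coeff α g ≠ 0) :
    α.degree = i := by
  rw [mem_homogeneousSubmodule] at hg
  by_contra h
  exact hα (hg.coeff_eq_zero h)

private theorem CMA3_split {n : ℕ} (α : Fin n →₀ ℕ) (l : Fin n) (h : α l ≠ 0) :
    Finsupp.single l 1 + (α - Finsupp.single l 1) = α := by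
  ext m
  rw [Finsupp.add_apply, Finsupp.tsub_apply]
  by_cases hm : l = m
  · subst hm
    rw [Finsupp.single_eq_same]
    omega
  · rw [Finsupp.single_eq_of_ne (Ne.symm hm)]
    omega

theorem var_mem (n k i : ℕ) (g : MvPolynomial (Fin n) K) :
    g ∈ SS (fun j : Fin n => LinearMap.mulLeft K (X j : MvPolynomial (Fin n) K)) k
        (homogeneousSubmodule (Fin n) K) i ↔
      g ∈ homogeneousSubmodule (Fin n) K i ∧ ∀ α, coeff α g ≠ 0 → ∃ l : Fin n, (l : ℕ) < k ∧ α l ≠ 0 := by
  cases i with
  | zero =>
    rw [SS, Submodule.mem_bot]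
    constructor
    · rintro rfl
      exact ⟨Submodule.zero_mem _, fun α hα => absurd (coeff_zero α) hα⟩
    · rintro ⟨h1, h2⟩
      ext α
      rw [coeff_zero]
      by_contra hα
      obtain ⟨l, -, hl⟩ := h2 α hα
      have h3 := CMA3_deg h1 hα
      rw [Finsupp.degree_eq_zero_iff] at h3
      rw [h3] at hl
      exact hl rfl
  | succ i =>
    constructor
    · intro h
      have hle : SS (fun j : Fin n => LinearMap.mulLeft K (X j : MvPolynomial (Fin n) K)) k
          (homogeneousSubmodule (Fin n) K) (i + 1) ≤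
          homogeneousSubmodule (Fin n) K (i + 1) ⊓ CMA3_P K n k := by
        rw [SS]
        refine iSup_le fun j => iSup_le fun hj => ?_
        rintro _ ⟨f, hf, rfl⟩
        rw [LinearMap.mulLeft_apply]
        refine ⟨?_, ?_⟩
        · have h1 : (X j * f).IsHomogeneous (1 + i) := (isHomogeneous_X K j).mul hf
          rw [add_comm] at h1
          exact h1
        · intro α hα
          refine ⟨j, hj, fun h0 => hα ?_⟩
          rw [coeff_X_mul', if_neg]
          rw [Finsupp.mem_support_iff, not_not]
          exact h0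
      exact hle h
    · rintro ⟨h1, h2⟩
      rw [SS, as_sum g]
      refine Submodule.sum_mem _ fun α hα => ?_
      rw [mem_support_iff] at hα
      obtain ⟨l, hl, hl2⟩ := h2 α hα
      refine Submodule.mem_iSup_of_mem l (Submodule.mem_iSup_of_mem hl
        ⟨monomial (α - Finsupp.single l 1) (coeff α g), ?_, ?_⟩)
      · have h3 : (α - Finsupp.single l 1).degree = i := by
          have h4 := CMA3_deg h1 hα
          rw [← CMA3_split α l hl2, map_add, Finsupp.degree_single] at h4
          omega
        exact isHomogeneous_monomial _ h3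
      · rw [LinearMap.mulLeft_apply, X, monomial_mul, one_mul, CMA3_split α l hl2]

theorem var_greg (n : ℕ) : GReg (fun j : Fin n => LinearMap.mulLeft K (X j : MvPolynomial (Fin n) K)) n
    (homogeneousSubmodule (Fin n) K) := by
  intro j _ i f hf hT
  rw [var_mem] at hT ⊢
  refine ⟨hf, fun α hα => ?_⟩
  have h1 : coeff (Finsupp.single j 1 + α) (LinearMap.mulLeft K (X j : MvPolynomial (Fin n) K) f) ≠ 0 := by
    rw [LinearMap.mulLeft_apply, coeff_X_mul]
    exact hα
  obtain ⟨l, hl, hl2⟩ := hT.2 _ h1
  refine ⟨l, hl, ?_⟩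
  rw [Finsupp.add_apply, Finsupp.single_eq_of_ne, zero_add] at hl2
  · exact hl2
  · rintro rfl
    exact lt_irrefl _ hl

theorem var_top (n i : ℕ) (g : MvPolynomial (Fin n) K) (hg : g ∈ homogeneousSubmodule (Fin n) K i)
    (h0 : aeval (fun j : Fin n => if (j : ℕ) + 1 = n then (1 : K) else 0) g = 0) (hn : 1 ≤ n) :
    g ∈ SS (fun j : Fin n => LinearMap.mulLeft K (X j : MvPolynomial (Fin n) K)) (n - 1)
        (homogeneousSubmodule (Fin n) K) i := by
  rw [var_mem]
  refine ⟨hg, fun α hα => ?_⟩
  by_contra hcon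
  push Not at hcon
  have hval : ∀ β ∈ g.support, β ≠ α →
      (algebraMap K K) (coeff β g) * ∏ l : Fin n, (if (l : ℕ) + 1 = n then (1 : K) else 0) ^ β l = 0 := by
    intro β hβ hne
    have hex : ∃ l : Fin n, (l : ℕ) + 1 ≠ n ∧ β l ≠ 0 := by
      by_contra hcon2
      push Not at hcon2
      apply hne
      have hdβ := CMA3_deg hg (mem_support_iff.1 hβ)
      have hdα := CMA3_deg hg hα
      rw [Finsupp.degree_eq_sum] at hdβ hdα
      obtain ⟨m, rfl⟩ : ∃ m, n = m + 1 := ⟨n - 1, by omega⟩
      rw [Fin.sum_univ_castSucc] at hdβ hdα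
      have hβ0 : ∀ l : Fin m, β (Fin.castSucc l) = 0 := fun l => hcon2 _ (by
        simp only [Fin.val_castSucc]
        omega)
      have hα0 : ∀ l : Fin m, α (Fin.castSucc l) = 0 := fun l => hcon _ (by
        simp only [Fin.val_castSucc]
        omega)
      rw [Finset.sum_eq_zero fun l _ => hβ0 l, zero_add] at hdβ
      rw [Finset.sum_eq_zero fun l _ => hα0 l, zero_add] at hdα
      ext l
      induction l using Fin.lastCases with
      | last => rw [hdβ, hdα]
      | cast l => rw [hβ0, hα0]
    obtain ⟨l, hl, hl2⟩ := hex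
    rw [Finset.prod_eq_zero (Finset.mem_univ l), mul_zero]
    rw [if_neg hl, zero_pow hl2]
  rw [aeval_def, eval₂_eq', Finset.sum_eq_single α hval (fun h => absurd (mem_support_iff.2 hα) h)] at h0
  rw [Finset.prod_eq_one, mul_one] at h0
  · exact hα h0
  · intro l _
    by_cases hl : (l : ℕ) + 1 = n
    · rw [if_pos hl, one_pow]
    · rw [hcon l (by omega), pow_zero]

end Pool.Agent.LibHB64
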