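import Pool.Agent.LibHB64.CMA1

set_option autoImplicit false

/-!
Row CMA4 (MEDIUM). Linear change of coordinates on a face `t` (`t.card = n ≤ d`). Uses CMA1.

The linear map `y ↦ (∑ v, a j v * y v)_(j < n)` from functions supported on `t` (dimension `n`) to `Fin n → K` is injective (`Gen`), so bijective: there are `b : V → Fin n → K` with
`b v = 0` for `v ∉ t`, and `∑_{v} a_j v * b v k = if j = k then 1 else 0` (`j, k : Fin n`), and also `∑_{j : Fin n} a_j w * b v j = if v = w then 1 else 0` for `v, w ∈ t` (left inverse of a square matrix is a right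
inverse: `Matrix.mul_eq_one_comm` after `t ≃ Fin n`). `σ = aeval (fun j => res K t (th a j))`, `res K t (th a j) = ∑ v ∈ t, C (a j v) * X v`; `τ : MvPolynomial V K →ₐ MvPolynomial (Fin n) K`,
`τ (X v) = ∑_j C (b v j) * X j`. `τ (σ g) = g` (check on variables) so `σ` is injective. `σ (τ p) = res K t p` (check on variables), `= p` for `p ∈ mon K t.powerset i` (`res_self`).
Degrees: `σ` and `τ` send variables to linear forms; `IsHomogeneous.aeval` / `IsHomogeneous.eval₂` (or products); `p ∈ mon K t.powerset i` is homogeneous of degree `i`; an element `σ g`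
is fixed by `res K t` (check on variables), so it is supported on `t` (`coeff_res`).
-/

namespace Pool.Agent.LibHB64

open MvPolynomial

variable {V : Type*} [Fintype V] [DecidableEq V] {K : Type*} [Field K] {d : ℕ} {D : Finset (Finset V)}

omit [DecidableEq V] in
private theorem CMA4_mat {a : Fin d → V → K} (hg : Gen D a) {t : Finset V} (ht : t ∈ D) {n : ℕ} (hn : t.card = n)
    (hd : n ≤ d) (i : Fin n → V) (hi : Function.Injective i) (hit : ∀ v, v ∉ t → v ∉ Set.range i) :
    ∃ B : Matrix (Fin n) (Fin n) K, (Matrix.of fun j k => a (Fin.castLE hd j) (i k)) * B = 1 ∧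
      B * (Matrix.of fun j k => a (Fin.castLE hd j) (i k)) = 1 := by
  set A : Matrix (Fin n) (Fin n) K := Matrix.of fun j k => a (Fin.castLE hd j) (i k) with hA
  have hinj : Function.Injective A.mulVec := by
    intro y y' hyy
    have h0 : A.mulVec (y - y') = 0 := by
      rw [Matrix.mulVec_sub, sub_eq_zero]
      exact hyy
    set w := y - y' with hw
    have h1 : Function.extend i w (0 : V → K) = 0 := by
      refine hg t ht _ (fun v hv => ?_) (fun j hj => ?_)
      · rw [Function.extend_apply' _ _ _ (fun h => hit v hv h)]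
        rfl
      · have hj' : (j : ℕ) < n := by omega
        have h2 := congrFun h0 ⟨(j : ℕ), hj'⟩
        have h3 : ∑ k, A ⟨(j : ℕ), hj'⟩ k * w k = ∑ v, a j v * Function.extend i w (0 : V → K) v := by
          refine Fintype.sum_of_injective i hi _ _ (fun v hv => ?_) (fun k => ?_)
          · rw [Function.extend_apply' _ _ _ (fun h => hv h)]
            simp
          · rw [hi.extend_apply]
            rfl
        rw [← h3]
        exact h2
    have h4 : w = 0 := by
      funext k
      have := congrFun h1 (i k)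
      rw [hi.extend_apply] at this
      exact this
    exact sub_eq_zero.1 h4
  obtain ⟨u, hu⟩ := Matrix.mulVec_injective_iff_isUnit.1 hinj
  refine ⟨(u⁻¹ : (Matrix (Fin n) (Fin n) K)ˣ), ?_, ?_⟩
  · rw [← hu, Units.mul_inv]
  · rw [← hu, Units.inv_mul]

/-- linear substitution -/
private noncomputable def CMA4_lin {n : ℕ} (A : Matrix (Fin n) (Fin n) K) : MvPolynomial (Fin n) K →ₐ[K] MvPolynomial (Fin n) K :=
  aeval fun j => ∑ k, C (A j k) * X k

private theorem CMA4_comp {n : ℕ} {A B : Matrix (Fin n) (Fin n) K} (h : B * A = 1) (p : MvPolynomial (Fin n) K) :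
    CMA4_lin A (CMA4_lin B p) = p := by
  have h1 : (CMA4_lin A).comp (CMA4_lin B) = AlgHom.id K (MvPolynomial (Fin n) K) := by
    refine MvPolynomial.algHom_ext fun j => ?_
    simp only [AlgHom.comp_apply, AlgHom.id_apply, CMA4_lin, aeval_X, map_sum, map_mul, algHom_C, algebraMap_eq]
    simp only [Finset.mul_sum, ← mul_assoc, ← C_mul]
    rw [Finset.sum_comm]
    simp only [← Finset.sum_mul, ← map_sum]
    have h2 : ∀ k, ∑ x, B j x * A x k = (1 : Matrix (Fin n) (Fin n) K) j k := by
      intro k
      rw [← h, Matrix.mul_apply]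
    simp only [h2, Matrix.one_apply]
    rw [Finset.sum_eq_single j]
    · simp
    · intro b _ hb
      rw [if_neg (Ne.symm hb), C_0, zero_mul]
    · simp
  have := congrArg (fun f => f p) h1
  exact this

private theorem CMA4_hom {n : ℕ} (A : Matrix (Fin n) (Fin n) K) {p : MvPolynomial (Fin n) K} {i : ℕ}
    (hp : p ∈ homogeneousSubmodule (Fin n) K i) : CMA4_lin A p ∈ homogeneousSubmodule (Fin n) K i := by
  rw [mem_homogeneousSubmodule] at hp ⊢
  have h1 := hp.aeval (fun j => ∑ k, C (A j k) * X k) (n := 1) fun j => by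
    refine IsHomogeneous.sum _ _ _ fun k _ => ?_
    have := (isHomogeneous_C (Fin n) (A j k)).mul (isHomogeneous_X K k)
    simpa using this
  rw [one_mul] at h1
  exact h1

omit [Fintype V] in
private theorem CMA4_rename {t : Finset V} {n : ℕ} (i : Fin n → V) (hi : Function.Injective i)
    (hit : ∀ v, v ∈ t ↔ v ∈ Set.range i) (m : ℕ) :
    (homogeneousSubmodule (Fin n) K m).map (rename i : MvPolynomial (Fin n) K →ₐ[K] MvPolynomial V K).toLinearMap =
      mon K t.powerset m := by
  have h1 : homogeneousSubmodule (Fin n) K m = Submodule.span K {p | ∃ b : Fin n →₀ ℕ, b.degree = m ∧ p = monomial b 1} := by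
    apply le_antisymm
    · intro p hp
      rw [mem_homogeneousSubmodule] at hp
      rw [p.as_sum]
      refine Submodule.sum_mem _ fun b hb => ?_
      have h2 : (monomial b) (coeff b p) = coeff b p • (monomial b (1 : K)) := by
        rw [smul_monomial, smul_eq_mul, mul_one]
      rw [h2]
      refine Submodule.smul_mem _ _ (Submodule.subset_span ⟨b, ?_, rfl⟩)
      have h3 := hp (mem_support_iff.1 hb)
      rw [← h3, Finsupp.degree_eq_weight_one]
      rfl
    · rw [Submodule.span_le]
      rintro p ⟨b, hb, rfl⟩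
      exact isHomogeneous_monomial 1 hb
  rw [h1, Submodule.map_span]
  unfold mon
  congr 1
  ext p
  constructor
  · rintro ⟨_, ⟨b, hb, rfl⟩, rfl⟩
    refine ⟨b.mapDomain i, ?_, ?_, ?_⟩
    · rw [Finset.mem_powerset]
      intro v hv
      have h2 := Finsupp.mapDomain_support hv
      rw [Finset.mem_image] at h2
      obtain ⟨k, _, hk⟩ := h2
      exact (hit v).2 ⟨k, hk⟩
    · rw [← hb, Finsupp.degree_mapDomain]
    · simp [rename_monomial]
  · rintro ⟨α, hα, hdeg, rfl⟩
    rw [Finset.mem_powerset] at hα
    have h2 : Finsupp.mapDomain i (Finsupp.comapDomain i α hi.injOn) = α :=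
      Finsupp.mapDomain_comapDomain i hi α (fun v hv => (hit v).1 (hα hv))
    refine ⟨monomial (Finsupp.comapDomain i α hi.injOn) 1, ⟨_, ?_, rfl⟩, ?_⟩
    · rw [← hdeg, ← h2, Finsupp.degree_mapDomain, h2]
    · simp [rename_monomial, h2]

theorem coord {a : Fin d → V → K} (hg : Gen D a) {t : Finset V} (ht : t ∈ D) {n : ℕ} (hn : t.card = n)
    (hd : n ≤ d) :
    ∃ σ : MvPolynomial (Fin n) K →ₐ[K] MvPolynomial V K,
      (∀ j : Fin n, σ (X j) = res K t (th a (Fin.castLE hd j))) ∧ Function.Injective σ ∧
        ∀ i, (homogeneousSubmodule (Fin n) K i).map σ.toLinearMap = mon K t.powerset i := by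
  set e := Finset.equivFinOfCardEq hn with he
  set i : Fin n → V := fun k => (e.symm k : V) with hidef
  have hi : Function.Injective i := fun x y h => e.symm.injective (Subtype.ext h)
  have hit : ∀ v, v ∈ t ↔ v ∈ Set.range i := by
    intro v
    constructor
    · intro hv
      exact ⟨e ⟨v, hv⟩, by simp [hidef]⟩
    · rintro ⟨k, rfl⟩
      exact (e.symm k).2
  obtain ⟨B, hB1, hB2⟩ := CMA4_mat hg ht hn hd i hi (fun v hv h => hv ((hit v).2 h))
  set A : Matrix (Fin n) (Fin n) K := Matrix.of fun j k => a (Fin.castLE hd j) (i k) with hA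
  have hinj : Function.Injective (CMA4_lin A) := by
    intro p q hpq
    have := congrArg (CMA4_lin B) hpq
    rwa [CMA4_comp hB1, CMA4_comp hB1] at this
  refine ⟨(rename i).comp (CMA4_lin A), ?_, ?_, ?_⟩
  · intro j
    have h1 : res K t (th a (Fin.castLE hd j)) = ∑ v, C (a (Fin.castLE hd j) v) * (if v ∈ t then X v else 0) := by
      unfold th res
      simp only [map_sum, map_mul, aeval_X, algHom_C, algebraMap_eq]
    rw [h1]
    simp only [AlgHom.comp_apply, CMA4_lin, aeval_X, map_sum, map_mul, rename_C, rename_X]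
    refine Fintype.sum_of_injective i hi _ _ (fun v hv => ?_) (fun k => ?_)
    · rw [if_neg (fun h => hv ((hit v).1 h)), mul_zero]
    · rw [if_pos ((hit _).2 ⟨k, rfl⟩)]
      rfl
  · exact (rename_injective i hi).comp hinj
  · intro m
    have h1 : ((rename i).comp (CMA4_lin A) : MvPolynomial (Fin n) K →ₐ[K] MvPolynomial V K).toLinearMap =
        (rename i : MvPolynomial (Fin n) K →ₐ[K] MvPolynomial V K).toLinearMap ∘ₗ (CMA4_lin A).toLinearMap := rfl
    rw [h1, Submodule.map_comp, ← CMA4_rename i hi hit m]
    congr 1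
    apply le_antisymm
    · rintro _ ⟨p, hp, rfl⟩
      exact CMA4_hom A hp
    · intro p hp
      exact ⟨CMA4_lin B p, CMA4_hom B hp, CMA4_comp hB2 p⟩

end Pool.Agent.LibHB64
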