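import Pool.Agent.LibHB64.CMA2

set_option autoImplicit false

/-!
Row CMA5 (SHORT/MEDIUM). Transfer of `SS` and `GReg` along a linear map. Uses CMA2.

`SS_map`: `i = 0`: `⊥`. `i + 1`: `Submodule.map_iSup`, `(Z i).map (T j)` mapped by `ι` is `((Z i).map ι).map (T' j')` (`Submodule.map_comp`), and the indices `j < k` of `Fin d` and of `Fin d'` correspond (`k ≤ d`, `k ≤ d'`).
`greg_push`: `f' = ι f`, `f ∈ Z i`, `T' j (ι f) = ι (T j f) ∈ (SS T j Z (i + 1)).map ι`, so `ι (T j f) = ι g`, `g ∈ SS T j Z (i + 1) ≤ Z (i + 1)`; `T j f - g ∈ Z (i + 1)` is killed by `ι`, so `T j f = g`.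
`greg_pull`: similar.
-/

namespace Pool.Agent.LibHB64

variable {K E E' : Type*} [Field K] [AddCommGroup E] [Module K E] [AddCommGroup E'] [Module K E'] {d d' : ℕ}

theorem SS_map {T : Fin d → E →ₗ[K] E} {T' : Fin d' → E' →ₗ[K] E'} (ι : E →ₗ[K] E') {k : ℕ} (hk : k ≤ d)
    (hk' : k ≤ d') (hι : ∀ (j : ℕ) (h : j < k) (f : E), ι (T ⟨j, h.trans_le hk⟩ f) = T' ⟨j, h.trans_le hk'⟩ (ι f))
    (Z : ℕ → Submodule K E) (i : ℕ) : (SS T k Z i).map ι = SS T' k (fun i => (Z i).map ι) i := by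
  cases i with
  | zero => simp only [SS, Submodule.map_bot]
  | succ i =>
    simp only [SS, Submodule.map_iSup, ← Submodule.map_comp]
    refine le_antisymm (iSup₂_le fun j hj => ?_) (iSup₂_le fun j hj => ?_)
    · refine le_iSup₂_of_le (⟨(j : ℕ), hj.trans_le hk'⟩ : Fin d') hj (le_of_eq ?_)
      exact congrArg (fun φ => (Z i).map φ) (LinearMap.ext fun f => hι j hj f)
    · refine le_iSup₂_of_le (⟨(j : ℕ), hj.trans_le hk⟩ : Fin d) hj (le_of_eq ?_)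
      exact congrArg (fun φ => (Z i).map φ) (LinearMap.ext fun f => (hι j hj f).symm)

theorem greg_push {T : Fin d → E →ₗ[K] E} {T' : Fin d' → E' →ₗ[K] E'} (ι : E →ₗ[K] E') {k : ℕ} (hk : k ≤ d)
    (hk' : k ≤ d') (hι : ∀ (j : ℕ) (h : j < k) (f : E), ι (T ⟨j, h.trans_le hk⟩ f) = T' ⟨j, h.trans_le hk'⟩ (ι f))
    {Z : ℕ → Submodule K E} (hZ : Stab T Z) (hinj : ∀ i, ∀ f ∈ Z i, ι f = 0 → f = 0) (h : GReg T k Z) :
    GReg T' k fun i => (Z i).map ι := by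
  intro j' hj' i f' hf' hT'
  obtain ⟨f, hf, rfl⟩ := hf'
  have hSS := fun l => SS_map (T := T) (T' := T') ι (k := (j' : ℕ)) (hj'.le.trans hk) (hj'.le.trans hk')
    (fun l hl f => hι l (hl.trans hj') f) Z l
  rw [← hSS] at hT' ⊢
  obtain ⟨g, hg, hgf⟩ := hT'
  have h1 : ι g = ι (T ⟨(j' : ℕ), hj'.trans_le hk⟩ f) := by
    rw [hgf, hι j' hj' f]
  have h2 : T ⟨(j' : ℕ), hj'.trans_le hk⟩ f ∈ Z (i + 1) := hZ _ i (Submodule.mem_map_of_mem hf)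
  have h3 : T ⟨(j' : ℕ), hj'.trans_le hk⟩ f - g = 0 := by
    refine hinj (i + 1) _ (Submodule.sub_mem _ h2 (SS_le hZ _ _ hg)) ?_
    rw [map_sub, h1, sub_self]
  have h4 : T ⟨(j' : ℕ), hj'.trans_le hk⟩ f ∈ SS T (j' : ℕ) Z (i + 1) := by
    rw [sub_eq_zero.1 h3]
    exact hg
  exact Submodule.mem_map_of_mem (h ⟨(j' : ℕ), hj'.trans_le hk⟩ hj' i f hf h4)

theorem greg_pull {T : Fin d → E →ₗ[K] E} {T' : Fin d' → E' →ₗ[K] E'} (ι : E →ₗ[K] E') {k : ℕ} (hk : k ≤ d)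
    (hk' : k ≤ d') (hι : ∀ (j : ℕ) (h : j < k) (f : E), ι (T ⟨j, h.trans_le hk⟩ f) = T' ⟨j, h.trans_le hk'⟩ (ι f))
    {Z : ℕ → Submodule K E} (hZ : Stab T Z) (hinj : ∀ i, ∀ f ∈ Z i, ι f = 0 → f = 0)
    (h : GReg T' k fun i => (Z i).map ι) : GReg T k Z := by
  intro j hj i f hf hT
  have hSS := fun l => SS_map (T := T) (T' := T') ι (k := (j : ℕ)) (hj.le.trans hk) (hj.le.trans hk')
    (fun l hl f => hι l (hl.trans hj) f) Z l
  have h1 : T' ⟨(j : ℕ), hj.trans_le hk'⟩ (ι f) ∈ SS T' (j : ℕ) (fun i => (Z i).map ι) (i + 1) := by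
    rw [← hSS, ← hι j hj f]
    exact Submodule.mem_map_of_mem hT
  have h2 := h ⟨(j : ℕ), hj.trans_le hk'⟩ hj i (ι f) (Submodule.mem_map_of_mem hf) h1
  have h3 : ι f ∈ (SS T (j : ℕ) Z i).map ι := by
    rw [hSS]
    exact h2
  obtain ⟨g, hg, hgf⟩ := h3
  have h4 : f - g = 0 := by
    refine hinj i _ (Submodule.sub_mem _ hf (SS_le hZ _ _ hg)) ?_
    rw [map_sub, hgf, sub_self]
  rw [sub_eq_zero.1 h4]
  exact hg

end Pool.Agent.LibHB64
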