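import Pool.Agent.LibHB64.CMA3
import Pool.Agent.LibHB64.CMA4
import Pool.Agent.LibHB64.CMA5

set_option autoImplicit false

/-!
Row CMA6 (SHORT/MEDIUM). `θ_1, ..., θ_n` is regular on `K[t]`, `t.card = n`; evaluation at the point. Uses CMA1, CMA3, CMA4, CMA5.

`face_greg`: `coord` gives `σ`; `greg_push` with `ι = σ.toLinearMap`, `T j = mulLeft (X j)` on `MvPolynomial (Fin n) K`, `Z = homogeneousSubmodule`, `T' = Tf a t`, `k = n = t.card`; `(fun i => (Z i).map ι) = mon K t.powerset`.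
`face_pts`: `f = σ g` with `g` homogeneous of degree `i`; `aeval c (σ g) = aeval (fun j => aeval c (res K t (th a j))) g`, and `aeval c (res K t (th a j)) = aeval c (th a j) = ∑ v, a j v * c v = (if j + 1 = d then 1 else 0)`
(`aeval_res`), here `n = d`. `var_top` gives `g ∈ SS .. (d - 1) ..`, and `SS_map` with `k = d - 1`.
-/

namespace Pool.Agent.LibHB64

open MvPolynomial

variable {V : Type*} [Fintype V] [DecidableEq V] {K : Type*} [Field K] {d : ℕ} {D : Finset (Finset V)}

private theorem CMA6_stab (n : ℕ) : Stab (fun j : Fin n => LinearMap.mulLeft K (X j : MvPolynomial (Fin n) K))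
    (homogeneousSubmodule (Fin n) K) := by
  intro j i
  rintro _ ⟨f, hf, rfl⟩
  have hf' : f.IsHomogeneous i := hf
  show (X j * f : MvPolynomial (Fin n) K) ∈ homogeneousSubmodule (Fin n) K (i + 1)
  rw [mem_homogeneousSubmodule, add_comm]
  exact (isHomogeneous_X K j).mul hf'

private theorem CMA6_comm {a : Fin d → V → K} {t : Finset V} {n : ℕ} (hd : n ≤ d)
    (σ : MvPolynomial (Fin n) K →ₐ[K] MvPolynomial V K)
    (h1 : ∀ j : Fin n, σ (X j) = res K t (th a (Fin.castLE hd j))) {k : ℕ} (hk : k ≤ n) (hk' : k ≤ d) :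
    ∀ (j : ℕ) (h : j < k) (f : MvPolynomial (Fin n) K),
      σ.toLinearMap ((fun j : Fin n => LinearMap.mulLeft K (X j : MvPolynomial (Fin n) K)) ⟨j, h.trans_le hk⟩ f) =
        Tf a t ⟨j, h.trans_le hk'⟩ (σ.toLinearMap f) := by
  intro j h f
  show σ (X ⟨j, h.trans_le hk⟩ * f) = res K t (th a ⟨j, h.trans_le hk'⟩) * σ f
  rw [map_mul, h1]
  rfl

theorem face_greg {a : Fin d → V → K} (hg : Gen D a) {t : Finset V} (ht : t ∈ D) (hd : t.card ≤ d) :
    GReg (Tf a t) t.card (mon K t.powerset) := by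
  obtain ⟨σ, h1, h2, h3⟩ := coord hg ht rfl hd
  have h4 := greg_push (T := fun j : Fin t.card => LinearMap.mulLeft K (X j : MvPolynomial (Fin t.card) K))
    (T' := Tf a t) σ.toLinearMap (k := t.card) le_rfl hd (CMA6_comm hd σ h1 le_rfl hd)
    (Z := homogeneousSubmodule (Fin t.card) K) (CMA6_stab t.card)
    (fun i f _ hf => h2 (by
      rw [map_zero]
      exact hf)) (var_greg t.card)
  have h5 : (fun i => (homogeneousSubmodule (Fin t.card) K i).map σ.toLinearMap) = mon K t.powerset := funext h3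
  rw [h5] at h4
  exact h4

theorem face_pts {a : Fin d → V → K} (hg : Gen D a) {t : Finset V} (ht : t ∈ Fac d D) (hd : 1 ≤ d) {c : V → K}
    (hc : ∀ v, v ∉ t → c v = 0) (hc1 : ∀ j : Fin d, ∑ v, a j v * c v = if (j : ℕ) + 1 = d then 1 else 0) {i : ℕ}
    {f : MvPolynomial V K} (hf : f ∈ mon K t.powerset i) (h0 : (aeval c f : K) = 0) :
    f ∈ SS (Tf a t) (d - 1) (mon K t.powerset) i := by
  have htD : t ∈ D := (Finset.mem_filter.1 ht).1
  have htd : t.card = d := (Finset.mem_filter.1 ht).2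
  obtain ⟨σ, h1, h2, h3⟩ := coord hg htD htd le_rfl
  rw [← h3 i] at hf
  obtain ⟨g, hg1, hg2⟩ := hf
  have hg2' : σ g = f := hg2
  have h4 : ((aeval c : MvPolynomial V K →ₐ[K] K).comp σ) = aeval (fun j : Fin d => if (j : ℕ) + 1 = d then (1 : K) else 0) := by
    apply MvPolynomial.algHom_ext
    intro j
    rw [AlgHom.comp_apply, h1, aeval_res hc, aeval_X]
    unfold th
    rw [map_sum, ← hc1 j]
    refine Finset.sum_congr rfl fun v _ => ?_
    rw [map_mul, aeval_X, aeval_C]
    rfl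
  have h5 : aeval (fun j : Fin d => if (j : ℕ) + 1 = d then (1 : K) else 0) g = 0 := by
    rw [← h4, AlgHom.comp_apply, hg2', h0]
  have h6 := var_top d i g hg1 h5 hd
  have h7 := SS_map (T := fun j : Fin d => LinearMap.mulLeft K (X j : MvPolynomial (Fin d) K)) (T' := Tf a t)
    σ.toLinearMap (k := d - 1) (Nat.sub_le d 1) (Nat.sub_le d 1) (CMA6_comm le_rfl σ h1 (Nat.sub_le d 1) (Nat.sub_le d 1))
    (homogeneousSubmodule (Fin d) K) i
  have h8 : (fun i => (homogeneousSubmodule (Fin d) K i).map σ.toLinearMap) = mon K t.powerset := funext h3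
  rw [h8] at h7
  rw [← h7, ← hg2]
  exact Submodule.mem_map_of_mem h6

end Pool.Agent.LibHB64
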