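import Pool.Agent.LibHB64.CMA2
import Pool.Agent.LibHB64.CMA6

set_option autoImplicit false

/-!
Row CMA7 (MEDIUM). The products `∏ K[t]`. Uses CMA1, CMA2, CMA6.

`mem_SS_CC`: `i = 0`: both sides say `f = 0`. `i + 1`, `→`: `Submodule.iSup_induction` or `iSup_le` (the right side is a submodule): for `g ∈ CC K X n i` the family `TT a j g` has `(TT a j g) t = Tf a t j (g t)`.
`←`: `f = ∑ t, Pi.single t (f t)`, and `Pi.single t` maps `SS (Tf a t) k (mon K t.powerset) (i + 1)` into `SS (TT a) k (CC K X n) (i + 1)` if `t ∈ X`, `t.card = n` (if not, `f t = 0`): `iSup_le` again, `TT a j (Pi.single t g) = Pi.single t (Tf a t j g)`.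
`greg_CC`: `f ∈ CC K X n i`, `TT a j f ∈ SS (TT a) j ..`: for every `t` with `t ∈ X`, `t.card = n`: `Tf a t j (f t) ∈ SS (Tf a t) j (mon K t.powerset) (i + 1)`, so `f t ∈ SS (Tf a t) j ..  i` by `face_greg`.
-/

namespace Pool.Agent.LibHB64

open MvPolynomial

variable {V : Type*} [Fintype V] [DecidableEq V] {K : Type*} [Field K] {d : ℕ} {D : Finset (Finset V)}

private theorem CMA7_TT (a : Fin d → V → K) (j : Fin d) (f : Finset V → MvPolynomial V K)
    (t : Finset V) : TT a j f t = Tf a t j (f t) := rfl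

theorem stab_CC (a : Fin d → V → K) (X : Finset (Finset V)) (n : ℕ) : Stab (TT a) (CC K X n) := by
  rintro j i _ ⟨f, hf, rfl⟩
  rw [SetLike.mem_coe, mem_CC] at hf
  rw [mem_CC]
  intro t
  rw [CMA7_TT]
  refine ⟨fun h => (hf t).1 fun h0 => h (by rw [h0, map_zero]), ?_⟩
  exact Tf_mon a t j i ⟨f t, (hf t).2, rfl⟩

private noncomputable def CMA7_P (a : Fin d → V → K) (X : Finset (Finset V)) (n k i : ℕ) :
    Submodule K (Finset V → MvPolynomial V K) where
  carrier := {f | ∀ t, (f t ≠ 0 → t ∈ X ∧ t.card = n) ∧ f t ∈ SS (Tf a t) k (mon K t.powerset) i}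
  add_mem' := by
    intro f g hf hg t
    refine ⟨fun h => ?_, Submodule.add_mem _ (hf t).2 (hg t).2⟩
    by_cases h1 : f t = 0
    · by_cases h2 : g t = 0
      · exact absurd (by simp [h1, h2]) h
      · exact (hg t).1 h2
    · exact (hf t).1 h1
  zero_mem' := fun t => ⟨fun h => absurd rfl h, Submodule.zero_mem _⟩
  smul_mem' := by
    intro a f hf t
    refine ⟨fun h => (hf t).1 fun h1 => h (by simp [h1]), Submodule.smul_mem _ _ (hf t).2⟩

private theorem CMA7_single (a : Fin d → V → K) (X : Finset (Finset V)) (n k i : ℕ) (t : Finset V)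
    (ht : t ∈ X) (hn : t.card = n) (p : MvPolynomial V K)
    (hp : p ∈ SS (Tf a t) k (mon K t.powerset) (i + 1)) :
    (Pi.single t p : Finset V → MvPolynomial V K) ∈ SS (TT a) k (CC K X n) (i + 1) := by
  have hle : SS (Tf a t) k (mon K t.powerset) (i + 1) ≤
      (SS (TT a) k (CC K X n) (i + 1)).comap
        (LinearMap.single K (fun _ : Finset V => MvPolynomial V K) t) := by
    refine iSup_le fun j => iSup_le fun hj => ?_
    rintro _ ⟨q, hq, rfl⟩
    rw [Submodule.mem_comap]
    refine Submodule.mem_iSup_of_mem j (Submodule.mem_iSup_of_mem hj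
      ⟨(Pi.single t q : Finset V → MvPolynomial V K), ?_, ?_⟩)
    · rw [SetLike.mem_coe, mem_CC]
      intro t'
      by_cases h : t' = t
      · subst h
        rw [Pi.single_eq_same]
        exact ⟨fun _ => ⟨ht, hn⟩, hq⟩
      · rw [Pi.single_eq_of_ne h]
        exact ⟨fun h0 => absurd rfl h0, Submodule.zero_mem _⟩
    · funext t'
      rw [CMA7_TT, LinearMap.coe_single]
      by_cases h : t' = t
      · subst h
        rw [Pi.single_eq_same, Pi.single_eq_same]
      · rw [Pi.single_eq_of_ne h, Pi.single_eq_of_ne h, map_zero]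
  exact hle hp

theorem mem_SS_CC (a : Fin d → V → K) (X : Finset (Finset V)) (n k i : ℕ) (f : Finset V → MvPolynomial V K) :
    f ∈ SS (TT a) k (CC K X n) i ↔
      ∀ t, (f t ≠ 0 → t ∈ X ∧ t.card = n) ∧ f t ∈ SS (Tf a t) k (mon K t.powerset) i := by
  cases i with
  | zero =>
    constructor
    · intro h t
      have h0 : f = 0 := (Submodule.mem_bot K).1 h
      rw [h0]
      exact ⟨fun h => absurd rfl h, Submodule.zero_mem _⟩
    · intro h
      have h0 : f = 0 := by
        funext t
        exact (Submodule.mem_bot K).1 (h t).2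
      rw [h0]
      exact Submodule.zero_mem _
  | succ i =>
    constructor
    · intro h
      have hle : SS (TT a) k (CC K X n) (i + 1) ≤ CMA7_P a X n k (i + 1) := by
        refine iSup_le fun j => iSup_le fun hj => ?_
        rintro _ ⟨g, hg, rfl⟩ t
        rw [SetLike.mem_coe, mem_CC] at hg
        rw [CMA7_TT]
        refine ⟨fun h => (hg t).1 fun h0 => h (by rw [h0, map_zero]), ?_⟩
        exact Submodule.mem_iSup_of_mem j (Submodule.mem_iSup_of_mem hj ⟨g t, (hg t).2, rfl⟩)
      exact hle h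
    · intro h
      rw [← Finset.univ_sum_single f]
      refine Submodule.sum_mem _ fun t _ => ?_
      by_cases h0 : f t = 0
      · rw [h0, Pi.single_zero]
        exact Submodule.zero_mem _
      · obtain ⟨h1, h2⟩ := (h t).1 h0
        exact CMA7_single a X n k i t h1 h2 (f t) (h t).2

theorem greg_CC {a : Fin d → V → K} (hg : Gen D a) {X : Finset (Finset V)} (hX : X ⊆ D) {n : ℕ} (hn : n ≤ d) :
    GReg (TT a) n (CC K X n) := by
  intro j hj i f hf h
  rw [mem_SS_CC] at h ⊢
  rw [mem_CC] at hf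
  intro t
  refine ⟨(hf t).1, ?_⟩
  by_cases h0 : f t = 0
  · rw [h0]
    exact Submodule.zero_mem _
  · obtain ⟨h1, h2⟩ := (hf t).1 h0
    exact face_greg hg (hX h1) (by rw [h2]; exact hn) j (by rw [h2]; exact hj) i (f t) (hf t).2
      (h t).2

end Pool.Agent.LibHB64
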