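import Pool.Agent.LibHB64.Defs

set_option autoImplicit false

/-!
Definitions of the block CM (MP_8accfa_co): `θ_1, ..., θ_d` is a regular sequence on the face ring and on the interior
ideal of a homology ball. Everything is graded and inside two vector spaces: `MvPolynomial V K`, and
`Finset V → MvPolynomial V K` (families of polynomials indexed by the faces).
-/

namespace Pool.Agent.LibHB64

open MvPolynomial

variable {V : Type*} [Fintype V] [DecidableEq V]

/-! ### chains of the faces of a family `X` which contain `s` -/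

/-- `c` is a chain of faces of size `n` of `X` which contain `s` -/
def RCh {R : Type*} [Zero R] (X : Finset (Finset V)) (s : Finset V) (n : ℕ) (c : Finset V → R) : Prop :=
  ∀ t, c t ≠ 0 → t ∈ X ∧ s ⊆ t ∧ t.card = n

/-- the boundary of `c` is zero (on the faces of `X` which contain `s`) -/
def RCyc {R : Type*} [AddCommMonoid R] (X : Finset (Finset V)) (s : Finset V) (c : Finset V → R) : Prop :=
  ∀ t ∈ X, s ⊆ t → ∑ v ∈ tᶜ, c (insert v t) = 0

/-- every cycle of size `n` is a boundary -/
def RAcyc (R : Type*) [AddCommMonoid R] (X : Finset (Finset V)) (s : Finset V) (n : ℕ) : Prop :=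
  ∀ c : Finset V → R, RCh X s n c → RCyc X s c →
    ∃ b : Finset V → R, RCh X s (n + 1) b ∧ ∀ t ∈ X, s ⊆ t → ∑ v ∈ tᶜ, b (insert v t) = c t

/-- the only cycle of size `n` is zero -/
def RZero (R : Type*) [AddCommMonoid R] (X : Finset (Finset V)) (s : Finset V) (n : ℕ) : Prop :=
  ∀ c : Finset V → R, RCh X s n c → RCyc X s c → ∀ t, c t = 0

/-- there is exactly one nonzero cycle of size `n` -/
def ROne (X : Finset (Finset V)) (s : Finset V) (n : ℕ) : Prop :=
  ∃ z : Finset V → ZMod 2, RCh X s n z ∧ RCyc X s z ∧ (∃ t, z t ≠ 0) ∧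
    ∀ c : Finset V → ZMod 2, RCh X s n c → RCyc X s c → (∀ t, c t = 0) ∨ ∀ t, c t = z t

/-- every cycle of size `n` is constant -/
def RConst (R : Type*) [AddCommMonoid R] (X : Finset (Finset V)) (s : Finset V) (n : ℕ) : Prop :=
  ∀ c : Finset V → R, RCh X s n c → RCyc X s c →
    ∀ F ∈ X, ∀ G ∈ X, s ⊆ F → s ⊆ G → F.card = n → G.card = n → c F = c G

/-- `X` contains everything between two of its elements -/
def Cvx (X : Finset (Finset V)) : Prop := ∀ s ∈ X, ∀ u ∈ X, ∀ t, s ⊆ t → t ⊆ u → t ∈ X

/-! ### graded submodules with operators `T 0, ..., T (d-1)` (abstract) -/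

section Abstract

variable {K E : Type*} [Field K] [AddCommGroup E] [Module K E] {d : ℕ}

/-- the part of degree `i` of `(T_0, ..., T_(k-1)) Z` -/
def SS (T : Fin d → E →ₗ[K] E) (k : ℕ) (Z : ℕ → Submodule K E) : ℕ → Submodule K E
  | 0 => ⊥
  | i + 1 => ⨆ (j : Fin d) (_ : (j : ℕ) < k), (Z i).map (T j)

/-- `T_0, ..., T_(k-1)` is a weakly regular sequence on `Z` -/
def GReg (T : Fin d → E →ₗ[K] E) (k : ℕ) (Z : ℕ → Submodule K E) : Prop :=
  ∀ j : Fin d, (j : ℕ) < k → ∀ i, ∀ f ∈ Z i, T j f ∈ SS T j Z (i + 1) → f ∈ SS T j Z i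

/-- the family is graded: the operators have degree one -/
def Stab (T : Fin d → E →ₗ[K] E) (Z : ℕ → Submodule K E) : Prop := ∀ j i, (Z i).map (T j) ≤ Z (i + 1)

end Abstract

/-! ### the complexes of modules -/

variable {K : Type*} [Field K] {d : ℕ}

/-- put `x_v = 0` for `v ∉ t` -/
noncomputable def res (K : Type*) [Field K] (t : Finset V) : MvPolynomial V K →ₐ[K] MvPolynomial V K :=
  aeval fun v => if v ∈ t then X v else 0

/-- `∏ K[t]` over the faces `t` of size `n` of `X`, degree `i` -/
noncomputable def CC (K : Type*) [Field K] (X : Finset (Finset V)) (n i : ℕ) :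
    Submodule K (Finset V → MvPolynomial V K) where
  carrier := {f | ∀ t, (f t ≠ 0 → t ∈ X ∧ t.card = n) ∧ f t ∈ mon K t.powerset i}
  add_mem' := by
    intro f g hf hg t
    refine ⟨fun h => ?_, Submodule.add_mem _ (hf t).2 (hg t).2⟩
    by_cases h1 : f t = 0
    · by_cases h2 : g t = 0
      · exact absurd (by simp [h1, h2]) h
      · exact (hg t).1 h2
    · exact (hf t).1 h1
  zero_mem' := fun t => ⟨fun h => absurd rfl h, Submodule.zero_mem _⟩
  smul_mem' := by
    intro a f hf t
    refine ⟨fun h => (hf t).1 fun h1 => h (by simp [h1]), Submodule.smul_mem _ _ (hf t).2⟩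

/-- the differential -/
noncomputable def dd (K : Type*) [Field K] (X : Finset (Finset V)) :
    (Finset V → MvPolynomial V K) →ₗ[K] (Finset V → MvPolynomial V K) where
  toFun f t := if t ∈ X then ∑ v ∈ tᶜ, res K t (f (insert v t)) else 0
  map_add' := by
    intro f g
    funext t
    by_cases h : t ∈ X
    · simp [h, Finset.sum_add_distrib]
    · simp [h]
  map_smul' := by
    intro a f
    funext t
    by_cases h : t ∈ X
    · simp [h, Finset.smul_sum]
    · simp [h]

theorem dd_apply (X : Finset (Finset V)) (f : Finset V → MvPolynomial V K) (t : Finset V) :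
    dd K X f t = if t ∈ X then ∑ v ∈ tᶜ, res K t (f (insert v t)) else 0 := rfl

/-- the cycles -/
noncomputable def ZZ (K : Type*) [Field K] (X : Finset (Finset V)) (n i : ℕ) :
    Submodule K (Finset V → MvPolynomial V K) := CC K X n i ⊓ LinearMap.ker (dd K X)

/-- multiplication by the restriction of `θ_j` to the face `t` -/
noncomputable def Tf (a : Fin d → V → K) (t : Finset V) (j : Fin d) : MvPolynomial V K →ₗ[K] MvPolynomial V K :=
  LinearMap.mulLeft K (res K t (th a j))

/-- multiplication by the linear form `θ_j` -/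
noncomputable def TT (a : Fin d → V → K) (j : Fin d) :
    (Finset V → MvPolynomial V K) →ₗ[K] (Finset V → MvPolynomial V K) :=
  LinearMap.pi fun t => Tf a t j ∘ₗ LinearMap.proj t

theorem TT_apply (a : Fin d → V → K) (j : Fin d) (f : Finset V → MvPolynomial V K) (t : Finset V) :
    TT a j f t = res K t (th a j) * f t := rfl

/-- the restrictions of a polynomial to the facets -/
noncomputable def iot (K : Type*) [Field K] (d : ℕ) (D : Finset (Finset V)) :
    MvPolynomial V K →ₗ[K] (Finset V → MvPolynomial V K) where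
  toFun p t := if t ∈ Fac d D then res K t p else 0
  map_add' := by
    intro p q
    funext t
    by_cases h : t ∈ Fac d D <;> simp [h]
  map_smul' := by
    intro a p
    funext t
    by_cases h : t ∈ Fac d D <;> simp [h]

theorem iot_apply (D : Finset (Finset V)) (p : MvPolynomial V K) (t : Finset V) :
    iot K d D p t = if t ∈ Fac d D then res K t p else 0 := rfl

theorem mem_CC (X : Finset (Finset V)) (n i : ℕ) (f : Finset V → MvPolynomial V K) :
    f ∈ CC K X n i ↔ ∀ t, (f t ≠ 0 → t ∈ X ∧ t.card = n) ∧ f t ∈ mon K t.powerset i := Iff.rfl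

end Pool.Agent.LibHB64
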