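import Pool.Agent.LibHB64.CMDefs

set_option autoImplicit false

/-!
Row CMH1 (MEDIUM). Homology of the link of `s` = homology of the faces which contain `s`.
Only Mathlib + CMDefs.

For `c : Finset V → ZMod 2` with `RCh D s (n + s.card) c` put `c' u = if Disjoint s u then c (s ∪ u) else 0`: a chain of
size `n` of `lk D s`, and `bdry c' u = ∑ v ∈ (s ∪ u)ᶜ, c (insert v (s ∪ u))` for `u` disjoint from `s` (terms with
`v ∈ s` vanish because `insert v u` meets `s`; `(s ∪ u)ᶜ = uᶜ \ s`), `0` otherwise; if `s ∪ u ∉ D` all the terms vanish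
(`D` is closed under subsets). Conversely from `b'` on `lk D s` put `b t = if s ⊆ t then b' (t \ s) else 0`: for
`s ⊆ t` and `v ∉ t` we have `insert v t \ s = insert v (t \ s)`, so `∑ v ∈ tᶜ, b (insert v t) = ∑ v ∈ tᶜ, b' (insert v (t \ s))
= bdry b' (t \ s)` (the extra terms `v ∈ s` of `bdry` vanish, as `insert v (t \ s)` is not in `lk D s`).
-/

namespace Pool.Agent.LibHB64

variable {V : Type*} [Fintype V] [DecidableEq V]

private def CMH1_dn (s : Finset V) (c : Finset V → ZMod 2) : Finset V → ZMod 2 :=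
  fun u => if Disjoint s u then c (s ∪ u) else 0

private def CMH1_up (s : Finset V) (b : Finset V → ZMod 2) : Finset V → ZMod 2 :=
  fun t => if s ⊆ t then b (t \ s) else 0

private theorem CMH1_dn_sub (s : Finset V) (c : Finset V → ZMod 2) {t : Finset V} (h : s ⊆ t) :
    CMH1_dn s c (t \ s) = c t := by
  have h1 : Disjoint s (t \ s) := Finset.disjoint_sdiff
  rw [CMH1_dn, if_pos h1, Finset.union_sdiff_of_subset h]

private theorem CMH1_chain {D : Finset (Finset V)} (hD : IsCx D) {s : Finset V} {n : ℕ}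
    {c : Finset V → ZMod 2} (hc : RCh D s (n + s.card) c) : IsChain (lk D s) n (CMH1_dn s c) := by
  intro u hu
  rw [CMH1_dn] at hu
  by_cases h : Disjoint s u
  · rw [if_pos h] at hu
    obtain ⟨h1, _, h3⟩ := hc _ hu
    refine ⟨?_, ?_⟩
    · rw [lk, Finset.mem_filter]
      exact ⟨hD.2 _ h1 _ Finset.subset_union_right, h, h1⟩
    · rw [Finset.card_union_of_disjoint h] at h3
      omega
  · rw [if_neg h] at hu
    exact absurd rfl hu

private theorem CMH1_bdry {D : Finset (Finset V)} (hD : IsCx D) {s : Finset V} {m : ℕ}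
    {c : Finset V → ZMod 2} (hc : RCh D s m c) (hcy : RCyc D s c) (u : Finset V) :
    bdry (CMH1_dn s c) u = 0 := by
  by_cases h : Disjoint s u
  · have h1 : bdry (CMH1_dn s c) u = ∑ v ∈ (s ∪ u)ᶜ, c (insert v (s ∪ u)) := by
      rw [bdry]
      symm
      have hsub : (s ∪ u)ᶜ ⊆ uᶜ := by
        intro v hv
        rw [Finset.mem_compl, Finset.mem_union] at hv
        rw [Finset.mem_compl]
        exact fun h2 => hv (Or.inr h2)
      rw [← Finset.sum_subset hsub]
      · refine Finset.sum_congr rfl fun v hv => ?_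
        rw [Finset.mem_compl, Finset.mem_union, not_or] at hv
        have h2 : Disjoint s (insert v u) := by
          rw [Finset.disjoint_insert_right]
          exact ⟨hv.1, h⟩
        rw [CMH1_dn, if_pos h2, Finset.union_insert]
      · intro v hv hv2
        rw [Finset.mem_compl] at hv
        rw [Finset.mem_compl, not_not, Finset.mem_union] at hv2
        have hvs : v ∈ s := hv2.resolve_right hv
        rw [CMH1_dn, if_neg]
        intro h2
        rw [Finset.disjoint_insert_right] at h2
        exact h2.1 hvs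
    rw [h1]
    by_cases h2 : s ∪ u ∈ D
    · exact hcy _ h2 Finset.subset_union_left
    · refine Finset.sum_eq_zero fun v _ => ?_
      by_contra h3
      exact h2 (hD.2 _ (hc _ h3).1 _ (Finset.subset_insert _ _))
  · rw [bdry]
    refine Finset.sum_eq_zero fun v _ => ?_
    rw [CMH1_dn, if_neg]
    intro h2
    rw [Finset.disjoint_insert_right] at h2
    exact h h2.2

private theorem CMH1_up_ch {D : Finset (Finset V)} {s : Finset V} {n : ℕ} {b : Finset V → ZMod 2}
    (hb : IsChain (lk D s) n b) : RCh D s (n + s.card) (CMH1_up s b) := by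
  intro t ht
  rw [CMH1_up] at ht
  by_cases h : s ⊆ t
  · rw [if_pos h] at ht
    obtain ⟨h1, h2⟩ := hb _ ht
    rw [lk, Finset.mem_filter, Finset.union_sdiff_of_subset h] at h1
    refine ⟨h1.2.2, h, ?_⟩
    have h3 := Finset.card_sdiff_add_card_eq_card h
    omega
  · rw [if_neg h] at ht
    exact absurd rfl ht

private theorem CMH1_up_sum {D : Finset (Finset V)} {s : Finset V} {n : ℕ} {b : Finset V → ZMod 2}
    (hb : IsChain (lk D s) n b) {t : Finset V} (h : s ⊆ t) :
    ∑ v ∈ tᶜ, CMH1_up s b (insert v t) = bdry b (t \ s) := by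
  rw [bdry]
  have hsub : tᶜ ⊆ (t \ s)ᶜ := by
    intro v hv
    rw [Finset.mem_compl] at hv ⊢
    exact fun h2 => hv (Finset.mem_sdiff.1 h2).1
  rw [← Finset.sum_subset hsub]
  · refine Finset.sum_congr rfl fun v hv => ?_
    rw [Finset.mem_compl] at hv
    have hvs : v ∉ s := fun h2 => hv (h h2)
    rw [CMH1_up, if_pos (h.trans (Finset.subset_insert _ _)), Finset.insert_sdiff_of_notMem _ hvs]
  · intro v hv hv2
    rw [Finset.mem_compl, not_not] at hv2
    rw [Finset.mem_compl, Finset.mem_sdiff, not_and, not_not] at hv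
    have hvs := hv hv2
    by_contra h3
    have h4 := (hb _ h3).1
    rw [lk, Finset.mem_filter] at h4
    have h5 := h4.2.1
    rw [Finset.disjoint_insert_right] at h5
    exact h5.1 hvs

theorem racyc_of_acyc {D : Finset (Finset V)} (hD : IsCx D) {s : Finset V} {n : ℕ} (h : Acyc (lk D s) n) :
    RAcyc (ZMod 2) D s (n + s.card) := by
  intro c hc hcy
  obtain ⟨b, hb, hbc⟩ := h _ (CMH1_chain hD hc) (CMH1_bdry hD hc hcy)
  refine ⟨CMH1_up s b, ?_, ?_⟩
  · have h1 := CMH1_up_ch hb
    have h2 : n + s.card + 1 = n + 1 + s.card := by omega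
    rw [h2]
    exact h1
  · intro t _ hst
    rw [CMH1_up_sum hb hst, hbc, CMH1_dn_sub s c hst]

theorem rzero_of_topZero {D : Finset (Finset V)} (hD : IsCx D) {s : Finset V} {n : ℕ} (h : TopZero (lk D s) n) :
    RZero (ZMod 2) D s (n + s.card) := by
  intro c hc hcy t
  by_contra h1
  have h2 := h _ (CMH1_chain hD hc) (CMH1_bdry hD hc hcy) (t \ s)
  rw [CMH1_dn_sub s c (hc t h1).2.1] at h2
  exact h1 h2

theorem rone_of_topOne {D : Finset (Finset V)} (hD : IsCx D) {s : Finset V} {n : ℕ} (h : TopOne (lk D s) n) :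
    ROne D s (n + s.card) := by
  obtain ⟨z, hz, hzb, ⟨u, hu⟩, huniq⟩ := h
  have hup := CMH1_up_ch hz
  refine ⟨CMH1_up s z, hup, ?_, ?_, ?_⟩
  · intro t _ hst
    rw [CMH1_up_sum hz hst, hzb]
  · have h1 := (hz u hu).1
    rw [lk, Finset.mem_filter] at h1
    refine ⟨s ∪ u, ?_⟩
    rw [CMH1_up, if_pos Finset.subset_union_left, Finset.union_sdiff_left,
      Finset.sdiff_eq_self_of_disjoint h1.2.1.symm]
    exact hu
  · intro c hc hcy
    have hkey : ∀ t, ¬ s ⊆ t → c t = 0 := by
      intro t ht
      by_contra h1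
      exact ht (hc t h1).2.1
    rcases huniq _ (CMH1_chain hD hc) (CMH1_bdry hD hc hcy) with h0 | h0
    · left
      intro t
      by_cases ht : s ⊆ t
      · rw [← CMH1_dn_sub s c ht]
        exact h0 _
      · exact hkey t ht
    · right
      intro t
      by_cases ht : s ⊆ t
      · rw [← CMH1_dn_sub s c ht, h0, CMH1_up, if_pos ht]
      · rw [hkey t ht, CMH1_up, if_neg ht]

end Pool.Agent.LibHB64
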