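import Pool.Agent.LibHB64.CMH1

set_option autoImplicit false

/-!
Row CMH2 (SHORT). The five facts about `D` and `B` (F_2-homology ball and its boundary) from the definition. Uses CMH1.

`n < s.card`: there is no chain (`RCh` forces `s ⊆ t`, `t.card = n`), take `b = 0`. Otherwise write `n = (n - s.card) + s.card`.
`pure`: by induction on `d - s.card`: if `s.card < d` then `Acyc (lk D s) 0` applied to the chain `c = (1 on ∅)` gives a
chain `b` with `∑ v, b {v} = 1`, so some `{v} ∈ lk D s`, `insert v s ∈ D`.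
-/

namespace Pool.Agent.LibHB64

variable {V : Type*} [Fintype V] [DecidableEq V] {d : ℕ} {D B : Finset (Finset V)}

private theorem CMH2_small {X : Finset (Finset V)} {s : Finset V} {n : ℕ} (hn : n < s.card) : RAcyc (ZMod 2) X s n := by
  intro c hc _
  have h0 : ∀ t, c t = 0 := by
    intro t
    by_contra hne
    obtain ⟨_, h1, h2⟩ := hc t hne
    have := Finset.card_le_card h1
    omega
  refine ⟨fun _ => 0, fun t ht => absurd rfl ht, ?_⟩
  intro t _ _
  rw [h0 t, Finset.sum_const_zero]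

private theorem CMH2_step (h : HBallB d D B) {s : Finset V} (hs : s ∈ D) (hd : s.card < d) :
    ∃ t ∈ D, s ⊆ t ∧ t.card = s.card + 1 := by
  have hac := h.acyc s hs 0 (by omega)
  have hel : (∅ : Finset V) ∈ lk D s := by
    rw [lk, Finset.mem_filter]
    refine ⟨h.cx.1, Finset.disjoint_empty_right s, ?_⟩
    rw [Finset.union_empty]
    exact hs
  obtain ⟨b, hb1, hb2⟩ := hac (fun u => if u = ∅ then 1 else 0) (by
    intro u hu
    by_cases hu' : u = ∅
    · rw [hu']
      exact ⟨hel, Finset.card_empty⟩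
    · simp [hu'] at hu) (by
    intro t
    unfold bdry
    apply Finset.sum_eq_zero
    intro v _
    exact if_neg (Finset.insert_ne_empty v t))
  have h1 := hb2 ∅
  rw [if_pos rfl] at h1
  have h2 : ∃ v ∈ (∅ : Finset V)ᶜ, b (insert v ∅) ≠ 0 := by
    apply Finset.exists_ne_zero_of_sum_ne_zero
    unfold bdry at h1
    rw [h1]
    exact one_ne_zero
  obtain ⟨v, _, hv⟩ := h2
  obtain ⟨h3, h4⟩ := hb1 _ hv
  rw [lk, Finset.mem_filter] at h3
  refine ⟨s ∪ insert v ∅, h3.2.2, Finset.subset_union_left, ?_⟩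
  rw [Finset.card_union_of_disjoint h3.2.1, h4]

theorem pure (h : HBallB d D B) : ∀ s ∈ D, ∃ F ∈ Fac d D, s ⊆ F := by
  have key : ∀ k : ℕ, ∀ s ∈ D, d - s.card = k → ∃ F ∈ Fac d D, s ⊆ F := by
    intro k
    induction k with
    | zero =>
      intro s hs hk
      refine ⟨s, ?_, Finset.Subset.refl s⟩
      have := h.card s hs
      rw [Fac, Finset.mem_filter]
      exact ⟨hs, by omega⟩
    | succ k ih =>
      intro s hs hk
      obtain ⟨t, ht, hst, hc⟩ := CMH2_step h hs (by omega)
      obtain ⟨F, hF, htF⟩ := ih t ht (by omega)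
      exact ⟨F, hF, hst.trans htF⟩
  intro s hs
  exact key _ s hs rfl

theorem racyc_D (h : HBallB d D B) {s : Finset V} (hs : s ∈ D) {n : ℕ} (hn : n < d) : RAcyc (ZMod 2) D s n := by
  rcases lt_or_ge n s.card with h1 | h1
  · exact CMH2_small h1
  · have h2 := racyc_of_acyc h.cx (h.acyc s hs (n - s.card) (by omega))
    rwa [Nat.sub_add_cancel h1] at h2

theorem racyc_B (h : HBallB d D B) {s : Finset V} (hs : s ∈ B) {n : ℕ} (hn : n < d - 1) : RAcyc (ZMod 2) B s n := by
  rcases lt_or_ge n s.card with h1 | h1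
  · exact CMH2_small h1
  · have h2 := racyc_of_acyc h.sph.1 ((h.sph.2.2 s hs).1 (n - s.card) (by omega))
    rwa [Nat.sub_add_cancel h1] at h2

theorem rone_B (h : HBallB d D B) {s : Finset V} (hs : s ∈ B) : ROne B s (d - 1) := by
  have h2 := rone_of_topOne h.sph.1 (h.sph.2.2 s hs).2
  rwa [Nat.sub_add_cancel (h.sph.2.1 s hs)] at h2

theorem rzero_D (h : HBallB d D B) {s : Finset V} (hs : s ∈ B) : RZero (ZMod 2) D s d := by
  have h2 := rzero_of_topZero h.cx (h.bd s hs)
  rwa [Nat.sub_add_cancel (h.card s (h.sub hs))] at h2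

theorem rone_D (h : HBallB d D B) {s : Finset V} (hs : s ∈ D) (hs' : s ∉ B) : ROne D s d := by
  have h2 := rone_of_topOne h.cx (h.int s hs hs')
  rwa [Nat.sub_add_cancel (h.card s hs)] at h2

/-- faces of `D` above an interior face are interior -/
theorem up_int (h : HBallB d D B) {s t : Finset V} (hs : s ∈ D \ B) (ht : t ∈ D) (hst : s ⊆ t) : t ∈ D \ B := by
  rw [Finset.mem_sdiff] at hs ⊢
  exact ⟨ht, fun hB => hs.2 (h.sph.1.2 t hB s hst)⟩

theorem cvx_D (h : HBallB d D B) : Cvx D := by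
  intro s _ u hu t _ htu
  exact h.cx.2 u hu t htu

theorem cvx_int (h : HBallB d D B) : Cvx (D \ B) := by
  intro s hs u hu t hst htu
  exact up_int h hs (h.cx.2 u (Finset.mem_sdiff.1 hu).1 t htu) hst

theorem fac_int (h : HBallB d D B) {F : Finset V} (hF : F ∈ Fac d D) : F ∈ D \ B := by
  rw [Fac, Finset.mem_filter] at hF
  rw [Finset.mem_sdiff]
  refine ⟨hF.1, fun hB => ?_⟩
  have h1 := h.sph.2.1 F hB
  have h2 := h.pos
  omega

end Pool.Agent.LibHB64
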