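import Pool.Agent.LibHB64.CMH2

set_option autoImplicit false

/-!
Row CMH3 (MEDIUM). The relative chain complex (interior faces containing `s`) is exact below the top size `d`. Uses CMH2.

`s ∉ B`: the faces of `D` containing `s` are all interior (`up_int`), so chains and cycles of `D \ B` are those of `D`: `racyc_D`.
`s ∈ B`: let `c` be a cycle of `D \ B` of size `n < d`. Put `e t = ∑ v ∈ tᶜ, c (insert v t)` for `s ⊆ t`, `t ∈ D`, else `0`; then `e` is
supported on `B` (cycle condition), size `n - 1` (`n = 0`, or `n = s.card`: `c = 0`, because `s ∈ B` is the only face of that size containing `s`; take `b = 0`),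
and `e` is a cycle of `B` (`∂∂ = 0` modulo 2: the double sum over `(v, w)` is symmetric). `n - 1 < d - 1`: `racyc_B` gives `b'` on `B` of size
`n` with `∂ b' = e` on `B`; moreover `∂ b' = 0 = e` outside `B` (`B` is closed under subsets). So `c - b'` is a cycle of `D` of size `n`;
`racyc_D` gives `g` on `D` of size `n + 1` with `∂ g = c - b'` on `D`. Take `b = g` restricted to `D \ B`: for `t ∈ D \ B` all `insert v t ∈ D` are
interior and `b' t = 0`.
-/

namespace Pool.Agent.LibHB64

variable {V : Type*} [Fintype V] [DecidableEq V] {d : ℕ} {D B : Finset (Finset V)}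

/-- the boundary of a boundary is zero -/
private theorem CMH3_dd (c : Finset V → ZMod 2) (t : Finset V) :
    ∑ v ∈ tᶜ, ∑ w ∈ (insert v t)ᶜ, c (insert w (insert v t)) = 0 := by
  rw [Finset.sum_sigma']
  refine Finset.sum_involution (fun x _ => ⟨x.2, x.1⟩) ?_ ?_ ?_ ?_
  · rintro ⟨v, w⟩ hx
    show c (insert w (insert v t)) + c (insert v (insert w t)) = 0
    rw [Finset.insert_comm v w t]
    exact CharTwo.add_self_eq_zero _
  · rintro ⟨v, w⟩ hx _ heq
    rw [Finset.mem_sigma, Finset.mem_compl, Finset.mem_compl] at hx
    apply hx.2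
    have h1 : w = v := congrArg Sigma.fst heq
    show w ∈ insert v t
    rw [h1]
    exact Finset.mem_insert_self _ _
  · rintro ⟨v, w⟩ hx
    rw [Finset.mem_sigma, Finset.mem_compl, Finset.mem_compl] at hx ⊢
    obtain ⟨h1, h2⟩ := hx
    have h2' : w ∉ insert v t := h2
    rw [Finset.mem_insert, not_or] at h2'
    refine ⟨h2'.2, ?_⟩
    show v ∉ insert w t
    rw [Finset.mem_insert, not_or]
    exact ⟨fun he => h2'.1 he.symm, h1⟩
  · rintro ⟨v, w⟩ hx
    rfl

theorem racyc_int (h : HBallB d D B) {s : Finset V} (hs : s ∈ D) {n : ℕ} (hn : n < d) :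
    RAcyc (ZMod 2) (D \ B) s n := by
  classical
  intro c hc hcyc
  by_cases hsB : s ∈ B
  swap
  · have hsi : s ∈ D \ B := Finset.mem_sdiff.mpr ⟨hs, hsB⟩
    obtain ⟨b, hb1, hb2⟩ := racyc_D h hs hn c
      (fun t ht => ⟨(Finset.mem_sdiff.mp (hc t ht).1).1, (hc t ht).2⟩)
      (fun t ht hst => hcyc t (up_int h hsi ht hst) hst)
    refine ⟨b, fun t ht => ⟨up_int h hsi (hb1 t ht).1 (hb1 t ht).2.1, (hb1 t ht).2⟩, fun t ht hst => ?_⟩
    exact hb2 t (Finset.mem_sdiff.mp ht).1 hst
  · by_cases hns : n ≤ s.card
    · have hc0 : ∀ t, c t = 0 := by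
        intro t
        by_contra hne
        obtain ⟨h1, h2, h3⟩ := hc t hne
        have h4 : s = t := Finset.eq_of_subset_of_card_le h2 (by omega)
        rw [← h4] at h1
        exact (Finset.mem_sdiff.mp h1).2 hsB
      refine ⟨fun _ => 0, fun t ht => absurd rfl ht, fun t _ _ => ?_⟩
      rw [hc0 t, Finset.sum_const_zero]
    · rw [not_le] at hns
      have hcD : ∀ t, c t ≠ 0 → t ∈ D := fun t ht => (Finset.mem_sdiff.mp (hc t ht).1).1
      have hBcx : ∀ u ∈ B, ∀ t, t ⊆ u → t ∈ B := h.sph.1.2
      have hDcx : ∀ u ∈ D, ∀ t, t ⊆ u → t ∈ D := h.cx.2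
      set e : Finset V → ZMod 2 := fun t => if s ⊆ t ∧ t ∈ B then ∑ v ∈ tᶜ, c (insert v t) else 0 with he
      have heD : ∀ t, t ∈ D → s ⊆ t → ∑ v ∈ tᶜ, c (insert v t) = e t := by
        intro t ht hst
        by_cases htB : t ∈ B
        · rw [he]
          simp only [hst, htB, and_self, if_true]
        · rw [he]
          simp only [htB, and_false, if_false]
          exact hcyc t (Finset.mem_sdiff.mpr ⟨ht, htB⟩) hst
      have he' : ∀ t v, s ⊆ t → v ∉ t → e (insert v t) = ∑ w ∈ (insert v t)ᶜ, c (insert w (insert v t)) := by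
        intro t v hst hv
        have hst' : s ⊆ insert v t := hst.trans (Finset.subset_insert v t)
        by_cases hD : insert v t ∈ D
        · exact (heD _ hD hst').symm
        · have h1 : e (insert v t) = 0 := by
            rw [he]
            have h2 : insert v t ∉ B := fun h3 => hD (h.sub h3)
            simp only [h2, and_false, if_false]
          rw [h1]
          refine (Finset.sum_eq_zero fun w _ => ?_).symm
          by_contra hne
          exact hD (hDcx _ (hcD _ hne) _ (Finset.subset_insert _ _))
      have hech : RCh B s (n - 1) e := by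
        intro t ht
        have h1 : s ⊆ t ∧ t ∈ B := by
          by_contra h2
          apply ht
          rw [he]
          simp only [h2, if_false]
        refine ⟨h1.2, h1.1, ?_⟩
        have h3 : ∑ v ∈ tᶜ, c (insert v t) ≠ 0 := by
          rw [heD t (h.sub h1.2) h1.1]
          exact ht
        obtain ⟨v, hv, hne⟩ := Finset.exists_ne_zero_of_sum_ne_zero h3
        have h4 := (hc _ hne).2.2
        rw [Finset.card_insert_of_notMem (Finset.mem_compl.mp hv)] at h4
        omega
      have hecyc : RCyc B s e := by
        intro t _ hst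
        rw [Finset.sum_congr rfl fun v hv => he' t v hst (Finset.mem_compl.mp hv)]
        exact CMH3_dd c t
      obtain ⟨b', hb1, hb2⟩ := racyc_B h hsB (by omega : n - 1 < d - 1) e hech hecyc
      have hb3 : ∀ t, t ∉ B → b' t = 0 := by
        intro t ht
        by_contra hne
        exact ht (hb1 t hne).1
      have hb4 : ∀ t, t ∈ D → s ⊆ t → ∑ v ∈ tᶜ, b' (insert v t) = e t := by
        intro t ht hst
        by_cases htB : t ∈ B
        · exact hb2 t htB hst
        · have h1 : e t = 0 := by
            rw [he]
            simp only [htB, and_false, if_false]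
          rw [h1]
          refine Finset.sum_eq_zero fun v _ => hb3 _ fun h2 => htB (hBcx _ h2 _ (Finset.subset_insert _ _))
      obtain ⟨g, hg1, hg2⟩ := racyc_D h hs hn (fun t => c t - b' t)
        (by
          intro t ht
          by_cases h1 : c t = 0
          · have h2 : b' t ≠ 0 := by
              intro h3
              apply ht
              show c t - b' t = 0
              rw [h1, h3, sub_zero]
            obtain ⟨h3, h4, h5⟩ := hb1 t h2
            exact ⟨h.sub h3, h4, by omega⟩
          · exact ⟨hcD t h1, (hc t h1).2⟩)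
        (by
          intro t ht hst
          show ∑ v ∈ tᶜ, (c (insert v t) - b' (insert v t)) = 0
          rw [Finset.sum_sub_distrib, heD t ht hst, hb4 t ht hst, sub_self])
      refine ⟨fun t => if t ∈ D \ B then g t else 0, ?_, ?_⟩
      · intro t ht
        by_cases h1 : t ∈ D \ B
        · have h2 : g t ≠ 0 := by
            intro h3
            apply ht
            show (if t ∈ D \ B then g t else 0) = 0
            rw [if_pos h1, h3]
          exact ⟨h1, (hg1 t h2).2⟩
        · exact absurd (if_neg h1) ht
      · intro t ht hst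
        have h1 : ∑ v ∈ tᶜ, (if insert v t ∈ D \ B then g (insert v t) else 0) = ∑ v ∈ tᶜ, g (insert v t) := by
          refine Finset.sum_congr rfl fun v _ => ?_
          by_cases h2 : insert v t ∈ D \ B
          · rw [if_pos h2]
          · rw [if_neg h2]
            by_contra h3
            have h4 : insert v t ∈ D := (hg1 _ fun h5 => h3 h5.symm).1
            exact h2 (up_int h ht h4 (Finset.subset_insert _ _))
        show ∑ v ∈ tᶜ, (if insert v t ∈ D \ B then g (insert v t) else 0) = c t
        rw [h1, hg2 t (Finset.mem_sdiff.mp ht).1 hst, hb3 t (Finset.mem_sdiff.mp ht).2, sub_zero]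

end Pool.Agent.LibHB64
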