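import Pool.Agent.LibHB64.CMH2

set_option autoImplicit false

/-!
Row CMH4 (MEDIUM). There is exactly one nonzero relative cycle of top size `d` on the interior faces containing `s`. Uses CMH2.

`s ∉ B`: `rone_D` and `up_int` (faces containing `s` are interior). `s ∈ B`: EXISTENCE: `rone_B` gives the cycle `z` of `B` of size `d - 1`; it is a
cycle of `D` of size `d - 1 < d` (`1 ≤ d` is `h.pos`), so `racyc_D` gives `c` of size `d` on `D` with `∂ c = z` on `D`; faces of size `d` are not in `B`
(`B` is a homology sphere of dimension `d - 2`: `h.sph.2.1`), so `c` is a chain of `D \ B`, `∂ c = z = 0` on `D \ B`; `c` is nonzero as `z` is nonzero.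
UNIQUENESS: if `c'` is another cycle of `D \ B` of size `d`, `∂ c'` is supported on `B`, and it is a cycle of `B` (`∂∂ = 0`), so it is `0` or `z`;
if `0` then `c'` is a cycle of `D` and `rzero_D` gives `c' = 0`; if `z` then `c' - c` is a cycle of `D`, so `c' = c`.
-/

namespace Pool.Agent.LibHB64

variable {V : Type*} [Fintype V] [DecidableEq V] {d : ℕ} {D B : Finset (Finset V)}

private theorem CMH4_dd (c : Finset V → ZMod 2) (t : Finset V) :
    ∑ v ∈ tᶜ, ∑ u ∈ (insert v t)ᶜ, c (insert u (insert v t)) = 0 := by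
  have h1 : ∀ v ∈ tᶜ, ∑ u ∈ (insert v t)ᶜ, c (insert u (insert v t)) =
      ∑ u ∈ tᶜ, if u = v then 0 else c (insert u (insert v t)) := by
    intro v hv
    have h2 : (insert v t)ᶜ = tᶜ.filter fun u => ¬ u = v := by
      ext u
      simp only [Finset.mem_compl, Finset.mem_insert, Finset.mem_filter, not_or]
      exact and_comm
    rw [h2, Finset.sum_filter]
    refine Finset.sum_congr rfl fun u _ => ?_
    by_cases h : u = v
    · simp [h]
    · simp [h]
  rw [Finset.sum_congr rfl h1, ← Finset.sum_product']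
  refine Finset.sum_involution (fun p _ => (p.2, p.1)) ?_ ?_ ?_ ?_
  · rintro ⟨v, u⟩ hp
    by_cases h : u = v
    · simp [h]
    · have h' : ¬ v = u := fun h2 => h h2.symm
      show (if u = v then 0 else c (insert u (insert v t))) +
        (if v = u then 0 else c (insert v (insert u t))) = 0
      rw [if_neg h, if_neg h', Finset.insert_comm v u t]
      exact CharTwo.add_self_eq_zero _
  · rintro ⟨v, u⟩ hp hne heq
    apply hne
    have h : u = v := (Prod.mk.injEq _ _ _ _ ▸ heq).1
    show (if u = v then 0 else c (insert u (insert v t))) = 0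
    rw [if_pos h]
  · rintro ⟨v, u⟩ hp
    rw [Finset.mem_product] at hp ⊢
    exact ⟨hp.2, hp.1⟩
  · rintro ⟨v, u⟩ hp
    rfl

private theorem CMH4_ne {c : Finset V → ZMod 2} {t : Finset V}
    (h : ∑ v ∈ tᶜ, c (insert v t) ≠ 0) : ∃ v ∈ tᶜ, c (insert v t) ≠ 0 := by
  by_contra hcon
  push Not at hcon
  exact h (Finset.sum_eq_zero hcon)


theorem rone_int (h : HBallB d D B) {s : Finset V} (hs : s ∈ D) : ROne (D \ B) s d := by
  have hX : ∀ t, t ∈ D \ B ↔ t ∈ D ∧ t ∉ B := fun t => Finset.mem_sdiff
  by_cases hsB : s ∈ B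
  · have hd : d - 1 + 1 = d := Nat.sub_add_cancel h.pos
    have hcard : ∀ t ∈ B, t.card ≤ d - 1 := h.sph.2.1
    have hBdown : ∀ t ∈ B, ∀ u, u ⊆ t → u ∈ B := h.sph.1.2
    have hDdown : ∀ t ∈ D, ∀ u, u ⊆ t → u ∈ D := h.cx.2
    obtain ⟨z, hz1, hz2, ⟨t₀, ht₀⟩, hz4⟩ := rone_B h hsB
    have hzD1 : RCh D s (d - 1) z := fun t ht => ⟨h.sub (hz1 t ht).1, (hz1 t ht).2⟩
    have hzD2 : RCyc D s z := by
      intro t ht hst
      by_cases htB : t ∈ B
      · exact hz2 t htB hst
      · refine Finset.sum_eq_zero fun v _ => ?_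
        by_contra hne
        exact htB (hBdown _ (hz1 _ hne).1 t (Finset.subset_insert v t))
    obtain ⟨b, hb1, hb2⟩ := racyc_D h hs (n := d - 1) (by omega) z hzD1 hzD2
    rw [hd] at hb1
    have hbX : RCh (D \ B) s d b := by
      intro t ht
      obtain ⟨h1, h2, h3⟩ := hb1 t ht
      refine ⟨(hX t).2 ⟨h1, fun hB => ?_⟩, h2, h3⟩
      have := hcard t hB
      have := h.pos
      omega
    have hbc : RCyc (D \ B) s b := by
      intro t ht hst
      obtain ⟨h1, h2⟩ := (hX t).1 ht
      rw [hb2 t h1 hst]
      by_contra hne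
      exact h2 (hz1 t hne).1
    refine ⟨b, hbX, hbc, ?_, ?_⟩
    · have h1 := hb2 t₀ (h.sub (hz1 t₀ ht₀).1) (hz1 t₀ ht₀).2.1
      rw [← h1] at ht₀
      obtain ⟨v, -, hv⟩ := CMH4_ne ht₀
      exact ⟨_, hv⟩
    · intro c hc1 hc2
      have hcD : RCh D s d c := fun t ht => ⟨((hX t).1 (hc1 t ht).1).1, (hc1 t ht).2⟩
      have hw1 : RCh B s (d - 1) fun t => if t ∈ B ∧ s ⊆ t then ∑ v ∈ tᶜ, c (insert v t) else 0 := by
        intro t ht
        dsimp only at ht
        split_ifs at ht with hcase
        · refine ⟨hcase.1, hcase.2, ?_⟩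
          obtain ⟨v, hv1, hv2⟩ := CMH4_ne ht
          have h1 := (hc1 _ hv2).2.2
          rw [Finset.card_insert_of_notMem (Finset.mem_compl.1 hv1)] at h1
          omega
        · exact absurd rfl ht
      have hw2 : RCyc B s fun t => if t ∈ B ∧ s ⊆ t then ∑ v ∈ tᶜ, c (insert v t) else 0 := by
        intro t ht hst
        refine Eq.trans (Finset.sum_congr rfl fun v _ => ?_) (CMH4_dd c t)
        have hsv : s ⊆ insert v t := hst.trans (Finset.subset_insert v t)
        by_cases hvB : insert v t ∈ B
        · exact if_pos ⟨hvB, hsv⟩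
        · refine (if_neg fun hh => hvB hh.1).trans ?_
          symm
          by_cases hvD : insert v t ∈ D
          · exact hc2 _ ((hX _).2 ⟨hvD, hvB⟩) hsv
          · refine Finset.sum_eq_zero fun u _ => ?_
            by_contra hne
            exact hvD (hDdown _ (hcD _ hne).1 _ (Finset.subset_insert u _))
      rcases hz4 _ hw1 hw2 with h0 | h0
      · left
        refine rzero_D h hsB c hcD ?_
        intro t ht hst
        by_cases htB : t ∈ B
        · have h1 := h0 t
          rw [if_pos ⟨htB, hst⟩] at h1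
          exact h1
        · exact hc2 t ((hX t).2 ⟨ht, htB⟩) hst
      · right
        have hsum : ∀ t, c t + b t = 0 := by
          refine rzero_D h hsB (fun t => c t + b t) ?_ ?_
          · intro t ht
            by_cases hct : c t = 0
            · refine hb1 t fun hbt => ht ?_
              show c t + b t = 0
              rw [hct, hbt, add_zero]
            · exact hcD t hct
          · intro t ht hst
            show ∑ v ∈ tᶜ, (c (insert v t) + b (insert v t)) = 0
            rw [Finset.sum_add_distrib, hb2 t ht hst]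
            by_cases htB : t ∈ B
            · have h1 := h0 t
              rw [if_pos ⟨htB, hst⟩] at h1
              rw [h1]
              exact CharTwo.add_self_eq_zero _
            · rw [hc2 t ((hX t).2 ⟨ht, htB⟩) hst, zero_add]
              by_contra hne
              exact htB (hz1 t hne).1
        intro t
        exact CharTwo.add_eq_zero.1 (hsum t)
  · have hsX : s ∈ D \ B := (hX s).2 ⟨hs, hsB⟩
    have hch : ∀ c : Finset V → ZMod 2, RCh (D \ B) s d c ↔ RCh D s d c := by
      intro c
      constructor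
      · intro hc t ht
        exact ⟨((hX t).1 (hc t ht).1).1, (hc t ht).2⟩
      · intro hc t ht
        exact ⟨up_int h hsX (hc t ht).1 (hc t ht).2.1, (hc t ht).2⟩
    have hcy : ∀ c : Finset V → ZMod 2, RCyc (D \ B) s c ↔ RCyc D s c := by
      intro c
      constructor
      · intro hc t ht hst
        exact hc t (up_int h hsX ht hst) hst
      · intro hc t ht hst
        exact hc t ((hX t).1 ht).1 hst
    obtain ⟨z, hz1, hz2, hz3, hz4⟩ := rone_D h hs hsB
    exact ⟨z, (hch z).2 hz1, (hcy z).2 hz2, hz3, fun c hc1 hc2 => hz4 c ((hch c).1 hc1) ((hcy c).1 hc2)⟩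

end Pool.Agent.LibHB64
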