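import Pool.Agent.LibHB64.CMH3
import Pool.Agent.LibHB64.CMH4

set_option autoImplicit false

/-!
Row CMH7 (MEDIUM). Euler characteristic of the interior faces which contain `s`. Uses CMH2, CMH3, CMH4.

`k = ZMod 2`, `X = D \ B`, `C n` = submodule of `c : Finset V → k` with `RCh X s n c`; `finrank (C n)` = number of `t ∈ X` with `s ⊆ t`, `t.card = n` (`C n` is
spanned by the `Pi.single t 1`; e.g. a linear equivalence with the functions on the subtype). Boundary map `∂ c t = if t ∈ X ∧ s ⊆ t then ∑ v ∈ tᶜ, c (insert v t) else 0`,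
`Z n = C n ⊓ ker ∂`. `∂` maps `C (n + 1)` to `Z n` (`∂∂ = 0` modulo 2: `cvx_int` shows that intermediate faces of a pair in `X` are in `X`), and onto `Z n` for `n < d`
(`racyc_int`), so `finrank (C (n + 1)) = finrank (Z (n + 1)) + finrank (Z n)` for `n < d` (`LinearMap.finrank_range_add_finrank_ker` of the restriction), `C 0 = Z 0`. Telescoping:
`∑_{n ≤ d} (-1)^(d - n) finrank (C n) = finrank (Z d) = 1` (`rone_int`). All faces have size `≤ d` (`h.card`).
-/

namespace Pool.Agent.LibHB64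

variable {V : Type*} [Fintype V] [DecidableEq V] {d : ℕ} {D B : Finset (Finset V)}

/-- chains -/
private def CMH7_C (X : Finset (Finset V)) (s : Finset V) (n : ℕ) :
    Submodule (ZMod 2) (Finset V → ZMod 2) where
  carrier := {c | RCh X s n c}
  add_mem' := by
    intro a b ha hb t ht
    by_cases h1 : a t = 0
    · by_cases h2 : b t = 0
      · exact absurd (by simp [h1, h2]) ht
      · exact hb t h2
    · exact ha t h1
  zero_mem' := fun t ht => absurd rfl ht
  smul_mem' := by
    intro r a ha t ht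
    exact ha t fun h1 => ht (by simp [h1])

/-- boundary map -/
private def CMH7_d (X : Finset (Finset V)) (s : Finset V) :
    (Finset V → ZMod 2) →ₗ[ZMod 2] (Finset V → ZMod 2) where
  toFun c t := if t ∈ X ∧ s ⊆ t then ∑ v ∈ tᶜ, c (insert v t) else 0
  map_add' := by
    intro a b
    funext t
    by_cases h : t ∈ X ∧ s ⊆ t
    · simp only [Pi.add_apply, if_pos h, Finset.sum_add_distrib]
    · simp only [Pi.add_apply, if_neg h, add_zero]
  map_smul' := by
    intro r a
    funext t
    by_cases h : t ∈ X ∧ s ⊆ t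
    · simp only [Pi.smul_apply, if_pos h, Finset.smul_sum, RingHom.id_apply]
    · simp only [Pi.smul_apply, if_neg h, RingHom.id_apply, smul_zero]

private theorem CMH7_d_apply (X : Finset (Finset V)) (s : Finset V) (c : Finset V → ZMod 2)
    (t : Finset V) :
    CMH7_d X s c t = if t ∈ X ∧ s ⊆ t then ∑ v ∈ tᶜ, c (insert v t) else 0 := rfl

private theorem CMH7_ker (X : Finset (Finset V)) (s : Finset V) (c : Finset V → ZMod 2) :
    c ∈ LinearMap.ker (CMH7_d X s) ↔ RCyc X s c := by
  rw [LinearMap.mem_ker]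
  constructor
  · intro h t ht hst
    have h1 := congrFun h t
    rw [CMH7_d_apply, if_pos ⟨ht, hst⟩] at h1
    exact h1
  · intro h
    funext t
    rw [CMH7_d_apply]
    split_ifs with h1
    · exact h t h1.1 h1.2
    · rfl

private theorem CMH7_d_chain {X : Finset (Finset V)} {s : Finset V} {n : ℕ} {c : Finset V → ZMod 2}
    (hc : RCh X s (n + 1) c) : RCh X s n (CMH7_d X s c) := by
  intro t ht
  rw [CMH7_d_apply] at ht
  split_ifs at ht with h1
  · obtain ⟨v, hv, hv0⟩ := Finset.exists_ne_zero_of_sum_ne_zero ht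
    have h2 := (hc _ hv0).2.2
    rw [Finset.card_insert_of_notMem (Finset.mem_compl.1 hv)] at h2
    exact ⟨h1.1, h1.2, by omega⟩
  · exact absurd rfl ht

private theorem CMH7_dd {X : Finset (Finset V)} (hX : Cvx X) {s : Finset V} {n : ℕ}
    {c : Finset V → ZMod 2} (hc : RCh X s n c) : RCyc X s (CMH7_d X s c) := by
  intro t ht hst
  have h1 : ∀ v ∈ tᶜ, CMH7_d X s c (insert v t) = ∑ w ∈ (insert v t)ᶜ, c (insert w (insert v t)) := by
    intro v _
    rw [CMH7_d_apply]
    split_ifs with h2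
    · rfl
    · symm
      refine Finset.sum_eq_zero fun w _ => ?_
      by_contra h3
      refine h2 ⟨hX t ht _ (hc _ h3).1 _ (Finset.subset_insert _ _) (Finset.subset_insert _ _),
        hst.trans (Finset.subset_insert _ _)⟩
  rw [Finset.sum_congr rfl h1]
  have h2 : ∑ v ∈ tᶜ, ∑ w ∈ (insert v t)ᶜ, c (insert w (insert v t)) =
      ∑ p ∈ (tᶜ).offDiag, c (insert p.2 (insert p.1 t)) := by
    rw [Finset.sum_sigma']
    refine Finset.sum_bij' (fun p _ => (p.1, p.2)) (fun p _ => ⟨p.1, p.2⟩) ?_ ?_ ?_ ?_ ?_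
    · rintro ⟨v, w⟩ h
      simp only [Finset.mem_sigma, Finset.mem_compl, Finset.mem_insert, not_or] at h
      simp only [Finset.mem_offDiag, Finset.mem_compl]
      exact ⟨h.1, h.2.2, fun h' => h.2.1 h'.symm⟩
    · rintro ⟨v, w⟩ h
      simp only [Finset.mem_offDiag, Finset.mem_compl] at h
      simp only [Finset.mem_sigma, Finset.mem_compl, Finset.mem_insert, not_or]
      exact ⟨h.1, fun h' => h.2.2 h'.symm, h.2.1⟩
    · rintro ⟨v, w⟩ _
      rfl
    · rintro ⟨v, w⟩ _
      rfl
    · rintro ⟨v, w⟩ _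
      rfl
  rw [h2]
  refine Finset.sum_involution (fun p _ => (p.2, p.1)) ?_ ?_ ?_ ?_
  · intro p _
    rw [Finset.insert_comm]
    exact CharTwo.add_self_eq_zero _
  · intro p hp _ h
    exact (Finset.mem_offDiag.1 hp).2.2 (congrArg Prod.fst h).symm
  · intro p hp
    rw [Finset.mem_offDiag] at hp ⊢
    exact ⟨hp.2.1, hp.1, fun h => hp.2.2 h.symm⟩
  · intro p _
    rfl

omit [Fintype V] in
private theorem CMH7_finrank_C (X : Finset (Finset V)) (s : Finset V) (n : ℕ) :
    Module.finrank (ZMod 2) (CMH7_C X s n) = (X.filter fun t => s ⊆ t ∧ t.card = n).card := by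
  classical
  have e : CMH7_C X s n ≃ₗ[ZMod 2] ({t // t ∈ X.filter fun t => s ⊆ t ∧ t.card = n} → ZMod 2) :=
    { toFun := fun c t => c.1 t.1
      map_add' := fun a b => rfl
      map_smul' := fun r a => rfl
      invFun := fun f => ⟨fun t => if h : t ∈ X.filter fun t => s ⊆ t ∧ t.card = n then f ⟨t, h⟩ else 0, by
        intro t ht
        by_cases h : t ∈ X.filter fun t => s ⊆ t ∧ t.card = n
        · exact ⟨(Finset.mem_filter.1 h).1, (Finset.mem_filter.1 h).2⟩
        · simp only [dif_neg h] at ht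
          exact absurd rfl ht⟩
      left_inv := by
        intro c
        apply Subtype.ext
        funext t
        by_cases h : t ∈ X.filter fun t => s ⊆ t ∧ t.card = n
        · simp only [dif_pos h]
        · simp only [dif_neg h]
          by_contra h1
          have h2 := c.2 t (fun h3 => h1 h3.symm)
          exact h (Finset.mem_filter.2 h2)
      right_inv := by
        intro f
        funext t
        simp only [dif_pos t.2] }
  rw [e.finrank_eq, Module.finrank_fintype_fun_eq_card, Fintype.card_coe]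

private theorem CMH7_step (h : HBallB d D B) {s : Finset V} (hs : s ∈ D) {n : ℕ} (hn : n < d) :
    Module.finrank (ZMod 2) (CMH7_C (D \ B) s (n + 1)) =
      Module.finrank (ZMod 2) ↥(CMH7_C (D \ B) s (n + 1) ⊓ LinearMap.ker (CMH7_d (D \ B) s)) +
      Module.finrank (ZMod 2) ↥(CMH7_C (D \ B) s n ⊓ LinearMap.ker (CMH7_d (D \ B) s)) := by
  let δ : CMH7_C (D \ B) s (n + 1) →ₗ[ZMod 2] ↥(CMH7_C (D \ B) s n ⊓ LinearMap.ker (CMH7_d (D \ B) s)) :=
    ((CMH7_d (D \ B) s).comp (CMH7_C (D \ B) s (n + 1)).subtype).codRestrict _ (by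
      intro c
      exact ⟨CMH7_d_chain c.2, (CMH7_ker _ _ _).2 (CMH7_dd (cvx_int h) c.2)⟩)
  have hδ : ∀ c, (δ c : Finset V → ZMod 2) = CMH7_d (D \ B) s c := fun c => rfl
  have hsurj : LinearMap.range δ = ⊤ := by
    rw [LinearMap.range_eq_top]
    rintro ⟨z, hz1, hz2⟩
    obtain ⟨b, hb1, hb2⟩ := racyc_int h hs hn z hz1 ((CMH7_ker _ _ _).1 hz2)
    refine ⟨⟨b, hb1⟩, ?_⟩
    apply Subtype.ext
    rw [hδ]
    funext t
    show CMH7_d (D \ B) s b t = z t
    rw [CMH7_d_apply]
    split_ifs with h1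
    · exact hb2 t h1.1 h1.2
    · by_contra h2
      have h3 := hz1 t (fun h4 => h2 h4.symm)
      exact h1 ⟨h3.1, h3.2.1⟩
  have h1 := LinearMap.finrank_range_add_finrank_ker δ
  rw [hsurj, finrank_top] at h1
  have h2 : (LinearMap.ker δ).map (CMH7_C (D \ B) s (n + 1)).subtype =
      CMH7_C (D \ B) s (n + 1) ⊓ LinearMap.ker (CMH7_d (D \ B) s) := by
    ext c
    rw [Submodule.mem_map]
    constructor
    · rintro ⟨x, hx, rfl⟩
      refine ⟨x.2, ?_⟩
      have h3 := congrArg Subtype.val (LinearMap.mem_ker.1 hx)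
      exact h3
    · rintro ⟨hc1, hc2⟩
      refine ⟨⟨c, hc1⟩, ?_, rfl⟩
      rw [LinearMap.mem_ker]
      apply Subtype.ext
      exact LinearMap.mem_ker.1 hc2
  have h3 := Submodule.finrank_map_subtype_eq (CMH7_C (D \ B) s (n + 1)) (LinearMap.ker δ)
  rw [h2] at h3
  rw [h3]
  omega

private theorem CMH7_sum (h : HBallB d D B) {s : Finset V} (hs : s ∈ D) : ∀ m ≤ d,
    ∑ n ∈ Finset.range (m + 1), (-1 : ℤ) ^ (m - n) *
      (Module.finrank (ZMod 2) (CMH7_C (D \ B) s n) : ℤ) =
      (Module.finrank (ZMod 2) ↥(CMH7_C (D \ B) s m ⊓ LinearMap.ker (CMH7_d (D \ B) s)) : ℤ) := by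
  intro m
  induction m with
  | zero =>
    intro _
    have h1 : CMH7_C (D \ B) s 0 ⊓ LinearMap.ker (CMH7_d (D \ B) s) = CMH7_C (D \ B) s 0 := by
      refine inf_eq_left.2 fun c hc => ?_
      rw [CMH7_ker]
      intro t _ _
      refine Finset.sum_eq_zero fun v _ => ?_
      by_contra h2
      have h3 := (hc _ h2).2.2
      rw [Finset.card_eq_zero] at h3
      exact absurd h3 (Finset.insert_ne_empty _ _)
    rw [h1]
    simp
  | succ m ih =>
    intro hm
    have h1 := ih (by omega)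
    rw [Finset.sum_range_succ, Nat.sub_self, pow_zero, one_mul]
    have h2 : ∑ n ∈ Finset.range (m + 1), (-1 : ℤ) ^ (m + 1 - n) *
        (Module.finrank (ZMod 2) (CMH7_C (D \ B) s n) : ℤ) =
        -∑ n ∈ Finset.range (m + 1), (-1 : ℤ) ^ (m - n) *
          (Module.finrank (ZMod 2) (CMH7_C (D \ B) s n) : ℤ) := by
      rw [← Finset.sum_neg_distrib]
      refine Finset.sum_congr rfl fun n hn => ?_
      have h3 : m + 1 - n = (m - n) + 1 := by
        have := Finset.mem_range.1 hn
        omega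
      rw [h3, pow_succ]
      ring
    rw [h2, h1, CMH7_step h hs (by omega)]
    push_cast
    ring

theorem euler_int (h : HBallB d D B) {s : Finset V} (hs : s ∈ D) :
    ∑ t ∈ (D \ B).filter (fun t => s ⊆ t), (-1 : ℤ) ^ (d - t.card) = 1 := by
  classical
  have hcard : ∀ t ∈ (D \ B).filter (fun t => s ⊆ t), t.card ∈ Finset.range (d + 1) := by
    intro t ht
    rw [Finset.mem_filter, Finset.mem_sdiff] at ht
    rw [Finset.mem_range]
    have := h.card t ht.1.1
    omega
  have h1 : ∑ t ∈ (D \ B).filter (fun t => s ⊆ t), (-1 : ℤ) ^ (d - t.card) =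
      ∑ n ∈ Finset.range (d + 1), (-1 : ℤ) ^ (d - n) *
        (Module.finrank (ZMod 2) (CMH7_C (D \ B) s n) : ℤ) := by
    rw [← Finset.sum_fiberwise_of_maps_to hcard]
    refine Finset.sum_congr rfl fun n _ => ?_
    rw [CMH7_finrank_C, Finset.filter_filter]
    have h2 : ∀ t ∈ (D \ B).filter (fun t => s ⊆ t ∧ t.card = n), (-1 : ℤ) ^ (d - t.card) =
        (-1) ^ (d - n) := by
      intro t ht
      rw [(Finset.mem_filter.1 ht).2.2]
    rw [Finset.sum_congr rfl h2, Finset.sum_const, nsmul_eq_mul, mul_comm]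
  rw [h1, CMH7_sum h hs d le_rfl]
  obtain ⟨z, hz1, hz2, ⟨t0, ht0⟩, hz4⟩ := rone_int h hs
  have h3 : CMH7_C (D \ B) s d ⊓ LinearMap.ker (CMH7_d (D \ B) s) = Submodule.span (ZMod 2) {z} := by
    ext c
    rw [Submodule.mem_span_singleton]
    constructor
    · rintro ⟨hc1, hc2⟩
      rcases hz4 c hc1 ((CMH7_ker _ _ _).1 hc2) with h4 | h4
      · exact ⟨0, by rw [zero_smul]; funext t; exact (h4 t).symm⟩
      · exact ⟨1, by rw [one_smul]; funext t; exact (h4 t).symm⟩
    · rintro ⟨r, rfl⟩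
      exact Submodule.smul_mem _ _ ⟨hz1, (CMH7_ker _ _ _).2 hz2⟩
  rw [h3, finrank_span_singleton (fun h5 => ht0 (by rw [h5]; rfl))]
  rfl

end Pool.Agent.LibHB64
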