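import Pool.Agent.LibHB64.CMA10
import Pool.Agent.LibHB64.CMA11
import Pool.Agent.LibHB64.CMA12
import Pool.Agent.LibHB64.CMA13
import Pool.Agent.LibHB64.CMA14

set_option autoImplicit false

/-!
Assembly of the block CM (written by helper58): `CM_dim`, `CM_pts`.
-/

namespace Pool.Agent.LibHB64

open MvPolynomial

variable {V : Type*} [Fintype V] [DecidableEq V] {K : Type*} [Field K] {d : ℕ} {D B : Finset (Finset V)}

theorem Th_eq (D X : Finset (Finset V)) (a : Fin d → V → K) (i : ℕ) :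
    Th D X a i = SS (fun j => mulD D (th a j)) d (mon K X) i := by
  cases i with
  | zero => rfl
  | succ i =>
    change (⨆ j : Fin d, (mon K X i).map (mulD D (th a j))) =
      ⨆ (j : Fin d) (_ : (j : ℕ) < d), (mon K X i).map (mulD D (th a j))
    refine iSup_congr fun j => ?_
    rw [iSup_pos j.isLt]

theorem part_exists {X : Finset (Finset V)} (hX : X = D ∨ X = D \ B) :
    ∃ X', (X' = D ∧ X = D \ B) ∨ (X' = D \ B ∧ X = D) := by
  rcases hX with hX | hX
  · exact ⟨_, Or.inr ⟨rfl, hX⟩⟩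
  · exact ⟨_, Or.inl ⟨rfl, hX⟩⟩

theorem part_facts [CharP K 2] (h : HBallB d D B) {X X' : Finset (Finset V)}
    (hX : (X' = D ∧ X = D \ B) ∨ (X' = D \ B ∧ X = D)) :
    X' ⊆ D ∧ X ⊆ D ∧ Cvx X' ∧ (∀ n, n < d → ∀ s ∈ D, RAcyc K X' s n) ∧
      ∀ s ∈ X, ∀ t ∈ D, s ⊆ t → t ∈ X := by
  rcases hX with ⟨rfl, rfl⟩ | ⟨rfl, rfl⟩
  · exact ⟨Finset.Subset.refl _, Finset.sdiff_subset, cvx_D h,
      fun n hn s hs => racyc_K_D h hs hn, fun s hs t ht hst => up_int h hs ht hst⟩
  · exact ⟨Finset.sdiff_subset, Finset.Subset.refl _, cvx_int h,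
      fun n hn s hs => racyc_K_int h hs hn, fun s hs t ht hst => ht⟩

theorem greg_mon (h : HBallB d D B) [CharP K 2] {a : Fin d → V → K} (hg : Gen D a) {X : Finset (Finset V)}
    (hX : X = D ∨ X = D \ B) : GReg (fun j => mulD D (th a j)) d (mon K X) := by
  obtain ⟨X', hX'⟩ := part_exists hX
  obtain ⟨h1, h2, h3, h4, h5⟩ := part_facts (K := K) h hX'
  have h6 : (fun i => (mon K X i).map (iot K d D)) = ZZ K X' d := funext fun i => iot_ZZ h hX' i
  have h7 : GReg (TT a) d (fun i => (mon K X i).map (iot K d D)) := by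
    rw [h6]
    exact greg_ZZ h.cx hg h1 h3 h4 d le_rfl
  have h8 : ∀ (j : ℕ) (hj : j < d) (f : MvPolynomial V K),
      iot K d D ((fun j => mulD D (th a j)) ⟨j, hj.trans_le le_rfl⟩ f) =
        TT a ⟨j, hj.trans_le le_rfl⟩ (iot K d D f) := fun j hj f => iot_mulD h.cx a ⟨j, hj⟩ f
  exact greg_pull (T := fun j => mulD D (th a j)) (T' := TT a) (iot K d D) le_rfl le_rfl h8
    (mulD_mon h.cx h5 a) (fun i f hf h0 => iot_inj h (mon_mono h2 i hf) h0) h7

theorem mulD_comm (hD : IsCx D) (p q f : MvPolynomial V K) : mulD D p (mulD D q f) = mulD D q (mulD D p f) := by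
  rw [mulD_mulD hD, mulD_mulD hD, mul_comm]

/-- Hilbert function of the quotient, `X` = all faces or interior faces -/
theorem CM_dimX (h : HBallB d D B) [CharP K 2] {a : Fin d → V → K} (hg : Gen D a) (X : Finset (Finset V))
    (hX : X = D ∨ X = D \ B) (i : ℕ) :
    (Module.finrank K (mon K X i) : ℤ) = Module.finrank K (Th D X a i) + hnum d X i := by
  obtain ⟨X', hX'⟩ := part_exists hX
  obtain ⟨h1, h2, h3, h4, h5⟩ := part_facts (K := K) h hX'
  have h6 := series_SS (fun j l f => mulD_comm h.cx (th a j) (th a l) f) (mulD_mon h.cx h5 a)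
    (fun i => mon_finite X i) (greg_mon h hg hX) d le_rfl
  have h7 := congrArg (PowerSeries.coeff i) h6
  rw [mon_series, hnum_series (fun s hs => h.card s (h2 hs)), PowerSeries.coeff_mk, ← Th_eq] at h7
  linarith

/-- Dehn-Sommerville -/
theorem CM_DS (h : HBallB d D B) {i : ℕ} (hi : i ≤ d) : hnum d (D \ B) i = hnum d D (d - i) := hnum_symm h hi

theorem CM_dim (h : HBallB d D B) [CharP K 2] {a : Fin d → V → K} (hg : Gen D a) (i : ℕ) (hi : i ≤ d) :
    (Module.finrank K (mon K D i) : ℤ) = Module.finrank K (Th D D a i) + hnum d D i ∧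
      (Module.finrank K (mon K (D \ B) i) : ℤ) = Module.finrank K (Th D (D \ B) a i) + hnum d D (d - i) := by
  refine ⟨CM_dimX h hg D (Or.inl rfl) i, ?_⟩
  rw [← CM_DS h hi]
  exact CM_dimX h hg (D \ B) (Or.inr rfl) i

theorem CM_pts (h : HBallB d D B) [CharP K 2] {a : Fin d → V → K} (hg : Gen D a) {c : Finset V → V → K}
    (hc : Pts d D a c) (X : Finset (Finset V)) (hX : X = D ∨ X = D \ B) :
    (∀ i, ∀ w ∈ mon K X (i + 1), ev d D c w ∈ UW d D X c i → w ∈ Th D X a (i + 1)) ∧
      ∀ w ∈ mon K X 0, ev d D c w = 0 → w = 0 := by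
  obtain ⟨X', hX'⟩ := part_exists hX
  obtain ⟨h1, h2, h3, h4, h5⟩ := part_facts (K := K) h hX'
  have hd : 1 ≤ d := h.pos
  have hfacD : ∀ F ∈ Fac d D, F ∈ D := fun F hF => (Finset.mem_filter.mp hF).1
  constructor
  · intro i w hw hev
    obtain ⟨u, hu, huw⟩ := hev
    have hlast : d - 1 < d := by omega
    -- subtract the last linear form times `u`
    have hstab := mulD_mon (K := K) h.cx h5 a
    have hT : mulD D (th a ⟨d - 1, hlast⟩) u ∈ mon K X (i + 1) :=
      hstab ⟨d - 1, hlast⟩ i (Submodule.mem_map_of_mem hu)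
    have hTh : mulD D (th a ⟨d - 1, hlast⟩) u ∈ Th D X a (i + 1) := by
      change _ ∈ ⨆ j : Fin d, (mon K X i).map (mulD D (th a j))
      exact Submodule.mem_iSup_of_mem ⟨d - 1, hlast⟩ (Submodule.mem_map_of_mem hu)
    set w' := w - mulD D (th a ⟨d - 1, hlast⟩) u with hw'
    have hw'm : w' ∈ mon K X (i + 1) := Submodule.sub_mem _ hw hT
    have hval : ∀ F ∈ Fac d D, (aeval (c F) w' : K) = 0 := by
      intro F hF
      have e1 : (aeval (c F) w : K) = aeval (c F) u := (congrFun huw ⟨F, hF⟩).symm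
      have e2 : (aeval (c F) (mulD D (th a ⟨d - 1, hlast⟩) u) : K) = aeval (c F) u := by
        change (aeval (c F) (proj K D (th a ⟨d - 1, hlast⟩ * u)) : K) = _
        rw [aeval_proj h.cx (hfacD F hF) (hc.supp F hF), map_mul]
        have e3 : (aeval (c F) (th a ⟨d - 1, hlast⟩) : K) = 1 := by
          have e4 := hc.eq F hF ⟨d - 1, hlast⟩
          rw [if_pos (by simp only; omega)] at e4
          unfold th
          rw [map_sum, ← e4]
          refine Finset.sum_congr rfl fun v _ => ?_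
          rw [map_mul, aeval_C, aeval_X]
          rfl
        rw [e3, one_mul]
      rw [hw', map_sub, e1, e2, sub_self]
    have hZ : iot K d D w' ∈ ZZ K X' d (i + 1) := by
      rw [← iot_ZZ h hX' (i + 1)]
      exact Submodule.mem_map_of_mem hw'm
    have hSC : iot K d D w' ∈ SS (TT a) (d - 1) (CC K X' d) (i + 1) := by
      rw [mem_SS_CC]
      intro t
      refine ⟨(hZ.1 t).1, ?_⟩
      rw [iot_apply]
      by_cases ht : t ∈ Fac d D
      · rw [if_pos ht]
        refine face_pts hg ht hd (hc.supp t ht) (fun j => hc.eq t ht j) (res_mon X t hw'm) ?_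
        rw [aeval_res (hc.supp t ht)]
        exact hval t ht
      · rw [if_neg ht]
        exact Submodule.zero_mem _
    have hSZ := inj_ZZ h.cx hg h1 h3 h4 hd (i + 1) _ hZ hSC
    have h6 : (fun i => (mon K X i).map (iot K d D)) = ZZ K X' d := funext fun i => iot_ZZ h hX' i
    rw [← h6, ← SS_map (T := fun j => mulD D (th a j)) (T' := TT a) (iot K d D) (Nat.sub_le d 1) (Nat.sub_le d 1)
      (fun j hj f => iot_mulD h.cx a _ f)] at hSZ
    obtain ⟨g, hg1, hg2⟩ := hSZ
    have hgm : g ∈ mon K X (i + 1) := SS_le hstab _ _ hg1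
    have hgw : g = w' := by
      have e5 : g - w' = 0 := by
        refine iot_inj h (mon_mono h2 (i + 1) (Submodule.sub_mem _ hgm hw'm)) ?_
        rw [map_sub, hg2, sub_self]
      exact sub_eq_zero.mp e5
    have hw'T : w' ∈ Th D X a (i + 1) := by
      rw [Th_eq, ← hgw]
      exact SS_mono (fun i => le_rfl) (Nat.sub_le d 1) (i + 1) hg1
    have e6 : w = w' + mulD D (th a ⟨d - 1, hlast⟩) u := by
      rw [hw']
      abel
    rw [e6]
    exact Submodule.add_mem _ hw'T hTh
  · intro w hw h0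
    rw [mem_mon] at hw
    by_contra hne
    obtain ⟨α, hα⟩ := ne_zero_iff.mp hne
    obtain ⟨hα1, hα2⟩ := hw α hα
    obtain ⟨F, hF, _⟩ := pure h _ (h2 hα1)
    have hα0 : ∀ β, coeff β w ≠ 0 → β = 0 := fun β hβ =>
      (Finsupp.degree_eq_zero_iff β).mp (hw β hβ).2
    have hwC : w = C (coeff 0 w) := by
      ext β
      rw [coeff_C]
      by_cases hβ : 0 = β
      · rw [if_pos hβ, hβ]
      · rw [if_neg hβ]
        by_contra h7
        exact hβ (hα0 β h7).symm
    have h8 : (aeval (c F) w : K) = 0 := congrFun h0 ⟨F, hF⟩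
    rw [hwC, aeval_C] at h8
    have h9 : coeff 0 w = 0 := h8
    rw [hα0 α hα] at hα
    exact hα h9

end Pool.Agent.LibHB64
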