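import Pool.Agent.LibHB64.CODefs

set_option autoImplicit false

/-!
Row A1. The list of the facets sorted by `key` is a shelling of a ball.
PLAN. `F` is injective on `A` (`F i = F j` gives `R i ⊆ F j` and `R j ⊆ F i`, so by `cont` `i = j` or `key i < key j` and
`key j < key i`). Take a list `l0` of the elements of `A` without repetitions with `List.Pairwise (key a ≤ key b)` (for
example `A.toList.mergeSort (fun a b => decide (key a ≤ key b))`, or insertionSort with the relation `key a ≤ key b`), and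
`l = l0.map F` (nodup by injectivity). `mem` is `hD`. `shell` for `k`: `R = R (l0[k])`. `R ⊂ F`: `sub` and `hlt`. `0 < k → R.Nonempty`:
if `R = ∅` then `R ⊆ F (l0[0])`, so `key (l0[k]) < key (l0[0])`, against sortedness. For `s ⊆ F (l0[k])`: if `s ⊆ F (l0[i])`,
`i < k`, and `R ⊆ s` then `R ⊆ F (l0[i])`, so `key (l0[k]) < key (l0[i])`, contradiction. If `¬ R ⊆ s`, take `r ∈ R`,
`r ∉ s`: `step` gives `j ∈ A` with `key j < key (l0[k])` and `s ⊆ (F (l0[k])).erase r ⊆ F j`; the index of `j` in `l0` is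
`< k` because of the keys. `two`: three different members of `l.filter` (nodup list of length `≥ 3`) contradict `htwo`.
-/

namespace Pool.Agent.LibHB64

open Finset

variable {ι V κ : Type*} [DecidableEq V] [LinearOrder κ] {d : ℕ} {A : Finset ι} {F R : ι → Finset V}
  {key : ι → κ} {D : Finset (Finset V)}

theorem SData.shell (h : SData d A F R key) (hd : 1 ≤ d) (hlt : ∀ i ∈ A, R i ≠ F i)
    (htwo : ∀ s : Finset V, s.card = d - 1 → ∀ i ∈ A, ∀ j ∈ A, ∀ k ∈ A, s ⊆ F i → s ⊆ F j → s ⊆ F k →
      i = j ∨ i = k ∨ j = k)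
    (hD : ∀ s, s ∈ D ↔ ∃ i ∈ A, s ⊆ F i) : ShBall d D := by
  classical
  have hinj : ∀ i ∈ A, ∀ j ∈ A, F i = F j → i = j := by
    intro i hi j hj hij
    rcases h.cont i hi j hj (hij ▸ h.sub i hi) with h1 | h1
    · exact h1
    rcases h.cont j hj i hi (hij.symm ▸ h.sub j hj) with h2 | h2
    · exact h2.symm
    · exact absurd h1 h2.asymm
  -- the sorted list
  obtain ⟨l0, hmem, hnd, hsort⟩ : ∃ l0 : List ι, (∀ i, i ∈ l0 ↔ i ∈ A) ∧ l0.Nodup ∧
      l0.Pairwise (fun a b => key a ≤ key b) := by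
    have : Std.Total (fun a b : ι => key a ≤ key b) := ⟨fun a b => le_total _ _⟩
    have : IsTrans ι (fun a b : ι => key a ≤ key b) := ⟨fun a b c => le_trans⟩
    refine ⟨A.toList.insertionSort (fun a b => key a ≤ key b), fun i => ?_, ?_, ?_⟩
    · rw [List.mem_insertionSort, Finset.mem_toList]
    · exact (List.perm_insertionSort _ _).nodup_iff.2 A.nodup_toList
    · exact List.pairwise_insertionSort _ _
  have hA : ∀ (k : ℕ) (hk : k < l0.length), l0[k] ∈ A := fun k hk => (hmem _).1 (List.getElem_mem hk)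
  have hle : ∀ (a b : ℕ) (ha : a < l0.length) (hb : b < l0.length), a ≤ b → key l0[a] ≤ key l0[b] := by
    intro a b ha hb hab
    rcases hab.lt_or_eq with h1 | h1
    · exact List.pairwise_iff_getElem.1 hsort a b ha hb h1
    · subst h1
      exact le_rfl
  have hnot : ∀ (a b : ℕ) (ha : a < l0.length) (hb : b < l0.length), a < b → ¬ R l0[b] ⊆ F l0[a] := by
    intro a b ha hb hab hsub
    rcases h.cont _ (hA b hb) _ (hA a ha) hsub with h1 | h1
    · have := (hnd.getElem_inj_iff).1 h1
      omega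
    · exact absurd (hle a b ha hb hab.le) (not_le.2 h1)
  refine ⟨l0.map F, ?_⟩
  refine ⟨hd, ?_, ?_, ?_, ?_, ?_, ?_⟩
  · obtain ⟨i, hi⟩ := h.ne
    intro h0
    rw [List.map_eq_nil_iff] at h0
    have := (hmem i).2 hi
    rw [h0] at this
    exact absurd this List.not_mem_nil
  · exact List.Nodup.map_on (fun x hx y hy hxy => hinj x ((hmem x).1 hx) y ((hmem y).1 hy) hxy) hnd
  · intro G hG
    obtain ⟨i, hi, rfl⟩ := List.mem_map.1 hG
    exact h.card i ((hmem i).1 hi)
  · intro s
    rw [hD s]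
    constructor
    · rintro ⟨i, hi, hs⟩
      exact ⟨F i, List.mem_map.2 ⟨i, (hmem i).2 hi, rfl⟩, hs⟩
    · rintro ⟨G, hG, hs⟩
      obtain ⟨i, hi, rfl⟩ := List.mem_map.1 hG
      exact ⟨i, (hmem i).1 hi, hs⟩
  · intro k hk
    have hk0 : k < l0.length := by simpa using hk
    have hkA := hA k hk0
    refine ⟨R l0[k], ?_, ?_, ?_⟩
    · rw [List.getElem_map]
      exact (h.sub _ hkA).ssubset_of_ne (hlt _ hkA)
    · intro hpos
      rw [Finset.nonempty_iff_ne_empty]
      intro h0
      exact hnot 0 k (by omega) hk0 hpos (by rw [h0]; exact Finset.empty_subset _)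
    · intro s hs
      rw [List.getElem_map] at hs
      constructor
      · rintro ⟨i, hi, hsi⟩ hRs
        rw [List.getElem_map] at hsi
        exact hnot i k (by omega) hk0 hi (hRs.trans hsi)
      · intro hRs
        obtain ⟨r, hr, hrs⟩ := Finset.not_subset.1 hRs
        obtain ⟨j, hj, hjk, hsub⟩ := h.step _ hkA r hr
        obtain ⟨i, hi, hij⟩ := List.getElem_of_mem ((hmem j).2 hj)
        have hik : i < k := by
          by_contra hcon
          have h1 := hle k i hk0 hi (not_lt.1 hcon)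
          rw [hij] at h1
          exact absurd h1 (not_le.2 hjk)
        refine ⟨i, hik, ?_⟩
        rw [List.getElem_map, hij]
        refine subset_trans ?_ hsub
        intro v hv
        rw [Finset.mem_erase]
        exact ⟨fun hvr => hrs (hvr ▸ hv), hs hv⟩
  · intro s hs
    have hnd2 : (l0.map F).Nodup :=
      List.Nodup.map_on (fun x hx y hy hxy => hinj x ((hmem x).1 hx) y ((hmem y).1 hy) hxy) hnd
    have hfn := hnd2.filter (fun G => decide (s ⊆ G))
    have hfm : ∀ G ∈ (l0.map F).filter (fun G => decide (s ⊆ G)), ∃ i ∈ A, F i = G ∧ s ⊆ F i := by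
      intro G hG
      rw [List.mem_filter] at hG
      obtain ⟨i, hi, rfl⟩ := List.mem_map.1 hG.1
      exact ⟨i, (hmem i).1 hi, rfl, of_decide_eq_true hG.2⟩
    revert hfn hfm
    rcases (l0.map F).filter (fun G => decide (s ⊆ G)) with _ | ⟨a, _ | ⟨b, _ | ⟨c, t⟩⟩⟩
    · intro _ _
      simp
    · intro _ _
      simp
    · intro _ _
      simp
    · intro hfn hfm
      exfalso
      obtain ⟨i, hi, hia, hsi⟩ := hfm a (by simp)
      obtain ⟨j, hj, hjb, hsj⟩ := hfm b (by simp)
      obtain ⟨k, hk, hkc, hsk⟩ := hfm c (by simp)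
      simp only [List.nodup_cons, List.mem_cons, not_or] at hfn
      rcases htwo s hs i hi j hj k hk hsi hsj hsk with h1 | h1 | h1
      · exact hfn.1.1 (by rw [← hia, ← hjb, h1])
      · exact hfn.1.2.1 (by rw [← hia, ← hkc, h1])
      · exact hfn.2.1.1 (by rw [← hjb, ← hkc, h1])

end Pool.Agent.LibHB64
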