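import Pool.Agent.LibHB64.CODefs

set_option autoImplicit false

/-!
Row A2. Every face lies in exactly one interval `[R i, F i]`, so the numbers of faces are sums of binomials.
PLAN part. Existence: among the `i ∈ A` with `s ⊆ F i` take one with minimal `key` (`Finset.exists_min_image`). If `r ∈ R i`,
`r ∉ s`, then `step` gives `j` with smaller key and `s ⊆ (F i).erase r ⊆ F j`, contradiction; so `R i ⊆ s`. Uniqueness: `R i ⊆ s ⊆ F j`
and `R j ⊆ s ⊆ F i` give by `cont` (`i = j` or `key i < key j`) and (`j = i` or `key j < key i`).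
PLAN fnum_eq. `{s ∈ D : |s| = k}` is the disjoint union over `i ∈ A` of `{s : R i ⊆ s ⊆ F i, |s| = k}`; such `s` are `R i ∪ u`,
`u ⊆ F i \ R i`, `|u| = k - |R i|` (bijection with `powersetCard (k - |R i|) (F i \ R i)`, `|F i \ R i| = d - |R i|`), none if `k < |R i|`.
-/

namespace Pool.Agent.LibHB64

open Finset

variable {ι V κ : Type*} [DecidableEq V] [LinearOrder κ] {d : ℕ} {A : Finset ι} {F R : ι → Finset V}
  {key : ι → κ} {D : Finset (Finset V)}

theorem SData.part (h : SData d A F R key) (s : Finset V) (hs : ∃ i ∈ A, s ⊆ F i) :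
    ∃! i, i ∈ A ∧ R i ⊆ s ∧ s ⊆ F i := by
  classical
  obtain ⟨i0, hi0, hsi0⟩ := hs
  have hne : (A.filter fun i => s ⊆ F i).Nonempty := ⟨i0, mem_filter.2 ⟨hi0, hsi0⟩⟩
  obtain ⟨i, hi, hmin⟩ := Finset.exists_min_image (A.filter fun i => s ⊆ F i) key hne
  obtain ⟨hiA, hsi⟩ := mem_filter.1 hi
  refine ⟨i, ⟨hiA, ?_, hsi⟩, ?_⟩
  · intro r hr
    by_contra hrs
    obtain ⟨j, hjA, hkey, hj⟩ := h.step i hiA r hr
    have hsj : s ⊆ F j := by
      intro x hx
      refine hj (mem_erase.2 ⟨?_, hsi hx⟩)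
      rintro rfl
      exact hrs hx
    exact absurd (hmin j (mem_filter.2 ⟨hjA, hsj⟩)) (not_le.2 hkey)
  · rintro j ⟨hjA, hRj, hsj⟩
    have hRi : R i ⊆ s := by
      intro r hr
      by_contra hrs
      obtain ⟨j', hjA', hkey, hj'⟩ := h.step i hiA r hr
      have hsj' : s ⊆ F j' := by
        intro x hx
        refine hj' (mem_erase.2 ⟨?_, hsi hx⟩)
        rintro rfl
        exact hrs hx
      exact absurd (hmin j' (mem_filter.2 ⟨hjA', hsj'⟩)) (not_le.2 hkey)
    rcases h.cont i hiA j hjA (hRi.trans hsj) with h1 | h1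
    · exact h1.symm
    · rcases h.cont j hjA i hiA (hRj.trans hsi) with h2 | h2
      · exact h2
      · exact absurd h1 (not_lt.2 h2.le)

private theorem COA2_count (B G : Finset V) (hBG : B ⊆ G) (k : ℕ) :
    (G.powerset.filter fun s => B ⊆ s ∧ s.card = k).card =
      if B.card ≤ k then (G.card - B.card).choose (k - B.card) else 0 := by
  split_ifs with hk
  · have h1 : G.powerset.filter (fun s => B ⊆ s ∧ s.card = k) =
        (powersetCard (k - B.card) (G \ B)).image fun u => B ∪ u := by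
      ext s
      rw [mem_filter, mem_powerset, mem_image]
      constructor
      · rintro ⟨hsG, hBs, hsk⟩
        refine ⟨s \ B, mem_powersetCard.2 ⟨sdiff_subset_sdiff hsG (Subset.refl B), ?_⟩, ?_⟩
        · rw [card_sdiff_of_subset hBs, hsk]
        · exact union_sdiff_of_subset hBs
      · rintro ⟨u, hu, rfl⟩
        obtain ⟨hu1, hu2⟩ := mem_powersetCard.1 hu
        refine ⟨union_subset hBG (hu1.trans sdiff_subset), subset_union_left, ?_⟩
        have hd : Disjoint B u := by
          rw [disjoint_left]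
          intro x hxB hxu
          exact (mem_sdiff.1 (hu1 hxu)).2 hxB
        rw [card_union_of_disjoint hd, hu2]
        omega
    rw [h1, card_image_of_injOn, card_powersetCard, card_sdiff_of_subset hBG]
    intro u hu u' hu' huu
    have hu1 := (mem_powersetCard.1 (mem_coe.1 hu)).1
    have hu1' := (mem_powersetCard.1 (mem_coe.1 hu')).1
    have key : ∀ {a b : Finset V}, a ⊆ G \ B → B ∪ a = B ∪ b → a ⊆ b := by
      intro a b ha hab x hx
      have h2 : x ∈ B ∪ b := by
        rw [← hab]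
        exact mem_union_right _ hx
      rcases mem_union.1 h2 with h3 | h3
      · exact absurd h3 (mem_sdiff.1 (ha hx)).2
      · exact h3
    exact Subset.antisymm (key hu1 huu) (key hu1' huu.symm)
  · rw [card_eq_zero, filter_eq_empty_iff]
    rintro s - ⟨hBs, hsk⟩
    exact hk (hsk ▸ card_le_card hBs)

theorem SData.fnum_eq (h : SData d A F R key) (hD : ∀ s, s ∈ D ↔ ∃ i ∈ A, s ⊆ F i) (k : ℕ) :
    fnum D k = ∑ i ∈ A, if (R i).card ≤ k then (d - (R i).card).choose (k - (R i).card) else 0 := by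
  classical
  have h1 : D.filter (fun s => s.card = k) =
      A.biUnion fun i => (F i).powerset.filter fun s => R i ⊆ s ∧ s.card = k := by
    ext s
    rw [mem_filter, mem_biUnion]
    constructor
    · rintro ⟨hs, hsk⟩
      obtain ⟨i, ⟨hiA, hRs, hsF⟩, -⟩ := h.part s ((hD s).1 hs)
      exact ⟨i, hiA, mem_filter.2 ⟨mem_powerset.2 hsF, hRs, hsk⟩⟩
    · rintro ⟨i, hiA, hs⟩
      obtain ⟨hsF, -, hsk⟩ := mem_filter.1 hs
      exact ⟨(hD s).2 ⟨i, hiA, mem_powerset.1 hsF⟩, hsk⟩
  have h2 : fnum D k = (D.filter (fun s => s.card = k)).card := rfl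
  rw [h2, h1, card_biUnion]
  · refine sum_congr rfl fun i hi => ?_
    rw [COA2_count (R i) (F i) (h.sub i hi) k, h.card i hi]
  · intro i hi j hj hij
    rw [Function.onFun, disjoint_left]
    intro s hs hs'
    obtain ⟨hsF, hRs, -⟩ := mem_filter.1 hs
    obtain ⟨hsF', hRs', -⟩ := mem_filter.1 hs'
    obtain ⟨i', -, huniq⟩ := h.part s ⟨i, hi, mem_powerset.1 hsF⟩
    exact hij ((huniq i ⟨hi, hRs, mem_powerset.1 hsF⟩).trans
      (huniq j ⟨hj, hRs', mem_powerset.1 hsF'⟩).symm)

end Pool.Agent.LibHB64
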