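import Pool.Agent.LibHB64.CODefs

set_option autoImplicit false

/-!
Row A4. The binomial identity.
PLAN. For `i < r` the term is zero. For `r ≤ i ≤ j`: `C(d-i, j-i) C(d-r, i-r) = C(d-r, j-r) C(j-r, i-r)` (`Nat.choose_mul` or
`Nat.add_choose_mul...`: choose `i-r` of `d-r`, then `j-i` of the remaining `d-i`). With `a = i - r` the sum is
`C(d-r, j-r) * ∑_(a = 0)^(j-r) (-1)^(j-r-a) C(j-r, a)`, which is `1` for `j = r` and `0` for `j > r`
(`Int.alternating_sum_range_choose` or the binomial theorem for `(1 - 1)^(j-r)`). For `j < r` everything is zero.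
-/

namespace Pool.Agent.LibHB64

open Finset

private theorem A4_alt (J : ℕ) :
    (∑ a ∈ Finset.range (J + 1), (-1 : ℤ) ^ (J - a) * (J.choose a : ℤ)) =
      if J = 0 then 1 else 0 := by
  rw [← Int.alternating_sum_range_choose (n := J),
    ← Finset.sum_flip (fun a => (-1 : ℤ) ^ a * (J.choose a : ℤ))]
  refine Finset.sum_congr rfl fun a ha => ?_
  have : a ≤ J := by
    rw [Finset.mem_range] at ha
    omega
  rw [Nat.choose_symm this]

theorem binom_id (d r j : ℕ) (hr : r ≤ d) (hj : j ≤ d) :
    (∑ i ∈ Finset.range (j + 1), (-1 : ℤ) ^ (j - i) * ((d - i).choose (j - i) : ℤ) *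
      ((if r ≤ i then (d - r).choose (i - r) else 0 : ℕ) : ℤ)) = if r = j then 1 else 0 := by
  rcases lt_or_ge j r with hlt | hle
  · rw [if_neg (by omega)]
    refine Finset.sum_eq_zero fun i hi => ?_
    rw [Finset.mem_range] at hi
    rw [if_neg (by omega), Nat.cast_zero, mul_zero]
  · have h1 : j + 1 = r + (j - r + 1) := by omega
    rw [h1, Finset.sum_range_add]
    have h2 : (∑ i ∈ Finset.range r, (-1 : ℤ) ^ (j - i) * ((d - i).choose (j - i) : ℤ) *
      ((if r ≤ i then (d - r).choose (i - r) else 0 : ℕ) : ℤ)) = 0 := by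
      refine Finset.sum_eq_zero fun i hi => ?_
      rw [Finset.mem_range] at hi
      rw [if_neg (by omega), Nat.cast_zero, mul_zero]
    rw [h2, zero_add]
    have h3 : ∀ a ∈ Finset.range (j - r + 1),
        (-1 : ℤ) ^ (j - (r + a)) * ((d - (r + a)).choose (j - (r + a)) : ℤ) *
        ((if r ≤ r + a then (d - r).choose (r + a - r) else 0 : ℕ) : ℤ) =
        ((d - r).choose (j - r) : ℤ) * ((-1 : ℤ) ^ (j - r - a) * ((j - r).choose a : ℤ)) := by
      intro a ha
      rw [Finset.mem_range] at ha
      rw [if_pos (by omega), Nat.add_sub_cancel_left, Nat.sub_add_eq, Nat.sub_add_eq]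
      have h4 := Nat.choose_mul (n := d - r) (k := j - r) (s := a) (by omega)
      have h5 : ((d - r).choose (j - r) : ℤ) * ((j - r).choose a : ℤ) =
          ((d - r).choose a : ℤ) * ((d - r - a).choose (j - r - a) : ℤ) := by exact_mod_cast h4
      linear_combination (-(-1 : ℤ) ^ (j - r - a)) * h5
    rw [Finset.sum_congr rfl h3, ← Finset.mul_sum, A4_alt]
    by_cases h6 : r = j
    · rw [if_pos h6, if_pos (by omega), h6]
      simp
    · rw [if_neg h6, if_neg (by omega), mul_zero]

end Pool.Agent.LibHB64
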