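import Pool.Agent.LibHB64.CODefs
import Pool.Agent.LibHB64.COA2
import Pool.Agent.LibHB64.COA4

set_option autoImplicit false

/-!
Row A5. The `h`-vector counts the restrictions. PLAN: unfold `hnum`, `fnum_eq` (A2), exchange the sums, `binom_id` (A4) for every `i ∈ A`
with `r = |R i| ≤ d` (`sub`, `card`), and `Finset.card_filter`.
-/

namespace Pool.Agent.LibHB64

open Finset

variable {ι V κ : Type*} [DecidableEq V] [LinearOrder κ] {d : ℕ} {A : Finset ι} {F R : ι → Finset V}
  {key : ι → κ} {D : Finset (Finset V)}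

theorem SData.hnum_eq (h : SData d A F R key) (hD : ∀ s, s ∈ D ↔ ∃ i ∈ A, s ⊆ F i) (j : ℕ) (hj : j ≤ d) :
    hnum d D j = ((A.filter fun i => (R i).card = j).card : ℤ) := by
  have h1 : hnum d D j = ∑ i ∈ Finset.range (j + 1), ∑ a ∈ A,
      (-1 : ℤ) ^ (j - i) * ((d - i).choose (j - i) : ℤ) *
        ((if (R a).card ≤ i then (d - (R a).card).choose (i - (R a).card) else 0 : ℕ) : ℤ) := by
    rw [hnum]
    refine Finset.sum_congr rfl fun i _ => ?_
    rw [h.fnum_eq hD i, Nat.cast_sum, Finset.mul_sum]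
  rw [h1, Finset.sum_comm, Finset.card_filter, Nat.cast_sum]
  refine Finset.sum_congr rfl fun a ha => ?_
  have h2 : (R a).card ≤ d := by
    rw [← h.card a ha]
    exact Finset.card_le_card (h.sub a ha)
  rw [binom_id d (R a).card j h2 hj]
  split_ifs <;> simp

end Pool.Agent.LibHB64
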