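import Pool.Agent.LibHB64.CODefs

set_option autoImplicit false

/-!
Row A6. The boundary of a ball with a shelling is closed. `S s` (`s ∈ X`) are the facets, `R s` the restrictions. The pair `(s, x)`
stands for the ridge `S s - x`; it is in the boundary if no other facet contains it. Every set `ρ` with `|S s| - 2` elements lies
in no or in exactly two ridges of the boundary.
PLAN. Let `W = {s ∈ X : ρ ⊆ S s}`. For `s ∈ W` the set `S s \ ρ` has two elements; let `P` be the set of pairs `(s, x)`, `s ∈ W`,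
`x ∈ S s \ ρ`; `|P| = 2 |W|`. If `E.filter` is empty we are done; in general `E.filter = P - (pairs which are not free)`.
(1) Partner: let `(s, x) ∈ P` not be free, `t ∈ X`, `t ≠ s`, `(S s).erase x ⊆ S t`; then `t ∈ W`, `(S s).erase x = (S t).erase y` for one
`y` (cardinalities), `(t, y) ∈ P` not free. (2) Of the two partners exactly one has `x ∈ R s`: if `x ∉ R s` and `y ∉ R t` then
`R s ⊆ S t`, `R t ⊆ S s`, so `s ≤ t ≤ s` by `h1`, contradiction. If `x ∈ R s` then by `h2` (uniqueness) `t < s` is the only other one;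
if also `y ∈ R t` then `s < t` in the same way, contradiction. So if `x ∉ R s` then `y ∈ R t`, and `t` is unique (another `t'` with `y' ∈ R t'`:
by uniqueness in `h2` for `t`, `t' = t` or `t' = s`). Hence `(s, x) ↦ (t, y)` is an involution on the non free pairs which exchanges
`x ∈ R s` and `x ∉ R s` (pairs with `x ∈ R s` are never free by `h2`): #non free `= 2 q`, `q` = number of `(s, x) ∈ P` with `x ∈ R s`.
(3) `q ≥ |W| - 1`: there is at most one `s ∈ W` with no `x ∈ R s \ ρ`, that is with `R s ⊆ ρ`: such an `s` is `≤` all `t ∈ W` by `h1`.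
So `#E.filter = 2 |W| - 2 q ≤ 2` and it is even.
-/

namespace Pool.Agent.LibHB64

open Finset

private theorem A6_partner {V : Type*} [DecidableEq V] {A B : Finset V} {d : ℕ} {x : V}
    (hA : A.card = d + 1) (hB : B.card = d + 1) (hx : x ∈ A) (h : A.erase x ⊆ B) :
    ∃ y ∈ B, A.erase x = B.erase y := by
  have h1 : (A.erase x).card = d := by
    rw [card_erase_of_mem hx, hA]
    rfl
  have h2 : (B \ A.erase x).card = 1 := by
    rw [card_sdiff_of_subset h, hB, h1]
    omega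
  obtain ⟨y, hy⟩ := card_eq_one.1 h2
  have hyB : y ∈ B \ A.erase x := by
    rw [hy]
    exact mem_singleton_self y
  refine ⟨y, (mem_sdiff.1 hyB).1, ?_⟩
  refine eq_of_subset_of_card_le ?_ ?_
  · intro z hz
    refine mem_erase.2 ⟨?_, h hz⟩
    rintro rfl
    exact (mem_sdiff.1 hyB).2 hz
  · rw [h1, card_erase_of_mem (mem_sdiff.1 hyB).1, hB]
    exact le_rfl

private theorem A6_erase_inj {V : Type*} [DecidableEq V] {A : Finset V} {x y : V} (hx : x ∈ A)
    (h : A.erase x = A.erase y) : x = y := by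
  by_contra hne
  have h1 : x ∈ A.erase y := mem_erase.2 ⟨hne, hx⟩
  rw [← h] at h1
  exact (mem_erase.1 h1).1 rfl

theorem bdry_two {ι V : Type*} [DecidableEq ι] [DecidableEq V] [PartialOrder ι] {X : Finset ι} {S R : ι → Finset V}
    {d : ℕ} (hc : ∀ s ∈ X, (S s).card = d + 1) (hR : ∀ s ∈ X, R s ⊆ S s)
    (h1 : ∀ s ∈ X, ∀ t ∈ X, R s ⊆ S t → s ≤ t)
    (h2 : ∀ s ∈ X, ∀ r ∈ R s, ∃ t ∈ X, t < s ∧ (S s).erase r ⊆ S t ∧
      ∀ u ∈ X, (S s).erase r ⊆ S u → u = s ∨ u = t)
    (E : Finset (ι × V)) (hE : ∀ p, p ∈ E ↔ p.1 ∈ X ∧ p.2 ∈ S p.1 ∧ ∀ t ∈ X, (S p.1).erase p.2 ⊆ S t → t = p.1)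
    (ρ : Finset V) (hρ : ρ.card + 1 = d) :
    (E.filter fun p => ρ ⊆ (S p.1).erase p.2).card = 0 ∨ (E.filter fun p => ρ ⊆ (S p.1).erase p.2).card = 2 := by
  classical
  obtain ⟨W, hW⟩ : ∃ W : Finset ι, ∀ s, s ∈ W ↔ s ∈ X ∧ ρ ⊆ S s :=
    ⟨X.filter fun s => ρ ⊆ S s, fun s => mem_filter⟩
  obtain ⟨P, hP⟩ : ∃ P : Finset (ι × V), ∀ p, p ∈ P ↔ p.1 ∈ X ∧ ρ ⊆ S p.1 ∧ p.2 ∈ S p.1 ∧ p.2 ∉ ρ := by
    refine ⟨(X ×ˢ X.biUnion S).filter fun p => ρ ⊆ S p.1 ∧ p.2 ∈ S p.1 ∧ p.2 ∉ ρ, fun p => ?_⟩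
    rw [mem_filter, mem_product, mem_biUnion]
    constructor
    · rintro ⟨⟨a, _⟩, b⟩
      exact ⟨a, b⟩
    · rintro ⟨a, b⟩
      exact ⟨⟨a, p.1, a, b.2.1⟩, b⟩
  let free : ι × V → Prop := fun p => ∀ t ∈ X, (S p.1).erase p.2 ⊆ S t → t = p.1
  -- the set of the statement
  have hEf : (E.filter fun p => ρ ⊆ (S p.1).erase p.2) = P.filter free := by
    ext p
    rw [mem_filter, mem_filter, hE, hP, subset_erase]
    constructor
    · rintro ⟨⟨a, b, c⟩, e, f⟩
      exact ⟨⟨a, e, b, f⟩, c⟩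
    · rintro ⟨⟨a, e, b, f⟩, c⟩
      exact ⟨⟨a, b, c⟩, e, f⟩
  -- (A)
  have hA : P.card = 2 * W.card := by
    rw [card_eq_sum_card_fiberwise (f := Prod.fst) (s := P) (t := W)
      (fun p hp => mem_coe.2 ((hW p.1).2 ⟨((hP p).1 hp).1, ((hP p).1 hp).2.1⟩))]
    rw [sum_const_nat (m := 2), mul_comm]
    intro s hs
    have hs' := (hW s).1 hs
    have e : (P.filter fun p => p.1 = s) = (S s \ ρ).image fun x => (s, x) := by
      ext p
      rw [mem_filter, hP, mem_image]
      constructor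
      · rintro ⟨⟨a, b, c, f⟩, rfl⟩
        exact ⟨p.2, mem_sdiff.2 ⟨c, f⟩, rfl⟩
      · rintro ⟨x, hx, rfl⟩
        exact ⟨⟨hs'.1, hs'.2, (mem_sdiff.1 hx).1, (mem_sdiff.1 hx).2⟩, rfl⟩
    rw [e, card_image_of_injective _ (fun x y hxy => (Prod.mk.inj hxy).2),
      card_sdiff_of_subset hs'.2, hc s hs'.1]
    omega
  -- the pairs which are not free
  obtain ⟨Q, hQ⟩ : ∃ Q : Finset (ι × V), Q = P.filter fun p => p.2 ∈ R p.1 := ⟨_, rfl⟩
  obtain ⟨N', hN'⟩ : ∃ N' : Finset (ι × V), N' = P.filter fun p => p.2 ∉ R p.1 ∧ ¬ free p := ⟨_, rfl⟩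
  have hQm : ∀ p, p ∈ Q ↔ p ∈ P ∧ p.2 ∈ R p.1 := by
    intro p
    rw [hQ, mem_filter]
  have hN'm : ∀ p, p ∈ N' ↔ p ∈ P ∧ p.2 ∉ R p.1 ∧ ¬ free p := by
    intro p
    rw [hN', mem_filter]
  have hpart : ∀ p ∈ Q, ∃ q ∈ N', (S p.1).erase p.2 = (S q.1).erase q.2 ∧ q.1 < p.1 := by
    intro p hp
    obtain ⟨hpP, hpR⟩ := (hQm p).1 hp
    obtain ⟨hpX, hpρ, hpS, hp2⟩ := (hP p).1 hpP
    obtain ⟨t, htX, hts, hsub, huni⟩ := h2 p.1 hpX p.2 hpR
    obtain ⟨y, hy, he⟩ := A6_partner (hc _ hpX) (hc t htX) hpS hsub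
    have hρe : ρ ⊆ (S p.1).erase p.2 := subset_erase.2 ⟨hpρ, hp2⟩
    refine ⟨(t, y), (hN'm _).2 ⟨(hP _).2 ⟨htX, ?_, hy, ?_⟩, ?_, ?_⟩, he, hts⟩
    · exact hρe.trans hsub
    · rw [he] at hρe
      exact (subset_erase.1 hρe).2
    · intro hyR
      obtain ⟨t', ht'X, ht't, _, huni'⟩ := h2 t htX y hyR
      have h3 : (S t).erase y ⊆ S p.1 := by
        rw [← he]
        exact erase_subset _ _
      rcases huni' p.1 hpX h3 with h4 | h4
      · exact absurd h4 hts.ne'
      · rw [← h4] at ht't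
        exact lt_asymm hts ht't
    · intro hfree
      have h3 : (S t).erase y ⊆ S p.1 := by
        rw [← he]
        exact erase_subset _ _
      exact absurd (hfree p.1 hpX h3) hts.ne'
  have hpart' : ∀ p, ∃ q, p ∈ Q → q ∈ N' ∧ (S p.1).erase p.2 = (S q.1).erase q.2 ∧ q.1 < p.1 := by
    intro p
    by_cases hp : p ∈ Q
    · obtain ⟨q, hq⟩ := hpart p hp
      exact ⟨q, fun _ => hq⟩
    · exact ⟨p, fun h => absurd h hp⟩
  choose g hg using hpart'
  have hB1 : Q.card = N'.card := by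
    refine card_bij (fun p _ => g p) ?_ ?_ ?_
    · intro p hp
      exact (hg p hp).1
    · intro p hp p' hp' heq
      obtain ⟨a1, a2, a3⟩ := hg p hp
      obtain ⟨b1, b2, b3⟩ := hg p' hp'
      rw [← heq] at b2 b3
      obtain ⟨hpP, hpR⟩ := (hQm p).1 hp
      obtain ⟨hpX, hpρ, hpS, hp2⟩ := (hP p).1 hpP
      obtain ⟨hpP', hpR'⟩ := (hQm p').1 hp'
      obtain ⟨hpX', hpρ', hpS', hp2'⟩ := (hP p').1 hpP'
      obtain ⟨t, htX, hts, hsub, huni⟩ := h2 p.1 hpX p.2 hpR
      have hq : (g p).1 ∈ X :=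
        ((hP _).1 ((hN'm _).1 a1).1).1
      have c1 : (S p.1).erase p.2 = (S p'.1).erase p'.2 := a2.trans b2.symm
      have c2 : (S p.1).erase p.2 ⊆ S p'.1 := by
        rw [c1]
        exact erase_subset _ _
      have c3 : (S p.1).erase p.2 ⊆ S (g p).1 := by
        rw [a2]
        exact erase_subset _ _
      have c4 : (g p).1 = t := by
        rcases huni _ hq c3 with h4 | h4
        · exact absurd h4 a3.ne
        · exact h4
      have c5 : p'.1 = p.1 := by
        rcases huni _ hpX' c2 with h4 | h4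
        · exact h4
        · rw [c4, ← h4] at b3
          exact absurd b3 (lt_irrefl _)
      have c6 : p.2 = p'.2 := by
        rw [c5] at c1
        exact A6_erase_inj hpS c1
      exact Prod.ext c5.symm c6
    · intro q hq
      obtain ⟨hqP, hqR, hqf⟩ := (hN'm q).1 hq
      obtain ⟨hqX, hqρ, hqS, hq2⟩ := (hP q).1 hqP
      have hqf' : ¬ ∀ t ∈ X, (S q.1).erase q.2 ⊆ S t → t = q.1 := hqf
      push Not at hqf'
      obtain ⟨s, hsX, hsub, hne⟩ := hqf'
      obtain ⟨x, hx, he⟩ := A6_partner (hc _ hqX) (hc s hsX) hqS hsub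
      have hρe : ρ ⊆ (S q.1).erase q.2 := subset_erase.2 ⟨hqρ, hq2⟩
      have hxR : x ∈ R s := by
        by_contra hxR
        have d1 : R s ⊆ S q.1 := by
          have d2 : R s ⊆ (S s).erase x := subset_erase.2 ⟨hR s hsX, hxR⟩
          rw [← he] at d2
          exact d2.trans (erase_subset _ _)
        have d3 : R q.1 ⊆ S s := by
          have d2 : R q.1 ⊆ (S q.1).erase q.2 := subset_erase.2 ⟨hR _ hqX, hqR⟩
          rw [he] at d2
          exact d2.trans (erase_subset _ _)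
        exact hne (le_antisymm (h1 _ hsX _ hqX d1) (h1 _ hqX _ hsX d3))
      have hpQ : (s, x) ∈ Q := by
        refine (hQm _).2 ⟨(hP _).2 ⟨hsX, hρe.trans hsub, hx, ?_⟩, hxR⟩
        rw [he] at hρe
        exact (subset_erase.1 hρe).2
      refine ⟨(s, x), hpQ, ?_⟩
      obtain ⟨a1, a2, a3⟩ := hg (s, x) hpQ
      obtain ⟨t, htX, hts, hsub', huni⟩ := h2 s hsX x hxR
      have hq' : (g (s, x)).1 ∈ X :=
        ((hP _).1 ((hN'm _).1 a1).1).1
      have hq'S : (g (s, x)).2 ∈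
          S (g (s, x)).1 :=
        ((hP _).1 ((hN'm _).1 a1).1).2.2.1
      have c3 : (S s).erase x ⊆ S (g (s, x)).1 := by
        have a2' : (S s).erase x = _ := a2
        rw [a2']
        exact erase_subset _ _
      have c4 : (g (s, x)).1 = t := by
        rcases huni _ hq' c3 with h4 | h4
        · exact absurd h4 a3.ne
        · exact h4
      have c5 : q.1 = t := by
        have c6 : (S s).erase x ⊆ S q.1 := by
          rw [← he]
          exact erase_subset _ _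
        rcases huni _ hqX c6 with h4 | h4
        · exact absurd h4.symm hne
        · exact h4
      have c7 : (g (s, x)).1 = q.1 := c4.trans c5.symm
      have c8 : (g (s, x)).2 = q.2 := by
        have a2' : (S s).erase x = (S (g (s, x)).1).erase
          (g (s, x)).2 := a2
        rw [← he, c7] at a2'
        rw [c7] at hq'S
        exact A6_erase_inj hq'S a2'.symm
      exact Prod.ext c7 c8
  -- (B)
  have hB : (P.filter fun p => ¬ free p).card = 2 * Q.card := by
    have e : (P.filter fun p => ¬ free p) = Q ∪ N' := by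
      ext p
      rw [mem_filter, mem_union, hQm, hN'm]
      constructor
      · rintro ⟨a, b⟩
        by_cases c : p.2 ∈ R p.1
        · exact Or.inl ⟨a, c⟩
        · exact Or.inr ⟨a, c, b⟩
      · rintro (⟨a, c⟩ | ⟨a, _, b⟩)
        · refine ⟨a, fun hfree => ?_⟩
          obtain ⟨t, htX, hts, hsub, _⟩ := h2 p.1 ((hP p).1 a).1 p.2 c
          exact hts.ne (hfree t htX hsub)
        · exact ⟨a, b⟩
    have hd : Disjoint Q N' := by
      rw [Finset.disjoint_left]
      intro p hp hp'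
      exact ((hN'm p).1 hp').2.1 ((hQm p).1 hp).2
    rw [e, card_union_of_disjoint hd, ← hB1]
    ring
  -- (C)
  have hC : W.card ≤ Q.card + 1 := by
    have e0 : (W.filter fun s => R s ⊆ ρ).card ≤ 1 := by
      rw [card_le_one]
      intro s hs s' hs'
      obtain ⟨a1, a2⟩ := mem_filter.1 hs
      obtain ⟨b1, b2⟩ := mem_filter.1 hs'
      have a3 := (hW s).1 a1
      have b3 := (hW s').1 b1
      exact le_antisymm (h1 _ a3.1 _ b3.1 (a2.trans b3.2)) (h1 _ b3.1 _ a3.1 (b2.trans a3.2))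
    have e1 : (W.filter fun s => ¬ R s ⊆ ρ) ⊆ Q.image Prod.fst := by
      intro s hs
      obtain ⟨a1, a2⟩ := mem_filter.1 hs
      have a3 := (hW s).1 a1
      obtain ⟨x, hx, hxρ⟩ := not_subset.1 a2
      exact mem_image.2 ⟨(s, x), (hQm _).2 ⟨(hP _).2 ⟨a3.1, a3.2, hR s a3.1 hx, hxρ⟩, hx⟩, rfl⟩
    have e2 := (card_le_card e1).trans card_image_le
    have e3 := card_filter_add_card_filter_not (s := W) (fun s => R s ⊆ ρ)
    omega
  have hD := card_filter_add_card_filter_not (s := P) free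
  rw [hEf]
  omega

end Pool.Agent.LibHB64
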