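import Pool.Agent.LibHB64.CODefs
import Pool.Agent.LibHB64.COA4

set_option autoImplicit false

/-!
Row A7. A new vertex `N` is glued along one ridge of the boundary.
PLAN. Let `l` be the list of `ShellBall d D l`, `F` its last element with the restriction `R ⊂ F`, `v ∈ F \ R`, `τ = F.erase v`. By `shell`
for the last index, `τ` is in no earlier facet (`R ⊆ τ`), so `F` is the only facet which contains `τ`. `G = insert N τ`, `l' = l ++ [G]`,
`D' = D ∪ G.powerset`. `shell` for the last index of `l'`: `R' = {N}`; `{N} ⊂ G` as `|G| = d ≥ 2`; for `s ⊆ G`: `s ⊆ l[i]` for some `i` implies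
`N ∉ s` (`hN`), and `N ∉ s` implies `s ⊆ τ ⊆ F`. `two`: for `|s| = d - 1`: if `N ∈ s` only `G` contains `s`; if `N ∉ s` and `s ⊆ G` then `s = τ`
is in `F` and `G` only; otherwise as before. `hnum`: the new faces are `insert N u`, `u ⊆ τ`: `C(d-1, i-1)` of size `i ≥ 1` and none
of size `0`; the identity `binom_id d 1 j` (A4).
-/

namespace Pool.Agent.LibHB64

open Finset

private theorem card_new (N i : ℕ) (τ : Finset ℕ) (hN : N ∉ τ) :
    ((insert N τ).powerset.filter (fun s => N ∈ s ∧ s.card = i)).card =
      if 1 ≤ i then (τ.card).choose (i - 1) else 0 := by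
  by_cases hi : 1 ≤ i
  · rw [if_pos hi]
    have h : (insert N τ).powerset.filter (fun s => N ∈ s ∧ s.card = i) =
        (powersetCard (i - 1) τ).image (insert N) := by
      ext s
      simp only [mem_filter, mem_powerset, mem_image, mem_powersetCard]
      constructor
      · rintro ⟨h1, h2, h3⟩
        refine ⟨s.erase N, ⟨?_, ?_⟩, insert_erase h2⟩
        · intro x hx
          rw [mem_erase] at hx
          exact (mem_insert.mp (h1 hx.2)).resolve_left hx.1
        · rw [card_erase_of_mem h2, h3]
      · rintro ⟨u, ⟨h1, h2⟩, rfl⟩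
        refine ⟨insert_subset_insert _ h1, mem_insert_self _ _, ?_⟩
        rw [card_insert_of_notMem (fun h => hN (h1 h)), h2]
        omega
    rw [h, card_image_of_injOn, card_powersetCard]
    intro u hu w hw huw
    rw [mem_coe, mem_powersetCard] at hu hw
    have hu' : N ∉ u := fun h => hN (hu.1 h)
    have hw' : N ∉ w := fun h => hN (hw.1 h)
    have h5 : (insert N u).erase N = (insert N w).erase N := by rw [huw]
    rwa [erase_insert hu', erase_insert hw'] at h5
  · rw [if_neg hi, card_eq_zero, filter_eq_empty_iff]
    rintro s _ ⟨h1, h2⟩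
    have : 0 < s.card := card_pos.mpr ⟨N, h1⟩
    omega

theorem ShBall.stack {d : ℕ} (hd : 2 ≤ d) {D : Finset (Finset ℕ)} (h : ShBall d D) {N : ℕ}
    (hN : ∀ s ∈ D, ∀ v ∈ s, v < N) :
    ∃ D' : Finset (Finset ℕ), ShBall d D' ∧ (∀ s ∈ D', ∀ v ∈ s, v < N + 1) ∧
      ∀ j, j ≤ d → hnum d D' j = hnum d D j + if j = 1 then 1 else 0 := by
  obtain ⟨l, hl⟩ := h
  have hlen : 0 < l.length := List.length_pos_of_ne_nil hl.ne
  obtain ⟨K, hK⟩ : ∃ K, K + 1 = l.length := ⟨l.length - 1, by omega⟩
  have hKl : K < l.length := by omega
  obtain ⟨R, hRF, hR0, hRs⟩ := hl.shell K hKl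
  obtain ⟨F, hF⟩ : ∃ F, F = l[K] := ⟨_, rfl⟩
  rw [← hF] at hRF hRs
  have hFl : F ∈ l := by rw [hF]; exact List.getElem_mem hKl
  have hlD : ∀ F ∈ l, F ∈ D := fun F hF => (hl.mem F).mpr ⟨F, hF, Subset.refl F⟩
  have hFD : F ∈ D := hlD F hFl
  obtain ⟨v, hvF, hvR⟩ := exists_of_ssubset hRF
  obtain ⟨τ, hτ⟩ : ∃ τ, τ = F.erase v := ⟨_, rfl⟩
  have hτF : τ ⊆ F := by rw [hτ]; exact erase_subset _ _
  have hτcard : τ.card = d - 1 := by rw [hτ, card_erase_of_mem hvF, hl.card F hFl]
  have hRτ : R ⊆ τ := by
    intro x hx
    rw [hτ, mem_erase]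
    refine ⟨?_, hRF.1 hx⟩
    rintro rfl
    exact hvR hx
  have hτno : ∀ i (hi : i < l.length), τ ⊆ l[i] → l[i] = F := by
    intro i hi hsub
    by_cases hiK : i < K
    · exfalso
      exact ((hRs τ hτF).mp ⟨i, hiK, hsub⟩) hRτ
    · have : i = K := by omega
      subst this
      exact hF.symm
  have hNl : ∀ F ∈ l, N ∉ F := fun F hF hNF => lt_irrefl _ (hN F (hlD F hF) N hNF)
  have hNτ : N ∉ τ := fun h => hNl F hFl (hτF h)
  obtain ⟨G, hG⟩ : ∃ G, G = insert N τ := ⟨_, rfl⟩
  have hNG : N ∈ G := by rw [hG]; exact mem_insert_self _ _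
  have hGcard : G.card = d := by
    rw [hG, card_insert_of_notMem hNτ, hτcard]
    omega
  have hsτ : ∀ s, s ⊆ G → N ∉ s → s ⊆ τ := by
    intro s hs hNs x hx
    have := hs hx
    rw [hG, mem_insert] at this
    rcases this with rfl | h
    · exact absurd hx hNs
    · exact h
  have hDdown : ∀ s t, s ⊆ t → t ∈ D → s ∈ D := by
    intro s t hst ht
    obtain ⟨F', hF', hs⟩ := (hl.mem t).mp ht
    exact (hl.mem s).mpr ⟨F', hF', hst.trans hs⟩
  refine ⟨D ∪ G.powerset, ⟨l ++ [G], ?_⟩, ?_, ?_⟩
  · refine ⟨hl.pos, by simp, ?_, ?_, ?_, ?_, ?_⟩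
    · -- nodup
      rw [List.nodup_append]
      refine ⟨hl.nodup, List.nodup_singleton G, ?_⟩
      intro a ha b hb hab
      rw [List.mem_singleton] at hb
      subst hb
      subst hab
      exact hNl a ha hNG
    · -- card
      intro F' hF'
      rw [List.mem_append, List.mem_singleton] at hF'
      rcases hF' with h | rfl
      · exact hl.card F' h
      · exact hGcard
    · -- mem
      intro s
      rw [mem_union, mem_powerset, hl.mem]
      constructor
      · rintro (⟨F', hF', hs⟩ | hs)
        · exact ⟨F', List.mem_append_left _ hF', hs⟩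
        · exact ⟨G, List.mem_append_right _ (List.mem_singleton.mpr rfl), hs⟩
      · rintro ⟨F', hF', hs⟩
        rw [List.mem_append, List.mem_singleton] at hF'
        rcases hF' with h | rfl
        · exact Or.inl ⟨F', h, hs⟩
        · exact Or.inr hs
    · -- shell
      intro k hk
      by_cases hkl : k < l.length
      · obtain ⟨R', h1, h2, h3⟩ := hl.shell k hkl
        have e1 : (l ++ [G])[k] = l[k] := List.getElem_append_left hkl
        refine ⟨R', by rw [e1]; exact h1, h2, ?_⟩
        intro s hs
        rw [e1] at hs
        rw [← h3 s hs]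
        constructor
        · rintro ⟨i, hi, hsi⟩
          refine ⟨i, hi, ?_⟩
          rwa [List.getElem_append_left (by omega : i < l.length)] at hsi
        · rintro ⟨i, hi, hsi⟩
          refine ⟨i, hi, ?_⟩
          rwa [List.getElem_append_left (by omega : i < l.length)]
      · have hkk : k = l.length := by
          rw [List.length_append, List.length_singleton] at hk
          omega
        subst hkk
        have e1 : (l ++ [G])[l.length] = G := by simp
        refine ⟨{N}, ?_, fun _ => ⟨N, mem_singleton_self N⟩, ?_⟩
        · rw [e1]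
          refine ⟨singleton_subset_iff.mpr hNG, fun hsub => ?_⟩
          have := card_le_card hsub
          rw [hGcard, card_singleton] at this
          omega
        · intro s hs
          rw [e1] at hs
          rw [singleton_subset_iff]
          constructor
          · rintro ⟨i, hi, hsi⟩ hNs
            rw [List.getElem_append_left hi] at hsi
            exact hNl _ (List.getElem_mem hi) (hsi hNs)
          · intro hNs
            refine ⟨K, hKl, ?_⟩
            rw [List.getElem_append_left hKl, ← hF]
            exact (hsτ s hs hNs).trans hτF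
    · -- two
      intro s hs
      rw [List.filter_append, List.length_append]
      by_cases hsG : s ⊆ G
      · have h1 : ([G].filter fun F => decide (s ⊆ F)).length ≤ 1 :=
          (List.length_filter_le _ _).trans (by simp)
        by_cases hNs : N ∈ s
        · have h2 : (l.filter fun F => decide (s ⊆ F)) = [] := by
            rw [List.filter_eq_nil_iff]
            intro a ha hsa
            exact hNl a ha ((of_decide_eq_true hsa) hNs)
          rw [h2, List.length_nil]
          omega
        · have hsτ' : s = τ := by
            apply eq_of_subset_of_card_le (hsτ s hsG hNs)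
            rw [hs, hτcard]
          have h2 : (l.filter fun F => decide (s ⊆ F)).length ≤ 1 := by
            have hnd : (l.filter fun F => decide (s ⊆ F)).Nodup := hl.nodup.filter _
            rw [← List.toFinset_card_of_nodup hnd]
            have hsub : (l.filter fun F => decide (s ⊆ F)).toFinset ⊆ {F} := by
              intro a ha
              rw [List.mem_toFinset, List.mem_filter] at ha
              obtain ⟨ha1, ha2⟩ := ha
              obtain ⟨i, hi, rfl⟩ := List.mem_iff_getElem.mp ha1
              rw [mem_singleton]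
              apply hτno i hi
              rw [← hsτ']
              exact of_decide_eq_true ha2
            exact (card_le_card hsub).trans (by simp)
          omega
      · have h1 : ([G].filter fun F => decide (s ⊆ F)) = [] := by
          rw [List.filter_eq_nil_iff]
          intro a ha hsa
          rw [List.mem_singleton] at ha
          subst ha
          exact hsG (of_decide_eq_true hsa)
        rw [h1, List.length_nil, add_zero]
        exact hl.two s hs
  · intro s hs w hw
    rw [mem_union, mem_powerset] at hs
    rcases hs with hs | hs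
    · exact (hN s hs w hw).trans (Nat.lt_succ_self N)
    · have := hs hw
      rw [hG, mem_insert] at this
      rcases this with rfl | h
      · exact Nat.lt_succ_self _
      · exact (hN F hFD w (hτF h)).trans (Nat.lt_succ_self N)
  · intro j hj
    have hf : ∀ i, fnum (D ∪ G.powerset) i = fnum D i +
        if 1 ≤ i then (d - 1).choose (i - 1) else 0 := by
      intro i
      unfold fnum
      have e1 : (D ∪ G.powerset).filter (fun s => s.card = i) =
          D.filter (fun s => s.card = i) ∪
            (insert N τ).powerset.filter (fun s => N ∈ s ∧ s.card = i) := by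
        ext s
        simp only [mem_filter, mem_union, mem_powerset, ← hG]
        constructor
        · rintro ⟨h1 | h1, h2⟩
          · exact Or.inl ⟨h1, h2⟩
          · by_cases hNs : N ∈ s
            · exact Or.inr ⟨h1, hNs, h2⟩
            · exact Or.inl ⟨hDdown s F ((hsτ s h1 hNs).trans hτF) hFD, h2⟩
        · rintro (⟨h1, h2⟩ | ⟨h1, _, h2⟩)
          · exact ⟨Or.inl h1, h2⟩
          · exact ⟨Or.inr h1, h2⟩
      rw [e1, card_union_of_disjoint, card_new N i τ hNτ, hτcard]
      rw [disjoint_left]
      intro s hs hs'
      rw [mem_filter] at hs hs'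
      exact lt_irrefl _ (hN s hs.1 N hs'.2.1)
    have hb := binom_id d 1 j (by omega) hj
    unfold hnum
    have e2 : ∀ i ∈ Finset.range (j + 1), (-1 : ℤ) ^ (j - i) * ((d - i).choose (j - i) : ℤ) *
        (fnum (D ∪ G.powerset) i : ℤ) =
        (-1 : ℤ) ^ (j - i) * ((d - i).choose (j - i) : ℤ) * (fnum D i : ℤ) +
        (-1 : ℤ) ^ (j - i) * ((d - i).choose (j - i) : ℤ) *
          ((if 1 ≤ i then (d - 1).choose (i - 1) else 0 : ℕ) : ℤ) := by
      intro i _
      rw [hf i, Nat.cast_add, mul_add]
    rw [Finset.sum_congr rfl e2, Finset.sum_add_distrib, hb]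
    congr 1
    by_cases hj1 : j = 1
    · rw [if_pos hj1, if_pos hj1.symm]
    · rw [if_neg hj1, if_neg (fun h => hj1 h.symm)]

end Pool.Agent.LibHB64
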