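import Pool.Agent.LibHB64.CODefs
import Pool.Agent.LibHB64.COA7

set_option autoImplicit false

/-!
Row A8 (done). `b` new vertices.
-/

namespace Pool.Agent.LibHB64

open Finset

theorem ShBall.stacks {d : ℕ} (hd : 2 ≤ d) {D : Finset (Finset ℕ)} (h : ShBall d D) {N : ℕ}
    (hN : ∀ s ∈ D, ∀ v ∈ s, v < N) (b : ℕ) :
    ∃ D' : Finset (Finset ℕ), ShBall d D' ∧ (∀ s ∈ D', ∀ v ∈ s, v < N + b) ∧
      ∀ j, j ≤ d → hnum d D' j = hnum d D j + if j = 1 then (b : ℤ) else 0 := by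
  induction b with
  | zero => exact ⟨D, h, by simpa using hN, fun j _ => by simp⟩
  | succ b ih =>
    obtain ⟨D1, h1, hN1, hh1⟩ := ih
    obtain ⟨D2, h2, hN2, hh2⟩ := h1.stack hd hN1
    refine ⟨D2, h2, by simpa [add_assoc] using hN2, fun j hj => ?_⟩
    rw [hh2 j hj, hh1 j hj]
    by_cases hj1 : j = 1
    · simp [hj1]; ring
    · simp [hj1]

end Pool.Agent.LibHB64
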