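import Pool.Agent.LibHB64.CODefs
import Pool.Agent.LibHB64.COA4

set_option autoImplicit false

/-!
Row A9. The simplex, and the passage from the vertex set `ℕ` to `Fin N`.
PLAN simplex. `l = [range d]`, `R = ∅` (`∅ ⊂ range d` as `d ≥ 1`); `fnum = C(d, i)`; `binom_id d 0 j` (A4).
PLAN toFin. `D' = D.image (fun s => (univ : Finset (Fin N)).filter (fun v => (v : ℕ) ∈ s))`, the list mapped in the same way; for `s ∈ D`
(all elements `< N`) the map `g : s ↦ {v : v.val ∈ s}` keeps cardinalities and inclusions (`g s ⊆ g t ↔ s ⊆ t` for `s` with elements `< N`) and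
every subset of `g t` is `g` of its image under `Fin.val` (`Finset.map Fin.valEmbedding`). `fnum` is preserved by injectivity of `g` on `D`.
-/

namespace Pool.Agent.LibHB64

open Finset

theorem ShBall.simplex (d : ℕ) (hd : 1 ≤ d) :
    ShBall d (Finset.range d).powerset ∧
      ∀ j, j ≤ d → hnum d (Finset.range d).powerset j = if j = 0 then 1 else 0 := by
  refine ⟨⟨[Finset.range d], hd, by simp, List.nodup_singleton _, ?_, ?_, ?_, ?_⟩, ?_⟩
  · intro F hF
    rw [List.mem_singleton] at hF
    rw [hF, card_range]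
  · intro s
    rw [mem_powerset]
    constructor
    · intro h
      exact ⟨_, List.mem_singleton.mpr rfl, h⟩
    · rintro ⟨F, hF, hs⟩
      rw [List.mem_singleton] at hF
      rwa [hF] at hs
  · intro k hk
    have hk0 : k = 0 := by
      rw [List.length_singleton] at hk
      omega
    subst hk0
    refine ⟨∅, ?_, fun h => absurd h (lt_irrefl 0), ?_⟩
    · rw [List.getElem_singleton]
      rw [empty_ssubset, nonempty_range_iff]
      omega
    · intro s _
      constructor
      · rintro ⟨i, hi, _⟩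
        omega
      · intro h
        exact absurd (empty_subset s) h
  · intro s _
    exact (List.length_filter_le _ _).trans (by simp)
  · intro j hj
    have hb := binom_id d 0 j (Nat.zero_le d) hj
    unfold hnum
    have hf : ∀ i, fnum (Finset.range d).powerset i = if 0 ≤ i then (d - 0).choose (i - 0) else 0 := by
      intro i
      rw [if_pos (Nat.zero_le i), Nat.sub_zero, Nat.sub_zero]
      unfold fnum
      rw [← powersetCard_eq_filter, card_powersetCard, card_range]
    have e2 : ∀ i ∈ Finset.range (j + 1), (-1 : ℤ) ^ (j - i) * ((d - i).choose (j - i) : ℤ) *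
        (fnum (Finset.range d).powerset i : ℤ) =
        (-1 : ℤ) ^ (j - i) * ((d - i).choose (j - i) : ℤ) *
          ((if 0 ≤ i then (d - 0).choose (i - 0) else 0 : ℕ) : ℤ) := by
      intro i _
      rw [hf i]
    rw [Finset.sum_congr rfl e2, hb]
    by_cases hj0 : j = 0
    · rw [if_pos hj0, if_pos hj0.symm]
    · rw [if_neg hj0, if_neg (fun h => hj0 h.symm)]

private def gg (N : ℕ) (s : Finset ℕ) : Finset (Fin N) :=
  (univ : Finset (Fin N)).filter (fun v => (v : ℕ) ∈ s)

private theorem mem_gg {N : ℕ} {s : Finset ℕ} {v : Fin N} : v ∈ gg N s ↔ (v : ℕ) ∈ s := by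
  simp [gg]

private theorem map_gg {N : ℕ} {s : Finset ℕ} (hs : ∀ v ∈ s, v < N) :
    (gg N s).map Fin.valEmbedding = s := by
  ext x
  simp only [mem_map, mem_gg, Fin.valEmbedding_apply]
  constructor
  · rintro ⟨v, hv, rfl⟩
    exact hv
  · intro hx
    exact ⟨⟨x, hs x hx⟩, hx, rfl⟩

private theorem gg_map {N : ℕ} (t : Finset (Fin N)) : gg N (t.map Fin.valEmbedding) = t := by
  ext v
  simp only [mem_gg, mem_map, Fin.valEmbedding_apply]
  constructor
  · rintro ⟨w, hw, hwv⟩
    rwa [Fin.ext hwv] at hw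
  · intro hv
    exact ⟨v, hv, rfl⟩

private theorem sub_gg {N : ℕ} {t : Finset (Fin N)} {s : Finset ℕ} :
    t ⊆ gg N s ↔ t.map Fin.valEmbedding ⊆ s := by
  constructor
  · intro h x hx
    rw [mem_map] at hx
    obtain ⟨v, hv, rfl⟩ := hx
    exact mem_gg.mp (h hv)
  · intro h v hv
    exact mem_gg.mpr (h (mem_map_of_mem _ hv))

private theorem gg_sub {N : ℕ} {s : Finset ℕ} (hs : ∀ v ∈ s, v < N) {t : Finset (Fin N)} :
    gg N s ⊆ t ↔ s ⊆ t.map Fin.valEmbedding := by
  constructor
  · intro h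
    rw [← map_gg hs]
    exact map_subset_map.mpr h
  · intro h v hv
    have := h (mem_gg.mp hv)
    rw [mem_map] at this
    obtain ⟨w, hw, hwv⟩ := this
    rwa [Fin.ext hwv] at hw

private theorem card_gg {N : ℕ} {s : Finset ℕ} (hs : ∀ v ∈ s, v < N) :
    (gg N s).card = s.card := by
  conv_rhs => rw [← map_gg hs]
  rw [card_map]

theorem ShBall.toFin {d : ℕ} {D : Finset (Finset ℕ)} (h : ShBall d D) {N : ℕ} (hN : ∀ s ∈ D, ∀ v ∈ s, v < N) :
    ∃ D' : Finset (Finset (Fin N)), ShBall d D' ∧ ∀ j, hnum d D' j = hnum d D j := by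
  obtain ⟨l, hl⟩ := h
  have hlD : ∀ F ∈ l, F ∈ D := fun F hF => (hl.mem F).mpr ⟨F, hF, Subset.refl F⟩
  have hlN : ∀ F ∈ l, ∀ v ∈ F, v < N := fun F hF => hN F (hlD F hF)
  have hinj : ∀ s ∈ D, ∀ t ∈ D, gg N s = gg N t → s = t := by
    intro s hs t ht hst
    rw [← map_gg (hN s hs), ← map_gg (hN t ht), hst]
  refine ⟨D.image (gg N), ⟨l.map (gg N), hl.pos, ?_, ?_, ?_, ?_, ?_, ?_⟩, ?_⟩
  · simpa using hl.ne
  · exact hl.nodup.map_on (fun s hs t ht hst => hinj s (hlD s hs) t (hlD t ht) hst)
  · intro F hF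
    rw [List.mem_map] at hF
    obtain ⟨s, hs, rfl⟩ := hF
    rw [card_gg (hlN s hs), hl.card s hs]
  · intro s
    rw [mem_image]
    constructor
    · rintro ⟨t, ht, rfl⟩
      obtain ⟨F, hF, htF⟩ := (hl.mem t).mp ht
      refine ⟨gg N F, List.mem_map_of_mem hF, ?_⟩
      intro v hv
      exact mem_gg.mpr (htF (mem_gg.mp hv))
    · rintro ⟨F, hF, hsF⟩
      rw [List.mem_map] at hF
      obtain ⟨t, ht, rfl⟩ := hF
      rw [sub_gg] at hsF
      exact ⟨s.map Fin.valEmbedding, (hl.mem _).mpr ⟨t, ht, hsF⟩, gg_map s⟩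
  · intro k hk
    have hk' : k < l.length := by rwa [List.length_map] at hk
    obtain ⟨R, h1, h2, h3⟩ := hl.shell k hk'
    have hRN : ∀ v ∈ R, v < N := fun v hv => hlN _ (List.getElem_mem hk') v (h1.1 hv)
    have e1 : (l.map (gg N))[k] = gg N l[k] := List.getElem_map _
    refine ⟨gg N R, ?_, ?_, ?_⟩
    · rw [e1]
      refine ⟨fun v hv => mem_gg.mpr (h1.1 (mem_gg.mp hv)), fun hsub => h1.2 ?_⟩
      rw [gg_sub (hlN _ (List.getElem_mem hk')), map_gg hRN] at hsub
      exact hsub
    · intro hk0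
      obtain ⟨x, hx⟩ := h2 hk0
      exact ⟨⟨x, hRN x hx⟩, mem_gg.mpr hx⟩
    · intro s hs
      rw [e1, sub_gg] at hs
      rw [gg_sub hRN, ← h3 _ hs]
      constructor
      · rintro ⟨i, hi, hsi⟩
        refine ⟨i, hi, ?_⟩
        rwa [List.getElem_map, sub_gg] at hsi
      · rintro ⟨i, hi, hsi⟩
        refine ⟨i, hi, ?_⟩
        rwa [List.getElem_map, sub_gg]
  · intro s hs
    have hs' : (s.map Fin.valEmbedding).card = d - 1 := by rw [card_map, hs]
    have h1 := hl.two _ hs'
    rw [List.filter_map, List.length_map]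
    have h2 : (l.filter ((fun F => decide (s ⊆ F)) ∘ gg N)) =
        l.filter fun F => decide (s.map Fin.valEmbedding ⊆ F) := by
      apply List.filter_congr
      intro F _
      simp only [Function.comp_apply, sub_gg]
    rw [h2]
    exact h1
  · intro j
    unfold hnum
    refine Finset.sum_congr rfl (fun i _ => ?_)
    have hf : fnum (D.image (gg N)) i = fnum D i := by
      unfold fnum
      have e1 : (D.image (gg N)).filter (fun s => s.card = i) =
          (D.filter (fun s => s.card = i)).image (gg N) := by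
        ext s
        simp only [mem_filter, mem_image]
        constructor
        · rintro ⟨⟨t, ht, rfl⟩, h⟩
          exact ⟨t, ⟨ht, by rwa [card_gg (hN t ht)] at h⟩, rfl⟩
        · rintro ⟨t, ⟨ht, h⟩, rfl⟩
          exact ⟨⟨t, ht, rfl⟩, by rwa [card_gg (hN t ht)]⟩
      rw [e1, card_image_of_injOn]
      intro s hs t ht hst
      rw [mem_coe, mem_filter] at hs ht
      exact hinj s hs.1 t ht.1 hst
    rw [hf]

end Pool.Agent.LibHB64
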