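import Pool.Agent.LibHB64.CODefs

set_option autoImplicit false

namespace Pool.Agent.LibHB64

open Finset

variable {m : ℕ} {s t : Fin m → ℕ} {o : ℕ} {X : Finset (Fin m → ℕ)}

private theorem G2_id (κ : Fin m → Fin m) (h : ∀ i j, i < j → κ i < κ j) (i : Fin m) : κ i = i := by
  have h1 : StrictMono κ := fun i j hij => h i j hij
  have h2 : i ≤ κ i := h1.le_apply
  have h3 : κ i ≤ i := by
    have h4 : StrictMono fun i : Fin m => Fin.rev (κ (Fin.rev i)) := by
      intro a b hab
      exact Fin.rev_lt_rev.2 (h _ _ (Fin.rev_lt_rev.2 hab))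
    have h5 := h4.le_apply (x := Fin.rev i)
    simp only [Fin.rev_rev] at h5
    exact Fin.rev_le_rev.1 h5
  exact le_antisymm h3 h2

theorem one_per_pair (ht : Monotone t) (e : Fin m → ℕ) (he : ∀ i j, i < j → e i + 2 ≤ e j) (h2 : ∀ i, 2 ≤ e i)
    (hm : ∀ i, e i ∈ sg o t) : ∀ i, e i = lf t i ∨ e i = rt t i := by
  have h3 : ∀ i, ∃ k, e i = lf t k ∨ e i = rt t k := by
    intro i
    have h4 := h2 i
    rcases mem_sg.1 (hm i) with h | ⟨k, h⟩ | ⟨k, h⟩
    · omega
    · exact ⟨k, Or.inl h⟩
    · exact ⟨k, Or.inr h⟩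
  choose κ hκ using h3
  have h5 : ∀ i j, i < j → κ i < κ j := by
    intro i j hij
    by_contra hcon
    have h6 := he i j hij
    rcases (not_lt.1 hcon).eq_or_lt with h7 | h7
    · have a1 := hκ i
      have a2 := hκ j
      rw [h7] at a2
      unfold lf rt at a1 a2
      omega
    · have a1 := hκ i
      have a2 := hκ j
      have a3 := rt_lt_lf ht h7
      unfold lf rt at a1 a2 a3
      omega
  intro i
  have h8 := hκ i
  rwa [G2_id κ h5 i] at h8

theorem lefts (hs : Monotone s) (ht : Monotone t) (h : ∀ i, lf s i ∈ sg o t) : ∀ i, t i = s i ∨ t i + 1 = s i := by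
  intro i
  have h1 := one_per_pair ht (lf s) ?_ two_le_lf h i
  · unfold lf rt at h1
    omega
  · intro a b hab
    have h2 := hs hab.le
    have h3 : (a : ℕ) < b := hab
    unfold lf
    omega

theorem mixed (hs : Monotone s) (ht : Monotone t) (l : Fin m) (hl : ∀ i, l < i → s l < s i)
    (h1 : ∀ i, i ≤ l → rt s i ∈ sg o t) (h2 : ∀ i, l < i → lf s i ∈ sg o t) :
    ∀ i, (i ≤ l → t i = s i ∨ t i = s i + 1) ∧ (l < i → t i = s i ∨ t i + 1 = s i) := by
  intro i
  have h3 := one_per_pair (o := o) ht (fun i => if i ≤ l then rt s i else lf s i) ?_ ?_ ?_ i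
  · constructor
    · intro hi
      rw [if_pos hi] at h3
      unfold lf rt at h3
      omega
    · intro hi
      rw [if_neg (not_le.2 hi)] at h3
      unfold lf rt at h3
      omega
  · intro a b hab
    have h4 := hs hab.le
    have h5 : (a : ℕ) < b := hab
    by_cases ha : a ≤ l
    · by_cases hb : b ≤ l
      · simp only [if_pos ha, if_pos hb]
        unfold rt
        omega
      · have h6 := hl b (not_le.1 hb)
        have h7 := hs ha
        simp only [if_pos ha, if_neg hb]
        unfold rt lf
        omega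
    · have hb : ¬ b ≤ l := fun hb => ha (hab.le.trans hb)
      simp only [if_neg ha, if_neg hb]
      unfold lf
      omega
  · intro a
    by_cases ha : a ≤ l
    · simp only [if_pos ha]
      unfold rt
      omega
    · simp only [if_neg ha]
      unfold lf
      omega
  · intro a
    by_cases ha : a ≤ l
    · simp only [if_pos ha]
      exact h1 a ha
    · simp only [if_neg ha]
      exact h2 a (not_le.1 ha)

end Pool.Agent.LibHB64
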