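import Pool.Agent.LibHB64.CODefs

set_option autoImplicit false

/-!
Row G3. If the right elements `rt s i` (`i` in an upper set `P` of indices) are in `sg o t` then `s i ≤ t i` there. Also the cardinality of `sg`.
PLAN rt_le. Strong downward induction on `i` (for example take a counterexample `i` with `P i`, `t i < s i`, with `i` maximal; `Finset.exists_maximal`
or `Fin` induction). `rt s i = 2 i + 3 + s i ≥ 3` is in `sg o t`, so it is `lf t k` or `rt t k`. If `k ≤ i`: `t k ≤ t i < s i`, so
`rt t k = 2 k + 3 + t k < rt s i`, and `lf t k < rt t k`: contradiction. If `k > i`: `P k`, so `s k ≤ t k` by maximality, and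
`lf t k = 2 k + 2 + t k ≥ 2 i + 4 + s k ≥ 2 i + 4 + s i > rt s i`, `rt t k > lf t k`: contradiction.
PLAN card_sg. `C` has `1 + o` elements (`o ≤ 1`), all `≤ 1`; the images of `lf s`, `rt s` have `m` elements each (`lf_inj`, `rt_inj`), all `≥ 2`, and they
are disjoint (`lf_ne_rt`).
-/

namespace Pool.Agent.LibHB64

open Finset

variable {m : ℕ} {s t : Fin m → ℕ} {o : ℕ} {X : Finset (Fin m → ℕ)}

theorem rt_le (hs : Monotone s) (ht : Monotone t) (P : Fin m → Prop) (hP : ∀ i j, i ≤ j → P i → P j)
    (h : ∀ i, P i → rt s i ∈ sg o t) : ∀ i, P i → s i ≤ t i := by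
  have key : ∀ k : ℕ, ∀ i : Fin m, m - (i : ℕ) ≤ k → P i → s i ≤ t i := by
    intro k
    induction k with
    | zero =>
      intro i hi _
      have := i.isLt
      omega
    | succ k ih =>
      intro i hi hPi
      by_contra hlt
      push Not at hlt
      have h3 := three_le_rt (s := s) i
      rcases mem_sg.1 (h i hPi) with h4 | ⟨j, h4⟩ | ⟨j, h4⟩
      · omega
      · rcases le_or_gt j i with h5 | h5
        · have h6 := ht h5
          have h7 : (j : ℕ) ≤ i := h5
          unfold rt lf at h4
          omega
        · have h7 : (i : ℕ) < j := h5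
          have h6 := ih j (by omega) (hP i j h5.le hPi)
          have h8 := hs h5.le
          unfold rt lf at h4
          omega
      · rcases le_or_gt j i with h5 | h5
        · have h6 := ht h5
          have h7 : (j : ℕ) ≤ i := h5
          unfold rt at h4
          omega
        · have h7 : (i : ℕ) < j := h5
          have h6 := ih j (by omega) (hP i j h5.le hPi)
          have h8 := hs h5.le
          unfold rt at h4
          omega
  exact fun i hi => key _ i le_rfl hi

theorem card_sg (ho : o ≤ 1) (hs : Monotone s) : (sg o s).card = 2 * m + o + 1 := by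
  have h1 : Disjoint (Finset.Icc (1 - o) 1) (univ.image (lf s) ∪ univ.image (rt s)) := by
    rw [Finset.disjoint_left]
    intro y hy hy'
    have h2 := (mem_Icc.1 hy).2
    rcases mem_union.1 hy' with h3 | h3
    · obtain ⟨i, _, rfl⟩ := mem_image.1 h3
      have := two_le_lf (s := s) i
      omega
    · obtain ⟨i, _, rfl⟩ := mem_image.1 h3
      have := three_le_rt (s := s) i
      omega
  have h2 : Disjoint (univ.image (lf s)) (univ.image (rt s)) := by
    rw [Finset.disjoint_left]
    intro y hy hy'
    obtain ⟨i, _, rfl⟩ := mem_image.1 hy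
    obtain ⟨j, _, hj⟩ := mem_image.1 hy'
    exact lf_ne_rt hs i j hj.symm
  rw [sg, card_union_of_disjoint h1, card_union_of_disjoint h2,
    card_image_of_injective _ (fun i j hij => lf_inj hs hij),
    card_image_of_injective _ (fun i j hij => rt_inj hs hij), card_univ, Fintype.card_fin,
    Nat.card_Icc]
  omega

end Pool.Agent.LibHB64
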