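import Pool.Agent.LibHB64.CODefs

set_option autoImplicit false

/-!
Row R. Membership in the forward restriction `Rf o p = FF o p \\ Rb o p`.
PLAN. Unfold `Rf`, `FF`, `Rb`, `vx`, `mem_sg`, `mem_Zt`, with `lf_inj`, `rt_inj`, `lf_ne_rt`, `two_le_lf`, `three_le_rt` (all for monotone `s`).
`mem_Rf_inl`: `y ∈ sg o s`, `y ≠ x`, `y` is not a left element, and not (`y ∈ Zt o s` and `aft x y`). So `y = rt s i` with `0 < s i`, or `y ∈ Zt o s`, `y ≠ x`, not
`aft x y`, and for `y ≠ x` one has `aft x y` or `aft y x` but not both (unfold `aft`, omega). Conversely `rt s i` with `0 < s i` is not in `Zt o s`.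
`mem_Rf_inr`: `y ∈ C`, or `y = rt s i` with `¬ s j < s i`, or `y = lf s i` with `i ≠ j` and `¬ i < j`.
`Rb_sub`: `Rb o p ⊆ FF o p` for `p ∈ AA X o` (`inl x`: `x ∈ Zt o s` is no left element, and `¬ aft x x`).
-/

namespace Pool.Agent.LibHB64

open Finset

variable {m : ℕ} {s t : Fin m → ℕ} {o : ℕ} {X : Finset (Fin m → ℕ)}

private theorem COR_Zt_ne_lf (hs : Monotone s) {x : ℕ} (hx : x ∈ Zt o s) (i : Fin m) : lf s i ≠ x := by
  rcases mem_Zt.1 hx with h | ⟨k, _, h⟩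
  · have h2 := two_le_lf (s := s) i
    omega
  · rw [h]
    exact lf_ne_rt hs i k

private theorem COR_aft_total {x y : ℕ} (h : y ≠ x) (h1 : ¬ aft x y) : aft y x := by
  unfold aft at *
  omega

private theorem COR_aft_irrefl {x y : ℕ} (h : aft x y) : y ≠ x := by
  unfold aft at *
  omega

private theorem COR_aft_asymm {x y : ℕ} (h : aft x y) : ¬ aft y x := by
  unfold aft at *
  omega

theorem mem_Rf_inl (hs : Monotone s) {x y : ℕ} (hx : x ∈ Zt o s) :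
    y ∈ Rf o (s, Sum.inl x) ↔ (∃ i, 0 < s i ∧ y = rt s i) ∨ (y ∈ Zt o s ∧ aft y x) := by
  have h0 : y ∈ Rf o (s, Sum.inl x) ↔ (y ≠ x ∧ y ∈ sg o s) ∧ ¬ ((∃ i, lf s i = y) ∨ (y ∈ Zt o s ∧ aft x y)) := by
    simp only [Rf, FF, Rb, vx, Sum.elim_inl, mem_sdiff, mem_erase, mem_union, mem_image, mem_univ, true_and,
      mem_filter]
  rw [h0]
  constructor
  · rintro ⟨⟨hyx, hy⟩, hn⟩
    push Not at hn
    obtain ⟨hn1, hn2⟩ := hn
    rcases mem_sg.1 hy with h | ⟨i, h⟩ | ⟨i, h⟩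
    · have hz : y ∈ Zt o s := mem_Zt.2 (Or.inl h)
      exact Or.inr ⟨hz, COR_aft_total hyx (hn2 hz)⟩
    · exact absurd h.symm (hn1 i)
    · by_cases hi : 0 < s i
      · exact Or.inl ⟨i, hi, h⟩
      · have hz : y ∈ Zt o s := mem_Zt.2 (Or.inr ⟨i, by omega, h⟩)
        exact Or.inr ⟨hz, COR_aft_total hyx (hn2 hz)⟩
  · rintro (⟨i, hi, h⟩ | ⟨hz, ha⟩)
    · have hnz : ∀ z, z ∈ Zt o s → z ≠ y := by
        intro z hz hzy
        rcases mem_Zt.1 hz with h1 | ⟨k, hk, h1⟩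
        · have h3 := three_le_rt (s := s) i
          omega
        · have h4 : rt s k = rt s i := by rw [← h1, hzy, h]
          rw [rt_inj hs h4] at hk
          omega
      refine ⟨⟨fun hyx => hnz x hx hyx.symm, by rw [h]; exact rt_mem i⟩, ?_⟩
      rintro (⟨k, hk⟩ | ⟨hz, _⟩)
      · exact lf_ne_rt hs k i (by rw [hk, h])
      · exact hnz y hz rfl
    · refine ⟨⟨(COR_aft_irrefl ha).symm, Zt_sub hz⟩, ?_⟩
      rintro (⟨k, hk⟩ | ⟨_, ha'⟩)
      · exact COR_Zt_ne_lf hs hz k hk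
      · exact COR_aft_asymm ha ha'

theorem mem_Rf_inr (hs : Monotone s) {j : Fin m} {y : ℕ} :
    y ∈ Rf o (s, Sum.inr j) ↔ (1 - o ≤ y ∧ y ≤ 1) ∨ (∃ i, s i ≤ s j ∧ y = rt s i) ∨ ∃ i, j < i ∧ y = lf s i := by
  have h0 : y ∈ Rf o (s, Sum.inr j) ↔ (y ≠ lf s j ∧ y ∈ sg o s) ∧
      ¬ ((∃ i, i < j ∧ lf s i = y) ∨ (∃ i, s j < s i ∧ rt s i = y)) := by
    simp only [Rf, FF, Rb, vx, Sum.elim_inr, mem_sdiff, mem_erase, mem_union, mem_image, mem_univ, true_and,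
      mem_filter]
  rw [h0]
  constructor
  · rintro ⟨⟨hyx, hy⟩, hn⟩
    push Not at hn
    obtain ⟨hn1, hn2⟩ := hn
    rcases mem_sg.1 hy with h | ⟨i, h⟩ | ⟨i, h⟩
    · exact Or.inl h
    · refine Or.inr (Or.inr ⟨i, ?_, h⟩)
      rcases lt_trichotomy i j with h1 | h1 | h1
      · exact absurd h.symm (hn1 i h1)
      · rw [h1] at h
        exact absurd h hyx
      · exact h1
    · refine Or.inr (Or.inl ⟨i, ?_, h⟩)
      by_contra hc
      exact hn2 i (not_le.1 hc) h.symm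
  · rintro (h | ⟨i, hi, h⟩ | ⟨i, hi, h⟩)
    · refine ⟨⟨?_, mem_sg.2 (Or.inl h)⟩, ?_⟩
      · have h2 := two_le_lf (s := s) j
        omega
      · rintro (⟨k, _, hk⟩ | ⟨k, _, hk⟩)
        · have h2 := two_le_lf (s := s) k
          omega
        · have h2 := three_le_rt (s := s) k
          omega
    · refine ⟨⟨fun hc => lf_ne_rt hs j i (by rw [← hc, h]), by rw [h]; exact rt_mem i⟩, ?_⟩
      rintro (⟨k, _, hk⟩ | ⟨k, hk', hk⟩)
      · exact lf_ne_rt hs k i (by rw [hk, h])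
      · have h4 : rt s k = rt s i := by rw [hk, h]
        rw [rt_inj hs h4] at hk'
        omega
    · refine ⟨⟨fun hc => ?_, by rw [h]; exact lf_mem i⟩, ?_⟩
      · have h4 : lf s i = lf s j := by rw [← h, hc]
        exact hi.ne' (lf_inj hs h4)
      rintro (⟨k, hk', hk⟩ | ⟨k, hk', hk⟩)
      · have h4 : lf s k = lf s i := by rw [hk, h]
        rw [lf_inj hs h4] at hk'
        exact lt_asymm hi hk'
      · exact lf_ne_rt hs i k (by rw [hk, h])

theorem Rb_sub (hX : IsId X) {p : (Fin m → ℕ) × (ℕ ⊕ Fin m)} (hp : p ∈ AA X o) : Rb o p ⊆ FF o p := by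
  obtain ⟨s, q⟩ := p
  rcases q with x | j
  · obtain ⟨hsX, hx⟩ := mem_AA_inl.1 hp
    have hs := hX.mono s hsX
    intro y hy
    have hy' : (∃ i, lf s i = y) ∨ (y ∈ Zt o s ∧ aft x y) := by
      simpa only [Rb, Sum.elim_inl, mem_union, mem_image, mem_univ, true_and, mem_filter] using hy
    show y ∈ (sg o s).erase x
    rw [mem_erase]
    rcases hy' with ⟨i, hi⟩ | ⟨hz, ha⟩
    · refine ⟨fun hc => COR_Zt_ne_lf hs hx i (hi.trans hc), ?_⟩
      rw [← hi]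
      exact lf_mem i
    · exact ⟨COR_aft_irrefl ha, Zt_sub hz⟩
  · obtain ⟨hsX, _⟩ := mem_AA_inr.1 hp
    have hs := hX.mono s hsX
    intro y hy
    have hy' : (∃ i, i < j ∧ lf s i = y) ∨ (∃ i, s j < s i ∧ rt s i = y) := by
      simpa only [Rb, Sum.elim_inr, mem_union, mem_image, mem_univ, true_and, mem_filter] using hy
    show y ∈ (sg o s).erase (lf s j)
    rw [mem_erase]
    rcases hy' with ⟨i, hi, h⟩ | ⟨i, hi, h⟩
    · refine ⟨fun hc => hi.ne (lf_inj hs (h.trans hc)), ?_⟩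
      rw [← h]
      exact lf_mem i
    · refine ⟨fun hc => lf_ne_rt hs j i (hc.symm.trans h.symm), ?_⟩
      rw [← h]
      exact rt_mem i

end Pool.Agent.LibHB64
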