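import Pool.Agent.LibHB64.CODefs
import Pool.Agent.LibHB64.COG2
import Pool.Agent.LibHB64.COG3
import Pool.Agent.LibHB64.COR

set_option autoImplicit false

/-!
Row C1, C2. Containments of the restrictions of the lower facets.
PLAN C1. `mem_Rf_inl`: `rt s i ∈ FF o (t, inl y) ⊆ sg o t` for `0 < s i`; `rt_le` with `P i := 0 < s i` gives `s ≤ t`. If `aft y x` then (`y` before `x`) we show
`y ∈ Rf o (s, inl x)`, so `y ∈ FF o (t, inl y) = (sg o t).erase y`, contradiction: need `y ∈ Zt o s`: `y ∈ Zt o t` is in `C` (fine) or `y = rt t i`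
with `t i = 0`, so `s i = 0` (as `s ≤ t`) and `y = rt s i`.
PLAN C2. `Rb o (s, inl x)` contains all `lf s i`, so `lefts` gives `t i = s i` or `t i + 1 = s i` for `q = (t, _)`; `t ≤ s`. If `q = (t, inr k)`: `lf t k ∉ FF o q`, so
`lf t k ≠ lf s k`, so `t k + 1 = s k`; then `up t k ≤ s` (`up_le`), so `up t k ∈ X` (`hX.down`, `up_mono`), contradiction with `mem_AA_inr`. If
`q = (t, inl y)`: suppose `aft x y` (`y` after `x`). `y ∈ Zt o t`. If `y ∈ C` then `y ∈ Zt o s`, so `y ∈ Rb o (s, inl x) ⊆ (sg o t).erase y`,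
contradiction. If `y = rt t i`, `t i = 0`: `s i = 0` gives `y = rt s i ∈ Zt o s`, the same contradiction; `s i = 1` gives `y = 2 i + 3 = lf s i ∈ Rb`,
again `y ∈ (sg o t).erase y`.
-/

namespace Pool.Agent.LibHB64

open Finset

variable {m : ℕ} {s t : Fin m → ℕ} {o : ℕ} {X : Finset (Fin m → ℕ)}

theorem C1 (hX : IsId X) {x y : ℕ} (hp : (s, Sum.inl x) ∈ AA X o) (hq : (t, Sum.inl y) ∈ AA X o)
    (h : Rf o (s, Sum.inl x) ⊆ FF o (t, Sum.inl y)) : s ≤ t ∧ ¬ aft y x := by
  obtain ⟨hsX, hx⟩ := mem_AA_inl.1 hp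
  obtain ⟨htX, hy⟩ := mem_AA_inl.1 hq
  have hs := hX.mono s hsX
  have ht := hX.mono t htX
  have hle : s ≤ t := by
    have h1 := rt_le (o := o) hs ht (fun i => 0 < s i) (fun i j hij hi => lt_of_lt_of_le hi (hs hij))
      (fun i hi => by
        have h2 : rt s i ∈ Rf o (s, Sum.inl x) := (mem_Rf_inl hs hx).2 (Or.inl ⟨i, hi, rfl⟩)
        exact Finset.mem_of_mem_erase (h h2))
    intro i
    rcases Nat.eq_zero_or_pos (s i) with h0 | h0
    · rw [h0]
      exact Nat.zero_le _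
    · exact h1 i h0
  refine ⟨hle, fun haft => ?_⟩
  have hyZ : y ∈ Zt o s := by
    rcases mem_Zt.1 hy with h1 | ⟨i, hi, h1⟩
    · exact mem_Zt.2 (Or.inl h1)
    · have h2 : s i = 0 := Nat.le_zero.1 (hi ▸ hle i)
      refine mem_Zt.2 (Or.inr ⟨i, h2, ?_⟩)
      rw [h1]
      unfold rt
      rw [hi, h2]
  have h3 := h ((mem_Rf_inl hs hx).2 (Or.inr ⟨hyZ, haft⟩))
  exact Finset.ne_of_mem_erase h3 rfl

theorem C2 (hX : IsId X) {x : ℕ} {q : (Fin m → ℕ) × (ℕ ⊕ Fin m)} (hp : (s, Sum.inl x) ∈ AA X o) (hq : q ∈ AA X o)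
    (h : Rb o (s, Sum.inl x) ⊆ FF o q) : ∃ t y, q = (t, Sum.inl y) ∧ t ≤ s ∧ ¬ aft x y := by
  obtain ⟨hsX, hx⟩ := mem_AA_inl.1 hp
  have hs := hX.mono s hsX
  have hlf : ∀ i, lf s i ∈ Rb o (s, Sum.inl x) := by
    intro i
    show lf s i ∈ univ.image (lf s) ∪ (Zt o s).filter fun y => aft x y
    exact Finset.mem_union_left _ (Finset.mem_image_of_mem _ (Finset.mem_univ i))
  have hZ : ∀ y, y ∈ Zt o s → aft x y → y ∈ Rb o (s, Sum.inl x) := by
    intro y hy hxy
    show y ∈ univ.image (lf s) ∪ (Zt o s).filter fun y => aft x y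
    exact Finset.mem_union_right _ (Finset.mem_filter.2 ⟨hy, hxy⟩)
  obtain ⟨t, k⟩ := q
  have htX : t ∈ X := by
    rcases k with y | k
    · exact (mem_AA_inl.1 hq).1
    · exact (mem_AA_inr.1 hq).1
  have ht := hX.mono t htX
  have hl := lefts (o := o) hs ht (fun i => Finset.mem_of_mem_erase (h (hlf i)))
  have hts : t ≤ s := by
    intro i
    rcases hl i with h1 | h1
    · exact h1.le
    · exact (Nat.le_succ (t i)).trans h1.le
  rcases k with y | k
  · refine ⟨t, y, rfl, hts, fun haft => ?_⟩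
    have hy := (mem_AA_inl.1 hq).2
    have hmem : y ∈ Rb o (s, Sum.inl x) := by
      rcases mem_Zt.1 hy with h1 | ⟨i, hi, h1⟩
      · exact hZ y (mem_Zt.2 (Or.inl h1)) haft
      · rcases hl i with h2 | h2
        · apply hZ y _ haft
          refine mem_Zt.2 (Or.inr ⟨i, by rw [← h2, hi], ?_⟩)
          rw [h1]
          unfold rt
          rw [h2]
        · have h3 : y = lf s i := by
            rw [h1]
            unfold rt lf
            omega
          rw [h3]
          exact hlf i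
    exact Finset.ne_of_mem_erase (h hmem) rfl
  · exfalso
    have h1 : lf s k ≠ lf t k := Finset.ne_of_mem_erase (h (hlf k))
    have h2 : t k < s k := by
      rcases hl k with h3 | h3
      · exfalso
        apply h1
        unfold lf
        rw [h3]
      · omega
    exact (mem_AA_inr.1 hq).2 (hX.down s hsX _ (up_mono ht k) (up_le hs hts h2))

end Pool.Agent.LibHB64
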