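import Pool.Agent.LibHB64.CODefs
import Pool.Agent.LibHB64.COG2
import Pool.Agent.LibHB64.COG3
import Pool.Agent.LibHB64.COR

set_option autoImplicit false

/-!
Row C3. Containment of the backward restriction of an upper facet in an upper facet. `uk s j` is the function
`i ↦ 1 - 2 s i (i < j), - 2 s j (i = j), s i (i > j)` with the lexicographic order; `a < b` in `Lex` means: there is `i` with `a i' = b i'` for
`i' < i` and `a i < b i`.
PLAN. `Rb o (s, inr j)` = the `lf s i`, `i < j`, and the `rt s i` with `s j < s i`. Suppose not `uk s j < uk t k`. Let `i0` be the first index `≤ j` where NOT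
(`t i = s i` and `i < k`) (if for all `i < j` this holds take `i0 = j`; e.g. `Nat.find`-like argument or induction); so `t i = s i`, `i < k` for `i < i0`,
and the two keys agree before `i0`.
(a) `i0 < j`. If `t i0 = s i0`, then `i0 = k` (as `i0 ≥ k`, and `i < k` for `i < i0`), and `lf s i0 = lf t k` is removed in `FF o (t, inr k)`, but it is in
`Rb o (s, inr j)`: contradiction. If `t i0 < s i0`: the key of `s` at `i0` is `1 - 2 s i0 < -2 t i0 ≤` key of `t` at `i0` in case `i0 ≤ k`
(`1 - 2 t` or `-2 t`), so `uk s j < uk t k`. Note `i0 ≤ k` since `i < k` for all `i < i0`: indeed `k < i0` is impossible. If `t i0 > s i0`: `lf s i0` is not in `sg o t`: it is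
`> rt s i = rt t i` for `i < i0` (`rt_lt_lf`) and `< lf t i` for `i ≥ i0` (`t i ≥ t i0 > s i0`), `≥ 2`: contradiction.
(b) `i0 = j`, so `t i = s i` for `i < j`, and `j ≤ k`. If `t j < s j`: key `-2 s j < -2 t j`, so `uk s j < uk t k`. If `t j > s j`: then `t ≥ up s j`: for `i ≥ j`,
`t i ≥ t j ≥ s j + 1`, and for `s j < s i`, `s i ≤ t i` by `rt_le` (`P i := s j < s i`; `rt s i ∈ Rb ⊆ sg o t`); so `up s j ∈ X` by `hX.down`, contradiction
to `mem_AA_inr`. If `t j = s j`: if `j < k` then the key of `t` at `j` is `1 - 2 t j > -2 s j`: `uk s j < uk t k`. If `k = j`: for `i > j` `s i ≤ t i` (by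
`rt_le` if `s j < s i`, and `t i ≥ t j = s j = s i` otherwise); so `s ≤ t`, and either `s = t`, or at the first difference `i > j`, `s i < t i`, so `uk s j < uk t k`.
-/

namespace Pool.Agent.LibHB64

open Finset

variable {m : ℕ} {s t : Fin m → ℕ} {o : ℕ} {X : Finset (Fin m → ℕ)}

private theorem C3_lt (a b : Fin m → ℤ) (i : Fin m) (h : ∀ i' < i, a i' = b i') (h' : a i < b i) :
    (toLex a : Lex (Fin m → ℤ)) < toLex b :=
  ⟨i, h, h'⟩

private theorem C3_key (j k i0 : Fin m) (hj : i0 ≤ j) (hpre : ∀ i < i0, t i = s i ∧ i < k)
    (h : (if i0 < j then 1 - 2 * (s i0 : ℤ) else if i0 = j then -(2 * (s i0 : ℤ)) else (s i0 : ℤ)) <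
      (if i0 < k then 1 - 2 * (t i0 : ℤ) else if i0 = k then -(2 * (t i0 : ℤ)) else (t i0 : ℤ))) :
    uk s j < uk t k := by
  refine C3_lt _ _ i0 (fun i hi => ?_) h
  obtain ⟨h1, h2⟩ := hpre i hi
  simp only [if_pos (lt_of_lt_of_le hi hj), if_pos h2, h1]

theorem C3 (hX : IsId X) {j k : Fin m} (hp : (s, Sum.inr j) ∈ AA X o) (hq : (t, Sum.inr k) ∈ AA X o)
    (h : Rb o (s, Sum.inr j) ⊆ FF o (t, Sum.inr k)) : (s = t ∧ j = k) ∨ uk s j < uk t k := by
  obtain ⟨hsX, hup⟩ := mem_AA_inr.1 hp
  obtain ⟨htX, -⟩ := mem_AA_inr.1 hq
  have hs := hX.mono s hsX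
  have ht := hX.mono t htX
  have hl : ∀ i, i < j → lf s i ∈ sg o t ∧ lf s i ≠ lf t k := by
    intro i hi
    have h1 : lf s i ∈ Rb o (s, Sum.inr j) := by
      show lf s i ∈ ((univ.filter fun i => i < j).image (lf s)) ∪ (univ.filter fun i => s j < s i).image (rt s)
      exact mem_union_left _ (mem_image_of_mem _ (mem_filter.2 ⟨mem_univ _, hi⟩))
    have h2 : lf s i ∈ (sg o t).erase (lf t k) := h h1
    rw [mem_erase] at h2
    exact ⟨h2.2, h2.1⟩
  have hr : ∀ i, s j < s i → rt s i ∈ sg o t := by
    intro i hi
    have h1 : rt s i ∈ Rb o (s, Sum.inr j) := by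
      show rt s i ∈ ((univ.filter fun i => i < j).image (lf s)) ∪ (univ.filter fun i => s j < s i).image (rt s)
      exact mem_union_right _ (mem_image_of_mem _ (mem_filter.2 ⟨mem_univ _, hi⟩))
    have h2 : rt s i ∈ (sg o t).erase (lf t k) := h h1
    exact (mem_erase.1 h2).2
  have hrle : ∀ i, s j < s i → s i ≤ t i :=
    rt_le hs ht (fun i => s j < s i) (fun a b hab h1 => lt_of_lt_of_le h1 (hs hab)) hr
  by_cases hA : ∀ i, i < j → t i = s i ∧ i < k
  · have hjk : j ≤ k := by
      by_contra hc
      rw [not_le] at hc
      exact lt_irrefl _ (hA k hc).2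
    rcases lt_trichotomy (t j) (s j) with h1 | h1 | h1
    · right
      refine C3_key j k j le_rfl hA ?_
      rw [if_neg (lt_irrefl _), if_pos rfl]
      have h1' : (t j : ℤ) < s j := by exact_mod_cast h1
      split_ifs with h2 h3
      · linarith
      · linarith
      · exact absurd (lt_of_le_of_ne hjk h3) h2
    · rcases lt_or_eq_of_le hjk with h2 | h2
      · right
        refine C3_key j k j le_rfl hA ?_
        rw [if_neg (lt_irrefl _), if_pos rfl, if_pos h2, h1]
        linarith
      · subst h2
        have hle : ∀ i, j < i → s i ≤ t i := by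
          intro i hi
          by_cases h3 : s j < s i
          · exact hrle i h3
          · rw [not_lt] at h3
            exact h3.trans (h1.symm.le.trans (ht hi.le))
        by_cases hst : s = t
        · exact Or.inl ⟨hst, rfl⟩
        · right
          have hne : (univ.filter fun i => s i ≠ t i).Nonempty := by
            by_contra hc
            rw [not_nonempty_iff_eq_empty] at hc
            apply hst
            funext i
            by_contra hi
            have : i ∈ (univ.filter fun i => s i ≠ t i) := mem_filter.2 ⟨mem_univ _, hi⟩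
            rw [hc] at this
            exact notMem_empty _ this
          set i1 := (univ.filter fun i => s i ≠ t i).min' hne with hi1
          have hmem := (mem_filter.1 (min'_mem _ hne)).2
          rw [← hi1] at hmem
          have hmin : ∀ i, i < i1 → s i = t i := by
            intro i hi
            by_contra hc
            have h4 := min'_le (univ.filter fun i => s i ≠ t i) i (mem_filter.2 ⟨mem_univ _, hc⟩)
            rw [← hi1] at h4
            exact absurd hi (not_lt.2 h4)
          have hji : j < i1 := by
            by_contra hc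
            rw [not_lt] at hc
            rcases lt_or_eq_of_le hc with h4 | h4
            · exact hmem (hA i1 h4).1.symm
            · rw [h4] at hmem
              exact hmem h1.symm
          refine C3_lt _ _ i1 (fun i hi => ?_) ?_
          · simp only [hmin i hi]
          · simp only [if_neg (not_lt.2 hji.le), if_neg hji.ne']
            exact_mod_cast lt_of_le_of_ne (hle i1 hji) hmem
    · exfalso
      apply hup
      refine hX.down t htX (up s j) (up_mono hs j) (fun i => ?_)
      simp only [up]
      split_ifs with h2
      · exact (hA i h2).1.symm.le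
      · rw [not_lt] at h2
        have h3 : s j + 1 ≤ t i := le_trans h1 (ht h2)
        refine max_le ?_ h3
        by_cases h4 : s j < s i
        · exact hrle i h4
        · rw [not_lt] at h4
          omega
  · have hne : (univ.filter fun i => i < j ∧ ¬ (t i = s i ∧ i < k)).Nonempty := by
      by_contra hc
      rw [not_nonempty_iff_eq_empty] at hc
      apply hA
      intro i hi
      by_contra hi2
      have : i ∈ (univ.filter fun i => i < j ∧ ¬ (t i = s i ∧ i < k)) := mem_filter.2 ⟨mem_univ _, hi, hi2⟩
      rw [hc] at this
      exact notMem_empty _ this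
    set i0 := (univ.filter fun i => i < j ∧ ¬ (t i = s i ∧ i < k)).min' hne with hi0
    obtain ⟨hij, hnot⟩ := (mem_filter.1 (min'_mem _ hne)).2
    rw [← hi0] at hij hnot
    have hpre : ∀ i, i < i0 → t i = s i ∧ i < k := by
      intro i hi
      by_contra hc
      have h4 := min'_le (univ.filter fun i => i < j ∧ ¬ (t i = s i ∧ i < k)) i
        (mem_filter.2 ⟨mem_univ _, hi.trans hij, hc⟩)
      rw [← hi0] at h4
      exact absurd hi (not_lt.2 h4)
    have hik : i0 ≤ k := by
      by_contra hc
      rw [not_le] at hc
      exact lt_irrefl _ (hpre k hc).2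
    rcases lt_trichotomy (t i0) (s i0) with h1 | h1 | h1
    · right
      refine C3_key j k i0 hij.le hpre ?_
      rw [if_pos hij]
      have h1' : (t i0 : ℤ) < s i0 := by exact_mod_cast h1
      split_ifs with h2 h3
      · linarith
      · linarith
      · exact absurd (lt_of_le_of_ne hik h3) h2
    · exfalso
      have h2 : i0 = k := by
        rcases lt_or_eq_of_le hik with h3 | h3
        · exact absurd ⟨h1, h3⟩ hnot
        · exact h3
      apply (hl i0 hij).2
      rw [← h2]
      unfold lf
      rw [h1]
    · exfalso
      have h2 := (hl i0 hij).1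
      rcases mem_sg.1 h2 with h3 | ⟨i, h3⟩ | ⟨i, h3⟩
      · have := two_le_lf (s := s) i0
        omega
      · rcases lt_or_ge i i0 with h4 | h4
        · have h5 := lf_lt_lf hs h4
          have h6 : lf t i = lf s i := by
            unfold lf
            rw [(hpre i h4).1]
          omega
        · have h5 := ht h4
          have h6 : (i0 : ℕ) ≤ i := h4
          unfold lf at h3
          omega
      · rcases lt_or_ge i i0 with h4 | h4
        · have h5 := rt_lt_lf hs h4
          have h6 : rt t i = rt s i := by
            unfold rt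
            rw [(hpre i h4).1]
          omega
        · have h5 := ht h4
          have h6 : (i0 : ℕ) ≤ i := h4
          unfold lf rt at h3
          omega

end Pool.Agent.LibHB64
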