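import Pool.Agent.LibHB64.CODefs
import Pool.Agent.LibHB64.COG2
import Pool.Agent.LibHB64.COG3
import Pool.Agent.LibHB64.COR

set_option autoImplicit false

/-!
Row C4. Containment of the forward restriction of an upper facet.
PLAN. By `mem_Rf_inr`, `Rf o (s, inr j)` consists of `C`, the `rt s i` with `s i ≤ s j`, the `lf s i` with `i > j`. Let `l` be the largest index with
`s l = s j` (`l ≥ j`), `s l < s i` for `i > l`. `mixed` (with this `l`): `t i = s i` or `s i + 1` for `i ≤ l`, `t i = s i` or `t i + 1 = s i` for `i > l`.
(A) For `j < i ≤ l`: `lf s i ∈ sg o t`; if `t i = s i + 1` then `lf s i < lf t i`, so it is in a pair `k < i`, so `rt t (i-1) ≥ lf s i`, so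
`t (i-1) ≥ s i + 1 = s (i-1) + 1` (`s (i-1) = s i = s j`). So `t i = s i + 1` for one `i` in `[j, l]` implies `t j = s j + 1`, and that implies (monotone)
`t i = s i + 1` for all `i` in `[j, l]`.
Case `q = (t, inl y)`: `y ∈ Zt o t`, `y ∉ FF o q`. `y ∈ C` contradicts `C ⊆ Rf`. `y = rt t i`, `t i = 0`: if `i ≤ l` then `s i = 0`, `rt s i = y ∈ Rf`
(`s i ≤ s j`), contradiction; if `i > l`: `s i ∈ {0, 1}` and `s i > s l ≥ 0`, so `s i = 1`, `lf s i = 2 i + 3 = y ∈ Rf`, contradiction.
Case `q = (t, inr k)`: `lf t k ∉ FF o q`. (B) not (`k ≤ l` and `t k = s k + 1`) (then `lf t k = rt s k ∈ Rf`); not (`k > l` and `t k = s k`) (then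
`lf t k = lf s k ∈ Rf`); not (`j < k ≤ l` and `t k = s k`) (then `lf t k = lf s k ∈ Rf`). So: either (B1) `k ≤ j` and `t k = s k`, or (B2) `k > l` and
`t k + 1 = s k`. Compare the keys. Let `i0` be the first index `i < j` with `t i = s i + 1`, if there is one.
(a) `i0` exists. If `k < i0`: keys agree before `k`, at `k` the key of `t` is `-2 s k`, of `s` `1 - 2 s k` : `uk t k < uk s j`. `k = i0` is excluded by (B1). If
`k > i0`: keys agree before `i0`, at `i0`: `1 - 2 (s i0 + 1) < 1 - 2 s i0`.
(b) no such `i0`: `t i = s i` for `i < j`. If `k < j`: as before at the index `k`. If `t j = s j + 1`: then `k > l` by (B), so `k > j` and the key of `t` at `j` is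
`1 - 2 (s j + 1) < -2 s j`. If `t j = s j`: by (A) `t i = s i` for `i ≤ l`, so `t ≤ s`. If `k = j`: either `t = s` or at the first difference `i > j` (`> l`)
`t i < s i`: `uk t k < uk s j`. If `k > l`, `t k + 1 = s k`: `up t k ≤ s` (`up_le`), so `up t k ∈ X`, contradiction to `mem_AA_inr`. (`j < k ≤ l` is excluded.)
-/

namespace Pool.Agent.LibHB64

open Finset

variable {m : ℕ} {s t : Fin m → ℕ} {o : ℕ} {X : Finset (Fin m → ℕ)}

private lemma C4_min (P : Fin m → Prop) (h : ∃ i, P i) : ∃ i, P i ∧ ∀ j, j < i → ¬ P j := by
  obtain ⟨i, hi, hmin⟩ := (wellFounded_lt (α := Fin m)).has_min {i | P i} h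
  exact ⟨i, hi, fun j hj hPj => hmin j hPj hj⟩

private def C4_uv (s : Fin m → ℕ) (j i : Fin m) : ℤ :=
  if i < j then 1 - 2 * (s i : ℤ) else if i = j then -(2 * (s i : ℤ)) else (s i : ℤ)

private lemma C4_uv_lt (s : Fin m → ℕ) {j i : Fin m} (h : i < j) :
    C4_uv s j i = 1 - 2 * (s i : ℤ) := by
  unfold C4_uv
  rw [if_pos h]

private lemma C4_uv_eq (s : Fin m → ℕ) (j : Fin m) : C4_uv s j j = -(2 * (s j : ℤ)) := by
  unfold C4_uv
  rw [if_neg (lt_irrefl j), if_pos rfl]

private lemma C4_uv_gt (s : Fin m → ℕ) {j i : Fin m} (h : j < i) : C4_uv s j i = (s i : ℤ) := by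
  unfold C4_uv
  rw [if_neg (not_lt.2 h.le), if_neg h.ne']

private lemma C4_lt (s t : Fin m → ℕ) (j k i0 : Fin m)
    (h1 : ∀ i, i < i0 → C4_uv t k i = C4_uv s j i) (h2 : C4_uv t k i0 < C4_uv s j i0) :
    uk t k < uk s j := ⟨i0, h1, h2⟩

theorem C4 (hX : IsId X) {j : Fin m} {q : (Fin m → ℕ) × (ℕ ⊕ Fin m)} (hp : (s, Sum.inr j) ∈ AA X o)
    (hq : q ∈ AA X o) (h : Rf o (s, Sum.inr j) ⊆ FF o q) :
    ∃ t k, q = (t, Sum.inr k) ∧ ((t = s ∧ k = j) ∨ uk t k < uk s j) := by
  obtain ⟨hsX, hup⟩ := mem_AA_inr.1 hp
  have hs := hX.mono s hsX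
  obtain ⟨t, r⟩ := q
  have htX : t ∈ X := by
    rcases r with y | k
    · exact (mem_AA_inl.1 hq).1
    · exact (mem_AA_inr.1 hq).1
  have ht := hX.mono t htX
  -- the largest index with the shift of `j`
  obtain ⟨l, hjl, hsl, hl⟩ : ∃ l, j ≤ l ∧ s l = s j ∧ ∀ i, l < i → s l < s i := by
    have hne : (univ.filter fun i => s i = s j).Nonempty := ⟨j, by simp⟩
    refine ⟨(univ.filter fun i => s i = s j).max' hne, ?_, ?_, ?_⟩
    · exact Finset.le_max' _ _ (by simp)
    · exact (Finset.mem_filter.1 (Finset.max'_mem _ hne)).2
    · intro i hi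
      have h1 : s ((univ.filter fun i => s i = s j).max' hne) = s j :=
        (Finset.mem_filter.1 (Finset.max'_mem _ hne)).2
      have h2 := hs hi.le
      refine lt_of_le_of_ne h2 fun h3 => ?_
      have h4 : i ∈ univ.filter fun i => s i = s j := by
        rw [Finset.mem_filter]
        exact ⟨Finset.mem_univ _, by rw [← h3, h1]⟩
      exact absurd (Finset.le_max' _ _ h4) (not_le.2 hi)
  have hcase : ∀ i, j ≤ i → i ≤ l → s i = s j := fun i h1 h2 =>
    le_antisymm (hsl ▸ hs h2) (hs h1)
  have hlow : ∀ i, i ≤ l → s i ≤ s j := fun i h1 => hsl ▸ hs h1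
  have hRC : ∀ y, 1 - o ≤ y → y ≤ 1 → y ∈ Rf o (s, Sum.inr j) := fun y h1 h2 =>
    (mem_Rf_inr hs).2 (Or.inl ⟨h1, h2⟩)
  have hRr : ∀ i, s i ≤ s j → rt s i ∈ Rf o (s, Sum.inr j) := fun i h1 =>
    (mem_Rf_inr hs).2 (Or.inr (Or.inl ⟨i, h1, rfl⟩))
  have hRl : ∀ i, j < i → lf s i ∈ Rf o (s, Sum.inr j) := fun i h1 =>
    (mem_Rf_inr hs).2 (Or.inr (Or.inr ⟨i, h1, rfl⟩))
  have hsg : ∀ y, y ∈ Rf o (s, Sum.inr j) → y ∈ sg o t := fun y hy =>
    Finset.mem_of_mem_erase (h hy)
  have M := mixed (o := o) hs ht l hl (fun i hi => hsg _ (hRr i (hlow i hi)))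
    (fun i hi => hsg _ (hRl i (lt_of_le_of_lt hjl hi)))
  -- (A)
  have hA : ∀ i, j ≤ i → i ≤ l → t i = s i + 1 → t j = s j + 1 := by
    intro i1 hi1 hi2 hi3
    obtain ⟨i, ⟨h1, h2, h3⟩, hmin⟩ := C4_min (fun i => j ≤ i ∧ i ≤ l ∧ t i = s i + 1)
      ⟨i1, hi1, hi2, hi3⟩
    by_cases hij : i = j
    · rw [← hij]
      exact h3
    · exfalso
      have hji : j < i := lt_of_le_of_ne h1 (Ne.symm hij)
      have hsi := hcase i h1 h2
      have htj : t j = s j := by
        rcases (M j).1 hjl with h4 | h4
        · exact h4
        · exact absurd ⟨le_rfl, hjl, h4⟩ (hmin j hji)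
      have hbound : ∀ k, k < i → t k ≤ s j := by
        intro k hk
        rcases lt_or_ge k j with h4 | h4
        · exact (ht h4.le).trans htj.le
        · have hkl := hk.le.trans h2
          rcases (M k).1 hkl with h5 | h5
          · rw [h5, hcase k h4 hkl]
          · exact absurd ⟨h4, hkl, h5⟩ (hmin k hk)
      have hupper : ∀ k, i ≤ k → s i + 1 ≤ t k := fun k hk => h3 ▸ ht hk
      rcases mem_sg.1 (hsg _ (hRl i hji)) with h4 | ⟨k, h4⟩ | ⟨k, h4⟩
      · have := two_le_lf (s := s) i
        omega
      · rcases lt_or_ge k i with h5 | h5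
        · have h6 := hbound k h5
          have h7 : (k : ℕ) < i := h5
          unfold lf at h4
          omega
        · have h6 := hupper k h5
          have h7 : (i : ℕ) ≤ k := h5
          unfold lf at h4
          omega
      · rcases lt_or_ge k i with h5 | h5
        · have h6 := hbound k h5
          have h7 : (k : ℕ) < i := h5
          unfold lf rt at h4
          omega
        · have h6 := hupper k h5
          have h7 : (i : ℕ) ≤ k := h5
          unfold lf rt at h4
          omega
  rcases r with y | k
  · -- lower facets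
    exfalso
    have hyR : y ∉ Rf o (s, Sum.inr j) := fun hy => Finset.ne_of_mem_erase (h hy) rfl
    rcases mem_Zt.1 (mem_AA_inl.1 hq).2 with h1 | ⟨i, hi, h1⟩
    · exact hyR (hRC y h1.1 h1.2)
    · apply hyR
      rcases le_or_gt i l with h2 | h2
      · have h3 : s i = 0 := by
          rcases (M i).1 h2 with h4 | h4
          · rw [← h4, hi]
          · omega
        have h4 : y = rt s i := by
          rw [h1]
          unfold rt
          rw [hi, h3]
        rw [h4]
        exact hRr i (by rw [h3]; exact Nat.zero_le _)
      · have h5 := hl i h2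
        have h3 : s i = 1 := by
          rcases (M i).2 h2 with h4 | h4
          · omega
          · omega
        have h4 : y = lf s i := by
          rw [h1]
          unfold rt lf
          rw [hi, h3]
        rw [h4]
        exact hRl i (lt_of_le_of_lt hjl h2)
  · -- upper facets
    refine ⟨t, k, rfl, ?_⟩
    have hkR : lf t k ∉ Rf o (s, Sum.inr j) := fun hy => Finset.ne_of_mem_erase (h hy) rfl
    have hB : (k ≤ j ∧ t k = s k) ∨ (l < k ∧ t k + 1 = s k) := by
      rcases le_or_gt k l with h2 | h2
      · rcases (M k).1 h2 with h4 | h4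
        · rcases le_or_gt k j with h5 | h5
          · exact Or.inl ⟨h5, h4⟩
          · exfalso
            apply hkR
            have h6 : lf t k = lf s k := by
              unfold lf
              rw [h4]
            rw [h6]
            exact hRl k h5
        · exfalso
          apply hkR
          have h6 : lf t k = rt s k := by
            unfold lf rt
            omega
          rw [h6]
          exact hRr k (hlow k h2)
      · rcases (M k).2 h2 with h4 | h4
        · exfalso
          apply hkR
          have h6 : lf t k = lf s k := by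
            unfold lf
            rw [h4]
          rw [h6]
          exact hRl k (lt_of_le_of_lt hjl h2)
        · exact Or.inr ⟨h2, h4⟩
    -- comparison at `k` if `k < j` and nothing moved before
    have hK : k < j → (∀ i, i < k → t i = s i) → uk t k < uk s j := by
      intro hkj hbef
      have htk : t k = s k := by
        rcases hB with h1 | h1
        · exact h1.2
        · exact absurd (hkj.le.trans hjl) (not_le.2 h1.1)
      apply C4_lt s t j k k
      · intro i hi
        rw [C4_uv_lt t hi, C4_uv_lt s (hi.trans hkj), hbef i hi]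
      · rw [C4_uv_eq, C4_uv_lt s hkj, htk]
        omega
    by_cases hex : ∃ i, i < j ∧ t i = s i + 1
    · obtain ⟨i0, ⟨hi0, hti0⟩, hmin⟩ := C4_min _ hex
      have hbef : ∀ i, i < i0 → t i = s i := by
        intro i hi
        rcases (M i).1 ((hi.trans hi0).le.trans hjl) with h1 | h1
        · exact h1
        · exact absurd ⟨hi.trans hi0, h1⟩ (hmin i hi)
      right
      rcases lt_trichotomy k i0 with h1 | h1 | h1
      · exact hK (h1.trans hi0) fun i hi => hbef i (hi.trans h1)
      · exfalso
        rw [h1] at hB
        rcases hB with h2 | h2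
        · omega
        · exact absurd (hi0.le.trans hjl) (not_le.2 h2.1)
      · apply C4_lt s t j k i0
        · intro i hi
          rw [C4_uv_lt t (hi.trans h1), C4_uv_lt s (hi.trans hi0), hbef i hi]
        · rw [C4_uv_lt t h1, C4_uv_lt s hi0, hti0]
          push_cast
          omega
    · have hbef : ∀ i, i < j → t i = s i := by
        intro i hi
        rcases (M i).1 (hi.le.trans hjl) with h1 | h1
        · exact h1
        · exact absurd ⟨i, hi, h1⟩ hex
      rcases lt_or_ge k j with hkj | hkj
      · right
        exact hK hkj fun i hi => hbef i (hi.trans hkj)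
      · rcases (M j).1 hjl with htj | htj
        · -- `t j = s j`
          have hall : ∀ i, i ≤ l → t i = s i := by
            intro i hi
            rcases lt_or_ge i j with h1 | h1
            · exact hbef i h1
            · rcases (M i).1 hi with h2 | h2
              · exact h2
              · have h3 := hA i h1 hi h2
                omega
          have hts : t ≤ s := by
            intro i
            rcases le_or_gt i l with h1 | h1
            · exact (hall i h1).le
            · rcases (M i).2 h1 with h2 | h2
              · exact h2.le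
              · exact (Nat.le_succ (t i)).trans h2.le
          rcases hB with h1 | h1
          · have hkj2 : k = j := le_antisymm h1.1 hkj
            subst hkj2
            by_cases hts2 : t = s
            · exact Or.inl ⟨hts2, rfl⟩
            · right
              have hex2 : ∃ i, t i ≠ s i := by
                by_contra hc
                push Not at hc
                exact hts2 (funext hc)
              obtain ⟨i1, hi1, hmin⟩ := C4_min _ hex2
              have hli1 : l < i1 := by
                by_contra hc
                exact hi1 (hall i1 (not_lt.1 hc))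
              have hki1 : k < i1 := lt_of_le_of_lt hjl hli1
              apply C4_lt s t k k i1
              · intro i hi
                have h5 : t i = s i := not_not.1 (hmin i hi)
                unfold C4_uv
                rw [h5]
              · rw [C4_uv_gt t hki1, C4_uv_gt s hki1]
                have h6 := lt_of_le_of_ne (hts i1) hi1
                exact_mod_cast h6
          · exfalso
            exact (mem_AA_inr.1 hq).2 (hX.down s hsX _ (up_mono ht k)
              (up_le hs hts (by omega : t k < s k)))
        · -- `t j = s j + 1`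
          right
          have hjk : j < k := by
            rcases hB with h1 | h1
            · have hkj2 : k = j := le_antisymm h1.1 hkj
              rw [hkj2] at h1
              omega
            · exact lt_of_le_of_lt hjl h1.1
          apply C4_lt s t j k j
          · intro i hi
            rw [C4_uv_lt t (hi.trans hjk), C4_uv_lt s hi, hbef i hi]
          · rw [C4_uv_lt t hjk, C4_uv_eq, htj]
            push_cast
            omega

end Pool.Agent.LibHB64
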