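import Pool.Agent.LibHB64.Defs

set_option autoImplicit false

/-!
Definitions for the construction of shellable balls (block CO). Positions are natural numbers; the `i`-th pair of
`s : Fin m → ℕ` (monotone, the shifts) consists of `lf s i = 2 i + 2 + s i` and `rt s i = lf s i + 1`. The facets of the
squeezed ball are `sg o s = C ∪ pairs`, `C = {1}` for `o = 0` and `C = {0, 1}` for `o = 1`, `s` in an ideal `X`. The facets
of its boundary are indexed by pairs `(s, Sum.inl x)` (lower facets, `x ∈ Zt o s` is removed from `sg o s`) and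
`(s, Sum.inr j)` (upper facets, `lf s j` is removed).
-/

namespace Pool.Agent.LibHB64

open Finset

/-- shelling data: `A` the index set of the facets, `F i` the facets, `R i` the restrictions, `key` the order -/
structure SData {ι V κ : Type*} [DecidableEq V] [LinearOrder κ] (d : ℕ) (A : Finset ι) (F R : ι → Finset V)
    (key : ι → κ) : Prop where
  ne : A.Nonempty
  card : ∀ i ∈ A, (F i).card = d
  sub : ∀ i ∈ A, R i ⊆ F i
  cont : ∀ i ∈ A, ∀ j ∈ A, R i ⊆ F j → i = j ∨ key i < key j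
  step : ∀ i ∈ A, ∀ r ∈ R i, ∃ j ∈ A, key j < key i ∧ (F i).erase r ⊆ F j

variable {m : ℕ}

/-- the left element of the `i`-th pair -/
def lf (s : Fin m → ℕ) (i : Fin m) : ℕ := 2 * (i : ℕ) + 2 + s i

/-- the right element of the `i`-th pair -/
def rt (s : Fin m → ℕ) (i : Fin m) : ℕ := 2 * (i : ℕ) + 3 + s i

/-- the facet of the squeezed ball -/
def sg (o : ℕ) (s : Fin m → ℕ) : Finset ℕ := Finset.Icc (1 - o) 1 ∪ (univ.image (lf s) ∪ univ.image (rt s))

/-- the elements whose removal gives a lower facet: the elements of `C` and the right elements of unmoved pairs -/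
def Zt (o : ℕ) (s : Fin m → ℕ) : Finset ℕ := Finset.Icc (1 - o) 1 ∪ (univ.filter fun i => s i = 0).image (rt s)

/-- the least monotone shift vector above `s` with a larger `j`-th entry -/
def up (s : Fin m → ℕ) (j : Fin m) : Fin m → ℕ := fun i => if i < j then s i else max (s i) (s j + 1)

/-- the largest monotone shift vector below `s` with a smaller `j`-th entry (used for `0 < s j`) -/
def dn (s : Fin m → ℕ) (j : Fin m) : Fin m → ℕ := fun i => if i ≤ j then min (s i) (s j - 1) else s i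

/-- an ideal of monotone shift vectors -/
structure IsId (X : Finset (Fin m → ℕ)) : Prop where
  ne : X.Nonempty
  mono : ∀ s ∈ X, Monotone s
  down : ∀ s ∈ X, ∀ t, Monotone t → t ≤ s → t ∈ X

/-- `y` comes after `x` in the order `1, 3, 5, ..., 0` -/
def aft (x y : ℕ) : Prop := x ≠ 0 ∧ (y = 0 ∨ x < y)

instance : DecidableRel aft := fun _ _ => inferInstanceAs (Decidable (_ ∧ _))

/-- the indices of the facets of the boundary -/
def AA (X : Finset (Fin m → ℕ)) (o : ℕ) : Finset ((Fin m → ℕ) × (ℕ ⊕ Fin m)) :=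
  (X.biUnion fun s => (Zt o s).image fun x => (s, Sum.inl x)) ∪
    X.biUnion fun s => (univ.filter fun j => up s j ∉ X).image fun j => (s, Sum.inr j)

/-- the indices of the lower facets -/
def LL (X : Finset (Fin m → ℕ)) (o : ℕ) : Finset ((Fin m → ℕ) × ℕ) :=
  X.biUnion fun s => (Zt o s).image fun x => (s, x)

/-- the removed element -/
def vx (p : (Fin m → ℕ) × (ℕ ⊕ Fin m)) : ℕ := Sum.elim (fun x => x) (fun j => lf p.1 j) p.2

/-- the facet with the index `p` -/
def FF (o : ℕ) (p : (Fin m → ℕ) × (ℕ ⊕ Fin m)) : Finset ℕ := (sg o p.1).erase (vx p)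

/-- the restriction of the facet `p` in the backward order -/
def Rb (o : ℕ) (p : (Fin m → ℕ) × (ℕ ⊕ Fin m)) : Finset ℕ :=
  Sum.elim (fun x => univ.image (lf p.1) ∪ (Zt o p.1).filter fun y => aft x y)
    (fun j => ((univ.filter fun i => i < j).image (lf p.1)) ∪ (univ.filter fun i => p.1 j < p.1 i).image (rt p.1)) p.2

/-- the restriction of the facet `p` in the forward order -/
def Rf (o : ℕ) (p : (Fin m → ℕ) × (ℕ ⊕ Fin m)) : Finset ℕ := FF o p \ Rb o p

/-- the key of the upper facet `(s, j)` -/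
def uk (s : Fin m → ℕ) (j : Fin m) : Lex (Fin m → ℤ) :=
  toLex fun i => if i < j then 1 - 2 * (s i : ℤ) else if i = j then -(2 * (s i : ℤ)) else (s i : ℤ)

/-- the key of the facet `p` (the backward order): the upper facets first -/
def kb (p : (Fin m → ℕ) × (ℕ ⊕ Fin m)) : ℤ ×ₗ (Lex (Fin m → ℤ) ×ₗ ℤ) :=
  Sum.elim (fun x : ℕ => toLex (1, toLex (toLex (fun i => -(p.1 i : ℤ)),
      if x = 0 then -(2 * (m : ℤ) + 4) else -(x : ℤ))))
    (fun j => toLex (0, toLex (uk p.1 j, 0))) p.2

/-- the degree of the lower facet `(s, x)`: the size of its forward restriction -/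
def dgr (s : Fin m → ℕ) (x : ℕ) : ℕ :=
  if x = 0 then m + 1 else (univ.filter fun i => 0 < s i).card + (x - 1) / 2

/-! ### basic facts -/

variable {s t : Fin m → ℕ} {o : ℕ} {X : Finset (Fin m → ℕ)}

theorem mem_sg {y : ℕ} : y ∈ sg o s ↔ (1 - o ≤ y ∧ y ≤ 1) ∨ (∃ i, y = lf s i) ∨ ∃ i, y = rt s i := by
  simp only [sg, mem_union, mem_Icc, mem_image, mem_univ, true_and, eq_comm]

theorem mem_Zt {y : ℕ} : y ∈ Zt o s ↔ (1 - o ≤ y ∧ y ≤ 1) ∨ ∃ i, s i = 0 ∧ y = rt s i := by
  simp only [Zt, mem_union, mem_Icc, mem_image, mem_filter, mem_univ, true_and, eq_comm]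

theorem lf_mem (i : Fin m) : lf s i ∈ sg o s := mem_sg.2 (Or.inr (Or.inl ⟨i, rfl⟩))

theorem rt_mem (i : Fin m) : rt s i ∈ sg o s := mem_sg.2 (Or.inr (Or.inr ⟨i, rfl⟩))

theorem Zt_sub {y : ℕ} (h : y ∈ Zt o s) : y ∈ sg o s := by
  rcases mem_Zt.1 h with h | ⟨i, _, h⟩
  · exact mem_sg.2 (Or.inl h)
  · exact mem_sg.2 (Or.inr (Or.inr ⟨i, h⟩))

theorem rt_lt_lf (hs : Monotone s) {i j : Fin m} (h : i < j) : rt s i < lf s j := by
  have h1 := hs h.le
  have h2 : (i : ℕ) < j := h
  unfold rt lf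
  omega

theorem lf_lt_lf (hs : Monotone s) {i j : Fin m} (h : i < j) : lf s i < lf s j := by
  have h1 := hs h.le
  have h2 : (i : ℕ) < j := h
  unfold lf
  omega

theorem rt_lt_rt (hs : Monotone s) {i j : Fin m} (h : i < j) : rt s i < rt s j := by
  have h1 := hs h.le
  have h2 : (i : ℕ) < j := h
  unfold rt
  omega

theorem lf_lt_rt (i : Fin m) : lf s i < rt s i := by
  unfold rt lf
  omega

theorem two_le_lf (i : Fin m) : 2 ≤ lf s i := by
  unfold lf
  omega

theorem three_le_rt (i : Fin m) : 3 ≤ rt s i := by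
  unfold rt
  omega

theorem lf_inj (hs : Monotone s) {i j : Fin m} (h : lf s i = lf s j) : i = j := by
  rcases lt_trichotomy i j with h1 | h1 | h1
  · exact absurd h (lf_lt_lf hs h1).ne
  · exact h1
  · exact absurd h (lf_lt_lf hs h1).ne'

theorem rt_inj (hs : Monotone s) {i j : Fin m} (h : rt s i = rt s j) : i = j := by
  rcases lt_trichotomy i j with h1 | h1 | h1
  · exact absurd h (rt_lt_rt hs h1).ne
  · exact h1
  · exact absurd h (rt_lt_rt hs h1).ne'

theorem lf_ne_rt (hs : Monotone s) (i j : Fin m) : lf s i ≠ rt s j := by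
  rcases lt_trichotomy i j with h1 | h1 | h1
  · exact ((lf_lt_lf hs h1).trans (lf_lt_rt j)).ne
  · subst h1
    exact (lf_lt_rt i).ne
  · exact (rt_lt_lf hs h1).ne'

theorem mem_AA_inl {x : ℕ} : (s, Sum.inl x) ∈ AA X o ↔ s ∈ X ∧ x ∈ Zt o s := by
  simp only [AA, mem_union, mem_biUnion, mem_image, mem_filter, mem_univ, true_and, Prod.mk.injEq, reduceCtorEq,
    and_false, exists_false, or_false, Sum.inl.injEq]
  constructor
  · rintro ⟨a, ha, b, hb, rfl, rfl⟩
    exact ⟨ha, hb⟩
  · rintro ⟨ha, hb⟩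
    exact ⟨s, ha, x, hb, rfl, rfl⟩

theorem mem_AA_inr {j : Fin m} : (s, Sum.inr j) ∈ AA X o ↔ s ∈ X ∧ up s j ∉ X := by
  simp only [AA, mem_union, mem_biUnion, mem_image, mem_filter, mem_univ, true_and, Prod.mk.injEq, reduceCtorEq,
    and_false, exists_false, false_or, Sum.inr.injEq]
  constructor
  · rintro ⟨a, ha, b, hb, rfl, rfl⟩
    exact ⟨ha, hb⟩
  · rintro ⟨ha, hb⟩
    exact ⟨s, ha, j, hb, rfl, rfl⟩

theorem mem_LL {x : ℕ} : (s, x) ∈ LL X o ↔ s ∈ X ∧ x ∈ Zt o s := by
  simp only [LL, mem_biUnion, mem_image, Prod.mk.injEq]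
  constructor
  · rintro ⟨a, ha, b, hb, rfl, rfl⟩
    exact ⟨ha, hb⟩
  · rintro ⟨ha, hb⟩
    exact ⟨s, ha, x, hb, rfl, rfl⟩

theorem up_mono (hs : Monotone s) (j : Fin m) : Monotone (up s j) := by
  intro a b hab
  have h1 := hs hab
  simp only [up]
  split_ifs with h2 h3 h3
  · exact h1
  · exact h1.trans (le_max_left _ _)
  · exact absurd (lt_of_le_of_lt hab h3) h2
  · exact max_le_max h1 le_rfl

theorem le_up (s : Fin m → ℕ) (j : Fin m) : s ≤ up s j := by
  intro a
  simp only [up]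
  split_ifs
  · exact le_rfl
  · exact le_max_left _ _

theorem lt_up (s : Fin m → ℕ) (j : Fin m) : s j < up s j j := by
  simp [up]

theorem up_le (ht : Monotone t) {j : Fin m} (h : s ≤ t) (hj : s j < t j) : up s j ≤ t := by
  intro a
  simp only [up]
  split_ifs with h2
  · exact h a
  · exact max_le (h a) (hj.trans_le (ht (not_lt.1 h2)))

theorem dn_mono (hs : Monotone s) (j : Fin m) : Monotone (dn s j) := by
  intro a b hab
  have h1 := hs hab
  simp only [dn]
  split_ifs with h2 h3 h3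
  · exact min_le_min h1 le_rfl
  · exact (min_le_left _ _).trans h1
  · exact absurd (hab.trans h3) h2
  · exact h1

theorem dn_le (s : Fin m → ℕ) (j : Fin m) : dn s j ≤ s := by
  intro a
  simp only [dn]
  split_ifs
  · exact min_le_left _ _
  · exact le_rfl

end Pool.Agent.LibHB64
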