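import Pool.Agent.LibHB64.CODefs
import Pool.Agent.LibHB64.COG2
import Pool.Agent.LibHB64.COG3

set_option autoImplicit false

/-!
Row F1. Neighbours through a right element, and through an element of `C`.
PLAN er_base. All `lf s i`, `rt s i` (`≥ 2`) are in `sg o t`: `lefts` gives `t i = s i` or `t i + 1 = s i`, `rt_le` (`P = True`) gives `s i ≤ t i`.
PLAN er_rt. All `lf s k` are in `sg o t` (`lf_ne_rt`), so by `lefts` `t k = s k` or `t k + 1 = s k`. For `k > i`, `rt s k ∈ sg o t` (`rt_inj`), so `rt_le`
with `P k := i < k` gives `t k = s k`. For `k < i`, `rt s k ∈ sg o t`. CLAIM: if `k < i` and `t k + 1 = s k` then `t (k+1) + 1 = s (k+1)` and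
`s (k+1) = s k`: `rt s k = 2 k + 3 + s k` is `> rt t k`, and it is in `sg o t`, so it is `lf t k'` or `rt t k'` for some `k' ≥ k + 1`, so
`lf t (k+1) ≤ rt s k`, i.e. `2 k + 4 + t (k+1) ≤ 2 k + 3 + s k`, so `t (k+1) + 1 ≤ s k ≤ s (k+1)`, with `t (k+1) ≥ s (k+1) - 1` equality everywhere.
So if some `k ≤ i` has `t k + 1 = s k` then `t i + 1 = s i` and `s k = s i`. Hence: if `t i = s i` then `t = s`. If `t i + 1 = s i` then `0 < s i`
and `t = dn s i`: for `k ≤ i` with `s k = s i`: `t k ≤ t i = s i - 1`, so `t k = s i - 1`; for `k ≤ i` with `s k < s i`: `t k = s k` (claim), and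
`min (s k) (s i - 1) = s k`.
PLAN er_dn. `dn s i i = s i - 1 ≠ s i`. Every element of `(sg o s).erase (rt s i)` is in `sg o (dn s i)`: `C`; `lf s k`, `rt s k` for `k > i` or
`s k < s i` (there `dn s i k = s k`); for `k ≤ i`, `s k = s i` (so `dn s i k = s k - 1`): `lf s k = rt (dn s i) k`, and for `k < i`,
`rt s k = 2 k + 3 + s i = lf (dn s i) (k+1)` (as `s (k+1) = s i` by monotonicity).
-/

namespace Pool.Agent.LibHB64

open Finset

variable {m : ℕ} {s t : Fin m → ℕ} {o : ℕ} {X : Finset (Fin m → ℕ)}

theorem er_base (hs : Monotone s) (ht : Monotone t) {y : ℕ} (hy : y ≤ 1) (h : (sg o s).erase y ⊆ sg o t) : t = s := by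
  have h1 : ∀ i, lf s i ∈ sg o t := fun i => h (mem_erase.2 ⟨by have := two_le_lf (s := s) i; omega, lf_mem i⟩)
  have h2 : ∀ i, rt s i ∈ sg o t := fun i => h (mem_erase.2 ⟨by have := three_le_rt (s := s) i; omega, rt_mem i⟩)
  funext i
  have h3 := lefts hs ht h1 i
  have h4 := rt_le hs ht (fun _ => True) (fun _ _ _ _ => trivial) (fun i _ => h2 i) i trivial
  omega

private theorem F1_claim (hs : Monotone s) (ht : Monotone t) (i : Fin m) (h : (sg o s).erase (rt s i) ⊆ sg o t)
    (hL : ∀ k, t k = s k ∨ t k + 1 = s k) :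
    ∀ d : ℕ, ∀ k : Fin m, (k : ℕ) + d = i → t k + 1 = s k → t i + 1 = s i ∧ s k = s i := by
  intro d
  induction d with
  | zero =>
    intro k hk h1
    have : k = i := Fin.ext (by omega)
    subst this
    exact ⟨h1, rfl⟩
  | succ d ih =>
    intro k hk h1
    have hki : k < i := by
      rw [Fin.lt_def]; omega
    have hk1 : (k : ℕ) + 1 < m := by have := i.2; omega
    let k' : Fin m := ⟨(k : ℕ) + 1, hk1⟩
    have hk' : (k' : ℕ) = k + 1 := rfl
    have hkk' : k ≤ k' := by rw [Fin.le_def]; omega
    have hmem : rt s k ∈ sg o t := h (mem_erase.2 ⟨fun he => hki.ne (rt_inj hs he), rt_mem k⟩)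
    have hs1 := hs hkk'
    have key : lf t k' ≤ rt s k := by
      have aux : ∀ k'' : Fin m, (rt s k = lf t k'' ∨ rt s k = rt t k'') → lf t k' ≤ rt s k := by
        intro k'' hk''
        rcases lt_or_ge k k'' with h5 | h5
        · have h6 : k' ≤ k'' := by
            rw [Fin.le_def]; have : (k : ℕ) < k'' := h5; omega
          have h7 := ht h6
          have h8 : (k' : ℕ) ≤ k'' := h6
          have h9 : lf t k' ≤ lf t k'' := by unfold lf; omega
          have h10 := lf_lt_rt (s := t) k''
          rcases hk'' with h11 | h11 <;> omega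
        · exfalso
          have h7 := ht h5
          have h8 : (k'' : ℕ) ≤ k := h5
          have h9 : rt t k'' ≤ rt t k := by unfold rt; omega
          have h10 := lf_lt_rt (s := t) k''
          have h12 : rt t k < rt s k := by unfold rt; omega
          rcases hk'' with h11 | h11 <;> omega
      rcases mem_sg.1 hmem with h5 | ⟨k'', h5⟩ | ⟨k'', h5⟩
      · have := three_le_rt (s := s) k
        omega
      · exact aux k'' (Or.inl h5)
      · exact aux k'' (Or.inr h5)
    have h13 : t k' + 1 ≤ s k := by
      unfold lf rt at key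
      omega
    have h14 := hL k'
    obtain ⟨h15, h16⟩ := ih k' (by omega) (by omega)
    exact ⟨h15, by omega⟩

theorem er_rt (hs : Monotone s) (ht : Monotone t) (i : Fin m) (h : (sg o s).erase (rt s i) ⊆ sg o t) :
    t = s ∨ (0 < s i ∧ t = dn s i) := by
  have h1 : ∀ k, lf s k ∈ sg o t := fun k => h (mem_erase.2 ⟨lf_ne_rt hs k i, lf_mem k⟩)
  have hL := lefts hs ht h1
  have hgt : ∀ k, i < k → s k ≤ t k := rt_le hs ht (fun k => i < k) (fun a b hab ha => lt_of_lt_of_le ha hab)
    (fun k hk => h (mem_erase.2 ⟨fun he => hk.ne' (rt_inj hs he), rt_mem k⟩))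
  have hcl : ∀ k, k ≤ i → t k + 1 = s k → t i + 1 = s i ∧ s k = s i := fun k hk hk1 =>
    F1_claim hs ht i h hL ((i : ℕ) - k) k (by have : (k : ℕ) ≤ i := hk; omega) hk1
  rcases hL i with h2 | h2
  · left
    funext k
    rcases lt_or_ge i k with h3 | h3
    · have := hgt k h3
      have := hL k
      omega
    · rcases hL k with h4 | h4
      · exact h4
      · have := hcl k h3 h4
        omega
  · right
    refine ⟨by omega, ?_⟩
    funext k
    simp only [dn]
    split_ifs with h3
    · rcases hL k with h4 | h4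
      · have h5 := ht h3
        rw [min_eq_left (by omega)]
        exact h4
      · have h5 := (hcl k h3 h4).2
        rw [min_eq_right (by omega)]
        omega
    · have := hgt k (not_le.1 h3)
      have := hL k
      omega

theorem er_dn (hs : Monotone s) (i : Fin m) (h : 0 < s i) :
    dn s i ≠ s ∧ (sg o s).erase (rt s i) ⊆ sg o (dn s i) := by
  constructor
  · intro he
    have h1 := congrFun he i
    simp only [dn, le_refl, if_true] at h1
    omega
  · have heq : ∀ k, (i < k ∨ s k < s i) → dn s i k = s k := by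
      intro k hk
      simp only [dn]
      split_ifs with h3
      · rcases hk with h4 | h4
        · exact absurd h4 (not_lt.2 h3)
        · exact min_eq_left (by omega)
      · rfl
    have hlow : ∀ k, k ≤ i → s k = s i → dn s i k = s i - 1 := by
      intro k hk h4
      simp only [dn, if_pos hk]
      rw [h4]
      exact min_eq_right (by omega)
    intro z hz
    obtain ⟨hz1, hz2⟩ := mem_erase.1 hz
    rcases mem_sg.1 hz2 with h3 | ⟨k, rfl⟩ | ⟨k, rfl⟩
    · exact mem_sg.2 (Or.inl h3)
    · by_cases h4 : i < k ∨ s k < s i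
      · have h5 := heq k h4
        have h6 : lf s k = lf (dn s i) k := by unfold lf; rw [h5]
        rw [h6]
        exact lf_mem k
      · have h7 : k ≤ i := not_lt.1 fun h => h4 (Or.inl h)
        have h8 := hs h7
        have h9 : s k = s i := by
          have := not_lt.1 fun h => h4 (Or.inr h)
          omega
        have h5 := hlow k h7 h9
        have h6 : lf s k = rt (dn s i) k := by unfold lf rt; rw [h5]; omega
        rw [h6]
        exact rt_mem k
    · by_cases h4 : i < k ∨ s k < s i
      · have h5 := heq k h4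
        have h6 : rt s k = rt (dn s i) k := by unfold rt; rw [h5]
        rw [h6]
        exact rt_mem k
      · have h7 : k ≤ i := not_lt.1 fun h => h4 (Or.inl h)
        have h8 := hs h7
        have h9 : s k = s i := by
          have := not_lt.1 fun h => h4 (Or.inr h)
          omega
        have h10 : k < i := lt_of_le_of_ne h7 fun he => hz1 (by rw [he])
        have h11 : (k : ℕ) < i := h10
        have hk1 : (k : ℕ) + 1 < m := by have := i.2; omega
        have hk'i : (⟨(k : ℕ) + 1, hk1⟩ : Fin m) ≤ i := by
          rw [Fin.le_def]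
          change (k : ℕ) + 1 ≤ i
          omega
        have hkk' : k ≤ (⟨(k : ℕ) + 1, hk1⟩ : Fin m) := by
          rw [Fin.le_def]
          change (k : ℕ) ≤ k + 1
          omega
        have h12 := hs hkk'
        have h13 := hs hk'i
        have h14 := hlow ⟨(k : ℕ) + 1, hk1⟩ hk'i (by omega)
        have h6 : rt s k = lf (dn s i) ⟨(k : ℕ) + 1, hk1⟩ := by
          unfold lf rt
          rw [h14]
          change 2 * (k : ℕ) + 3 + s k = 2 * ((k : ℕ) + 1) + 2 + (s i - 1)
          omega
        rw [h6]
        exact lf_mem _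

end Pool.Agent.LibHB64
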