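import Pool.Agent.LibHB64.CODefs
import Pool.Agent.LibHB64.COG2
import Pool.Agent.LibHB64.COG3

set_option autoImplicit false

/-!
Row F2. Neighbours through a left element.
PLAN er_lf. Let `l` be the largest index with `s l = s j` (`l ≥ j`; `Finset.exists_max_image` or `Finset.max'`), so `s l < s i` for `i > l`. All `rt s i` are in
`sg o t` and `lf s i` for `i ≠ j`. By `mixed`: `t i = s i` or `s i + 1` for `i ≤ l`, `t i = s i` or `t i + 1 = s i` for `i > l`. `rt_le` with `P i := l < i`
(all `rt s i ∈ sg o t`) gives `t i = s i` for `i > l`. CLAIM: if `i ≤ l`, `i ≠ j` and `t i = s i + 1` then `0 < i` and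
`t (i-1) = s i + 1` (so `s (i-1) = s i` or ...: `t (i-1) ≤ s (i-1) + 1 ≤ s i + 1`, so `s (i-1) = s i` and `t (i-1) = s (i-1) + 1`): `lf s i = 2 i + 2 + s i` is in
`sg o t`, it is `< lf t i`, so it is `lf t k` or `rt t k` with `k < i`, so `rt t (i-1) ≥ lf s i` (`rt t k ≤ rt t (i-1)`), i.e.
`2 (i-1) + 3 + t (i-1) ≥ 2 i + 2 + s i`. Consequences: for `i < j`: `t i = s i + 1` would go down to index `0`, impossible; so `t i = s i`. For
`j < i ≤ l`: `t i = s i + 1` implies `t j = s j + 1`; conversely `t j = s j + 1` implies `t i ≥ s j + 1 = s i + 1`. So `t = s` (if `t j = s j`) or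
`t = up s j` (`up s j i = s i` for `i < j`; `= s j + 1` for `j ≤ i ≤ l`; `= s i` for `i > l` as `s i ≥ s j + 1`).
PLAN er_up. Every element of `(sg o s).erase (lf s j)` is in `sg o (up s j)`: `C`; both elements of the pair `i` if `up s j i = s i`; for `i ≥ j` with
`s i = s j` (so `up s j i = s i + 1`): `rt s i = lf (up s j) i`; and for `i > j`: `lf s i = 2 i + 2 + s j = rt (up s j) (i-1)`.
-/

namespace Pool.Agent.LibHB64

open Finset

variable {m : ℕ} {s t : Fin m → ℕ} {o : ℕ} {X : Finset (Fin m → ℕ)}

theorem er_lf (hs : Monotone s) (ht : Monotone t) (j : Fin m) (h : (sg o s).erase (lf s j) ⊆ sg o t) :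
    t = s ∨ t = up s j := by
  classical
  -- the largest index with the same shift
  obtain ⟨l, hl1, hl2⟩ : ∃ l : Fin m, s l = s j ∧ ∀ i, s i = s j → i ≤ l := by
    have hne : (univ.filter fun i => s i = s j).Nonempty := ⟨j, by simp⟩
    refine ⟨(univ.filter fun i => s i = s j).max' hne, ?_, ?_⟩
    · have := Finset.max'_mem _ hne
      simpa using this
    · intro i hi
      exact Finset.le_max' _ i (by simpa using hi)
  have hjl : j ≤ l := hl2 j rfl
  have hgt : ∀ i, l < i → s j < s i := by
    intro i hi
    have h1 := hs hi.le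
    rcases Nat.lt_or_ge (s j) (s i) with h2 | h2
    · exact h2
    · exact absurd (hl2 i (by omega)) (not_le.2 hi)
  have hrt : ∀ i, rt s i ∈ sg o t := fun i => h (mem_erase.2 ⟨(lf_ne_rt hs j i).symm, rt_mem i⟩)
  have hlf : ∀ i, i ≠ j → lf s i ∈ sg o t := fun i hi =>
    h (mem_erase.2 ⟨fun h1 => hi (lf_inj hs h1), lf_mem i⟩)
  have hmix := mixed (o := o) hs ht l (fun i hi => by rw [hl1]; exact hgt i hi) (fun i _ => hrt i)
    (fun i hi => hlf i (ne_of_gt (lt_of_le_of_lt hjl hi)))
  have hle := rt_le (o := o) hs ht (fun i => l < i) (fun i k hik hi => lt_of_lt_of_le hi hik) (fun i _ => hrt i)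
  have hbig : ∀ i, l < i → t i = s i := by
    intro i hi
    have h1 := (hmix i).2 hi
    have h2 := hle i hi
    omega
  -- the claim
  have hpred : ∀ i, i ≤ l → i ≠ j → t i = s i + 1 → ∃ k : Fin m, (k : ℕ) + 1 = i ∧ s k = s i ∧ t k = s k + 1 := by
    intro i hil hij hti
    have h1 := hlf i hij
    have hk : ∃ k : Fin m, k < i ∧ lf s i ≤ rt t k := by
      rcases mem_sg.1 h1 with h2 | ⟨k, hk⟩ | ⟨k, hk⟩
      · have := two_le_lf (s := s) i
        omega
      · refine ⟨k, ?_, ?_⟩
        · by_contra hn
          have h3 : i ≤ k := not_lt.1 hn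
          have h4 := ht h3
          have h5 : (i : ℕ) ≤ k := h3
          unfold lf at hk
          omega
        · rw [hk]
          exact (lf_lt_rt k).le
      · refine ⟨k, ?_, hk.le⟩
        by_contra hn
        have h3 : i ≤ k := not_lt.1 hn
        have h4 := ht h3
        have h5 : (i : ℕ) ≤ k := h3
        unfold lf rt at hk
        omega
    obtain ⟨k, hki, hk⟩ := hk
    have hki' : (k : ℕ) < i := hki
    have him : (i : ℕ) - 1 < m := by have := i.2; omega
    refine ⟨⟨(i : ℕ) - 1, him⟩, ?_, ?_⟩
    · show (i : ℕ) - 1 + 1 = i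
      omega
    · set p : Fin m := ⟨(i : ℕ) - 1, him⟩ with hp
      have hpv : (p : ℕ) = (i : ℕ) - 1 := rfl
      have hkp : k ≤ p := by
        show (k : ℕ) ≤ (p : ℕ)
        omega
      have hpi : p ≤ i := by
        show (p : ℕ) ≤ (i : ℕ)
        omega
      have h3 := ht hkp
      have h4 := hs hpi
      have h5 := (hmix p).1 (hpi.trans hil)
      have h6 : (k : ℕ) ≤ (p : ℕ) := hkp
      unfold lf rt at hk
      constructor <;> omega
  have hlow : ∀ n : ℕ, ∀ i : Fin m, (i : ℕ) = n → i < j → t i = s i := by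
    intro n
    induction n with
    | zero =>
      intro i hi hij
      rcases (hmix i).1 (hij.le.trans hjl) with h1 | h1
      · exact h1
      · obtain ⟨k, hk, -⟩ := hpred i (hij.le.trans hjl) hij.ne h1
        omega
    | succ n ih =>
      intro i hi hij
      rcases (hmix i).1 (hij.le.trans hjl) with h1 | h1
      · exact h1
      · obtain ⟨k, hk, hk1, hk2⟩ := hpred i (hij.le.trans hjl) hij.ne h1
        have hkj : k < j := by
          have : (i : ℕ) < j := hij
          show (k : ℕ) < (j : ℕ)
          omega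
        have := ih k (by omega) hkj
        omega
  have hmid : ∀ n : ℕ, ∀ i : Fin m, (i : ℕ) = n → j < i → i ≤ l → t i = s i + 1 → t j = s j + 1 := by
    intro n
    induction n with
    | zero =>
      intro i hi hji
      have : (j : ℕ) < i := hji
      omega
    | succ n ih =>
      intro i hi hji hil h1
      obtain ⟨k, hk, hk1, hk2⟩ := hpred i hil hji.ne' h1
      have hji' : (j : ℕ) < i := hji
      rcases Nat.lt_or_ge (j : ℕ) k with h2 | h2
      · have hkl : k ≤ l := by
          have : (i : ℕ) ≤ l := hil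
          show (k : ℕ) ≤ (l : ℕ)
          omega
        exact ih k (by omega) h2 hkl hk2
      · have hkj : k = j := Fin.ext (by omega)
        rw [hkj] at hk2
        exact hk2
  have hsame : ∀ i, j ≤ i → i ≤ l → s i = s j := by
    intro i h1 h2
    have h3 := hs h1
    have h4 := hs h2
    omega
  rcases (hmix j).1 hjl with hj | hj
  · left
    funext i
    rcases lt_trichotomy i j with h1 | h1 | h1
    · exact hlow _ i rfl h1
    · rw [h1]; exact hj
    · rcases le_or_gt i l with h2 | h2
      · rcases (hmix i).1 h2 with h3 | h3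
        · exact h3
        · have := hmid _ i rfl h1 h2 h3
          omega
      · exact hbig i h2
  · right
    funext i
    unfold up
    split_ifs with h1
    · exact hlow _ i rfl h1
    · have h1' : j ≤ i := not_lt.1 h1
      rcases le_or_gt i l with h2 | h2
      · have h3 := hsame i h1' h2
        have h4 := ht h1'
        have h5 := (hmix i).1 h2
        rw [h3, max_eq_right (by omega)]
        omega
      · have h3 := hgt i h2
        rw [max_eq_left (by omega)]
        exact hbig i h2

theorem er_up (hs : Monotone s) (j : Fin m) : (sg o s).erase (lf s j) ⊆ sg o (up s j) := by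
  intro y hy
  obtain ⟨hy1, hy2⟩ := mem_erase.1 hy
  rcases mem_sg.1 hy2 with h | ⟨i, rfl⟩ | ⟨i, rfl⟩
  · exact mem_sg.2 (Or.inl h)
  · have hij : i ≠ j := fun h => hy1 (by rw [h])
    rcases lt_or_gt_of_ne hij with h1 | h1
    · refine mem_sg.2 (Or.inr (Or.inl ⟨i, ?_⟩))
      unfold lf up
      rw [if_pos h1]
    · have h2 := hs h1.le
      rcases Nat.lt_or_ge (s j) (s i) with h3 | h3
      · refine mem_sg.2 (Or.inr (Or.inl ⟨i, ?_⟩))
        unfold lf up
        rw [if_neg (not_lt.2 h1.le), max_eq_left (by omega)]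
      · have hji : (j : ℕ) < i := h1
        have him : (i : ℕ) - 1 < m := by have := i.2; omega
        refine mem_sg.2 (Or.inr (Or.inr ⟨⟨(i : ℕ) - 1, him⟩, ?_⟩))
        set p : Fin m := ⟨(i : ℕ) - 1, him⟩ with hp
        have hpv : (p : ℕ) = (i : ℕ) - 1 := rfl
        have hjp : j ≤ p := by
          show (j : ℕ) ≤ (p : ℕ)
          omega
        have hpi : p ≤ i := by
          show (p : ℕ) ≤ (i : ℕ)
          omega
        have h4 := hs hjp
        have h5 := hs hpi
        unfold lf rt up
        rw [if_neg (not_lt.2 hjp), max_eq_right (by omega)]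
        omega
  · rcases lt_or_ge i j with h1 | h1
    · refine mem_sg.2 (Or.inr (Or.inr ⟨i, ?_⟩))
      unfold rt up
      rw [if_pos h1]
    · have h2 := hs h1
      rcases Nat.lt_or_ge (s j) (s i) with h3 | h3
      · refine mem_sg.2 (Or.inr (Or.inr ⟨i, ?_⟩))
        unfold rt up
        rw [if_neg (not_lt.2 h1), max_eq_left (by omega)]
      · refine mem_sg.2 (Or.inr (Or.inl ⟨i, ?_⟩))
        unfold lf rt up
        rw [if_neg (not_lt.2 h1), max_eq_right (by omega)]
        omega

end Pool.Agent.LibHB64
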