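import Pool.Agent.LibHB64.CODefs
import Pool.Agent.LibHB64.COA6
import Pool.Agent.LibHB64.COF1
import Pool.Agent.LibHB64.COF2

set_option autoImplicit false

/-!
Row F3. The index set `AA X o` describes the boundary of the squeezed ball, and the boundary is closed.
PLAN free_iff. From left to right: `x ∈ sg o s` is in `C` (then `x ∈ Zt o s`), or `rt s i` (if `0 < s i`, then `dn s i ∈ X` (`dn_mono`, `dn_le`, `hX.down`)
contradicts freeness by `er_dn`; so `s i = 0` and `x ∈ Zt o s`), or `lf s j` (if `up s j ∈ X` then `er_up`, `lt_up` contradict freeness). From right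
to left: `er_base`, `er_rt` (with `s i = 0`), `er_lf` (with `up s j ∉ X`).
PLAN card_FF: `card_sg`, `Finset.card_erase_of_mem`, `vx p ∈ sg o p.1` (`Zt_sub`, `lf_mem`).
PLAN AA_two. `bdry_two` (A6) with `S = sg o`, `R s = (univ.filter fun i => 0 < s i).image (rt s)`, `d = 2 m + o` (`card_sg`); `h1`: `rt_le` with `P i := 0 < s i`
(monotone), and `s i = 0 ≤ t i` otherwise; `h2`: `r = rt s i`, `t = dn s i`, `er_dn`, `er_rt`. `E` = the image of `AA X o` under
`p ↦ (p.1, vx p)` (injective on `AA X o`: `inl x` with `x = lf s j` is impossible, since `x ∈ Zt o s` is `≤ 1` or an `rt`: `lf_ne_rt`;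
`lf_inj`), `hE` is `free_iff`.
PLAN AA_nb. `ρ = (FF o p).erase v` has `2 m + o - 1` elements (`card_FF`), `p` is in the filter of `AA_two`, so the filter has two elements.
PLAN AA_three. The filter of `AA_two` has at most two elements.
-/

namespace Pool.Agent.LibHB64

open Finset

variable {m : ℕ} {s t : Fin m → ℕ} {o : ℕ} {X : Finset (Fin m → ℕ)}

theorem free_iff (hX : IsId X) (s : Fin m → ℕ) (x : ℕ) :
    (s ∈ X ∧ x ∈ sg o s ∧ ∀ t ∈ X, (sg o s).erase x ⊆ sg o t → t = s) ↔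
      (s ∈ X ∧ x ∈ Zt o s) ∨ ∃ j, s ∈ X ∧ up s j ∉ X ∧ x = lf s j := by
  constructor
  · rintro ⟨hs, hx, hfree⟩
    have hm := hX.mono s hs
    rcases mem_sg.1 hx with h | ⟨j, hj⟩ | ⟨i, hi⟩
    · exact Or.inl ⟨hs, mem_Zt.2 (Or.inl h)⟩
    · right
      refine ⟨j, hs, ?_, hj⟩
      intro hup
      have h1 := hfree (up s j) hup (by rw [hj]; exact er_up hm j)
      have h2 := lt_up s j
      rw [h1] at h2
      exact lt_irrefl _ h2
    · left
      refine ⟨hs, mem_Zt.2 (Or.inr ⟨i, ?_, hi⟩)⟩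
      rcases Nat.eq_zero_or_pos (s i) with h0 | h0
      · exact h0
      · exfalso
        obtain ⟨h1, h2⟩ := er_dn (o := o) hm i h0
        exact h1 (hfree (dn s i) (hX.down s hs _ (dn_mono hm i) (dn_le s i)) (by rw [hi]; exact h2))
  · rintro (⟨hs, hx⟩ | ⟨j, hs, hup, rfl⟩)
    · have hm := hX.mono s hs
      refine ⟨hs, Zt_sub hx, ?_⟩
      intro t ht hsub
      rcases mem_Zt.1 hx with h | ⟨i, hi, rfl⟩
      · exact er_base hm (hX.mono t ht) h.2 hsub
      · rcases er_rt hm (hX.mono t ht) i hsub with h | h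
        · exact h
        · omega
    · have hm := hX.mono s hs
      refine ⟨hs, lf_mem j, ?_⟩
      intro t ht hsub
      rcases er_lf hm (hX.mono t ht) j hsub with h | h
      · exact h
      · rw [h] at ht
        exact absurd ht hup

private theorem F3_vx {p : (Fin m → ℕ) × (ℕ ⊕ Fin m)} (hp : p ∈ AA X o) : p.1 ∈ X ∧ vx p ∈ sg o p.1 := by
  obtain ⟨s, x | j⟩ := p
  · have h := mem_AA_inl.1 hp
    exact ⟨h.1, Zt_sub h.2⟩
  · have h := mem_AA_inr.1 hp
    exact ⟨h.1, lf_mem j⟩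

private theorem F3_inj (hX : IsId X) :
    Set.InjOn (fun p : (Fin m → ℕ) × (ℕ ⊕ Fin m) => (p.1, vx p)) (AA X o : Set ((Fin m → ℕ) × (ℕ ⊕ Fin m))) := by
  have key : ∀ (s : Fin m → ℕ) (x : ℕ) (j : Fin m), s ∈ X → x ∈ Zt o s → x ≠ lf s j := by
    intro s x j hs hx hxj
    have hm := hX.mono s hs
    rcases mem_Zt.1 hx with h | ⟨i, _, h⟩
    · have := two_le_lf (s := s) j
      omega
    · exact lf_ne_rt hm j i (hxj.symm.trans h)
  rintro ⟨s, x | j⟩ hp ⟨t, y | k⟩ hq h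
  · simp only [vx, Sum.elim_inl, Prod.mk.injEq] at h
    obtain ⟨rfl, rfl⟩ := h
    rfl
  · simp only [vx, Sum.elim_inl, Sum.elim_inr, Prod.mk.injEq] at h
    obtain ⟨rfl, h⟩ := h
    have h1 := mem_AA_inl.1 (Finset.mem_coe.1 hp)
    exact absurd h (key s x k h1.1 h1.2)
  · simp only [vx, Sum.elim_inl, Sum.elim_inr, Prod.mk.injEq] at h
    obtain ⟨rfl, h⟩ := h
    have h1 := mem_AA_inl.1 (Finset.mem_coe.1 hq)
    exact absurd h.symm (key s y j h1.1 h1.2)
  · simp only [vx, Sum.elim_inr, Prod.mk.injEq] at h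
    obtain ⟨rfl, h⟩ := h
    have h1 := mem_AA_inr.1 (Finset.mem_coe.1 hp)
    rw [lf_inj (hX.mono s h1.1) h]

theorem card_FF (ho : o ≤ 1) (hX : IsId X) {p : (Fin m → ℕ) × (ℕ ⊕ Fin m)} (hp : p ∈ AA X o) :
    (FF o p).card = 2 * m + o := by
  obtain ⟨h1, h2⟩ := F3_vx hp
  rw [FF, Finset.card_erase_of_mem h2, card_sg ho (hX.mono _ h1)]
  omega

theorem AA_two (ho : o ≤ 1) (hX : IsId X) (ρ : Finset ℕ) (hρ : ρ.card + 1 = 2 * m + o) :
    ((AA X o).filter fun p => ρ ⊆ FF o p).card = 0 ∨ ((AA X o).filter fun p => ρ ⊆ FF o p).card = 2 := by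
  have key := bdry_two (X := X) (S := fun s => sg o s) (R := fun s => (univ.filter fun i => 0 < s i).image (rt s))
    (d := 2 * m + o) (fun s hs => card_sg ho (hX.mono s hs)) ?_ ?_ ?_
    ((AA X o).image fun p => (p.1, vx p)) ?_ ρ hρ
  · rw [Finset.filter_image, Finset.card_image_of_injOn] at key
    · exact key
    · exact (F3_inj hX).mono (Finset.coe_subset.2 (Finset.filter_subset _ _))
  · intro s _ r hr
    simp only [mem_image, mem_filter, mem_univ, true_and] at hr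
    obtain ⟨i, _, rfl⟩ := hr
    exact rt_mem i
  · intro s hs t ht hsub i
    rcases Nat.eq_zero_or_pos (s i) with h0 | h0
    · rw [h0]; exact Nat.zero_le _
    · refine rt_le (o := o) (hX.mono s hs) (hX.mono t ht) (fun i => 0 < s i) (fun i j hij h => h.trans_le (hX.mono s hs hij)) ?_ i h0
      intro i hi
      apply hsub
      simp only [mem_image, mem_filter, mem_univ, true_and]
      exact ⟨i, hi, rfl⟩
  · intro s hs r hr
    simp only [mem_image, mem_filter, mem_univ, true_and] at hr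
    obtain ⟨i, hi, rfl⟩ := hr
    have hm := hX.mono s hs
    obtain ⟨h1, h2⟩ := er_dn (o := o) hm i hi
    refine ⟨dn s i, hX.down s hs _ (dn_mono hm i) (dn_le s i), lt_of_le_of_ne (dn_le s i) h1, h2, ?_⟩
    intro u hu hsub
    rcases er_rt hm (hX.mono u hu) i hsub with h | h
    · exact Or.inl h
    · exact Or.inr h.2
  · rintro ⟨s, x⟩
    have h := free_iff (o := o) hX s x
    refine Iff.trans ?_ h.symm
    simp only [mem_image, Prod.mk.injEq]
    constructor
    · rintro ⟨⟨t, y | j⟩, hq, rfl, rfl⟩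
      · exact Or.inl (mem_AA_inl.1 hq)
      · have h1 := mem_AA_inr.1 hq
        exact Or.inr ⟨j, h1.1, h1.2, rfl⟩
    · rintro (h1 | ⟨j, h1, h2, rfl⟩)
      · exact ⟨(s, Sum.inl x), mem_AA_inl.2 h1, rfl, rfl⟩
      · exact ⟨(s, Sum.inr j), mem_AA_inr.2 ⟨h1, h2⟩, rfl, rfl⟩

theorem AA_nb (ho : o ≤ 1) (hX : IsId X) {p : (Fin m → ℕ) × (ℕ ⊕ Fin m)} (hp : p ∈ AA X o) {v : ℕ}
    (hv : v ∈ FF o p) : ∃ q ∈ AA X o, q ≠ p ∧ (FF o p).erase v ⊆ FF o q := by
  have hc := card_FF ho hX hp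
  have h1 : ((FF o p).erase v).card + 1 = 2 * m + o := by
    rw [Finset.card_erase_add_one hv, hc]
  have hmem : p ∈ (AA X o).filter fun q => (FF o p).erase v ⊆ FF o q :=
    mem_filter.2 ⟨hp, Finset.erase_subset _ _⟩
  rcases AA_two ho hX _ h1 with h | h
  · rw [Finset.card_eq_zero] at h
    rw [h] at hmem
    exact absurd hmem (Finset.notMem_empty _)
  · obtain ⟨q, hq, hqp⟩ := Finset.exists_mem_ne (by rw [h]; norm_num :
      1 < ((AA X o).filter fun q => (FF o p).erase v ⊆ FF o q).card) p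
    obtain ⟨h2, h3⟩ := mem_filter.1 hq
    exact ⟨q, h2, hqp, h3⟩

theorem AA_three (ho : o ≤ 1) (hX : IsId X) {ρ : Finset ℕ} (hρ : ρ.card + 1 = 2 * m + o)
    {p q r : (Fin m → ℕ) × (ℕ ⊕ Fin m)} (hp : p ∈ AA X o) (hq : q ∈ AA X o) (hr : r ∈ AA X o)
    (h1 : ρ ⊆ FF o p) (h2 : ρ ⊆ FF o q) (h3 : ρ ⊆ FF o r) : p = q ∨ p = r ∨ q = r := by
  by_contra hcon
  push Not at hcon
  obtain ⟨hpq, hpr, hqr⟩ := hcon
  have h4 : ({p, q, r} : Finset ((Fin m → ℕ) × (ℕ ⊕ Fin m))).card = 3 :=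
    Finset.card_eq_three.2 ⟨p, q, r, hpq, hpr, hqr, rfl⟩
  have h5 : ({p, q, r} : Finset ((Fin m → ℕ) × (ℕ ⊕ Fin m))) ⊆ (AA X o).filter fun p => ρ ⊆ FF o p := by
    intro z hz
    simp only [mem_insert, mem_singleton] at hz
    rw [mem_filter]
    rcases hz with rfl | rfl | rfl
    · exact ⟨hp, h1⟩
    · exact ⟨hq, h2⟩
    · exact ⟨hr, h3⟩
  have h6 := Finset.card_le_card h5
  rcases AA_two ho hX ρ hρ with h | h <;> omega

end Pool.Agent.LibHB64
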