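import Pool.Agent.LibHB64.CODefs
import Pool.Agent.LibHM88.CN

set_option autoImplicit false

/-!
Row N1. The ideal for `m = 3`.
PLAN mem_X3: unfold; `u = ![u 0, u 1, u 2]` (`Matrix.cons_val...`, `Fin.forall_fin_succ`); `u 0 ≤ u 1 ≤ u 2 < c` gives the ranges.
PLAN X3_id: `ne`: `![0,0,0]`; `mono`: `Fin` cases; `down`: `v ≤ u`, `v` monotone: if `v 1 ≠ 0` then `(v 2).choose 2 + v 1 ≤ (u 2).choose 2 + u 1 ≤ q` (`Nat.choose_le_choose`), if
`v 0 ≠ 0` similarly for the cubic condition.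
PLAN X3_card: by `deg`: `deg ≤ 0`: only `![0,0,0]`; `deg ≤ 1`: `![0,0,k]`, `k < c`; `deg ≤ 2`: additionally `![0,j,k]`, `1 ≤ j ≤ k`, `k.choose 2 + j ≤ q` (then `k < c` automatically, as
`q ≤ c.choose 2`): number `q` by `Pool.LibHM88.card_pairs`; all: additionally `![i,j,k]`, `1 ≤ i ≤ j ≤ k`, `(k+1).choose 3 + j.choose 2 + i ≤ s` (then the other
conditions hold by `K1`): number `s` by `Pool.LibHM88.card_trips`.
-/

namespace Pool.Agent.LibHB64

open Finset

/-- the compressed ideal with `1, c - 1, q, s` elements of the degrees `0, 1, 2, 3` -/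
def X3 (c q s : ℕ) : Finset (Fin 3 → ℕ) :=
  ((Finset.range c ×ˢ Finset.range c ×ˢ Finset.range c).filter fun p : ℕ × ℕ × ℕ => p.1 ≤ p.2.1 ∧ p.2.1 ≤ p.2.2 ∧
    (p.2.1 = 0 ∨ p.2.2.choose 2 + p.2.1 ≤ q) ∧
    (p.1 = 0 ∨ (p.2.2 + 1).choose 3 + p.2.1.choose 2 + p.1 ≤ s)).image fun p => ![p.1, p.2.1, p.2.2]

private theorem CON1_vec (u : Fin 3 → ℕ) : ![u 0, u 1, u 2] = u := by
  funext a
  fin_cases a <;> rfl

theorem mem_X3 {c q s : ℕ} {u : Fin 3 → ℕ} : u ∈ X3 c q s ↔ u 0 ≤ u 1 ∧ u 1 ≤ u 2 ∧ u 2 < c ∧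
    (u 1 = 0 ∨ (u 2).choose 2 + u 1 ≤ q) ∧ (u 0 = 0 ∨ (u 2 + 1).choose 3 + (u 1).choose 2 + u 0 ≤ s) := by
  unfold X3
  rw [mem_image]
  constructor
  · rintro ⟨⟨i, j, k⟩, hp, rfl⟩
    rw [mem_filter, mem_product, mem_product, mem_range, mem_range, mem_range] at hp
    obtain ⟨⟨h1, h2, h3⟩, h4, h5, h6, h7⟩ := hp
    exact ⟨h4, h5, h3, h6, h7⟩
  · rintro ⟨h1, h2, h3, h4, h5⟩
    refine ⟨(u 0, u 1, u 2), ?_, CON1_vec u⟩
    rw [mem_filter, mem_product, mem_product, mem_range, mem_range, mem_range]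
    exact ⟨⟨(h1.trans h2).trans_lt h3, h2.trans_lt h3, h3⟩, h1, h2, h4, h5⟩

private theorem CON1_mono {u : Fin 3 → ℕ} (h1 : u 0 ≤ u 1) (h2 : u 1 ≤ u 2) : Monotone u := by
  intro a b hab
  fin_cases a <;> fin_cases b
  · exact le_rfl
  · exact h1
  · exact h1.trans h2
  · exact absurd hab (by decide)
  · exact le_rfl
  · exact h2
  · exact absurd hab (by decide)
  · exact absurd hab (by decide)
  · exact le_rfl

theorem X3_id {c q s : ℕ} (hc : 1 ≤ c) : IsId (X3 c q s) := by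
  refine ⟨⟨fun _ => 0, ?_⟩, ?_, ?_⟩
  · rw [mem_X3]
    exact ⟨le_rfl, le_rfl, hc, Or.inl rfl, Or.inl rfl⟩
  · intro u hu
    rw [mem_X3] at hu
    exact CON1_mono hu.1 hu.2.1
  · intro u hu v hv hvu
    rw [mem_X3] at hu ⊢
    obtain ⟨h1, h2, h3, h4, h5⟩ := hu
    have v0 : v 0 ≤ u 0 := hvu 0
    have v1 : v 1 ≤ u 1 := hvu 1
    have v2 : v 2 ≤ u 2 := hvu 2
    have m0 : v 0 ≤ v 1 := hv (by decide)
    have m1 : v 1 ≤ v 2 := hv (by decide)
    refine ⟨m0, m1, v2.trans_lt h3, ?_, ?_⟩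
    · by_cases h : v 1 = 0
      · exact Or.inl h
      · right
        have hc2 := Nat.choose_le_choose 2 v2
        rcases h4 with h4 | h4
        · omega
        · omega
    · by_cases h : v 0 = 0
      · exact Or.inl h
      · right
        have hc2 := Nat.choose_le_choose 2 v1
        have hc3 : (v 2 + 1).choose 3 ≤ (u 2 + 1).choose 3 := Nat.choose_le_choose 3 (Nat.succ_le_succ v2)
        rcases h5 with h5 | h5
        · omega
        · omega

/-- number of nonzero entries at most `i` -/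
def ndeg (c q s i : ℕ) : ℕ := ((X3 c q s).filter fun u => (univ.filter fun a => 0 < u a).card ≤ i).card

private theorem CON1_deg (u : Fin 3 → ℕ) : (univ.filter fun a => 0 < u a).card =
    (if 0 < u 0 then 1 else 0) + (if 0 < u 1 then 1 else 0) + (if 0 < u 2 then 1 else 0) := by
  rw [Finset.card_filter, Fin.sum_univ_three]

private theorem CON1_ch2 (k : ℕ) : k ≤ k.choose 2 + 1 := by
  induction k with
  | zero => omega
  | succ k ih =>
    have : (k + 1).choose 2 = k.choose 1 + k.choose 2 := Nat.choose_succ_succ' k 1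
    rw [Nat.choose_one_right] at this
    omega

private theorem CON1_ch3 (k : ℕ) : k ≤ (k + 1).choose 3 + 1 := by
  induction k with
  | zero => omega
  | succ k ih =>
    have h1 : (k + 1 + 1).choose 3 = (k + 1).choose 2 + (k + 1).choose 3 := Nat.choose_succ_succ' (k + 1) 2
    have h2 := CON1_ch2 (k + 1)
    rcases Nat.eq_zero_or_pos k with h | h
    · subst h
      omega
    · omega

private def CON1_S1 (c : ℕ) : Finset (Fin 3 → ℕ) := (Finset.range c).image fun k => ![0, 0, k]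

private theorem CON1_memS1 {c : ℕ} {u : Fin 3 → ℕ} : u ∈ CON1_S1 c ↔ u 0 = 0 ∧ u 1 = 0 ∧ u 2 < c := by
  unfold CON1_S1
  rw [mem_image]
  constructor
  · rintro ⟨k, hk, rfl⟩
    exact ⟨rfl, rfl, mem_range.1 hk⟩
  · rintro ⟨h0, h1, h2⟩
    refine ⟨u 2, mem_range.2 h2, ?_⟩
    have := CON1_vec u
    rw [h0, h1] at this
    exact this

private theorem CON1_cardS1 (c : ℕ) : (CON1_S1 c).card = c := by
  unfold CON1_S1
  rw [Finset.card_image_of_injective, card_range]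
  intro k k' h
  exact congrFun h 2

private def CON1_S2 (q : ℕ) : Finset (Fin 3 → ℕ) := ((Finset.range (q + 1) ×ˢ Finset.range (q + 1)).filter
  (fun p : ℕ × ℕ => 1 ≤ p.1 ∧ p.1 ≤ p.2 ∧ p.2.choose 2 + p.1 ≤ q)).image fun p => ![0, p.1, p.2]

private theorem CON1_memS2 {q : ℕ} {u : Fin 3 → ℕ} : u ∈ CON1_S2 q ↔ u 0 = 0 ∧ 1 ≤ u 1 ∧ u 1 ≤ u 2 ∧
    (u 2).choose 2 + u 1 ≤ q := by
  unfold CON1_S2
  rw [mem_image]
  constructor
  · rintro ⟨⟨j, k⟩, hp, rfl⟩
    rw [mem_filter] at hp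
    exact ⟨rfl, hp.2⟩
  · rintro ⟨h0, h1, h2, h3⟩
    have h4 := CON1_ch2 (u 2)
    refine ⟨(u 1, u 2), ?_, ?_⟩
    · rw [mem_filter, mem_product, mem_range, mem_range]
      refine ⟨⟨?_, ?_⟩, h1, h2, h3⟩
      · show u 1 < q + 1
        omega
      · show u 2 < q + 1
        omega
    · have := CON1_vec u
      rw [h0] at this
      exact this

private theorem CON1_cardS2 (q : ℕ) : (CON1_S2 q).card = q := by
  unfold CON1_S2
  rw [Finset.card_image_of_injective]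
  · exact Pool.LibHM88.card_pairs q (q + 1) le_rfl
  · rintro ⟨j, k⟩ ⟨j', k'⟩ h
    have h1 : j = j' := congrFun h 1
    have h2 : k = k' := congrFun h 2
    rw [h1, h2]

private def CON1_S3 (s : ℕ) : Finset (Fin 3 → ℕ) :=
  ((Finset.range (s + 1) ×ˢ Finset.range (s + 1) ×ˢ Finset.range (s + 1)).filter
  (fun p : ℕ × ℕ × ℕ => 1 ≤ p.1 ∧ p.1 ≤ p.2.1 ∧ p.2.1 ≤ p.2.2 ∧
    (p.2.2 + 1).choose 3 + p.2.1.choose 2 + p.1 ≤ s)).image fun p => ![p.1, p.2.1, p.2.2]

private theorem CON1_memS3 {s : ℕ} {u : Fin 3 → ℕ} : u ∈ CON1_S3 s ↔ 1 ≤ u 0 ∧ u 0 ≤ u 1 ∧ u 1 ≤ u 2 ∧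
    (u 2 + 1).choose 3 + (u 1).choose 2 + u 0 ≤ s := by
  unfold CON1_S3
  rw [mem_image]
  constructor
  · rintro ⟨⟨i, j, k⟩, hp, rfl⟩
    rw [mem_filter] at hp
    exact hp.2
  · rintro ⟨h0, h1, h2, h3⟩
    have h4 := CON1_ch3 (u 2)
    refine ⟨(u 0, u 1, u 2), ?_, CON1_vec u⟩
    rw [mem_filter, mem_product, mem_product, mem_range, mem_range, mem_range]
    refine ⟨⟨?_, ?_, ?_⟩, h0, h1, h2, h3⟩
    · show u 0 < s + 1
      omega
    · show u 1 < s + 1
      omega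
    · show u 2 < s + 1
      omega

private theorem CON1_cardS3 (s : ℕ) : (CON1_S3 s).card = s := by
  unfold CON1_S3
  rw [Finset.card_image_of_injective]
  · exact Pool.LibHM88.card_trips s (s + 1) le_rfl
  · rintro ⟨i, j, k⟩ ⟨i', j', k'⟩ h
    have h0 : i = i' := congrFun h 0
    have h1 : j = j' := congrFun h 1
    have h2 : k = k' := congrFun h 2
    rw [h0, h1, h2]

theorem X3_card {c q s : ℕ} (hc : 1 ≤ c) (hq : q ≤ c.choose 2)
    (K1 : ∀ i j k, 1 ≤ i → i ≤ j → j ≤ k → (k + 1).choose 3 + j.choose 2 + i ≤ s → k.choose 2 + j ≤ q) :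
    ndeg c q s 0 = 1 ∧ ndeg c q s 1 = c ∧ ndeg c q s 2 = c + q ∧ ndeg c q s 3 = c + q + s ∧
      (X3 c q s).card = c + q + s := by
  have hlt : ∀ j k, 1 ≤ j → k.choose 2 + j ≤ q → k < c := by
    intro j k hj hk
    by_contra h
    have := Nat.choose_le_choose 2 (not_lt.1 h)
    omega
  have e0 : (X3 c q s).filter (fun u => (univ.filter fun a => 0 < u a).card ≤ 0) = {fun _ => 0} := by
    ext u
    rw [mem_filter, mem_X3, CON1_deg, mem_singleton]
    constructor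
    · rintro ⟨⟨h1, h2, h3, h4, h5⟩, h6⟩
      have h7 : u 2 = 0 := by
        split_ifs at h6 <;> omega
      rw [← CON1_vec u]
      funext a
      fin_cases a
      · show u 0 = 0
        omega
      · show u 1 = 0
        omega
      · exact h7
    · rintro rfl
      exact ⟨⟨le_rfl, le_rfl, hc, Or.inl rfl, Or.inl rfl⟩, by simp⟩
  have e1 : (X3 c q s).filter (fun u => (univ.filter fun a => 0 < u a).card ≤ 1) = CON1_S1 c := by
    ext u
    rw [mem_filter, mem_X3, CON1_deg, CON1_memS1]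
    constructor
    · rintro ⟨⟨h1, h2, h3, h4, h5⟩, h6⟩
      have h7 : u 1 = 0 := by
        split_ifs at h6 <;> omega
      exact ⟨by omega, h7, h3⟩
    · rintro ⟨h0, h1, h2⟩
      refine ⟨⟨by omega, by omega, h2, Or.inl h1, Or.inl h0⟩, ?_⟩
      rw [h0, h1]
      split_ifs <;> omega
  have e2 : (X3 c q s).filter (fun u => (univ.filter fun a => 0 < u a).card ≤ 2) = CON1_S1 c ∪ CON1_S2 q := by
    ext u
    rw [mem_filter, mem_X3, CON1_deg, mem_union, CON1_memS1, CON1_memS2]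
    constructor
    · rintro ⟨⟨h1, h2, h3, h4, h5⟩, h6⟩
      have h7 : u 0 = 0 := by
        split_ifs at h6 <;> omega
      rcases h4 with h4 | h4
      · exact Or.inl ⟨h7, h4, h3⟩
      · rcases Nat.eq_zero_or_pos (u 1) with h8 | h8
        · exact Or.inl ⟨h7, h8, h3⟩
        · exact Or.inr ⟨h7, h8, h2, h4⟩
    · rintro (⟨h0, h1, h2⟩ | ⟨h0, h1, h2, h3⟩)
      · refine ⟨⟨by omega, by omega, h2, Or.inl h1, Or.inl h0⟩, ?_⟩
        rw [h0, h1]
        split_ifs <;> omega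
      · refine ⟨⟨by omega, h2, hlt _ _ h1 h3, Or.inr h3, Or.inl h0⟩, ?_⟩
        rw [h0]
        split_ifs <;> omega
  have e3 : X3 c q s = (CON1_S1 c ∪ CON1_S2 q) ∪ CON1_S3 s := by
    ext u
    rw [mem_X3, mem_union, mem_union, CON1_memS1, CON1_memS2, CON1_memS3]
    constructor
    · rintro ⟨h1, h2, h3, h4, h5⟩
      rcases Nat.eq_zero_or_pos (u 0) with h7 | h7
      · left
        rcases Nat.eq_zero_or_pos (u 1) with h8 | h8
        · exact Or.inl ⟨h7, h8, h3⟩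
        · right
          rcases h4 with h4 | h4
          · omega
          · exact ⟨h7, h8, h2, h4⟩
      · right
        rcases h5 with h5 | h5
        · omega
        · exact ⟨h7, h1, h2, h5⟩
    · rintro ((⟨h0, h1, h2⟩ | ⟨h0, h1, h2, h3⟩) | ⟨h0, h1, h2, h3⟩)
      · exact ⟨by omega, by omega, h2, Or.inl h1, Or.inl h0⟩
      · exact ⟨by omega, h2, hlt _ _ h1 h3, Or.inr h3, Or.inl h0⟩
      · have h4 := K1 _ _ _ h0 h1 h2 h3
        exact ⟨h1, h2, hlt _ _ (h0.trans h1) h4, Or.inr h4, Or.inr h3⟩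
  have d12 : Disjoint (CON1_S1 c) (CON1_S2 q) := by
    rw [disjoint_left]
    intro u h1 h2
    rw [CON1_memS1] at h1
    rw [CON1_memS2] at h2
    omega
  have d3 : Disjoint (CON1_S1 c ∪ CON1_S2 q) (CON1_S3 s) := by
    rw [disjoint_left]
    intro u h1 h2
    rw [mem_union, CON1_memS1, CON1_memS2] at h1
    rw [CON1_memS3] at h2
    omega
  have hX : (X3 c q s).card = c + q + s := by
    rw [e3, card_union_of_disjoint d3, card_union_of_disjoint d12, CON1_cardS1, CON1_cardS2, CON1_cardS3]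
  refine ⟨?_, ?_, ?_, ?_, hX⟩
  · unfold ndeg
    rw [e0, card_singleton]
  · unfold ndeg
    rw [e1, CON1_cardS1]
  · unfold ndeg
    rw [e2, card_union_of_disjoint d12, CON1_cardS1, CON1_cardS2]
  · unfold ndeg
    rw [filter_true_of_mem, hX]
    intro u _
    rw [CON1_deg]
    split_ifs <;> omega

end Pool.Agent.LibHB64
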