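import Pool.Agent.LibHB64.CODefs
import Pool.Agent.LibHB64.COC1
import Pool.Agent.LibHB64.COC3
import Pool.Agent.LibHB64.COC4
import Pool.Agent.LibHB64.COF3

set_option autoImplicit false

/-!
Row M1. The order `kb` and the shelling data of the whole boundary in both directions.
PLAN kb_cont. Cases of `p`, `q`. `p = (s, inr j)`, `q = (t, inl y)`: first components `0 < 1` of the keys (`Prod.Lex.toLex_lt_toLex` and the like).
`p = (s, inr j)`, `q = (t, inr k)`: `C3` (the keys are `(0, uk, 0)`). `p = (s, inl x)`: `C2` gives `q = (t, inl y)`, `t ≤ s`, `¬ aft x y`. If `t ≠ s` then the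
functions `-s < -t` in `Lex` (at the first index with `t i ≠ s i`, `t i < s i`), so `kb p < kb q`. If `t = s`: if `x = y` then `p = q`; otherwise
`¬ aft x y` means `x = 0` or (`y ≠ 0` and `y < x`), and `y ∈ Zt o s`; the last component: for `x = 0` (`y ≠ 0`): `-(2m+4) < -y` as `y ≤ 2 m + 1`
(`y ≤ 1` or `y = rt s i = 2 i + 3` with `i < m`); for `0 < y < x`: `-x < -y`.
PLAN kf_cont. `p = (s, inr j)`: `C4`. `p = (s, inl x)`, `q = (t, inr k)`: `kb q < kb p` by the first component. `p = (s, inl x)`, `q = (t, inl y)`: `C1` and the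
same comparison with exchanged roles.
PLAN AA_SData_b. `ne`: `hX.ne` gives `s ∈ X`, `(s, inl 1) ∈ AA X o`. `card`: `card_FF`. `sub`: `Rb_sub`. `cont`: `kb_cont`. `step`: for `r ∈ Rb o p ⊆ FF o p`, `AA_nb` gives
`q ≠ p` with `(FF o p).erase r ⊆ FF o q`; `Rf o p = FF o p \ Rb o p ⊆ (FF o p).erase r`, so `kf_cont` gives `kb q < kb p`.
PLAN AA_SData_f: the same with `Rf` and the dual order (`Rb o p ⊆ (FF o p).erase r` for `r ∈ Rf o p`).
-/

namespace Pool.Agent.LibHB64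

open Finset

variable {m : ℕ} {s t : Fin m → ℕ} {o : ℕ} {X : Finset (Fin m → ℕ)}

private theorem P1_inl (s : Fin m → ℕ) (x : ℕ) : kb (s, Sum.inl x) =
    toLex ((1 : ℤ), toLex (toLex (fun i => -(s i : ℤ)),
      if x = 0 then -(2 * (m : ℤ) + 4) else -(x : ℤ))) := rfl

private theorem P1_inr (s : Fin m → ℕ) (j : Fin m) : kb (s, Sum.inr j) =
    toLex ((0 : ℤ), toLex (uk s j, (0 : ℤ))) := rfl

private theorem P1_rl (s t : Fin m → ℕ) (j : Fin m) (y : ℕ) :
    kb (s, Sum.inr j) < kb (t, Sum.inl y) := by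
  rw [P1_inl, P1_inr, Prod.Lex.toLex_lt_toLex]
  exact Or.inl (by norm_num)

private theorem P1_rr {s t : Fin m → ℕ} {j k : Fin m} (h : uk s j < uk t k) :
    kb (s, Sum.inr j) < kb (t, Sum.inr k) := by
  rw [P1_inr, P1_inr, Prod.Lex.toLex_lt_toLex]
  refine Or.inr ⟨rfl, ?_⟩
  show toLex (uk s j, (0 : ℤ)) < toLex (uk t k, (0 : ℤ))
  rw [Prod.Lex.toLex_lt_toLex]
  exact Or.inl h

private theorem P1_ll {s t : Fin m → ℕ} {x y : ℕ} (hts : t ≤ s) (ha : ¬ aft x y)
    (hy : y ∈ Zt o t) :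
    ((s, Sum.inl x) : (Fin m → ℕ) × (ℕ ⊕ Fin m)) = (t, Sum.inl y) ∨
      kb (s, Sum.inl x) < kb (t, Sum.inl y) := by
  by_cases hst : t = s
  · subst hst
    by_cases hxy : x = y
    · left
      rw [hxy]
    · right
      rw [P1_inl, P1_inl, Prod.Lex.toLex_lt_toLex]
      refine Or.inr ⟨rfl, ?_⟩
      show toLex (toLex (fun i => -(t i : ℤ)), (if x = 0 then -(2 * (m : ℤ) + 4) else -(x : ℤ))) <
        toLex (toLex (fun i => -(t i : ℤ)), (if y = 0 then -(2 * (m : ℤ) + 4) else -(y : ℤ)))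
      rw [Prod.Lex.toLex_lt_toLex]
      refine Or.inr ⟨rfl, ?_⟩
      show (if x = 0 then -(2 * (m : ℤ) + 4) else -(x : ℤ)) <
        (if y = 0 then -(2 * (m : ℤ) + 4) else -(y : ℤ))
      have hyb : y ≤ 2 * m + 1 := by
        rcases mem_Zt.1 hy with h | ⟨i, h0, h⟩
        · omega
        · have := i.isLt
          unfold rt at h
          omega
      unfold aft at ha
      by_cases hx0 : x = 0
      · have hy0 : y ≠ 0 := fun h => hxy (hx0.trans h.symm)
        rw [if_pos hx0, if_neg hy0]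
        omega
      · have h1 : y ≠ 0 ∧ ¬ x < y := by
          constructor
          · intro h
            exact ha ⟨hx0, Or.inl h⟩
          · intro h
            exact ha ⟨hx0, Or.inr h⟩
        rw [if_neg hx0, if_neg h1.1]
        omega
  · right
    rw [P1_inl, P1_inl, Prod.Lex.toLex_lt_toLex]
    refine Or.inr ⟨rfl, ?_⟩
    show toLex (toLex (fun i => -(s i : ℤ)), (if x = 0 then -(2 * (m : ℤ) + 4) else -(x : ℤ))) <
      toLex (toLex (fun i => -(t i : ℤ)), (if y = 0 then -(2 * (m : ℤ) + 4) else -(y : ℤ)))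
    rw [Prod.Lex.toLex_lt_toLex]
    refine Or.inl ?_
    apply Pi.toLex_strictMono
    refine lt_of_le_of_ne ?_ ?_
    · intro i
      have h0 : t i ≤ s i := hts i
      show -(s i : ℤ) ≤ -(t i : ℤ)
      omega
    · intro h
      apply hst
      funext i
      have h1 := congrFun h i
      have h2 : -(s i : ℤ) = -(t i : ℤ) := h1
      omega

theorem kb_cont (hX : IsId X) {p q : (Fin m → ℕ) × (ℕ ⊕ Fin m)} (hp : p ∈ AA X o) (hq : q ∈ AA X o)
    (h : Rb o p ⊆ FF o q) : p = q ∨ kb p < kb q := by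
  obtain ⟨s, x | j⟩ := p
  · obtain ⟨t, y, rfl, hts, ha⟩ := C2 hX hp hq h
    exact P1_ll hts ha (mem_AA_inl.1 hq).2
  · obtain ⟨t, y | k⟩ := q
    · exact Or.inr (P1_rl s t j y)
    · rcases C3 hX hp hq h with ⟨rfl, rfl⟩ | h1
      · exact Or.inl rfl
      · exact Or.inr (P1_rr h1)

theorem kf_cont (hX : IsId X) {p q : (Fin m → ℕ) × (ℕ ⊕ Fin m)} (hp : p ∈ AA X o) (hq : q ∈ AA X o)
    (h : Rf o p ⊆ FF o q) : p = q ∨ kb q < kb p := by
  obtain ⟨s, x | j⟩ := p
  · obtain ⟨t, y | k⟩ := q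
    · obtain ⟨hst, ha⟩ := C1 hX hp hq h
      rcases P1_ll hst ha (mem_AA_inl.1 hp).2 with h1 | h1
      · exact Or.inl h1.symm
      · exact Or.inr h1
    · exact Or.inr (P1_rl t s k x)
  · obtain ⟨t, k, rfl, h1⟩ := C4 hX hp hq h
    rcases h1 with ⟨rfl, rfl⟩ | h1
    · exact Or.inl rfl
    · exact Or.inr (P1_rr h1)

private theorem P1_ne (hX : IsId X) : (AA X o).Nonempty := by
  obtain ⟨s, hs⟩ := hX.ne
  exact ⟨(s, Sum.inl 1), mem_AA_inl.2 ⟨hs, mem_Zt.2 (Or.inl ⟨Nat.sub_le 1 o, le_rfl⟩)⟩⟩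

theorem AA_SData_b (ho : o ≤ 1) (hX : IsId X) : SData (2 * m + o) (AA X o) (FF o) (Rb o) kb := by
  refine ⟨P1_ne hX, fun p hp => card_FF ho hX hp, fun p hp => Rb_sub hX hp,
    fun p hp q hq h => kb_cont hX hp hq h, fun p hp r hr => ?_⟩
  obtain ⟨q, hq, hne, hsub⟩ := AA_nb ho hX hp (Rb_sub hX hp hr)
  refine ⟨q, hq, ?_, hsub⟩
  have h1 : Rf o p ⊆ (FF o p).erase r := by
    intro z hz
    have hz' := mem_sdiff.1 hz
    refine mem_erase.2 ⟨?_, hz'.1⟩
    rintro rfl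
    exact hz'.2 hr
  rcases kf_cont hX hp hq (h1.trans hsub) with h2 | h2
  · exact absurd h2.symm hne
  · exact h2

theorem AA_SData_f (ho : o ≤ 1) (hX : IsId X) :
    SData (2 * m + o) (AA X o) (FF o) (Rf o) (fun p => OrderDual.toDual (kb p)) := by
  refine ⟨P1_ne hX, fun p hp => card_FF ho hX hp, fun p hp => sdiff_subset,
    fun p hp q hq h => ?_, fun p hp r hr => ?_⟩
  · rcases kf_cont hX hp hq h with h1 | h1
    · exact Or.inl h1
    · exact Or.inr (OrderDual.toDual_lt_toDual.2 h1)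
  · have hr' : r ∈ FF o p ∧ r ∉ Rb o p := mem_sdiff.1 hr
    obtain ⟨q, hq, hne, hsub⟩ := AA_nb ho hX hp hr'.1
    refine ⟨q, hq, ?_, hsub⟩
    have h1 : Rb o p ⊆ (FF o p).erase r := by
      intro z hz
      refine mem_erase.2 ⟨?_, Rb_sub hX hp hz⟩
      rintro rfl
      exact hr'.2 hz
    rcases kb_cont hX hp hq (h1.trans hsub) with h2 | h2
    · exact absurd h2.symm hne
    · exact OrderDual.toDual_lt_toDual.2 h2

end Pool.Agent.LibHB64
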