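import Pool.Agent.LibHB64.CODefs
import Pool.Agent.LibHB64.COP1
import Pool.Agent.LibHB64.COA1

set_option autoImplicit false

/-!
Row M2. The ball: the boundary minus a down-closed set `T` of lower facets. Definitions `IsT`, `BB`.
PLAN not_T. `p ∈ BB`, `q ∈ AA`, `Rf o p ⊆ FF o q` implies `q ∈ BB`: suppose `q = (t, inl y)` with `(t, y) ∈ T`. If `p = (s, inl x)`: `C1` gives `s ≤ t`, `¬ aft y x`, so
`(s, x) ∈ T` by `hT.down` (`(s, x) ∈ LL X o` by `mem_AA_inl`, `mem_LL`), contradiction to `p ∈ BB`. If `p = (s, inr j)`: `C4` says that `q` is of the form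
`(t, inr k)`.
PLAN BB_SData. `card`, `sub`, `cont` from `AA_SData_b`. `ne`: take `s ∈ X` maximal (`Finset.exists_maximal`) and `j = ⟨0, hm⟩`: `up s j ∉ X` (`le_up`, `lt_up`), so
`(s, inr j) ∈ BB`. `step`: as in M1 (`AA_nb`, `kf_cont`), the neighbour `q` is in `BB` by `not_T`.
PLAN ball_of_T. `D = (BB X o T).biUnion fun p => (FF o p).powerset`, `SData.shell` (A1). `hlt`: if `Rb o p = FF o p` then `Rf o p = ∅`; take `(t, y) ∈ T` (`hT.ne`), `q = (t, inl y)`;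
`not_T` gives `q ∈ BB`, contradiction. `htwo`: `AA_three`.
-/

namespace Pool.Agent.LibHB64

open Finset

variable {m : ℕ} {s t : Fin m → ℕ} {o : ℕ} {X : Finset (Fin m → ℕ)}

/-- `T` is a nonempty down-closed set of lower facets -/
structure IsT (X : Finset (Fin m → ℕ)) (o : ℕ) (T : Finset ((Fin m → ℕ) × ℕ)) : Prop where
  sub : T ⊆ LL X o
  ne : T.Nonempty
  down : ∀ p ∈ T, ∀ q ∈ LL X o, q.1 ≤ p.1 → ¬ aft p.2 q.2 → q ∈ T

/-- the facets which are not in `T` -/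
def BB (X : Finset (Fin m → ℕ)) (o : ℕ) (T : Finset ((Fin m → ℕ) × ℕ)) : Finset ((Fin m → ℕ) × (ℕ ⊕ Fin m)) :=
  AA X o \ T.image fun p => (p.1, Sum.inl p.2)

variable {T : Finset ((Fin m → ℕ) × ℕ)}

theorem mem_BB {p : (Fin m → ℕ) × (ℕ ⊕ Fin m)} :
    p ∈ BB X o T ↔ p ∈ AA X o ∧ ∀ x, p.2 = Sum.inl x → (p.1, x) ∉ T := by
  unfold BB
  rw [mem_sdiff, mem_image]
  constructor
  · rintro ⟨h1, h2⟩
    refine ⟨h1, fun x hx hT => h2 ⟨(p.1, x), hT, ?_⟩⟩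
    rw [← hx]
  · rintro ⟨h1, h2⟩
    refine ⟨h1, ?_⟩
    rintro ⟨q, hq, rfl⟩
    exact h2 q.2 rfl hq

theorem not_T (hX : IsId X) (hT : IsT X o T) {p q : (Fin m → ℕ) × (ℕ ⊕ Fin m)} (hp : p ∈ BB X o T)
    (hq : q ∈ AA X o) (h : Rf o p ⊆ FF o q) : q ∈ BB X o T := by
  rw [mem_BB]
  refine ⟨hq, ?_⟩
  obtain ⟨hpA, hpT⟩ := mem_BB.1 hp
  obtain ⟨t, w⟩ := q
  intro y hy hTy
  simp only at hy hTy
  subst hy
  obtain ⟨s, x | j⟩ := p
  · obtain ⟨h1, h2⟩ := C1 hX hpA hq h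
    exact hpT x rfl (hT.down (t, y) hTy (s, x) (mem_LL.2 (mem_AA_inl.1 hpA)) h1 h2)
  · obtain ⟨t', k, h1, -⟩ := C4 hX hpA hq h
    cases h1

theorem BB_SData (hm : 1 ≤ m) (ho : o ≤ 1) (hX : IsId X) (hT : IsT X o T) :
    SData (2 * m + o) (BB X o T) (FF o) (Rb o) kb := by
  have hA := AA_SData_b (X := X) ho hX
  have hBA : ∀ p ∈ BB X o T, p ∈ AA X o := fun p hp => (mem_BB.1 hp).1
  refine ⟨?_, fun p hp => hA.card p (hBA p hp), fun p hp => hA.sub p (hBA p hp),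
    fun p hp q hq h => hA.cont p (hBA p hp) q (hBA q hq) h, ?_⟩
  · obtain ⟨s, hs⟩ := X.exists_maximal hX.ne
    refine ⟨(s, Sum.inr ⟨0, hm⟩), ?_⟩
    rw [mem_BB, mem_AA_inr]
    refine ⟨⟨hs.1, fun hup => ?_⟩, fun x hx => ?_⟩
    · have h1 := hs.2 hup (le_up s ⟨0, hm⟩)
      exact absurd (h1 ⟨0, hm⟩) (not_le.2 (lt_up s ⟨0, hm⟩))
    · cases hx
  · intro p hp r hr
    have hpA := hBA p hp
    have hrF : r ∈ FF o p := Rb_sub hX hpA hr
    obtain ⟨q, hqA, hne, hsub⟩ := AA_nb ho hX hpA hrF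
    have hRf : Rf o p ⊆ FF o q := by
      intro y hy
      apply hsub
      unfold Rf at hy
      rw [mem_sdiff] at hy
      rw [mem_erase]
      refine ⟨fun h => hy.2 ?_, hy.1⟩
      rw [h]
      exact hr
    refine ⟨q, not_T hX hT hp hqA hRf, ?_, hsub⟩
    rcases kf_cont hX hpA hqA hRf with h1 | h1
    · exact absurd h1.symm hne
    · exact h1

theorem ball_of_T (hm : 1 ≤ m) (ho : o ≤ 1) (hX : IsId X) (hT : IsT X o T) :
    ∃ D : Finset (Finset ℕ), (∀ s, s ∈ D ↔ ∃ p ∈ BB X o T, s ⊆ FF o p) ∧ ShBall (2 * m + o) D := by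
  have hD : ∀ s, s ∈ (BB X o T).biUnion (fun p => (FF o p).powerset) ↔ ∃ p ∈ BB X o T, s ⊆ FF o p := by
    intro s
    rw [mem_biUnion]
    constructor
    · rintro ⟨p, hp, h⟩
      exact ⟨p, hp, mem_powerset.1 h⟩
    · rintro ⟨p, hp, h⟩
      exact ⟨p, hp, mem_powerset.2 h⟩
  refine ⟨(BB X o T).biUnion fun p => (FF o p).powerset, hD, ?_⟩
  refine SData.shell (BB_SData hm ho hX hT) (by omega) ?_ ?_ hD
  · intro p hp heq
    obtain ⟨⟨t, y⟩, hty⟩ := hT.ne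
    have hq : (t, Sum.inl y) ∈ AA X o := mem_AA_inl.2 (mem_LL.1 (hT.sub hty))
    have hRf : Rf o p ⊆ FF o (t, Sum.inl y) := by
      unfold Rf
      rw [heq, sdiff_self]
      exact empty_subset _
    exact (mem_BB.1 (not_T hX hT hp hq hRf)).2 y rfl hty
  · intro s hs p hp q hq r hr h1 h2 h3
    exact AA_three ho hX (by omega) (mem_BB.1 hp).1 (mem_BB.1 hq).1 (mem_BB.1 hr).1 h1 h2 h3

end Pool.Agent.LibHB64
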