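import Pool.Agent.LibHB64.CODefs
import Pool.Agent.LibHB64.CON1
import Pool.Agent.LibHB64.COP2

set_option autoImplicit false

/-!
Row N2. The down-closed set for `m = 3`. With `i = u 0`, `j = u 1`, `k = u 2`, `r2k = (k+1).choose 2 + j + 1` (rank of a quadric), `r3k = (k+1).choose 3 + j.choose 2 + i`.
PLAN T3_isT. `sub`: filter. `ne`: `(![0,0,0], 1)` (`mem_X3` with `1 ≤ c`, `mem_Zt`). `down`: `(u, x) ∈ T3`, `(v, y) ∈ LL`, `v ≤ u`, `¬ aft x y` (`x = 0` or (`y ≠ 0` and `y ≤ x`)).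
`y ∈ Zt o v` is `0`, `1` or `rt v a = 2 a + 3` with `v a = 0` (so `y = 3`: `v 0 = 0`, `y = 5`: `v 1 = 0` and `v 0 = 0`, `y = 7`: `v 2 = 0`, so `v = 0`). Go through the cases. All
ranks are monotone in `(i, j, k)` (`Nat.choose_le_choose`). Facts used: for `r2k ≤ r2`: `k < t1` (as `r2 ≤ (t1+1).choose 2`; for `(k+1).choose 2 + 1 ≤ (t1+1).choose 2`), `τ4 ≤ τ ≤ r2`; `K3`:
a cubic `(i, j, k)`, `1 ≤ i`, with `r3k ≤ ρ` has `r2k ≤ r2` (needed for the pair `(0, j, k)` below `(i, j, k)` with `y = 1`). If `x = 1` then `y = 1` (`y ≠ 0`, `y ≤ 1`).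
If `x = 3` (`u 0 = 0`): `y ∈ {1, 3}`. If `x = 0` (`u 0 = 0`, `r2k ≤ τ4`): all `y` are possible.
-/

namespace Pool.Agent.LibHB64

open Finset

/-- the condition which defines `T3` -/
def PT (t1 r2 τ ρ τ4 i j k x : ℕ) : Prop :=
  (x = 1 ∧ ((i = 0 ∧ j = 0 ∧ (k = 0 ∨ k < t1)) ∨ (i = 0 ∧ 1 ≤ j ∧ (k + 1).choose 2 + j + 1 ≤ r2) ∨
      (1 ≤ i ∧ (k + 1).choose 3 + j.choose 2 + i ≤ ρ))) ∨
    (x = 3 ∧ ((j = 0 ∧ k = 0 ∧ 0 < t1) ∨ (j = 0 ∧ 1 ≤ k ∧ (k + 1).choose 2 + 1 ≤ r2) ∨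
      (1 ≤ j ∧ (k + 1).choose 2 + j + 1 ≤ τ))) ∨
    (x = 5 ∧ ((k = 0 ∧ 1 ≤ r2) ∨ (1 ≤ k ∧ (k + 1).choose 2 + 1 ≤ τ))) ∨
    (x = 7 ∧ 1 ≤ τ) ∨ (x = 0 ∧ i = 0 ∧ (k + 1).choose 2 + j + 1 ≤ τ4)

instance (t1 r2 τ ρ τ4 i j k x : ℕ) : Decidable (PT t1 r2 τ ρ τ4 i j k x) :=
  inferInstanceAs (Decidable (_ ∨ _))

/-- the down-closed set of lower facets -/
def T3 (c q s o t1 r2 τ ρ τ4 : ℕ) : Finset ((Fin 3 → ℕ) × ℕ) :=
  (LL (X3 c q s) o).filter fun p => PT t1 r2 τ ρ τ4 (p.1 0) (p.1 1) (p.1 2) p.2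

private theorem Zt_cases {o x : ℕ} {u : Fin 3 → ℕ} (h : x ∈ Zt o u) :
    x ≤ 1 ∨ (u 0 = 0 ∧ x = 3) ∨ (u 1 = 0 ∧ x = 5) ∨ (u 2 = 0 ∧ x = 7) := by
  rcases mem_Zt.1 h with h | ⟨i, hi, h⟩
  · exact Or.inl h.2
  · unfold rt at h
    fin_cases i
    · simp only [Fin.zero_eta, Fin.isValue, Fin.val_zero] at h hi
      omega
    · simp only [Fin.mk_one, Fin.isValue, Fin.val_one] at h hi
      omega
    · simp only [Fin.reduceFinMk, Fin.isValue, Fin.val_two] at h hi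
      omega

private theorem PT_down {t1 r2 τ ρ τ4 i j k i' j' k' x y : ℕ} (h4 : τ4 ≤ τ) (hτ : τ ≤ r2)
    (hr2 : r2 ≤ (t1 + 1).choose 2)
    (K3 : ∀ i j k, 1 ≤ i → i ≤ j → j ≤ k → (k + 1).choose 3 + j.choose 2 + i ≤ ρ → (k + 1).choose 2 + j + 1 ≤ r2)
    (hij : i ≤ j) (hjk : j ≤ k) (hi : i' ≤ i) (hj : j' ≤ j) (hk : k' ≤ k)
    (hx : x ≤ 1 ∨ (i = 0 ∧ x = 3) ∨ (j = 0 ∧ x = 5) ∨ (k = 0 ∧ x = 7))
    (hy : y ≤ 1 ∨ (i' = 0 ∧ y = 3) ∨ (j' = 0 ∧ y = 5) ∨ (k' = 0 ∧ y = 7))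
    (hxy : x = 0 ∨ (y ≠ 0 ∧ y ≤ x)) (h : PT t1 r2 τ ρ τ4 i j k x) : PT t1 r2 τ ρ τ4 i' j' k' y := by
  have a1 : (k' + 1).choose 2 ≤ (k + 1).choose 2 := Nat.choose_le_choose 2 (by omega)
  have a2 : (k' + 1).choose 3 ≤ (k + 1).choose 3 := Nat.choose_le_choose 3 (by omega)
  have a3 : j'.choose 2 ≤ j.choose 2 := Nat.choose_le_choose 2 hj
  have b : k < t1 ∨ (t1 + 1).choose 2 ≤ (k + 1).choose 2 := by
    rcases Nat.lt_or_ge k t1 with h | h
    · exact Or.inl h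
    · exact Or.inr (Nat.choose_le_choose 2 (by omega))
  have b0 : 0 < t1 ∨ (t1 + 1).choose 2 = 0 := by
    rcases Nat.eq_zero_or_pos t1 with h | h
    · subst h
      exact Or.inr rfl
    · exact Or.inl h
  have c : 1 ≤ i → (k + 1).choose 3 + j.choose 2 + i ≤ ρ → (k + 1).choose 2 + j + 1 ≤ r2 :=
    fun h1 h2 => K3 i j k h1 hij hjk h2
  unfold PT at *
  clear K3
  generalize (k' + 1).choose 2 = A' at *
  generalize (k + 1).choose 2 = A at *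
  generalize (k' + 1).choose 3 = B' at *
  generalize (k + 1).choose 3 = B at *
  generalize j'.choose 2 = C' at *
  generalize j.choose 2 = C at *
  generalize (t1 + 1).choose 2 = M at *
  rcases h with ⟨rfl, h⟩ | ⟨rfl, h⟩ | ⟨rfl, h⟩ | ⟨rfl, h⟩ | ⟨rfl, h⟩
  · have hy1 : y = 1 := by omega
    subst hy1
    left
    refine ⟨rfl, ?_⟩
    omega
  · have hi0 : i = 0 := by omega
    subst hi0
    rcases hy with hy | hy | hy | hy
    · have hy1 : y = 1 := by omega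
      subst hy1
      left
      refine ⟨rfl, ?_⟩
      omega
    · right; left
      refine ⟨hy.2, ?_⟩
      omega
    · omega
    · omega
  · have hi0 : j = 0 := by omega
    subst hi0
    rcases hy with hy | hy | hy | hy
    · have hy1 : y = 1 := by omega
      subst hy1
      left
      refine ⟨rfl, ?_⟩
      omega
    · right; left
      refine ⟨hy.2, ?_⟩
      omega
    · right; right; left
      refine ⟨hy.2, ?_⟩
      omega
    · omega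
  · have hi0 : k = 0 := by omega
    subst hi0
    rcases hy with hy | hy | hy | hy
    · have hy1 : y = 1 := by omega
      subst hy1
      left
      refine ⟨rfl, ?_⟩
      omega
    · right; left
      refine ⟨hy.2, ?_⟩
      omega
    · right; right; left
      refine ⟨hy.2, ?_⟩
      omega
    · right; right; right; left
      refine ⟨hy.2, ?_⟩
      omega
  · rcases hy with hy | hy | hy | hy
    · rcases Nat.eq_zero_or_pos y with hy0 | hy0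
      · right; right; right; right
        refine ⟨hy0, ?_⟩
        omega
      · left
        refine ⟨by omega, ?_⟩
        omega
    · right; left
      refine ⟨hy.2, ?_⟩
      omega
    · right; right; left
      refine ⟨hy.2, ?_⟩
      omega
    · right; right; right; left
      refine ⟨hy.2, ?_⟩
      omega

theorem T3_isT {c q s o t1 r2 τ ρ τ4 : ℕ} (hc : 1 ≤ c) (h4 : τ4 ≤ τ) (hτ : τ ≤ r2)
    (hr2 : r2 ≤ (t1 + 1).choose 2)
    (K3 : ∀ i j k, 1 ≤ i → i ≤ j → j ≤ k → (k + 1).choose 3 + j.choose 2 + i ≤ ρ → (k + 1).choose 2 + j + 1 ≤ r2) :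
    IsT (X3 c q s) o (T3 c q s o t1 r2 τ ρ τ4) := by
  refine ⟨?_, ?_, ?_⟩
  · unfold T3
    exact filter_subset _ _
  · refine ⟨(![0, 0, 0], 1), ?_⟩
    unfold T3
    rw [mem_filter, mem_LL, mem_X3, mem_Zt]
    refine ⟨⟨?_, Or.inl ⟨?_, le_rfl⟩⟩, ?_⟩
    · simp only [Matrix.cons_val_zero, Matrix.cons_val_one, Matrix.cons_val]
      refine ⟨le_rfl, le_rfl, by omega, Or.inl ?_, Or.inl ?_⟩ <;> trivial
    · omega
    · simp only [Matrix.cons_val_zero, Matrix.cons_val_one, Matrix.cons_val]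
      unfold PT
      omega
  · rintro ⟨u, x⟩ hp ⟨v, y⟩ hq hvu hxy
    unfold T3 at hp ⊢
    rw [mem_filter] at hp ⊢
    refine ⟨hq, ?_⟩
    obtain ⟨hp1, hp2⟩ := hp
    rw [mem_LL] at hp1 hq
    have hu := mem_X3.1 hp1.1
    have hv := mem_X3.1 hq.1
    simp only at hvu hxy hp2 ⊢
    have h0 := hvu 0
    have h1 := hvu 1
    have h2 := hvu 2
    refine PT_down h4 hτ hr2 K3 hu.1 hu.2.1 h0 h1 h2 (Zt_cases hp1.2) (Zt_cases hq.2) ?_ hp2
    unfold aft at hxy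
    omega

end Pool.Agent.LibHB64
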