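import Pool.Agent.LibHB64.CODefs

set_option autoImplicit false

/-!
Row M4. Numbers of lower facets of a given degree. `dg s = #{i : 0 < s i}`.
PLAN LL_count: bijection `s ↦ (s, 2 (i - dg s) + 1)` from `{s ∈ X : dg s ≤ i}`: `2 a + 1 ∈ Zt o s` for `a = 0` (`1`) and for `1 ≤ a ≤ m - dg s` (`= rt s (a-1)`, and
`s (a-1) = 0`: for monotone `s` one has `s i' = 0 ↔ i' < m - dg s`). Conversely `x ∈ Zt o s`, `x ≠ 0`, is `1` or `rt s i' = 2 i' + 3` with `s i' = 0`, so it is
`2 a + 1` with `a ≤ m - dg s`, `dgr s x = dg s + a`; and `x = 0` has `dgr = m + 1 > i`.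
PLAN LL_count_top: `(s, x) ∈ LL X 1` has `dgr s x = m + 1` iff `x = 0` (by the first part `dgr ≤ m` for `x ≠ 0`), and `0 ∈ Zt 1 s`.
-/

namespace Pool.Agent.LibHB64

open Finset

variable {m : ℕ} {s t : Fin m → ℕ} {o : ℕ} {X : Finset (Fin m → ℕ)}

private theorem COP4_zero (hs : Monotone s) (j : Fin m) :
    s j = 0 ↔ (j : ℕ) < m - (univ.filter fun i => 0 < s i).card := by
  constructor
  · intro h
    have h1 : (univ.filter fun i => 0 < s i) ⊆ Finset.Ioi j := by
      intro i hi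
      rw [mem_filter] at hi
      rw [Finset.mem_Ioi]
      by_contra h2
      have h3 := hs (not_lt.mp h2)
      omega
    have h2 := Finset.card_le_card h1
    rw [Fin.card_Ioi] at h2
    have h3 := j.2
    omega
  · intro h
    by_contra h0
    have h1 : Finset.Ici j ⊆ (univ.filter fun i => 0 < s i) := by
      intro i hi
      rw [Finset.mem_Ici] at hi
      rw [mem_filter]
      have h3 := hs hi
      exact ⟨mem_univ i, by omega⟩
    have h2 := Finset.card_le_card h1
    rw [Fin.card_Ici] at h2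
    have h3 := j.2
    omega

private theorem COP4_mem (hs : Monotone s) (a : ℕ) (ha : a ≤ m - (univ.filter fun i => 0 < s i).card) :
    2 * a + 1 ∈ Zt o s := by
  rw [mem_Zt]
  rcases a with _ | a
  · left
    omega
  · right
    have h1 : a < m := by omega
    have h2 : s ⟨a, h1⟩ = 0 := (COP4_zero hs ⟨a, h1⟩).mpr ha
    refine ⟨⟨a, h1⟩, h2, ?_⟩
    unfold rt
    rw [h2]
    show 2 * (a + 1) + 1 = 2 * a + 3 + 0
    ring

private theorem COP4_of_mem (hs : Monotone s) {x : ℕ} (hx : x ∈ Zt o s) (h0 : x ≠ 0) :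
    ∃ a, a ≤ m - (univ.filter fun i => 0 < s i).card ∧ x = 2 * a + 1 := by
  rcases mem_Zt.1 hx with h | ⟨i, h1, h2⟩
  · exact ⟨0, Nat.zero_le _, by omega⟩
  · have h3 := (COP4_zero hs i).mp h1
    refine ⟨(i : ℕ) + 1, h3, ?_⟩
    rw [h2]
    unfold rt
    rw [h1]
    ring

private theorem COP4_dgr (a : ℕ) : dgr s (2 * a + 1) = (univ.filter fun i => 0 < s i).card + a := by
  unfold dgr
  rw [if_neg (by omega)]
  omega

private theorem COP4_le (s : Fin m → ℕ) : (univ.filter fun i => 0 < s i).card ≤ m := by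
  have h := Finset.card_le_univ (univ.filter fun i => 0 < s i)
  rwa [Fintype.card_fin] at h

theorem LL_count (hX : IsId X) (i : ℕ) (hi : i ≤ m) :
    ((LL X o).filter fun p => dgr p.1 p.2 = i).card =
      (X.filter fun s => (univ.filter fun i => 0 < s i).card ≤ i).card := by
  refine Finset.card_nbij' (fun p => p.1)
    (fun s => (s, 2 * (i - (univ.filter fun i => 0 < s i).card) + 1)) ?_ ?_ ?_ ?_
  · rintro ⟨s, x⟩ hp
    rw [Finset.mem_coe, mem_filter, mem_LL] at hp
    obtain ⟨⟨hs, hx⟩, hd⟩ := hp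
    have hd' : dgr s x = i := hd
    rw [Finset.mem_coe, mem_filter]
    refine ⟨hs, ?_⟩
    show (univ.filter fun i => 0 < s i).card ≤ i
    have h0 : x ≠ 0 := by
      intro h0
      rw [h0] at hd'
      unfold dgr at hd'
      rw [if_pos rfl] at hd'
      omega
    obtain ⟨a, ha, rfl⟩ := COP4_of_mem (hX.mono s hs) hx h0
    rw [COP4_dgr] at hd'
    omega
  · intro s hs
    rw [Finset.mem_coe, mem_filter] at hs
    rw [Finset.mem_coe, mem_filter, mem_LL]
    refine ⟨⟨hs.1, COP4_mem (hX.mono s hs.1) _ (by omega)⟩, ?_⟩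
    show dgr s (2 * (i - (univ.filter fun i => 0 < s i).card) + 1) = i
    rw [COP4_dgr]
    have := hs.2
    omega
  · rintro ⟨s, x⟩ hp
    rw [Finset.mem_coe, mem_filter, mem_LL] at hp
    obtain ⟨⟨hs, hx⟩, hd⟩ := hp
    have hd' : dgr s x = i := hd
    have h0 : x ≠ 0 := by
      intro h0
      rw [h0] at hd'
      unfold dgr at hd'
      rw [if_pos rfl] at hd'
      omega
    obtain ⟨a, ha, rfl⟩ := COP4_of_mem (hX.mono s hs) hx h0
    rw [COP4_dgr] at hd'
    show (s, 2 * (i - (univ.filter fun i => 0 < s i).card) + 1) = (s, 2 * a + 1)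
    have h1 : i - (univ.filter fun i => 0 < s i).card = a := by omega
    rw [h1]
  · intro s _
    rfl

theorem LL_count_top (hX : IsId X) : ((LL X 1).filter fun p => dgr p.1 p.2 = m + 1).card = X.card := by
  have key : ∀ (s : Fin m → ℕ) (x : ℕ), s ∈ X → x ∈ Zt 1 s → dgr s x = m + 1 → x = 0 := by
    intro s x hs hx hd
    by_contra h0
    obtain ⟨a, ha, rfl⟩ := COP4_of_mem (hX.mono s hs) hx h0
    rw [COP4_dgr] at hd
    have h1 := COP4_le s
    omega
  refine Finset.card_nbij' (fun p => p.1) (fun s => (s, 0)) ?_ ?_ ?_ ?_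
  · rintro ⟨s, x⟩ hp
    rw [Finset.mem_coe, mem_filter, mem_LL] at hp
    exact hp.1.1
  · intro s hs
    rw [Finset.mem_coe] at hs
    rw [Finset.mem_coe, mem_filter, mem_LL]
    refine ⟨⟨hs, mem_Zt.2 (Or.inl ⟨le_rfl, Nat.zero_le _⟩)⟩, ?_⟩
    show dgr s 0 = m + 1
    unfold dgr
    rw [if_pos rfl]
  · rintro ⟨s, x⟩ hp
    rw [Finset.mem_coe, mem_filter, mem_LL] at hp
    have h := key s x hp.1.1 hp.1.2 hp.2
    show (s, 0) = (s, x)
    rw [h]
  · intro s _
    rfl

end Pool.Agent.LibHB64
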