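import Pool.Agent.LibHB64.CODefs
import Pool.Agent.LibHB64.CON1
import Pool.Agent.LibHB64.CON2
import Pool.Agent.LibHB64.COP4

set_option autoImplicit false

/-!
Row N3. The sizes of `T3` by degree (`dgr`). `dgr u x = dg u + (x - 1) / 2` for `x ≠ 0` and `4` for `x = 0`; `dg u` = number of nonzero entries; elements of `LL`:
`u ∈ X3`, `x = 1`; `x = 3` (`u 0 = 0`), `x = 5` (`u 1 = 0`), `x = 7` (`u = 0`), `x = 0` (`o = 1`).
PLAN. Degree 0: only `(![0,0,0], 1)`. Degree 1: bijection with `range t1`: `0 ↦ (![0,0,0], 3)`, `k ↦ (![0,0,k], 1)` for `k ≥ 1` (`k < t1 ≤ c`). Degree 2: bijection with the pairs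
`(j, k)`, `j ≤ k`, `(k+1).choose 2 + j + 1 ≤ r2`, number `r2` by `Pool.LibHM88.card_pairs` for `(j+1, k+1)`: `(0,0) ↦ (![0,0,0], 5)`, `(0,k) ↦ (![0,0,k], 3)`, `(j,k) ↦ (![0,j,k], 1)`; these
are in `X3` by `K2` and `k < t1 ≤ c`. Degree 3: the pairs `(j, k)` with rank `≤ τ` (`≤ r2`) `↦ (![0,0,0], 7)`, `(![0,0,k], 5)`, `(![0,j,k], 3)`, and the triples `1 ≤ i ≤ j ≤ k` with rank
`≤ ρ ≤ s` (in `X3` by `K1`, `q ≤ c.choose 2`) `↦ (![i,j,k], 1)`: `τ + ρ` (`card_pairs`, `card_trips`). Degree 4, `o = 1`: `x = 0`, `u = ![0,j,k]` with rank `≤ τ4`: `τ4`.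
-/

namespace Pool.Agent.LibHB64

open Finset

private theorem CON3_pos (u : Fin 3 → ℕ) : (univ.filter fun i => 0 < u i).card =
    (if 0 < u 0 then 1 else 0) + (if 0 < u 1 then 1 else 0) + (if 0 < u 2 then 1 else 0) := by
  rw [Finset.card_filter, Fin.sum_univ_three]

/-- the conditions for `u = ![i, j, k]` and `x` of degree `δ` -/
private def CON3_Q (c q s o t1 r2 τ ρ τ4 i j k x δ : ℕ) : Prop :=
  (i ≤ j ∧ j ≤ k ∧ k < c ∧ (j = 0 ∨ k.choose 2 + j ≤ q) ∧ (i = 0 ∨ (k + 1).choose 3 + j.choose 2 + i ≤ s)) ∧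
    ((1 - o ≤ x ∧ x ≤ 1) ∨ (i = 0 ∧ x = 3) ∨ (j = 0 ∧ x = 5) ∨ (k = 0 ∧ x = 7)) ∧
    PT t1 r2 τ ρ τ4 i j k x ∧
    (if x = 0 then 4 else (if 0 < i then 1 else 0) + (if 0 < j then 1 else 0) + (if 0 < k then 1 else 0) +
      (x - 1) / 2) = δ

private theorem CON3_mem {c q s o t1 r2 τ ρ τ4 : ℕ} (u : Fin 3 → ℕ) (x δ : ℕ) :
    (u, x) ∈ (T3 c q s o t1 r2 τ ρ τ4).filter (fun p => dgr p.1 p.2 = δ) ↔
      CON3_Q c q s o t1 r2 τ ρ τ4 (u 0) (u 1) (u 2) x δ := by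
  rw [mem_filter, T3, mem_filter, mem_LL, mem_X3, mem_Zt, CON3_Q]
  have h1 : (∃ i : Fin 3, u i = 0 ∧ x = rt u i) ↔ (u 0 = 0 ∧ x = 3) ∨ (u 1 = 0 ∧ x = 5) ∨ (u 2 = 0 ∧ x = 7) := by
    unfold rt
    constructor
    · rintro ⟨i, h0, hx⟩
      fin_cases i
      · left
        simp at h0 hx
        omega
      · right
        left
        simp at h0 hx
        omega
      · right
        right
        simp at h0 hx
        omega
    · rintro (⟨h0, hx⟩ | ⟨h0, hx⟩ | ⟨h0, hx⟩)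
      · exact ⟨0, h0, by simp [h0, hx]⟩
      · exact ⟨1, h0, by simp [h0, hx]⟩
      · exact ⟨2, h0, by simp [h0, hx]⟩
  have h2 : dgr u x = (if x = 0 then 4 else (if 0 < u 0 then 1 else 0) + (if 0 < u 1 then 1 else 0) +
      (if 0 < u 2 then 1 else 0) + (x - 1) / 2) := by
    unfold dgr
    rw [CON3_pos]
  rw [h1, h2]
  tauto

private theorem CON3_mem' {c q s o t1 r2 τ ρ τ4 : ℕ} (i j k x δ : ℕ) :
    (![i, j, k], x) ∈ (T3 c q s o t1 r2 τ ρ τ4).filter (fun p => dgr p.1 p.2 = δ) ↔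
      CON3_Q c q s o t1 r2 τ ρ τ4 i j k x δ := CON3_mem ![i, j, k] x δ

private theorem CON3_ext {u v : Fin 3 → ℕ} (h0 : u 0 = v 0) (h1 : u 1 = v 1) (h2 : u 2 = v 2) : u = v := by
  funext i
  fin_cases i
  · exact h0
  · exact h1
  · exact h2

private theorem CON3_lt2 {k j r t : ℕ} (h : (k + 1).choose 2 + j + 1 ≤ r) (hr : r ≤ (t + 1).choose 2) : k < t := by
  by_contra hc
  have := Nat.choose_le_choose 2 (show t + 1 ≤ k + 1 by omega)
  omega

private theorem CON3_lt3 {k j q c : ℕ} (hj : 1 ≤ j) (h : k.choose 2 + j ≤ q) (hr : q ≤ c.choose 2) : k < c := by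
  by_contra hc
  have := Nat.choose_le_choose 2 (show c ≤ k by omega)
  omega

private theorem CON3_z {k : ℕ} (h : k = 0) : (k + 1).choose 2 = 0 := by
  subst h
  rfl

private theorem CON3_Q0 {c q s o t1 r2 τ ρ τ4 i j k x : ℕ} (h : CON3_Q c q s o t1 r2 τ ρ τ4 i j k x 0) :
    i = 0 ∧ j = 0 ∧ k = 0 ∧ x = 1 := by
  obtain ⟨h1, h2, h3, h4⟩ := h
  clear h3
  split_ifs at h4 <;> omega

private theorem CON3_Q1 {c q s o t1 r2 τ ρ τ4 i j k x : ℕ} (h : CON3_Q c q s o t1 r2 τ ρ τ4 i j k x 1) :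
    i = 0 ∧ j = 0 ∧ k < t1 ∧ (k = 0 → x = 3) ∧ (k ≠ 0 → x = 1) := by
  obtain ⟨h1, h2, h3, h4⟩ := h
  unfold PT at h3
  split_ifs at h4 <;> omega

private theorem CON3_Q2 {c q s o t1 r2 τ ρ τ4 i j k x : ℕ} (h : CON3_Q c q s o t1 r2 τ ρ τ4 i j k x 2) :
    i = 0 ∧ j ≤ k ∧ k < c ∧ (k + 1).choose 2 + j + 1 ≤ r2 ∧ (k = 0 → x = 5) ∧ (k ≠ 0 → j = 0 → x = 3) ∧
      (j ≠ 0 → x = 1) := by
  obtain ⟨h1, h2, h3, h4⟩ := h
  have h5 := CON3_z (k := k)
  unfold PT at h3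
  split_ifs at h4 <;> omega

private theorem CON3_Q3 {c q s o t1 r2 τ ρ τ4 i j k x : ℕ} (h : CON3_Q c q s o t1 r2 τ ρ τ4 i j k x 3) :
    i ≤ j ∧ j ≤ k ∧ k < c ∧ (i = 0 → (k + 1).choose 2 + j + 1 ≤ τ) ∧ (i ≠ 0 → (k + 1).choose 3 + j.choose 2 + i ≤ ρ) ∧
      (k = 0 → x = 7) ∧ (k ≠ 0 → j = 0 → x = 5) ∧ (j ≠ 0 → i = 0 → x = 3) ∧ (i ≠ 0 → x = 1) := by
  obtain ⟨h1, h2, h3, h4⟩ := h
  have h5 := CON3_z (k := k)
  unfold PT at h3
  split_ifs at h4 <;> omega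

private theorem CON3_Q4 {c q s o t1 r2 τ ρ τ4 i j k x : ℕ} (h : CON3_Q c q s o t1 r2 τ ρ τ4 i j k x 4) :
    i = 0 ∧ j ≤ k ∧ k < c ∧ (k + 1).choose 2 + j + 1 ≤ τ4 ∧ x = 0 := by
  obtain ⟨h1, h2, h3, h4⟩ := h
  unfold PT at h3
  split_ifs at h4 <;> omega

private theorem CON3_pairs (r c : ℕ) :
    ((Finset.range (r + c + 2) ×ˢ Finset.range (r + c + 2)).filter
      (fun p : ℕ × ℕ => 1 ≤ p.1 ∧ p.1 ≤ p.2 ∧ p.2.choose 2 + p.1 ≤ r)).card = r :=
  Pool.LibHM88.card_pairs r (r + c + 2) (by omega)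

private theorem CON3_trips (r c : ℕ) :
    ((Finset.range (r + c + 2) ×ˢ Finset.range (r + c + 2) ×ˢ Finset.range (r + c + 2)).filter
      (fun p : ℕ × ℕ × ℕ => 1 ≤ p.1 ∧ p.1 ≤ p.2.1 ∧ p.2.1 ≤ p.2.2 ∧
        (p.2.2 + 1).choose 3 + p.2.1.choose 2 + p.1 ≤ r)).card = r :=
  Pool.LibHM88.card_trips r (r + c + 2) (by omega)

/-- a surjectivity statement for pairs -/
private theorem CON3_sub {j k : ℕ} (h : 1 ≤ j ∧ j ≤ k) : ∃ j' k', j = j' + 1 ∧ k = k' + 1 ∧ j' ≤ k' :=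
  ⟨j - 1, k - 1, by omega, by omega, by omega⟩

theorem T3_card {c q s o t1 r2 τ ρ τ4 : ℕ} (hc : 1 ≤ c) (hq : q ≤ c.choose 2) (ht : t1 ≤ c) (h4 : τ4 ≤ τ)
    (hτ : τ ≤ r2) (hρ : ρ ≤ s) (hr2 : r2 ≤ (t1 + 1).choose 2)
    (K1 : ∀ i j k, 1 ≤ i → i ≤ j → j ≤ k → (k + 1).choose 3 + j.choose 2 + i ≤ s → k.choose 2 + j ≤ q)
    (K2 : ∀ j k, 1 ≤ j → j ≤ k → (k + 1).choose 2 + j + 1 ≤ r2 → k.choose 2 + j ≤ q) :
    ((T3 c q s o t1 r2 τ ρ τ4).filter fun p => dgr p.1 p.2 = 0).card = 1 ∧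
      ((T3 c q s o t1 r2 τ ρ τ4).filter fun p => dgr p.1 p.2 = 1).card = t1 ∧
      ((T3 c q s o t1 r2 τ ρ τ4).filter fun p => dgr p.1 p.2 = 2).card = r2 ∧
      ((T3 c q s o t1 r2 τ ρ τ4).filter fun p => dgr p.1 p.2 = 3).card = τ + ρ := by
  refine ⟨?_, ?_, ?_, ?_⟩
  · rw [Finset.card_eq_one]
    refine ⟨(![0, 0, 0], 1), ?_⟩
    ext ⟨u, x⟩
    rw [CON3_mem, mem_singleton, Prod.mk.injEq]
    constructor
    · intro h
      obtain ⟨h0, h1, h2, hx⟩ := CON3_Q0 h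
      exact ⟨CON3_ext h0 h1 h2, hx⟩
    · rintro ⟨rfl, rfl⟩
      show CON3_Q c q s o t1 r2 τ ρ τ4 0 0 0 1 0
      unfold CON3_Q PT
      simp
      omega
  · conv_rhs => rw [← Finset.card_range t1]
    refine Finset.card_bij (fun p _ => p.1 2) ?_ ?_ ?_
    · rintro ⟨u, x⟩ h
      rw [CON3_mem] at h
      rw [mem_range]
      exact (CON3_Q1 h).2.2.1
    · rintro ⟨u, x⟩ h ⟨v, y⟩ h' hh
      rw [CON3_mem] at h h'
      change u 2 = v 2 at hh
      obtain ⟨a0, a1, a2, a3, a4⟩ := CON3_Q1 h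
      obtain ⟨b0, b1, b2, b3, b4⟩ := CON3_Q1 h'
      rw [Prod.mk.injEq]
      exact ⟨CON3_ext (a0.trans b0.symm) (a1.trans b1.symm) hh, by omega⟩
    · intro k hk
      rw [mem_range] at hk
      rcases Nat.eq_zero_or_pos k with h0 | h0
      · refine ⟨(![0, 0, 0], 3), ?_, ?_⟩
        · rw [CON3_mem']
          unfold CON3_Q PT
          simp
          omega
        · show 0 = k
          omega
      · refine ⟨(![0, 0, k], 1), ?_, rfl⟩
        rw [CON3_mem']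
        unfold CON3_Q PT
        simp [h0]
        omega
  · conv_rhs => rw [← CON3_pairs r2 c]
    refine Finset.card_bij (fun p _ => (p.1 1 + 1, p.1 2 + 1)) ?_ ?_ ?_
    · rintro ⟨u, x⟩ h
      rw [CON3_mem] at h
      obtain ⟨a0, a1, a2, a3, a4⟩ := CON3_Q2 h
      simp only [mem_filter, mem_product, mem_range]
      omega
    · rintro ⟨u, x⟩ h ⟨v, y⟩ h' hh
      rw [CON3_mem] at h h'
      rw [Prod.mk.injEq] at hh
      change u 1 + 1 = v 1 + 1 ∧ u 2 + 1 = v 2 + 1 at hh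
      obtain ⟨a0, a1, a2, a3, a4⟩ := CON3_Q2 h
      obtain ⟨b0, b1, b2, b3, b4⟩ := CON3_Q2 h'
      rw [Prod.mk.injEq]
      exact ⟨CON3_ext (a0.trans b0.symm) (by omega) (by omega), by omega⟩
    · rintro ⟨j', k'⟩ hk
      simp only [mem_filter, mem_product, mem_range] at hk
      obtain ⟨j, k, rfl, rfl, hjk⟩ := CON3_sub ⟨hk.2.1, hk.2.2.1⟩
      have hr : (k + 1).choose 2 + j + 1 ≤ r2 := by omega
      have hkt := CON3_lt2 hr hr2
      rcases Nat.eq_zero_or_pos j with hj | hj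
      · subst hj
        rcases Nat.eq_zero_or_pos k with h0 | h0
        · subst h0
          refine ⟨(![0, 0, 0], 5), ?_, rfl⟩
          rw [CON3_mem']
          unfold CON3_Q PT
          simp
          omega
        · refine ⟨(![0, 0, k], 3), ?_, rfl⟩
          rw [CON3_mem']
          unfold CON3_Q PT
          simp [h0]
          omega
      · have hk0 : 0 < k := by omega
        have hq2 := K2 j k hj hjk hr
        refine ⟨(![0, j, k], 1), ?_, rfl⟩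
        rw [CON3_mem']
        unfold CON3_Q PT
        simp [hj, hk0]
        omega
  · have hsplit := Finset.card_filter_add_card_filter_not (s := (T3 c q s o t1 r2 τ ρ τ4).filter
      (fun p => dgr p.1 p.2 = 3)) (fun p => p.1 0 = 0)
    rw [← hsplit]
    congr 1
    · conv_rhs => rw [← CON3_pairs τ c]
      refine Finset.card_bij (fun p _ => (p.1 1 + 1, p.1 2 + 1)) ?_ ?_ ?_
      · rintro ⟨u, x⟩ h
        rw [mem_filter, CON3_mem] at h
        obtain ⟨h, h00⟩ := h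
        change u 0 = 0 at h00
        obtain ⟨a0, a1, a2, a3, a4⟩ := CON3_Q3 h
        have := a3 h00
        simp only [mem_filter, mem_product, mem_range]
        omega
      · rintro ⟨u, x⟩ h ⟨v, y⟩ h' hh
        rw [mem_filter, CON3_mem] at h h'
        obtain ⟨h, h00⟩ := h
        obtain ⟨h', h00'⟩ := h'
        change u 0 = 0 at h00
        change v 0 = 0 at h00'
        rw [Prod.mk.injEq] at hh
        change u 1 + 1 = v 1 + 1 ∧ u 2 + 1 = v 2 + 1 at hh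
        obtain ⟨a0, a1, a2, -, -, a4⟩ := CON3_Q3 h
        obtain ⟨b0, b1, b2, -, -, b4⟩ := CON3_Q3 h'
        rw [Prod.mk.injEq]
        exact ⟨CON3_ext (by omega) (by omega) (by omega), by omega⟩
      · rintro ⟨j', k'⟩ hk
        simp only [mem_filter, mem_product, mem_range] at hk
        obtain ⟨j, k, rfl, rfl, hjk⟩ := CON3_sub ⟨hk.2.1, hk.2.2.1⟩
        have hr : (k + 1).choose 2 + j + 1 ≤ τ := by omega
        have hkt := CON3_lt2 hr (hτ.trans hr2)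
        rcases Nat.eq_zero_or_pos j with hj | hj
        · subst hj
          rcases Nat.eq_zero_or_pos k with h0 | h0
          · subst h0
            refine ⟨(![0, 0, 0], 7), ?_, rfl⟩
            rw [mem_filter, CON3_mem']
            refine ⟨?_, rfl⟩
            unfold CON3_Q PT
            simp
            omega
          · refine ⟨(![0, 0, k], 5), ?_, rfl⟩
            rw [mem_filter, CON3_mem']
            refine ⟨?_, rfl⟩
            unfold CON3_Q PT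
            simp [h0]
            omega
        · have hk0 : 0 < k := by omega
          have hq2 := K2 j k hj hjk (hr.trans hτ)
          refine ⟨(![0, j, k], 3), ?_, rfl⟩
          rw [mem_filter, CON3_mem']
          refine ⟨?_, rfl⟩
          unfold CON3_Q PT
          simp [hj, hk0]
          omega
    · conv_rhs => rw [← CON3_trips ρ c]
      refine Finset.card_bij (fun p _ => (p.1 0, p.1 1, p.1 2)) ?_ ?_ ?_
      · rintro ⟨u, x⟩ h
        rw [mem_filter, CON3_mem] at h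
        obtain ⟨h, h00⟩ := h
        change ¬ u 0 = 0 at h00
        obtain ⟨a0, a1, a2, a3, a4, a5⟩ := CON3_Q3 h
        have := a4 h00
        simp only [mem_filter, mem_product, mem_range]
        omega
      · rintro ⟨u, x⟩ h ⟨v, y⟩ h' hh
        rw [mem_filter, CON3_mem] at h h'
        obtain ⟨h, h00⟩ := h
        obtain ⟨h', h00'⟩ := h'
        change ¬ u 0 = 0 at h00
        change ¬ v 0 = 0 at h00'
        rw [Prod.mk.injEq, Prod.mk.injEq] at hh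
        change u 0 = v 0 ∧ u 1 = v 1 ∧ u 2 = v 2 at hh
        obtain ⟨-, -, -, -, -, -, -, -, a4⟩ := CON3_Q3 h
        obtain ⟨-, -, -, -, -, -, -, -, b4⟩ := CON3_Q3 h'
        rw [Prod.mk.injEq]
        exact ⟨CON3_ext (by omega) (by omega) (by omega), by rw [a4 h00, b4 h00']⟩
      · rintro ⟨i, j, k⟩ hk
        simp only [mem_filter, mem_product, mem_range] at hk
        obtain ⟨-, hi, hij, hjk, hr⟩ := hk
        have hq2 := K1 i j k hi hij hjk (hr.trans hρ)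
        have hkc := CON3_lt3 (show 1 ≤ j by omega) hq2 hq
        have hi0 : 0 < i := hi
        have hj0 : 0 < j := by omega
        have hk0 : 0 < k := by omega
        refine ⟨(![i, j, k], 1), ?_, rfl⟩
        rw [mem_filter, CON3_mem']
        refine ⟨?_, by show ¬ i = 0; omega⟩
        unfold CON3_Q PT
        simp [hi0, hj0, hk0]
        omega

theorem T3_card4 {c q s t1 r2 τ ρ τ4 : ℕ} (hc : 1 ≤ c) (hq : q ≤ c.choose 2) (ht : t1 ≤ c) (h4 : τ4 ≤ τ)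
    (hτ : τ ≤ r2) (hr2 : r2 ≤ (t1 + 1).choose 2)
    (K2 : ∀ j k, 1 ≤ j → j ≤ k → (k + 1).choose 2 + j + 1 ≤ r2 → k.choose 2 + j ≤ q) :
    ((T3 c q s 1 t1 r2 τ ρ τ4).filter fun p => dgr p.1 p.2 = 4).card = τ4 := by
  conv_rhs => rw [← CON3_pairs τ4 c]
  refine Finset.card_bij (fun p _ => (p.1 1 + 1, p.1 2 + 1)) ?_ ?_ ?_
  · rintro ⟨u, x⟩ h
    rw [CON3_mem] at h
    obtain ⟨a0, a1, a2, a3, a4⟩ := CON3_Q4 h
    simp only [mem_filter, mem_product, mem_range]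
    omega
  · rintro ⟨u, x⟩ h ⟨v, y⟩ h' hh
    rw [CON3_mem] at h h'
    rw [Prod.mk.injEq] at hh
    change u 1 + 1 = v 1 + 1 ∧ u 2 + 1 = v 2 + 1 at hh
    obtain ⟨a0, a1, a2, a3, a4⟩ := CON3_Q4 h
    obtain ⟨b0, b1, b2, b3, b4⟩ := CON3_Q4 h'
    rw [Prod.mk.injEq]
    exact ⟨CON3_ext (a0.trans b0.symm) (by omega) (by omega), by omega⟩
  · rintro ⟨j', k'⟩ hk
    simp only [mem_filter, mem_product, mem_range] at hk
    obtain ⟨j, k, rfl, rfl, hjk⟩ := CON3_sub ⟨hk.2.1, hk.2.2.1⟩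
    have hr : (k + 1).choose 2 + j + 1 ≤ τ4 := by omega
    have hr' := hr.trans (h4.trans hτ)
    have hkt := CON3_lt2 hr' hr2
    have hq2 : j = 0 ∨ k.choose 2 + j ≤ q := by
      rcases Nat.eq_zero_or_pos j with hj | hj
      · exact Or.inl hj
      · exact Or.inr (K2 j k hj hjk hr')
    refine ⟨(![0, j, k], 0), ?_, rfl⟩
    rw [CON3_mem']
    unfold CON3_Q PT
    simp
    omega

end Pool.Agent.LibHB64
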