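import Pool.Agent.LibHB64.COP5
import Pool.Agent.LibHB64.COP4
import Pool.Agent.LibHB64.CON3
import Pool.Agent.LibHB64.COA8
import Pool.Agent.LibHB64.COA9
import Pool.Agent.LibHM88.MA

set_option autoImplicit false

/-!
The construction for `d = 6, 7`: every vector which satisfies `Cond` is the `h`-vector of a shellable ball.
-/

namespace Pool.Agent.LibHB64

open Finset Pool.LibHM88

/-- the main case, `1 ≤ h_2` -/
theorem cons_aux (o n z2 z3 e1 e2 e3 : ℕ) (ho : o = 0 ∨ o = 1) (ho0 : o = 0 → e3 = z3)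
    (h12 : e1 ≤ e2) (h23 : e2 ≤ e3) (h3 : e3 ≤ z3) (h2 : e2 ≤ z2)
    (hr3 : o = 1 → z3 - e3 ≤ up2 (z2 - e2)) (hz : 1 ≤ z2)
    (hc : ∃ c, 1 ≤ c ∧ e1 ≤ c ∧ c ≤ n ∧ z2 ≤ (c + 1).choose 2 ∧
      z2 - e2 ≤ (c - e1 + 1).choose 2 ∧ z3 ≤ z2 + up2 (z2 - c)) :
    ∃ (D : Finset (Finset ℕ)) (N : ℕ), (∀ s ∈ D, ∀ v ∈ s, v < N) ∧ ShBall (6 + o) D ∧
      hnum (6 + o) D 0 = 1 ∧ hnum (6 + o) D 1 = n ∧ hnum (6 + o) D 2 = z2 ∧ hnum (6 + o) D 3 = z3 ∧
      hnum (6 + o) D (3 + o) = e3 ∧ hnum (6 + o) D (4 + o) = e2 ∧ hnum (6 + o) D (5 + o) = e1 ∧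
      hnum (6 + o) D (6 + o) = 0 := by
  obtain ⟨c, q, s, t1, r2, τ, ρ, τ4, c1, cn, ct, zc, zr, hs, hτρ, h4z, h4τ, hτr, hρs, hoo, hq, hr2, K1, K2, K3⟩ :=
    cons_num o n z2 z3 e1 e2 e3 ho ho0 h12 h23 h3 h2 hr3 hz hc
  have hX : IsId (X3 c q s) := X3_id c1
  have hT : IsT (X3 c q s) o (T3 c q s o t1 r2 τ ρ τ4) := T3_isT c1 h4τ hτr hr2 K3
  have ho1 : o ≤ 1 := by omega
  obtain ⟨D, N, hN, hB, hh⟩ := squeezed_ball (m := 3) (by omega) ho1 hX hT
  obtain ⟨k0, k1, k2, k3, k4⟩ := X3_card c1 hq K1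
  obtain ⟨t0, t1', t2, t3⟩ := T3_card (o := o) c1 hq (by omega) h4τ hτr hρs hr2 K1 K2
  have L0 := LL_count (o := o) hX 0 (by omega)
  have L1 := LL_count (o := o) hX 1 (by omega)
  have L2 := LL_count (o := o) hX 2 (by omega)
  have L3 := LL_count (o := o) hX 3 (by omega)
  unfold ndeg at k0 k1 k2 k3
  rw [k0] at L0
  rw [k1] at L1
  rw [k2] at L2
  rw [k3] at L3
  obtain ⟨D', hB', hN', hh'⟩ := hB.stacks (by omega) hN (n - c)
  rw [show 2 * 3 + o = 6 + o by omega] at hB' hh' hh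
  refine ⟨D', N + (n - c), hN', hB', ?_, ?_, ?_, ?_, ?_, ?_, ?_, ?_⟩
  · rw [hh' 0 (by omega), hh 0 (by omega), if_pos (by omega), L0]
    simp
  · rw [hh' 1 (by omega), hh 1 (by omega), if_pos (by omega), L1, if_pos rfl]
    omega
  · rw [hh' 2 (by omega), hh 2 (by omega), if_pos (by omega), L2, if_neg (by omega)]
    omega
  · rw [hh' 3 (by omega), hh 3 (by omega), if_neg (by omega), if_neg (by omega)]
    rcases ho with rfl | rfl
    · have := hoo rfl
      rw [show 6 + 0 - 3 = 3 by omega, L3, t3]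
      omega
    · have T4 := T3_card4 (ρ := ρ) (s := s) c1 hq (by omega) h4τ hτr hr2 K2
      have L4 := LL_count_top hX
      rw [k4] at L4
      rw [show 6 + 1 - 3 = 4 by omega]
      rw [show 3 + 1 = 4 by omega] at L4
      rw [L4, T4]
      omega
  · rw [hh' (3 + o) (by omega), hh (3 + o) (by omega), if_neg (by omega), if_neg (by omega),
      show 6 + o - (3 + o) = 3 by omega, L3, t3]
    omega
  · rw [hh' (4 + o) (by omega), hh (4 + o) (by omega), if_neg (by omega), if_neg (by omega),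
      show 6 + o - (4 + o) = 2 by omega, L2, t2]
    omega
  · rw [hh' (5 + o) (by omega), hh (5 + o) (by omega), if_neg (by omega), if_neg (by omega),
      show 6 + o - (5 + o) = 1 by omega, L1, t1']
    omega
  · rw [hh' (6 + o) (by omega), hh (6 + o) (by omega), if_neg (by omega), if_neg (by omega),
      show 6 + o - (6 + o) = 0 by omega, L0, t0]
    omega

/-- every vector which satisfies `Cond` (`d = 6, 7`) is the `h`-vector of a shellable ball of dimension `d - 1` -/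
theorem cons_ball {d : ℕ} (hd : d = 6 ∨ d = 7) {h : ℕ → ℕ} (hc : Cond d h) :
    ∃ (N : ℕ) (D : Finset (Finset (Fin N))), ShBall d D ∧ ∀ i, i ≤ d → hnum d D i = h i := by
  have main : ∃ (D : Finset (Finset ℕ)) (N : ℕ), (∀ s ∈ D, ∀ v ∈ s, v < N) ∧ ShBall d D ∧
      ∀ i, i ≤ d → hnum d D i = h i := by
    have e12 := hc.e12
    have e23 := hc.e23
    have e3 := hc.e3
    have e2 := hc.e2
    have hz := hc.zero
    have hl := hc.last
    by_cases h20 : h 2 = 0
    · have h30 : h 3 = 0 := by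
        rcases cond_alt hc with hcc | ⟨c, _, _, _, _, _, hcc⟩
        · exact hcc.2
        · rw [h20, Nat.zero_sub, up2_zero] at hcc
          omega
      obtain ⟨hs1, hs2⟩ := ShBall.simplex d (by omega)
      obtain ⟨D', hB', hN', hh'⟩ := hs1.stacks (by omega)
        (fun s hs v hv => Finset.mem_range.1 (Finset.mem_powerset.1 hs hv)) (h 1)
      refine ⟨D', d + h 1, hN', hB', fun i hi => ?_⟩
      rw [hh' i hi, hs2 i hi]
      rcases hd with rfl | rfl
      · simp only [Nat.reduceSub] at e12 e23 e3 e2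
        interval_cases i <;> simp <;> omega
      · simp only [Nat.reduceSub] at e12 e23 e3 e2
        interval_cases i <;> simp <;> omega
    · have hcc : ∃ c, 1 ≤ c ∧ h (d - 1) ≤ c ∧ c ≤ h 1 ∧ h 2 ≤ (c + 1).choose 2 ∧
          h 2 - h (d - 2) ≤ (c - h (d - 1) + 1).choose 2 ∧ h 3 ≤ h 2 + up2 (h 2 - c) := by
        rcases cond_alt hc with hcc | hcc
        · exact absurd hcc.1 h20
        · exact hcc
      rcases hd with rfl | rfl
      · obtain ⟨D, N, hN, hB, a0, a1, a2, a3, a4, a5, a6, a7⟩ := cons_aux 0 (h 1) (h 2) (h 3) (h 5) (h 4) (h 3)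
          (Or.inl rfl) (fun _ => rfl) e12 e23 le_rfl e2 (fun h => absurd h (by decide)) (by omega) hcc
        refine ⟨D, N, hN, hB, fun i hi => ?_⟩
        interval_cases i
        · rw [hz]; exact_mod_cast a0
        · exact a1
        · exact a2
        · exact a3
        · exact a5
        · exact a6
        · rw [hl]; exact_mod_cast a7
      · obtain ⟨D, N, hN, hB, a0, a1, a2, a3, a4, a5, a6, a7⟩ := cons_aux 1 (h 1) (h 2) (h 3) (h 6) (h 5) (h 4)
          (Or.inr rfl) (fun h => absurd h (by decide)) e12 e23 e3 e2 (fun _ => hc.r3) (by omega) hcc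
        refine ⟨D, N, hN, hB, fun i hi => ?_⟩
        interval_cases i
        · rw [hz]; exact_mod_cast a0
        · exact a1
        · exact a2
        · exact a3
        · exact a4
        · exact a5
        · exact a6
        · rw [hl]; exact_mod_cast a7
  obtain ⟨D, N, hN, hB, hh⟩ := main
  obtain ⟨D', hB', hh'⟩ := hB.toFin hN
  exact ⟨N, D', hB', fun i hi => by rw [hh' i, hh i hi]⟩

end Pool.Agent.LibHB64
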