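import Pool.Agent.LibHB64.CODefs
import Pool.Agent.LibHB64.COP1
import Pool.Agent.LibHB64.COP2
import Pool.Agent.LibHB64.COA5

set_option autoImplicit false

/-!
Row M3. Numbers of facets with restrictions of a given size.
PLAN card_Rf_inl. By `mem_Rf_inl` (COR): `Rf o (s, inl x)` is the disjoint union of `{rt s i : 0 < s i}` (`rt_inj`) and `{y ∈ Zt o s : aft y x}`. Case `x = 0` (then `o = 1` as
`0 ∈ Zt o s`): the second set is `Zt o s \ {0}` = `{1}` and the `rt s i` with `s i = 0`; in total `1 + m`. Case `x = 1`: the second set is empty. Case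
`x = rt s i0 = 2 i0 + 3`, `s i0 = 0`: it consists of `1` and the `rt s i`, `i < i0` (`s i = 0` by monotonicity; note `0` is not in it): `i0 + 1 = (x - 1) / 2`.
PLAN card_Rb_add: `Rb o p ⊆ FF o p` (`Rb_sub`), `card_FF`, `Rf = FF \ Rb`. PLAN card_Rb_inr: the elements are indexed by different `i ≠ j` (`lf s i`, `i < j`;
`rt s i` with `s j < s i`, so `i > j`), so there are at most `m - 1`. PLAN le_card_Rb_inl: contains the `m` elements `lf s i` (`lf_inj`).
PLAN dsym: both sides are `hnum (2 m + o) D j` for `D = (AA X o).biUnion fun p => (FF o p).powerset` by `SData.hnum_eq` (A5) for `AA_SData_b`, `AA_SData_f`.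
PLAN count_BB. `j < m`: in `BB` no `inl` has `|Rb| = j` (`le_card_Rb_inl`), and all `inr` of `AA` are in `BB`; so the number is
`#{p ∈ AA : |Rb| = j}` = `#{p ∈ AA : |Rf| = j}` (dsym) and here no `inr` occurs (`|Rf| = 2m + o - |Rb| ≥ m + 1 + o > j`), so it is
`#{(s, x) ∈ LL : dgr s x = j}` (bijection `(s, inl x) ↔ (s, x)`). `m ≤ j`: no `inr` occurs; `inl x`: `|Rb| = 2 m + o - dgr s x`; number = those in `LL \ T` with
`dgr = 2m + o - j` (`T ⊆ LL`).
-/

namespace Pool.Agent.LibHB64

open Finset

variable {m : ℕ} {s t : Fin m → ℕ} {o : ℕ} {T : Finset ((Fin m → ℕ) × ℕ)} {X : Finset (Fin m → ℕ)}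

private theorem card_filter_lt23 (j : Fin m) : (univ.filter fun i : Fin m => i < j).card = (j : ℕ) := by
  have h : (univ.filter fun i : Fin m => i < j) = Finset.Iio j := by
    ext i
    simp
  rw [h, Fin.card_Iio]

theorem card_Rf_inl (ho : o ≤ 1) (hs : Monotone s) {x : ℕ} (hx : x ∈ Zt o s) :
    (Rf o (s, Sum.inl x)).card = dgr s x := by
  classical
  have e : Rf o (s, Sum.inl x) = ((univ.filter fun i => 0 < s i).image (rt s)) ∪ (Zt o s).filter (fun y => aft y x) := by
    ext y
    rw [mem_Rf_inl hs hx, mem_union, mem_image, mem_filter]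
    simp only [mem_filter, mem_univ, true_and]
    constructor
    · rintro (⟨i, h1, h2⟩ | h)
      · exact Or.inl ⟨i, h1, h2.symm⟩
      · exact Or.inr h
    · rintro (⟨i, h1, h2⟩ | h)
      · exact Or.inl ⟨i, h1, h2.symm⟩
      · exact Or.inr h
  have hd : Disjoint ((univ.filter fun i => 0 < s i).image (rt s)) ((Zt o s).filter (fun y => aft y x)) := by
    rw [disjoint_left]
    intro y hy hy2
    rw [mem_image] at hy
    obtain ⟨i, hi, rfl⟩ := hy
    rw [mem_filter] at hi hy2
    rcases mem_Zt.1 hy2.1 with h | ⟨i', hi', h⟩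
    · have := three_le_rt (s := s) i
      omega
    · have := rt_inj hs h
      subst this
      omega
  have hP : ((univ.filter fun i => 0 < s i).image (rt s)).card = (univ.filter fun i => 0 < s i).card :=
    card_image_of_injective _ (fun a b h => rt_inj hs h)
  rw [e, card_union_of_disjoint hd, hP]
  rcases mem_Zt.1 hx with h | ⟨i0, hi0, h⟩
  · rcases Nat.eq_zero_or_pos x with h0 | h0
    · subst h0
      have ho1 : o = 1 := by omega
      subst ho1
      have e2 : (Zt 1 s).filter (fun y => aft y 0) = insert 1 ((univ.filter fun i => s i = 0).image (rt s)) := by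
        ext y
        rw [mem_filter, mem_insert, mem_Zt, mem_image]
        simp only [mem_filter, mem_univ, true_and, aft]
        constructor
        · rintro ⟨h1 | ⟨i, h1, h2⟩, h3, _⟩
          · left; omega
          · exact Or.inr ⟨i, h1, h2.symm⟩
        · rintro (h1 | ⟨i, h1, h2⟩)
          · subst h1
            exact ⟨Or.inl (by omega), by omega, Or.inl trivial⟩
          · refine ⟨Or.inr ⟨i, h1, h2.symm⟩, ?_, Or.inl trivial⟩
            have := three_le_rt (s := s) i
            omega
      have hn : (1 : ℕ) ∉ (univ.filter fun i => s i = 0).image (rt s) := by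
        rw [mem_image]
        rintro ⟨i, _, h1⟩
        have := three_le_rt (s := s) i
        omega
      rw [e2, card_insert_of_notMem hn, card_image_of_injective _ (fun a b h => rt_inj hs h)]
      have h1 := Finset.card_filter_add_card_filter_not (s := (univ : Finset (Fin m))) (fun i => 0 < s i)
      have h2 : (univ.filter fun i => ¬ 0 < s i) = (univ.filter fun i : Fin m => s i = 0) := by
        ext i
        simp
      rw [h2, card_univ, Fintype.card_fin] at h1
      unfold dgr
      simp only [if_true]
      omega
    · have hx1 : x = 1 := by omega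
      subst hx1
      have e2 : (Zt o s).filter (fun y => aft y 1) = ∅ := by
        rw [filter_eq_empty_iff]
        intro y _ h1
        unfold aft at h1
        omega
      rw [e2, card_empty]
      unfold dgr
      simp
  · subst h
    have hr : rt s i0 = 2 * (i0 : ℕ) + 3 := by unfold rt; omega
    have e2 : (Zt o s).filter (fun y => aft y (rt s i0)) = insert 1 ((univ.filter fun i => i < i0).image (rt s)) := by
      ext y
      rw [mem_filter, mem_insert, mem_Zt, mem_image]
      simp only [mem_filter, mem_univ, true_and, aft]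
      constructor
      · rintro ⟨h1 | ⟨i, h1, h2⟩, h3, h4⟩
        · left; omega
        · right
          refine ⟨i, ?_, h2.symm⟩
          by_contra hlt
          rcases (not_lt.1 hlt).eq_or_lt with h5 | h5
          · subst h5
            omega
          · have := rt_lt_rt hs h5
            omega
      · rintro (h1 | ⟨i, h1, h2⟩)
        · subst h1
          exact ⟨Or.inl (by omega), by omega, Or.inr (by omega)⟩
        · have h5 := hs h1.le
          have h6 := rt_lt_rt hs h1
          have h7 := three_le_rt (s := s) i
          exact ⟨Or.inr ⟨i, by omega, h2.symm⟩, by omega, Or.inr (by omega)⟩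
    have hn : (1 : ℕ) ∉ (univ.filter fun i => i < i0).image (rt s) := by
      rw [mem_image]
      rintro ⟨i, _, h1⟩
      have := three_le_rt (s := s) i
      omega
    rw [e2, card_insert_of_notMem hn, card_image_of_injective _ (fun a b h => rt_inj hs h), card_filter_lt23]
    unfold dgr
    rw [if_neg (by omega), hr]
    omega

theorem card_Rb_add (ho : o ≤ 1) (hX : IsId X) {p : (Fin m → ℕ) × (ℕ ⊕ Fin m)} (hp : p ∈ AA X o) :
    (Rb o p).card + (Rf o p).card = 2 * m + o := by
  have h1 := Finset.card_sdiff_add_card_eq_card (Rb_sub hX hp)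
  rw [card_FF ho hX hp] at h1
  unfold Rf
  omega

theorem card_Rb_inr (hs : Monotone s) (j : Fin m) : (Rb o (s, Sum.inr j)).card < m := by
  classical
  have h0 : Rb o (s, Sum.inr j) = ((univ.filter fun i => i < j).image (lf s)) ∪
      (univ.filter fun i => s j < s i).image (rt s) := rfl
  have h1 : (Rb o (s, Sum.inr j)).card ≤ (univ.filter fun i => i < j).card + (univ.filter fun i => s j < s i).card := by
    rw [h0]
    exact (card_union_le _ _).trans (add_le_add card_image_le card_image_le)
  have hd : Disjoint (univ.filter fun i => i < j) (univ.filter fun i => s j < s i) := by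
    rw [disjoint_left]
    intro i hi hi2
    rw [mem_filter] at hi hi2
    have := hs hi.2.le
    omega
  have h2 : (univ.filter fun i => i < j) ∪ (univ.filter fun i => s j < s i) ⊆ univ.erase j := by
    intro i hi
    rw [mem_erase]
    refine ⟨?_, mem_univ _⟩
    rintro rfl
    rw [mem_union, mem_filter, mem_filter] at hi
    rcases hi with hi | hi
    · exact lt_irrefl _ hi.2
    · exact lt_irrefl _ hi.2
  have h3 := card_le_card h2
  rw [card_union_of_disjoint hd, card_erase_of_mem (mem_univ _), card_univ, Fintype.card_fin] at h3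
  have h4 := j.pos
  omega

theorem le_card_Rb_inl (hs : Monotone s) (x : ℕ) : m ≤ (Rb o (s, Sum.inl x)).card := by
  classical
  have h0 : univ.image (lf s) ⊆ Rb o (s, Sum.inl x) := by
    intro y hy
    have h1 : Rb o (s, Sum.inl x) = univ.image (lf s) ∪ (Zt o s).filter fun y => aft x y := rfl
    rw [h1]
    exact mem_union_left _ hy
  have h2 := card_le_card h0
  rw [card_image_of_injective _ (fun a b h => lf_inj hs h), card_univ, Fintype.card_fin] at h2
  exact h2

theorem dsym (ho : o ≤ 1) (hX : IsId X) (j : ℕ) (hj : j ≤ 2 * m + o) :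
    ((AA X o).filter fun p => (Rb o p).card = j).card = ((AA X o).filter fun p => (Rf o p).card = j).card := by
  classical
  have hD : ∀ s, s ∈ (AA X o).biUnion (fun p => (FF o p).powerset) ↔ ∃ i ∈ AA X o, s ⊆ FF o i := by
    intro s
    rw [mem_biUnion]
    simp only [mem_powerset]
  have h1 := (AA_SData_b ho hX).hnum_eq hD j hj
  have h2 := (AA_SData_f ho hX).hnum_eq hD j hj
  rw [h1] at h2
  exact_mod_cast h2

private theorem card_inl (Y : Finset ((Fin m → ℕ) × ℕ)) :
    (Y.image fun p => ((p.1, Sum.inl p.2) : (Fin m → ℕ) × (ℕ ⊕ Fin m))).card = Y.card := by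
  apply card_image_of_injective
  intro a b h
  simp only [Prod.mk.injEq, Sum.inl.injEq] at h
  exact Prod.ext h.1 h.2

theorem count_BB (ho : o ≤ 1) (hX : IsId X) (hT : IsT X o T) (j : ℕ) (hj : j ≤ 2 * m + o) :
    (((BB X o T).filter fun p => (Rb o p).card = j).card : ℤ) =
      if j < m then (((LL X o).filter fun p => dgr p.1 p.2 = j).card : ℤ)
      else (((LL X o).filter fun p => dgr p.1 p.2 = 2 * m + o - j).card : ℤ) -
        ((T.filter fun p => dgr p.1 p.2 = 2 * m + o - j).card : ℤ) := by
  classical
  split_ifs with hjm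
  · have h1 : (BB X o T).filter (fun p => (Rb o p).card = j) = (AA X o).filter (fun p => (Rb o p).card = j) := by
      ext p
      rw [mem_filter, mem_filter, mem_BB]
      constructor
      · rintro ⟨h1, h2⟩
        exact ⟨h1.1, h2⟩
      · rintro ⟨h1, h2⟩
        refine ⟨⟨h1, ?_⟩, h2⟩
        obtain ⟨s, q⟩ := p
        intro x hx
        simp only at hx
        subst hx
        have h3 := le_card_Rb_inl (o := o) (hX.mono s (mem_AA_inl.1 h1).1) x
        omega
    have h2 : (AA X o).filter (fun p => (Rf o p).card = j) =
        ((LL X o).filter fun p => dgr p.1 p.2 = j).image fun p => (p.1, Sum.inl p.2) := by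
      ext p
      obtain ⟨s, q⟩ := p
      rw [mem_filter, mem_image]
      constructor
      · rintro ⟨h1, h2⟩
        cases q with
        | inl x =>
          have h3 := mem_AA_inl.1 h1
          refine ⟨(s, x), ?_, rfl⟩
          rw [mem_filter]
          refine ⟨mem_LL.2 h3, ?_⟩
          rw [← h2, card_Rf_inl ho (hX.mono s h3.1) h3.2]
        | inr k =>
          exfalso
          have h3 := mem_AA_inr.1 h1
          have h4 := card_Rb_add ho hX h1
          have h5 := card_Rb_inr (o := o) (hX.mono s h3.1) k
          omega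
      · rintro ⟨⟨t, x⟩, h1, h2⟩
        rw [mem_filter] at h1
        simp only [Prod.mk.injEq] at h2
        obtain ⟨rfl, rfl⟩ := h2
        have h3 := mem_LL.1 h1.1
        refine ⟨mem_AA_inl.2 h3, ?_⟩
        rw [card_Rf_inl ho (hX.mono t h3.1) h3.2]
        exact h1.2
    rw [h1, dsym ho hX j hj, h2, card_inl]
  · have h1 : (BB X o T).filter (fun p => (Rb o p).card = j) =
        (((LL X o) \ T).filter fun p => dgr p.1 p.2 = 2 * m + o - j).image fun p => (p.1, Sum.inl p.2) := by
      ext p
      obtain ⟨s, q⟩ := p
      rw [mem_filter, mem_image, mem_BB]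
      constructor
      · rintro ⟨⟨h1, h1'⟩, h2⟩
        cases q with
        | inl x =>
          have h3 := mem_AA_inl.1 h1
          refine ⟨(s, x), ?_, rfl⟩
          rw [mem_filter, mem_sdiff]
          refine ⟨⟨mem_LL.2 h3, h1' x rfl⟩, ?_⟩
          have h4 := card_Rb_add ho hX h1
          rw [card_Rf_inl ho (hX.mono s h3.1) h3.2] at h4
          simp only
          omega
        | inr k =>
          exfalso
          have h3 := mem_AA_inr.1 h1
          have h5 := card_Rb_inr (o := o) (hX.mono s h3.1) k
          omega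
      · rintro ⟨⟨t, x⟩, h1, h2⟩
        rw [mem_filter, mem_sdiff] at h1
        simp only [Prod.mk.injEq] at h2
        obtain ⟨rfl, rfl⟩ := h2
        have h3 := mem_LL.1 h1.1.1
        have h6 := mem_AA_inl.2 h3
        have h4 := card_Rb_add ho hX h6
        rw [card_Rf_inl ho (hX.mono t h3.1) h3.2] at h4
        have h7 := h1.2
        simp only at h7
        refine ⟨⟨h6, ?_⟩, by omega⟩
        intro y hy
        simp only [Sum.inl.injEq] at hy
        subst hy
        exact h1.1.2
    have h2 : ((LL X o) \ T).filter (fun p => dgr p.1 p.2 = 2 * m + o - j) =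
        (LL X o).filter (fun p => dgr p.1 p.2 = 2 * m + o - j) \ T.filter (fun p => dgr p.1 p.2 = 2 * m + o - j) := by
      ext p
      simp only [mem_filter, mem_sdiff]
      tauto
    have h3 : T.filter (fun p => dgr p.1 p.2 = 2 * m + o - j) ⊆
        (LL X o).filter (fun p => dgr p.1 p.2 = 2 * m + o - j) := filter_subset_filter _ hT.sub
    have h4 := card_sdiff_add_card_eq_card h3
    rw [h1, card_inl, h2]
    have h5 : ((((LL X o).filter (fun p => dgr p.1 p.2 = 2 * m + o - j) \
      T.filter (fun p => dgr p.1 p.2 = 2 * m + o - j)).card + (T.filter (fun p => dgr p.1 p.2 = 2 * m + o - j)).card : ℕ) : ℤ) =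
      ((LL X o).filter (fun p => dgr p.1 p.2 = 2 * m + o - j)).card := by rw [h4]
    push_cast at h5
    linarith

end Pool.Agent.LibHB64
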