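import Pool.Agent.LibHB64.CODefs
import Pool.Agent.LibHB64.COP3
import Pool.Agent.LibHB64.COA1

set_option autoImplicit false

/-!
Row M5 (assembled by helper33). The squeezed balls: for every ideal `X` of shift vectors and every down-closed set `T` of lower facets there is a shellable
ball of dimension `2 m + o - 1` with the `h`-numbers given by the sizes.
-/

namespace Pool.Agent.LibHB64

open Finset

variable {m : ℕ} {s t : Fin m → ℕ} {o : ℕ} {T : Finset ((Fin m → ℕ) × ℕ)} {X : Finset (Fin m → ℕ)}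

theorem squeezed_ball (hm : 1 ≤ m) (ho : o ≤ 1) (hX : IsId X) (hT : IsT X o T) :
    ∃ (D : Finset (Finset ℕ)) (N : ℕ), (∀ s ∈ D, ∀ v ∈ s, v < N) ∧ ShBall (2 * m + o) D ∧ ∀ j, j ≤ 2 * m + o →
      hnum (2 * m + o) D j = if j < m then (((LL X o).filter fun p => dgr p.1 p.2 = j).card : ℤ)
      else (((LL X o).filter fun p => dgr p.1 p.2 = 2 * m + o - j).card : ℤ) -
        ((T.filter fun p => dgr p.1 p.2 = 2 * m + o - j).card : ℤ) := by
  obtain ⟨D, hD, hB⟩ := ball_of_T hm ho hX hT
  refine ⟨D, (D.sup fun s => s.sup id) + 1, ?_, hB, ?_⟩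
  · intro s hs v hv
    have h1 : v ≤ s.sup id := Finset.le_sup (f := id) hv
    have h2 : s.sup id ≤ D.sup fun s => s.sup id := Finset.le_sup (f := fun s : Finset ℕ => s.sup id) hs
    omega
  · intro j hj
    rw [(BB_SData hm ho hX hT).hnum_eq hD j hj]
    exact count_BB ho hX hT j hj

end Pool.Agent.LibHB64
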