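import Pool.Agent.LibHB64.CODefs

set_option autoImplicit false

/-!
Definitions: Macaulay's operation `q ↦ q^<i>`, the rank of a monomial of degree `i` in the reverse lexicographic order, the compressed ideal
with given numbers, the relative initial segments.
-/

namespace Pool.Agent.LibHB64

open Finset

/-- Macaulay's operation `q^<i>`: if `q = C(a_i, i) + C(a_(i-1), i-1) + ... + C(a_j, j)` with `a_i > a_(i-1) > ... > a_j ≥ j ≥ 1` then
`q^<i> = C(a_i + 1, i + 1) + C(a_(i-1) + 1, i) + ... + C(a_j + 1, j + 1)` -/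
def macUp : ℕ → ℕ → ℕ
  | 0, _ => 0
  | i + 1, q => (Nat.findGreatest (fun a => a.choose (i + 1) ≤ q) (q + i) + 1).choose (i + 2) +
      macUp i (q - (Nat.findGreatest (fun a => a.choose (i + 1) ≤ q) (q + i)).choose (i + 1))

/-- the number of monomials of degree `i` before the monomial with the variables `b 0 ≥ b 1 ≥ ... ≥ b (i - 1)` -/
def rk : ℕ → (ℕ → ℕ) → ℕ
  | 0, _ => 0
  | i + 1, b => (b 0 + i).choose (i + 1) + rk i fun k => b (k + 1)

variable {m : ℕ}

/-- the entries of `s` from the last one (the largest) down, followed by zeros -/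
def bs (s : Fin m → ℕ) (k : ℕ) : ℕ := if h : k < m then s ⟨m - 1 - k, by omega⟩ else 0

/-- the degree: the number of nonzero entries -/
def dgm (s : Fin m → ℕ) : ℕ := (univ.filter fun i => 0 < s i).card

/-- the order on the monomials -/
def lx (s : Fin m → ℕ) : ℕ := rk m (bs s)

/-- the compressed ideal with `γ j` elements of degree `j` -/
def XG (m : ℕ) (γ : ℕ → ℕ) : Finset (Fin m → ℕ) :=
  (Fintype.piFinset fun _ : Fin m => Finset.range ((∑ j ∈ Finset.range (m + 1), γ j) + 1)).filter fun s =>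
    (∀ i j : Fin m, i ≤ j → s i ≤ s j) ∧ rk (dgm s) (fun k => bs s k - 1) < γ (dgm s)

/-- the first `t i` lower facets of every degree `i` -/
def TG (m o : ℕ) (γ t : ℕ → ℕ) : Finset ((Fin m → ℕ) × ℕ) :=
  (LL (XG m γ) o).filter fun p =>
    ((XG m γ).filter fun s => dgm s ≤ dgr p.1 p.2 ∧ lx s < lx p.1).card < t (dgr p.1 p.2)

theorem dgr_eq (s : Fin m → ℕ) (x : ℕ) : dgr s x = if x = 0 then m + 1 else dgm s + (x - 1) / 2 := rfl

end Pool.Agent.LibHB64
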