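import Pool.Agent.LibHB64.CODefs
import Pool.Agent.LibHB64.COQ0

set_option autoImplicit false

/-!
Row Q1. The rank and Macaulay's operation.
PLAN rk_lt: `rk i b < C(x + i, i)` if `b` is antitone and `b 0 ≤ x`. Induction on `i`: `i = 0`: `0 < 1`. `i + 1`: `rk i b' < C(b 0 + i, i)` (IH, `b' 0 = b 1 ≤ b 0`), so
`rk (i+1) b < C(b 0 + i, i + 1) + C(b 0 + i, i) = C(b 0 + i + 1, i + 1) ≤ C(x + i + 1, i + 1)`.
PLAN findG: if `C(a, i+1) ≤ q < C(a+1, i+1)`, `i ≤ a`, then `Nat.findGreatest (fun a => a.choose (i+1) ≤ q) (q + i) = a` (`Nat.findGreatest_eq_iff`; `a ≤ q + i`: for `a ≥ i + 1`,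
`C(a, i+1) ≥ a - i`).
PLAN macUp_add: `macUp (i+1) (C(x + i, i+1) + r) = C(x + i + 1, i + 2) + macUp i r` for `r < C(x + i, i)`: findG with `a = x + i`.
PLAN rk_succ: `rk (i+1) b = b i + macUp i (rk i b)` for antitone `b`. Induction on `i` (for all `b`). `i = 0`: `C(b 0, 1) = b 0`, `macUp 0 _ = 0`. `i + 1`:
`rk (i+2) b = C(b 0 + i + 1, i + 2) + rk (i+1) b' = C(b 0 + i + 1, i + 2) + b (i+1) + macUp i (rk i b')`, and `rk (i+1) b = C(b 0 + i, i+1) + rk i b'` with
`rk i b' < C(b 0 + i, i)` (rk_lt), so `macUp (i+1) (rk (i+1) b) = C(b 0 + i + 1, i + 2) + macUp i (rk i b')` (macUp_add).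
PLAN macUp_mono: induction on `i`: let `q ≤ q'` with greatest `a ≤ a'`. If `a = a'` use IH. If `a < a'`: `macUp (i+1) q ≤ C(a + 2, i + 2) ≤ C(a' + 1, i + 2) ≤ macUp (i+1) q'`, where
`macUp i r ≤ C(a + 1, i + 1)` for `r < C(a, i)`: this is the lemma macUp_le: `r < C(a, i)` implies `macUp i r ≤ C(a + 1, i + 1)` (`a ≥ i`; induction on `i` with the greatest `a1 < a`
for `r`: `C(a1 + 1, i + 1) + macUp (i-1) r1 ≤ C(a1 + 1, i+1) + C(a1 + 1, i) = C(a1 + 2, i + 1) ≤ C(a + 1, i + 1)`).
(If you prefer: every `q` is `rk i b` (COQ3) and everything is monotone.)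
-/

namespace Pool.Agent.LibHB64

open Finset

private theorem coq1_lin (i t : ℕ) : t + 1 ≤ (t + i + 1).choose (i + 1) := by
  induction t with
  | zero => simp
  | succ t ih =>
    have h : (t + 1 + i + 1).choose (i + 1) = (t + i + 1).choose i + (t + i + 1).choose (i + 1) := by
      rw [show t + 1 + i + 1 = (t + i + 1) + 1 by ring, Nat.choose_succ_succ]
    have h2 : 0 < (t + i + 1).choose i := Nat.choose_pos (by omega)
    omega

private theorem coq1_find {i q a : ℕ} (hi : i ≤ a) (h1 : a.choose (i + 1) ≤ q) (h2 : q < (a + 1).choose (i + 1)) :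
    Nat.findGreatest (fun a => a.choose (i + 1) ≤ q) (q + i) = a := by
  rw [Nat.findGreatest_eq_iff]
  refine ⟨?_, fun _ => h1, fun n hn _ => ?_⟩
  · rcases Nat.eq_or_lt_of_le hi with h | h
    · omega
    · obtain ⟨t, rfl⟩ : ∃ t, a = t + i + 1 := ⟨a - i - 1, by omega⟩
      have h3 := coq1_lin i t
      omega
  · have h3 : (a + 1).choose (i + 1) ≤ n.choose (i + 1) := Nat.choose_le_choose _ hn
    show ¬ (n.choose (i + 1) ≤ q)
    omega

private theorem coq1_G (i q : ℕ) : ∃ a, i ≤ a ∧ a.choose (i + 1) ≤ q ∧ q < (a + 1).choose (i + 1) ∧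
    macUp (i + 1) q = (a + 1).choose (i + 2) + macUp i (q - a.choose (i + 1)) := by
  have hP : i.choose (i + 1) ≤ q := by rw [Nat.choose_succ_self]; exact Nat.zero_le _
  have hle : i ≤ Nat.findGreatest (fun a => a.choose (i + 1) ≤ q) (q + i) :=
    Nat.le_findGreatest (by omega) hP
  have hsp : (fun a => a.choose (i + 1) ≤ q) (Nat.findGreatest (fun a => a.choose (i + 1) ≤ q) (q + i)) :=
    Nat.findGreatest_spec (P := fun a => a.choose (i + 1) ≤ q) (m := i) (by omega) hP
  refine ⟨Nat.findGreatest (fun a => a.choose (i + 1) ≤ q) (q + i), hle, hsp, ?_, rfl⟩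
  by_contra hcon
  rw [not_lt] at hcon
  have hub : Nat.findGreatest (fun a => a.choose (i + 1) ≤ q) (q + i) ≤ q + i := Nat.findGreatest_le _
  rcases Nat.eq_or_lt_of_le hub with h | h
  · rw [h] at hcon
    have := coq1_lin i q
    omega
  · exact Nat.findGreatest_is_greatest (P := fun a => a.choose (i + 1) ≤ q) (Nat.lt_succ_self _) h hcon

private theorem coq1_le (i : ℕ) : ∀ a r : ℕ, r < a.choose i → macUp i r ≤ (a + 1).choose (i + 1) := by
  induction i with
  | zero => intro a r _; exact Nat.zero_le _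
  | succ i ih =>
    intro a r hr
    obtain ⟨g, hg1, hg2, hg3, hg4⟩ := coq1_G i r
    have hga : g < a := by
      by_contra hcon
      rw [not_lt] at hcon
      have := Nat.choose_le_choose (i + 1) hcon
      omega
    rw [hg4]
    have h1 : (g + 1).choose (i + 1) = g.choose i + g.choose (i + 1) := Nat.choose_succ_succ _ _
    have h2 := ih g (r - g.choose (i + 1)) (by omega)
    have h3 : (g + 1 + 1).choose (i + 1 + 1) = (g + 1).choose (i + 1) + (g + 1).choose (i + 1 + 1) :=
      Nat.choose_succ_succ _ _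
    have h4 : (g + 1 + 1).choose (i + 1 + 1) ≤ (a + 1).choose (i + 1 + 1) := Nat.choose_le_choose _ (by omega)
    show (g + 1).choose (i + 1 + 1) + _ ≤ (a + 1).choose (i + 1 + 1)
    omega

theorem rk_lt (i : ℕ) (b : ℕ → ℕ) (hb : Antitone b) (x : ℕ) (hx : b 0 ≤ x) : rk i b < (x + i).choose i := by
  induction i generalizing b x with
  | zero => simp [rk]
  | succ i ih =>
    have h1 := ih (fun k => b (k + 1)) (fun a c hac => hb (by omega)) (b 0) (hb (by omega))
    have h2 : (b 0 + i + 1).choose (i + 1) = (b 0 + i).choose i + (b 0 + i).choose (i + 1) :=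
      Nat.choose_succ_succ _ _
    have h3 : (b 0 + i + 1).choose (i + 1) ≤ (x + (i + 1)).choose (i + 1) := Nat.choose_le_choose _ (by omega)
    show (b 0 + i).choose (i + 1) + rk i (fun k => b (k + 1)) < _
    omega

theorem macUp_add (i x r : ℕ) (hr : r < (x + i).choose i) :
    macUp (i + 1) ((x + i).choose (i + 1) + r) = (x + i + 1).choose (i + 2) + macUp i r := by
  have h2 : (x + i + 1).choose (i + 1) = (x + i).choose i + (x + i).choose (i + 1) := Nat.choose_succ_succ _ _
  have h := coq1_find (i := i) (q := (x + i).choose (i + 1) + r) (a := x + i) (by omega) (by omega) (by omega)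
  rw [macUp, h]
  simp only [Nat.add_sub_cancel_left]

theorem rk_succ (i : ℕ) (b : ℕ → ℕ) (hb : Antitone b) : rk (i + 1) b = b i + macUp i (rk i b) := by
  induction i generalizing b with
  | zero => simp [rk, macUp]
  | succ i ih =>
    have hb' : Antitone (fun k => b (k + 1)) := fun a c hac => hb (by omega)
    have h1 := ih (fun k => b (k + 1)) hb'
    have h2 := rk_lt i (fun k => b (k + 1)) hb' (b 0) (hb (by omega))
    have h3 := macUp_add i (b 0) _ h2
    have h4 : rk (i + 1 + 1) b = (b 0 + (i + 1)).choose (i + 1 + 1) + rk (i + 1) (fun k => b (k + 1)) := rfl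
    have h5 : rk (i + 1) b = (b 0 + i).choose (i + 1) + rk i (fun k => b (k + 1)) := rfl
    rw [h4, h5, h3, h1]
    show (b 0 + (i + 1)).choose (i + 1 + 1) + (b (i + 1) + _) = b (i + 1) + ((b 0 + i + 1).choose (i + 2) + _)
    have h6 : (b 0 + (i + 1)).choose (i + 1 + 1) = (b 0 + i + 1).choose (i + 2) := rfl
    omega

theorem macUp_mono (i : ℕ) {q q' : ℕ} (h : q ≤ q') : macUp i q ≤ macUp i q' := by
  induction i generalizing q q' with
  | zero => exact le_rfl
  | succ i ih =>
    obtain ⟨g, hg1, hg2, hg3, hg4⟩ := coq1_G i q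
    obtain ⟨g', hg1', hg2', hg3', hg4'⟩ := coq1_G i q'
    have hgg : g ≤ g' := by
      by_contra hcon
      rw [not_le] at hcon
      have : (g' + 1).choose (i + 1) ≤ g.choose (i + 1) := Nat.choose_le_choose _ hcon
      omega
    rw [hg4, hg4']
    rcases Nat.eq_or_lt_of_le hgg with h1 | h1
    · subst h1
      have := ih (q := q - g.choose (i + 1)) (q' := q' - g.choose (i + 1)) (by omega)
      omega
    · have h2 : (g + 1).choose (i + 1) = g.choose i + g.choose (i + 1) := Nat.choose_succ_succ _ _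
      have h3 := coq1_le i g (q - g.choose (i + 1)) (by omega)
      have h4 : (g + 1 + 1).choose (i + 1 + 1) = (g + 1).choose (i + 1) + (g + 1).choose (i + 1 + 1) :=
        Nat.choose_succ_succ _ _
      have h5 : (g + 1 + 1).choose (i + 1 + 1) ≤ (g' + 1).choose (i + 1 + 1) := Nat.choose_le_choose _ (by omega)
      show (g + 1).choose (i + 1 + 1) + _ ≤ (g' + 1).choose (i + 1 + 1) + _
      omega

end Pool.Agent.LibHB64
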