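import Pool.Agent.LibHB64.CODefs
import Pool.Agent.LibHB64.COQ0
import Pool.Agent.LibHB64.COQ1

set_option autoImplicit false

/-!
Row Q2. The rank is strictly monotone for the lexicographic order, and every number is a rank.
PLAN rk_lex: by induction on `k`: for `k = 0`, `b 0 < c 0`: `rk (i'+1) b < C(b 0 + i' + 1, i' + 1) ≤ C(c 0 + i', i' + 1) ≤ rk (i'+1) c` (`rk_lt` with `i' + 1`, `x = b 0`). For `k + 1`:
`b 0 = c 0`, the shifted sequences.
PLAN rk_lex_iff: one direction is rk_lex; conversely, if the first `i` entries do not agree, the first difference decides; if they agree, the ranks are equal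
(rk_congr). PLAN rk_mono: `b ≤ c` on `[0, i)`: `rk i b ≤ rk i c` (monotone binomials). PLAN rk_inj: equal ranks imply equal entries.
PLAN rk_surj: induction on `i ≥ 1`: `i = 1`: `b 0 = N`. `i + 1`: let `a` be the greatest number with `C(a, i+1) ≤ N` (so `a ≥ i`), `N < C(a+1, i+1)`, `N - C(a, i+1) < C(a, i)`; `b'` from the
IH for `N - C(a, i+1)`; `b 0 := a - i`, `b (k+1) := b' k`. `b' 0 ≤ b 0`: otherwise `C(b' 0 + i - 1, i) ≥ C(a, i)`, but `C(b' 0 + i - 1, i) ≤ rk i b'`. Zeros from `i` on.
-/

namespace Pool.Agent.LibHB64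

open Finset

private theorem Q2_shift {b : ℕ → ℕ} (hb : Antitone b) : Antitone fun k => b (k + 1) :=
  fun _ _ h => hb (Nat.succ_le_succ h)

private theorem Q2_first {b c : ℕ → ℕ} {i : ℕ} (h : ¬ ∀ k, k < i → b k = c k) :
    ∃ k, k < i ∧ (∀ l, l < k → b l = c l) ∧ b k ≠ c k := by
  classical
  push Not at h
  have hf := Nat.find_spec h
  refine ⟨Nat.find h, hf.1, fun l hl => ?_, hf.2⟩
  by_contra hne
  exact Nat.find_min h hl ⟨hl.trans hf.1, hne⟩

private theorem Q2_big (k N : ℕ) : N + 1 ≤ (N + (k + 1)).choose (k + 1) := by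
  induction N with
  | zero => simp
  | succ N ih =>
    have h1 : (N + 1 + (k + 1)).choose (k + 1) =
        (N + (k + 1)).choose k + (N + (k + 1)).choose (k + 1) := by
      have : N + 1 + (k + 1) = (N + (k + 1)) + 1 := by ring
      rw [this, Nat.choose_succ_succ]
    have h2 : 0 < (N + (k + 1)).choose k := Nat.choose_pos (by omega)
    omega


theorem rk_congr (i : ℕ) {b c : ℕ → ℕ} (h : ∀ k, k < i → b k = c k) : rk i b = rk i c := by
  induction i generalizing b c with
  | zero => rfl
  | succ i ih =>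
    change (b 0 + i).choose (i + 1) + rk i (fun k => b (k + 1)) =
      (c 0 + i).choose (i + 1) + rk i (fun k => c (k + 1))
    rw [h 0 (Nat.succ_pos i), ih fun k hk => h (k + 1) (by omega)]

theorem rk_mono (i : ℕ) {b c : ℕ → ℕ} (h : ∀ k, k < i → b k ≤ c k) : rk i b ≤ rk i c := by
  induction i generalizing b c with
  | zero => exact le_rfl
  | succ i ih =>
    change (b 0 + i).choose (i + 1) + rk i (fun k => b (k + 1)) ≤
      (c 0 + i).choose (i + 1) + rk i (fun k => c (k + 1))
    exact Nat.add_le_add (Nat.choose_le_choose _ (Nat.add_le_add_right (h 0 (Nat.succ_pos i)) i))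
      (ih fun k hk => h (k + 1) (by omega))

theorem rk_lex (i : ℕ) {b c : ℕ → ℕ} (hb : Antitone b) (hc : Antitone c) (k : ℕ) (hk : k < i)
    (h : ∀ l, l < k → b l = c l) (h2 : b k < c k) : rk i b < rk i c := by
  induction k generalizing i b c with
  | zero =>
    obtain ⟨i, rfl⟩ : ∃ i', i = i' + 1 := ⟨i - 1, by omega⟩
    have h3 := rk_lt (i + 1) b hb (b 0) le_rfl
    have h4 : (b 0 + (i + 1)).choose (i + 1) ≤ (c 0 + i).choose (i + 1) :=
      Nat.choose_le_choose _ (by omega)
    have h5 : (c 0 + i).choose (i + 1) ≤ rk (i + 1) c := Nat.le_add_right _ _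
    omega
  | succ k ih =>
    obtain ⟨i, rfl⟩ : ∃ i', i = i' + 1 := ⟨i - 1, by omega⟩
    have h3 := ih i (Q2_shift hb) (Q2_shift hc) (by omega) (fun l hl => h (l + 1) (by omega)) h2
    change (b 0 + i).choose (i + 1) + rk i (fun k => b (k + 1)) <
      (c 0 + i).choose (i + 1) + rk i (fun k => c (k + 1))
    rw [h 0 (Nat.succ_pos k)]
    exact Nat.add_lt_add_left h3 _

theorem rk_lex_iff (i : ℕ) {b c : ℕ → ℕ} (hb : Antitone b) (hc : Antitone c) :
    rk i b < rk i c ↔ ∃ k, k < i ∧ (∀ l, l < k → b l = c l) ∧ b k < c k := by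
  constructor
  · intro h
    by_cases hall : ∀ k, k < i → b k = c k
    · rw [rk_congr i hall] at h
      exact absurd h (lt_irrefl _)
    · obtain ⟨k, hk, hl, hne⟩ := Q2_first hall
      rcases Nat.lt_or_gt_of_ne hne with h1 | h1
      · exact ⟨k, hk, hl, h1⟩
      · have h2 := rk_lex i hc hb k hk (fun l hl' => (hl l hl').symm) h1
        exact absurd h (not_lt.mpr h2.le)
  · rintro ⟨k, hk, hl, h1⟩
    exact rk_lex i hb hc k hk hl h1

theorem rk_inj (i : ℕ) {b c : ℕ → ℕ} (hb : Antitone b) (hc : Antitone c) (h : rk i b = rk i c) :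
    ∀ k, k < i → b k = c k := by
  by_contra hall
  obtain ⟨k, hk, hl, hne⟩ := Q2_first hall
  rcases Nat.lt_or_gt_of_ne hne with h1 | h1
  · exact absurd h (rk_lex i hb hc k hk hl h1).ne
  · exact absurd h (rk_lex i hc hb k hk (fun l hl' => (hl l hl').symm) h1).ne'

theorem rk_surj (i : ℕ) (hi : 1 ≤ i) (N : ℕ) :
    ∃ b : ℕ → ℕ, Antitone b ∧ (∀ k, i ≤ k → b k = 0) ∧ rk i b = N := by
  obtain ⟨n, rfl⟩ : ∃ n, i = n + 1 := ⟨i - 1, by omega⟩
  clear hi
  induction n generalizing N with
  | zero =>
    refine ⟨fun k => if k = 0 then N else 0, ?_, ?_, ?_⟩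
    · apply antitone_nat_of_succ_le
      intro k
      simp
    · intro k hk
      have : k ≠ 0 := by omega
      simp [this]
    · simp [rk]
  | succ n ih =>
    classical
    have hex : ∃ a' : ℕ, N < a'.choose (n + 2) := ⟨N + (n + 1 + 1), Q2_big (n + 1) N⟩
    have hf := Nat.find_spec hex
    have hge : n + 2 ≤ Nat.find hex := by
      by_contra hlt
      rw [Nat.choose_eq_zero_of_lt (by omega)] at hf
      omega
    obtain ⟨x, hx⟩ : ∃ x, Nat.find hex = x + (n + 1) + 1 := ⟨Nat.find hex - (n + 2), by omega⟩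
    have hmin : (x + (n + 1)).choose (n + 2) ≤ N := by
      have := Nat.find_min hex (m := x + (n + 1)) (by omega)
      exact not_lt.mp this
    rw [hx, Nat.choose_succ_succ] at hf
    have hf' : N < (x + (n + 1)).choose (n + 1) + (x + (n + 1)).choose (n + 2) := hf
    obtain ⟨b', hb', hz, hr⟩ := ih (N - (x + (n + 1)).choose (n + 2))
    have hb0 : b' 0 ≤ x := by
      by_contra hlt
      have h1 : (b' 0 + n).choose (n + 1) ≤ rk (n + 1) b' := Nat.le_add_right _ _
      have h2 : (x + (n + 1)).choose (n + 1) ≤ (b' 0 + n).choose (n + 1) :=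
        Nat.choose_le_choose _ (by omega)
      rw [hr] at h1
      omega
    refine ⟨fun k => if k = 0 then x else b' (k - 1), ?_, ?_, ?_⟩
    · apply antitone_nat_of_succ_le
      intro k
      by_cases hk : k = 0
      · subst hk
        simpa using hb0
      · simp only [hk, if_false, Nat.succ_ne_zero, Nat.add_sub_cancel]
        exact hb' (Nat.sub_le k 1)
    · intro k hk
      have h1 : k ≠ 0 := by omega
      simp only [h1, if_false]
      exact hz _ (by omega)
    · change (x + (n + 1)).choose (n + 2) + rk (n + 1) (fun k => b' (k + 1 - 1)) = N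
      have h1 : (fun k => b' (k + 1 - 1)) = b' := by
        funext k
        rw [Nat.add_sub_cancel]
      rw [h1, hr]
      omega

end Pool.Agent.LibHB64
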