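import Pool.Agent.LibHB64.CODefs
import Pool.Agent.LibHB64.COQ0
import Pool.Agent.LibHB64.COQ1
import Pool.Agent.LibHB64.COQ2

set_option autoImplicit false

/-!
Row Q3. Monotone vectors as monomials; counting by rank.
PLAN bs_anti, bs_pos: unfold. For monotone `s`: `s i > 0` for the last `dgm s` indices exactly. `exists_of_anti`: `s i = b (m - 1 - i)`. `bs_ext`: from `bs s = bs t`.
PLAN card_lt: the map `w ↦ rk i (bs w)` is a bijection from the set `W` (`hW`) onto `range N`: injective by `rk_inj` (entries `≥ i` are zero as `dgm w ≤ i`), surjective by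
`rk_surj` and `exists_of_anti`. PLAN card_before: for `dgm s ≤ i`, `dgm w ≤ i`: `lx w < lx s ↔ rk i (bs w) < rk i (bs s)`: by `rk_lex_iff` both say: first difference
`k` with `bs w k < bs s k`, and `k < i` automatically since `bs s k = 0` for `k ≥ i`. So this is `card_lt` for `N = rk i (bs s)`.
PLAN card_free (numbers of monomials without the first variable): for `1 ≤ j ≤ m` the map `w ↦ rk j (fun k => bs w k - 1)` is a bijection from `{w : dgm w = j, rank < N}` onto
`range N` (`bs w k ≥ 1` for `k < j`, `= 0` for `k ≥ j`; given `b` from `rk_surj` take the entries `b k + 1` for `k < j`).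
-/

namespace Pool.Agent.LibHB64

open Finset

variable {m : ℕ} {s t : Fin m → ℕ}

private theorem Q3_lt (s : Fin m → ℕ) {k : ℕ} (h : k < m) : bs s k = s ⟨m - 1 - k, by omega⟩ := by
  unfold bs
  rw [dif_pos h]

private theorem Q3_ge (s : Fin m → ℕ) {k : ℕ} (h : m ≤ k) : bs s k = 0 := by
  unfold bs
  rw [dif_neg (by omega)]

theorem bs_anti (hs : Monotone s) : Antitone (bs s) := by
  intro a b hab
  by_cases hb : b < m
  · rw [Q3_lt s hb, Q3_lt s (lt_of_le_of_lt hab hb)]
    apply hs
    rw [Fin.mk_le_mk]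
    omega
  · rw [Q3_ge s (by omega)]
    exact Nat.zero_le _

private theorem Q3_dg_le (s : Fin m → ℕ) : dgm s ≤ m := by
  unfold dgm
  refine (Finset.card_filter_le _ _).trans ?_
  rw [Finset.card_univ, Fintype.card_fin]

theorem bs_pos (hs : Monotone s) (k : ℕ) : 0 < bs s k ↔ k < dgm s := by
  have hd := Q3_dg_le s
  by_cases hk : k < m
  · rw [Q3_lt s hk]
    constructor
    · intro h
      have h1 : Finset.Ici (⟨m - 1 - k, by omega⟩ : Fin m) ⊆ univ.filter fun i => 0 < s i := by
        intro i hi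
        rw [Finset.mem_Ici] at hi
        rw [Finset.mem_filter]
        exact ⟨Finset.mem_univ _, lt_of_lt_of_le h (hs hi)⟩
      have h2 := Finset.card_le_card h1
      rw [Fin.card_Ici] at h2
      unfold dgm
      have h3 : m - (m - 1 - k) = k + 1 := by omega
      simp only at h2
      omega
    · intro h
      by_contra hcon
      have hz : s ⟨m - 1 - k, by omega⟩ = 0 := by omega
      have h1 : (univ.filter fun i => 0 < s i) ⊆ Finset.Ioi (⟨m - 1 - k, by omega⟩ : Fin m) := by
        intro i hi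
        rw [Finset.mem_filter] at hi
        rw [Finset.mem_Ioi]
        by_contra hle
        rw [not_lt] at hle
        have := hs hle
        omega
      have h2 := Finset.card_le_card h1
      rw [Fin.card_Ioi] at h2
      unfold dgm at h
      simp only at h2
      omega
  · rw [Q3_ge s (by omega)]
    constructor
    · intro h
      omega
    · intro h
      omega

theorem dg_le (s : Fin m → ℕ) : dgm s ≤ m := Q3_dg_le s

theorem bs_le (h : s ≤ t) (k : ℕ) : bs s k ≤ bs t k := by
  by_cases hk : k < m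
  · rw [Q3_lt s hk, Q3_lt t hk]
    exact h _
  · rw [Q3_ge s (by omega)]
    exact Nat.zero_le _

theorem dg_mono (h : s ≤ t) : dgm s ≤ dgm t := by
  unfold dgm
  apply Finset.card_le_card
  intro i hi
  rw [Finset.mem_filter] at hi ⊢
  exact ⟨hi.1, lt_of_lt_of_le hi.2 (h i)⟩

theorem exists_of_anti (b : ℕ → ℕ) (hb : Antitone b) (h0 : ∀ k, m ≤ k → b k = 0) :
    ∃ s : Fin m → ℕ, Monotone s ∧ bs s = b := by
  refine ⟨fun i => b (m - 1 - i), ?_, ?_⟩
  · intro i j hij
    apply hb
    have : (i : ℕ) ≤ j := hij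
    omega
  · funext k
    by_cases hk : k < m
    · rw [Q3_lt _ hk]
      show b (m - 1 - (m - 1 - k)) = b k
      congr 1
      omega
    · rw [Q3_ge _ (by omega), h0 k (by omega)]

theorem bs_ext (h : bs s = bs t) : s = t := by
  funext i
  have hi := i.2
  have h1 := congrFun h (m - 1 - i)
  rw [Q3_lt s (by omega), Q3_lt t (by omega)] at h1
  have h2 : (⟨m - 1 - (m - 1 - (i : ℕ)), by omega⟩ : Fin m) = i := by
    apply Fin.ext
    show m - 1 - (m - 1 - (i : ℕ)) = i
    omega
  rwa [h2] at h1

theorem lx_inj (hs : Monotone s) (ht : Monotone t) (h : lx s = lx t) : s = t := by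
  apply bs_ext
  funext k
  by_cases hk : k < m
  · exact rk_inj m (bs_anti hs) (bs_anti ht) h k hk
  · rw [Q3_ge s (by omega), Q3_ge t (by omega)]

theorem lx_le (h : s ≤ t) : lx s ≤ lx t := rk_mono m fun k _ => bs_le h k

/-- `lx` is the lexicographic order -/
theorem lx_lt_iff (hs : Monotone s) (ht : Monotone t) :
    lx s < lx t ↔ ∃ k, k < m ∧ (∀ l, l < k → bs s l = bs t l) ∧ bs s k < bs t k :=
  rk_lex_iff m (bs_anti hs) (bs_anti ht)

private theorem Q3_zero (hs : Monotone s) {i k : ℕ} (h : dgm s ≤ i) (hk : i ≤ k) : bs s k = 0 := by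
  by_contra hcon
  have := (bs_pos hs k).1 (Nat.pos_of_ne_zero hcon)
  omega

theorem card_before (hs : Monotone s) {i : ℕ} (hi : 1 ≤ i) (him : i ≤ m) (hsi : dgm s ≤ i) (W : Finset (Fin m → ℕ))
    (hW : ∀ w, w ∈ W ↔ Monotone w ∧ dgm w ≤ i ∧ lx w < lx s) : W.card = rk i (bs s) := by
  have key : ∀ w : Fin m → ℕ, Monotone w → (lx w < lx s ↔ rk i (bs w) < rk i (bs s)) := by
    intro w hw
    rw [lx_lt_iff hw hs, rk_lex_iff i (bs_anti hw) (bs_anti hs)]
    constructor
    · rintro ⟨k, hk, h1, h2⟩
      refine ⟨k, ?_, h1, h2⟩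
      by_contra hcon
      rw [Q3_zero hs hsi (by omega)] at h2
      omega
    · rintro ⟨k, hk, h1, h2⟩
      exact ⟨k, by omega, h1, h2⟩
  rw [← Finset.card_range (rk i (bs s))]
  refine Finset.card_bij (fun w _ => rk i (bs w)) ?_ ?_ ?_
  · intro w hw
    obtain ⟨h1, h2, h3⟩ := (hW w).1 hw
    rw [Finset.mem_range]
    exact (key w h1).1 h3
  · intro w hw w' hw' h
    obtain ⟨h1, h2, h3⟩ := (hW w).1 hw
    obtain ⟨h1', h2', h3'⟩ := (hW w').1 hw'
    apply bs_ext
    funext k
    by_cases hk : k < i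
    · exact rk_inj i (bs_anti h1) (bs_anti h1') h k hk
    · rw [Q3_zero h1 h2 (by omega), Q3_zero h1' h2' (by omega)]
  · intro N hN
    rw [Finset.mem_range] at hN
    obtain ⟨b, hb1, hb2, hb3⟩ := rk_surj i hi N
    obtain ⟨w, hw1, hw2⟩ := exists_of_anti (m := m) b hb1 (fun k hk => hb2 k (by omega))
    refine ⟨w, ?_, ?_⟩
    · rw [hW]
      refine ⟨hw1, ?_, ?_⟩
      · by_contra hcon
        have h1 := (bs_pos hw1 i).2 (by omega)
        rw [hw2, hb2 i le_rfl] at h1
        omega
      · rw [key w hw1, hw2, hb3]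
        exact hN
    · show rk i (bs w) = N
      rw [hw2, hb3]

theorem card_free {j : ℕ} (hj : 1 ≤ j) (hjm : j ≤ m) (N : ℕ) (W : Finset (Fin m → ℕ))
    (hW : ∀ w, w ∈ W ↔ Monotone w ∧ dgm w = j ∧ rk j (fun k => bs w k - 1) < N) : W.card = N := by
  have hanti : ∀ w : Fin m → ℕ, Monotone w → Antitone (fun k => bs w k - 1) := by
    intro w hw a b hab
    have := bs_anti hw hab
    show bs w b - 1 ≤ bs w a - 1
    omega
  rw [← Finset.card_range N]
  refine Finset.card_bij (fun w _ => rk j (fun k => bs w k - 1)) ?_ ?_ ?_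
  · intro w hw
    obtain ⟨h1, h2, h3⟩ := (hW w).1 hw
    rw [Finset.mem_range]
    exact h3
  · intro w hw w' hw' h
    obtain ⟨h1, h2, h3⟩ := (hW w).1 hw
    obtain ⟨h1', h2', h3'⟩ := (hW w').1 hw'
    apply bs_ext
    funext k
    by_cases hk : k < j
    · have e1 := rk_inj j (hanti w h1) (hanti w' h1') h k hk
      have e2 := (bs_pos h1 k).2 (by omega)
      have e3 := (bs_pos h1' k).2 (by omega)
      omega
    · rw [Q3_zero h1 h2.le (by omega), Q3_zero h1' h2'.le (by omega)]
  · intro N' hN
    rw [Finset.mem_range] at hN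
    obtain ⟨b, hb1, hb2, hb3⟩ := rk_surj j hj N'
    obtain ⟨w, hw1, hw2⟩ := exists_of_anti (m := m) (fun k => if k < j then b k + 1 else 0)
      (by
        intro x y hxy
        show (if y < j then b y + 1 else 0) ≤ (if x < j then b x + 1 else 0)
        have := hb1 hxy
        split_ifs <;> omega)
      (fun k hk => if_neg (by omega))
    have hrk : rk j (fun k => bs w k - 1) = N' := by
      rw [← hb3]
      apply rk_congr
      intro k hk
      rw [hw2]
      show (if k < j then b k + 1 else 0) - 1 = b k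
      rw [if_pos hk]
      omega
    have hpos : ∀ k, k < dgm w ↔ k < j := by
      intro k
      rw [← bs_pos hw1 k, hw2]
      show 0 < (if k < j then b k + 1 else 0) ↔ k < j
      split_ifs with h
      · exact ⟨fun _ => h, fun _ => by omega⟩
      · exact ⟨fun h' => by omega, fun h' => absurd h' h⟩
    refine ⟨w, ?_, hrk⟩
    rw [hW]
    refine ⟨hw1, ?_, by rw [hrk]; exact hN⟩
    have e1 := hpos j
    have e2 := hpos (dgm w)
    omega

end Pool.Agent.LibHB64
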