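import Pool.Agent.LibHB64.CODefs
import Pool.Agent.LibHB64.COQ0
import Pool.Agent.LibHB64.COQ1
import Pool.Agent.LibHB64.COQ2
import Pool.Agent.LibHB64.COQ3

set_option autoImplicit false

/-!
Row Q4. The compressed ideal.
PLAN mem_XG: the bound on the entries is automatic: for `j = dgm s ≥ 1`, `s i ≤ bs s 0`, and with `x = bs s 0 - 1`: `x ≤ C(x + j - 1, j) ≤ rk j (bs s - 1) < γ j ≤ ∑ γ`.
(`fun k => bs s k - 1` is antitone.)
PLAN XG_down: `s ∈ XG`, `j' ≤ dgm s`: `rk j' (fun k => bs s k - 1) < γ j'`: downward induction: if `rk (j+1) b < γ (j+1)` (`b = bs s - 1`), `1 ≤ j`, `j < m`, then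
`rk (j+1) b = b j + macUp j (rk j b) ≥ macUp j (rk j b)` (`rk_succ`); if `rk j b ≥ γ j` then (`macUp_mono`) `≥ macUp j (γ j) ≥ γ (j+1)`, contradiction; `j = 0`: `rk 0 b = 0 < 1 = γ 0`.
PLAN XG_id: `ne`: the zero vector. `down`: `t ≤ s`: `dgm t ≤ dgm s` (`dg_mono`), `rk (dgm t) (bs t - 1) ≤ rk (dgm t) (bs s - 1) < γ (dgm t)` (`rk_mono`, `bs_le`, XG_down).
PLAN XG_card: `#{s ∈ XG : dgm s = j} = γ j` by `card_free` for `1 ≤ j ≤ m`, and `1 = γ 0` for `j = 0`; sum over `j ≤ i` (`Finset.card_eq_sum_card_fiberwise` or induction on `i`).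
-/

namespace Pool.Agent.LibHB64

open Finset

/-- numerical M-sequence up to degree `m` -/
def MNum (m : ℕ) (γ : ℕ → ℕ) : Prop := γ 0 = 1 ∧ ∀ i, 1 ≤ i → i < m → γ (i + 1) ≤ macUp i (γ i)

variable {m : ℕ} {γ : ℕ → ℕ} {s t : Fin m → ℕ}

private theorem Q4_choose (n j : ℕ) (hj : 1 ≤ j) : n + 1 ≤ (n + j).choose j := by
  have h1 : (n + 1).choose n ≤ (n + j).choose n := Nat.choose_le_choose n (by omega)
  have h2 : (n + 1).choose n = n + 1 := Nat.choose_succ_self_right n
  have h3 : (n + j).choose n = (n + j).choose j := Nat.choose_symm_add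
  omega

private theorem Q4_bound (hs : Monotone s) (h : rk (dgm s) (fun k => bs s k - 1) < γ (dgm s)) (i : Fin m) :
    s i < (∑ j ∈ Finset.range (m + 1), γ j) + 1 := by
  rcases Nat.eq_zero_or_pos (s i) with h0 | h0
  · omega
  have hm : 0 < m := by
    have := i.2
    omega
  have hdg : 0 < dgm s := by
    unfold dgm
    exact Finset.card_pos.2 ⟨i, Finset.mem_filter.2 ⟨Finset.mem_univ _, h0⟩⟩
  have hbs : s i ≤ bs s 0 := by
    unfold bs
    rw [dif_pos hm]
    apply hs
    have := i.2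
    change (i : ℕ) ≤ m - 1 - 0
    omega
  have hγ : γ (dgm s) ≤ ∑ j ∈ Finset.range (m + 1), γ j :=
    Finset.single_le_sum (f := γ) (fun _ _ => Nat.zero_le _)
      (Finset.mem_range.2 (by have := dg_le s; omega))
  obtain ⟨j', hj'⟩ : ∃ j', dgm s = j' + 1 := ⟨dgm s - 1, by omega⟩
  have h1 : (bs s 0 - 1 + j').choose (j' + 1) ≤ rk (dgm s) (fun k => bs s k - 1) := by
    rw [hj']
    exact Nat.le_add_right _ _
  have h2 : bs s 0 - 1 ≤ (bs s 0 - 1 + j').choose (j' + 1) := by
    rcases Nat.eq_zero_or_pos (bs s 0 - 1) with h3 | h3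
    · omega
    · obtain ⟨n, hn⟩ : ∃ n, bs s 0 - 1 = n + 1 := ⟨bs s 0 - 1 - 1, by omega⟩
      rw [hn]
      have h4 := Q4_choose n (j' + 1) (by omega)
      have h5 : n + 1 + j' = n + (j' + 1) := by omega
      rw [h5]
      exact h4
  omega

theorem mem_XG (hγ : MNum m γ) : s ∈ XG m γ ↔ Monotone s ∧ rk (dgm s) (fun k => bs s k - 1) < γ (dgm s) := by
  unfold XG
  rw [Finset.mem_filter, Fintype.mem_piFinset]
  constructor
  · rintro ⟨_, h1, h2⟩
    exact ⟨fun i j hij => h1 i j hij, h2⟩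
  · rintro ⟨h1, h2⟩
    refine ⟨fun i => Finset.mem_range.2 (Q4_bound h1 h2 i), fun i j hij => h1 hij, h2⟩

theorem XG_down (hγ : MNum m γ) (hs : s ∈ XG m γ) {j : ℕ} (hj : j ≤ dgm s) : rk j (fun k => bs s k - 1) < γ j := by
  obtain ⟨h1, h2⟩ := (mem_XG hγ).1 hs
  have hb : Antitone (fun k => bs s k - 1) := fun a b hab => Nat.sub_le_sub_right (bs_anti h1 hab) 1
  have key : ∀ n j, j + n = dgm s → rk j (fun k => bs s k - 1) < γ j := by
    intro n
    induction n with
    | zero =>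
      intro j hj
      have h3 : j = dgm s := by omega
      rw [h3]
      exact h2
    | succ n ih =>
      intro j hj
      have h3 := ih (j + 1) (by omega)
      have hdm := dg_le s
      rcases Nat.eq_zero_or_pos j with h4 | h4
      · rw [h4, hγ.1]
        exact Nat.zero_lt_one
      · by_contra h5
        have h6 : γ j ≤ rk j (fun k => bs s k - 1) := not_lt.1 h5
        have h7 := hγ.2 j h4 (by omega)
        have h8 := macUp_mono j h6
        rw [rk_succ j _ hb] at h3
        omega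
  exact key (dgm s - j) j (by omega)

private theorem Q4_dg_zero : dgm (0 : Fin m → ℕ) = 0 := by
  unfold dgm
  rw [Finset.card_eq_zero, Finset.filter_eq_empty_iff]
  intro i _
  simp

theorem XG_id (hγ : MNum m γ) : IsId (XG m γ) where
  ne := by
    refine ⟨0, (mem_XG hγ).2 ⟨fun _ _ _ => le_rfl, ?_⟩⟩
    rw [Q4_dg_zero, hγ.1]
    exact Nat.zero_lt_one
  mono := fun s hs => ((mem_XG hγ).1 hs).1
  down := by
    intro s hs t ht hts
    refine (mem_XG hγ).2 ⟨ht, ?_⟩
    refine lt_of_le_of_lt (rk_mono (dgm t) (c := fun k => bs s k - 1) (fun k _ => ?_))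
      (XG_down hγ hs (dg_mono hts))
    exact Nat.sub_le_sub_right (bs_le hts k) 1

theorem XG_deg (hγ : MNum m γ) {j : ℕ} (hj : j ≤ m) : ((XG m γ).filter fun s => dgm s = j).card = γ j := by
  rcases Nat.eq_zero_or_pos j with h0 | h0
  · subst h0
    rw [hγ.1, Finset.card_eq_one]
    refine ⟨0, ?_⟩
    ext s
    rw [Finset.mem_filter, Finset.mem_singleton]
    constructor
    · rintro ⟨_, h1⟩
      funext i
      unfold dgm at h1
      rw [Finset.card_eq_zero, Finset.filter_eq_empty_iff] at h1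
      have h2 := h1 (Finset.mem_univ i)
      change s i = 0
      omega
    · intro h
      rw [h]
      refine ⟨(mem_XG hγ).2 ⟨fun _ _ _ => le_rfl, ?_⟩, Q4_dg_zero⟩
      rw [Q4_dg_zero, hγ.1]
      exact Nat.zero_lt_one
  · refine card_free h0 hj (γ j) _ (fun w => ?_)
    rw [Finset.mem_filter, mem_XG hγ]
    constructor
    · rintro ⟨⟨h1, h2⟩, h3⟩
      rw [h3] at h2
      exact ⟨h1, h3, h2⟩
    · rintro ⟨h1, h3, h2⟩
      refine ⟨⟨h1, ?_⟩, h3⟩
      rw [h3]
      exact h2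

theorem XG_card (hγ : MNum m γ) {i : ℕ} (hi : i ≤ m) :
    ((XG m γ).filter fun s => dgm s ≤ i).card = ∑ j ∈ Finset.range (i + 1), γ j := by
  rw [Finset.card_eq_sum_card_fiberwise (f := dgm) (t := Finset.range (i + 1))]
  · refine Finset.sum_congr rfl (fun j hj => ?_)
    rw [Finset.mem_range] at hj
    rw [Finset.filter_filter, ← XG_deg hγ (by omega : j ≤ m)]
    congr 1
    refine Finset.filter_congr (fun s _ => ?_)
    constructor
    · rintro ⟨_, h⟩
      exact h
    · intro h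
      exact ⟨by omega, h⟩
  · intro s hs
    rw [Finset.mem_coe, Finset.mem_filter] at hs
    rw [Finset.mem_coe, Finset.mem_range]
    omega

end Pool.Agent.LibHB64
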