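import Pool.Agent.LibHB64.CODefs
import Pool.Agent.LibHB64.COQ4
import Pool.Agent.LibHB64.COP2

set_option autoImplicit false

/-!
Row Q5. The relative initial segments form a down-closed set.
Notation: `bef i s = #{s' ∈ XG : dgm s' ≤ i, lx s' < lx s}`, `T_i = {s ∈ XG : dgm s ≤ i, bef i s < t i}`.
PLAN no_gap: `u ∈ XG`, `dgm u = i`, `lx s < lx u`, `w` monotone, `dgm w ≤ i`, `lx w < lx s` implies `w ∈ XG`. If not: `j = dgm w`, `rk j (bs w - 1) ≥ γ j` (`mem_XG`), and
`rk j (bs u - 1) < γ j` (`XG_down`, `j ≤ i = dgm u`), so `rk j (bs u - 1) < rk j (bs w - 1)`; by `rk_lex_iff` there is `k < j` with `bs u l - 1 = bs w l - 1` for `l < k` and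
`bs u k - 1 < bs w k - 1`; all these entries are `≥ 1` (`bs_pos`), so `bs u l = bs w l`, `bs u k < bs w k`, so `lx u < lx w` (`lx_lt_iff`, `j ≤ m`): contradiction.
PLAN step_down (D): `s ∈ XG`, `dgm s ≤ i`, `i < m`, `bef (i+1) s < t (i+1)` implies `bef i s < t i`. `i = 0`: `dgm s = 0`, `s = 0` is the smallest: `bef 0 s = 0 < t 0 = 1`. `i ≥ 1`: suppose
`bef i s ≥ t i`. `bef (i+1) s = bef i s + #{s' ∈ XG : dgm s' = i + 1, lx s' < lx s}`, so the last number is `< t (i+1) - t i ≤ γ (i+1) = #{s' ∈ XG : dgm s' = i + 1}` (`XG_deg`);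
so there is `u ∈ XG`, `dgm u = i + 1`, not `lx u < lx s`, and `u ≠ s`, so `lx s < lx u` (`lx_inj`). By no_gap `bef (i+1) s` counts ALL monotone `w` with `dgm w ≤ i + 1`, `lx w < lx s`, so
(`card_before`) `bef (i+1) s = rk (i+1) (bs s)` and `bef i s = rk i (bs s)` (also all of them). `rk (i+1) (bs s) = bs s i + macUp i (rk i (bs s))` (`rk_succ`), `rk i (bs s) ≥ t i`, so
`≥ macUp i (t i) ≥ t (i+1)` (`macUp_mono`, `ht`): contradiction. (`bs_anti` for the antitone hypothesis.)
PLAN TG_isT. `ne`: `(0, 1)`. `down`: `(s, x) ∈ TG`, `(t', y) ∈ LL`, `t' ≤ s`, `¬ aft x y`; `i = dgr s x`, `i' = dgr t' y ≤ i` (if `x = 0`: `i = m + 1`; if `x ≠ 0` then `y ≠ 0`, `y ≤ x`; `dg_mono`).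
`bef i t' ≤ bef i s < t i` (`lx_le`). Go down from `i` to `i'`: while `i ≥ i' + 1`, `i ≤ m`: step_down (`dgm t' ≤ i'`); the step from `m + 1` to `m` (only if `x = 0`, so `o = 1`): `bef (m+1) t' =
bef m t'` (`dgm ≤ m`) and `t (m+1) ≤ t m` (`h1`).
PLAN TG_card: for `i ≤ m + o`: `#{p ∈ TG : dgr p = i} = #{s ∈ XG : dgm s ≤ i, bef i s < t i}` (for `i ≤ m` bijection `s ↦ (s, 2 (i - dgm s) + 1)`, as in the proof of COP4.LL_count; for `i = m + 1`,
`o = 1`: `s ↦ (s, 0)`) `= t i`, since in a finite set `X_i` with the injective function `lx` the number of elements with fewer than `t i ≤ |X_i|` predecessors is `t i`.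
(`|X_i| = ∑_(j ≤ i) γ j ≥ t i`, by `hd` and induction, `t 0 = γ 0 = 1`; for `i = m + 1`: `t (m+1) ≤ t m`.)
-/

namespace Pool.Agent.LibHB64

open Finset

variable {m o : ℕ} {γ t : ℕ → ℕ}

private theorem COQ5_anti {v : Fin m → ℕ} (hv : Monotone v) : Antitone (fun k => bs v k - 1) :=
  fun _ _ hab => Nat.sub_le_sub_right (bs_anti hv hab) 1

private theorem COQ5_gap (hγ : MNum m γ) {i : ℕ} {s u w : Fin m → ℕ} (hu : u ∈ XG m γ) (hui : dgm u = i)
    (hsu : lx s < lx u) (hw : Monotone w) (hwi : dgm w ≤ i) (hws : lx w < lx s) : w ∈ XG m γ := by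
  rw [mem_XG hγ]
  refine ⟨hw, ?_⟩
  by_contra hc
  rw [not_lt] at hc
  have hum : Monotone u := ((mem_XG hγ).1 hu).1
  have h1 : rk (dgm w) (fun k => bs u k - 1) < γ (dgm w) := XG_down hγ hu (by omega)
  have h2 : rk (dgm w) (fun k => bs u k - 1) < rk (dgm w) (fun k => bs w k - 1) := lt_of_lt_of_le h1 hc
  rw [rk_lex_iff _ (COQ5_anti hum) (COQ5_anti hw)] at h2
  obtain ⟨k, hk, hl, hlt⟩ := h2
  have hpos : ∀ l, l ≤ k → 0 < bs u l ∧ 0 < bs w l := fun l hl =>
    ⟨(bs_pos hum l).2 (by omega), (bs_pos hw l).2 (by omega)⟩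
  have h3 : lx u < lx w := by
    rw [lx_lt_iff hum hw]
    refine ⟨k, lt_of_lt_of_le hk (dg_le w), fun l hlk => ?_, ?_⟩
    · have h4 := hl l hlk
      have h5 := hpos l hlk.le
      omega
    · have h5 := hpos k le_rfl
      omega
  omega

private theorem COQ5_dg0 {s' s : Fin m → ℕ} (h' : Monotone s') (h : Monotone s) (h1 : dgm s' = 0) (h2 : dgm s = 0) :
    s' = s := by
  apply bs_ext
  funext k
  have h4 := bs_pos h' k
  have h5 := bs_pos h k
  rw [h1] at h4
  rw [h2] at h5
  omega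

private theorem COQ5_step (hγ : MNum m γ) (ht : MNum m t) (hd : ∀ i, i < m → t (i + 1) ≤ t i + γ (i + 1))
    {i : ℕ} (him : i < m) {s : Fin m → ℕ} (hs : s ∈ XG m γ) (hsi : dgm s ≤ i)
    (h : ((XG m γ).filter fun s' => dgm s' ≤ i + 1 ∧ lx s' < lx s).card < t (i + 1)) :
    ((XG m γ).filter fun s' => dgm s' ≤ i ∧ lx s' < lx s).card < t i := by
  have hmono : ∀ v, v ∈ XG m γ → Monotone v := fun v hv => ((mem_XG hγ).1 hv).1
  have hsm := hmono s hs
  rcases Nat.eq_zero_or_pos i with h0 | hi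
  · subst h0
    rw [ht.1, Nat.lt_one_iff, Finset.card_eq_zero, Finset.filter_eq_empty_iff]
    rintro s' hs' ⟨h1, h2⟩
    have h3 : s' = s := COQ5_dg0 (hmono s' hs') hsm (by omega) (by omega)
    rw [h3] at h2
    exact lt_irrefl _ h2
  · by_contra hc
    rw [not_lt] at hc
    have hsplit : ((XG m γ).filter fun s' => dgm s' ≤ i + 1 ∧ lx s' < lx s).card =
        ((XG m γ).filter fun s' => dgm s' ≤ i ∧ lx s' < lx s).card +
          ((XG m γ).filter fun s' => dgm s' = i + 1 ∧ lx s' < lx s).card := by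
      rw [← Finset.card_union_of_disjoint]
      · congr 1
        ext v
        simp only [Finset.mem_union, Finset.mem_filter]
        constructor
        · rintro ⟨ha, hb, hc⟩
          rcases Nat.lt_or_ge i (dgm v) with h | h
          · exact Or.inr ⟨ha, by omega, hc⟩
          · exact Or.inl ⟨ha, h, hc⟩
        · rintro (⟨ha, hb, hc⟩ | ⟨ha, hb, hc⟩)
          · exact ⟨ha, by omega, hc⟩
          · exact ⟨ha, by omega, hc⟩
      · rw [Finset.disjoint_left]
        intro v hv hv'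
        rw [Finset.mem_filter] at hv hv'
        have h1 := hv.2.1
        have h2 := hv'.2.1
        omega
    have hlt : ((XG m γ).filter fun s' => dgm s' = i + 1 ∧ lx s' < lx s).card <
        ((XG m γ).filter fun s' => dgm s' = i + 1).card := by
      rw [XG_deg hγ (by omega)]
      have := hd i him
      omega
    obtain ⟨u, hu, hun⟩ := Finset.exists_mem_notMem_of_card_lt_card hlt
    rw [Finset.mem_filter] at hu
    have hus : lx s < lx u := by
      rcases lt_trichotomy (lx u) (lx s) with h1 | h1 | h1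
      · exact absurd (Finset.mem_filter.2 ⟨hu.1, hu.2, h1⟩) hun
      · exfalso
        have h2 := lx_inj (hmono u hu.1) hsm h1
        have h3 := hu.2
        rw [h2] at h3
        omega
      · exact h1
    have e1 : ((XG m γ).filter fun s' => dgm s' ≤ i + 1 ∧ lx s' < lx s).card = rk (i + 1) (bs s) := by
      apply card_before hsm (by omega) (by omega) (by omega)
      intro w
      rw [Finset.mem_filter]
      constructor
      · rintro ⟨ha, hb⟩
        exact ⟨hmono w ha, hb⟩
      · rintro ⟨ha, hb, hc⟩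
        exact ⟨COQ5_gap hγ hu.1 hu.2 hus ha hb hc, hb, hc⟩
    have e2 : ((XG m γ).filter fun s' => dgm s' ≤ i ∧ lx s' < lx s).card = rk i (bs s) := by
      apply card_before hsm hi (by omega) hsi
      intro w
      rw [Finset.mem_filter]
      constructor
      · rintro ⟨ha, hb⟩
        exact ⟨hmono w ha, hb⟩
      · rintro ⟨ha, hb, hc⟩
        exact ⟨COQ5_gap hγ hu.1 hu.2 hus ha (by omega) hc, hb, hc⟩
    have e3 := rk_succ i (bs s) (bs_anti hsm)
    have e4 : macUp i (t i) ≤ macUp i (rk i (bs s)) := macUp_mono i (by rw [← e2]; exact hc)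
    have e5 := ht.2 i hi him
    rw [e1, e3] at h
    omega

private theorem COQ5_down (hγ : MNum m γ) (ht : MNum m t) (hd : ∀ i, i < m → t (i + 1) ≤ t i + γ (i + 1))
    {s : Fin m → ℕ} (hs : s ∈ XG m γ) {i : ℕ} (hsi : dgm s ≤ i) : ∀ n, i + n ≤ m →
    ((XG m γ).filter fun s' => dgm s' ≤ i + n ∧ lx s' < lx s).card < t (i + n) →
    ((XG m γ).filter fun s' => dgm s' ≤ i ∧ lx s' < lx s).card < t i := by
  intro n
  induction n with
  | zero => intro _ h; exact h
  | succ n ih =>
    intro hn h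
    exact ih (by omega) (COQ5_step hγ ht hd (by omega) hs (by omega) h)

private theorem COQ5_zero {s : Fin m → ℕ} (hs : Monotone s) (j : Fin m) : s j = 0 ↔ (j : ℕ) < m - dgm s := by
  unfold dgm
  constructor
  · intro h
    have h1 : (univ.filter fun i => 0 < s i) ⊆ Finset.Ioi j := by
      intro i hi
      rw [mem_filter] at hi
      rw [Finset.mem_Ioi]
      by_contra h2
      have h3 := hs (not_lt.mp h2)
      omega
    have h2 := Finset.card_le_card h1
    rw [Fin.card_Ioi] at h2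
    have h3 := j.2
    omega
  · intro h
    by_contra h0
    have h1 : Finset.Ici j ⊆ (univ.filter fun i => 0 < s i) := by
      intro i hi
      rw [Finset.mem_Ici] at hi
      rw [mem_filter]
      have h3 := hs hi
      exact ⟨mem_univ i, by omega⟩
    have h2 := Finset.card_le_card h1
    rw [Fin.card_Ici] at h2
    have h3 := j.2
    omega

private theorem COQ5_mem {s : Fin m → ℕ} (hs : Monotone s) (a : ℕ) (ha : a ≤ m - dgm s) : 2 * a + 1 ∈ Zt o s := by
  rw [mem_Zt]
  rcases a with _ | a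
  · left
    omega
  · right
    have h1 : a < m := by omega
    have h2 : s ⟨a, h1⟩ = 0 := (COQ5_zero hs ⟨a, h1⟩).mpr ha
    refine ⟨⟨a, h1⟩, h2, ?_⟩
    unfold rt
    rw [h2]
    show 2 * (a + 1) + 1 = 2 * a + 3 + 0
    ring

private theorem COQ5_of_mem {s : Fin m → ℕ} (hs : Monotone s) {x : ℕ} (hx : x ∈ Zt o s) (h0 : x ≠ 0) :
    ∃ a, a ≤ m - dgm s ∧ x = 2 * a + 1 := by
  rcases mem_Zt.1 hx with h | ⟨i, h1, h2⟩
  · exact ⟨0, Nat.zero_le _, by omega⟩
  · have h3 := (COQ5_zero hs i).mp h1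
    refine ⟨(i : ℕ) + 1, h3, ?_⟩
    rw [h2]
    unfold rt
    rw [h1]
    ring

private theorem COQ5_dgr {s : Fin m → ℕ} (a : ℕ) : dgr s (2 * a + 1) = dgm s + a := by
  rw [dgr_eq, if_neg (by omega)]
  omega

private theorem COQ5_dgr0 {s : Fin m → ℕ} : dgr s 0 = m + 1 := by
  rw [dgr_eq, if_pos rfl]

/-- the number of elements with less than `n` predecessors is `n` -/
private theorem COQ5_pred {α : Type*} [DecidableEq α] (A : Finset α) (f : α → ℕ)
    (hf : ∀ a ∈ A, ∀ b ∈ A, f a = f b → a = b) {n : ℕ} (hn : n ≤ A.card) :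
    (A.filter fun a => (A.filter fun b => f b < f a).card < n).card = n := by
  have hinj : Set.InjOn (fun a => (A.filter fun b => f b < f a).card) (A : Set α) := by
    intro a ha b hb hab
    simp only at hab
    apply hf a ha b hb
    by_contra hne
    have key : ∀ a ∈ A, ∀ b ∈ A, f a < f b →
        (A.filter fun c => f c < f a).card < (A.filter fun c => f c < f b).card := by
      intro a ha b hb hlt
      apply Finset.card_lt_card
      rw [Finset.ssubset_iff_of_subset]
      · exact ⟨a, Finset.mem_filter.2 ⟨ha, hlt⟩, fun h => lt_irrefl _ (Finset.mem_filter.1 h).2⟩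
      · intro c hc
        rw [Finset.mem_filter] at hc ⊢
        exact ⟨hc.1, hc.2.trans hlt⟩
    rcases lt_or_gt_of_ne hne with h | h
    · exact absurd hab (key a ha b hb h).ne
    · exact absurd hab (key b hb a ha h).ne'
  have himg : A.image (fun a => (A.filter fun b => f b < f a).card) = Finset.range A.card := by
    apply Finset.eq_of_subset_of_card_le
    · intro k hk
      obtain ⟨a, ha, rfl⟩ := Finset.mem_image.1 hk
      rw [Finset.mem_range]
      apply Finset.card_lt_card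
      rw [Finset.ssubset_iff_of_subset (Finset.filter_subset _ _)]
      exact ⟨a, ha, fun h => lt_irrefl _ (Finset.mem_filter.1 h).2⟩
    · rw [Finset.card_image_of_injOn hinj, Finset.card_range]
  have h2 : (A.filter fun a => (A.filter fun b => f b < f a).card < n).image
      (fun a => (A.filter fun b => f b < f a).card) = Finset.range n := by
    ext k
    rw [Finset.mem_image, Finset.mem_range]
    constructor
    · rintro ⟨a, ha, rfl⟩
      exact (Finset.mem_filter.1 ha).2
    · intro hk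
      have h3 : k ∈ A.image (fun a => (A.filter fun b => f b < f a).card) := by
        rw [himg, Finset.mem_range]
        omega
      obtain ⟨a, ha, hak⟩ := Finset.mem_image.1 h3
      refine ⟨a, Finset.mem_filter.2 ⟨ha, ?_⟩, hak⟩
      rw [hak]
      exact hk
  have h3 := Finset.card_image_of_injOn (hinj.mono (fun a ha => (Finset.mem_filter.1 ha).1) :
    Set.InjOn (fun a => (A.filter fun b => f b < f a).card)
      ((A.filter fun a => (A.filter fun b => f b < f a).card < n : Finset α) : Set α))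
  rw [h2, Finset.card_range] at h3
  exact h3.symm

private theorem COQ5_pred' (hγ : MNum m γ) (i n : ℕ) (hn : n ≤ ((XG m γ).filter fun s => dgm s ≤ i).card) :
    ((XG m γ).filter fun s => dgm s ≤ i ∧
      ((XG m γ).filter fun s' => dgm s' ≤ i ∧ lx s' < lx s).card < n).card = n := by
  have h := COQ5_pred ((XG m γ).filter fun s => dgm s ≤ i) lx (by
    intro a ha b hb hab
    exact lx_inj ((mem_XG hγ).1 (Finset.mem_filter.1 ha).1).1 ((mem_XG hγ).1 (Finset.mem_filter.1 hb).1).1 hab) hn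
  simp only [Finset.filter_filter] at h
  exact h

private theorem COQ5_sum (hγ : MNum m γ) (ht : MNum m t) (hd : ∀ i, i < m → t (i + 1) ≤ t i + γ (i + 1)) :
    ∀ i, i ≤ m → t i ≤ ((XG m γ).filter fun s => dgm s ≤ i).card := by
  intro i
  induction i with
  | zero =>
    intro hi
    rw [XG_card hγ hi, ht.1, Finset.sum_range_one, hγ.1]
  | succ i ih =>
    intro hi
    have h1 := ih (by omega)
    rw [XG_card hγ (by omega)] at h1
    rw [XG_card hγ hi, Finset.sum_range_succ]
    have h2 := hd i (by omega)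
    omega

theorem TG_isT (ho : o ≤ 1) (hγ : MNum m γ) (ht : MNum m t) (hd : ∀ i, i < m → t (i + 1) ≤ t i + γ (i + 1))
    (h1 : o = 1 → t (m + 1) ≤ t m) : IsT (XG m γ) o (TG m o γ t) := by
  have hmono : ∀ v, v ∈ XG m γ → Monotone v := fun v hv => ((mem_XG hγ).1 hv).1
  have hid := XG_id hγ
  refine ⟨Finset.filter_subset _ _, ?_, ?_⟩
  · obtain ⟨s, hs⟩ := hid.ne
    have hz : (fun _ => 0 : Fin m → ℕ) ∈ XG m γ := hid.down s hs _ monotone_const (fun _ => Nat.zero_le _)
    have hdg : dgm (fun _ => 0 : Fin m → ℕ) = 0 := by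
      unfold dgm
      rw [Finset.card_eq_zero, Finset.filter_eq_empty_iff]
      intro x _ h
      exact absurd h (lt_irrefl 0)
    have hdgr : dgr (fun _ => 0 : Fin m → ℕ) 1 = 0 := by
      rw [dgr_eq, if_neg one_ne_zero, hdg]
    refine ⟨(fun _ => 0, 1), ?_⟩
    unfold TG
    rw [Finset.mem_filter, mem_LL]
    refine ⟨⟨hz, mem_Zt.2 (Or.inl ⟨by omega, le_rfl⟩)⟩, ?_⟩
    simp only [hdgr]
    rw [ht.1, Nat.lt_one_iff, Finset.card_eq_zero, Finset.filter_eq_empty_iff]
    rintro s' hs' ⟨h2, h3⟩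
    have h4 : s' = (fun _ => 0 : Fin m → ℕ) := COQ5_dg0 (hmono s' hs') monotone_const (by omega) hdg
    rw [h4] at h3
    exact lt_irrefl _ h3
  · rintro ⟨s, x⟩ hp ⟨v, y⟩ hq hvs hxy
    simp only at hvs hxy
    unfold TG at hp ⊢
    rw [Finset.mem_filter] at hp ⊢
    obtain ⟨hp1, hp2⟩ := hp
    refine ⟨hq, ?_⟩
    simp only at hp2 ⊢
    rw [mem_LL] at hp1 hq
    have hsm := hmono s hp1.1
    have hvm := hmono v hq.1
    have hdg := dg_mono hvs
    have hlx := lx_le hvs
    -- the same degree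
    have hb : ∀ i, ((XG m γ).filter fun s' => dgm s' ≤ i ∧ lx s' < lx s).card < t i →
        ((XG m γ).filter fun s' => dgm s' ≤ i ∧ lx s' < lx v).card < t i := by
      intro i h
      refine lt_of_le_of_lt (Finset.card_le_card ?_) h
      intro w hw
      rw [Finset.mem_filter] at hw ⊢
      exact ⟨hw.1, hw.2.1, lt_of_lt_of_le hw.2.2 hlx⟩
    have hfin : ∀ j, j ≤ m → dgr v y ≤ j →
        ((XG m γ).filter fun s' => dgm s' ≤ j ∧ lx s' < lx v).card < t j → y ≠ 0 →
        ((XG m γ).filter fun s' => dgm s' ≤ dgr v y ∧ lx s' < lx v).card < t (dgr v y) := by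
      intro j hj hyj h hy
      obtain ⟨a, ha, rfl⟩ := COQ5_of_mem hvm hq.2 hy
      rw [COQ5_dgr] at hyj ⊢
      obtain ⟨n, rfl⟩ := Nat.exists_eq_add_of_le hyj
      exact COQ5_down hγ ht hd hq.1 (by omega) n hj h
    by_cases hx : x = 0
    · subst hx
      rw [COQ5_dgr0] at hp2
      by_cases hy : y = 0
      · subst hy
        rw [COQ5_dgr0]
        exact hb _ hp2
      · have ho1 : o = 1 := by
          rcases mem_Zt.1 hp1.2 with h | ⟨i, _, h⟩
          · omega
          · have := three_le_rt (s := s) i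
            omega
        have h3 := hb _ hp2
        refine hfin m le_rfl ?_ ?_ hy
        · obtain ⟨a, ha, rfl⟩ := COQ5_of_mem hvm hq.2 hy
          rw [COQ5_dgr]
          have := dg_le v
          omega
        · refine lt_of_le_of_lt (Finset.card_le_card ?_) (lt_of_lt_of_le h3 (h1 ho1))
          intro w hw
          rw [Finset.mem_filter] at hw ⊢
          exact ⟨hw.1, by omega, hw.2.2⟩
    · have hy : y ≠ 0 ∧ y ≤ x := by
        unfold aft at hxy
        omega
      have hxm : dgr s x ≤ m := by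
        obtain ⟨a, ha, rfl⟩ := COQ5_of_mem hsm hp1.2 hx
        rw [COQ5_dgr]
        have := dg_le s
        omega
      refine hfin (dgr s x) hxm ?_ (hb _ hp2) hy.1
      rw [dgr_eq, dgr_eq, if_neg hx, if_neg hy.1]
      have : (y - 1) / 2 ≤ (x - 1) / 2 := Nat.div_le_div_right (Nat.sub_le_sub_right hy.2 1)
      omega

theorem TG_card (ho : o ≤ 1) (hγ : MNum m γ) (ht : MNum m t) (hd : ∀ i, i < m → t (i + 1) ≤ t i + γ (i + 1))
    (h1 : o = 1 → t (m + 1) ≤ t m) {i : ℕ} (hi : i ≤ m + o) :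
    ((TG m o γ t).filter fun p => dgr p.1 p.2 = i).card = t i := by
  have hmono : ∀ v, v ∈ XG m γ → Monotone v := fun v hv => ((mem_XG hγ).1 hv).1
  have htg : ∀ (s : Fin m → ℕ) (x : ℕ), (s, x) ∈ TG m o γ t ↔ (s ∈ XG m γ ∧ x ∈ Zt o s) ∧
      ((XG m γ).filter fun s' => dgm s' ≤ dgr s x ∧ lx s' < lx s).card < t (dgr s x) := by
    intro s x
    unfold TG
    rw [Finset.mem_filter, mem_LL]
  rcases Nat.lt_or_ge m i with him | him
  · have ho1 : o = 1 := by omega
    have hi1 : i = m + 1 := by omega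
    subst hi1
    have hn : t (m + 1) ≤ ((XG m γ).filter fun s => dgm s ≤ m + 1).card := by
      refine (h1 ho1).trans ((COQ5_sum hγ ht hd m le_rfl).trans (Finset.card_le_card ?_))
      intro w hw
      rw [Finset.mem_filter] at hw ⊢
      exact ⟨hw.1, by omega⟩
    rw [← COQ5_pred' hγ (m + 1) (t (m + 1)) hn]
    have key : ∀ (s : Fin m → ℕ) (x : ℕ), s ∈ XG m γ → x ∈ Zt o s → dgr s x = m + 1 → x = 0 := by
      intro s x hs hx hd
      by_contra h0
      obtain ⟨a, ha, rfl⟩ := COQ5_of_mem (hmono s hs) hx h0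
      rw [COQ5_dgr] at hd
      have h1 := dg_le s
      omega
    refine Finset.card_nbij' (fun p => p.1) (fun s => (s, 0)) ?_ ?_ ?_ ?_
    · rintro ⟨s, x⟩ hp
      rw [Finset.mem_coe, mem_filter, htg] at hp
      obtain ⟨⟨⟨hs, hx⟩, hb⟩, hd'⟩ := hp
      simp only at hd'
      rw [hd'] at hb
      rw [Finset.mem_coe, mem_filter]
      exact ⟨hs, (dg_le s).trans (Nat.le_succ m), hb⟩
    · intro s hs
      rw [Finset.mem_coe, mem_filter] at hs
      rw [Finset.mem_coe, mem_filter, htg]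
      simp only [COQ5_dgr0, and_true]
      exact ⟨⟨hs.1, mem_Zt.2 (Or.inl ⟨by omega, Nat.zero_le _⟩)⟩, hs.2.2⟩
    · rintro ⟨s, x⟩ hp
      rw [Finset.mem_coe, mem_filter, htg] at hp
      obtain ⟨⟨⟨hs, hx⟩, hb⟩, hd'⟩ := hp
      have h := key s x hs hx hd'
      show (s, 0) = (s, x)
      rw [h]
    · intro s _
      rfl
  · rw [← COQ5_pred' hγ i (t i) (COQ5_sum hγ ht hd i him)]
    refine Finset.card_nbij' (fun p => p.1) (fun s => (s, 2 * (i - dgm s) + 1)) ?_ ?_ ?_ ?_
    · rintro ⟨s, x⟩ hp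
      rw [Finset.mem_coe, mem_filter, htg] at hp
      obtain ⟨⟨⟨hs, hx⟩, hb⟩, hd'⟩ := hp
      simp only at hd'
      rw [Finset.mem_coe, mem_filter]
      have h0 : x ≠ 0 := by
        intro h0
        rw [h0, COQ5_dgr0] at hd'
        omega
      rw [hd'] at hb
      obtain ⟨a, ha, rfl⟩ := COQ5_of_mem (hmono s hs) hx h0
      rw [COQ5_dgr] at hd'
      have hdi : dgm s ≤ i := by omega
      exact ⟨hs, hdi, hb⟩
    · intro s hs
      rw [Finset.mem_coe, mem_filter] at hs
      have h2 : dgr s (2 * (i - dgm s) + 1) = i := by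
        rw [COQ5_dgr]
        have := hs.2.1
        omega
      rw [Finset.mem_coe, mem_filter, htg]
      simp only [h2, and_true]
      exact ⟨⟨hs.1, COQ5_mem (hmono s hs.1) _ (by omega)⟩, hs.2.2⟩
    · rintro ⟨s, x⟩ hp
      rw [Finset.mem_coe, mem_filter, htg] at hp
      obtain ⟨⟨⟨hs, hx⟩, hb⟩, hd'⟩ := hp
      simp only at hd'
      have h0 : x ≠ 0 := by
        intro h0
        rw [h0, COQ5_dgr0] at hd'
        omega
      obtain ⟨a, ha, rfl⟩ := COQ5_of_mem (hmono s hs) hx h0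
      rw [COQ5_dgr] at hd'
      show (s, 2 * (i - dgm s) + 1) = (s, 2 * a + 1)
      have h1 : i - dgm s = a := by omega
      rw [h1]
    · intro s _
      rfl

end Pool.Agent.LibHB64
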