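import Pool.Agent.LibHB64.CODefs
import Pool.Agent.LibHB64.COQ5
import Pool.Agent.LibHB64.COP4
import Pool.Agent.LibHB64.COP5
import Pool.Agent.LibHB64.COA8

set_option autoImplicit false

/-!
Row Q6 (assembled by helper33). Sufficiency in all dimensions.
-/

namespace Pool.Agent.LibHB64

open Finset

variable {m o : ℕ} {γ t : ℕ → ℕ}

/-- for all numerical M-sequences `γ`, `t` with `t (i+1) - t i ≤ γ (i+1)` there is a shellable ball with `h_j = γ 0 + ... + γ j` for `j < m` (plus `b` for `j = 1`) and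
`h_(d-i) = γ 0 + ... + γ i - t i` for `i ≤ m` (`i ≤ m + 1` for `d = 2 m + 1`, with `γ (m+1) = 0`) -/
theorem suff_num (hm : 1 ≤ m) (ho : o ≤ 1) (hγ : MNum m γ) (ht : MNum m t)
    (hd : ∀ i, i < m → t (i + 1) ≤ t i + γ (i + 1)) (h1 : o = 1 → t (m + 1) ≤ t m) :
    ∃ (D : Finset (Finset ℕ)) (N : ℕ), (∀ s ∈ D, ∀ v ∈ s, v < N) ∧ ShBall (2 * m + o) D ∧ ∀ j, j ≤ 2 * m + o →
      hnum (2 * m + o) D j = if j < m then ((∑ i ∈ Finset.range (j + 1), γ i : ℕ) : ℤ)
      else ((∑ i ∈ Finset.range (min (2 * m + o - j) m + 1), γ i : ℕ) : ℤ) - (t (2 * m + o - j) : ℤ) := by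
  obtain ⟨D, N, hN, hB, hh⟩ := squeezed_ball hm ho (XG_id hγ) (TG_isT ho hγ ht hd h1)
  refine ⟨D, N, hN, hB, fun j hj => ?_⟩
  rw [hh j hj]
  have hL : ∀ i, i ≤ m + o → ((LL (XG m γ) o).filter fun p => dgr p.1 p.2 = i).card =
      ∑ k ∈ Finset.range (min i m + 1), γ k := by
    intro i hi
    by_cases him : i ≤ m
    · rw [LL_count (XG_id hγ) i him, min_eq_left him]
      exact XG_card hγ him
    · have hi1 : i = m + 1 := by omega
      have ho1 : o = 1 := by omega
      subst hi1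
      subst ho1
      rw [LL_count_top (XG_id hγ), min_eq_right (by omega), ← XG_card hγ le_rfl, Finset.filter_true_of_mem]
      intro s _
      exact dg_le s
  by_cases hjm : j < m
  · rw [if_pos hjm, if_pos hjm, hL j (by omega), min_eq_left hjm.le]
  · rw [if_neg hjm, if_neg hjm, hL _ (by omega), TG_card ho hγ ht hd h1 (by omega)]

end Pool.Agent.LibHB64
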