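import Pool.Agent.LibHB64.COQ6
import Pool.Agent.LibHB64.COA9

set_option autoImplicit false

/-!
Sufficiency in all dimensions for the vectors with an M-sequence of differences.
-/

namespace Pool.Agent.LibHB64

open Finset

/-- differences -/
def dif (h : ℕ → ℕ) (i : ℕ) : ℕ := h i - if i = 0 then 0 else h (i - 1)

private theorem Q7_sum (h : ℕ → ℕ) (m : ℕ) (hm : ∀ i, i < m → h i ≤ h (i + 1)) (i : ℕ) (hi : i ≤ m) :
    ∑ k ∈ Finset.range (i + 1), dif h k = h i := by
  induction i with
  | zero => simp [dif]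
  | succ i ih =>
    rw [Finset.sum_range_succ, ih (by omega)]
    have := hm i (by omega)
    simp only [dif]
    rw [if_neg (by omega)]
    simp only [Nat.add_sub_cancel]
    omega

/-- sufficiency in all dimensions `d - 1 ≥ 1` -/
theorem suff_all {d : ℕ} (hd : 2 ≤ d) {h : ℕ → ℕ} (hm : ∀ i, i < d / 2 → h i ≤ h (i + 1))
    (hg : MNum (d / 2) (dif h)) (hl : h d = 0)
    (hmono : ∀ i, i + 1 ≤ d / 2 → h (d - i) ≤ h (d - (i + 1))) (hle : ∀ i, i ≤ d / 2 → h (d - i) ≤ h i)
    (hr : MNum ((d - 1) / 2) fun i => h i - h (d - i)) :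
    ∃ (N : ℕ) (D : Finset (Finset (Fin N))), ShBall d D ∧ ∀ i, i ≤ d → hnum d D i = h i := by
  obtain ⟨m, o, ho, hdm⟩ : ∃ m o, o ≤ 1 ∧ d = 2 * m + o := ⟨d / 2, d % 2, by omega, by omega⟩
  have hm1 : 1 ≤ m := by omega
  have hd2 : d / 2 = m := by omega
  rw [hd2] at hm hg hmono hle
  -- the numbers t
  let t : ℕ → ℕ := fun i => if i ≤ (d - 1) / 2 then h i - h (d - i) else 0
  have ht : MNum m t := by
    refine ⟨?_, fun i hi him => ?_⟩
    · have := hr.1
      simp only [t]
      rw [if_pos (by omega)]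
      exact this
    · simp only [t]
      by_cases h1 : i + 1 ≤ (d - 1) / 2
      · rw [if_pos h1, if_pos (by omega)]
        exact hr.2 i hi (by omega)
      · rw [if_neg h1]
        exact Nat.zero_le _
  have hdt : ∀ i, i < m → t (i + 1) ≤ t i + dif h (i + 1) := by
    intro i hi
    have h1 := hm i hi
    have h2 := hmono i (by omega)
    have h3 := hle i (by omega)
    have h4 := hle (i + 1) (by omega)
    simp only [t, dif]
    rw [if_neg (show ¬ i + 1 = 0 by omega), Nat.add_sub_cancel]
    by_cases h5 : i + 1 ≤ (d - 1) / 2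
    · rw [if_pos h5, if_pos (by omega)]
      omega
    · rw [if_neg h5]
      omega
  have h1t : o = 1 → t (m + 1) ≤ t m := by
    intro h1
    simp only [t]
    rw [if_neg (show ¬ m + 1 ≤ (d - 1) / 2 by omega)]
    exact Nat.zero_le _
  obtain ⟨D, N, hN, hB, hh⟩ := suff_num hm1 ho hg ht hdt h1t
  rw [← hdm] at hB hh
  obtain ⟨D', hB', hh'⟩ := hB.toFin hN
  refine ⟨N, D', hB', fun j hj => ?_⟩
  rw [hh' j, hh j hj]
  by_cases hjm : j < m
  · rw [if_pos hjm, Q7_sum h m hm j hjm.le]
  · rw [if_neg hjm]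
    have h5 : 2 * m + o - j ≤ m + 1 := by omega
    by_cases h6 : d - j ≤ m
    · rw [min_eq_left h6, Q7_sum h m hm _ h6]
      simp only [t]
      by_cases h7 : d - j ≤ (d - 1) / 2
      · rw [if_pos h7]
        have h8 := hle (d - j) h6
        have h9 : d - (d - j) = j := by omega
        rw [h9] at h8 ⊢
        omega
      · rw [if_neg h7]
        have h8 : d - j = j := by omega
        rw [h8]
        simp
    · rw [min_eq_right (by omega), Q7_sum h m hm m le_rfl]
      simp only [t]
      rw [if_neg (by omega)]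
      have h8 : j = m := by omega
      rw [h8]
      simp

end Pool.Agent.LibHB64
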