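import Pool.Agent.LibHB64.CODefs
import Pool.Agent.LibHB64.COP2
import Pool.Agent.LibHB64.COQ0

set_option autoImplicit false

/-!
Definitions for the case `h_1 ≤ 2` (order ideals in two variables).
-/

namespace Pool.Agent.LibHB64

open Finset

/-- the shift vector with the last `b` entries equal to `1` (the monomial `z^b`) -/
def ub (m b : ℕ) : Fin m → ℕ := fun i => if m ≤ (i : ℕ) + b then 1 else 0

/-- the monomials `z^b`, `b < P`, `b ≤ m` -/
def XU (m P : ℕ) : Finset (Fin m → ℕ) := (Finset.range (min P (m + 1))).image (ub m)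

/-- the lower facets `y^a z^b` of degree `i = a + b ≤ K` with `col i b` -/
def YU (m o K : ℕ) (col : ℕ → ℕ → Prop) [∀ i b, Decidable (col i b)] : Finset ((Fin m → ℕ) × ℕ) :=
  (LL (XU m (m + 1)) o).filter fun p => dgr p.1 p.2 ≤ K ∧ col (dgr p.1 p.2) (dgm p.1)

/-- the part of `Y` which lies over `XU m P` -/
def TU (m o K P : ℕ) (col : ℕ → ℕ → Prop) [∀ i b, Decidable (col i b)] : Finset ((Fin m → ℕ) × ℕ) :=
  (YU m o K col).filter fun p => p.1 ∈ XU m P ∧ ∀ i, p.1 i < 2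

/-- the numerical data in the case `h_1 ≤ 2`: `P = h_m`, `k` the first number with `h k ≤ k` (or `m + 1`) -/
structure Num2 (m K P k : ℕ) (h e : ℕ → ℕ) : Prop where
  Pk : P ≤ k
  km : k ≤ m + 1
  Km : K ≤ m
  mK : m ≤ K + 1
  grow : ∀ i, i < k → h i = i + 1
  small : ∀ i, k ≤ i → i ≤ m → h i ≤ k
  anti : ∀ i, k ≤ i + 1 → i + 1 ≤ m → h (i + 1) ≤ h i
  last : h m = P
  e0 : e 0 = 0
  emono : ∀ i, i < m → e i ≤ e (i + 1)
  ei : ∀ i, i ≤ K → e i ≤ i + 1
  eP : ∀ i, i ≤ K → e i ≤ P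
  rM : ∀ i, i + 1 ≤ K → h i - e i ≤ i → h (i + 1) - e (i + 1) ≤ h i - e i

/-- the width of the upper part -/
def g2 (P k : ℕ) (h : ℕ → ℕ) (i : ℕ) : ℕ := if i < k then k - P else h i - P

/-- the monomials `y^(i-b) z^b` of degree `i` in the order ideal `Y` -/
def col2 (P k : ℕ) (h e : ℕ → ℕ) (i b : ℕ) : Prop :=
  b + g2 P k h i < h i - e i ∨ (i + 1 ≤ b + g2 P k h i ∧ b ≤ i)

instance (P k : ℕ) (h e : ℕ → ℕ) (i b : ℕ) : Decidable (col2 P k h e i b) := inferInstanceAs (Decidable (_ ∨ _))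

end Pool.Agent.LibHB64
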