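import Pool.Agent.LibHB64.CODefs
import Pool.Agent.LibHB64.COV0
import Pool.Agent.LibHB64.COQ1
import Pool.Agent.LibHB64.COQ2
import Pool.Agent.LibHB64.COQ4

set_option autoImplicit false

/-!
Row V1. M-sequences in two variables, and the numerical data.
PLAN mac_small: for `q ≤ i`: `macUp i q = q` (`q = C(i,i) + C(i-1,i-1) + ...`, `q` terms): induction on `i` with the definition: for `1 ≤ q ≤ i + 1` and `i + 1`: the greatest `a` with
`C(a, i+1) ≤ q` is `i + 1` if `q < C(i+2, i+1) = i + 2`; so `macUp (i+1) q = C(i+2, i+2) + macUp i (q - 1) = 1 + (q - 1)`; for `q = 0` the greatest `a` is `i` and the result is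
`C(i+1,i+2) + macUp i 0 = 0`. (Use `Nat.findGreatest_eq_iff`, or `macUp_add` with `x = 1`: `C(1+i, i+1) = 1`, `r = q - 1 < C(1 + i, i) = i + 1`.)
PLAN mac_full: `macUp i (i + 1) = i + 2` for `i ≥ 1`: `macUp_add` with `x = 2`, `i - 1`: `C(2 + (i-1), i) = i + 1`, `r = 0`.
PLAN two_var: `s 1 ≤ 2`, `MNum m s`: `s i ≤ i + 1` by induction (`macUp_mono`, mac_full, mac_small), and `s i ≤ i` implies `s (i+1) ≤ macUp i (s i) = s i`.
PLAN num2_of. `k` = the least `k` with `k = m + 1` or `h k ≤ k` (`Nat.find`); for `i < k`: `i < h i ≤ i + 1`. For `i ≥ k`: `h i ≤ k ≤ i` by induction (two_var). `anti` for `i ≥ k`: two_var; for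
`i + 1 = k`: `h k ≤ k = h (k-1)`. `Pk`: `h m ≤ k` (`small`) or `k = m + 1`, `h m = m + 1`. `ei`, `eP`: from `hc`. `rM` from two_var for `r` (`i ≥ 1`; for `i = 0` the hypothesis
`h 0 - e 0 = 1 ≤ 0` is false).
-/

namespace Pool.Agent.LibHB64

open Finset

theorem mac_small (i q : ℕ) (hq : q ≤ i) : macUp i q = q := by
  induction i generalizing q with
  | zero =>
    have : q = 0 := by omega
    subst this
    rfl
  | succ i ih =>
    rcases Nat.eq_zero_or_pos q with h0 | h0
    · subst h0
      have h1 := macUp_add i 0 0 (by rw [zero_add, Nat.choose_self]; exact Nat.one_pos)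
      rw [zero_add, Nat.choose_eq_zero_of_lt (Nat.lt_succ_self i),
        Nat.choose_eq_zero_of_lt (Nat.lt_succ_self (i + 1)), ih 0 (Nat.zero_le i)] at h1
      exact h1
    · have h1 := macUp_add i 1 (q - 1) (by
        rw [show 1 + i = i + 1 by ring, Nat.choose_succ_self_right]
        omega)
      rw [show 1 + i = i + 1 by ring, Nat.choose_self, show i + 1 + 1 = i + 2 by ring, Nat.choose_self,
        ih (q - 1) (by omega), show 1 + (q - 1) = q by omega] at h1
      exact h1

theorem mac_full (i : ℕ) (hi : 1 ≤ i) : macUp i (i + 1) = i + 2 := by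
  obtain ⟨j, rfl⟩ : ∃ j, i = j + 1 := ⟨i - 1, by omega⟩
  have h1 := macUp_add j 2 0 (Nat.choose_pos (by omega))
  rw [show 2 + j = (j + 1) + 1 by ring, Nat.choose_succ_self_right,
    show j + 1 + 1 + 1 = (j + 2) + 1 by ring, Nat.choose_succ_self_right,
    mac_small j 0 (Nat.zero_le j)] at h1
  exact h1

theorem two_var {m : ℕ} {s : ℕ → ℕ} (hs : MNum m s) (h1 : 1 ≤ m → s 1 ≤ 2) :
    (∀ i, i ≤ m → s i ≤ i + 1) ∧ ∀ i, 1 ≤ i → i < m → s i ≤ i → s (i + 1) ≤ s i := by
  constructor
  · intro i
    induction i with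
    | zero =>
      intro _
      rw [hs.1]
    | succ i ih =>
      intro hi
      rcases Nat.eq_zero_or_pos i with h0 | h0
      · subst h0
        exact h1 hi
      · have h2 := hs.2 i h0 (by omega)
        have h3 := macUp_mono i (ih (by omega))
        rw [mac_full i h0] at h3
        omega
  · intro i h0 hi h2
    have h3 := hs.2 i h0 hi
    rwa [mac_small i (s i) h2] at h3

theorem num2_of {m K : ℕ} {h e : ℕ → ℕ} (hm : 1 ≤ m) (hKm : K ≤ m) (hmK : m ≤ K + 1) (hh : MNum m h)
    (h1 : h 1 ≤ 2) (e0 : e 0 = 0) (hem : ∀ i, i < m → e i ≤ e (i + 1)) (heh : ∀ i, i ≤ K → e i ≤ h i)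
    (hr : MNum K fun i => h i - e i) (heP : ∀ i, i ≤ K → e i ≤ h m) :
    ∃ k, Num2 m K (h m) k h e := by
  classical
  obtain ⟨hA, hB⟩ := two_var hh (fun _ => h1)
  have hex : ∃ k, k = m + 1 ∨ h k ≤ k := ⟨m + 1, Or.inl rfl⟩
  have hf := Nat.find_spec hex
  have hmin : ∀ i, i < Nat.find hex → ¬ (i = m + 1 ∨ h i ≤ i) := fun i hi => Nat.find_min hex hi
  have hkm : Nat.find hex ≤ m + 1 := Nat.find_min' hex (Or.inl rfl)
  generalize Nat.find hex = k at hf hmin hkm
  have hk1 : 1 ≤ k := by
    rcases Nat.eq_zero_or_pos k with h0 | h0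
    · subst h0
      rcases hf with h2 | h2
      · omega
      · rw [hh.1] at h2
        omega
    · exact h0
  have hgrow : ∀ i, i < k → h i = i + 1 := by
    intro i hi
    have h2 := hmin i hi
    have h3 := hA i (by omega)
    push Not at h2
    omega
  have hsmall : ∀ i, k ≤ i → i ≤ m → h i ≤ k := by
    intro i hki
    induction i, hki using Nat.le_induction with
    | base =>
      intro hkm'
      rcases hf with h2 | h2
      · omega
      · exact h2
    | succ i hki ih =>
      intro him
      have h2 := ih (by omega)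
      have h3 := hB i (by omega) (by omega) (by omega)
      omega
  refine ⟨k, ?_, hkm, hKm, hmK, hgrow, hsmall, ?_, rfl, e0, hem, ?_, heP, ?_⟩
  · by_cases hkm' : k ≤ m
    · exact hsmall m hkm' le_rfl
    · have h2 := hgrow m (by omega)
      omega
  · intro i hki him
    by_cases h2 : k ≤ i
    · have h3 := hsmall i h2 (by omega)
      exact hB i (by omega) (by omega) (by omega)
    · have h3 : k = i + 1 := by omega
      have h4 := hsmall (i + 1) hki him
      have h5 := hgrow i (by omega)
      omega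
  · intro i hi
    exact (heh i hi).trans (hA i (by omega))
  · intro i hi h2
    rcases Nat.eq_zero_or_pos i with h0 | h0
    · subst h0
      have h3 := hh.1
      omega
    · exact (two_var hr (fun _ => (Nat.sub_le _ _).trans h1)).2 i h0 (by omega) h2

end Pool.Agent.LibHB64
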