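import Pool.Agent.LibHB64.CODefs
import Pool.Agent.LibHB64.COV0
import Pool.Agent.LibHB64.COP4
import Pool.Agent.LibHB64.COQ3

set_option autoImplicit false

/-!
Row V2. Order ideals in two variables, closure and sizes in terms of the columns. `ub m b` is monotone, `dgm (ub m b) = b` for `b ≤ m`, `ub m b ≤ ub m b' ↔ b ≤ b'` for `b, b' ≤ m`.
Elements of `LL (XU m P) o` of degree `i ≤ m`: `(ub m b, 2 (i - b) + 1)` with `b < P`, `b ≤ i` (see the proof of COP4.LL_count for `x ∈ Zt` versus `x = 2 a + 1`); `(ub m b, 0)` has degree `m + 1`.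
PLAN XU_id: `down`: a monotone `t ≤ ub m b` has entries `0, 1`, so `t = ub m (dgm t)` (`dgm t ≤ b`): all zeros then ones.
PLAN YU_isT: `ne`: `(ub m 0, 1)`. `down`: `p = (ub m b, x)`, `q = (ub m b', y)`: `x ≠ 0` as `dgr ≤ K ≤ m`, so `y ≠ 0`, `y ≤ x`; `x = 2 a + 1`, `y = 2 a' + 1`, `b' ≤ b`, `a' ≤ a`: from `col (b + a) b` go to
`col (b + a') b` by `c1` (`a - a'` times) and then to `col (b' + a') b'` by `c2` (`b - b'` times).
PLAN counts: bijections `b ↦ (ub m b, 2 (i - b) + 1)` (and `b ↦ (ub m b, 0)` for XU_top).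
-/

namespace Pool.Agent.LibHB64

open Finset

variable {m o K P : ℕ} {col : ℕ → ℕ → Prop} [∀ i b, Decidable (col i b)]

/-! ### the shift vectors `ub m b` -/

private theorem V2_ub_mono (m b : ℕ) : Monotone (ub m b) := by
  intro i j hij
  have h : (i : ℕ) ≤ j := hij
  unfold ub
  split_ifs <;> omega

private theorem V2_dg_ub {b : ℕ} (hb : b ≤ m) : dgm (ub m b) = b := by
  unfold dgm
  rcases Nat.eq_zero_or_pos b with h0 | h0
  · subst h0
    rw [Finset.card_eq_zero, Finset.filter_eq_empty_iff]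
    intro i _
    have := i.2
    unfold ub
    rw [if_neg (by omega)]
    omega
  · have h1 : (univ.filter fun i => 0 < ub m b i) = Finset.Ici (⟨m - b, by omega⟩ : Fin m) := by
      ext i
      rw [mem_filter, Finset.mem_Ici]
      constructor
      · intro h
        have h2 := h.2
        unfold ub at h2
        split_ifs at h2 with h3
        · show m - b ≤ (i : ℕ)
          omega
        · omega
      · intro h
        have h2 : m - b ≤ (i : ℕ) := h
        refine ⟨mem_univ _, ?_⟩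
        unfold ub
        rw [if_pos (by omega)]
        omega
    rw [h1, Fin.card_Ici]
    show m - (m - b) = b
    omega

private theorem V2_ub_inj {b b' : ℕ} (hb : b ≤ m) (hb' : b' ≤ m) (h : ub m b = ub m b') : b = b' := by
  rw [← V2_dg_ub hb, ← V2_dg_ub hb', h]

private theorem V2_mem_XU {P : ℕ} {s : Fin m → ℕ} : s ∈ XU m P ↔ ∃ b, b < P ∧ b ≤ m ∧ s = ub m b := by
  unfold XU
  rw [mem_image]
  constructor
  · rintro ⟨b, hb, rfl⟩
    rw [Finset.mem_range] at hb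
    exact ⟨b, by omega, by omega, rfl⟩
  · rintro ⟨b, h1, h2, rfl⟩
    exact ⟨b, Finset.mem_range.2 (by omega), rfl⟩

private theorem V2_ub_mem {P b : ℕ} (hb : b ≤ m) : ub m b ∈ XU m P ↔ b < P := by
  rw [V2_mem_XU]
  constructor
  · rintro ⟨b', h1, h2, h3⟩
    rwa [V2_ub_inj hb h2 h3]
  · intro h
    exact ⟨b, h, hb, rfl⟩

private theorem V2_ub_lt (m b : ℕ) (i : Fin m) : ub m b i < 2 := by
  unfold ub
  split_ifs <;> omega

private theorem V2_bs_le (s : Fin m → ℕ) (h : ∀ i, s i < 2) (k : ℕ) : bs s k < 2 := by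
  unfold bs
  split_ifs
  · exact h _
  · omega

/-- a monotone vector with entries `0`, `1` -/
private theorem V2_eq_ub {t : Fin m → ℕ} (ht : Monotone t) (h : ∀ i, t i < 2) : t = ub m (dgm t) := by
  apply bs_ext
  funext k
  have h1 := V2_bs_le t h k
  have h2 := V2_bs_le (ub m (dgm t)) (V2_ub_lt m (dgm t)) k
  have h3 := bs_pos ht k
  have h4 := bs_pos (V2_ub_mono m (dgm t)) k
  rw [V2_dg_ub (dg_le t)] at h4
  omega

/-! ### the elements of `Zt` -/

private theorem V2_zero {s : Fin m → ℕ} (hs : Monotone s) (j : Fin m) : s j = 0 ↔ (j : ℕ) < m - dgm s := by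
  unfold dgm
  constructor
  · intro h
    have h1 : (univ.filter fun i => 0 < s i) ⊆ Finset.Ioi j := by
      intro i hi
      rw [mem_filter] at hi
      rw [Finset.mem_Ioi]
      by_contra h2
      have h3 := hs (not_lt.mp h2)
      omega
    have h2 := Finset.card_le_card h1
    rw [Fin.card_Ioi] at h2
    have h3 := j.2
    omega
  · intro h
    by_contra h0
    have h1 : Finset.Ici j ⊆ (univ.filter fun i => 0 < s i) := by
      intro i hi
      rw [Finset.mem_Ici] at hi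
      rw [mem_filter]
      have h3 := hs hi
      exact ⟨mem_univ i, by omega⟩
    have h2 := Finset.card_le_card h1
    rw [Fin.card_Ici] at h2
    have h3 := j.2
    omega

private theorem V2_mem {s : Fin m → ℕ} {o : ℕ} (hs : Monotone s) (a : ℕ) (ha : a ≤ m - dgm s) :
    2 * a + 1 ∈ Zt o s := by
  rw [mem_Zt]
  rcases a with _ | a
  · left
    omega
  · right
    have h1 : a < m := by omega
    have h2 : s ⟨a, h1⟩ = 0 := (V2_zero hs ⟨a, h1⟩).mpr ha
    refine ⟨⟨a, h1⟩, h2, ?_⟩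
    unfold rt
    rw [h2]
    show 2 * (a + 1) + 1 = 2 * a + 3 + 0
    ring

private theorem V2_of_mem {s : Fin m → ℕ} {o : ℕ} (hs : Monotone s) {x : ℕ} (hx : x ∈ Zt o s) (h0 : x ≠ 0) :
    ∃ a, a ≤ m - dgm s ∧ x = 2 * a + 1 := by
  rcases mem_Zt.1 hx with h | ⟨i, h1, h2⟩
  · exact ⟨0, Nat.zero_le _, by omega⟩
  · have h3 := (V2_zero hs i).mp h1
    refine ⟨(i : ℕ) + 1, h3, ?_⟩
    rw [h2]
    unfold rt
    rw [h1]
    ring

private theorem V2_dgr (s : Fin m → ℕ) (a : ℕ) : dgr s (2 * a + 1) = dgm s + a := by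
  rw [dgr_eq, if_neg (by omega)]
  omega

/-- the lower facets of degree at most `m` -/
private theorem V2_LL {P o j : ℕ} (hj : j ≤ m) (p : (Fin m → ℕ) × ℕ) :
    (p ∈ LL (XU m P) o ∧ dgr p.1 p.2 = j) ↔ ∃ b, b ≤ j ∧ b < P ∧ p = (ub m b, 2 * (j - b) + 1) := by
  obtain ⟨s, x⟩ := p
  rw [mem_LL]
  constructor
  · rintro ⟨⟨hs, hx⟩, hd⟩
    have hd' : dgr s x = j := hd
    obtain ⟨b, hbP, hbm, rfl⟩ := V2_mem_XU.1 hs
    have h0 : x ≠ 0 := by
      intro h0
      rw [h0, dgr_eq, if_pos rfl] at hd'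
      omega
    obtain ⟨a, ha, rfl⟩ := V2_of_mem (V2_ub_mono m b) hx h0
    rw [V2_dgr, V2_dg_ub hbm] at hd'
    refine ⟨b, by omega, hbP, ?_⟩
    rw [show j - b = a by omega]
  · rintro ⟨b, hbj, hbP, h⟩
    rw [Prod.mk.injEq] at h
    obtain ⟨rfl, rfl⟩ := h
    have hbm : b ≤ m := by omega
    refine ⟨⟨(V2_ub_mem hbm).2 hbP, V2_mem (V2_ub_mono m b) _ ?_⟩, ?_⟩
    · rw [V2_dg_ub hbm]
      omega
    · show dgr (ub m b) (2 * (j - b) + 1) = j
      rw [V2_dgr, V2_dg_ub hbm]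
      omega

/-- counting by columns -/
private theorem V2_card {j : ℕ} (hj : j ≤ m) (R : ℕ → Prop) [DecidablePred R] (W : Finset ((Fin m → ℕ) × ℕ))
    (hW : ∀ p, p ∈ W ↔ ∃ b, b ≤ j ∧ R b ∧ p = (ub m b, 2 * (j - b) + 1)) :
    W.card = ((Finset.range (j + 1)).filter R).card := by
  symm
  refine Finset.card_bij (fun b _ => (ub m b, 2 * (j - b) + 1)) ?_ ?_ ?_
  · intro b hb
    rw [mem_filter, Finset.mem_range] at hb
    rw [hW]
    exact ⟨b, by omega, hb.2, rfl⟩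
  · intro b hb b' hb' h
    rw [mem_filter, Finset.mem_range] at hb hb'
    rw [Prod.mk.injEq] at h
    exact V2_ub_inj (by omega) (by omega) h.1
  · intro p hp
    obtain ⟨b, h1, h2, h3⟩ := (hW p).1 hp
    exact ⟨b, mem_filter.2 ⟨Finset.mem_range.2 (by omega), h2⟩, h3.symm⟩

private theorem V2_mem_YU {j : ℕ} (hK : K ≤ m) (hj : j ≤ K) (p : (Fin m → ℕ) × ℕ) :
    (p ∈ YU m o K col ∧ dgr p.1 p.2 = j) ↔ ∃ b, b ≤ j ∧ col j b ∧ p = (ub m b, 2 * (j - b) + 1) := by
  unfold YU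
  rw [mem_filter]
  constructor
  · rintro ⟨⟨h1, h2, h3⟩, h4⟩
    obtain ⟨b, hb1, hb2, rfl⟩ := (V2_LL (by omega) p).1 ⟨h1, h4⟩
    refine ⟨b, hb1, ?_, rfl⟩
    rw [h4] at h3
    have h5 : dgm (ub m b, 2 * (j - b) + 1).1 = b := V2_dg_ub (by omega)
    rwa [h5] at h3
  · rintro ⟨b, hb1, hb2, h⟩
    have h1 := (V2_LL (o := o) (P := m + 1) (by omega : j ≤ m) p).2 ⟨b, hb1, by omega, h⟩
    refine ⟨⟨h1.1, by rw [h1.2]; exact hj, ?_⟩, h1.2⟩
    rw [h1.2, h]
    have h5 : dgm (ub m b, 2 * (j - b) + 1).1 = b := V2_dg_ub (by omega)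
    rwa [h5]

private theorem V2_mem_TU {j : ℕ} (hK : K ≤ m) (hj : j ≤ K) (p : (Fin m → ℕ) × ℕ) :
    (p ∈ TU m o K P col ∧ dgr p.1 p.2 = j) ↔
      ∃ b, b ≤ j ∧ (b < P ∧ col j b) ∧ p = (ub m b, 2 * (j - b) + 1) := by
  unfold TU
  rw [mem_filter]
  constructor
  · rintro ⟨⟨h1, h2, h3⟩, h4⟩
    obtain ⟨b, hb1, hb2, rfl⟩ := (V2_mem_YU hK hj p).1 ⟨h1, h4⟩
    exact ⟨b, hb1, ⟨(V2_ub_mem (by omega)).1 h2, hb2⟩, rfl⟩
  · rintro ⟨b, hb1, ⟨hb2, hb3⟩, h⟩
    have h1 := (V2_mem_YU (o := o) hK hj p).2 ⟨b, hb1, hb3, h⟩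
    refine ⟨⟨h1.1, ?_, ?_⟩, h1.2⟩
    · rw [h]
      exact (V2_ub_mem (by omega)).2 hb2
    · rw [h]
      exact V2_ub_lt m b

private theorem V2_YU_le {p : (Fin m → ℕ) × ℕ} (h : p ∈ YU m o K col) : dgr p.1 p.2 ≤ K := by
  unfold YU at h
  rw [mem_filter] at h
  exact h.2.1

private theorem V2_TU_sub {p : (Fin m → ℕ) × ℕ} (h : p ∈ TU m o K P col) : p ∈ YU m o K col := by
  unfold TU at h
  exact (mem_filter.1 h).1

private theorem V2_col1 (c1 : ∀ i b, i + 1 ≤ K → b ≤ i → col (i + 1) b → col i b) (b a' : ℕ) :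
    ∀ n : ℕ, b + a' + n ≤ K → col (b + a' + n) b → col (b + a') b
  | 0, _, h => h
  | n + 1, hK, h => V2_col1 c1 b a' n (by omega) (c1 (b + a' + n) b (by omega) (by omega) h)

private theorem V2_col2 (c2 : ∀ i b, i + 1 ≤ K → b ≤ i → col (i + 1) (b + 1) → col i b) (b' a' : ℕ) :
    ∀ n : ℕ, b' + n + a' ≤ K → col (b' + n + a') (b' + n) → col (b' + a') b'
  | 0, _, h => h
  | n + 1, hK, h => by
    refine V2_col2 c2 b' a' n (by omega) (c2 (b' + n + a') (b' + n) (by omega) (by omega) ?_)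
    have e : b' + (n + 1) + a' = b' + n + a' + 1 := by omega
    rw [e] at h
    exact h

theorem XU_id (hP : 1 ≤ P) : IsId (XU m P) := by
  refine ⟨⟨ub m 0, V2_mem_XU.2 ⟨0, by omega, by omega, rfl⟩⟩, ?_, ?_⟩
  · intro s hs
    obtain ⟨b, -, -, rfl⟩ := V2_mem_XU.1 hs
    exact V2_ub_mono m b
  · intro s hs t ht hts
    obtain ⟨b, hb1, hb2, rfl⟩ := V2_mem_XU.1 hs
    have h1 : ∀ i, t i < 2 := fun i => lt_of_le_of_lt (hts i) (V2_ub_lt m b i)
    have h2 := dg_mono hts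
    rw [V2_dg_ub hb2] at h2
    exact V2_mem_XU.2 ⟨dgm t, by omega, dg_le t, V2_eq_ub ht h1⟩

theorem YU_isT (hK : K ≤ m) (h0 : col 0 0) (c1 : ∀ i b, i + 1 ≤ K → b ≤ i → col (i + 1) b → col i b)
    (c2 : ∀ i b, i + 1 ≤ K → b ≤ i → col (i + 1) (b + 1) → col i b) : IsT (XU m (m + 1)) o (YU m o K col) := by
  refine ⟨?_, ?_, ?_⟩
  · unfold YU
    exact filter_subset _ _
  · exact ⟨(ub m 0, 2 * (0 - 0) + 1), ((V2_mem_YU hK (Nat.zero_le K) _).2 ⟨0, le_rfl, h0, rfl⟩).1⟩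
  · intro p hp q hq hqp haft
    have hdK := V2_YU_le hp
    obtain ⟨b, hb1, hb2, hpe⟩ := (V2_mem_YU hK hdK p).1 ⟨hp, rfl⟩
    set i := dgr p.1 p.2 with hi
    obtain ⟨t, y⟩ := q
    rw [mem_LL] at hq
    obtain ⟨b', hb'1, hb'2, rfl⟩ := V2_mem_XU.1 hq.1
    have hp1 : p.1 = ub m b := by rw [hpe]
    have hp2 : p.2 = 2 * (i - b) + 1 := by rw [hpe]
    have hqp' : ub m b' ≤ ub m b := by rw [← hp1]; exact hqp
    have hbb := dg_mono hqp'
    rw [V2_dg_ub hb'2, V2_dg_ub (by omega)] at hbb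
    have haft' : ¬ aft (2 * (i - b) + 1) y := by rw [← hp2]; exact haft
    unfold aft at haft'
    have hy0 : y ≠ 0 := by
      intro h
      exact haft' ⟨by omega, Or.inl h⟩
    have hyx : ¬ (2 * (i - b) + 1 < y) := fun h => haft' ⟨by omega, Or.inr h⟩
    obtain ⟨a', ha', rfl⟩ := V2_of_mem (V2_ub_mono m b') hq.2 hy0
    have hcol : col (b' + a') b' := by
      have e1 : i = b + a' + (i - b - a') := by omega
      rw [e1] at hb2
      have h1 := V2_col1 c1 b a' (i - b - a') (by omega) hb2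
      have e2 : b + a' = b' + (b - b') + a' := by omega
      have e3 : b = b' + (b - b') := by omega
      rw [e2] at h1
      have h2 : col (b' + (b - b') + a') (b' + (b - b')) := by
        rwa [← e3] at h1 ⊢
      exact V2_col2 c2 b' a' (b - b') (by omega) h2
    have h3 := (V2_mem_YU (o := o) (col := col) hK (by omega : b' + a' ≤ K) (ub m b', 2 * a' + 1)).2
      ⟨b', by omega, hcol, by rw [show b' + a' - b' = a' by omega]⟩
    exact h3.1

theorem XU_count (hP : 1 ≤ P) {j : ℕ} (hj : j ≤ m) :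
    ((LL (XU m P) o).filter fun p => dgr p.1 p.2 = j).card = min (j + 1) P := by
  rw [V2_card hj (fun b => b < P) _ (fun p => by rw [mem_filter, V2_LL hj])]
  have h1 : ((Finset.range (j + 1)).filter fun b => b < P) = Finset.range (min (j + 1) P) := by
    ext b
    rw [mem_filter, Finset.mem_range, Finset.mem_range]
    omega
  rw [h1, Finset.card_range]

theorem XU_top (hP : 1 ≤ P) (hP2 : P ≤ m + 1) : ((LL (XU m P) 1).filter fun p => dgr p.1 p.2 = m + 1).card = P := by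
  rw [LL_count_top (XU_id hP)]
  unfold XU
  rw [Finset.card_image_of_injOn, Finset.card_range]
  · omega
  · intro b hb b' hb' h
    rw [Finset.mem_coe, Finset.mem_range] at hb hb'
    exact V2_ub_inj (by omega) (by omega) h

theorem YU_count (hK : K ≤ m) (j : ℕ) : ((YU m o K col).filter fun p => dgr p.1 p.2 = j).card =
    if j ≤ K then ((Finset.range (j + 1)).filter fun b => col j b).card else 0 := by
  split_ifs with hj
  · exact V2_card (by omega) _ _ (fun p => by rw [mem_filter, V2_mem_YU hK hj])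
  · rw [Finset.card_eq_zero, Finset.filter_eq_empty_iff]
    intro p hp h
    have := V2_YU_le hp
    omega

theorem TU_count (hK : K ≤ m) (j : ℕ) : ((TU m o K P col).filter fun p => dgr p.1 p.2 = j).card =
    if j ≤ K then ((Finset.range (j + 1)).filter fun b => b < P ∧ col j b).card else 0 := by
  split_ifs with hj
  · exact V2_card (by omega) _ _ (fun p => by rw [mem_filter, V2_mem_TU hK hj])
  · rw [Finset.card_eq_zero, Finset.filter_eq_empty_iff]
    intro p hp h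
    have := V2_YU_le (V2_TU_sub hp)
    omega

theorem EU_count (hK : K ≤ m) (j : ℕ) :
    ((YU m o K col \ TU m o K P col).filter fun p => dgr p.1 p.2 = j).card =
      if j ≤ K then ((Finset.range (j + 1)).filter fun b => P ≤ b ∧ col j b).card else 0 := by
  split_ifs with hj
  · refine V2_card (by omega) _ _ (fun p => ?_)
    rw [mem_filter, mem_sdiff]
    constructor
    · rintro ⟨⟨h1, h2⟩, h3⟩
      obtain ⟨b, hb1, hb2, hb3⟩ := (V2_mem_YU hK hj p).1 ⟨h1, h3⟩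
      refine ⟨b, hb1, ⟨?_, hb2⟩, hb3⟩
      by_contra hcon
      exact h2 ((V2_mem_TU hK hj p).2 ⟨b, hb1, ⟨by omega, hb2⟩, hb3⟩).1
    · rintro ⟨b, hb1, ⟨hb2, hb3⟩, hb4⟩
      have h1 := (V2_mem_YU (o := o) hK hj p).2 ⟨b, hb1, hb3, hb4⟩
      refine ⟨⟨h1.1, fun h2 => ?_⟩, h1.2⟩
      obtain ⟨b', hb'1, ⟨hb'2, -⟩, hb'4⟩ := (V2_mem_TU hK hj p).1 ⟨h2, h1.2⟩
      rw [hb4, Prod.mk.injEq] at hb'4
      have := V2_ub_inj (by omega) (by omega) hb'4.1
      omega
  · rw [Finset.card_eq_zero, Finset.filter_eq_empty_iff]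
    intro p hp h
    rw [mem_sdiff] at hp
    have := V2_YU_le hp.1
    omega

end Pool.Agent.LibHB64
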