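import Pool.Agent.LibHB64.CODefs
import Pool.Agent.LibHB64.COV0

set_option autoImplicit false

/-!
Row V3. The columns `col2` are closed under division and have the right sizes (pure arithmetic, omega). Notation `r i = h i - e i`, `g i = g2 P k h i`.
Facts: `P ≤ h i` for `k ≤ i ≤ m` (`anti` down to `h m = P`); `g (i+1) ≤ g i` (`i + 1 ≤ m`).
PLAN col_c1, col_c2: (top) `i + 2 ≤ b + g (i+1)` (or `i + 2 ≤ b + 1 + g (i+1)`) gives `i + 1 ≤ b + g i`. (low) `b + g (i+1) < r (i+1)`: if `i + 1 ≤ b + g i` done. Otherwise show `b + g i < r i`: if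
`r i = i + 1` clear. If `r i ≤ i`: `r (i+1) + g i ≤ r i + g (i+1)`: for `i + 1 < k`: `g` is constant, `rM`. For `i + 1 = k`: `r i = k - e i`, `g i = k - P`, `g k = h k - P`, `r k = h k - e k`, `e i ≤ e k`.
For `k ≤ i`: `g = h - P`, so `r - g = P - e`, `emono`.
PLAN counts. `k ≤ i` (`≤ K ≤ m`): `col2` is `b < P - e i` or `i + 1 - (h i - P) ≤ b ≤ i`; `i + 1 - (h i - P) ≥ P + 1` as `h i ≤ k ≤ i`; so the part below `P` is `range (P - e i)` (`P - e i ≤ P ≤ k ≤ i`),
the part from `P` on is `Ico (i + 1 - (h i - P)) (i + 1)`, of size `h i - P`. `i < k`: `h i = i + 1`, `g = k - P`, `r = i + 1 - e i`; low part `b < r - g`, top part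
`Ico (i + 1 - (k - P)) (i + 1)`. If `P ≤ i`: the top part contains `[P, i]` (as `i + 1 - (k - P) ≤ P`), so the part from `P` on is `Ico P (i + 1)`. The whole set has `r i` elements: if `e i = 0` it is
`range (i+1)`; if `e i > 0` then `g ≤ r i`: for `r i ≤ i` one has `r (k-1) ≤ r i` by `rM` and induction if `k - 1 ≤ K`, `r (k-1) = k - e (k-1) ≥ k - P`; and if `k - 1 > K` then `k = m + 1`, `P = h m = m + 1`,
`g = 0`. So low and top are disjoint, sizes `r - g` and `g`. Then the part below `P` has `r i - (i + 1 - P)` elements if `P ≤ i`, and `r i` if `i < P`; both are `min (i+1) P - e i`.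
-/

namespace Pool.Agent.LibHB64

open Finset

variable {m K P k : ℕ} {h e : ℕ → ℕ}

private theorem v3_anti (hn : Num2 m K P k h e) (i j : ℕ) (hki : k ≤ i) (hij : i ≤ j) (hjm : j ≤ m) :
    h j ≤ h i := by
  induction j, hij using Nat.le_induction with
  | base => exact le_rfl
  | succ j hij ih => exact (hn.anti j (by omega) hjm).trans (ih (by omega))

private theorem v3_P (hn : Num2 m K P k h e) (i : ℕ) (hki : k ≤ i) (him : i ≤ m) : P ≤ h i := by
  have h1 := v3_anti hn i m hki him le_rfl
  rw [hn.last] at h1
  exact h1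

private theorem v3_e (hn : Num2 m K P k h e) (i j : ℕ) (hij : i ≤ j) (hjm : j ≤ m) : e i ≤ e j := by
  induction j, hij using Nat.le_induction with
  | base => exact le_rfl
  | succ j hij ih => exact (ih (by omega)).trans (hn.emono j (by omega))

private theorem v3_g (hn : Num2 m K P k h e) (i : ℕ) (him : i + 1 ≤ m) : g2 P k h (i + 1) ≤ g2 P k h i := by
  unfold g2
  rcases lt_trichotomy (i + 1) k with h1 | h1 | h1
  · rw [if_pos h1, if_pos (by omega)]
  · rw [if_neg (by omega), if_pos (by omega)]
    have h2 := hn.small (i + 1) (by omega) him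
    omega
  · rw [if_neg (by omega), if_neg (by omega)]
    have h2 := hn.anti i (by omega) him
    omega

private theorem v3_low (hn : Num2 m K P k h e) (i b : ℕ) (hi : i + 1 ≤ K) (hb : b ≤ i)
    (hc : b + g2 P k h (i + 1) < h (i + 1) - e (i + 1)) : col2 P k h e i b := by
  have hKm := hn.Km
  have hPk := hn.Pk
  by_cases h1 : i + 1 ≤ b + g2 P k h i
  · exact Or.inr ⟨h1, hb⟩
  · left
    by_cases h2 : i + 1 ≤ h i - e i
    · omega
    · have h3 := hn.rM i hi (by omega)
      have h4 := hn.emono i (by omega)
      unfold g2 at hc h1 ⊢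
      rcases lt_trichotomy (i + 1) k with h5 | h5 | h5
      · rw [if_pos h5] at hc
        rw [if_pos (show i < k by omega)]
        omega
      · rw [if_neg (show ¬ i + 1 < k by omega)] at hc
        rw [if_pos (show i < k by omega)]
        have h6 := hn.grow i (by omega)
        have h7 := v3_P hn (i + 1) (by omega) (by omega)
        omega
      · rw [if_neg (show ¬ i + 1 < k by omega)] at hc
        rw [if_neg (show ¬ i < k by omega)]
        have h6 := v3_P hn i (by omega) (by omega)
        have h7 := v3_P hn (i + 1) (by omega) (by omega)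
        omega

private theorem v3_gr (hn : Num2 m K P k h e) (i : ℕ) (hik : i < k) (hiK : i ≤ K) (he : 0 < e i) :
    k - P ≤ i + 1 - e i := by
  have hKm := hn.Km
  have hmK := hn.mK
  have hkm := hn.km
  by_cases hk : k - 1 ≤ K
  · have key : ∀ j, i ≤ j → j ≤ k - 1 → j + 1 - e j ≤ i + 1 - e i := by
      intro j hij
      induction j, hij using Nat.le_induction with
      | base => intro _; exact le_rfl
      | succ j hij ih =>
        intro hj
        have h1 := ih (by omega)
        have h2 := hn.rM j (by omega)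
        rw [hn.grow j (by omega), hn.grow (j + 1) (by omega)] at h2
        have h3 := v3_e hn i j hij (by omega)
        have h4 := h2 (by omega)
        omega
    have h1 := key (k - 1) (by omega) le_rfl
    have h2 := hn.eP (k - 1) hk
    omega
  · have h1 := hn.grow m (by omega)
    have h2 := hn.last
    omega

theorem col_zero (hn : Num2 m K P k h e) (hk : 0 < k) : col2 P k h e 0 0 := by
  have h1 := hn.grow 0 hk
  have h2 := hn.e0
  unfold col2 g2
  rw [if_pos hk, h1, h2]
  omega

theorem col_c1 (hn : Num2 m K P k h e) (i b : ℕ) (hi : i + 1 ≤ K) (hb : b ≤ i) (hc : col2 P k h e (i + 1) b) :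
    col2 P k h e i b := by
  have hKm := hn.Km
  have hg := v3_g hn i (by omega)
  rcases hc with hc | ⟨hc, _⟩
  · exact v3_low hn i b hi hb hc
  · exact Or.inr ⟨by omega, hb⟩

theorem col_c2 (hn : Num2 m K P k h e) (i b : ℕ) (hi : i + 1 ≤ K) (hb : b ≤ i)
    (hc : col2 P k h e (i + 1) (b + 1)) : col2 P k h e i b := by
  have hKm := hn.Km
  have hg := v3_g hn i (by omega)
  rcases hc with hc | ⟨hc, _⟩
  · exact v3_low hn i b hi hb (by omega)
  · exact Or.inr ⟨by omega, hb⟩

private theorem v3_iff (hn : Num2 m K P k h e) {i : ℕ} (hi : i ≤ K) (b : ℕ) (hb : b < min (i + 1) P) :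
    col2 P k h e i b ↔ ¬ (h i - e i - g2 P k h i ≤ b ∧ b < h i - e i - g2 P k h i + e i) := by
  have hKm := hn.Km
  have hPk := hn.Pk
  have he1 := hn.ei i hi
  have he2 := hn.eP i hi
  unfold col2 g2
  by_cases hik : i < k
  · rw [if_pos hik, hn.grow i hik]
    rcases Nat.eq_zero_or_pos (e i) with h0 | h0
    · rw [h0]
      omega
    · have h1 := v3_gr hn i hik hi h0
      omega
  · rw [if_neg hik]
    have h1 := v3_P hn i (by omega) (by omega)
    have h2 := hn.small i (by omega) (by omega)
    omega

theorem col_T (hn : Num2 m K P k h e) {i : ℕ} (hi : i ≤ K) :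
    ((Finset.range (i + 1)).filter fun b => b < P ∧ col2 P k h e i b).card = min (i + 1) P - e i := by
  have hKm := hn.Km
  have hPk := hn.Pk
  have he1 := hn.ei i hi
  have he2 := hn.eP i hi
  have hset : ((Finset.range (i + 1)).filter fun b => b < P ∧ col2 P k h e i b) =
      Finset.range (min (i + 1) P) \ Finset.Ico (h i - e i - g2 P k h i) (h i - e i - g2 P k h i + e i) := by
    ext b
    rw [Finset.mem_filter, Finset.mem_sdiff, Finset.mem_range, Finset.mem_range, Finset.mem_Ico]
    constructor
    · rintro ⟨h1, h2, h3⟩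
      have h4 : b < min (i + 1) P := by omega
      exact ⟨h4, (v3_iff hn hi b h4).1 h3⟩
    · rintro ⟨h4, h5⟩
      exact ⟨by omega, by omega, (v3_iff hn hi b h4).2 h5⟩
  have hsub : Finset.Ico (h i - e i - g2 P k h i) (h i - e i - g2 P k h i + e i) ⊆
      Finset.range (min (i + 1) P) := by
    intro b hb
    rw [Finset.mem_Ico] at hb
    rw [Finset.mem_range]
    unfold g2 at hb
    by_cases hik : i < k
    · rw [if_pos hik, hn.grow i hik] at hb
      rcases Nat.eq_zero_or_pos (e i) with h0 | h0
      · omega
      · have h1 := v3_gr hn i hik hi h0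
        omega
    · rw [if_neg hik] at hb
      have h1 := v3_P hn i (by omega) (by omega)
      have h2 := hn.small i (by omega) (by omega)
      omega
  rw [hset, Finset.card_sdiff_of_subset hsub, Finset.card_range, Nat.card_Ico]
  omega

theorem col_E (hn : Num2 m K P k h e) {i : ℕ} (hi : i ≤ K) :
    ((Finset.range (i + 1)).filter fun b => P ≤ b ∧ col2 P k h e i b).card = h i - min (i + 1) P := by
  have hKm := hn.Km
  have hPk := hn.Pk
  have he1 := hn.ei i hi
  have he2 := hn.eP i hi
  by_cases hik : i < k
  · have hset : ((Finset.range (i + 1)).filter fun b => P ≤ b ∧ col2 P k h e i b) = Finset.Ico P (i + 1) := by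
      ext b
      rw [Finset.mem_filter, Finset.mem_range, Finset.mem_Ico]
      unfold col2 g2
      rw [if_pos hik]
      constructor
      · rintro ⟨h1, h2, _⟩
        exact ⟨h2, h1⟩
      · rintro ⟨h1, h2⟩
        exact ⟨h2, h1, Or.inr ⟨by omega, by omega⟩⟩
    rw [hset, Nat.card_Ico, hn.grow i hik]
    omega
  · have h1 := v3_P hn i (by omega) (by omega)
    have h2 := hn.small i (by omega) (by omega)
    have hset : ((Finset.range (i + 1)).filter fun b => P ≤ b ∧ col2 P k h e i b) =
        Finset.Ico (i + 1 - (h i - P)) (i + 1) := by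
      ext b
      rw [Finset.mem_filter, Finset.mem_range, Finset.mem_Ico]
      unfold col2 g2
      rw [if_neg hik]
      omega
    rw [hset, Nat.card_Ico]
    omega

end Pool.Agent.LibHB64
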