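import Pool.Agent.LibHB64.CODefs
import Pool.Agent.LibHB64.COP2

set_option autoImplicit false

/-!
Row W2. A down-closed set `Y` of lower facets (over an ideal `X2`) is a shellable ball in the forward order; the vertices are relabelled by the strictly
monotone map `phw a b` (the positions `> a` are moved by `b`: new vertices).
PLAN Y_SData. `p = (u, x) ∈ Y`, `(u, inl x) ∈ AA X2 o`. `ne`: `hY.ne`. `card`: `card_FF` and injectivity of `phw`. `sub`: `Rf ⊆ FF`. `cont`: from an inclusion of images get the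
inclusion `Rf o (u, inl x) ⊆ FF o (v, inl y)` (injectivity), then `kf_cont`: equal or `kb q < kb p`, i.e. `toDual (kb p) < toDual (kb q)`. `step`: `r = phw a b r'`, `r' ∈ Rf`;
`AA_nb` gives `q ∈ AA X2 o`, `q ≠ p`, `(FF o p).erase r' ⊆ FF o q`; `Rb o p ⊆ (FF o p).erase r'`, so `C2` gives `q = (v, inl y)`, `v ≤ u`, `¬ aft x y`, so `(v, y) ∈ Y` (`hY.down`), and
`kb_cont` gives `kb p < kb q`. The image of `(FF o p).erase r'` is `(image).erase (phw r')`.
PLAN Y_three: `ρ ⊆ image` implies `ρ = image of ρ'` with `ρ' ⊆ FF o p` (`Finset.subset_image_iff`; the same `ρ'` = preimage for all three by injectivity), `AA_three`.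
-/

namespace Pool.Agent.LibHB64

open Finset

variable {m : ℕ} {s t : Fin m → ℕ} {o : ℕ} {X X2 : Finset (Fin m → ℕ)}

/-- relabelling of the vertices -/
def phw (a b : ℕ) (p : ℕ) : ℕ := if p ≤ a then p else p + b

theorem ph_strictMono (a b : ℕ) : StrictMono (phw a b) := by
  intro x y h
  unfold phw
  split_ifs <;> omega

/-- the relabelled lower facets and restrictions -/
def Fy (a b o : ℕ) (p : (Fin m → ℕ) × ℕ) : Finset ℕ := (FF o (p.1, Sum.inl p.2)).image (phw a b)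

def Ry (a b o : ℕ) (p : (Fin m → ℕ) × ℕ) : Finset ℕ := (Rf o (p.1, Sum.inl p.2)).image (phw a b)

theorem Y_SData (ho : o ≤ 1) (hX : IsId X2) {Y : Finset ((Fin m → ℕ) × ℕ)} (hY : IsT X2 o Y) (a b : ℕ) :
    SData (2 * m + o) Y (Fy a b o) (Ry a b o) (fun p => OrderDual.toDual (kb (p.1, Sum.inl p.2))) := by
  have hinj : Function.Injective (phw a b) := (ph_strictMono a b).injective
  have hA : ∀ p ∈ Y, ((p.1, Sum.inl p.2) : (Fin m → ℕ) × (ℕ ⊕ Fin m)) ∈ AA X2 o := by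
    intro p hp
    have h1 : (p.1, p.2) ∈ LL X2 o := hY.sub hp
    exact mem_AA_inl.2 (mem_LL.1 h1)
  refine ⟨hY.ne, ?_, ?_, ?_, ?_⟩
  · intro p hp
    rw [Fy, card_image_of_injective _ hinj]
    exact card_FF ho hX (hA p hp)
  · intro p _
    exact image_subset_image sdiff_subset
  · intro p hp q hq h
    have h1 : Rf o (p.1, Sum.inl p.2) ⊆ FF o (q.1, Sum.inl q.2) :=
      (image_subset_image_iff hinj).1 h
    rcases kf_cont hX (hA p hp) (hA q hq) h1 with h2 | h2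
    · left
      obtain ⟨h3, h4⟩ := Prod.mk.inj h2
      exact Prod.ext h3 (Sum.inl.inj h4)
    · exact Or.inr (OrderDual.toDual_lt_toDual.2 h2)
  · intro p hp r hr
    obtain ⟨r', hr', rfl⟩ := mem_image.1 hr
    have hr2 : r' ∈ FF o (p.1, Sum.inl p.2) ∧ r' ∉ Rb o (p.1, Sum.inl p.2) := mem_sdiff.1 hr'
    obtain ⟨q, hq, hne, hsub⟩ := AA_nb ho hX (hA p hp) hr2.1
    have hRb : Rb o (p.1, Sum.inl p.2) ⊆ FF o q := by
      intro z hz
      apply hsub
      refine mem_erase.2 ⟨?_, Rb_sub hX (hA p hp) hz⟩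
      rintro rfl
      exact hr2.2 hz
    obtain ⟨v, y, rfl, hv, ha⟩ := C2 hX (hA p hp) hq hRb
    have hvy : (v, y) ∈ Y := hY.down p hp (v, y) (mem_LL.2 (mem_AA_inl.1 hq)) hv ha
    refine ⟨(v, y), hvy, ?_, ?_⟩
    · rcases kb_cont hX (hA p hp) hq hRb with h2 | h2
      · exact absurd h2.symm hne
      · exact OrderDual.toDual_lt_toDual.2 h2
    · show ((FF o (p.1, Sum.inl p.2)).image (phw a b)).erase (phw a b r') ⊆
        (FF o (v, Sum.inl y)).image (phw a b)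
      rw [← image_erase hinj]
      exact image_subset_image hsub

theorem Y_three (ho : o ≤ 1) (hX : IsId X2) {Y : Finset ((Fin m → ℕ) × ℕ)} (hY : IsT X2 o Y) (a b : ℕ)
    (ρ : Finset ℕ) (hρ : ρ.card + 1 = 2 * m + o) (i j k : (Fin m → ℕ) × ℕ) (hi : i ∈ Y) (hj : j ∈ Y) (hk : k ∈ Y)
    (h1 : ρ ⊆ Fy a b o i) (h2 : ρ ⊆ Fy a b o j) (h3 : ρ ⊆ Fy a b o k) : i = j ∨ i = k ∨ j = k := by
  have hinj : Function.Injective (phw a b) := (ph_strictMono a b).injective
  have hA : ∀ p ∈ Y, ((p.1, Sum.inl p.2) : (Fin m → ℕ) × (ℕ ⊕ Fin m)) ∈ AA X2 o := by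
    intro p hp
    have h1 : (p.1, p.2) ∈ LL X2 o := hY.sub hp
    exact mem_AA_inl.2 (mem_LL.1 h1)
  obtain ⟨ρ', hρ', rfl⟩ := subset_image_iff.1 h1
  have h1' : ρ' ⊆ FF o (i.1, Sum.inl i.2) := (image_subset_image_iff hinj).1 h1
  have h2' : ρ' ⊆ FF o (j.1, Sum.inl j.2) := (image_subset_image_iff hinj).1 h2
  have h3' : ρ' ⊆ FF o (k.1, Sum.inl k.2) := (image_subset_image_iff hinj).1 h3
  rw [card_image_of_injective _ hinj] at hρ
  have key : ∀ u v : (Fin m → ℕ) × ℕ,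
      ((u.1, Sum.inl u.2) : (Fin m → ℕ) × (ℕ ⊕ Fin m)) = (v.1, Sum.inl v.2) → u = v := by
    intro u v h
    obtain ⟨h3, h4⟩ := Prod.mk.inj h
    exact Prod.ext h3 (Sum.inl.inj h4)
  rcases AA_three ho hX hρ (hA i hi) (hA j hj) (hA k hk) h1' h2' h3' with h | h | h
  · exact Or.inl (key _ _ h)
  · exact Or.inr (Or.inl (key _ _ h))
  · exact Or.inr (Or.inr (key _ _ h))

end Pool.Agent.LibHB64
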