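import Pool.Agent.LibHB64.CODefs
import Pool.Agent.LibHB64.COW2
import Pool.Agent.LibHB64.COA1
import Pool.Agent.LibHB64.COA5
import Pool.Agent.LibHB64.COP3

set_option autoImplicit false

/-!
Row V5. A down-closed set `Y` of lower facets alone is a shellable ball (Billera, Lee).
PLAN. `Y_SData` (COW2) with `a = 0`, `b = 0` (`phw 0 0` is the identity), `D = Y.biUnion fun p => (Fy 0 0 o p).powerset`, `SData.shell` (A1) with `Y_three`; `hlt`: `Ry 0 0 o p = Fy 0 0 o p` is impossible: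
`Rf o (s, inl x) = FF o (s, inl x)` would give (as `Rf = FF \ Rb`) that `lf s 0` (which is in `FF` and in `Rb`; `1 ≤ m`) is in `Rf`. `SData.hnum_eq` (A5) and `card_Rf_inl` (COP3): `(Ry 0 0 o p).card = dgr p.1 p.2`. The bound
`N` as in COP5.squeezed_ball.
-/

namespace Pool.Agent.LibHB64

open Finset

variable {m o : ℕ} {X2 : Finset (Fin m → ℕ)}

theorem Y_ball (hm : 1 ≤ m) (ho : o ≤ 1) (hX : IsId X2) {Y : Finset ((Fin m → ℕ) × ℕ)} (hY : IsT X2 o Y) :
    ∃ (D : Finset (Finset ℕ)) (N : ℕ), (∀ s ∈ D, ∀ v ∈ s, v < N) ∧ ShBall (2 * m + o) D ∧ ∀ j, j ≤ 2 * m + o →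
      hnum (2 * m + o) D j = ((Y.filter fun p => dgr p.1 p.2 = j).card : ℤ) := by
  classical
  have hinj : Function.Injective (phw 0 0) := (ph_strictMono 0 0).injective
  have hA : ∀ p ∈ Y, p.1 ∈ X2 ∧ p.2 ∈ Zt o p.1 := by
    intro p hp
    have h1 : (p.1, p.2) ∈ LL X2 o := hY.sub hp
    exact mem_LL.1 h1
  have hS := Y_SData ho hX hY 0 0
  have hD : ∀ s, s ∈ (Y.biUnion fun p => (Fy 0 0 o p).powerset) ↔ ∃ i ∈ Y, s ⊆ Fy 0 0 o i := by
    intro s
    simp only [mem_biUnion, mem_powerset]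
  obtain ⟨D, hDD⟩ : ∃ D, D = (Y.biUnion fun p => (Fy 0 0 o p).powerset) := ⟨_, rfl⟩
  rw [← hDD] at hD
  refine ⟨D, (D.sup fun s => s.sup id) + 1, ?_, ?_, ?_⟩
  · intro s hs v hv
    have h1 : v ≤ s.sup id := Finset.le_sup (f := id) hv
    have h2 : s.sup id ≤ D.sup fun s => s.sup id :=
      Finset.le_sup (f := fun s : Finset ℕ => s.sup id) hs
    omega
  · refine hS.shell (by omega) ?_ ?_ hD
    · intro p hp h
      obtain ⟨hp1, hp2⟩ := hA p hp
      have hs := hX.mono _ hp1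
      have h' : Rf o (p.1, Sum.inl p.2) = FF o (p.1, Sum.inl p.2) :=
        Finset.image_injective hinj h
      obtain ⟨i0⟩ : Nonempty (Fin m) := ⟨⟨0, by omega⟩⟩
      have h1 : lf p.1 i0 ∈ FF o (p.1, Sum.inl p.2) := by
        refine mem_erase.2 ⟨?_, lf_mem i0⟩
        show lf p.1 i0 ≠ p.2
        rcases mem_Zt.1 hp2 with h2 | ⟨i, _, h2⟩
        · have := two_le_lf (s := p.1) i0
          omega
        · rw [h2]
          exact lf_ne_rt hs i0 i
      have h2 : lf p.1 i0 ∈ Rb o (p.1, Sum.inl p.2) :=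
        mem_union_left _ (mem_image_of_mem _ (mem_univ i0))
      rw [← h'] at h1
      exact (mem_sdiff.1 h1).2 h2
    · intro s hs i hi j hj k hk h1 h2 h3
      exact Y_three ho hX hY 0 0 s (by omega) i j k hi hj hk h1 h2 h3
  · intro j hj
    rw [hS.hnum_eq hD j hj]
    congr 2
    refine filter_congr fun p hp => ?_
    obtain ⟨hp1, hp2⟩ := hA p hp
    rw [Ry, card_image_of_injective _ hinj, card_Rf_inl ho (hX.mono _ hp1) hp2]

end Pool.Agent.LibHB64
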