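import Pool.Agent.LibHB64.CODefs

set_option autoImplicit false

/-!
Row W1. Gluing: `A` are the facets of a closed complex `S`, `B ⊆ A` a shellable part, `Y` a shellable complex with an initial part `T = A - B` (the same
facets), and the restrictions of the facets of `Y - T` are not in `S`. Then `B` followed by `Y - T` is a shelling.
PLAN cont: `i ∈ B`, `j ∈ B`: `hB.cont`; `i ∈ B`, `j ∈ E := Y \ T`: `inl < inr`; `i ∈ E`, `j ∈ B`: `R2 i ⊆ F1 j` contradicts `hnew`; `i, j ∈ E`: `hY.cont`.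
PLAN step: `i ∈ B`: `hB.step`. `i ∈ E`, `r ∈ R2 i`: `hY.step` gives `j ∈ Y`, `key2 j < key2 i`, `ρ := (F2 i).erase r ⊆ F2 j`. If `j ∉ T` done. If `j ∈ T`: `hT1` gives `p ∈ A`,
`p ∉ B`, `F1 p = F2 j ⊇ ρ`; by `hcl` there is `p' ∈ A`, `p' ≠ p`, `ρ ⊆ F1 p'`. If `p' ∈ B` done (`inl < inr`). If `p' ∉ B`: `hT2` gives `j' ∈ T` with `F2 j' = F1 p'`; `i, j, j'`
contain `ρ`, so by `hY3` two of them are equal; `i ∉ T`, so `j = j'`, `F1 p = F1 p'`, `p = p'` by `hinj`, contradiction.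
PLAN three (glue_three): let `i, j, k` (in the disjoint sum) contain `ρ`, `|ρ| = d - 1`. All in `B`: `hcl` (at most two). All in `E`: `hY3`. Observation (O): if `q ∈ E`,
`ρ ⊆ F2 q` and `ρ ⊆ F1 i` for some `i ∈ A`, then `ρ = (F2 q).erase r` with `r ∈ R2 q` (otherwise `R2 q ⊆ ρ ⊆ F1 i`, against `hnew`), so `hY.step` gives `q' ∈ Y` with
`key2 q' < key2 q`, `ρ ⊆ F2 q'`. Two in `B` (`i ≠ j`), `k ∈ E`: (O) gives `q' ∈ Y`. If `q' ∈ T`: `hT1` gives a third element of `A` with `ρ ⊆`, against `hcl`. If `q' ∈ E`: (O) for `q'`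
gives `q''`, and `k, q', q''` are different (keys), against `hY3`. One in `B`, two in `E` (`j ≠ k`): (O) gives `j' < j`, `k' < k` (keys); among `j, k, j', k'` there are three different
ones (if `j' = k` then `k' ≠ j, k`), against `hY3`.
-/

namespace Pool.Agent.LibHB64

open Finset

/-- the key of the glued complex -/
def gkey {ι1 ι2 κ1 κ2 : Type*} (key1 : ι1 → κ1) (key2 : ι2 → κ2) (i : ι1 ⊕ ι2) : κ1 ⊕ₗ κ2 :=
  Sum.elim (fun i => Sum.inlₗ (key1 i)) (fun i => Sum.inrₗ (key2 i)) i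

theorem glue_SData {ι1 ι2 V κ1 κ2 : Type*} [DecidableEq V] [DecidableEq ι1] [DecidableEq ι2] [LinearOrder κ1]
    [LinearOrder κ2] {d : ℕ} (hd : 1 ≤ d)
    {A B : Finset ι1} {Y T : Finset ι2} {F1 R1 : ι1 → Finset V} {F2 R2 : ι2 → Finset V} {key1 : ι1 → κ1}
    {key2 : ι2 → κ2} (hBA : B ⊆ A) (hTY : T ⊆ Y) (hB : SData d B F1 R1 key1) (hY : SData d Y F2 R2 key2)
    (hcard : ∀ p ∈ A, (F1 p).card = d)
    (hinj : ∀ p ∈ A, ∀ q ∈ A, F1 p = F1 q → p = q)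
    (hcl : ∀ ρ : Finset V, ρ.card + 1 = d →
      (A.filter fun p => ρ ⊆ F1 p).card = 0 ∨ (A.filter fun p => ρ ⊆ F1 p).card = 2)
    (hY3 : ∀ ρ : Finset V, ρ.card + 1 = d → ∀ i ∈ Y, ∀ j ∈ Y, ∀ k ∈ Y, ρ ⊆ F2 i → ρ ⊆ F2 j → ρ ⊆ F2 k →
      i = j ∨ i = k ∨ j = k)
    (hT1 : ∀ q ∈ T, ∃ p ∈ A, p ∉ B ∧ F1 p = F2 q) (hT2 : ∀ p ∈ A, p ∉ B → ∃ q ∈ T, F2 q = F1 p)
    (hnew : ∀ q ∈ Y, q ∉ T → ∀ p ∈ A, ¬ R2 q ⊆ F1 p) :
    SData d (B.disjSum (Y \ T)) (Sum.elim F1 F2) (Sum.elim R1 R2) (gkey key1 key2) := by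
  refine ⟨?_, ?_, ?_, ?_, ?_⟩
  · obtain ⟨i, hi⟩ := hB.ne
    exact ⟨Sum.inl i, Finset.inl_mem_disjSum.2 hi⟩
  · rintro (i | i) hi
    · exact hB.card i (Finset.inl_mem_disjSum.1 hi)
    · exact hY.card i (mem_sdiff.1 (Finset.inr_mem_disjSum.1 hi)).1
  · rintro (i | i) hi
    · exact hB.sub i (Finset.inl_mem_disjSum.1 hi)
    · exact hY.sub i (mem_sdiff.1 (Finset.inr_mem_disjSum.1 hi)).1
  · rintro (i | i) hi (j | j) hj h
    · rcases hB.cont i (Finset.inl_mem_disjSum.1 hi) j (Finset.inl_mem_disjSum.1 hj) h with h1 | h1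
      · exact Or.inl (congrArg Sum.inl h1)
      · exact Or.inr (Sum.Lex.inl_lt_inl_iff.2 h1)
    · exact Or.inr (Sum.Lex.inl_lt_inr _ _)
    · have hi' := mem_sdiff.1 (Finset.inr_mem_disjSum.1 hi)
      exact absurd h (hnew i hi'.1 hi'.2 j (hBA (Finset.inl_mem_disjSum.1 hj)))
    · rcases hY.cont i (mem_sdiff.1 (Finset.inr_mem_disjSum.1 hi)).1 j
        (mem_sdiff.1 (Finset.inr_mem_disjSum.1 hj)).1 h with h1 | h1
      · exact Or.inl (congrArg Sum.inr h1)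
      · exact Or.inr (Sum.Lex.inr_lt_inr_iff.2 h1)
  · rintro (i | q) hi r hr
    · obtain ⟨j, hj, h1, h2⟩ := hB.step i (Finset.inl_mem_disjSum.1 hi) r hr
      exact ⟨Sum.inl j, Finset.inl_mem_disjSum.2 hj, Sum.Lex.inl_lt_inl_iff.2 h1, h2⟩
    · have hq := mem_sdiff.1 (Finset.inr_mem_disjSum.1 hi)
      have hr' : r ∈ R2 q := hr
      obtain ⟨q', hq', h1, h2⟩ := hY.step q hq.1 r hr'
      have hrF : r ∈ F2 q := hY.sub q hq.1 hr'
      by_cases hT : q' ∈ T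
      · obtain ⟨p, hp, hpB, hpF⟩ := hT1 q' hT
        have hc : ((F2 q).erase r).card + 1 = d := by
          rw [card_erase_of_mem hrF, hY.card q hq.1]
          omega
        have hpm : p ∈ A.filter fun p => (F2 q).erase r ⊆ F1 p := by
          rw [mem_filter, hpF]
          exact ⟨hp, h2⟩
        have hc2 : 1 < (A.filter fun p => (F2 q).erase r ⊆ F1 p).card := by
          rcases hcl _ hc with h0 | h0
          · rw [card_eq_zero] at h0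
            rw [h0] at hpm
            exact absurd hpm (notMem_empty p)
          · omega
        obtain ⟨p', hp', hne⟩ := exists_mem_ne hc2 p
        obtain ⟨hp'A, hp'F⟩ := mem_filter.1 hp'
        by_cases hp'B : p' ∈ B
        · exact ⟨Sum.inl p', Finset.inl_mem_disjSum.2 hp'B, Sum.Lex.inl_lt_inr _ _, hp'F⟩
        · exfalso
          obtain ⟨q'', hq'', hF⟩ := hT2 p' hp'A hp'B
          rcases hY3 _ hc q hq.1 q' hq' q'' (hTY hq'') (erase_subset _ _) h2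
            (by rw [hF]; exact hp'F) with h3 | h3 | h3
          · exact hq.2 (h3 ▸ hT)
          · exact hq.2 (h3 ▸ hq'')
          · apply hne
            apply hinj p' hp'A p hp
            rw [← hF, hpF, h3]
      · exact ⟨Sum.inr q', Finset.inr_mem_disjSum.2 (mem_sdiff.2 ⟨hq', hT⟩),
          Sum.Lex.inr_lt_inr_iff.2 h1, h2⟩

private theorem W1_three {α : Type*} [DecidableEq α] {s : Finset α} (h : s.card = 0 ∨ s.card = 2)
    {a b c : α} (ha : a ∈ s) (hb : b ∈ s) (hc : c ∈ s) : a = b ∨ a = c ∨ b = c := by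
  by_contra hn
  push Not at hn
  have : 2 < s.card := two_lt_card.2 ⟨a, ha, b, hb, c, hc, hn.1, hn.2.1, hn.2.2⟩
  omega

theorem glue_three {ι1 ι2 V κ1 κ2 : Type*} [DecidableEq V] [DecidableEq ι1] [DecidableEq ι2] [LinearOrder κ1]
    [LinearOrder κ2] {d : ℕ} (hd : 1 ≤ d)
    {A B : Finset ι1} {Y T : Finset ι2} {F1 R1 : ι1 → Finset V} {F2 R2 : ι2 → Finset V} {key1 : ι1 → κ1}
    {key2 : ι2 → κ2} (hBA : B ⊆ A) (hTY : T ⊆ Y) (hB : SData d B F1 R1 key1) (hY : SData d Y F2 R2 key2)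
    (hcard : ∀ p ∈ A, (F1 p).card = d)
    (hinj : ∀ p ∈ A, ∀ q ∈ A, F1 p = F1 q → p = q)
    (hcl : ∀ ρ : Finset V, ρ.card + 1 = d →
      (A.filter fun p => ρ ⊆ F1 p).card = 0 ∨ (A.filter fun p => ρ ⊆ F1 p).card = 2)
    (hY3 : ∀ ρ : Finset V, ρ.card + 1 = d → ∀ i ∈ Y, ∀ j ∈ Y, ∀ k ∈ Y, ρ ⊆ F2 i → ρ ⊆ F2 j → ρ ⊆ F2 k →
      i = j ∨ i = k ∨ j = k)
    (hT1 : ∀ q ∈ T, ∃ p ∈ A, p ∉ B ∧ F1 p = F2 q) (hT2 : ∀ p ∈ A, p ∉ B → ∃ q ∈ T, F2 q = F1 p)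
    (hnew : ∀ q ∈ Y, q ∉ T → ∀ p ∈ A, ¬ R2 q ⊆ F1 p) (ρ : Finset V) (hρ : ρ.card + 1 = d)
    (i j k : ι1 ⊕ ι2) (hi : i ∈ B.disjSum (Y \ T)) (hj : j ∈ B.disjSum (Y \ T)) (hk : k ∈ B.disjSum (Y \ T))
    (h1 : ρ ⊆ Sum.elim F1 F2 i) (h2 : ρ ⊆ Sum.elim F1 F2 j) (h3 : ρ ⊆ Sum.elim F1 F2 k) :
    i = j ∨ i = k ∨ j = k := by
  have obs : ∀ q ∈ Y, q ∉ T → ρ ⊆ F2 q → ∀ p ∈ A, ρ ⊆ F1 p →
      ∃ q' ∈ Y, key2 q' < key2 q ∧ ρ ⊆ F2 q' := by
    intro q hq hqT hqF p hp hpF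
    have h4 : ¬ R2 q ⊆ ρ := fun h => hnew q hq hqT p hp (h.trans hpF)
    obtain ⟨r, hr, hrρ⟩ := not_subset.1 h4
    obtain ⟨q', hq', h5, h6⟩ := hY.step q hq r hr
    exact ⟨q', hq', h5, (subset_erase.2 ⟨hqF, hrρ⟩).trans h6⟩
  have two_one : ∀ p1 ∈ B, ∀ p2 ∈ B, ∀ q ∈ Y, q ∉ T → ρ ⊆ F1 p1 → ρ ⊆ F1 p2 → ρ ⊆ F2 q →
      p1 = p2 := by
    intro p1 hp1 p2 hp2 q hq hqT hF1 hF2 hFq
    by_contra hne
    obtain ⟨q', hq', h5, h6⟩ := obs q hq hqT hFq p1 (hBA hp1) hF1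
    by_cases hT : q' ∈ T
    · obtain ⟨p, hp, hpB, hpF⟩ := hT1 q' hT
      rcases W1_three (hcl ρ hρ) (mem_filter.2 ⟨hBA hp1, hF1⟩) (mem_filter.2 ⟨hBA hp2, hF2⟩)
        (mem_filter.2 ⟨hp, by rw [hpF]; exact h6⟩) with h7 | h7 | h7
      · exact hne h7
      · exact hpB (h7 ▸ hp1)
      · exact hpB (h7 ▸ hp2)
    · obtain ⟨q'', hq'', h7, h8⟩ := obs q' hq' hT h6 p1 (hBA hp1) hF1
      rcases hY3 ρ hρ q hq q' hq' q'' hq'' hFq h6 h8 with h9 | h9 | h9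
      · rw [h9] at h5
        exact lt_irrefl _ h5
      · rw [h9] at h5
        exact lt_asymm h5 h7
      · rw [h9] at h7
        exact lt_irrefl _ h7
  have one_two : ∀ p ∈ B, ∀ q1 ∈ Y, q1 ∉ T → ∀ q2 ∈ Y, q2 ∉ T → ρ ⊆ F1 p → ρ ⊆ F2 q1 →
      ρ ⊆ F2 q2 → q1 = q2 := by
    intro p hp q1 hq1 hq1T q2 hq2 hq2T hFp hF1 hF2
    by_contra hne
    obtain ⟨q1', hq1', a1, a2⟩ := obs q1 hq1 hq1T hF1 p (hBA hp) hFp
    obtain ⟨q2', hq2', b1, b2⟩ := obs q2 hq2 hq2T hF2 p (hBA hp) hFp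
    have c1 : q2 = q1' := by
      rcases hY3 ρ hρ q1 hq1 q2 hq2 q1' hq1' hF1 hF2 a2 with h9 | h9 | h9
      · exact absurd h9 hne
      · rw [← h9] at a1
        exact absurd a1 (lt_irrefl _)
      · exact h9
    have c2 : q1 = q2' := by
      rcases hY3 ρ hρ q1 hq1 q2 hq2 q2' hq2' hF1 hF2 b2 with h9 | h9 | h9
      · exact absurd h9 hne
      · exact h9
      · rw [← h9] at b1
        exact absurd b1 (lt_irrefl _)
    rw [← c1] at a1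
    rw [← c2] at b1
    exact lt_asymm a1 b1
  rcases i with i | i <;> rcases j with j | j <;> rcases k with k | k
  · have hi' := hBA (Finset.inl_mem_disjSum.1 hi)
    have hj' := hBA (Finset.inl_mem_disjSum.1 hj)
    have hk' := hBA (Finset.inl_mem_disjSum.1 hk)
    rcases W1_three (hcl ρ hρ) (mem_filter.2 ⟨hi', h1⟩) (mem_filter.2 ⟨hj', h2⟩)
      (mem_filter.2 ⟨hk', h3⟩) with h | h | h
    · exact Or.inl (congrArg Sum.inl h)
    · exact Or.inr (Or.inl (congrArg Sum.inl h))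
    · exact Or.inr (Or.inr (congrArg Sum.inl h))
  · have hk' := mem_sdiff.1 (Finset.inr_mem_disjSum.1 hk)
    exact Or.inl (congrArg Sum.inl (two_one i (Finset.inl_mem_disjSum.1 hi) j
      (Finset.inl_mem_disjSum.1 hj) k hk'.1 hk'.2 h1 h2 h3))
  · have hj' := mem_sdiff.1 (Finset.inr_mem_disjSum.1 hj)
    exact Or.inr (Or.inl (congrArg Sum.inl (two_one i (Finset.inl_mem_disjSum.1 hi) k
      (Finset.inl_mem_disjSum.1 hk) j hj'.1 hj'.2 h1 h3 h2)))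
  · have hj' := mem_sdiff.1 (Finset.inr_mem_disjSum.1 hj)
    have hk' := mem_sdiff.1 (Finset.inr_mem_disjSum.1 hk)
    exact Or.inr (Or.inr (congrArg Sum.inr (one_two i (Finset.inl_mem_disjSum.1 hi) j hj'.1 hj'.2
      k hk'.1 hk'.2 h1 h2 h3)))
  · have hi' := mem_sdiff.1 (Finset.inr_mem_disjSum.1 hi)
    exact Or.inr (Or.inr (congrArg Sum.inl (two_one j (Finset.inl_mem_disjSum.1 hj) k
      (Finset.inl_mem_disjSum.1 hk) i hi'.1 hi'.2 h2 h3 h1)))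
  · have hi' := mem_sdiff.1 (Finset.inr_mem_disjSum.1 hi)
    have hk' := mem_sdiff.1 (Finset.inr_mem_disjSum.1 hk)
    exact Or.inr (Or.inl (congrArg Sum.inr (one_two j (Finset.inl_mem_disjSum.1 hj) i hi'.1 hi'.2
      k hk'.1 hk'.2 h2 h1 h3)))
  · have hi' := mem_sdiff.1 (Finset.inr_mem_disjSum.1 hi)
    have hj' := mem_sdiff.1 (Finset.inr_mem_disjSum.1 hj)
    exact Or.inl (congrArg Sum.inr (one_two k (Finset.inl_mem_disjSum.1 hk) i hi'.1 hi'.2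
      j hj'.1 hj'.2 h3 h1 h2))
  · have hi' := mem_sdiff.1 (Finset.inr_mem_disjSum.1 hi)
    have hj' := mem_sdiff.1 (Finset.inr_mem_disjSum.1 hj)
    have hk' := mem_sdiff.1 (Finset.inr_mem_disjSum.1 hk)
    rcases hY3 ρ hρ i hi'.1 j hj'.1 k hk'.1 h1 h2 h3 with h | h | h
    · exact Or.inl (congrArg Sum.inr h)
    · exact Or.inr (Or.inl (congrArg Sum.inr h))
    · exact Or.inr (Or.inr (congrArg Sum.inr h))

end Pool.Agent.LibHB64
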