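import Pool.Agent.LibHB64.CODefs
import Pool.Agent.LibHB64.COW1
import Pool.Agent.LibHB64.COW2
import Pool.Agent.LibHB64.COP3

set_option autoImplicit false

/-!
Row W3. The window balls: `X` an ideal, `Y` a down-closed set of lower facets over an ideal `X2`, `t ≥ 1` the size of the window. `Tw` = the elements of `Y` which
are lower facets over `X` with all shifts `< t`; the other elements of `Y` are glued to the boundary of the squeezed ball of `X` without `Tw`, the positions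
`> 2 m + t` are new vertices.
PLAN Tw_isT: `(0, 1) ∈ Y` (from `hY.ne`, `hY.down`, `0 ∈ X2`, `0 ∈ X`: `(0,1) ≤` everything: `aft x 1` is false for `x ∈ Zt` (`aft x 1` means `x ≠ 0`, `x < 1`)), so `Tw` is
nonempty. `down`: `q ∈ LL X o`, `q.1 ≤ p.1`, `¬ aft p.2 q.2`, `p ∈ Tw`: `q.1 ∈ X2` (`hX2.down`), so `q ∈ LL X2 o` (`mem_LL`, `q.2 ∈ Zt o q.1`), `q ∈ Y`, and shifts `< t`.
PLAN Fy_eq: for `p` with all `p.1 i < t` the elements of `sg o p.1` are `≤ 2 m + t` (`rt ≤ 2 (m-1) + 3 + t - 1`), so `phw` does not move them.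
PLAN window_new: let `q ∈ Y`, `q ∉ Tw`, `p ∈ AA X o`, and suppose `Ry ⊆ FF o p`. If some `q.1 i ≥ t`, then `q.1 l ≥ t ≥ 1` for the last index `l = m - 1`, `rt q.1 l ∈ Rf` (`mem_Rf_inl`),
`rt q.1 l = 2 m + 1 + q.1 l > 2 m + t`, so `phw (rt) = rt + b ≥ b`, but the elements of `FF o p` are `< b` (`hb`). If all `q.1 i < t` then `phw` is the identity on `Rf`
and `q.1 ∉ X` (otherwise `q ∈ LL X o`... `q ∈ Tw`); `rt q.1 i ∈ FF o p ⊆ sg o p.1` for `0 < q.1 i`, so `q.1 ≤ p.1` by `rt_le` (COG3), so `q.1 ∈ X` by `hX.down`, contradiction.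
PLAN window_ball: `glue_SData`, `glue_three` with `A = AA X o`, `B = BB X o Tw` (`BB_SData`), `Y_SData`, `Y_three`, `a = 2 m + t`, `b` a strict upper bound of all elements of the `FF o p`,
`p ∈ AA X o`; `hinj`: if `FF o p = FF o q` then `Rb o p ⊆ FF o q` and `Rb o q ⊆ FF o p` and `kb_cont` twice; `hcl`: `AA_two`; `hT1`, `hT2`: `mem_BB`, `Fy_eq`. Then `SData.shell` (A1) and
`SData.hnum_eq` (A5): `hlt`: for `p ∈ BB`: as in the proof of `ball_of_T` (`Rb o p ≠ FF o p`: see COP2; there it is inside the proof, reprove with `not_T`); for `q ∈ E`: `Ry = Fy` would give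
`Rf = FF`, but `Rb o (u, inl x)` contains `lf u 0`, `1 ≤ m`. The count: `(B.disjSum E).filter` splits (`Finset.card_disjSum`, `Finset.filter_disjSum`), `count_BB` and `card_Rf_inl` (`(Ry p).card = dgr p.1 p.2`).
-/

namespace Pool.Agent.LibHB64

open Finset

variable {m : ℕ} {s t : Fin m → ℕ} {o : ℕ} {X X2 : Finset (Fin m → ℕ)}

/-- the part of `Y` which lies in the boundary of the squeezed ball of `X` -/
def Tw (X : Finset (Fin m → ℕ)) (Y : Finset ((Fin m → ℕ) × ℕ)) (t : ℕ) : Finset ((Fin m → ℕ) × ℕ) :=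
  Y.filter fun p => p.1 ∈ X ∧ ∀ i, p.1 i < t

theorem Tw_isT (hX : IsId X) (hX2 : IsId X2) {Y : Finset ((Fin m → ℕ) × ℕ)} (hY : IsT X2 o Y) {w : ℕ} (hw : 1 ≤ w) :
    IsT X o (Tw X Y w) := by
  have mTw : ∀ p : (Fin m → ℕ) × ℕ, p ∈ Tw X Y w ↔ p ∈ Y ∧ p.1 ∈ X ∧ ∀ i, p.1 i < w := by
    intro p
    unfold Tw
    rw [mem_filter]
  refine ⟨?_, ?_, ?_⟩
  · rintro ⟨u, x⟩ hp
    obtain ⟨h1, h2, h3⟩ := (mTw _).1 hp
    exact mem_LL.2 ⟨h2, (mem_LL.1 (hY.sub h1)).2⟩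
  · obtain ⟨⟨u, x⟩, hp⟩ := hY.ne
    obtain ⟨hu, hx⟩ := mem_LL.1 (hY.sub hp)
    have h0 : Monotone (fun _ : Fin m => 0) := fun _ _ _ => le_rfl
    have h2 : (fun _ : Fin m => 0) ∈ X2 := hX2.down u hu _ h0 (fun i => Nat.zero_le _)
    obtain ⟨v, hv⟩ := hX.ne
    have h3 : (fun _ : Fin m => 0) ∈ X := hX.down v hv _ h0 (fun i => Nat.zero_le _)
    have h4 : ((fun _ : Fin m => 0), 1) ∈ LL X2 o := mem_LL.2 ⟨h2, mem_Zt.2 (Or.inl ⟨Nat.sub_le 1 o, le_rfl⟩)⟩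
    have h5 : ((fun _ : Fin m => 0), 1) ∈ Y := by
      refine hY.down (u, x) hp _ h4 (fun i => Nat.zero_le _) ?_
      rintro ⟨h6, h7 | h7⟩
      · exact one_ne_zero h7
      · exact h6 (Nat.lt_one_iff.1 h7)
    exact ⟨((fun _ : Fin m => 0), 1), (mTw _).2 ⟨h5, h3, fun i => hw⟩⟩
  · rintro ⟨u, x⟩ hp ⟨v, y⟩ hq hle haft
    obtain ⟨h1, h2, h3⟩ := (mTw _).1 hp
    obtain ⟨hv, hy⟩ := mem_LL.1 hq
    have hu2 := (mem_LL.1 (hY.sub h1)).1
    have hv2 : v ∈ X2 := hX2.down u hu2 v (hX.mono v hv) hle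
    have h4 : (v, y) ∈ Y := hY.down (u, x) h1 (v, y) (mem_LL.2 ⟨hv2, hy⟩) hle haft
    exact (mTw _).2 ⟨h4, hv, fun i => lt_of_le_of_lt (hle i) (h3 i)⟩

private theorem W3_ph_of_le {a b y : ℕ} (h : y ≤ a) : phw a b y = y := by
  unfold phw
  rw [if_pos h]

private theorem W3_sg_le {w : ℕ} {u : Fin m → ℕ} (hp : ∀ i, u i < w) (hw : 1 ≤ w) {y : ℕ} (hy : y ∈ sg o u) :
    y ≤ 2 * m + w := by
  rcases mem_sg.1 hy with h | ⟨i, h⟩ | ⟨i, h⟩
  · omega
  · have h1 := hp i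
    have h2 := i.isLt
    unfold lf at h
    omega
  · have h1 := hp i
    have h2 := i.isLt
    unfold rt at h
    omega

private theorem W3_FF_sub (p : (Fin m → ℕ) × (ℕ ⊕ Fin m)) : FF o p ⊆ sg o p.1 := by
  unfold FF
  exact erase_subset _ _

theorem Fy_eq {w b : ℕ} {p : (Fin m → ℕ) × ℕ} (hp : ∀ i, p.1 i < w) (hw : 1 ≤ w) :
    Fy (2 * m + w) b o p = FF o (p.1, Sum.inl p.2) := by
  unfold Fy
  have h1 : ∀ y ∈ FF o (p.1, Sum.inl p.2), phw (2 * m + w) b y = y := by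
    intro y hy
    have h2 : y ∈ sg o p.1 := W3_FF_sub (o := o) (p.1, Sum.inl p.2) hy
    have h3 : y ≤ 2 * m + w := W3_sg_le (o := o) (u := p.1) hp hw h2
    exact W3_ph_of_le h3
  ext y
  rw [mem_image]
  constructor
  · rintro ⟨z, hz, rfl⟩
    rw [h1 z hz]
    exact hz
  · intro hy
    exact ⟨y, hy, h1 y hy⟩

theorem window_new (hm : 1 ≤ m) (hX : IsId X) (hX2 : IsId X2) {Y : Finset ((Fin m → ℕ) × ℕ)} (hY : IsT X2 o Y) {w : ℕ}
    (hw : 1 ≤ w) {b : ℕ} (hb : ∀ p ∈ AA X o, ∀ v ∈ FF o p, v < b) :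
    ∀ q ∈ Y, q ∉ Tw X Y w → ∀ p ∈ AA X o, ¬ Ry (2 * m + w) b o q ⊆ FF o p := by
  rintro ⟨u, x⟩ hq hqT p hp hsub
  obtain ⟨hu, hx⟩ := mem_LL.1 (hY.sub hq)
  have hum := hX2.mono u hu
  have hR : ∀ i, 0 < u i → phw (2 * m + w) b (rt u i) ∈ FF o p := by
    intro i hi
    apply hsub
    unfold Ry
    exact mem_image.2 ⟨rt u i, (mem_Rf_inl hum hx).2 (Or.inl ⟨i, hi, rfl⟩), rfl⟩
  by_cases hbig : ∃ i, w ≤ u i
  · obtain ⟨i, hi⟩ := hbig
    have hl : i ≤ (⟨m - 1, by omega⟩ : Fin m) := by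
      have := i.isLt
      show (i : ℕ) ≤ m - 1
      omega
    have h1 := hum hl
    have h2 := hR ⟨m - 1, by omega⟩ (by omega)
    have h3 := hb p hp _ h2
    have h4 : 2 * m + w < rt u ⟨m - 1, by omega⟩ := by
      unfold rt
      simp only
      omega
    unfold phw at h3
    rw [if_neg (not_le.2 h4)] at h3
    omega
  · push Not at hbig
    have hpX : p.1 ∈ X := by
      obtain ⟨v, z | k⟩ := p
      · exact (mem_AA_inl.1 hp).1
      · exact (mem_AA_inr.1 hp).1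
    have h1 : ∀ i, 0 < u i → rt u i ∈ sg o p.1 := by
      intro i hi
      have h2 := hR i hi
      rw [W3_ph_of_le (W3_sg_le (o := o) hbig hw (rt_mem i))] at h2
      exact W3_FF_sub _ h2
    have h3 := rt_le hum (hX.mono _ hpX) (fun i => 0 < u i) (fun i j hij hi => lt_of_lt_of_le hi (hum hij)) h1
    have h4 : u ≤ p.1 := by
      intro i
      rcases Nat.eq_zero_or_pos (u i) with h5 | h5
      · rw [h5]
        exact Nat.zero_le _
      · exact h3 i h5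
    have h6 : u ∈ X := hX.down p.1 hpX u hum h4
    apply hqT
    unfold Tw
    exact mem_filter.2 ⟨hq, h6, hbig⟩

private theorem W3_ltb (S : Finset ℕ) : ∃ b : ℕ, ∀ v ∈ S, v < b :=
  ⟨S.sup id + 1, fun _ hv => Nat.lt_succ_of_le (Finset.le_sup (f := id) hv)⟩

theorem window_ball (hm : 1 ≤ m) (ho : o ≤ 1) (hX : IsId X) (hX2 : IsId X2) {Y : Finset ((Fin m → ℕ) × ℕ)}
    (hY : IsT X2 o Y) {w : ℕ} (hw : 1 ≤ w) :
    ∃ (D : Finset (Finset ℕ)) (N : ℕ), (∀ s ∈ D, ∀ v ∈ s, v < N) ∧ ShBall (2 * m + o) D ∧ ∀ j, j ≤ 2 * m + o →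
      hnum (2 * m + o) D j = (if j < m then (((LL X o).filter fun p => dgr p.1 p.2 = j).card : ℤ)
      else (((LL X o).filter fun p => dgr p.1 p.2 = 2 * m + o - j).card : ℤ) -
        (((Tw X Y w).filter fun p => dgr p.1 p.2 = 2 * m + o - j).card : ℤ)) +
        (((Y \ Tw X Y w).filter fun p => dgr p.1 p.2 = j).card : ℤ) := by
  classical
  have hT : IsT X o (Tw X Y w) := Tw_isT hX hX2 hY hw
  have hTY : Tw X Y w ⊆ Y := filter_subset _ _
  have hTw : ∀ q ∈ Tw X Y w, ∀ i, q.1 i < w := by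
    intro q hq
    unfold Tw at hq
    exact (mem_filter.1 hq).2.2
  obtain ⟨b, hb0⟩ := W3_ltb ((AA X o).biUnion fun p => FF o p)
  have hb : ∀ p ∈ AA X o, ∀ v ∈ FF o p, v < b := fun p hp v hv => hb0 v (mem_biUnion.2 ⟨p, hp, hv⟩)
  have hBA : BB X o (Tw X Y w) ⊆ AA X o := fun p hp => (mem_BB.1 hp).1
  have hB := BB_SData hm ho hX hT
  have hYS := Y_SData (o := o) ho hX2 hY (2 * m + w) b
  have hinj : ∀ p ∈ AA X o, ∀ q ∈ AA X o, FF o p = FF o q → p = q := by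
    intro p hp q hq hpq
    rcases kb_cont hX hp hq (hpq ▸ Rb_sub hX hp) with h1 | h1
    · exact h1
    · rcases kb_cont hX hq hp (hpq ▸ Rb_sub hX hq) with h2 | h2
      · exact h2.symm
      · exact absurd h1 (not_lt.2 h2.le)
  have hT1 : ∀ q ∈ Tw X Y w, ∃ p ∈ AA X o, p ∉ BB X o (Tw X Y w) ∧ FF o p = Fy (2 * m + w) b o q := by
    rintro ⟨u, x⟩ hq
    refine ⟨(u, Sum.inl x), mem_AA_inl.2 (mem_LL.1 (hT.sub hq)), fun h => ?_, ?_⟩
    · exact (mem_BB.1 h).2 x rfl hq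
    · exact (Fy_eq (hTw _ hq) hw).symm
  have hT2 : ∀ p ∈ AA X o, p ∉ BB X o (Tw X Y w) → ∃ q ∈ Tw X Y w, Fy (2 * m + w) b o q = FF o p := by
    rintro ⟨u, z⟩ hp hn
    by_contra hcon
    apply hn
    rw [mem_BB]
    refine ⟨hp, fun x hx hxT => hcon ⟨(u, x), hxT, ?_⟩⟩
    rw [Fy_eq (hTw _ hxT) hw]
    simp only at hx
    rw [hx]
  have hnew := window_new hm hX hX2 hY hw hb
  have hS := glue_SData (d := 2 * m + o) (by omega) hBA hTY hB hYS (fun p hp => card_FF ho hX hp) hinj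
    (fun ρ hρ => AA_two ho hX ρ hρ)
    (fun ρ hρ i hi j hj k hk h1 h2 h3 => Y_three ho hX2 hY (2 * m + w) b ρ hρ i j k hi hj hk h1 h2 h3)
    hT1 hT2 hnew
  have h3 := glue_three (d := 2 * m + o) (by omega) hBA hTY hB hYS (fun p hp => card_FF ho hX hp) hinj
    (fun ρ hρ => AA_two ho hX ρ hρ)
    (fun ρ hρ i hi j hj k hk h1 h2 h3 => Y_three ho hX2 hY (2 * m + w) b ρ hρ i j k hi hj hk h1 h2 h3)
    hT1 hT2 hnew
  have hinjph : Function.Injective (phw (2 * m + w) b) := (ph_strictMono (2 * m + w) b).injective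
  have hD : ∀ s, s ∈ ((BB X o (Tw X Y w)).disjSum (Y \ Tw X Y w)).biUnion
      (fun i => (Sum.elim (FF o) (Fy (2 * m + w) b o) i).powerset) ↔
      ∃ i ∈ (BB X o (Tw X Y w)).disjSum (Y \ Tw X Y w), s ⊆ Sum.elim (FF o) (Fy (2 * m + w) b o) i := by
    intro s
    rw [mem_biUnion]
    simp only [mem_powerset]
  obtain ⟨N, hN⟩ := W3_ltb ((((BB X o (Tw X Y w)).disjSum (Y \ Tw X Y w)).biUnion
      (fun i => (Sum.elim (FF o) (Fy (2 * m + w) b o) i).powerset)).biUnion id)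
  refine ⟨_, N, fun s hs v hv => hN v (mem_biUnion.2 ⟨s, hs, hv⟩), ?_, ?_⟩
  · refine SData.shell hS (by omega) ?_ ?_ hD
    · intro i hi heq
      rw [Finset.mem_disjSum] at hi
      rcases hi with ⟨p, hp, rfl⟩ | ⟨q, hq, rfl⟩
      · simp only [Sum.elim_inl] at heq
        obtain ⟨⟨t, y⟩, hty⟩ := hT.ne
        have hqA : (t, Sum.inl y) ∈ AA X o := mem_AA_inl.2 (mem_LL.1 (hT.sub hty))
        have hRf : Rf o p ⊆ FF o (t, Sum.inl y) := by
          unfold Rf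
          rw [heq, sdiff_self]
          exact empty_subset _
        exact (mem_BB.1 (not_T hX hT hp hqA hRf)).2 y rfl hty
      · simp only [Sum.elim_inr] at heq
        obtain ⟨u, x⟩ := q
        have hqY : (u, x) ∈ LL X2 o := hY.sub (mem_sdiff.1 hq).1
        have hA : (u, Sum.inl x) ∈ AA X2 o := mem_AA_inl.2 (mem_LL.1 hqY)
        unfold Ry Fy at heq
        have h4 : Rf o (u, Sum.inl x) = FF o (u, Sum.inl x) := Finset.image_injective hinjph heq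
        have h5 : lf u ⟨0, hm⟩ ∈ Rb o (u, Sum.inl x) := by
          have h6 : Rb o (u, Sum.inl x) = univ.image (lf u) ∪ (Zt o u).filter fun y => aft x y := rfl
          rw [h6]
          exact mem_union_left _ (mem_image_of_mem _ (mem_univ _))
        have h7 := Rb_sub hX2 hA h5
        rw [← h4] at h7
        unfold Rf at h7
        exact (mem_sdiff.1 h7).2 h5
    · intro ρ hρ i hi j hj k hk g1 g2 g3
      exact h3 ρ (by omega) i j k hi hj hk g1 g2 g3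
  · intro j hj
    rw [SData.hnum_eq hS hD j hj]
    have h4 : (((BB X o (Tw X Y w)).disjSum (Y \ Tw X Y w)).filter fun i =>
        (Sum.elim (Rb o) (Ry (2 * m + w) b o) i).card = j) =
        ((BB X o (Tw X Y w)).filter fun p => (Rb o p).card = j).disjSum
          ((Y \ Tw X Y w).filter fun p => dgr p.1 p.2 = j) := by
      ext i
      rw [mem_filter, Finset.mem_disjSum, Finset.mem_disjSum]
      have hcard : ∀ q ∈ Y, (Ry (2 * m + w) b o q).card = dgr q.1 q.2 := by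
        rintro ⟨u, x⟩ hq
        obtain ⟨hu, hx⟩ := mem_LL.1 (hY.sub hq)
        unfold Ry
        rw [card_image_of_injective _ hinjph]
        exact card_Rf_inl ho (hX2.mono u hu) hx
      constructor
      · rintro ⟨⟨p, hp, rfl⟩ | ⟨q, hq, rfl⟩, h5⟩
        · exact Or.inl ⟨p, mem_filter.2 ⟨hp, h5⟩, rfl⟩
        · refine Or.inr ⟨q, mem_filter.2 ⟨hq, ?_⟩, rfl⟩
          rw [← hcard q (mem_sdiff.1 hq).1]
          exact h5
      · rintro (⟨p, hp, rfl⟩ | ⟨q, hq, rfl⟩)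
        · exact ⟨Or.inl ⟨p, (mem_filter.1 hp).1, rfl⟩, (mem_filter.1 hp).2⟩
        · refine ⟨Or.inr ⟨q, (mem_filter.1 hq).1, rfl⟩, ?_⟩
          have h6 := hcard q (mem_sdiff.1 (mem_filter.1 hq).1).1
          show (Ry (2 * m + w) b o q).card = j
          rw [h6]
          exact (mem_filter.1 hq).2
    rw [h4, Finset.card_disjSum, Nat.cast_add, count_BB ho hX hT j hj]

end Pool.Agent.LibHB64
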