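import Pool.Agent.LibHB64.COV1
import Pool.Agent.LibHB64.COV2
import Pool.Agent.LibHB64.COV3
import Pool.Agent.LibHB64.COV5
import Pool.Agent.LibHB64.COW3
import Pool.Agent.LibHB64.COQ7
import Pool.Agent.LibHM88.QE

set_option autoImplicit false

/-!
Sufficiency of the necessary condition `CondAll` in all dimensions for `h 1 ≤ 2`, and for the vectors whose first half has an
M-sequence of differences.
-/

namespace Pool.Agent.LibHB64

open Finset

theorem isM_MNum {m : ℕ} {s : ℕ → ℕ} (h : IsM m s) : MNum m s := Pool.LibHM88.isM_num h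

private theorem V4_filter (j : ℕ) (p : ℕ → Prop) [DecidablePred p] :
    ((Finset.range (j + 1)).filter fun b => 0 ≤ b ∧ p b).card = ((Finset.range (j + 1)).filter fun b => p b).card := by
  congr 1
  apply Finset.filter_congr
  intro b _
  simp

private theorem V4_arith {m o K j : ℕ} (hK : K = (2 * m + o - 1) / 2) (hjm : ¬ j < m)
    (hj2 : 2 * m + o - j ≤ K) (hjK : j ≤ K) (hm : 1 ≤ m) : False := by
  omega

/-- sufficiency for `h 1 ≤ 2` in all dimensions -/
theorem suff_two {d : ℕ} (hd : 2 ≤ d) {h : ℕ → ℕ} (h1 : h 1 ≤ 2) (hzero : h 0 = 1) (hlast : h d = 0)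
    (hmh : IsM (d / 2) h) (hmono : ∀ i, i + 1 ≤ d / 2 → h (d - i) ≤ h (d - (i + 1)))
    (hle : ∀ i, i ≤ d / 2 → h (d - i) ≤ h i) (hmr : IsM ((d - 1) / 2) fun i => h i - h (d - i)) :
    ∃ (N : ℕ) (D : Finset (Finset (Fin N))), ShBall d D ∧ ∀ i, i ≤ d → hnum d D i = h i := by
  have main : ∃ (D : Finset (Finset ℕ)) (N : ℕ), (∀ s ∈ D, ∀ v ∈ s, v < N) ∧ ShBall d D ∧
      ∀ i, i ≤ d → hnum d D i = h i := by
    obtain ⟨m, o, ho, rfl⟩ : ∃ m o, o ≤ 1 ∧ d = 2 * m + o := ⟨d / 2, d % 2, by omega, by omega⟩
    have hm1 : 1 ≤ m := by omega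
    have hd2 : (2 * m + o) / 2 = m := by omega
    obtain ⟨K, hK⟩ : ∃ K, K = (2 * m + o - 1) / 2 := ⟨_, rfl⟩
    have hKm : K ≤ m := by omega
    have hmK : m ≤ K + 1 := by omega
    have hmh := isM_MNum hmh
    have hmr := isM_MNum hmr
    rw [hd2] at hmh hmono hle
    rw [← hK] at hmr
    have hanti : ∀ i j, i ≤ j → j ≤ m → h (2 * m + o - i) ≤ h (2 * m + o - j) := by
      intro i j hij hjm
      induction j, hij using Nat.le_induction with
      | base => exact le_rfl
      | succ j hij ih => exact (ih (by omega)).trans (hmono j hjm)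
    have heP : ∀ i, i ≤ K → h (2 * m + o - i) ≤ h m := by
      intro i hi
      exact (hanti i m (by omega) le_rfl).trans (hle m le_rfl)
    obtain ⟨k, hn⟩ := num2_of (e := fun i => h (2 * m + o - i)) hm1 hKm hmK hmh h1 (by simpa using hlast)
      (fun i hi => hmono i hi) (fun i hi => hle i (by omega)) hmr heP
    have hk0 : 0 < k := by
      by_contra hk
      have := hn.small 0 (by omega) (by omega)
      omega
    have hYT : IsT (XU m (m + 1)) o (YU m o K (col2 (h m) k h fun i => h (2 * m + o - i))) :=
      YU_isT hKm (col_zero hn hk0) (fun i b hi hb => col_c1 hn i b hi hb) (fun i b hi hb => col_c2 hn i b hi hb)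
    by_cases hP : h m = 0
    · -- no squeezed part
      obtain ⟨D, N, hN, hB, hh⟩ := Y_ball hm1 ho (XU_id (m := m) (P := m + 1) (by omega)) hYT
      refine ⟨D, N, hN, hB, fun j hj => ?_⟩
      rw [hh j hj, YU_count hKm]
      by_cases hjK : j ≤ K
      · rw [if_pos hjK]
        have h2 := col_E hn hjK
        rw [hP] at h2
        rw [V4_filter] at h2
        rw [← hP] at h2
        rw [h2]
        simp only [hP, Nat.min_zero, Nat.sub_zero]
      · rw [if_neg hjK]
        have h3 : h j = 0 := by
          by_cases hjm : j = m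
          · rw [hjm, hP]
          · have h4 := heP (2 * m + o - j) (by omega)
            rw [show 2 * m + o - (2 * m + o - j) = j by omega, hP] at h4
            omega
        rw [h3]
    · have hP1 : 1 ≤ h m := by omega
      have hPm : h m ≤ m + 1 := hn.Pk.trans hn.km
      obtain ⟨D, N, hN, hB, hh⟩ := window_ball (w := 2) hm1 ho (XU_id (m := m) (P := h m) hP1)
        (XU_id (m := m) (P := m + 1) (by omega)) hYT (by omega)
      refine ⟨D, N, hN, hB, fun j hj => ?_⟩
      rw [hh j hj]
      have hT := TU_count (m := m) (o := o) (K := K) (P := h m) (col := col2 (h m) k h fun i => h (2 * m + o - i)) hKm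
      have hE := EU_count (m := m) (o := o) (K := K) (P := h m) (col := col2 (h m) k h fun i => h (2 * m + o - i)) hKm j
      unfold TU at hT hE
      unfold Tw
      rw [hE]
      have hEj : (if j ≤ K then ((Finset.range (j + 1)).filter fun b => h m ≤ b ∧
          col2 (h m) k h (fun i => h (2 * m + o - i)) j b).card else 0) = if j ≤ K then h j - min (j + 1) (h m) else 0 := by
        by_cases hjK : j ≤ K
        · rw [if_pos hjK, if_pos hjK, col_E hn hjK]
        · rw [if_neg hjK, if_neg hjK]
      rw [hEj]
      have hbig : ∀ i, i ≤ m → min (i + 1) (h m) ≤ h i := by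
        intro i hi
        by_cases hik : i < k
        · rw [hn.grow i hik]
          exact min_le_left _ _
        · refine (min_le_right _ _).trans ?_
          have h4 : ∀ j, i ≤ j → j ≤ m → h j ≤ h i := by
            intro j hij hjm
            induction j, hij using Nat.le_induction with
            | base => exact le_rfl
            | succ j hij ih => exact (hn.anti j (by omega) hjm).trans (ih (by omega))
          exact h4 m hi le_rfl
      by_cases hjm : j < m
      · rw [if_pos hjm, XU_count hP1 hjm.le, if_pos (by omega)]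
        have := hbig j hjm.le
        omega
      · rw [if_neg hjm, hT (2 * m + o - j)]
        by_cases hj1 : 2 * m + o - j ≤ m
        · rw [XU_count hP1 hj1]
          by_cases hj2 : 2 * m + o - j ≤ K
          · rw [if_pos hj2, col_T hn hj2]
            have h5 : h (2 * m + o - (2 * m + o - j)) = h j := by
              congr 1
              omega
            rw [h5]
            have h6 := hn.ei _ hj2
            have h7 := hn.eP _ hj2
            rw [h5] at h6 h7
            have h8 : h j ≤ min (2 * m + o - j + 1) (h m) := le_min h6 h7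
            by_cases hjK : j ≤ K
            · exact (V4_arith hK hjm hj2 hjK hm1).elim
            · rw [if_neg hjK, Nat.cast_sub h8, Nat.cast_zero]
              ring
          · rw [if_neg hj2, if_neg (by omega)]
            have h9 : j = m := by omega
            have h10 : 2 * m + o - j = m := by omega
            rw [h10, h9]
            omega
        · -- o = 1, j = m
          have ho1 : o = 1 := by omega
          subst ho1
          have hjm' : j = m := by omega
          subst hjm'
          rw [show 2 * j + 1 - j = j + 1 by omega, XU_top hP1 hPm, if_neg (by omega), if_pos (by omega)]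
          omega
  obtain ⟨D, N, hN, hB, hh⟩ := main
  obtain ⟨D', hB', hh'⟩ := hB.toFin hN
  exact ⟨N, D', hB', fun i hi => by rw [hh' i, hh i hi]⟩

/-- sufficiency for the vectors whose first half has an M-sequence of differences, in all dimensions -/
theorem suff_diff {d : ℕ} (hd : 2 ≤ d) {h : ℕ → ℕ} (hm : ∀ i, i < d / 2 → h i ≤ h (i + 1))
    (hg : IsM (d / 2) fun i => h i - if i = 0 then 0 else h (i - 1)) (hlast : h d = 0)
    (hmono : ∀ i, i + 1 ≤ d / 2 → h (d - i) ≤ h (d - (i + 1)))
    (hle : ∀ i, i ≤ d / 2 → h (d - i) ≤ h i) (hmr : IsM ((d - 1) / 2) fun i => h i - h (d - i)) :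
    ∃ (N : ℕ) (D : Finset (Finset (Fin N))), ShBall d D ∧ ∀ i, i ≤ d → hnum d D i = h i :=
  suff_all hd hm (isM_MNum hg) hlast hmono hle (isM_MNum hmr)

end Pool.Agent.LibHB64
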