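import Mathlib

set_option autoImplicit false

/-!
Common definitions for MP_8accfa_co (h-vectors of balls). A simplicial complex on the finite vertex type `V` is a
`Finset (Finset V)`. Sizes (cardinalities) of faces are used instead of dimensions. Homology is reduced simplicial
homology with coefficients in `ZMod 2`.
-/

namespace Pool.Agent.LibHB64

variable {V : Type*} [Fintype V] [DecidableEq V]

/-- a simplicial complex: contains the empty face, closed under subsets -/
def IsCx (D : Finset (Finset V)) : Prop := ∅ ∈ D ∧ ∀ s ∈ D, ∀ t, t ⊆ s → t ∈ D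

/-- the link of `s` -/
def lk (D : Finset (Finset V)) (s : Finset V) : Finset (Finset V) :=
  D.filter fun t => Disjoint s t ∧ s ∪ t ∈ D

/-- `c` is a chain of faces of size `n` of `D` -/
def IsChain (D : Finset (Finset V)) (n : ℕ) (c : Finset V → ZMod 2) : Prop :=
  ∀ s, c s ≠ 0 → s ∈ D ∧ s.card = n

/-- the boundary of a chain -/
def bdry (c : Finset V → ZMod 2) (t : Finset V) : ZMod 2 := ∑ v ∈ tᶜ, c (insert v t)

/-- every cycle of size `n` is a boundary: the reduced homology in dimension `n - 1` vanishes -/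
def Acyc (D : Finset (Finset V)) (n : ℕ) : Prop :=
  ∀ c, IsChain D n c → (∀ t, bdry c t = 0) → ∃ b, IsChain D (n + 1) b ∧ ∀ t, bdry b t = c t

/-- the only cycle of size `n` is zero -/
def TopZero (D : Finset (Finset V)) (n : ℕ) : Prop :=
  ∀ c, IsChain D n c → (∀ t, bdry c t = 0) → ∀ s, c s = 0

/-- there is exactly one nonzero cycle of size `n` -/
def TopOne (D : Finset (Finset V)) (n : ℕ) : Prop :=
  ∃ z, IsChain D n z ∧ (∀ t, bdry z t = 0) ∧ (∃ s, z s ≠ 0) ∧
    ∀ c, IsChain D n c → (∀ t, bdry c t = 0) → (∀ s, c s = 0) ∨ ∀ s, c s = z s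

/-- `D` is a homology sphere of dimension `d - 1` over the field with two elements: the link of a face `s` has the
homology of a sphere of dimension `d - 1 - |s|` -/
def HSph (d : ℕ) (D : Finset (Finset V)) : Prop :=
  IsCx D ∧ (∀ s ∈ D, s.card ≤ d) ∧
    ∀ s ∈ D, (∀ n, n < d - s.card → Acyc (lk D s) n) ∧ TopOne (lk D s) (d - s.card)

/-- `D` is a homology ball of dimension `d - 1` over the field with two elements, with the boundary `B`: `B` is a
homology sphere of dimension `d - 2`, the link of a face `s` is acyclic for `s` in `B` and has the homology of a sphere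
of dimension `d - 1 - |s|` otherwise -/
structure HBallB (d : ℕ) (D B : Finset (Finset V)) : Prop where
  pos : 1 ≤ d
  cx : IsCx D
  card : ∀ s ∈ D, s.card ≤ d
  sub : B ⊆ D
  sph : HSph (d - 1) B
  acyc : ∀ s ∈ D, ∀ n, n < d - s.card → Acyc (lk D s) n
  bd : ∀ s ∈ B, TopZero (lk D s) (d - s.card)
  int : ∀ s ∈ D, s ∉ B → TopOne (lk D s) (d - s.card)

/-- `D` is a homology ball of dimension `d - 1` over the field with two elements -/
def HBall (d : ℕ) (D : Finset (Finset V)) : Prop := ∃ B, HBallB d D B

/-- number of faces of size `i` -/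
def fnum (D : Finset (Finset V)) (i : ℕ) : ℕ := (D.filter fun s => s.card = i).card

/-- the `h`-vector of a complex of dimension `d - 1` (also used for families of faces which are not complexes) -/
def hnum (d : ℕ) (D : Finset (Finset V)) (j : ℕ) : ℤ :=
  ∑ i ∈ Finset.range (j + 1), (-1) ^ (j - i) * ((d - i).choose (j - i) : ℤ) * (fnum D i : ℤ)

/-- the facets of a pure complex of dimension `d - 1` -/
def Fac (d : ℕ) (D : Finset (Finset V)) : Finset (Finset V) := D.filter fun s => s.card = d

/-- `D` is generated by the facets in the list `l`, which is a shelling of a ball of dimension `d - 1`: the `k`-th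
facet meets the earlier ones in the facets `F - v`, `v ∈ R`, of its boundary, `R ≠ ∅` for the later ones and `R` is
never everything, and every face of size `d - 1` is in at most two facets -/
structure ShellBall (d : ℕ) (D : Finset (Finset V)) (l : List (Finset V)) : Prop where
  pos : 1 ≤ d
  ne : l ≠ []
  nodup : l.Nodup
  card : ∀ F ∈ l, F.card = d
  mem : ∀ s, s ∈ D ↔ ∃ F ∈ l, s ⊆ F
  shell : ∀ k (hk : k < l.length), ∃ R, R ⊂ l[k] ∧ (0 < k → R.Nonempty) ∧
    ∀ s, s ⊆ l[k] → ((∃ i, ∃ hi : i < k, s ⊆ l[i]) ↔ ¬ R ⊆ s)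
  two : ∀ s, s.card = d - 1 → (l.filter fun F => s ⊆ F).length ≤ 2

/-- `D` is a shellable ball of dimension `d - 1` -/
def ShBall (d : ℕ) (D : Finset (Finset V)) : Prop := ∃ l, ShellBall d D l

/-- `s` is an M-sequence up to degree `m`: the numbers of monomials of degrees `0, ..., m` of an order ideal of
monomials (containing `1`) -/
def IsM (m : ℕ) (s : ℕ → ℕ) : Prop :=
  ∃ (n : ℕ) (M : Set (Fin n →₀ ℕ)), (0 : Fin n →₀ ℕ) ∈ M ∧ (∀ a ∈ M, ∀ b, b ≤ a → b ∈ M) ∧
    ∀ i, i ≤ m → {a ∈ M | a.degree = i}.ncard = s i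

/-- the necessary condition: `h` restricted to `0..m` and `h_i - h_(d-i)` are M-sequences, `h_(d-i)` is nondecreasing
for `i ≤ m`, and (unless `h_m = 0`) there are numbers `c_i` between `h_(d-i)` and `h_i` with `c_m = h_m` such that the
differences `c_i - c_(i-1)` and the numbers `c_i - h_(d-i)` form M-sequences; `m = d / 2` -/
structure CondAll (d : ℕ) (h : ℕ → ℕ) : Prop where
  zero : h 0 = 1
  last : h d = 0
  mh : IsM (d / 2) h
  mono : ∀ i, i + 1 ≤ d / 2 → h (d - i) ≤ h (d - (i + 1))
  le : ∀ i, i ≤ d / 2 → h (d - i) ≤ h i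
  mr : IsM ((d - 1) / 2) fun i => h i - h (d - i)
  mc : h (d / 2) = 0 ∨ ∃ c : ℕ → ℕ, c 0 = 1 ∧ c (d / 2) = h (d / 2) ∧
    (∀ i, i ≤ d / 2 → h (d - i) ≤ c i ∧ c i ≤ h i) ∧ (∀ i, i + 1 ≤ d / 2 → c i ≤ c (i + 1)) ∧
    IsM (d / 2) (fun i => c i - if i = 0 then 0 else c (i - 1)) ∧ IsM ((d - 1) / 2) fun i => c i - h (d - i)

/-! ### algebra -/

open MvPolynomial

/-- the span of the monomials of degree `i` with support in the family `X` -/
noncomputable def mon (K : Type*) [Field K] (X : Finset (Finset V)) (i : ℕ) : Submodule K (MvPolynomial V K) :=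
  Submodule.span K {p | ∃ a : V →₀ ℕ, a.support ∈ X ∧ a.degree = i ∧ p = monomial a 1}

/-- the projection which drops the monomials with support outside `X` -/
noncomputable def proj (K : Type*) [Field K] (X : Finset (Finset V)) : MvPolynomial V K →ₗ[K] MvPolynomial V K :=
  (basisMonomials V K).constr K fun a => if a.support ∈ X then monomial a 1 else 0

variable {K : Type*} [Field K] {d : ℕ}

/-- the linear form with the coefficients `a j v` -/
noncomputable def th (a : Fin d → V → K) (j : Fin d) : MvPolynomial V K := ∑ v, C (a j v) * X v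

/-- multiplication by the polynomial `p` in the face ring of `D` -/
noncomputable def mulD (D : Finset (Finset V)) (p : MvPolynomial V K) : MvPolynomial V K →ₗ[K] MvPolynomial V K :=
  proj K D ∘ₗ LinearMap.mulLeft K p

/-- the part of degree `i` of `(θ_1, ..., θ_d) M`, where `M` is spanned by the monomials with support in `X`
(`X = D`: the face ring; `X` = interior faces: the interior ideal) -/
noncomputable def Th (D X : Finset (Finset V)) (a : Fin d → V → K) : ℕ → Submodule K (MvPolynomial V K)
  | 0 => ⊥
  | i + 1 => ⨆ j : Fin d, (mon K X i).map (mulD D (th a j))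

/-- genericity: the first `|s|` forms are independent on every face `s` -/
def Gen (D : Finset (Finset V)) (a : Fin d → V → K) : Prop :=
  ∀ s ∈ D, ∀ y : V → K, (∀ v, v ∉ s → y v = 0) → (∀ j : Fin d, (j : ℕ) < s.card → ∑ v, a j v * y v = 0) → y = 0

/-- the points `c F` (`F` a facet): zero outside `F`, killed by all forms but the last one, which has the value `1` -/
structure Pts (d : ℕ) (D : Finset (Finset V)) (a : Fin d → V → K) (c : Finset V → V → K) : Prop where
  supp : ∀ F ∈ Fac d D, ∀ v, v ∉ F → c F v = 0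
  eq : ∀ F ∈ Fac d D, ∀ j : Fin d, ∑ v, a j v * c F v = if (j : ℕ) + 1 = d then 1 else 0

/-- the values of a polynomial at the points -/
noncomputable def ev (d : ℕ) (D : Finset (Finset V)) (c : Finset V → V → K) :
    MvPolynomial V K →ₗ[K] ({F // F ∈ Fac d D} → K) :=
  LinearMap.pi fun F => (aeval (c F.1) : MvPolynomial V K →ₐ[K] K).toLinearMap

/-- `U_i` (for `X = D`) and `W_i` (for `X` = interior faces) -/
noncomputable def UW (d : ℕ) (D X : Finset (Finset V)) (c : Finset V → V → K) (i : ℕ) :
    Submodule K ({F // F ∈ Fac d D} → K) := (mon K X i).map (ev d D c)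

/-- the linear form with the coefficients `l v` -/
noncomputable def om (l : V → K) : MvPolynomial V K := ∑ v, C (l v) * X v

/-- the field of rational functions in `a_(j,v)` and `λ_v` over `k` -/
abbrev KK (k : Type*) [Field k] (d : ℕ) (V : Type*) : Type _ := FractionRing (MvPolynomial ((Fin d × V) ⊕ V) k)

/-- the variables `a_(j,v)` -/
noncomputable def ga (k : Type*) [Field k] (d : ℕ) (V : Type*) : Fin d → V → KK k d V :=
  fun j v => algebraMap (MvPolynomial ((Fin d × V) ⊕ V) k) (KK k d V) (X (Sum.inl (j, v)))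

/-- the variables `λ_v` -/
noncomputable def gl (k : Type*) [Field k] (d : ℕ) (V : Type*) : V → KK k d V :=
  fun v => algebraMap (MvPolynomial ((Fin d × V) ⊕ V) k) (KK k d V) (X (Sum.inr v))

end Pool.Agent.LibHB64
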