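import Pool.Agent.LibHB64.TRDefs

set_option autoImplicit false

/-!
[HB64 TR1] MEDIUM. ONLY TRDefs. Basic facts on `mon`, `proj`, `mulD`, `Th`.
`mon_finrank`: the monomials are linearly independent (`basisMonomials`), finitely many of degree `i` (`V` finite): `finrank = trcnt`. `tr_mon_fin`: finite dimensional. `proj_mem`: on `mon K D i` the projection is the identity.
`mem_mon_iff`: `p ∈ mon K X i` iff all `b` with `coeff b p ≠ 0` have `b.support ∈ X` and degree `i`. `tr_mulD_mon`: `mulD D (th a j)` maps `mon K X i` to `mon K X (i+1)` for `X` closed upwards in `D`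
(`mulD D (X v) (monomial u 1) = monomial (u + single v 1) 1` if the support is in `D`, else `0`). `mulD_comm`: `mulD D p (mulD D q w) = mulD D (p * q) w` for `IsCx D` (a monomial outside `D` stays outside after multiplication;
check on monomials `w`, `q`), so they commute. `Th_le`: `Th D X a i ≤ mon K X i`. `Th_mulD`: `mulD D (om l)`, `mulD D (X v)`, `mulD D (th b j)` map `Th D X a i` to `Th D X a (i+1)` (induction on `i`, `mulD_comm`).
`Th_mono`: `X ⊆ Y` implies `Th D X a i ≤ Th D Y a i`.
-/

namespace Pool.Agent.LibHB64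

open MvPolynomial Module

variable {V : Type*} [Fintype V] [DecidableEq V] {K : Type*} [Field K] {d : ℕ} {D X Y : Finset (Finset V)}

theorem mem_mon_iff {i : ℕ} {p : MvPolynomial V K} :
    p ∈ mon K X i ↔ ∀ b, coeff b p ≠ 0 → b.support ∈ X ∧ b.degree = i := by
  classical
  constructor
  · intro hp
    rw [mon] at hp
    induction hp using Submodule.span_induction with
    | mem x hx =>
      obtain ⟨a, ha, hd, rfl⟩ := hx
      intro b hb
      rw [coeff_monomial] at hb
      by_cases h : a = b
      · rw [← h]
        exact ⟨ha, hd⟩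
      · rw [if_neg h] at hb
        exact absurd rfl hb
    | zero =>
      intro b hb
      exact absurd (coeff_zero b) hb
    | add x y _ _ hx hy =>
      intro b hb
      rw [coeff_add] at hb
      by_cases h : coeff b x = 0
      · rw [h, zero_add] at hb
        exact hy b hb
      · exact hx b h
    | smul c x _ hx =>
      intro b hb
      rw [coeff_smul] at hb
      exact hx b fun h => hb (by rw [h, smul_zero])
  · intro h
    rw [p.as_sum]
    refine Submodule.sum_mem _ fun b hb => ?_
    have h1 := h b (mem_support_iff.1 hb)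
    have h2 : monomial b (coeff b p) = coeff b p • monomial b (1 : K) := by
      rw [smul_monomial, smul_eq_mul, mul_one]
    rw [h2]
    exact Submodule.smul_mem _ _ (Submodule.subset_span ⟨b, h1.1, h1.2, rfl⟩)

private theorem TR1_finite (X : Finset (Finset V)) (i : ℕ) : {a : V →₀ ℕ | a.support ∈ X ∧ a.degree = i}.Finite := by
  refine (Finsupp.finite_of_degree_le (σ := V) i).subset ?_
  rintro a ⟨_, h⟩
  exact h.le

private theorem TR1_span (X : Finset (Finset V)) (i : ℕ) : mon K X i =
    Submodule.span K (Set.range fun a : {a : V →₀ ℕ | a.support ∈ X ∧ a.degree = i} => basisMonomials V K a.1) := by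
  rw [mon]
  congr 1
  ext p
  constructor
  · rintro ⟨a, h1, h2, rfl⟩
    exact ⟨⟨a, h1, h2⟩, by rw [coe_basisMonomials]⟩
  · rintro ⟨⟨a, h1, h2⟩, rfl⟩
    exact ⟨a, h1, h2, by rw [coe_basisMonomials]⟩

theorem tr_mon_fin (X : Finset (Finset V)) (i : ℕ) : FiniteDimensional K (mon K X i) := by
  rw [TR1_span]
  have : Finite {a : V →₀ ℕ | a.support ∈ X ∧ a.degree = i} := (TR1_finite X i).to_subtype
  exact FiniteDimensional.span_of_finite K (Set.finite_range _)

theorem mon_finrank (X : Finset (Finset V)) (i : ℕ) : finrank K (mon K X i) = trcnt X i := by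
  rw [TR1_span, trcnt]
  let _ : Fintype {a : V →₀ ℕ | a.support ∈ X ∧ a.degree = i} := (TR1_finite X i).fintype
  rw [finrank_span_eq_card, Set.ncard_eq_toFinset_card', Set.toFinset_card]
  exact (basisMonomials V K).linearIndependent.comp _ Subtype.val_injective

private theorem TR1_proj (X : Finset (Finset V)) (a : V →₀ ℕ) :
    proj K X (monomial a 1) = if a.support ∈ X then monomial a 1 else 0 := by
  have h : (monomial a (1 : K)) = basisMonomials V K a := by rw [coe_basisMonomials]
  rw [proj, h, Basis.constr_basis, h]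

theorem tr_coeff_proj (X : Finset (Finset V)) (p : MvPolynomial V K) (b : V →₀ ℕ) :
    coeff b (proj K X p) = if b.support ∈ X then coeff b p else 0 := by
  classical
  induction p using MvPolynomial.induction_on' with
  | monomial u c =>
    have h2 : monomial u c = c • monomial u (1 : K) := by
      rw [smul_monomial, smul_eq_mul, mul_one]
    rw [h2, map_smul, coeff_smul, coeff_smul, TR1_proj, coeff_monomial]
    by_cases h : u = b
    · rw [if_pos h, ← h]
      by_cases h3 : u.support ∈ X
      · rw [if_pos h3, if_pos h3, coeff_monomial, if_pos rfl]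
      · rw [if_neg h3, if_neg h3, coeff_zero, smul_zero]
    · rw [if_neg h, smul_zero, ite_self]
      by_cases h3 : u.support ∈ X
      · rw [if_pos h3, coeff_monomial, if_neg h, smul_zero]
      · rw [if_neg h3, coeff_zero, smul_zero]
  | add p q hp hq =>
    rw [map_add, coeff_add, hp, hq, coeff_add]
    by_cases h : b.support ∈ X
    · rw [if_pos h, if_pos h, if_pos h]
    · rw [if_neg h, if_neg h, if_neg h, add_zero]

theorem proj_mem {i : ℕ} {p : MvPolynomial V K} (hp : p ∈ mon K X i) : proj K X p = p := by
  ext b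
  rw [tr_coeff_proj]
  by_cases h : coeff b p = 0
  · rw [h, ite_self]
  · rw [if_pos (mem_mon_iff.1 hp b h).1]

theorem proj_mul (hD : IsCx D) (p q : MvPolynomial V K) : proj K D (p * proj K D q) = proj K D (p * q) := by
  classical
  ext b
  rw [tr_coeff_proj, tr_coeff_proj]
  by_cases h : b.support ∈ D
  · rw [if_pos h, if_pos h, coeff_mul, coeff_mul]
    refine Finset.sum_congr rfl fun x hx => ?_
    have hx' : x.1 + x.2 = b := Finset.HasAntidiagonal.mem_antidiagonal.1 hx
    have h1 : x.2.support ⊆ b.support := by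
      rw [← hx']
      intro v hv
      rw [Finsupp.mem_support_iff] at hv ⊢
      rw [Finsupp.add_apply]
      omega
    rw [tr_coeff_proj, if_pos (hD.2 _ h _ h1)]
  · rw [if_neg h, if_neg h]

theorem mulD_mul (hD : IsCx D) (p q w : MvPolynomial V K) : mulD D p (mulD D q w) = mulD D (p * q) w := by
  change proj K D (p * proj K D (q * w)) = proj K D (p * q * w)
  rw [proj_mul hD, mul_assoc]

theorem tr_mulD_mon (hX : UpIn D X) {k i : ℕ} {p : MvPolynomial V K} (hp : p.IsHomogeneous k) {w : MvPolynomial V K}
    (hw : w ∈ mon K X i) : mulD D p w ∈ mon K X (k + i) := by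
  classical
  rw [mem_mon_iff] at hw ⊢
  intro b hb
  change coeff b (proj K D (p * w)) ≠ 0 at hb
  rw [tr_coeff_proj] at hb
  by_cases h : b.support ∈ D
  · rw [if_pos h, coeff_mul] at hb
    obtain ⟨x, hx, hne⟩ := Finset.exists_ne_zero_of_sum_ne_zero hb
    have hx' : x.1 + x.2 = b := Finset.HasAntidiagonal.mem_antidiagonal.1 hx
    have h1 := hp (left_ne_zero_of_mul hne)
    have h2 := hw x.2 (right_ne_zero_of_mul hne)
    have h3 : Finsupp.degree x.1 = k := by
      rw [Finsupp.degree_eq_weight_one]
      exact h1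
    refine ⟨hX.2 _ h2.1 _ h ?_, ?_⟩
    · rw [← hx']
      intro v hv
      rw [Finsupp.mem_support_iff] at hv ⊢
      rw [Finsupp.add_apply]
      omega
    · rw [← hx', map_add, h2.2, h3]
  · rw [if_neg h] at hb
    exact absurd rfl hb

theorem th_hom (a : Fin d → V → K) (j : Fin d) : (th a j).IsHomogeneous 1 := by
  rw [th]
  refine IsHomogeneous.sum _ _ _ fun v _ => ?_
  have h := (isHomogeneous_C V (a j v)).mul (isHomogeneous_X K v)
  rwa [zero_add] at h

theorem om_hom (l : V → K) : (om l).IsHomogeneous 1 := by
  rw [om]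
  refine IsHomogeneous.sum _ _ _ fun v _ => ?_
  have h := (isHomogeneous_C V (l v)).mul (isHomogeneous_X K v)
  rwa [zero_add] at h

theorem tr_mon_mono (h : X ⊆ Y) (i : ℕ) : mon K X i ≤ mon K Y i := by
  intro p hp
  rw [mem_mon_iff] at hp ⊢
  exact fun b hb => ⟨h (hp b hb).1, (hp b hb).2⟩

theorem Th_le (hX : UpIn D X) (a : Fin d → V → K) (i : ℕ) : Th D X a i ≤ mon K X i := by
  rcases i with _ | i
  · exact bot_le
  · refine iSup_le fun j => ?_
    rw [Submodule.map_le_iff_le_comap]
    intro w hw
    have h := tr_mulD_mon hX (th_hom a j) hw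
    rw [add_comm] at h
    exact h

theorem Th_mulD (hD : IsCx D) (hX : UpIn D X) (a : Fin d → V → K) {k i : ℕ} {p : MvPolynomial V K}
    (hp : p.IsHomogeneous k) {w : MvPolynomial V K} (hw : w ∈ Th D X a i) : mulD D p w ∈ Th D X a (k + i) := by
  rcases i with _ | i
  · have h : w = 0 := hw
    rw [h, map_zero]
    exact zero_mem _
  · change w ∈ ⨆ j : Fin d, (mon K X i).map (mulD D (th a j)) at hw
    change mulD D p w ∈ ⨆ j : Fin d, (mon K X (k + i)).map (mulD D (th a j))
    induction hw using Submodule.iSup_induction' with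
    | mem j x hx =>
      obtain ⟨w', hw', rfl⟩ := hx
      refine Submodule.mem_iSup_of_mem j ⟨mulD D p w', tr_mulD_mon hX hp hw', ?_⟩
      rw [mulD_mul hD, mulD_mul hD, mul_comm]
    | zero =>
      rw [map_zero]
      exact zero_mem _
    | add x y _ _ hx hy =>
      rw [map_add]
      exact add_mem hx hy

theorem Th_mono (D : Finset (Finset V)) (h : X ⊆ Y) (a : Fin d → V → K) (i : ℕ) : Th D X a i ≤ Th D Y a i := by
  rcases i with _ | i
  · exact le_refl _
  · exact iSup_mono fun j => Submodule.map_mono (tr_mon_mono h i)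

end Pool.Agent.LibHB64
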