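import Pool.Agent.LibHB64.INDefs
import Pool.Agent.LibHB64.TR1
import Pool.Agent.LibHB64.AR0

set_option autoImplicit false

/-!
[HB64 IN0] MEDIUM. ONLY INDefs, TR1, AR0. Dimensions and closure under the variables.
`PB_dim`: `proj K D` maps `HH K V i` onto `mon K D i` (`mem_mon_iff`, `tr_coeff_proj`, `proj_mem`, `mon K D i ≤ HH K V i`), `PB D i T` is the preimage of `T ≤ mon K D i` in `HH K V i`; rank-nullity for `HH i → mon D i` and for `PB → T` (same kernel).
`PB_mono`, `PB_top`: `PB D i (mon K D i) = HH K V i`. `Nf_X`, `Gf_X`: `proj (X v * p) = mulD D (X v) (proj p)` (`proj_mul`), `Th_mulD` and `tr_mulD_mon` with `k = 1` (`1 + i = i + 1`).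
`Gf_zero`: `p ∈ HH K V 0` is a constant `C c`, `proj (C c) = C c` as `∅ ∈ D`; `Th _ _ _ 0 = ⊥`; `mon K (D \ B) 0 = ⊥` since `∅ ∈ B` (a monomial of degree 0 has support `∅`).
`Nf_inj`: `proj (om^n * g) = mulD D (om^n) (proj g)`, `proj g ∈ Th ⊔ mon`.
-/

namespace Pool.Agent.LibHB64

open MvPolynomial Module

variable {V : Type*} [Fintype V] [DecidableEq V] {K : Type*} [Field K] {d : ℕ} {D B : Finset (Finset V)}

private theorem finrank_map_add_ker {M M' : Type*} [AddCommGroup M] [Module K M] [AddCommGroup M']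
    [Module K M'] (f : M →ₗ[K] M') (p : Submodule K M) [FiniteDimensional K p] :
    finrank K (p.map f) + finrank K (LinearMap.ker f ⊓ p : Submodule K M) = finrank K p := by
  have h := LinearMap.finrank_range_add_finrank_ker (f.domRestrict p)
  have h1 : LinearMap.range (f.domRestrict p) = p.map f := LinearMap.range_domRestrict p f
  rw [h1, LinearMap.ker_domRestrict] at h
  rw [← h]
  congr 1
  have e : ((LinearMap.ker f ⊓ p : Submodule K M).submoduleOf p) = (LinearMap.ker f).submoduleOf p := by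
    unfold Submodule.submoduleOf
    rw [Submodule.comap_inf, Submodule.comap_subtype_self, inf_top_eq]
  change _ = finrank K ↥((LinearMap.ker f).submoduleOf p)
  rw [← e]
  exact (LinearEquiv.finrank_eq (Submodule.submoduleOfEquivOfLe inf_le_right)).symm

private theorem mon_le_HH (X : Finset (Finset V)) (i : ℕ) : mon K X i ≤ HH K V i := by
  intro p hp
  rw [mem_homogeneousSubmodule]
  intro b hb
  have := ((mem_mon_iff (K := K)).1 hp b hb).2
  rw [← this, Finsupp.degree_eq_weight_one]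
  rfl

private theorem proj_mem_mon {i : ℕ} {p : MvPolynomial V K} (hp : p ∈ HH K V i) : proj K D p ∈ mon K D i := by
  rw [mem_mon_iff]
  intro b hb
  rw [tr_coeff_proj] at hb
  split_ifs at hb with h1
  · refine ⟨h1, ?_⟩
    rw [mem_homogeneousSubmodule] at hp
    have := hp hb
    rw [Finsupp.degree_eq_weight_one]
    exact this
  · exact absurd rfl hb

private theorem PB_map {i : ℕ} {T : Submodule K (MvPolynomial V K)} (hT : T ≤ mon K D i) :
    (PB D i T).map (proj K D) = T := by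
  apply le_antisymm
  · rintro _ ⟨p, hp, rfl⟩
    exact hp.2
  · intro t ht
    refine ⟨t, ⟨mon_le_HH D i (hT ht), ?_⟩, proj_mem (hT ht)⟩
    change proj K D t ∈ T
    rwa [proj_mem (hT ht)]

private theorem PB_mon {i : ℕ} : PB D i (mon K D i) = HH K V i := by
  apply le_antisymm inf_le_left
  intro p hp
  exact ⟨hp, proj_mem_mon hp⟩

theorem PB_dim {i : ℕ} {T : Submodule K (MvPolynomial V K)} (hT : T ≤ mon K D i) :
    finrank K (PB D i T) + finrank K (mon K D i) = finrank K T + finrank K (HH K V i) := by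
  have : FiniteDimensional K (HH K V i) := HH_fin i
  have : FiniteDimensional K (PB D i T) :=
    Submodule.finiteDimensional_of_le (inf_le_left : PB D i T ≤ HH K V i)
  have h1 := finrank_map_add_ker (proj K D) (PB D i T)
  have h2 := finrank_map_add_ker (proj K D) (HH K V i)
  rw [PB_map hT] at h1
  have h3 : (HH K V i).map (proj K D) = mon K D i := by
    have := PB_map (D := D) (i := i) (T := mon K D i) le_rfl
    rwa [PB_mon] at this
  rw [h3] at h2
  have h4 : (LinearMap.ker (proj K D) ⊓ PB D i T : Submodule K (MvPolynomial V K)) =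
      LinearMap.ker (proj K D) ⊓ HH K V i := by
    apply le_antisymm
    · exact inf_le_inf le_rfl inf_le_left
    · rintro p ⟨hp1, hp2⟩
      refine ⟨hp1, hp2, ?_⟩
      change proj K D p ∈ T
      rw [LinearMap.mem_ker.1 hp1]
      exact T.zero_mem
  rw [h4] at h1
  omega

theorem PB_mono {i : ℕ} {T T' : Submodule K (MvPolynomial V K)} (h : T ≤ T') : PB D i T ≤ PB D i T' :=
  inf_le_inf le_rfl (Submodule.comap_mono h)

private theorem UpIn_self (D : Finset (Finset V)) : UpIn D D := ⟨subset_rfl, fun _ _ _ ht _ => ht⟩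

private theorem proj_X_mul (hD : IsCx D) (q p : MvPolynomial V K) :
    proj K D (q * p) = mulD D q (proj K D p) := (proj_mul hD q p).symm

theorem Nf_X (hD : IsCx D) (i : ℕ) (v : V) (p : MvPolynomial V (KK ℚ d V)) (hp : p ∈ Nf d D i) :
    X v * p ∈ Nf d D (i + 1) := by
  refine ⟨?_, ?_⟩
  · rw [add_comm]
    exact HH_mul (by rw [mem_homogeneousSubmodule]; exact isHomogeneous_X _ _) hp.1
  · change proj (KK ℚ d V) D (X v * p) ∈ Th D D (ga ℚ d V) (i + 1)
    rw [proj_X_mul hD, add_comm]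
    exact Th_mulD hD (UpIn_self D) (ga ℚ d V) (isHomogeneous_X _ _) hp.2

theorem Gf_X (hD : IsCx D) (hX : UpIn D (D \ B)) (i : ℕ) (v : V) (p : MvPolynomial V (KK ℚ d V))
    (hp : p ∈ Gf d D B i) : X v * p ∈ Gf d D B (i + 1) := by
  refine ⟨?_, ?_⟩
  · rw [add_comm]
    exact HH_mul (by rw [mem_homogeneousSubmodule]; exact isHomogeneous_X _ _) hp.1
  · change proj (KK ℚ d V) D (X v * p) ∈ Th D D (ga ℚ d V) (i + 1) ⊔ mon (KK ℚ d V) (D \ B) (i + 1)
    rw [proj_X_mul hD, add_comm]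
    have h2 : proj (KK ℚ d V) D p ∈ Th D D (ga ℚ d V) i ⊔ mon (KK ℚ d V) (D \ B) i := hp.2
    obtain ⟨u, hu, w, hw, huw⟩ := Submodule.mem_sup.1 h2
    rw [← huw, map_add]
    exact Submodule.add_mem_sup
      (Th_mulD hD (UpIn_self D) (ga ℚ d V) (isHomogeneous_X _ _) hu)
      (tr_mulD_mon hX (isHomogeneous_X _ _) hw)

theorem Gf_zero (hD : ∅ ∈ D) (hB : ∅ ∈ B) : Gf d D B 0 = ⊥ := by
  rw [eq_bot_iff]
  intro p hp
  obtain ⟨c, rfl⟩ := HH_zero_mem hp.1
  have h2 : proj (KK ℚ d V) D (C c) ∈ Th D D (ga ℚ d V) 0 ⊔ mon (KK ℚ d V) (D \ B) 0 := hp.2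
  have h3 : Th D D (ga ℚ d V) 0 = ⊥ := rfl
  rw [h3, bot_sup_eq, mem_mon_iff] at h2
  rw [Submodule.mem_bot]
  by_contra hc
  have hc' : c ≠ 0 := fun h => hc (by rw [h, C_0])
  have h4 := (h2 0 (by
    rw [tr_coeff_proj, Finsupp.support_zero, if_pos hD, coeff_zero_C]
    exact hc')).1
  rw [Finsupp.support_zero, Finset.mem_sdiff] at h4
  exact h4.2 hB

theorem Nf_zero (hD : ∅ ∈ D) : Nf d D 0 = ⊥ := by
  rw [eq_bot_iff]
  intro p hp
  obtain ⟨c, rfl⟩ := HH_zero_mem hp.1
  have h2 : proj (KK ℚ d V) D (C c) ∈ Th D D (ga ℚ d V) 0 := hp.2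
  have h3 : Th D D (ga ℚ d V) 0 = ⊥ := rfl
  rw [h3, Submodule.mem_bot] at h2
  have h4 := congrArg (coeff 0) h2
  rw [tr_coeff_proj, Finsupp.support_zero, if_pos hD, coeff_zero_C, coeff_zero] at h4
  rw [h4, C_0]
  exact Submodule.zero_mem _

theorem Nf_inj (hD : IsCx D) {m i : ℕ} (hi : i ≤ m)
    (h : ∀ w ∈ Th D D (ga ℚ d V) i ⊔ mon (KK ℚ d V) (D \ B) i,
      mulD D (om (gl ℚ d V) ^ (m - i)) w ∈ Th D D (ga ℚ d V) m → w ∈ Th D D (ga ℚ d V) i)
    (g : MvPolynomial V (KK ℚ d V)) (hg : g ∈ Gf d D B i) (h' : om (gl ℚ d V) ^ (m - i) * g ∈ Nf d D m) :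
    g ∈ Nf d D i := by
  refine ⟨hg.1, ?_⟩
  have h2 : proj (KK ℚ d V) D (om (gl ℚ d V) ^ (m - i) * g) ∈ Th D D (ga ℚ d V) m := h'.2
  rw [proj_X_mul hD] at h2
  exact h _ hg.2 h2

end Pool.Agent.LibHB64
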