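import Pool.Agent.LibHB64.INDefs
import Pool.Agent.LibHB64.TR1
import Pool.Agent.LibHB64.AR0
import Pool.Agent.LibHB64.DER
import Pool.Agent.LibHB64.DC

set_option autoImplicit false

/-!
[HB64 IN1] MEDIUM. ONLY INDefs, TR1, AR0, DER, DC. Derivations acting on the coefficients of polynomials; `K` is a field with a `ℚ`-algebra structure, `a` the coefficients of the forms `θ`, `l` those of `ω`.
`EDer_exists`: `der_exists ℚ ((Fin d × V) ⊕ V)`, the derivation of `Sum.inr w` kills `ga ℚ d V j v` and sends `gl ℚ d V v` to `1` if `v = w`, else `0`. CAREFUL: `Algebra ℚ (KK ℚ d V)` is found as `DivisionRing.toRatAlgebra`, `der_exists` has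
`OreLocalization.instAlgebra`: they are equal only propositionally; so prove a general lemma for a field `K` with two structures `i₁ i₂ : Algebra ℚ K` (`obtain rfl : i₁ = i₂ := Subsingleton.elim _ _`). `dc_exists` gives `E w`.
`eX`: from `c`, `E w (X v)` has all coefficients `e w 1` or `e w 0`, zero. `eom`: Leibniz, `E w (C x) = C (e w x)`. `eproj`: `tr_coeff_proj`. `emon`: `mem_mon_iff`.
`eTh`: `i = 0` trivial; `i + 1`: `Submodule.iSup_induction` (additivity), `E (proj (th j * w)) = proj (E (th j * w)) = proj (th j * E w)`, `E w (th a j) = 0`.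
-/

namespace Pool.Agent.LibHB64

open MvPolynomial Module

variable {V : Type*} [Fintype V] [DecidableEq V] {K : Type*} [Field K] [Algebra ℚ K] {d : ℕ}
  {D B : Finset (Finset V)}

/-- `E w` is the coefficientwise `∂/∂λ_w` -/
structure EDer (a : Fin d → V → K) (l : V → K) (e : V → Derivation ℚ K K)
    (E : V → Derivation ℚ (MvPolynomial V K) (MvPolynomial V K)) : Prop where
  a : ∀ w j v, e w (a j v) = 0
  l : ∀ w v, e w (l v) = if w = v then 1 else 0
  c : ∀ w p b, coeff b (E w p) = e w (coeff b p)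

private theorem IN1_tr {K : Type*} [Field K] (i₁ i₂ : Algebra ℚ K) {s : Type*} (P : (s → K → K) → Prop)
    (h : ∃ E : s → @Derivation ℚ K K _ _ _ i₁ _ (@Algebra.toModule _ _ _ _ i₁),
      P fun i x => @Derivation.toLinearMap ℚ K K _ _ _ i₁ _ (@Algebra.toModule _ _ _ _ i₁) (E i) x) :
    ∃ E : s → @Derivation ℚ K K _ _ _ i₂ _ (@Algebra.toModule _ _ _ _ i₂),
      P fun i x => @Derivation.toLinearMap ℚ K K _ _ _ i₂ _ (@Algebra.toModule _ _ _ _ i₂) (E i) x := by
  obtain rfl : i₁ = i₂ := Subsingleton.elim _ _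
  exact h

private theorem IN1_ex {K : Type*} [Field K] [Algebra ℚ K] {d : ℕ} {V : Type*} [Fintype V] [DecidableEq V]
    (a : Fin d → V → K) (l : V → K) (e : V → Derivation ℚ K K) (ha : ∀ w j v, e w (a j v) = 0)
    (hl : ∀ w v, e w (l v) = if w = v then 1 else 0) : ∃ e E, EDer a l e E := by
  choose E hE using fun w => dc_exists (V := V) (e w)
  exact ⟨e, E, ha, hl, hE⟩

theorem EDer_exists (d : ℕ) (V : Type*) [Fintype V] [DecidableEq V] :
    ∃ e E, EDer (ga ℚ d V) (gl ℚ d V) e E := by
  obtain ⟨e, he⟩ := IN1_tr _ _ (fun f : (Fin d × V) ⊕ V → KK ℚ d V → KK ℚ d V => ∀ i j,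
    f i (algebraMap (MvPolynomial ((Fin d × V) ⊕ V) ℚ) (KK ℚ d V) (X j)) = if i = j then 1 else 0)
    (der_exists ℚ ((Fin d × V) ⊕ V))
  refine IN1_ex (ga ℚ d V) (gl ℚ d V) (fun w => e (Sum.inr w)) (fun w j v => ?_) (fun w v => ?_)
  · exact (he (Sum.inr w) (Sum.inl (j, v))).trans (if_neg (by simp))
  · refine (he (Sum.inr w) (Sum.inr v)).trans ?_
    simp

variable {a : Fin d → V → K} {l : V → K} {e : V → Derivation ℚ K K}
  {E : V → Derivation ℚ (MvPolynomial V K) (MvPolynomial V K)}

theorem EDer.eX (h : EDer a l e E) (w v : V) : E w (X v) = 0 := by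
  ext b
  rw [h.c, coeff_X', coeff_zero]
  split
  · exact (e w).map_one_eq_zero
  · exact map_zero _

private theorem IN1_C (h : EDer a l e E) (w : V) (x : K) : E w (C x) = C (e w x) := by
  ext b
  rw [h.c, coeff_C, coeff_C]
  split
  · rfl
  · exact map_zero _

theorem EDer.eom (h : EDer a l e E) (w : V) : E w (om l) = X w := by
  rw [om, map_sum, Finset.sum_congr rfl fun v _ => show E w (C (l v) * X v) = if w = v then X v else 0 by
    rw [Derivation.leibniz, h.eX, IN1_C h, h.l, smul_zero, zero_add, smul_eq_mul]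
    split
    · rw [map_one, mul_one]
    · rw [map_zero, mul_zero]]
  rw [Finset.sum_ite_eq, if_pos (Finset.mem_univ _)]

theorem EDer.eth (h : EDer a l e E) (w : V) (j : Fin d) : E w (th a j) = 0 := by
  rw [th, map_sum]
  refine Finset.sum_eq_zero fun v _ => ?_
  rw [Derivation.leibniz, h.eX, IN1_C h, h.a, smul_zero, zero_add, map_zero, smul_zero]

theorem EDer.eproj (h : EDer a l e E) (w : V) (Y : Finset (Finset V)) (p : MvPolynomial V K) :
    E w (proj K Y p) = proj K Y (E w p) := by
  ext b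
  rw [h.c, tr_coeff_proj, tr_coeff_proj, h.c]
  split
  · rfl
  · exact map_zero _

theorem EDer.eHH (h : EDer a l e E) (w : V) {i : ℕ} {p : MvPolynomial V K} (hp : p ∈ HH K V i) :
    E w p ∈ HH K V i := by
  rw [mem_homogeneousSubmodule] at hp ⊢
  intro b hb
  refine hp fun h0 => hb ?_
  rw [h.c, h0, map_zero]

theorem EDer.emon (h : EDer a l e E) (w : V) {Y : Finset (Finset V)} {i : ℕ} {p : MvPolynomial V K}
    (hp : p ∈ mon K Y i) : E w p ∈ mon K Y i := by
  rw [mem_mon_iff] at hp ⊢
  intro b hb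
  refine hp b fun h0 => hb ?_
  rw [h.c, h0, map_zero]

theorem EDer.eTh (h : EDer a l e E) (w : V) {Y : Finset (Finset V)} {i : ℕ} {p : MvPolynomial V K}
    (hp : p ∈ Th D Y a i) : E w p ∈ Th D Y a i := by
  cases i with
  | zero =>
    have h0 : p = 0 := hp
    rw [h0, map_zero]
    exact Submodule.zero_mem _
  | succ i =>
    refine Submodule.iSup_induction (fun j : Fin d => (mon K Y i).map (mulD D (th a j)))
      (motive := fun q => E w q ∈ Th D Y a (i + 1)) hp ?_ ?_ ?_
    · rintro j _ ⟨q, hq, rfl⟩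
      have h1 : E w (mulD D (th a j) q) = mulD D (th a j) (E w q) := by
        show E w (proj K D (th a j * q)) = proj K D (th a j * E w q)
        rw [h.eproj, Derivation.leibniz, h.eth, smul_zero, add_zero, smul_eq_mul]
      rw [h1]
      exact Submodule.mem_iSup_of_mem j (Submodule.mem_map_of_mem (h.emon w hq))
    · rw [map_zero]
      exact Submodule.zero_mem _
    · intro x y hx hy
      rw [map_add]
      exact Submodule.add_mem _ hx hy

theorem EDer.ePB (h : EDer a l e E) (w : V) {i : ℕ} {T : Submodule K (MvPolynomial V K)}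
    (hT : ∀ p ∈ T, E w p ∈ T) {p : MvPolynomial V K} (hp : p ∈ PB D i T) : E w p ∈ PB D i T := by
  refine ⟨h.eHH w hp.1, ?_⟩
  rw [Submodule.comap_coe, Set.mem_preimage, ← h.eproj]
  exact hT _ hp.2

end Pool.Agent.LibHB64
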