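import Pool.Agent.LibHB64.TR5

set_option autoImplicit false

/-!
[HB64 TR6] MEDIUM. Cites IfTR, TR0-TR5. The Lefschetz property over `ℚ(a, λ)`. `m = d / 2`, `n = m - i`, `I_i = mon (D \ B) i`, `T_i = Th D D a i`, `S_i = Th D (D \ B) a i ≤ T_i` (`Th_mono`), `μ = mulD D (om l ^ n)`.
`two_rank`: over `ZMod 2`: `μ` maps `S_i` into `T_m` (`Th_mulD` and `Th_mono`) and `AN_main` says that `{w ∈ I_i | μ w ∈ T_m} = S_i`; so `finrank (μ I_i ⊔ T_m) = finrank T_m + finrank I_i - finrank S_i = finrank T_m + hnum d (D \ B) i`.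
`Q_rank`: `semicont` for the models of `μ I_i` and `T_m` (`om_model`, `Th_model`, `model_sup`), and `finrank T_m` is the same over both fields (`two_dim`, `Q_dim`).
`Q_inj`: over `ℚ`: `finrank (μ I_i ⊔ T_m) ≤ finrank T_m + finrank I_i - finrank {w ∈ I_i | μ w ∈ T_m}`, so `finrank {w ∈ I_i | μ w ∈ T_m} ≤ finrank I_i - hnum d (D \ B) i = finrank S_i`; and `S_i` is contained in it: equality.
`TR_main`: first part: `Q_dim` for `X = D`. Third part: `w = t + w'`, `t ∈ T_i`, `w' ∈ I_i`: `μ t ∈ T_m`, so `μ w' ∈ T_m`, `w' ∈ S_i ≤ T_i`. Second part: `I_i ⊓ T_i = S_i` (if `w ∈ I_i ⊓ T_i` then `μ w ∈ T_m`), so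
`finrank (T_i ⊔ I_i) = finrank T_i + finrank I_i - finrank S_i = finrank T_i + hnum d (D \ B) i`, and `CM_DS`.
-/

namespace Pool.Agent.LibHB64

open MvPolynomial Module

variable {V : Type} [Fintype V] [DecidableEq V] {d : ℕ} {D B : Finset (Finset V)}

private theorem TR6_map {K M : Type*} [Field K] [AddCommGroup M] [Module K M] (f : M →ₗ[K] M) (I : Submodule K M)
    [FiniteDimensional K I] :
    finrank K ↥(I.map f) + finrank K ↥(I ⊓ LinearMap.ker f) = finrank K I := by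
  have h1 := LinearMap.finrank_range_add_finrank_ker (f.domRestrict I)
  rw [LinearMap.range_domRestrict] at h1
  have h2 : finrank K ↥(I ⊓ LinearMap.ker f) = finrank K (LinearMap.ker (f.domRestrict I)) := by
    rw [← Submodule.finrank_map_subtype_eq I (LinearMap.ker (f.domRestrict I))]
    have h3 : I ⊓ LinearMap.ker f = Submodule.map I.subtype (LinearMap.ker (f.domRestrict I)) := ?_
    · rw [h3]
    ext x
    constructor
    · rintro ⟨hx, hk⟩
      exact ⟨⟨x, hx⟩, hk, rfl⟩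
    · rintro ⟨⟨y, hy⟩, hk, rfl⟩
      exact ⟨hy, hk⟩
  rw [h2]
  exact h1

private theorem TR6_sup {K M : Type*} [Field K] [AddCommGroup M] [Module K M] (f : M →ₗ[K] M) (I T : Submodule K M)
    [FiniteDimensional K I] [FiniteDimensional K T] :
    finrank K ↥(I.map f ⊔ T) + finrank K ↥(I ⊓ T.comap f) = finrank K T + finrank K I := by
  have h1 := Submodule.finrank_sup_add_finrank_inf_eq (I.map f) T
  have h2 := TR6_map f I
  have : FiniteDimensional K ↥(I ⊓ T.comap f) := Submodule.finiteDimensional_of_le (inf_le_left : _ ≤ I)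
  have h3 := TR6_map f (I ⊓ T.comap f)
  have h4 : (I ⊓ T.comap f).map f = I.map f ⊓ T := by
    ext x
    constructor
    · rintro ⟨y, ⟨hy, hT⟩, rfl⟩
      exact ⟨⟨y, hy, rfl⟩, hT⟩
    · rintro ⟨⟨y, hy, rfl⟩, hT⟩
      exact ⟨y, ⟨hy, hT⟩, rfl⟩
  have h5 : (I ⊓ T.comap f) ⊓ LinearMap.ker f = I ⊓ LinearMap.ker f := by
    ext x
    constructor
    · rintro ⟨⟨hy, _⟩, hk⟩
      exact ⟨hy, hk⟩
    · rintro ⟨hy, hk⟩
      refine ⟨⟨hy, ?_⟩, hk⟩
      show f x ∈ T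
      rw [LinearMap.mem_ker.1 hk]
      exact T.zero_mem
  rw [h4, h5] at h3
  omega

private theorem TR6_finT {K : Type} [Field K] (D X : Finset (Finset V)) (hX : UpIn D X) (a : Fin d → V → K) (i : ℕ) :
    FiniteDimensional K (Th D X a i) := by
  have := tr_mon_fin (K := K) X i
  exact Submodule.finiteDimensional_of_le (Th_le hX a i)

private theorem TR6_hom {K : Type} [Field K] (l : V → K) (n : ℕ) : (om l ^ n).IsHomogeneous n := by
  have h := (om_hom l).pow n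
  rwa [one_mul] at h

private theorem TR6_sub {K : Type} [Field K] (h : HBallB d D B) (a : Fin d → V → K) (l : V → K) (i : ℕ)
    (hi : i ≤ d / 2) :
    Th D (D \ B) a i ≤ mon K (D \ B) i ⊓ (Th D D a (d / 2)).comap (mulD D (om l ^ (d / 2 - i))) := by
  intro w hw
  refine ⟨Th_le (up_X h _ (Or.inr rfl)) a i hw, ?_⟩
  show mulD D (om l ^ (d / 2 - i)) w ∈ Th D D a (d / 2)
  have h1 := Th_mulD h.cx (up_X h _ (Or.inr rfl)) a (TR6_hom l (d / 2 - i)) hw
  rw [Nat.sub_add_cancel hi] at h1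
  exact Th_mono D Finset.sdiff_subset a _ h1

theorem two_rank (h : HBallB d D B) (i : ℕ) (hi : i ≤ d / 2) :
    (finrank (KK (ZMod 2) d V) ↥((mon (KK (ZMod 2) d V) (D \ B) i).map (mulD D (om (gl (ZMod 2) d V) ^ (d / 2 - i))) ⊔
      Th D D (ga (ZMod 2) d V) (d / 2)) : ℤ) =
      finrank (KK (ZMod 2) d V) (Th D D (ga (ZMod 2) d V) (d / 2)) + hnum d (D \ B) i := by
  have hfT := TR6_finT D D (up_X h _ (Or.inl rfl)) (ga (ZMod 2) d V) (d / 2)
  have hfI := tr_mon_fin (K := KK (ZMod 2) d V) (D \ B) i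
  have h1 := TR6_sup (mulD D (om (gl (ZMod 2) d V) ^ (d / 2 - i))) (mon (KK (ZMod 2) d V) (D \ B) i)
    (Th D D (ga (ZMod 2) d V) (d / 2))
  have h2 : mon (KK (ZMod 2) d V) (D \ B) i ⊓
      (Th D D (ga (ZMod 2) d V) (d / 2)).comap (mulD D (om (gl (ZMod 2) d V) ^ (d / 2 - i))) =
      Th D (D \ B) (ga (ZMod 2) d V) i :=
    le_antisymm (fun w hw => AN_main h i hi w hw.1 hw.2) (TR6_sub h _ _ i hi)
  rw [h2, mon_finrank] at h1
  have h3 := two_dim h (D \ B) (Or.inr rfl) i (by omega)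
  omega

theorem Q_rank (h : HBallB d D B) (i : ℕ) (hi : i ≤ d / 2) :
    (finrank (KK ℚ d V) (Th D D (ga ℚ d V) (d / 2)) : ℤ) + hnum d (D \ B) i ≤
      finrank (KK ℚ d V) ↥((mon (KK ℚ d V) (D \ B) i).map (mulD D (om (gl ℚ d V) ^ (d / 2 - i))) ⊔
        Th D D (ga ℚ d V) (d / 2)) := by
  obtain ⟨J₁, hJ₁, u₁, hu₁⟩ := om_model D (D \ B) d (d / 2 - i) i
  obtain ⟨J₂, hJ₂, u₂, hu₂⟩ := Th_model D D d (d / 2)
  have h1 := two_rank h i hi
  have h2 := two_dim h D (Or.inl rfl) (d / 2) (by omega)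
  have h3 := Q_dim h D (Or.inl rfl) (d / 2) (by omega)
  have h4 := semicont (Sum.elim u₁ u₂)
  rw [← model_sup, ← model_sup, ← hu₁ (ZMod 2), ← hu₁ ℚ, ← hu₂ (ZMod 2), ← hu₂ ℚ] at h4
  omega

theorem Q_inj (h : HBallB d D B) (i : ℕ) (hi : i ≤ d / 2) (w : MvPolynomial V (KK ℚ d V))
    (hw : w ∈ mon (KK ℚ d V) (D \ B) i)
    (h0 : mulD D (om (gl ℚ d V) ^ (d / 2 - i)) w ∈ Th D D (ga ℚ d V) (d / 2)) : w ∈ Th D (D \ B) (ga ℚ d V) i := by
  have hfT := TR6_finT D D (up_X h _ (Or.inl rfl)) (ga ℚ d V) (d / 2)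
  have hfI := tr_mon_fin (K := KK ℚ d V) (D \ B) i
  have h1 := TR6_sup (mulD D (om (gl ℚ d V) ^ (d / 2 - i))) (mon (KK ℚ d V) (D \ B) i)
    (Th D D (ga ℚ d V) (d / 2))
  have h2 := TR6_sub h (ga ℚ d V) (gl ℚ d V) i hi
  have hfN : FiniteDimensional (KK ℚ d V) ↥(mon (KK ℚ d V) (D \ B) i ⊓
      (Th D D (ga ℚ d V) (d / 2)).comap (mulD D (om (gl ℚ d V) ^ (d / 2 - i)))) :=
    Submodule.finiteDimensional_of_le (inf_le_left : _ ≤ mon (KK ℚ d V) (D \ B) i)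
  have h3 := Q_rank h i hi
  have h4 := Q_dim h (D \ B) (Or.inr rfl) i (by omega)
  rw [mon_finrank] at h1
  have h5 := Submodule.eq_of_le_of_finrank_le h2 (by omega)
  rw [h5]
  exact ⟨hw, h0⟩

theorem TR_main (h : HBallB d D B) (i : ℕ) (hi : i ≤ d / 2) :
    (finrank (KK ℚ d V) (mon (KK ℚ d V) D i) : ℤ) = finrank (KK ℚ d V) (Th D D (ga ℚ d V) i) + hnum d D i ∧
      (finrank (KK ℚ d V) ↥(Th D D (ga ℚ d V) i ⊔ mon (KK ℚ d V) (D \ B) i) : ℤ) =
        finrank (KK ℚ d V) (Th D D (ga ℚ d V) i) + hnum d D (d - i) ∧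
      ∀ w ∈ Th D D (ga ℚ d V) i ⊔ mon (KK ℚ d V) (D \ B) i,
        mulD D (om (gl ℚ d V) ^ (d / 2 - i)) w ∈ Th D D (ga ℚ d V) (d / 2) → w ∈ Th D D (ga ℚ d V) i := by
  have hUD := up_X h D (Or.inl rfl)
  have hUI := up_X h (D \ B) (Or.inr rfl)
  have hmu : ∀ w ∈ Th D D (ga ℚ d V) i,
      mulD D (om (gl ℚ d V) ^ (d / 2 - i)) w ∈ Th D D (ga ℚ d V) (d / 2) := by
    intro w hw
    have h1 := Th_mulD h.cx hUD (ga ℚ d V) (TR6_hom (gl ℚ d V) (d / 2 - i)) hw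
    rwa [Nat.sub_add_cancel hi] at h1
  refine ⟨?_, ?_, ?_⟩
  · rw [mon_finrank]
    exact Q_dim h D (Or.inl rfl) i (by omega)
  · have hfT := TR6_finT D D hUD (ga ℚ d V) i
    have hfI := tr_mon_fin (K := KK ℚ d V) (D \ B) i
    have h1 := Submodule.finrank_sup_add_finrank_inf_eq (Th D D (ga ℚ d V) i) (mon (KK ℚ d V) (D \ B) i)
    have h2 : Th D D (ga ℚ d V) i ⊓ mon (KK ℚ d V) (D \ B) i = Th D (D \ B) (ga ℚ d V) i :=
      le_antisymm (fun w hw => Q_inj h i hi w hw.2 (hmu w hw.1))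
        (fun w hw => ⟨Th_mono D Finset.sdiff_subset _ _ hw, Th_le hUI _ _ hw⟩)
    rw [h2, mon_finrank] at h1
    have h3 := Q_dim h (D \ B) (Or.inr rfl) i (by omega)
    rw [CM_DS h (by omega)] at h3
    omega
  · intro w hw hw2
    obtain ⟨t, ht, w', hw', rfl⟩ := Submodule.mem_sup.1 hw
    rw [map_add] at hw2
    have h1 : mulD D (om (gl ℚ d V) ^ (d / 2 - i)) w' ∈ Th D D (ga ℚ d V) (d / 2) := by
      have h2 := Submodule.sub_mem _ hw2 (hmu t ht)
      rwa [add_sub_cancel_left] at h2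
    exact Submodule.add_mem _ ht (Th_mono D Finset.sdiff_subset _ _ (Q_inj h i hi w' hw' h1))

end Pool.Agent.LibHB64
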