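import Pool.Agent.LibHB64.IN0
import Pool.Agent.LibHB64.IN1
import Pool.Agent.LibHB64.AR6
import Pool.Agent.LibHB64.TR6

set_option autoImplicit false

/-!
[HB64 IN2] MEDIUM. Cites AR6, TR6, IN0, IN1 (and MAF, TR5: `up_X`). Assembly of the necessary condition. `m = d / 2`, `N = Nf d D`, `G = Gf d D B`, `K = KK ℚ d V`.
`Nf_dim`, `Gf_dim`: `PB_dim` and `TR_main` (`Th ≤ mon D`, `Th ⊔ mon (D \ B) ≤ mon D`: `Th_le`, `tr_mon_mono`): `finrank HH i = finrank N_i + hnum d D i`, `finrank G_i = finrank N_i + hnum d D (d - i)` for `i ≤ d / 2`.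
`ard`: if `hnum d D (d / 2) ≠ 0` then `ARD N G (gl ℚ d V) E (d / 2)` for the `E` of `EDer_exists`.
`cond_all`: `zero`: `hnum d D 0 = fnum D 0 = 1` (or `Nf_dim` at `0`: `finrank HH 0 = 1`, `Nf_zero`). `last`: `Gf_dim` at `i = 0` with `Gf_zero`, `Nf_zero`. `mh`: `MAC_fam` for `N`. `mr`: `MAC_fam` for `G` (degrees `≤ (d-1)/2 ≤ m`;
`finrank HH i - finrank G_i = h i - h (d - i)` in `ℕ`, `le`). `le`: `G_i ≤ HH`. `mono`: multiplication by `om` is injective from `G_i / N_i` to `G_(i+1) / N_(i+1)` (`Nf_inj`; if `h m ≠ 0` this is `ARD.g_mono`; if `h m = 0` then `N m = HH m`, so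
`Nf_inj` gives `G_i = N_i` and `h (d - i) = 0` for all `i ≤ m`). `mc`: if `h m ≠ 0`: `c i = cc N l m i`: `cc_zero`, `cc_last`, `g_le`, `cc_mono`, `gamma_M`, `t_M` (`IsM` only depends on the values in degrees `≤ m` and passes to smaller `m`).
-/

namespace Pool.Agent.LibHB64

open MvPolynomial Module

variable {V : Type} [Fintype V] [DecidableEq V] {d : ℕ} {D B : Finset (Finset V)}

private theorem in2_emptyD (h : HBallB d D B) : ∅ ∈ D := h.cx.1

private theorem in2_emptyB (h : HBallB d D B) : ∅ ∈ B := h.sph.1.1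

private theorem in2_upD (h : HBallB d D B) : UpIn D D := up_X h D (Or.inl rfl)

private theorem in2_upI (h : HBallB d D B) : UpIn D (D \ B) := up_X h (D \ B) (Or.inr rfl)

private theorem in2_le1 (h : HBallB d D B) (i : ℕ) :
    Th D D (ga ℚ d V) i ≤ mon (KK ℚ d V) D i := Th_le (in2_upD h) _ _

private theorem in2_le2 (h : HBallB d D B) (i : ℕ) :
    Th D D (ga ℚ d V) i ⊔ mon (KK ℚ d V) (D \ B) i ≤ mon (KK ℚ d V) D i :=
  sup_le (in2_le1 h i) (tr_mon_mono (in2_upI h).1 i)

theorem Nf_dim (h : HBallB d D B) (i : ℕ) (hi : i ≤ d / 2) :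
    (finrank (KK ℚ d V) (HH (KK ℚ d V) V i) : ℤ) = finrank (KK ℚ d V) (Nf d D i) + hnum d D i := by
  have h1 := PB_dim (in2_le1 h i)
  have h2 := (TR_main h i hi).1
  have h3 : (finrank (KK ℚ d V) (Nf d D i) : ℤ) + finrank (KK ℚ d V) (mon (KK ℚ d V) D i) =
      finrank (KK ℚ d V) (Th D D (ga ℚ d V) i) + finrank (KK ℚ d V) (HH (KK ℚ d V) V i) := by
    exact_mod_cast h1
  linarith

theorem Gf_dim (h : HBallB d D B) (i : ℕ) (hi : i ≤ d / 2) :
    (finrank (KK ℚ d V) (Gf d D B i) : ℤ) = finrank (KK ℚ d V) (Nf d D i) + hnum d D (d - i) := by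
  have h1 := PB_dim (in2_le2 h i)
  have h2 := (TR_main h i hi).2.1
  have h4 := (TR_main h i hi).1
  have h5 := Nf_dim h i hi
  have h3 : (finrank (KK ℚ d V) (Gf d D B i) : ℤ) + finrank (KK ℚ d V) (mon (KK ℚ d V) D i) =
      finrank (KK ℚ d V) ↥(Th D D (ga ℚ d V) i ⊔ mon (KK ℚ d V) (D \ B) i) +
        finrank (KK ℚ d V) (HH (KK ℚ d V) V i) := by
    exact_mod_cast h1
  linarith

theorem ard (h : HBallB d D B) (h0 : hnum d D (d / 2) ≠ 0) :
    ∃ E, ARD (Nf d D) (Gf d D B) (gl ℚ d V) E (d / 2) := by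
  obtain ⟨e, E, hE⟩ := EDer_exists d V
  refine ⟨E, ?_⟩
  refine ⟨?_, ?_, ?_, ?_, ?_, ?_, ?_, ?_, ?_, ?_, ?_, ?_⟩
  · intro i
    exact PB_mono le_sup_left
  · intro i
    exact inf_le_left
  · intro i v p hp
    exact Nf_X h.cx i v p hp
  · intro i v p hp
    exact Gf_X h.cx (in2_upI h) i v p hp
  · intro i v p hp
    exact hE.ePB v (fun q hq => hE.eTh v hq) hp
  · intro i v p hp
    refine hE.ePB v (fun q hq => ?_) hp
    obtain ⟨a, ha, b, hb, rfl⟩ := Submodule.mem_sup.1 hq
    rw [map_add]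
    exact Submodule.add_mem_sup (hE.eTh v ha) (hE.emon v hb)
  · intro i v p hp
    exact hE.eHH v hp
  · intro v w
    exact hE.eX v w
  · intro v
    exact hE.eom v
  · intro i hi g hg hg'
    exact Nf_inj h.cx hi (TR_main h i hi).2.2 g hg hg'
  · exact Gf_zero (in2_emptyD h) (in2_emptyB h)
  · intro hN
    have h1 := Nf_dim h (d / 2) le_rfl
    rw [hN] at h1
    exact h0 (by linarith)

private theorem in2_IsM_congr {m m' : ℕ} {s t : ℕ → ℕ} (hm : m' ≤ m) (hst : ∀ i, i ≤ m' → s i = t i)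
    (h : IsM m s) : IsM m' t := by
  obtain ⟨n, M, h1, h2, h3⟩ := h
  exact ⟨n, M, h1, h2, fun i hi => by rw [h3 i (hi.trans hm), hst i hi]⟩

theorem cond_all {hv : ℕ → ℕ} (h : HBall d D) (hh : ∀ i, i ≤ d → (hv i : ℤ) = hnum d D i) : CondAll d hv := by
  obtain ⟨B, hB⟩ := h
  have hd : 1 ≤ d := hB.pos
  have hN : ∀ i, i ≤ d / 2 → finrank (KK ℚ d V) (HH (KK ℚ d V) V i) =
      finrank (KK ℚ d V) (Nf d D i) + hv i := by
    intro i hi
    have h1 := Nf_dim hB i hi
    rw [← hh i (by omega)] at h1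
    exact_mod_cast h1
  have hG : ∀ i, i ≤ d / 2 → finrank (KK ℚ d V) (Gf d D B i) =
      finrank (KK ℚ d V) (Nf d D i) + hv (d - i) := by
    intro i hi
    have h1 := Gf_dim hB i hi
    rw [← hh (d - i) (by omega)] at h1
    exact_mod_cast h1
  have hfin : ∀ i, FiniteDimensional (KK ℚ d V) (HH (KK ℚ d V) V i) := fun i => HH_fin i
  have hle : ∀ i, i ≤ d / 2 → hv (d - i) ≤ hv i := by
    intro i hi
    have h1 : finrank (KK ℚ d V) (Gf d D B i) ≤ finrank (KK ℚ d V) (HH (KK ℚ d V) V i) := by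
      have := hfin i
      exact Submodule.finrank_mono inf_le_left
    rw [hN i hi, hG i hi] at h1
    omega
  have hz : hv 0 = 1 := by
    have h1 := hh 0 (Nat.zero_le _)
    have h2 : fnum D 0 = 1 := by
      have h3 : (D.filter fun s => s.card = 0) = {∅} := by
        ext s
        simp only [Finset.mem_filter, Finset.mem_singleton, Finset.card_eq_zero]
        constructor
        · exact fun hs => hs.2
        · rintro rfl
          exact ⟨hB.cx.1, rfl⟩
      rw [fnum, h3, Finset.card_singleton]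
    rw [hnum, Finset.sum_range_one, h2] at h1
    simpa using h1
  have hl : hv d = 0 := by
    have h1 := hG 0 (Nat.zero_le _)
    rw [Gf_zero (in2_emptyD hB) (in2_emptyB hB), finrank_bot] at h1
    have h2 : d - 0 = d := Nat.sub_zero d
    rw [h2] at h1
    omega
  have hcase : hv (d / 2) ≠ 0 → ∃ E, ARD (Nf d D) (Gf d D B) (gl ℚ d V) E (d / 2) := by
    intro h0
    refine ard hB ?_
    rw [← hh (d / 2) (by omega)]
    exact_mod_cast h0
  refine ⟨hz, hl, ?_, ?_, hle, ?_, ?_⟩
  · have h1 := MAC_fam (N := Nf d D) (m := d / 2) (fun i _ => inf_le_left)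
      (fun i _ v p hp => Nf_X hB.cx i v p hp) (Nf_zero (in2_emptyD hB))
    refine in2_IsM_congr le_rfl ?_ h1
    intro i hi
    rw [hN i hi]
    omega
  · intro i hi
    by_cases h0 : hv (d / 2) = 0
    · have h1 : Nf d D (d / 2) = HH (KK ℚ d V) V (d / 2) := by
        have := hfin (d / 2)
        refine Submodule.eq_of_le_of_finrank_eq inf_le_left ?_
        rw [hN _ le_rfl, h0, add_zero]
      have h2 : Gf d D B i ≤ Nf d D i := by
        intro g hg
        refine Nf_inj hB.cx (by omega : i ≤ d / 2) (TR_main hB i (by omega)).2.2 g hg ?_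
        rw [h1]
        have h3 := HH_mul (om_pow_mem (gl ℚ d V) (d / 2 - i)) hg.1
        have h4 : d / 2 - i + i = d / 2 := by omega
        rwa [h4] at h3
      have h3 : finrank (KK ℚ d V) (Gf d D B i) ≤ finrank (KK ℚ d V) (Nf d D i) := by
        have : FiniteDimensional (KK ℚ d V) (Nf d D i) := by
          have := hfin i
          exact Submodule.finiteDimensional_of_le (inf_le_left : Nf d D i ≤ HH (KK ℚ d V) V i)
        exact Submodule.finrank_mono h2
      rw [hG i (by omega)] at h3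
      have h4 : hv (d - i) = 0 := by omega
      rw [h4]
      exact Nat.zero_le _
    · obtain ⟨E, hE⟩ := hcase h0
      have h1 := hE.g_mono (i := i) (by omega)
      rw [hG i (by omega), hG (i + 1) hi] at h1
      omega
  · have h1 := MAC_fam (N := Gf d D B) (m := (d - 1) / 2) (fun i _ => inf_le_left)
      (fun i _ v p hp => Gf_X hB.cx (in2_upI hB) i v p hp)
      (Gf_zero (in2_emptyD hB) (in2_emptyB hB))
    refine in2_IsM_congr le_rfl ?_ h1
    intro i hi
    rw [hN i (by omega), hG i (by omega)]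
    omega
  · by_cases h0 : hv (d / 2) = 0
    · exact Or.inl h0
    · refine Or.inr ?_
      obtain ⟨E, hE⟩ := hcase h0
      refine ⟨cc (Nf d D) (gl ℚ d V) (d / 2), hE.cc_zero, ?_, ?_, ?_, hE.gamma_M, ?_⟩
      · rw [hE.cc_last, hN _ le_rfl]
        omega
      · intro i hi
        have h1 := hE.g_le hi
        rw [hN i hi, hG i hi] at h1
        omega
      · intro i hi
        exact hE.cc_mono (by omega)
      · refine in2_IsM_congr (by omega : (d - 1) / 2 ≤ d / 2) ?_ hE.t_M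
        intro i hi
        rw [hG i (by omega)]
        congr 1
        omega

end Pool.Agent.LibHB64
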