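import Pool.Agent.LibHB64.ARDefs

set_option autoImplicit false

/-!
The families of subspaces to which the arithmetic block is applied.
-/

namespace Pool.Agent.LibHB64

open MvPolynomial Module

variable {V : Type*} [Fintype V] [DecidableEq V]

/-- the homogeneous polynomials of degree `i` whose image in the face ring of `D` is in `T` -/
noncomputable def PB {K : Type*} [Field K] (D : Finset (Finset V)) (i : ℕ) (T : Submodule K (MvPolynomial V K)) :
    Submodule K (MvPolynomial V K) := HH K V i ⊓ T.comap (proj K D)

/-- the ideal generated by the nonfaces and the forms `θ` -/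
noncomputable def Nf (d : ℕ) (D : Finset (Finset V)) (i : ℕ) : Submodule (KK ℚ d V) (MvPolynomial V (KK ℚ d V)) :=
  PB D i (Th D D (ga ℚ d V) i)

/-- the ideal generated by the nonfaces, the forms `θ` and the interior faces -/
noncomputable def Gf (d : ℕ) (D B : Finset (Finset V)) (i : ℕ) : Submodule (KK ℚ d V) (MvPolynomial V (KK ℚ d V)) :=
  PB D i (Th D D (ga ℚ d V) i ⊔ mon (KK ℚ d V) (D \ B) i)

end Pool.Agent.LibHB64
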