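import Pool.Agent.LibHB64.CMMain
import Pool.Agent.LibHB64.GEN
import Pool.Agent.LibHB64.AN17

set_option autoImplicit false

/-!
The statement proved in the block AN, cited in TR5, TR6.
-/

namespace Pool.Agent.LibHB64

open MvPolynomial Module

variable {V : Type} [Fintype V] [DecidableEq V] {d : ℕ} {D B : Finset (Finset V)}

/-- block AN -/
theorem AN_main (h : HBallB d D B) (i : ℕ) (hi : i ≤ d / 2) (w : MvPolynomial V (KK (ZMod 2) d V))
    (hw : w ∈ mon (KK (ZMod 2) d V) (D \ B) i)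
    (h0 : mulD D (om (gl (ZMod 2) d V) ^ (d / 2 - i)) w ∈ Th D D (ga (ZMod 2) d V) (d / 2)) :
    w ∈ Th D (D \ B) (ga (ZMod 2) d V) i :=
  AN_main_pf h i hi w hw h0

end Pool.Agent.LibHB64
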