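import Pool.Agent.LibHB64.TRDefs

set_option autoImplicit false

/-!
[HB64 TR0] MEDIUM. ONLY TRDefs. Semicontinuity of the rank: `R = ℤ[a, λ]`, `ph ℚ`, `ph (ZMod 2)`.
`ph_Q_inj`: `ph ℚ` is injective. `ph_2_ker`: `ph (ZMod 2) r = 0` iff `2 ∣ r` (coefficientwise: `MvPolynomial.map` with `Int.castRingHom (ZMod 2)`; `C_dvd_iff_dvd_coeff` or by hand).
`semicont`: choose a subset `J'` of `J` such that the vectors `map (ph 2) (u j)`, `j ∈ J'`, are a basis of their span (`exists_linearIndependent'` or similar; `J` finite). Claim: `map (ph ℚ) (u j)`, `j ∈ J'`, are linearly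
independent over `KK ℚ`: a relation `∑ c_j map (ph ℚ) (u j) = 0` with some `c_j ≠ 0`; every element of `KK ℚ` is a quotient of elements of the image of `ph ℚ` (denominators of rational coefficients can be cleared), so multiply by a common
denominator: `c_j = ph ℚ (b_j)`, `b_j ∈ R` not all zero, and `∑ b_j u_j = 0` in `MvPolynomial V R` (`map` of an injective map is injective). If all `b_j` are divisible by 2, divide the relation by 2 (`R` and `MvPolynomial V R` are
domains of characteristic 0); this stops (descent on the sum of the `natAbs` of all coefficients of all `b_j`, or: some coefficient of some `b_j` is a nonzero integer, divisible by `2^n` for only finitely many `n`).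
So some `b_j` is not divisible by 2, and `∑ ph 2 (b_j) map (ph 2) (u_j) = 0` contradicts the independence mod 2.
-/

namespace Pool.Agent.LibHB64

open MvPolynomial Module

variable {V : Type*} {d : ℕ}

theorem ph_Q_inj (V : Type*) (d : ℕ) : Function.Injective (ph ℚ d V) := by
  unfold ph
  rw [RingHom.coe_comp]
  exact (IsFractionRing.injective (MvPolynomial ((Fin d × V) ⊕ V) ℚ) (KK ℚ d V)).comp
    (MvPolynomial.map_injective _ (RingHom.injective_int _))

theorem ph_2_ker (r : RZ d V) : ph (ZMod 2) d V r = 0 ↔ ∃ s, r = 2 * s := by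
  have h1 : ph (ZMod 2) d V r = 0 ↔ MvPolynomial.map (Int.castRingHom (ZMod 2)) r = 0 := by
    unfold ph
    rw [RingHom.comp_apply]
    constructor
    · intro h
      exact (IsFractionRing.injective (MvPolynomial ((Fin d × V) ⊕ V) (ZMod 2)) (KK (ZMod 2) d V))
        (h.trans (map_zero _).symm)
    · intro h
      rw [h, map_zero]
  rw [h1]
  have h2 := MvPolynomial.C_dvd_iff_zmod 2 r
  rw [← h2]
  constructor
  · rintro ⟨s, hs⟩
    refine ⟨s, ?_⟩
    rw [hs]
    simp
  · rintro ⟨s, hs⟩
    refine ⟨s, ?_⟩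
    rw [hs]
    simp

private theorem clear_den {σ : Type*} (p : MvPolynomial σ ℚ) :
    ∃ (N : ℤ) (q : MvPolynomial σ ℤ), N ≠ 0 ∧ C (N : ℚ) * p = MvPolynomial.map (Int.castRingHom ℚ) q := by
  induction p using MvPolynomial.induction_on' with
  | monomial u a =>
    refine ⟨a.den, monomial u a.num, by exact_mod_cast a.den_ne_zero, ?_⟩
    rw [C_mul_monomial, map_monomial]
    congr 1
    have := Rat.den_mul_eq_num a
    simpa using this
  | add p q hp hq =>
    obtain ⟨N, p', hN, h1⟩ := hp
    obtain ⟨M, q', hM, h2⟩ := hq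
    refine ⟨N * M, C M * p' + C N * q', mul_ne_zero hN hM, ?_⟩
    rw [map_add, map_mul, map_mul, ← h1, ← h2, map_C, map_C, eq_intCast, eq_intCast, Int.cast_mul, C_mul]
    ring

private theorem frac1 (x : KK ℚ d V) : ∃ e b : RZ d V, e ≠ 0 ∧ ph ℚ d V e * x = ph ℚ d V b := by
  obtain ⟨p, q, hq, hx⟩ := IsFractionRing.div_surjective (A := MvPolynomial ((Fin d × V) ⊕ V) ℚ) x
  obtain ⟨N, p', hN, h1⟩ := clear_den p
  obtain ⟨M, q', hM, h2⟩ := clear_den q
  have hq0 : q ≠ 0 := nonZeroDivisors.ne_zero hq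
  have hq' : q' ≠ 0 := by
    rintro rfl
    rw [map_zero] at h2
    rcases mul_eq_zero.1 h2 with h | h
    · exact hM (by exact_mod_cast (C_eq_zero.1 h))
    · exact hq0 h
  refine ⟨C N * q', C M * p', mul_ne_zero (by simpa using hN) hq', ?_⟩
  have key : ∀ (n : ℤ) (r : RZ d V) (s : MvPolynomial ((Fin d × V) ⊕ V) ℚ), s = MvPolynomial.map (Int.castRingHom ℚ) r →
      ph ℚ d V (C n * r) = algebraMap _ (KK ℚ d V) (C (n : ℚ) * s) := by
    rintro n r s rfl
    unfold ph
    simp
  rw [key N q' _ h2, key M p' _ h1, ← hx]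
  have hq1 : algebraMap (MvPolynomial ((Fin d × V) ⊕ V) ℚ) (KK ℚ d V) q ≠ 0 := by
    intro h
    exact hq0 ((IsFractionRing.injective (MvPolynomial ((Fin d × V) ⊕ V) ℚ) (KK ℚ d V)) (h.trans (map_zero _).symm))
  simp only [map_mul]
  field_simp

theorem ph_Q_frac {J : Type*} [Finite J] (c : J → KK ℚ d V) :
    ∃ (e : RZ d V) (b : J → RZ d V), e ≠ 0 ∧ ∀ j, ph ℚ d V e * c j = ph ℚ d V (b j) := by
  classical
  haveI := Fintype.ofFinite J
  choose e b he hb using fun j => frac1 (c j)
  refine ⟨∏ j, e j, fun j => (∏ i ∈ Finset.univ.erase j, e i) * b j, Finset.prod_ne_zero_iff.2 fun j _ => he j, fun j => ?_⟩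
  rw [← Finset.mul_prod_erase Finset.univ e (Finset.mem_univ j), map_mul, map_mul, ← hb j]
  ring

/-- divide by 2 until something is odd -/
theorem odd_rel {J : Type*} [Finite J] (b : J → RZ d V) (hb : ∃ j, b j ≠ 0) :
    ∃ (n : ℕ) (b' : J → RZ d V), (∀ j, b j = 2 ^ n * b' j) ∧ ∃ j, ¬ ∃ s, b' j = 2 * s := by
  obtain ⟨j0, hj0⟩ := hb
  obtain ⟨m0, hm0⟩ := MvPolynomial.ne_zero_iff.1 hj0
  have key : ∀ (N : ℕ) (b : J → RZ d V), (coeff m0 (b j0)).natAbs = N → coeff m0 (b j0) ≠ 0 →
      ∃ (n : ℕ) (b' : J → RZ d V), (∀ j, b j = 2 ^ n * b' j) ∧ ∃ j, ¬ ∃ s, b' j = 2 * s := by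
    intro N
    induction N using Nat.strong_induction_on with
    | _ N ih =>
      intro b hN hne
      by_cases h : ∃ j, ¬ ∃ s, b j = 2 * s
      · exact ⟨0, b, fun j => by simp, h⟩
      · push Not at h
        choose s hs using h
        have h2 : coeff m0 (b j0) = 2 * coeff m0 (s j0) := by
          have : (2 : RZ d V) = C (2 : ℤ) := by simp
          rw [hs j0, this, coeff_C_mul]
        have h3 : coeff m0 (s j0) ≠ 0 := by
          intro h0
          rw [h2, h0, mul_zero] at hne
          exact hne rfl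
        obtain ⟨n, b', hb', h4⟩ := ih (coeff m0 (s j0)).natAbs (by omega) s rfl h3
        refine ⟨n + 1, b', fun j => ?_, h4⟩
        rw [hs j, hb' j]
        ring
  exact key _ b rfl hm0

theorem semicont {J : Type*} [Finite J] (u : J → MvPolynomial V (RZ d V)) :
    finrank (KK (ZMod 2) d V) (sp (ZMod 2) u) ≤ finrank (KK ℚ d V) (sp ℚ u) := by
  classical
  obtain ⟨κ, a, ha, hsp, hli⟩ := exists_linearIndependent' (KK (ZMod 2) d V)
    (fun j => MvPolynomial.map (ph (ZMod 2) d V) (u j))
  haveI : Finite κ := Finite.of_injective a ha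
  haveI := Fintype.ofFinite κ
  have h1 : finrank (KK (ZMod 2) d V) (sp (ZMod 2) u) = Fintype.card κ := by
    unfold sp
    rw [← hsp]
    exact finrank_span_eq_card hli
  have h2 : LinearIndependent (KK ℚ d V) (fun k : κ => MvPolynomial.map (ph ℚ d V) (u (a k))) := by
    rw [Fintype.linearIndependent_iff]
    intro g hg
    by_contra hne
    push Not at hne
    obtain ⟨k0, hk0⟩ := hne
    obtain ⟨e, b, he, hb⟩ := ph_Q_frac g
    have he' : ph ℚ d V e ≠ 0 := fun h => he (ph_Q_inj V d (h.trans (map_zero _).symm))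
    have hb0 : b k0 ≠ 0 := by
      intro h
      have := hb k0
      rw [h, map_zero] at this
      rcases mul_eq_zero.1 this with h' | h'
      · exact he' h'
      · exact hk0 h'
    obtain ⟨n, b', hb', k1, hk1⟩ := odd_rel b ⟨k0, hb0⟩
    have h3 : MvPolynomial.map (ph ℚ d V) (∑ k, C (b k) * u (a k)) = 0 := by
      have h4 : (C (ph ℚ d V e) : MvPolynomial V (KK ℚ d V)) * ∑ k, g k • MvPolynomial.map (ph ℚ d V) (u (a k)) = 0 := by
        rw [hg, mul_zero]
      rw [Finset.mul_sum] at h4
      rw [map_sum, ← h4]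
      refine Finset.sum_congr rfl fun k _ => ?_
      rw [map_mul, map_C, ← hb k, MvPolynomial.smul_eq_C_mul, C_mul]
      ring
    have h5 : ∑ k, C (b k) * u (a k) = 0 := by
      apply MvPolynomial.map_injective _ (ph_Q_inj V d)
      rw [h3, map_zero]
    have h6 : ∑ k, C (b' k) * u (a k) = 0 := by
      have h7 : (2 : MvPolynomial V (RZ d V)) ^ n * ∑ k, C (b' k) * u (a k) = 0 := by
        rw [← h5, Finset.mul_sum]
        refine Finset.sum_congr rfl fun k _ => ?_
        have h2' : (C (2 : RZ d V) : MvPolynomial V (RZ d V)) = 2 := map_ofNat C 2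
        rw [hb' k, C_mul, C_pow, h2', mul_assoc]
      rcases mul_eq_zero.1 h7 with h8 | h8
      · exact absurd h8 (pow_ne_zero _ two_ne_zero)
      · exact h8
    have h9 : ∑ k, ph (ZMod 2) d V (b' k) • MvPolynomial.map (ph (ZMod 2) d V) (u (a k)) = 0 := by
      have h10 := congrArg (MvPolynomial.map (ph (ZMod 2) d V)) h6
      rw [map_sum, map_zero] at h10
      rw [← h10]
      refine Finset.sum_congr rfl fun k _ => ?_
      rw [map_mul, map_C, MvPolynomial.smul_eq_C_mul]
    have h11 := Fintype.linearIndependent_iff.1 hli (fun k => ph (ZMod 2) d V (b' k)) h9 k1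
    exact hk1 ((ph_2_ker _).1 h11)
  rw [h1, ← finrank_span_eq_card h2]
  haveI : Module.Finite (KK ℚ d V) (sp ℚ u) := by
    unfold sp
    exact FiniteDimensional.span_of_finite _ (Set.finite_range _)
  apply Submodule.finrank_mono
  unfold sp
  apply Submodule.span_mono
  rintro _ ⟨k, rfl⟩
  exact ⟨a k, rfl⟩

end Pool.Agent.LibHB64
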