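import Pool.Agent.LibHB64.TRDefs

set_option autoImplicit false

/-!
[HB64 TR2] MEDIUM. ONLY TRDefs. The `d`-th difference of the number of monomials is the h-vector.
`cnt_eq`: the number of monomials of degree `i` with support exactly `s`, `|s| = c`, is the number of compositions: `i = 0`: 1 if `c = 0`, else 0; `i > 0`: `(i-1).choose (c-1)` for `c ≥ 1` and `0` for `c = 0`; what is needed is only the power series
`∑_i #(support s, degree i) t^i = (t / (1 - t))^c` (`PowerSeries` over `ℤ`; induction on `s`: `Finset.induction`, the exponent of the new vertex is `≥ 1`; or bijection with stars and bars).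
`Sd_coeff`: `Sd X j i = coeff i ((1 - t)^j * ∑_l trcnt X l t^l)` (induction on `j`). Since `|s| ≤ d` for `s ∈ X`: `(1 - t)^d * ∑ trcnt = ∑_c f_c t^c (1 - t)^(d - c)`, `f_c = fnum X c`, whose coefficient at `t^i` is
`∑_(c ≤ i) f_c (-1)^(i-c) (d-c).choose (i-c) = hnum d X i`.
-/

namespace Pool.Agent.LibHB64

variable {V : Type*} [Fintype V] [DecidableEq V]

private noncomputable def TR2_N (s : Finset V) (i : ℕ) : ℕ :=
  {a : V →₀ ℕ | a.support = s ∧ a.degree = i}.ncard

private noncomputable def TR2_P (s : Finset V) : PowerSeries ℤ :=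
  PowerSeries.mk fun i => (TR2_N s i : ℤ)

private theorem TR2_fin (s : Finset V) (i : ℕ) :
    {a : V →₀ ℕ | a.support = s ∧ a.degree = i}.Finite :=
  (Finsupp.finite_of_degree_eq i).subset (fun _ h => h.2)

private theorem TR2_N_empty (i : ℕ) : TR2_N (∅ : Finset V) i = if i = 0 then 1 else 0 := by
  unfold TR2_N
  by_cases hi : i = 0
  · rw [if_pos hi]
    have : {a : V →₀ ℕ | a.support = ∅ ∧ a.degree = i} = {0} := by
      ext a
      constructor
      · rintro ⟨h, _⟩
        exact Finsupp.support_eq_empty.1 h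
      · rintro rfl
        exact ⟨Finsupp.support_zero, by rw [map_zero, hi]⟩
    rw [this, Set.ncard_singleton]
  · rw [if_neg hi]
    have : {a : V →₀ ℕ | a.support = ∅ ∧ a.degree = i} = ∅ := by
      ext a
      constructor
      · rintro ⟨h, h2⟩
        rw [Finsupp.support_eq_empty.1 h, map_zero] at h2
        exact hi h2.symm
      · intro h; exact h.elim
    rw [this, Set.ncard_empty]

private theorem TR2_N_zero {s : Finset V} (hs : s.Nonempty) : TR2_N s 0 = 0 := by
  unfold TR2_N
  have : {a : V →₀ ℕ | a.support = s ∧ a.degree = 0} = ∅ := by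
    ext a
    constructor
    · rintro ⟨h, h2⟩
      rw [Finsupp.degree_eq_zero_iff] at h2
      rw [h2, Finsupp.support_zero] at h
      exact (hs.ne_empty h.symm).elim
    · intro h; exact h.elim
  rw [this, Set.ncard_empty]

private theorem TR2_supp_add {v : V} {b : V →₀ ℕ} :
    (b + Finsupp.single v 1).support = insert v b.support := by
  ext w
  rw [Finset.mem_insert, Finsupp.mem_support_iff, Finsupp.mem_support_iff, Finsupp.add_apply]
  by_cases hw : w = v
  · subst hw; simp
  · rw [Finsupp.single_apply, if_neg (fun e => hw e.symm)]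
    simp [hw]

private theorem TR2_N_succ {s : Finset V} {v : V} (hv : v ∉ s) (i : ℕ) :
    TR2_N (insert v s) (i + 1) = TR2_N (insert v s) i + TR2_N s i := by
  unfold TR2_N
  have hset : {a : V →₀ ℕ | a.support = insert v s ∧ a.degree = i + 1} =
      (fun b => b + Finsupp.single v 1) '' ({a : V →₀ ℕ | a.support = insert v s ∧ a.degree = i} ∪
        {a : V →₀ ℕ | a.support = s ∧ a.degree = i}) := by
    ext a
    constructor
    · rintro ⟨h1, h2⟩
      have hva : a v ≠ 0 := by
        rw [← Finsupp.mem_support_iff, h1]; exact Finset.mem_insert_self _ _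
      have ha : a - Finsupp.single v 1 + Finsupp.single v 1 = a := by
        apply tsub_add_cancel_of_le
        rw [Finsupp.single_le_iff]
        exact Nat.one_le_iff_ne_zero.2 hva
      refine ⟨a - Finsupp.single v 1, ?_, ha⟩
      have hdeg : (a - Finsupp.single v 1).degree = i := by
        have h3 := congrArg Finsupp.degree ha
        rw [map_add, Finsupp.degree_single, h2] at h3
        omega
      have hsub : ∀ w, w ≠ v → (a - Finsupp.single v 1 : V →₀ ℕ) w = a w := by
        intro w hw
        rw [Finsupp.tsub_apply, Finsupp.single_apply, if_neg (fun e => hw e.symm), Nat.sub_zero]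
      by_cases h4 : (a - Finsupp.single v 1 : V →₀ ℕ) v = 0
      · right
        refine ⟨?_, hdeg⟩
        ext w
        rw [Finsupp.mem_support_iff]
        by_cases hw : w = v
        · subst hw
          exact ⟨fun h => absurd h4 h, fun h => absurd h hv⟩
        · rw [hsub w hw, ← Finsupp.mem_support_iff, h1, Finset.mem_insert]
          simp [hw]
      · left
        refine ⟨?_, hdeg⟩
        ext w
        rw [Finsupp.mem_support_iff]
        by_cases hw : w = v
        · subst hw
          exact ⟨fun _ => Finset.mem_insert_self _ _, fun _ => h4⟩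
        · rw [hsub w hw, ← Finsupp.mem_support_iff, h1]
    · rintro ⟨b, hb, rfl⟩
      rcases hb with ⟨h1, h2⟩ | ⟨h1, h2⟩
      · refine ⟨?_, ?_⟩
        · rw [TR2_supp_add, h1, Finset.insert_eq_of_mem (Finset.mem_insert_self _ _)]
        · rw [map_add, Finsupp.degree_single, h2]
      · refine ⟨?_, ?_⟩
        · rw [TR2_supp_add, h1]
        · rw [map_add, Finsupp.degree_single, h2]
  rw [hset, Set.ncard_image_of_injective _ (add_left_injective _),
    Set.ncard_union_eq _ (TR2_fin _ _) (TR2_fin _ _)]
  rw [Set.disjoint_left]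
  rintro a ⟨h1, _⟩ ⟨h2, _⟩
  rw [h1] at h2
  exact hv (h2 ▸ Finset.mem_insert_self v s)

private theorem TR2_P_eq (s : Finset V) :
    (1 - PowerSeries.X) ^ s.card * TR2_P s = (PowerSeries.X : PowerSeries ℤ) ^ s.card := by
  induction s using Finset.induction_on with
  | empty =>
    rw [Finset.card_empty, pow_zero, pow_zero, one_mul]
    ext i
    rw [TR2_P, PowerSeries.coeff_mk, TR2_N_empty, PowerSeries.coeff_one]
    split_ifs <;> simp
  | insert v s hv ih =>
    rw [Finset.card_insert_of_notMem hv]
    have h1 : (1 - PowerSeries.X) * TR2_P (insert v s) = PowerSeries.X * TR2_P s := by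
      ext i
      rw [sub_mul, one_mul, map_sub]
      cases i with
      | zero =>
        rw [PowerSeries.coeff_zero_X_mul, PowerSeries.coeff_zero_X_mul, TR2_P, PowerSeries.coeff_mk,
          TR2_N_zero (Finset.insert_nonempty v s)]
        simp
      | succ i =>
        rw [PowerSeries.coeff_succ_X_mul, PowerSeries.coeff_succ_X_mul, TR2_P, TR2_P,
          PowerSeries.coeff_mk, PowerSeries.coeff_mk, PowerSeries.coeff_mk, TR2_N_succ hv]
        push_cast
        ring
    rw [pow_succ, mul_assoc, h1, ← mul_assoc, mul_comm ((1 - PowerSeries.X) ^ s.card), mul_assoc, ih,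
      ← pow_succ']

private theorem TR2_cnt (X : Finset (Finset V)) (i : ℕ) : trcnt X i = ∑ s ∈ X, TR2_N s i := by
  classical
  unfold trcnt TR2_N
  set T : Finset (V →₀ ℕ) := (Finsupp.finite_of_degree_eq (σ := V) i).toFinset with hT
  have hTm : ∀ a, a ∈ T ↔ a.degree = i := fun a => by
    rw [hT, Set.Finite.mem_toFinset]; rfl
  have e1 : {a : V →₀ ℕ | a.support ∈ X ∧ a.degree = i} =
      ((T.filter fun a => a.support ∈ X : Finset (V →₀ ℕ)) : Set (V →₀ ℕ)) := by
    ext a
    rw [Finset.mem_coe, Finset.mem_filter, hTm]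
    exact and_comm
  have e2 : ∀ s, {a : V →₀ ℕ | a.support = s ∧ a.degree = i} =
      ((T.filter fun a => a.support = s : Finset (V →₀ ℕ)) : Set (V →₀ ℕ)) := by
    intro s
    ext a
    rw [Finset.mem_coe, Finset.mem_filter, hTm]
    exact and_comm
  rw [e1, Set.ncard_coe_finset]
  rw [Finset.card_eq_sum_card_fiberwise (s := T.filter fun a => a.support ∈ X)
    (f := fun a : V →₀ ℕ => a.support) (t := X) (fun a ha => (Finset.mem_filter.1 ha).2)]
  apply Finset.sum_congr rfl
  intro s hs
  rw [e2, Set.ncard_coe_finset]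
  congr 1
  ext a
  rw [Finset.mem_filter, Finset.mem_filter, Finset.mem_filter]
  constructor
  · rintro ⟨⟨h1, _⟩, h3⟩; exact ⟨h1, h3⟩
  · rintro ⟨h1, h3⟩; exact ⟨⟨h1, by rw [h3]; exact hs⟩, h3⟩

private theorem TR2_Sd (X : Finset (Finset V)) (j : ℕ) :
    (PowerSeries.mk fun i => Sd X j i) =
      (1 - PowerSeries.X) ^ j * (PowerSeries.mk fun i => (trcnt X i : ℤ)) := by
  induction j with
  | zero => rw [pow_zero, one_mul]; rfl
  | succ j ih =>
    rw [pow_succ', mul_assoc, ← ih, sub_mul, one_mul]
    ext i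
    rw [map_sub]
    cases i with
    | zero =>
      rw [PowerSeries.coeff_zero_X_mul, PowerSeries.coeff_mk, PowerSeries.coeff_mk, sub_zero]
      rfl
    | succ i =>
      rw [PowerSeries.coeff_succ_X_mul, PowerSeries.coeff_mk, PowerSeries.coeff_mk,
        PowerSeries.coeff_mk]
      rfl

private theorem TR2_binom (n i : ℕ) :
    PowerSeries.coeff i ((1 - PowerSeries.X : PowerSeries ℤ) ^ n) = (-1) ^ i * (n.choose i : ℤ) := by
  have h1 : (1 - PowerSeries.X : PowerSeries ℤ) ^ n =
      (((1 - Polynomial.X : Polynomial ℤ) ^ n : Polynomial ℤ) : PowerSeries ℤ) := by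
    simp
  rw [h1, Polynomial.coeff_coe]
  have h2 : (1 - Polynomial.X : Polynomial ℤ) ^ n =
      ∑ m ∈ Finset.range (n + 1), (-Polynomial.X) ^ m * (n.choose m : Polynomial ℤ) := by
    rw [sub_eq_add_neg, add_comm, add_pow]
    simp
  rw [h2, Polynomial.finsetSum_coeff]
  have h3 : ∀ m, ((-Polynomial.X : Polynomial ℤ) ^ m * (n.choose m : Polynomial ℤ)).coeff i =
      if m = i then (-1) ^ i * (n.choose i : ℤ) else 0 := by
    intro m
    rw [neg_pow, show ((-1 : Polynomial ℤ) ^ m * Polynomial.X ^ m * (n.choose m : Polynomial ℤ)) =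
      Polynomial.C ((-1) ^ m * (n.choose m : ℤ)) * Polynomial.X ^ m by
        simp only [map_mul, map_pow, map_neg, map_one, map_natCast]; ring]
    rw [Polynomial.coeff_C_mul_X_pow]
    split_ifs with h4 h5 h5
    · rw [h4]
    · exact absurd h4.symm h5
    · exact absurd h5.symm h4
    · rfl
  simp only [h3]
  rw [Finset.sum_ite_eq']
  split_ifs with h
  · rfl
  · rw [Finset.mem_range, not_lt] at h
    rw [Nat.choose_eq_zero_of_lt (by omega)]
    simp

theorem Sd_hnum {d : ℕ} {X : Finset (Finset V)} (hX : ∀ s ∈ X, s.card ≤ d) (i : ℕ) : Sd X d i = hnum d X i := by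
  have h0 : (PowerSeries.mk fun i => (trcnt X i : ℤ)) = ∑ s ∈ X, TR2_P s := by
    ext l
    rw [PowerSeries.coeff_mk, map_sum, TR2_cnt]
    push_cast
    apply Finset.sum_congr rfl
    intro s _
    rw [TR2_P, PowerSeries.coeff_mk]
  have h1 : (PowerSeries.mk fun i => Sd X d i) =
      ∑ s ∈ X, PowerSeries.X ^ s.card * (1 - PowerSeries.X) ^ (d - s.card) := by
    rw [TR2_Sd, h0, Finset.mul_sum]
    apply Finset.sum_congr rfl
    intro s hs
    rw [← TR2_P_eq s, show d = (d - s.card) + s.card by have := hX s hs; omega, pow_add,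
      Nat.add_sub_cancel]
    ring
  have h2 := congrArg (PowerSeries.coeff i) h1
  rw [PowerSeries.coeff_mk, map_sum] at h2
  rw [h2]
  have h3 : ∀ s : Finset V, PowerSeries.coeff i
      ((PowerSeries.X : PowerSeries ℤ) ^ s.card * (1 - PowerSeries.X) ^ (d - s.card)) =
      if s.card ≤ i then (-1) ^ (i - s.card) * ((d - s.card).choose (i - s.card) : ℤ) else 0 := by
    intro s
    rw [PowerSeries.coeff_X_pow_mul']
    split_ifs
    · rw [TR2_binom]
    · rfl
  simp only [h3]
  unfold hnum
  have h4 : ∀ c ∈ Finset.range (i + 1), (-1 : ℤ) ^ (i - c) * ((d - c).choose (i - c) : ℤ) * (fnum X c : ℤ) =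
      ∑ s ∈ X with s.card = c, (-1) ^ (i - s.card) * ((d - s.card).choose (i - s.card) : ℤ) := by
    intro c _
    rw [Finset.sum_congr rfl (g := fun _ => (-1 : ℤ) ^ (i - c) * ((d - c).choose (i - c) : ℤ))
      (fun s hs => by rw [(Finset.mem_filter.1 hs).2])]
    rw [Finset.sum_const, nsmul_eq_mul, mul_comm]
    rfl
  rw [Finset.sum_congr rfl h4, ← Finset.sum_filter]
  rw [← Finset.sum_fiberwise_of_maps_to (s := X.filter fun s => s.card ≤ i) (t := Finset.range (i + 1))
    (g := fun s => s.card) (fun s hs => Finset.mem_range.2 (Nat.lt_succ_of_le (Finset.mem_filter.1 hs).2))]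
  apply Finset.sum_congr rfl
  intro c hc
  apply Finset.sum_congr _ (fun _ _ => rfl)
  ext s
  rw [Finset.mem_filter, Finset.mem_filter, Finset.mem_filter]
  constructor
  · rintro ⟨⟨h5, _⟩, h6⟩; exact ⟨h5, h6⟩
  · rintro ⟨h5, h6⟩
    exact ⟨⟨h5, by rw [h6]; exact Nat.lt_succ_iff.1 (Finset.mem_range.1 hc)⟩, h6⟩

end Pool.Agent.LibHB64
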