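import Pool.Agent.LibHB64.TR1

set_option autoImplicit false

/-!
[HB64 TR3] MEDIUM. ONLY TRDefs, TR1. Partial sequences over any field. `b : ℕ → V → K` is an infinite sequence of linear forms; `Th D X (fun t : Fin j => b t) i` = the part of degree `i` of `(θ_0, ..., θ_(j-1)) M`.
`Th_step`: `T_j := Th D X (fun t : Fin j => b t)`. For `i + 1`: `T_(j+1) (i+1) = T_j (i+1) ⊔ (mon K X i).map (mulD D (th ..))` (the `⨆` over `Fin (j+1)` splits off the last one: `Fin.lastCases`/`iSup_fin_succ`-like; `th (fun t : Fin j => b t) t = om (b t)`),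
and `mulD D (om (b j))` maps `T_j i ≤ mon K X i` into `T_j (i+1)` (`Th_mulD`), so the map `mon K X i → T_(j+1) (i+1) / T_j (i+1)` is surjective and kills `T_j i`: dimensions.
`num_lemma`: pure integers. Induction on `i`: if `H j (i-1) = S j (i-1)` for all `j ≤ d`, then `H (j+1) i - S (j+1) i ≥ H j i - S j i`; starts with `0` at `j = 0` and ends `≤ 0` at `j = d`, so all are `0`.
`Hilb`: combine for `b` extending `a`, `H j i = finrank (mon K X i) - finrank (T_j i)`, `S = Sd X`, `mon_finrank`.
-/

namespace Pool.Agent.LibHB64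

open MvPolynomial Module

variable {V : Type*} [Fintype V] [DecidableEq V] {K : Type*} [Field K] {d : ℕ} {D X : Finset (Finset V)}

private theorem TR3_lin {E : Type*} [AddCommGroup E] [Module K E] (f : E →ₗ[K] E) (A M B : Submodule K E)
    [FiniteDimensional K A] [FiniteDimensional K M] (hB : B ≤ M) (hf : ∀ w ∈ B, f w ∈ A) :
    finrank K (A ⊔ M.map f : Submodule K E) + finrank K B ≤ finrank K A + finrank K M := by
  obtain ⟨φ, hφ⟩ : ∃ φ : (A × M) →ₗ[K] E, φ = A.subtype.coprod (f.comp M.subtype) := ⟨_, rfl⟩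
  have h1 : LinearMap.range φ = A ⊔ M.map f := by
    rw [hφ, LinearMap.range_coprod, Submodule.range_subtype, LinearMap.range_comp, Submodule.range_subtype]
  have h2 := LinearMap.finrank_range_add_finrank_ker φ
  rw [h1, Module.finrank_prod] at h2
  have hφ2 : ∀ x : A × M, φ x = (x.1 : E) + f (x.2 : E) := by
    intro x
    rw [hφ]
    rfl
  let ψ : B →ₗ[K] LinearMap.ker φ :=
    { toFun := fun b => ⟨(-⟨f b, hf b b.2⟩, ⟨b, hB b.2⟩), by
        rw [LinearMap.mem_ker, hφ2]
        simp⟩
      map_add' := fun x y => by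
        apply Subtype.ext
        refine Prod.ext ?_ ?_
        · apply Subtype.ext
          simp
          abel
        · rfl
      map_smul' := fun c x => by
        apply Subtype.ext
        refine Prod.ext ?_ ?_
        · apply Subtype.ext
          simp
        · rfl }
  have h3 : Function.Injective ψ := by
    intro x y hxy
    have h4 : ((ψ x).1.2 : E) = ((ψ y).1.2 : E) := by rw [hxy]
    exact Subtype.ext h4
  have h4 := LinearMap.finrank_le_finrank_of_injective h3
  omega

theorem Th_step (hD : IsCx D) (hX : UpIn D X) (b : ℕ → V → K) (j i : ℕ) :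
    finrank K (Th D X (fun t : Fin (j + 1) => b t) (i + 1)) + finrank K (Th D X (fun t : Fin j => b t) i) ≤
      finrank K (Th D X (fun t : Fin j => b t) (i + 1)) + finrank K (mon K X i) := by
  have h1 : Th D X (fun t : Fin (j + 1) => b t) (i + 1) =
      Th D X (fun t : Fin j => b t) (i + 1) ⊔ (mon K X i).map (mulD D (om (b j))) := by
    change (⨆ t : Fin (j + 1), (mon K X i).map (mulD D (th (fun t : Fin (j + 1) => b t) t))) =
      (⨆ t : Fin j, (mon K X i).map (mulD D (th (fun t : Fin j => b t) t))) ⊔ (mon K X i).map (mulD D (om (b j)))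
    apply le_antisymm
    · refine iSup_le fun t => ?_
      rcases lt_or_eq_of_le (Nat.lt_succ_iff.1 t.2) with h | h
      · refine le_trans ?_ le_sup_left
        exact le_iSup (fun t : Fin j => (mon K X i).map (mulD D (th (fun t : Fin j => b t) t))) ⟨t, h⟩
      · refine le_trans (le_of_eq ?_) le_sup_right
        have h2 : th (fun t : Fin (j + 1) => b t) t = om (b j) := by
          rw [th, om, h]
        rw [h2]
    · refine sup_le (iSup_le fun t => ?_) ?_
      · exact le_iSup (fun t : Fin (j + 1) => (mon K X i).map (mulD D (th (fun t : Fin (j + 1) => b t) t)))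
          (Fin.castSucc t)
      · exact le_iSup (fun t : Fin (j + 1) => (mon K X i).map (mulD D (th (fun t : Fin (j + 1) => b t) t)))
          (Fin.last j)
  rw [h1]
  have f1 : FiniteDimensional K (mon K X i) := tr_mon_fin X i
  have f2 : FiniteDimensional K (mon K X (i + 1)) := tr_mon_fin X (i + 1)
  have f3 : FiniteDimensional K (Th D X (fun t : Fin j => b t) (i + 1)) :=
    Submodule.finiteDimensional_of_le (Th_le hX _ _)
  refine TR3_lin (mulD D (om (b j))) _ _ _ (Th_le hX _ _) fun w hw => ?_
  have h3 := Th_mulD hD hX (fun t : Fin j => b t) (om_hom (b j)) hw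
  rw [add_comm] at h3
  exact h3

theorem num_lemma (d N : ℕ) (H S : ℕ → ℕ → ℤ) (h0 : ∀ i, H 0 i = S 0 i) (hz : ∀ j, H (j + 1) 0 = H j 0)
    (sz : ∀ j, S (j + 1) 0 = S j 0) (ss : ∀ j i, S (j + 1) (i + 1) = S j (i + 1) - S j i)
    (hs : ∀ j i, H j (i + 1) - H j i ≤ H (j + 1) (i + 1)) (hd : ∀ i, i ≤ N → H d i ≤ S d i) :
    ∀ i, i ≤ N → ∀ j, j ≤ d → H j i = S j i := by
  intro i
  induction i with
  | zero =>
    intro _ j _
    induction j with
    | zero => exact h0 0
    | succ j ih => rw [hz, sz, ih (by omega)]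
  | succ i ih =>
    intro hi j hj
    have ih' := ih (by omega)
    have hmono : ∀ k l, k ≤ l → l ≤ d → H k (i + 1) - S k (i + 1) ≤ H l (i + 1) - S l (i + 1) := by
      intro k l hkl
      induction l, hkl using Nat.le_induction with
      | base => intro _; exact le_refl _
      | succ l hkl ih2 =>
        intro hl
        have h1 := ih2 (by omega)
        have h2 := hs l i
        have h3 := ss l i
        have h4 := ih' l (by omega)
        omega
    have h1 := hmono 0 j (Nat.zero_le _) hj
    have h2 := hmono j d hj le_rfl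
    have h3 := hd (i + 1) hi
    have h4 := h0 (i + 1)
    omega

theorem Hilb (hD : IsCx D) (hX : UpIn D X) (a : Fin d → V → K) (N : ℕ)
    (h : ∀ i, i ≤ N → (trcnt X i : ℤ) - finrank K (Th D X a i) ≤ Sd X d i) (i : ℕ) (hi : i ≤ N) :
    (trcnt X i : ℤ) - finrank K (Th D X a i) = Sd X d i := by
  obtain ⟨b, hb⟩ : ∃ b : ℕ → V → K, b = fun t => if h : t < d then a ⟨t, h⟩ else 0 := ⟨_, rfl⟩
  have hab : (fun t : Fin d => b t) = a := by
    funext t
    rw [hb]
    simp
  have key := num_lemma d N (fun j i => (trcnt X i : ℤ) - finrank K (Th D X (fun t : Fin j => b t) i)) (Sd X)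
    ?_ ?_ ?_ ?_ ?_ ?_ i hi d le_rfl
  · change (trcnt X i : ℤ) - finrank K (Th D X (fun t : Fin d => b t) i) = Sd X d i at key
    rw [hab] at key
    exact key
  · intro i
    change (trcnt X i : ℤ) - finrank K (Th D X (fun t : Fin 0 => b t) i) = trcnt X i
    have h1 : Th D X (fun t : Fin 0 => b t) i = ⊥ := by
      rcases i with _ | i
      · rfl
      · exact iSup_of_empty _
    rw [h1, finrank_bot]
    simp
  · intro j
    rfl
  · intro j
    rfl
  · intro j i
    rfl
  · intro j i
    have h1 := Th_step hD hX b j i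
    rw [mon_finrank] at h1
    have h2 : ((finrank K (Th D X (fun t : Fin (j + 1) => b t) (i + 1)) + finrank K (Th D X (fun t : Fin j => b t) i) : ℕ) : ℤ) ≤
      ((finrank K (Th D X (fun t : Fin j => b t) (i + 1)) + trcnt X i : ℕ) : ℤ) := by exact_mod_cast h1
    push_cast at h2
    change (trcnt X (i + 1) : ℤ) - finrank K (Th D X (fun t : Fin j => b t) (i + 1)) -
      ((trcnt X i : ℤ) - finrank K (Th D X (fun t : Fin j => b t) i)) ≤
      (trcnt X (i + 1) : ℤ) - finrank K (Th D X (fun t : Fin (j + 1) => b t) (i + 1))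
    linarith
  · intro i hi
    change (trcnt X i : ℤ) - finrank K (Th D X (fun t : Fin d => b t) i) ≤ Sd X d i
    rw [hab]
    exact h i hi

end Pool.Agent.LibHB64
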