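import Pool.Agent.LibHB64.TR1

set_option autoImplicit false

/-!
[HB64 TR4] MEDIUM. ONLY TRDefs, TR1. Integer models of the spaces.
`Th_model`: `i = 0`: empty family; `i + 1`: `J = Fin d × {u : V →₀ ℕ // u.support ∈ X ∧ u.degree = i}` (finite), `u_(j, w) = ∑ v, if (w + single v 1).support ∈ D then monomial (w + single v 1) (X (Sum.inl (j, v))) else 0`
(`mulD D (th a j) (monomial w 1)` is its image since `ph k (X (inl (j, v))) = ga k d V j v`). `om_model`: the generators `mulD D (om (gl k) ^ n) (monomial w 1)`, `w` with support in `X` of degree `i`: the polynomial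
`om (fun v => X (Sum.inr v)) ^ n * monomial w 1` over `ℤ[a, λ]` with the monomials outside `D` dropped (a sum over its support), mapped coefficientwise: `MvPolynomial.map (ph k)` commutes with `om`, powers and products.
`model_sup`: the supremum of two spans is the span of the family on the sum type.
-/

namespace Pool.Agent.LibHB64

open MvPolynomial Module

variable {V : Type} [Fintype V] [DecidableEq V] {d : ℕ} {D X : Finset (Finset V)}

/-- the polynomial with the monomials outside `D` dropped -/
private noncomputable def TR4_P {R : Type*} [CommSemiring R] (D : Finset (Finset V)) (p : MvPolynomial V R) :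
    MvPolynomial V R :=
  ∑ b ∈ p.support, if b.support ∈ D then monomial b (coeff b p) else 0

private theorem TR4_coeff {R : Type*} [CommSemiring R] (D : Finset (Finset V)) (p : MvPolynomial V R) (b : V →₀ ℕ) :
    coeff b (TR4_P D p) = if b.support ∈ D then coeff b p else 0 := by
  classical
  unfold TR4_P
  rw [coeff_sum]
  have h1 : ∀ c ∈ p.support, coeff b (if c.support ∈ D then monomial c (coeff c p) else 0) =
      if b = c then (if b.support ∈ D then coeff b p else 0) else 0 := by
    intro c _
    by_cases hc : b = c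
    · subst hc
      rw [if_pos rfl]
      split_ifs
      · rw [coeff_monomial, if_pos rfl]
      · rw [coeff_zero]
    · rw [if_neg hc]
      split_ifs
      · rw [coeff_monomial, if_neg (fun e => hc e.symm)]
      · rw [coeff_zero]
  rw [Finset.sum_congr rfl h1, Finset.sum_ite_eq]
  split_ifs with h2 h3
  · rfl
  · rfl
  · rw [notMem_support_iff.1 h2]
  · rfl

private theorem TR4_map (k : Type) [Field k] (D : Finset (Finset V)) (p : MvPolynomial V (RZ d V)) :
    MvPolynomial.map (ph k d V) (TR4_P D p) = proj (KK k d V) D (MvPolynomial.map (ph k d V) p) := by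
  ext b
  rw [coeff_map, TR4_coeff, tr_coeff_proj, coeff_map]
  split_ifs
  · rfl
  · rw [map_zero]

private theorem TR4_fin (X : Finset (Finset V)) (i : ℕ) :
    Finite {u : V →₀ ℕ // u.support ∈ X ∧ u.degree = i} :=
  Set.Finite.to_subtype ((Finsupp.finite_of_degree_eq (σ := V) i).subset (fun _ h => h.2))

private theorem TR4_gen (k : Type) [Field k] (D X : Finset (Finset V)) (i : ℕ) (q : MvPolynomial V (RZ d V)) :
    (mon (KK k d V) X i).map (mulD D (MvPolynomial.map (ph k d V) q)) =
      sp k (fun w : {u : V →₀ ℕ // u.support ∈ X ∧ u.degree = i} => TR4_P D (q * monomial w.1 1)) := by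
  unfold mon sp
  rw [Submodule.map_span]
  congr 1
  ext p
  constructor
  · rintro ⟨_, ⟨a, h1, h2, rfl⟩, rfl⟩
    refine ⟨⟨a, h1, h2⟩, ?_⟩
    show MvPolynomial.map (ph k d V) (TR4_P D (q * monomial a 1)) = _
    rw [TR4_map, map_mul, map_monomial, map_one (ph k d V)]
    rfl
  · rintro ⟨⟨a, h1, h2⟩, rfl⟩
    refine ⟨monomial a 1, ⟨a, h1, h2, rfl⟩, ?_⟩
    show _ = MvPolynomial.map (ph k d V) (TR4_P D (q * monomial a 1))
    rw [TR4_map, map_mul, map_monomial, map_one (ph k d V)]
    rfl

private theorem TR4_ph (k : Type) [Field k] (s : (Fin d × V) ⊕ V) :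
    ph k d V (MvPolynomial.X s) =
      algebraMap (MvPolynomial ((Fin d × V) ⊕ V) k) (KK k d V) (MvPolynomial.X s) := by
  unfold ph
  rw [RingHom.comp_apply, map_X]

private noncomputable def TR4_th (d : ℕ) (V : Type) [Fintype V] (j : Fin d) : MvPolynomial V (RZ d V) :=
  ∑ v, C (MvPolynomial.X (Sum.inl (j, v))) * MvPolynomial.X v

private noncomputable def TR4_om (d : ℕ) (V : Type) [Fintype V] : MvPolynomial V (RZ d V) :=
  ∑ v, C (MvPolynomial.X (Sum.inr v)) * MvPolynomial.X v

private theorem TR4_th_map (k : Type) [Field k] (j : Fin d) :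
    MvPolynomial.map (ph k d V) (TR4_th d V j) = th (ga k d V) j := by
  unfold TR4_th th ga
  rw [map_sum]
  apply Finset.sum_congr rfl
  intro v _
  rw [map_mul, map_X, map_C, TR4_ph]

private theorem TR4_om_map (k : Type) [Field k] :
    MvPolynomial.map (ph k d V) (TR4_om d V) = om (gl k d V) := by
  unfold TR4_om om gl
  rw [map_sum]
  apply Finset.sum_congr rfl
  intro v _
  rw [map_mul, map_X, map_C, TR4_ph]

theorem Th_model (D X : Finset (Finset V)) (d i : ℕ) : ∃ (J : Type) (_ : Finite J) (u : J → MvPolynomial V (RZ d V)),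
    ∀ (k : Type) [Field k], Th D X (ga k d V) i = sp k u := by
  cases i with
  | zero =>
    refine ⟨Empty, inferInstance, fun e => e.elim, ?_⟩
    intro k _
    unfold sp
    rw [Set.range_eq_empty, Submodule.span_empty]
    rfl
  | succ i =>
    have := TR4_fin X i
    refine ⟨Fin d × {u : V →₀ ℕ // u.support ∈ X ∧ u.degree = i}, inferInstance,
      fun p => TR4_P D (TR4_th d V p.1 * monomial p.2.1 1), ?_⟩
    intro k _
    have h1 : Th D X (ga k d V) (i + 1) =
        ⨆ j : Fin d, (mon (KK k d V) X i).map (mulD D (th (ga k d V) j)) := rfl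
    rw [h1]
    have h2 : ∀ j : Fin d, (mon (KK k d V) X i).map (mulD D (th (ga k d V) j)) =
        sp k (fun w : {u : V →₀ ℕ // u.support ∈ X ∧ u.degree = i} =>
          TR4_P D (TR4_th d V j * monomial w.1 1)) := by
      intro j
      rw [← TR4_th_map, TR4_gen]
    simp only [h2]
    unfold sp
    rw [← Submodule.span_iUnion]
    congr 1
    ext p
    simp only [Set.mem_iUnion, Set.mem_range, Prod.exists]

theorem om_model (D X : Finset (Finset V)) (d n i : ℕ) :
    ∃ (J : Type) (_ : Finite J) (u : J → MvPolynomial V (RZ d V)),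
      ∀ (k : Type) [Field k], (mon (KK k d V) X i).map (mulD D (om (gl k d V) ^ n)) = sp k u := by
  have := TR4_fin X i
  refine ⟨{u : V →₀ ℕ // u.support ∈ X ∧ u.degree = i}, inferInstance,
    fun w => TR4_P D (TR4_om d V ^ n * monomial w.1 1), ?_⟩
  intro k _
  rw [← TR4_om_map, ← map_pow, TR4_gen]

theorem model_sup {J₁ J₂ : Type} (u : J₁ → MvPolynomial V (RZ d V)) (w : J₂ → MvPolynomial V (RZ d V)) (k : Type)
    [Field k] : sp k u ⊔ sp k w = sp k (Sum.elim u w) := by
  unfold sp
  rw [← Submodule.span_union]
  congr 1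
  ext p
  simp only [Set.mem_union, Set.mem_range, Sum.exists, Sum.elim_inl, Sum.elim_inr]

end Pool.Agent.LibHB64
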