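import Pool.Agent.LibHB64.IfTR
import Pool.Agent.LibHB64.TR0
import Pool.Agent.LibHB64.TR2
import Pool.Agent.LibHB64.TR3
import Pool.Agent.LibHB64.TR4

set_option autoImplicit false

/-!
[HB64 TR5] MEDIUM. Cites IfTR (statements of other blocks), TR0-TR4. Transfer of the Hilbert functions to `ℚ(a, λ)`.
`up_X`: `X = D` or `X = D \ B` is closed upwards in `D` (`B` is a complex: `h.sph.1`). `Q_dim`: over `KK (ZMod 2)` (characteristic 2: `CharP (KK (ZMod 2) d V) 2`, from `CharP` of `MvPolynomial` and `charP_of_injective_algebraMap` for the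
fraction field) `CM_dimX` (with `gen_exists (ZMod 2)`, `pure`) gives `trcnt X i - finrank Th = hnum d X i = Sd X d i` (`Sd_hnum`, `mon_finrank`); by `Th_model` and `semicont` the rank over `ℚ` is at least the rank over `ZMod 2`, so
`trcnt X i - finrank Th ≤ Sd X d i` over `KK ℚ` for `i ≤ d`; `Hilb` gives equality.
-/

namespace Pool.Agent.LibHB64

open MvPolynomial Module

variable {V : Type} [Fintype V] [DecidableEq V] {d : ℕ} {D B : Finset (Finset V)}

theorem up_X (h : HBallB d D B) (X : Finset (Finset V)) (hX : X = D ∨ X = D \ B) : UpIn D X := by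
  rcases hX with rfl | rfl
  · exact ⟨Finset.Subset.refl _, fun _ _ t ht _ => ht⟩
  · refine ⟨Finset.sdiff_subset, fun s hs t ht hst => ?_⟩
    rw [Finset.mem_sdiff] at hs ⊢
    exact ⟨ht, fun hB => hs.2 (h.sph.1.2 t hB s hst)⟩

theorem charP_KK (d : ℕ) (V : Type) : CharP (KK (ZMod 2) d V) 2 :=
  charP_of_injective_algebraMap
    (IsFractionRing.injective (MvPolynomial ((Fin d × V) ⊕ V) (ZMod 2)) (KK (ZMod 2) d V)) 2

theorem two_dim (h : HBallB d D B) (X : Finset (Finset V)) (hX : X = D ∨ X = D \ B) (i : ℕ) (hi : i ≤ d) :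
    (trcnt X i : ℤ) = finrank (KK (ZMod 2) d V) (Th D X (ga (ZMod 2) d V) i) + hnum d X i := by
  have := charP_KK d V
  rw [← mon_finrank (K := KK (ZMod 2) d V)]
  exact CM_dimX h (gen_exists (ZMod 2) h.cx (pure h)).1 X hX i

theorem Q_dim (h : HBallB d D B) (X : Finset (Finset V)) (hX : X = D ∨ X = D \ B) (i : ℕ) (hi : i ≤ d) :
    (trcnt X i : ℤ) = finrank (KK ℚ d V) (Th D X (ga ℚ d V) i) + hnum d X i := by
  have hU := up_X h X hX
  have hc : ∀ s ∈ X, s.card ≤ d := fun s hs => h.card s (hU.1 hs)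
  have h1 : ∀ l, l ≤ d → (trcnt X l : ℤ) - finrank (KK ℚ d V) (Th D X (ga ℚ d V) l) ≤ Sd X d l := by
    intro l hl
    have h2 := two_dim h X hX l hl
    have h3 : finrank (KK (ZMod 2) d V) (Th D X (ga (ZMod 2) d V) l) ≤
        finrank (KK ℚ d V) (Th D X (ga ℚ d V) l) := by
      obtain ⟨J, hJ, u, hu⟩ := Th_model D X d l
      rw [hu (ZMod 2), hu ℚ]
      exact semicont u
    rw [Sd_hnum hc l, h2]
    have h4 : (finrank (KK (ZMod 2) d V) (Th D X (ga (ZMod 2) d V) l) : ℤ) ≤
        finrank (KK ℚ d V) (Th D X (ga ℚ d V) l) := by exact_mod_cast h3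
    omega
  have h5 := Hilb h.cx hU (ga ℚ d V) d h1 i hi
  rw [Sd_hnum hc i] at h5
  omega

end Pool.Agent.LibHB64
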