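import Pool.Agent.LibHB64.Defs

set_option autoImplicit false

/-!
Definitions for the transfer block (TR) of MP_8accfa_co: integer models, iterated differences.
-/

namespace Pool.Agent.LibHB64

open MvPolynomial Module

/-- polynomials with integer coefficients in the variables `a_(j,v)` and `λ_v` -/
abbrev RZ (d : ℕ) (V : Type*) : Type _ := MvPolynomial ((Fin d × V) ⊕ V) ℤ

/-- the natural map to the field of rational functions over `k` -/
noncomputable def ph (k : Type*) [Field k] (d : ℕ) (V : Type*) : RZ d V →+* KK k d V :=
  (algebraMap (MvPolynomial ((Fin d × V) ⊕ V) k) (KK k d V)).comp (MvPolynomial.map (Int.castRingHom k))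

/-- the span over `k(a, λ)` of a family of polynomials with coefficients in `ℤ[a, λ]` -/
noncomputable def sp (k : Type*) [Field k] {d : ℕ} {V : Type*} {J : Type*} (u : J → MvPolynomial V (RZ d V)) :
    Submodule (KK k d V) (MvPolynomial V (KK k d V)) :=
  Submodule.span (KK k d V) (Set.range fun j => MvPolynomial.map (ph k d V) (u j))

variable {V : Type*} [Fintype V] [DecidableEq V]

/-- number of monomials of degree `i` with support in the family `X` -/
noncomputable def trcnt (X : Finset (Finset V)) (i : ℕ) : ℕ := {a : V →₀ ℕ | a.support ∈ X ∧ a.degree = i}.ncard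

/-- iterated differences of `trcnt X` -/
noncomputable def Sd (X : Finset (Finset V)) : ℕ → ℕ → ℤ
  | 0, i => trcnt X i
  | j + 1, 0 => Sd X j 0
  | j + 1, i + 1 => Sd X j (i + 1) - Sd X j i

/-- `X` is a subfamily of `D` closed upwards in `D` -/
def UpIn (D X : Finset (Finset V)) : Prop := X ⊆ D ∧ ∀ s ∈ X, ∀ t ∈ D, s ⊆ t → t ∈ X

end Pool.Agent.LibHB64
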